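import Pool.Agent.Work.MP_f94384_co.Big.R2.Dat
import Pool.Agent.Work.MP_f94384_co.Big.Rng
set_option autoImplicit false
set_option maxRecDepth 1000000
set_option linter.all false

/-! Checks of the certificate (generated) -/

namespace Pool.Agent.Work.MP_f94384_co.Big.R2

theorem g1_17 : allL (fun k => (cG dt) (Nat.add 17 k)) 3 = true := by decide +kernel
theorem g1_20 : allL (fun k => (cG dt) (Nat.add 20 k)) 3 = true := by decide +kernel
theorem g1_23 : allL (fun k => (cG dt) (Nat.add 23 k)) 3 = true := by decide +kernel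
theorem g1_26 : allL (fun k => (cG dt) (Nat.add 26 k)) 3 = true := by decide +kernel
theorem g1_29 : allL (fun k => (cG dt) (Nat.add 29 k)) 3 = true := by decide +kernel
theorem g1_32 : allL (fun k => (cG dt) (Nat.add 32 k)) 2 = true := by decide +kernel
theorem g1 : Rng (cG dt) 17 34 := (((((rng_of (f := cG dt) g1_17 rfl).app (rng_of g1_20 rfl)).app (rng_of g1_23 rfl)).app (rng_of g1_26 rfl)).app (rng_of g1_29 rfl)).app (rng_of g1_32 rfl)

end Pool.Agent.Work.MP_f94384_co.Big.R2
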