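import Pool.Agent.Work.MP_f94384_co.Big.R2.Dat
import Pool.Agent.Work.MP_f94384_co.Big.Rng
set_option autoImplicit false
set_option maxRecDepth 1000000
set_option linter.all false

/-! Checks of the certificate (generated) -/

namespace Pool.Agent.Work.MP_f94384_co.Big.R2

theorem g10_170 : allL (fun k => (cG dt) (Nat.add 170 k)) 3 = true := by decide +kernel
theorem g10_173 : allL (fun k => (cG dt) (Nat.add 173 k)) 3 = true := by decide +kernel
theorem g10_176 : allL (fun k => (cG dt) (Nat.add 176 k)) 3 = true := by decide +kernel
theorem g10_179 : allL (fun k => (cG dt) (Nat.add 179 k)) 3 = true := by decide +kernel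
theorem g10_182 : allL (fun k => (cG dt) (Nat.add 182 k)) 3 = true := by decide +kernel
theorem g10_185 : allL (fun k => (cG dt) (Nat.add 185 k)) 2 = true := by decide +kernel
theorem g10 : Rng (cG dt) 170 187 := (((((rng_of (f := cG dt) g10_170 rfl).app (rng_of g10_173 rfl)).app (rng_of g10_176 rfl)).app (rng_of g10_179 rfl)).app (rng_of g10_182 rfl)).app (rng_of g10_185 rfl)

end Pool.Agent.Work.MP_f94384_co.Big.R2
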