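import Pool.Agent.Work.MP_f94384_co.Big.R2.Dat
import Pool.Agent.Work.MP_f94384_co.Big.Rng
set_option autoImplicit false
set_option maxRecDepth 1000000
set_option linter.all false

/-! Checks of the certificate (generated) -/

namespace Pool.Agent.Work.MP_f94384_co.Big.R2

theorem g11_187 : allL (fun k => (cG dt) (Nat.add 187 k)) 3 = true := by decide +kernel
theorem g11_190 : allL (fun k => (cG dt) (Nat.add 190 k)) 3 = true := by decide +kernel
theorem g11_193 : allL (fun k => (cG dt) (Nat.add 193 k)) 3 = true := by decide +kernel
theorem g11_196 : allL (fun k => (cG dt) (Nat.add 196 k)) 3 = true := by decide +kernel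
theorem g11_199 : allL (fun k => (cG dt) (Nat.add 199 k)) 3 = true := by decide +kernel
theorem g11_202 : allL (fun k => (cG dt) (Nat.add 202 k)) 3 = true := by decide +kernel
theorem g11 : Rng (cG dt) 187 205 := (((((rng_of (f := cG dt) g11_187 rfl).app (rng_of g11_190 rfl)).app (rng_of g11_193 rfl)).app (rng_of g11_196 rfl)).app (rng_of g11_199 rfl)).app (rng_of g11_202 rfl)

end Pool.Agent.Work.MP_f94384_co.Big.R2
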