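import Pool.Agent.Work.MP_f94384_co.Big.R2.Dat
import Pool.Agent.Work.MP_f94384_co.Big.Rng
set_option autoImplicit false
set_option maxRecDepth 1000000
set_option linter.all false

/-! Checks of the certificate (generated) -/

namespace Pool.Agent.Work.MP_f94384_co.Big.R2

theorem g12_205 : allL (fun k => (cG dt) (Nat.add 205 k)) 3 = true := by decide +kernel
theorem g12_208 : allL (fun k => (cG dt) (Nat.add 208 k)) 3 = true := by decide +kernel
theorem g12_211 : allL (fun k => (cG dt) (Nat.add 211 k)) 3 = true := by decide +kernel
theorem g12_214 : allL (fun k => (cG dt) (Nat.add 214 k)) 3 = true := by decide +kernel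
theorem g12_217 : allL (fun k => (cG dt) (Nat.add 217 k)) 3 = true := by decide +kernel
theorem g12_220 : allL (fun k => (cG dt) (Nat.add 220 k)) 2 = true := by decide +kernel
theorem g12 : Rng (cG dt) 205 222 := (((((rng_of (f := cG dt) g12_205 rfl).app (rng_of g12_208 rfl)).app (rng_of g12_211 rfl)).app (rng_of g12_214 rfl)).app (rng_of g12_217 rfl)).app (rng_of g12_220 rfl)

end Pool.Agent.Work.MP_f94384_co.Big.R2
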