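import Pool.Agent.Work.MP_f94384_co.Big.R2.Dat
import Pool.Agent.Work.MP_f94384_co.Big.Rng
set_option autoImplicit false
set_option maxRecDepth 1000000
set_option linter.all false

/-! Checks of the certificate (generated) -/

namespace Pool.Agent.Work.MP_f94384_co.Big.R2

theorem g13_222 : allL (fun k => (cG dt) (Nat.add 222 k)) 3 = true := by decide +kernel
theorem g13_225 : allL (fun k => (cG dt) (Nat.add 225 k)) 3 = true := by decide +kernel
theorem g13_228 : allL (fun k => (cG dt) (Nat.add 228 k)) 3 = true := by decide +kernel
theorem g13_231 : allL (fun k => (cG dt) (Nat.add 231 k)) 3 = true := by decide +kernel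
theorem g13_234 : allL (fun k => (cG dt) (Nat.add 234 k)) 3 = true := by decide +kernel
theorem g13_237 : allL (fun k => (cG dt) (Nat.add 237 k)) 2 = true := by decide +kernel
theorem g13 : Rng (cG dt) 222 239 := (((((rng_of (f := cG dt) g13_222 rfl).app (rng_of g13_225 rfl)).app (rng_of g13_228 rfl)).app (rng_of g13_231 rfl)).app (rng_of g13_234 rfl)).app (rng_of g13_237 rfl)

end Pool.Agent.Work.MP_f94384_co.Big.R2
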