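import Pool.Agent.Work.MP_f94384_co.Big.R2.Dat
import Pool.Agent.Work.MP_f94384_co.Big.Rng
set_option autoImplicit false
set_option maxRecDepth 1000000
set_option linter.all false

/-! Checks of the certificate (generated) -/

namespace Pool.Agent.Work.MP_f94384_co.Big.R2

theorem g14_239 : allL (fun k => (cG dt) (Nat.add 239 k)) 3 = true := by decide +kernel
theorem g14_242 : allL (fun k => (cG dt) (Nat.add 242 k)) 3 = true := by decide +kernel
theorem g14_245 : allL (fun k => (cG dt) (Nat.add 245 k)) 3 = true := by decide +kernel
theorem g14_248 : allL (fun k => (cG dt) (Nat.add 248 k)) 3 = true := by decide +kernel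
theorem g14_251 : allL (fun k => (cG dt) (Nat.add 251 k)) 3 = true := by decide +kernel
theorem g14_254 : allL (fun k => (cG dt) (Nat.add 254 k)) 2 = true := by decide +kernel
theorem g14 : Rng (cG dt) 239 256 := (((((rng_of (f := cG dt) g14_239 rfl).app (rng_of g14_242 rfl)).app (rng_of g14_245 rfl)).app (rng_of g14_248 rfl)).app (rng_of g14_251 rfl)).app (rng_of g14_254 rfl)

end Pool.Agent.Work.MP_f94384_co.Big.R2
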