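import Pool.Agent.Work.MP_f94384_co.Big.R2.Dat
import Pool.Agent.Work.MP_f94384_co.Big.Rng
set_option autoImplicit false
set_option maxRecDepth 1000000
set_option linter.all false

/-! Checks of the certificate (generated) -/

namespace Pool.Agent.Work.MP_f94384_co.Big.R2

theorem g15_256 : allL (fun k => (cG dt) (Nat.add 256 k)) 3 = true := by decide +kernel
theorem g15_259 : allL (fun k => (cG dt) (Nat.add 259 k)) 3 = true := by decide +kernel
theorem g15_262 : allL (fun k => (cG dt) (Nat.add 262 k)) 3 = true := by decide +kernel
theorem g15_265 : allL (fun k => (cG dt) (Nat.add 265 k)) 3 = true := by decide +kernel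
theorem g15_268 : allL (fun k => (cG dt) (Nat.add 268 k)) 3 = true := by decide +kernel
theorem g15_271 : allL (fun k => (cG dt) (Nat.add 271 k)) 2 = true := by decide +kernel
theorem g15 : Rng (cG dt) 256 273 := (((((rng_of (f := cG dt) g15_256 rfl).app (rng_of g15_259 rfl)).app (rng_of g15_262 rfl)).app (rng_of g15_265 rfl)).app (rng_of g15_268 rfl)).app (rng_of g15_271 rfl)

end Pool.Agent.Work.MP_f94384_co.Big.R2
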