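import Pool.Agent.Work.MP_f94384_co.Big.R2.Dat
import Pool.Agent.Work.MP_f94384_co.Big.Rng
set_option autoImplicit false
set_option maxRecDepth 1000000
set_option linter.all false

/-! Checks of the certificate (generated) -/

namespace Pool.Agent.Work.MP_f94384_co.Big.R2

theorem g16_273 : allL (fun k => (cG dt) (Nat.add 273 k)) 3 = true := by decide +kernel
theorem g16_276 : allL (fun k => (cG dt) (Nat.add 276 k)) 3 = true := by decide +kernel
theorem g16_279 : allL (fun k => (cG dt) (Nat.add 279 k)) 3 = true := by decide +kernel
theorem g16_282 : allL (fun k => (cG dt) (Nat.add 282 k)) 3 = true := by decide +kernel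
theorem g16_285 : allL (fun k => (cG dt) (Nat.add 285 k)) 3 = true := by decide +kernel
theorem g16_288 : allL (fun k => (cG dt) (Nat.add 288 k)) 2 = true := by decide +kernel
theorem g16 : Rng (cG dt) 273 290 := (((((rng_of (f := cG dt) g16_273 rfl).app (rng_of g16_276 rfl)).app (rng_of g16_279 rfl)).app (rng_of g16_282 rfl)).app (rng_of g16_285 rfl)).app (rng_of g16_288 rfl)

end Pool.Agent.Work.MP_f94384_co.Big.R2
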