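import Pool.Agent.Work.MP_f94384_co.Big.R2.Dat
import Pool.Agent.Work.MP_f94384_co.Big.Rng
set_option autoImplicit false
set_option maxRecDepth 1000000
set_option linter.all false

/-! Checks of the certificate (generated) -/

namespace Pool.Agent.Work.MP_f94384_co.Big.R2

theorem g17_290 : allL (fun k => (cG dt) (Nat.add 290 k)) 3 = true := by decide +kernel
theorem g17_293 : allL (fun k => (cG dt) (Nat.add 293 k)) 3 = true := by decide +kernel
theorem g17_296 : allL (fun k => (cG dt) (Nat.add 296 k)) 3 = true := by decide +kernel
theorem g17_299 : allL (fun k => (cG dt) (Nat.add 299 k)) 3 = true := by decide +kernel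
theorem g17_302 : allL (fun k => (cG dt) (Nat.add 302 k)) 3 = true := by decide +kernel
theorem g17_305 : allL (fun k => (cG dt) (Nat.add 305 k)) 2 = true := by decide +kernel
theorem g17 : Rng (cG dt) 290 307 := (((((rng_of (f := cG dt) g17_290 rfl).app (rng_of g17_293 rfl)).app (rng_of g17_296 rfl)).app (rng_of g17_299 rfl)).app (rng_of g17_302 rfl)).app (rng_of g17_305 rfl)

end Pool.Agent.Work.MP_f94384_co.Big.R2
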