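import Pool.Agent.Work.MP_f94384_co.Big.R2.Dat
import Pool.Agent.Work.MP_f94384_co.Big.Rng
set_option autoImplicit false
set_option maxRecDepth 1000000
set_option linter.all false

/-! Checks of the certificate (generated) -/

namespace Pool.Agent.Work.MP_f94384_co.Big.R2

theorem g18_307 : allL (fun k => (cG dt) (Nat.add 307 k)) 3 = true := by decide +kernel
theorem g18_310 : allL (fun k => (cG dt) (Nat.add 310 k)) 3 = true := by decide +kernel
theorem g18_313 : allL (fun k => (cG dt) (Nat.add 313 k)) 3 = true := by decide +kernel
theorem g18_316 : allL (fun k => (cG dt) (Nat.add 316 k)) 3 = true := by decide +kernel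
theorem g18_319 : allL (fun k => (cG dt) (Nat.add 319 k)) 3 = true := by decide +kernel
theorem g18_322 : allL (fun k => (cG dt) (Nat.add 322 k)) 2 = true := by decide +kernel
theorem g18 : Rng (cG dt) 307 324 := (((((rng_of (f := cG dt) g18_307 rfl).app (rng_of g18_310 rfl)).app (rng_of g18_313 rfl)).app (rng_of g18_316 rfl)).app (rng_of g18_319 rfl)).app (rng_of g18_322 rfl)

end Pool.Agent.Work.MP_f94384_co.Big.R2
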