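import Pool.Agent.Work.MP_f94384_co.Big.R2.Dat
import Pool.Agent.Work.MP_f94384_co.Big.Rng
set_option autoImplicit false
set_option maxRecDepth 1000000
set_option linter.all false

/-! Checks of the certificate (generated) -/

namespace Pool.Agent.Work.MP_f94384_co.Big.R2

theorem g2_34 : allL (fun k => (cG dt) (Nat.add 34 k)) 3 = true := by decide +kernel
theorem g2_37 : allL (fun k => (cG dt) (Nat.add 37 k)) 3 = true := by decide +kernel
theorem g2_40 : allL (fun k => (cG dt) (Nat.add 40 k)) 3 = true := by decide +kernel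
theorem g2_43 : allL (fun k => (cG dt) (Nat.add 43 k)) 3 = true := by decide +kernel
theorem g2_46 : allL (fun k => (cG dt) (Nat.add 46 k)) 3 = true := by decide +kernel
theorem g2_49 : allL (fun k => (cG dt) (Nat.add 49 k)) 2 = true := by decide +kernel
theorem g2 : Rng (cG dt) 34 51 := (((((rng_of (f := cG dt) g2_34 rfl).app (rng_of g2_37 rfl)).app (rng_of g2_40 rfl)).app (rng_of g2_43 rfl)).app (rng_of g2_46 rfl)).app (rng_of g2_49 rfl)

end Pool.Agent.Work.MP_f94384_co.Big.R2
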