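import Pool.Agent.Work.MP_f94384_co.Big.R2.Dat
import Pool.Agent.Work.MP_f94384_co.Big.Rng
set_option autoImplicit false
set_option maxRecDepth 1000000
set_option linter.all false

/-! Checks of the certificate (generated) -/

namespace Pool.Agent.Work.MP_f94384_co.Big.R2

theorem g20_341 : allL (fun k => (cG dt) (Nat.add 341 k)) 3 = true := by decide +kernel
theorem g20_344 : allL (fun k => (cG dt) (Nat.add 344 k)) 3 = true := by decide +kernel
theorem g20_347 : allL (fun k => (cG dt) (Nat.add 347 k)) 3 = true := by decide +kernel
theorem g20_350 : allL (fun k => (cG dt) (Nat.add 350 k)) 3 = true := by decide +kernel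
theorem g20_353 : allL (fun k => (cG dt) (Nat.add 353 k)) 3 = true := by decide +kernel
theorem g20_356 : allL (fun k => (cG dt) (Nat.add 356 k)) 2 = true := by decide +kernel
theorem g20 : Rng (cG dt) 341 358 := (((((rng_of (f := cG dt) g20_341 rfl).app (rng_of g20_344 rfl)).app (rng_of g20_347 rfl)).app (rng_of g20_350 rfl)).app (rng_of g20_353 rfl)).app (rng_of g20_356 rfl)

end Pool.Agent.Work.MP_f94384_co.Big.R2
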