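import Pool.Agent.Work.MP_f94384_co.Big.R2.Dat
import Pool.Agent.Work.MP_f94384_co.Big.Rng
set_option autoImplicit false
set_option maxRecDepth 1000000
set_option linter.all false

/-! Checks of the certificate (generated) -/

namespace Pool.Agent.Work.MP_f94384_co.Big.R2

theorem g21_358 : allL (fun k => (cG dt) (Nat.add 358 k)) 3 = true := by decide +kernel
theorem g21_361 : allL (fun k => (cG dt) (Nat.add 361 k)) 3 = true := by decide +kernel
theorem g21_364 : allL (fun k => (cG dt) (Nat.add 364 k)) 3 = true := by decide +kernel
theorem g21_367 : allL (fun k => (cG dt) (Nat.add 367 k)) 3 = true := by decide +kernel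
theorem g21_370 : allL (fun k => (cG dt) (Nat.add 370 k)) 3 = true := by decide +kernel
theorem g21_373 : allL (fun k => (cG dt) (Nat.add 373 k)) 2 = true := by decide +kernel
theorem g21 : Rng (cG dt) 358 375 := (((((rng_of (f := cG dt) g21_358 rfl).app (rng_of g21_361 rfl)).app (rng_of g21_364 rfl)).app (rng_of g21_367 rfl)).app (rng_of g21_370 rfl)).app (rng_of g21_373 rfl)

end Pool.Agent.Work.MP_f94384_co.Big.R2
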