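import Pool.Agent.Work.MP_f94384_co.Big.R2.Dat
import Pool.Agent.Work.MP_f94384_co.Big.Rng
set_option autoImplicit false
set_option maxRecDepth 1000000
set_option linter.all false

/-! Checks of the certificate (generated) -/

namespace Pool.Agent.Work.MP_f94384_co.Big.R2

theorem g22_375 : allL (fun k => (cG dt) (Nat.add 375 k)) 3 = true := by decide +kernel
theorem g22_378 : allL (fun k => (cG dt) (Nat.add 378 k)) 3 = true := by decide +kernel
theorem g22_381 : allL (fun k => (cG dt) (Nat.add 381 k)) 3 = true := by decide +kernel
theorem g22_384 : allL (fun k => (cG dt) (Nat.add 384 k)) 3 = true := by decide +kernel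
theorem g22_387 : allL (fun k => (cG dt) (Nat.add 387 k)) 3 = true := by decide +kernel
theorem g22_390 : allL (fun k => (cG dt) (Nat.add 390 k)) 2 = true := by decide +kernel
theorem g22 : Rng (cG dt) 375 392 := (((((rng_of (f := cG dt) g22_375 rfl).app (rng_of g22_378 rfl)).app (rng_of g22_381 rfl)).app (rng_of g22_384 rfl)).app (rng_of g22_387 rfl)).app (rng_of g22_390 rfl)

end Pool.Agent.Work.MP_f94384_co.Big.R2
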