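import Pool.Agent.Work.MP_f94384_co.Big.R2.Dat
import Pool.Agent.Work.MP_f94384_co.Big.Rng
set_option autoImplicit false
set_option maxRecDepth 1000000
set_option linter.all false

/-! Checks of the certificate (generated) -/

namespace Pool.Agent.Work.MP_f94384_co.Big.R2

theorem g23_392 : allL (fun k => (cG dt) (Nat.add 392 k)) 3 = true := by decide +kernel
theorem g23_395 : allL (fun k => (cG dt) (Nat.add 395 k)) 3 = true := by decide +kernel
theorem g23_398 : allL (fun k => (cG dt) (Nat.add 398 k)) 3 = true := by decide +kernel
theorem g23_401 : allL (fun k => (cG dt) (Nat.add 401 k)) 3 = true := by decide +kernel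
theorem g23_404 : allL (fun k => (cG dt) (Nat.add 404 k)) 3 = true := by decide +kernel
theorem g23_407 : allL (fun k => (cG dt) (Nat.add 407 k)) 3 = true := by decide +kernel
theorem g23 : Rng (cG dt) 392 410 := (((((rng_of (f := cG dt) g23_392 rfl).app (rng_of g23_395 rfl)).app (rng_of g23_398 rfl)).app (rng_of g23_401 rfl)).app (rng_of g23_404 rfl)).app (rng_of g23_407 rfl)

end Pool.Agent.Work.MP_f94384_co.Big.R2
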