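import Pool.Agent.Work.MP_f94384_co.Big.R2.Dat
import Pool.Agent.Work.MP_f94384_co.Big.Rng
set_option autoImplicit false
set_option maxRecDepth 1000000
set_option linter.all false

/-! Checks of the certificate (generated) -/

namespace Pool.Agent.Work.MP_f94384_co.Big.R2

theorem g3_51 : allL (fun k => (cG dt) (Nat.add 51 k)) 3 = true := by decide +kernel
theorem g3_54 : allL (fun k => (cG dt) (Nat.add 54 k)) 3 = true := by decide +kernel
theorem g3_57 : allL (fun k => (cG dt) (Nat.add 57 k)) 3 = true := by decide +kernel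
theorem g3_60 : allL (fun k => (cG dt) (Nat.add 60 k)) 3 = true := by decide +kernel
theorem g3_63 : allL (fun k => (cG dt) (Nat.add 63 k)) 3 = true := by decide +kernel
theorem g3_66 : allL (fun k => (cG dt) (Nat.add 66 k)) 2 = true := by decide +kernel
theorem g3 : Rng (cG dt) 51 68 := (((((rng_of (f := cG dt) g3_51 rfl).app (rng_of g3_54 rfl)).app (rng_of g3_57 rfl)).app (rng_of g3_60 rfl)).app (rng_of g3_63 rfl)).app (rng_of g3_66 rfl)

end Pool.Agent.Work.MP_f94384_co.Big.R2
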