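import Pool.Agent.Work.MP_f94384_co.Big.R2.Dat
import Pool.Agent.Work.MP_f94384_co.Big.Rng
set_option autoImplicit false
set_option maxRecDepth 1000000
set_option linter.all false

/-! Checks of the certificate (generated) -/

namespace Pool.Agent.Work.MP_f94384_co.Big.R2

theorem g4_68 : allL (fun k => (cG dt) (Nat.add 68 k)) 3 = true := by decide +kernel
theorem g4_71 : allL (fun k => (cG dt) (Nat.add 71 k)) 3 = true := by decide +kernel
theorem g4_74 : allL (fun k => (cG dt) (Nat.add 74 k)) 3 = true := by decide +kernel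
theorem g4_77 : allL (fun k => (cG dt) (Nat.add 77 k)) 3 = true := by decide +kernel
theorem g4_80 : allL (fun k => (cG dt) (Nat.add 80 k)) 3 = true := by decide +kernel
theorem g4_83 : allL (fun k => (cG dt) (Nat.add 83 k)) 2 = true := by decide +kernel
theorem g4 : Rng (cG dt) 68 85 := (((((rng_of (f := cG dt) g4_68 rfl).app (rng_of g4_71 rfl)).app (rng_of g4_74 rfl)).app (rng_of g4_77 rfl)).app (rng_of g4_80 rfl)).app (rng_of g4_83 rfl)

end Pool.Agent.Work.MP_f94384_co.Big.R2
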