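import Pool.Agent.Work.MP_f94384_co.Big.R2.Dat
import Pool.Agent.Work.MP_f94384_co.Big.Rng
set_option autoImplicit false
set_option maxRecDepth 1000000
set_option linter.all false

/-! Checks of the certificate (generated) -/

namespace Pool.Agent.Work.MP_f94384_co.Big.R2

theorem g5_85 : allL (fun k => (cG dt) (Nat.add 85 k)) 3 = true := by decide +kernel
theorem g5_88 : allL (fun k => (cG dt) (Nat.add 88 k)) 3 = true := by decide +kernel
theorem g5_91 : allL (fun k => (cG dt) (Nat.add 91 k)) 3 = true := by decide +kernel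
theorem g5_94 : allL (fun k => (cG dt) (Nat.add 94 k)) 3 = true := by decide +kernel
theorem g5_97 : allL (fun k => (cG dt) (Nat.add 97 k)) 3 = true := by decide +kernel
theorem g5_100 : allL (fun k => (cG dt) (Nat.add 100 k)) 2 = true := by decide +kernel
theorem g5 : Rng (cG dt) 85 102 := (((((rng_of (f := cG dt) g5_85 rfl).app (rng_of g5_88 rfl)).app (rng_of g5_91 rfl)).app (rng_of g5_94 rfl)).app (rng_of g5_97 rfl)).app (rng_of g5_100 rfl)

end Pool.Agent.Work.MP_f94384_co.Big.R2
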