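import Pool.Agent.Work.MP_f94384_co.Big.R2.Dat
import Pool.Agent.Work.MP_f94384_co.Big.Rng
set_option autoImplicit false
set_option maxRecDepth 1000000
set_option linter.all false

/-! Checks of the certificate (generated) -/

namespace Pool.Agent.Work.MP_f94384_co.Big.R2

theorem g6_102 : allL (fun k => (cG dt) (Nat.add 102 k)) 3 = true := by decide +kernel
theorem g6_105 : allL (fun k => (cG dt) (Nat.add 105 k)) 3 = true := by decide +kernel
theorem g6_108 : allL (fun k => (cG dt) (Nat.add 108 k)) 3 = true := by decide +kernel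
theorem g6_111 : allL (fun k => (cG dt) (Nat.add 111 k)) 3 = true := by decide +kernel
theorem g6_114 : allL (fun k => (cG dt) (Nat.add 114 k)) 3 = true := by decide +kernel
theorem g6_117 : allL (fun k => (cG dt) (Nat.add 117 k)) 2 = true := by decide +kernel
theorem g6 : Rng (cG dt) 102 119 := (((((rng_of (f := cG dt) g6_102 rfl).app (rng_of g6_105 rfl)).app (rng_of g6_108 rfl)).app (rng_of g6_111 rfl)).app (rng_of g6_114 rfl)).app (rng_of g6_117 rfl)

end Pool.Agent.Work.MP_f94384_co.Big.R2
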