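import Pool.Agent.Work.MP_f94384_co.Big.R2.Dat
import Pool.Agent.Work.MP_f94384_co.Big.Rng
set_option autoImplicit false
set_option maxRecDepth 1000000
set_option linter.all false

/-! Checks of the certificate (generated) -/

namespace Pool.Agent.Work.MP_f94384_co.Big.R2

theorem g7_119 : allL (fun k => (cG dt) (Nat.add 119 k)) 3 = true := by decide +kernel
theorem g7_122 : allL (fun k => (cG dt) (Nat.add 122 k)) 3 = true := by decide +kernel
theorem g7_125 : allL (fun k => (cG dt) (Nat.add 125 k)) 3 = true := by decide +kernel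
theorem g7_128 : allL (fun k => (cG dt) (Nat.add 128 k)) 3 = true := by decide +kernel
theorem g7_131 : allL (fun k => (cG dt) (Nat.add 131 k)) 3 = true := by decide +kernel
theorem g7_134 : allL (fun k => (cG dt) (Nat.add 134 k)) 2 = true := by decide +kernel
theorem g7 : Rng (cG dt) 119 136 := (((((rng_of (f := cG dt) g7_119 rfl).app (rng_of g7_122 rfl)).app (rng_of g7_125 rfl)).app (rng_of g7_128 rfl)).app (rng_of g7_131 rfl)).app (rng_of g7_134 rfl)

end Pool.Agent.Work.MP_f94384_co.Big.R2
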