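import Pool.Agent.Work.MP_f94384_co.Big.R2.Dat
import Pool.Agent.Work.MP_f94384_co.Big.Rng
set_option autoImplicit false
set_option maxRecDepth 1000000
set_option linter.all false

/-! Checks of the certificate (generated) -/

namespace Pool.Agent.Work.MP_f94384_co.Big.R2

theorem g8_136 : allL (fun k => (cG dt) (Nat.add 136 k)) 3 = true := by decide +kernel
theorem g8_139 : allL (fun k => (cG dt) (Nat.add 139 k)) 3 = true := by decide +kernel
theorem g8_142 : allL (fun k => (cG dt) (Nat.add 142 k)) 3 = true := by decide +kernel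
theorem g8_145 : allL (fun k => (cG dt) (Nat.add 145 k)) 3 = true := by decide +kernel
theorem g8_148 : allL (fun k => (cG dt) (Nat.add 148 k)) 3 = true := by decide +kernel
theorem g8_151 : allL (fun k => (cG dt) (Nat.add 151 k)) 2 = true := by decide +kernel
theorem g8 : Rng (cG dt) 136 153 := (((((rng_of (f := cG dt) g8_136 rfl).app (rng_of g8_139 rfl)).app (rng_of g8_142 rfl)).app (rng_of g8_145 rfl)).app (rng_of g8_148 rfl)).app (rng_of g8_151 rfl)

end Pool.Agent.Work.MP_f94384_co.Big.R2
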