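import Pool.Agent.Work.MP_f94384_co.Big.R2.Dat
import Pool.Agent.Work.MP_f94384_co.Big.Rng
set_option autoImplicit false
set_option maxRecDepth 1000000
set_option linter.all false

/-! Checks of the certificate (generated) -/

namespace Pool.Agent.Work.MP_f94384_co.Big.R2

theorem h0_0 : allL (fun k => (cH dt) (Nat.add 0 k)) 4 = true := by decide +kernel
theorem h0_4 : allL (fun k => (cH dt) (Nat.add 4 k)) 4 = true := by decide +kernel
theorem h0_8 : allL (fun k => (cH dt) (Nat.add 8 k)) 4 = true := by decide +kernel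
theorem h0_12 : allL (fun k => (cH dt) (Nat.add 12 k)) 4 = true := by decide +kernel
theorem h0_16 : allL (fun k => (cH dt) (Nat.add 16 k)) 4 = true := by decide +kernel
theorem h0_20 : allL (fun k => (cH dt) (Nat.add 20 k)) 4 = true := by decide +kernel
theorem h0_24 : allL (fun k => (cH dt) (Nat.add 24 k)) 2 = true := by decide +kernel
theorem h0 : Rng (cH dt) 0 26 := ((((((rng_of (f := cH dt) h0_0 rfl).app (rng_of h0_4 rfl)).app (rng_of h0_8 rfl)).app (rng_of h0_12 rfl)).app (rng_of h0_16 rfl)).app (rng_of h0_20 rfl)).app (rng_of h0_24 rfl)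

end Pool.Agent.Work.MP_f94384_co.Big.R2
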