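import Pool.Agent.Work.MP_f94384_co.Big.R2.Dat
import Pool.Agent.Work.MP_f94384_co.Big.Rng
set_option autoImplicit false
set_option maxRecDepth 1000000
set_option linter.all false

/-! Checks of the certificate (generated) -/

namespace Pool.Agent.Work.MP_f94384_co.Big.R2

theorem h1_26 : allL (fun k => (cH dt) (Nat.add 26 k)) 4 = true := by decide +kernel
theorem h1_30 : allL (fun k => (cH dt) (Nat.add 30 k)) 4 = true := by decide +kernel
theorem h1_34 : allL (fun k => (cH dt) (Nat.add 34 k)) 4 = true := by decide +kernel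
theorem h1_38 : allL (fun k => (cH dt) (Nat.add 38 k)) 4 = true := by decide +kernel
theorem h1_42 : allL (fun k => (cH dt) (Nat.add 42 k)) 4 = true := by decide +kernel
theorem h1_46 : allL (fun k => (cH dt) (Nat.add 46 k)) 4 = true := by decide +kernel
theorem h1_50 : allL (fun k => (cH dt) (Nat.add 50 k)) 3 = true := by decide +kernel
theorem h1 : Rng (cH dt) 26 53 := ((((((rng_of (f := cH dt) h1_26 rfl).app (rng_of h1_30 rfl)).app (rng_of h1_34 rfl)).app (rng_of h1_38 rfl)).app (rng_of h1_42 rfl)).app (rng_of h1_46 rfl)).app (rng_of h1_50 rfl)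

end Pool.Agent.Work.MP_f94384_co.Big.R2
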