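import Pool.Agent.Work.MP_f94384_co.Big.R2.Dat
import Pool.Agent.Work.MP_f94384_co.Big.Rng
set_option autoImplicit false
set_option maxRecDepth 1000000
set_option linter.all false

/-! Checks of the certificate (generated) -/

namespace Pool.Agent.Work.MP_f94384_co.Big.R2

theorem h2_53 : allL (fun k => (cH dt) (Nat.add 53 k)) 4 = true := by decide +kernel
theorem h2_57 : allL (fun k => (cH dt) (Nat.add 57 k)) 4 = true := by decide +kernel
theorem h2_61 : allL (fun k => (cH dt) (Nat.add 61 k)) 4 = true := by decide +kernel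
theorem h2_65 : allL (fun k => (cH dt) (Nat.add 65 k)) 4 = true := by decide +kernel
theorem h2_69 : allL (fun k => (cH dt) (Nat.add 69 k)) 4 = true := by decide +kernel
theorem h2_73 : allL (fun k => (cH dt) (Nat.add 73 k)) 4 = true := by decide +kernel
theorem h2_77 : allL (fun k => (cH dt) (Nat.add 77 k)) 3 = true := by decide +kernel
theorem h2 : Rng (cH dt) 53 80 := ((((((rng_of (f := cH dt) h2_53 rfl).app (rng_of h2_57 rfl)).app (rng_of h2_61 rfl)).app (rng_of h2_65 rfl)).app (rng_of h2_69 rfl)).app (rng_of h2_73 rfl)).app (rng_of h2_77 rfl)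

end Pool.Agent.Work.MP_f94384_co.Big.R2
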