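import Pool.Agent.Work.MP_f94384_co.Big.R2.Dat
import Pool.Agent.Work.MP_f94384_co.Big.Rng
set_option autoImplicit false
set_option maxRecDepth 1000000
set_option linter.all false

/-! Checks of the certificate (generated) -/

namespace Pool.Agent.Work.MP_f94384_co.Big.R2

theorem h3_80 : allL (fun k => (cH dt) (Nat.add 80 k)) 4 = true := by decide +kernel
theorem h3_84 : allL (fun k => (cH dt) (Nat.add 84 k)) 4 = true := by decide +kernel
theorem h3_88 : allL (fun k => (cH dt) (Nat.add 88 k)) 4 = true := by decide +kernel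
theorem h3_92 : allL (fun k => (cH dt) (Nat.add 92 k)) 4 = true := by decide +kernel
theorem h3_96 : allL (fun k => (cH dt) (Nat.add 96 k)) 4 = true := by decide +kernel
theorem h3_100 : allL (fun k => (cH dt) (Nat.add 100 k)) 4 = true := by decide +kernel
theorem h3_104 : allL (fun k => (cH dt) (Nat.add 104 k)) 3 = true := by decide +kernel
theorem h3 : Rng (cH dt) 80 107 := ((((((rng_of (f := cH dt) h3_80 rfl).app (rng_of h3_84 rfl)).app (rng_of h3_88 rfl)).app (rng_of h3_92 rfl)).app (rng_of h3_96 rfl)).app (rng_of h3_100 rfl)).app (rng_of h3_104 rfl)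

end Pool.Agent.Work.MP_f94384_co.Big.R2
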