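import Pool.Agent.Work.MP_f94384_co.Big.R2.Dat
import Pool.Agent.Work.MP_f94384_co.Big.Rng
set_option autoImplicit false
set_option maxRecDepth 1000000
set_option linter.all false

/-! Checks of the certificate (generated) -/

namespace Pool.Agent.Work.MP_f94384_co.Big.R2

theorem j_0 : allL (fun k => (cJ dt) (Nat.add 0 k)) 10 = true := by decide +kernel
theorem j_10 : allL (fun k => (cJ dt) (Nat.add 10 k)) 10 = true := by decide +kernel
theorem j_20 : allL (fun k => (cJ dt) (Nat.add 20 k)) 10 = true := by decide +kernel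
theorem j_30 : allL (fun k => (cJ dt) (Nat.add 30 k)) 8 = true := by decide +kernel
theorem j : Rng (cJ dt) 0 38 := (((rng_of (f := cJ dt) j_0 rfl).app (rng_of j_10 rfl)).app (rng_of j_20 rfl)).app (rng_of j_30 rfl)
theorem bu_0 : allL (fun k => (cBU dt) (Nat.add 0 k)) 100 = true := by decide +kernel
theorem bu_100 : allL (fun k => (cBU dt) (Nat.add 100 k)) 100 = true := by decide +kernel
theorem bu_200 : allL (fun k => (cBU dt) (Nat.add 200 k)) 100 = true := by decide +kernel
theorem bu_300 : allL (fun k => (cBU dt) (Nat.add 300 k)) 100 = true := by decide +kernel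
theorem bu_400 : allL (fun k => (cBU dt) (Nat.add 400 k)) 31 = true := by decide +kernel
theorem bu : Rng (cBU dt) 0 431 := ((((rng_of (f := cBU dt) bu_0 rfl).app (rng_of bu_100 rfl)).app (rng_of bu_200 rfl)).app (rng_of bu_300 rfl)).app (rng_of bu_400 rfl)
theorem be_0 : allL (fun k => (cBE dt) (Nat.add 0 k)) 100 = true := by decide +kernel
theorem be_100 : allL (fun k => (cBE dt) (Nat.add 100 k)) 100 = true := by decide +kernel
theorem be_200 : allL (fun k => (cBE dt) (Nat.add 200 k)) 100 = true := by decide +kernel
theorem be_300 : allL (fun k => (cBE dt) (Nat.add 300 k)) 80 = true := by decide +kernel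
theorem be : Rng (cBE dt) 0 380 := (((rng_of (f := cBE dt) be_0 rfl).app (rng_of be_100 rfl)).app (rng_of be_200 rfl)).app (rng_of be_300 rfl)
theorem bw_0 : allL (fun k => (cBV dt) (Nat.add 0 k)) 100 = true := by decide +kernel
theorem bw_100 : allL (fun k => (cBV dt) (Nat.add 100 k)) 100 = true := by decide +kernel
theorem bw_200 : allL (fun k => (cBV dt) (Nat.add 200 k)) 100 = true := by decide +kernel
theorem bw_300 : allL (fun k => (cBV dt) (Nat.add 300 k)) 80 = true := by decide +kernel
theorem bw : Rng (cBV dt) 0 380 := (((rng_of (f := cBV dt) bw_0 rfl).app (rng_of bw_100 rfl)).app (rng_of bw_200 rfl)).app (rng_of bw_300 rfl)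
theorem zt : tbn 4835703278458516698824704 dt.ZT = true := by decide +kernel

end Pool.Agent.Work.MP_f94384_co.Big.R2
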