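import Pool.Agent.Work.MP_f94384_co.Big.R2.Dat
import Pool.Agent.Work.MP_f94384_co.Big.R2.K0
import Pool.Agent.Work.MP_f94384_co.Big.Rng
set_option autoImplicit false
set_option maxRecDepth 1000000
set_option linter.all false

/-! Checks of the certificate (generated) -/

namespace Pool.Agent.Work.MP_f94384_co.Big.R2

theorem x7_1_26 : allL (fun k => (fun k => ckX 3 7 8 (tl 8) 410 tR0 (get tR1 k) (get tX7 k)) (Nat.add 26 k)) 5 = true := by decide +kernel
theorem x7_1_31 : allL (fun k => (fun k => ckX 3 7 8 (tl 8) 410 tR0 (get tR1 k) (get tX7 k)) (Nat.add 31 k)) 5 = true := by decide +kernel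
theorem x7_1_36 : allL (fun k => (fun k => ckX 3 7 8 (tl 8) 410 tR0 (get tR1 k) (get tX7 k)) (Nat.add 36 k)) 5 = true := by decide +kernel
theorem x7_1_41 : allL (fun k => (fun k => ckX 3 7 8 (tl 8) 410 tR0 (get tR1 k) (get tX7 k)) (Nat.add 41 k)) 5 = true := by decide +kernel
theorem x7_1_46 : allL (fun k => (fun k => ckX 3 7 8 (tl 8) 410 tR0 (get tR1 k) (get tX7 k)) (Nat.add 46 k)) 5 = true := by decide +kernel
theorem x7_1_51 : allL (fun k => (fun k => ckX 3 7 8 (tl 8) 410 tR0 (get tR1 k) (get tX7 k)) (Nat.add 51 k)) 2 = true := by decide +kernel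
theorem x7_1 : Rng (fun k => ckX 3 7 8 (tl 8) 410 tR0 (get tR1 k) (get tX7 k)) 26 53 := (((((rng_of (f := fun k => ckX 3 7 8 (tl 8) 410 tR0 (get tR1 k) (get tX7 k)) x7_1_26 rfl).app (rng_of x7_1_31 rfl)).app (rng_of x7_1_36 rfl)).app (rng_of x7_1_41 rfl)).app (rng_of x7_1_46 rfl)).app (rng_of x7_1_51 rfl)

end Pool.Agent.Work.MP_f94384_co.Big.R2
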