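import Pool.Agent.Work.MP_f94384_co.Big.R2.Dat
import Pool.Agent.Work.MP_f94384_co.Big.R2.K0
import Pool.Agent.Work.MP_f94384_co.Big.Rng
set_option autoImplicit false
set_option maxRecDepth 1000000
set_option linter.all false

/-! Checks of the certificate (generated) -/

namespace Pool.Agent.Work.MP_f94384_co.Big.R2

theorem x7_3_80 : allL (fun k => (fun k => ckX 3 7 8 (tl 8) 410 tR0 (get tR1 k) (get tX7 k)) (Nat.add 80 k)) 5 = true := by decide +kernel
theorem x7_3_85 : allL (fun k => (fun k => ckX 3 7 8 (tl 8) 410 tR0 (get tR1 k) (get tX7 k)) (Nat.add 85 k)) 5 = true := by decide +kernel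
theorem x7_3_90 : allL (fun k => (fun k => ckX 3 7 8 (tl 8) 410 tR0 (get tR1 k) (get tX7 k)) (Nat.add 90 k)) 5 = true := by decide +kernel
theorem x7_3_95 : allL (fun k => (fun k => ckX 3 7 8 (tl 8) 410 tR0 (get tR1 k) (get tX7 k)) (Nat.add 95 k)) 5 = true := by decide +kernel
theorem x7_3_100 : allL (fun k => (fun k => ckX 3 7 8 (tl 8) 410 tR0 (get tR1 k) (get tX7 k)) (Nat.add 100 k)) 5 = true := by decide +kernel
theorem x7_3_105 : allL (fun k => (fun k => ckX 3 7 8 (tl 8) 410 tR0 (get tR1 k) (get tX7 k)) (Nat.add 105 k)) 2 = true := by decide +kernel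
theorem x7_3 : Rng (fun k => ckX 3 7 8 (tl 8) 410 tR0 (get tR1 k) (get tX7 k)) 80 107 := (((((rng_of (f := fun k => ckX 3 7 8 (tl 8) 410 tR0 (get tR1 k) (get tX7 k)) x7_3_80 rfl).app (rng_of x7_3_85 rfl)).app (rng_of x7_3_90 rfl)).app (rng_of x7_3_95 rfl)).app (rng_of x7_3_100 rfl)).app (rng_of x7_3_105 rfl)

end Pool.Agent.Work.MP_f94384_co.Big.R2
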