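import Pool.Agent.Work.MP_f94384_co.Big.R2.G0
import Pool.Agent.Work.MP_f94384_co.Big.R2.G1
import Pool.Agent.Work.MP_f94384_co.Big.R2.G2
import Pool.Agent.Work.MP_f94384_co.Big.R2.G3
import Pool.Agent.Work.MP_f94384_co.Big.R2.G4
import Pool.Agent.Work.MP_f94384_co.Big.R2.G5
import Pool.Agent.Work.MP_f94384_co.Big.R2.G6
import Pool.Agent.Work.MP_f94384_co.Big.R2.G7
import Pool.Agent.Work.MP_f94384_co.Big.R2.G8
import Pool.Agent.Work.MP_f94384_co.Big.R2.G9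
import Pool.Agent.Work.MP_f94384_co.Big.R2.G10
import Pool.Agent.Work.MP_f94384_co.Big.R2.G11
import Pool.Agent.Work.MP_f94384_co.Big.R2.G12
import Pool.Agent.Work.MP_f94384_co.Big.R2.G13
import Pool.Agent.Work.MP_f94384_co.Big.R2.G14
import Pool.Agent.Work.MP_f94384_co.Big.R2.G15
import Pool.Agent.Work.MP_f94384_co.Big.R2.G16
import Pool.Agent.Work.MP_f94384_co.Big.R2.G17
import Pool.Agent.Work.MP_f94384_co.Big.R2.G18
import Pool.Agent.Work.MP_f94384_co.Big.R2.G19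
import Pool.Agent.Work.MP_f94384_co.Big.R2.G20
import Pool.Agent.Work.MP_f94384_co.Big.R2.G21
import Pool.Agent.Work.MP_f94384_co.Big.R2.G22
import Pool.Agent.Work.MP_f94384_co.Big.R2.G23
import Pool.Agent.Work.MP_f94384_co.Big.R2.H0
import Pool.Agent.Work.MP_f94384_co.Big.R2.H1
import Pool.Agent.Work.MP_f94384_co.Big.R2.H2
import Pool.Agent.Work.MP_f94384_co.Big.R2.H3
import Pool.Agent.Work.MP_f94384_co.Big.R2.J0
import Pool.Agent.Work.MP_f94384_co.Big.R2.K1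
import Pool.Agent.Work.MP_f94384_co.Big.R2.K2
import Pool.Agent.Work.MP_f94384_co.Big.R2.K3
import Pool.Agent.Work.MP_f94384_co.Big.R2.K4
import Pool.Agent.Work.MP_f94384_co.Big.R2.K5
import Pool.Agent.Work.MP_f94384_co.Big.R2.P0
import Pool.Agent.Work.MP_f94384_co.Big.R2.P1
import Pool.Agent.Work.MP_f94384_co.Big.R2.P2
import Pool.Agent.Work.MP_f94384_co.Big.R2.P3
import Pool.Agent.Work.MP_f94384_co.Big.R2.P4
import Pool.Agent.Work.MP_f94384_co.Big.All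
set_option autoImplicit false
set_option maxRecDepth 1000000
set_option linter.all false

/-! The bound from the certificate (generated) -/

namespace Pool.Agent.Work.MP_f94384_co.Big.R2

open Flag

theorem wok : WOK dt 4835703278458516698824704 where
  N5 := (show (5 : ℕ) ≤ 8 by norm_num)
  N8 := (show (8 : ℕ) ≤ 8 by norm_num)
  m1 := (show (1 : ℕ) ≤ 50 by norm_num)
  o40 := (show (40 : ℕ) ≤ 81 by norm_num)
  oW := (show (81 + 13 : ℕ) ≤ 96 by norm_num)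
  oc := (show (81 + 12 : ℕ) ≤ 95 by norm_num)
  WZ := (show (96 : ℕ) ≤ 112 by norm_num)
  cZ := (show (95 + 12 : ℕ) ≤ 112 by norm_num)
  o2 := (show (81 + 8 : ℕ) ≤ 98 by norm_num)
  oc2 := (show (98 + 4 : ℕ) ≤ 104 by norm_num)
  cZ2 := (show (104 + 4 : ℕ) ≤ 112 by norm_num)
  zm := (show (50 * 2 ^ (81 + 8) + 4835703278458516698824704 : ℕ) ≤ 2 ^ 98 by norm_num)
  f1 := (show ((2 + 2 * 50) * 2 ^ 95 + 2 ^ 104 + 16 * (7 * 2 ^ 98) : ℕ) ≤ 2 ^ 112 by norm_num)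
  f2 := (show (2 ^ 11 * ((2 + 2 * 50) * 2 ^ 81) + 16 * 2 ^ 98 + 7 * 2 ^ 104 : ℕ) ≤ 2 ^ 112 by norm_num)
  R1 := (show (107 : ℕ) ≤ 256 by norm_num)
  R2 := (show (38 : ℕ) ≤ 256 by norm_num)
  cW := (show (95 : ℕ) < 96 by norm_num)
  tU := by decide +kernel
  tE := by decide +kernel
  tV := by decide +kernel

theorem tu : ∀ ty < 256, TOK dt.W dt.c dt.o (dg 8 (8 * ty) dt.NU)
    (fun k => rowP dt.W (8 * dt.Z) dt.NU dt.BU dt.WU (256 * ty + k)) fun _ => 0 := by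
  intro ty hty
  rcases Nat.lt_or_ge ty 38 with h1 | h1
  · interval_cases ty
    · exact (pr_TYC dt _ wok 0 _ _ _ _ _ _ _ _ _).1 pU0
    · exact (pr_TYC dt _ wok 1 _ _ _ _ _ _ _ _ _).1 pU1
    · exact (pr_TYC dt _ wok 2 _ _ _ _ _ _ _ _ _).1 pU2
    · exact (pr_TYC dt _ wok 3 _ _ _ _ _ _ _ _ _).1 pU3
    · exact (pr_TYC dt _ wok 4 _ _ _ _ _ _ _ _ _).1 pU4
    · exact (pr_TYC dt _ wok 5 _ _ _ _ _ _ _ _ _).1 pU5
    · exact (pr_TYC dt _ wok 6 _ _ _ _ _ _ _ _ _).1 pU6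
    · exact (pr_TYC dt _ wok 7 _ _ _ _ _ _ _ _ _).1 pU7
    · exact (pr_TYC dt _ wok 8 _ _ _ _ _ _ _ _ _).1 pU8
    · exact (pr_TYC dt _ wok 9 _ _ _ _ _ _ _ _ _).1 pU9
    · exact (pr_TYC dt _ wok 10 _ _ _ _ _ _ _ _ _).1 pU10
    · exact (pr_TYC dt _ wok 11 _ _ _ _ _ _ _ _ _).1 pU11
    · exact (pr_TYC dt _ wok 12 _ _ _ _ _ _ _ _ _).1 pU12
    · exact (pr_TYC dt _ wok 13 _ _ _ _ _ _ _ _ _).1 pU13
    · exact (pr_TYC dt _ wok 14 _ _ _ _ _ _ _ _ _).1 pU14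
    · exact (pr_TYC dt _ wok 15 _ _ _ _ _ _ _ _ _).1 pU15
    · exact (pr_TYC dt _ wok 16 _ _ _ _ _ _ _ _ _).1 pU16
    · exact (pr_TYC dt _ wok 17 _ _ _ _ _ _ _ _ _).1 pU17
    · exact (pr_TYC dt _ wok 18 _ _ _ _ _ _ _ _ _).1 pU18
    · exact (pr_TYC dt _ wok 19 _ _ _ _ _ _ _ _ _).1 pU19
    · exact (pr_TYC dt _ wok 20 _ _ _ _ _ _ _ _ _).1 pU20
    · exact (pr_TYC dt _ wok 21 _ _ _ _ _ _ _ _ _).1 pU21
    · exact (pr_TYC dt _ wok 22 _ _ _ _ _ _ _ _ _).1 pU22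
    · exact (pr_TYC dt _ wok 23 _ _ _ _ _ _ _ _ _).1 pU23
    · exact (pr_TYC dt _ wok 24 _ _ _ _ _ _ _ _ _).1 pU24
    · exact (pr_TYC dt _ wok 25 _ _ _ _ _ _ _ _ _).1 pU25
    · exact (pr_TYC dt _ wok 26 _ _ _ _ _ _ _ _ _).1 pU26
    · exact (pr_TYC dt _ wok 27 _ _ _ _ _ _ _ _ _).1 pU27
    · exact (pr_TYC dt _ wok 28 _ _ _ _ _ _ _ _ _).1 pU28
    · exact (pr_TYC dt _ wok 29 _ _ _ _ _ _ _ _ _).1 pU29
    · exact (pr_TYC dt _ wok 30 _ _ _ _ _ _ _ _ _).1 pU30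
    · exact (pr_TYC dt _ wok 31 _ _ _ _ _ _ _ _ _).1 pU31
    · exact (pr_TYC dt _ wok 32 _ _ _ _ _ _ _ _ _).1 pU32
    · exact (pr_TYC dt _ wok 33 _ _ _ _ _ _ _ _ _).1 pU33
    · exact (pr_TYC dt _ wok 34 _ _ _ _ _ _ _ _ _).1 pU34
    · exact (pr_TYC dt _ wok 35 _ _ _ _ _ _ _ _ _).1 pU35
    · exact (pr_TYC dt _ wok 36 _ _ _ _ _ _ _ _ _).1 pU36
    · exact (pr_TYC dt _ wok 37 _ _ _ _ _ _ _ _ _).1 pU37
  · exact (pr_TYC dt _ wok ty 0 0 0 0 0 0 0 0 []).2.2.2.2 _ (dgz (nT := 38) (by decide +kernel) ty h1) _ _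

theorem te : ∀ ty < 256, TOK dt.W dt.c dt.o (dg 8 (8 * ty) dt.NE)
    (fun k => rowP dt.W (8 * dt.Z) dt.NE dt.BE dt.WE (256 * ty + k)) fun k => bvec dt.W 0 bp bn (256 * ty + k) := by
  intro ty hty
  rcases Nat.lt_or_ge ty 7 with h1 | h1
  · interval_cases ty
    · exact ((pr_TYC dt _ wok 0 _ _ _ _ _ _ _ _ _).2.2.2.1 bp bn pE0).1
    · exact tok_b ((pr_TYC dt _ wok 1 _ _ _ _ _ _ _ _ _).2.1 pE1) (by norm_num)
    · exact tok_b ((pr_TYC dt _ wok 2 _ _ _ _ _ _ _ _ _).2.1 pE2) (by norm_num)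
    · exact tok_b ((pr_TYC dt _ wok 3 _ _ _ _ _ _ _ _ _).2.1 pE3) (by norm_num)
    · exact tok_b ((pr_TYC dt _ wok 4 _ _ _ _ _ _ _ _ _).2.1 pE4) (by norm_num)
    · exact tok_b ((pr_TYC dt _ wok 5 _ _ _ _ _ _ _ _ _).2.1 pE5) (by norm_num)
    · exact tok_b ((pr_TYC dt _ wok 6 _ _ _ _ _ _ _ _ _).2.1 pE6) (by norm_num)
  · exact (pr_TYC dt _ wok ty 0 0 0 0 0 0 0 0 []).2.2.2.2 _ (dgz (nT := 7) (by decide +kernel) ty h1) _ _

theorem tv' : ∀ ty < 256, TOK dt.W dt.c dt.o (dg 8 (8 * ty) dt.NV)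
    (fun k => get dt.BV (get dt.WV (256 * ty + k))) fun _ => 0 := by
  intro ty hty
  rcases Nat.lt_or_ge ty 7 with h1 | h1
  · interval_cases ty
    · exact (pr_TYC dt _ wok 0 _ _ _ _ _ _ _ _ _).2.2.1 pV0
    · exact (pr_TYC dt _ wok 1 _ _ _ _ _ _ _ _ _).2.2.1 pV1
    · exact (pr_TYC dt _ wok 2 _ _ _ _ _ _ _ _ _).2.2.1 pV2
    · exact (pr_TYC dt _ wok 3 _ _ _ _ _ _ _ _ _).2.2.1 pV3
    · exact (pr_TYC dt _ wok 4 _ _ _ _ _ _ _ _ _).2.2.1 pV4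
    · exact (pr_TYC dt _ wok 5 _ _ _ _ _ _ _ _ _).2.2.1 pV5
    · exact (pr_TYC dt _ wok 6 _ _ _ _ _ _ _ _ _).2.2.1 pV6
  · exact (pr_TYC dt _ wok ty 0 0 0 0 0 0 0 0 []).2.2.2.2 _ (dgz (nT := 7) (by decide +kernel) ty h1) _ _

theorem g : Rng (cG dt) 0 410 := (((((((((((((((((((((((g0).app g1).app g2).app g3).app g4).app g5).app g6).app g7).app g8).app g9).app g10).app g11).app g12).app g13).app g14).app g15).app g16).app g17).app g18).app g19).app g20).app g21).app g22).app g23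

theorem h : Rng (cH dt) 0 107 := (((h0).app h1).app h2).app h3

theorem x7 : Rng (fun k => ckX 3 7 8 (tl 8) 410 tR0 (get tR1 k) (get tX7 k)) 0 107 := (((x7_0).app x7_1).app x7_2).app x7_3

theorem aok : AOK dt 4835703278458516698824704 0 (bvec dt.W 0 bp bn) where
  w := wok
  bu := fun F hF => bu F (Nat.zero_le _) hF
  be := fun F hF => be F (Nat.zero_le _) hF
  bv := fun _ F hF => bw F (Nat.zero_le _) hF
  h := fun k hk => h k (Nat.zero_le _) hk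
  j := fun k hk => j k (Nat.zero_le _) hk
  s1 := fun k hk => a7 k (Nat.zero_le _) hk
  s2 := fun k hk => a6 k (Nat.zero_le _) hk
  tu := tu
  te := te
  tv := fun _ => tv'
  zt := tbn_get zt
  b0 := fun _ h => bvec_ne h
  b1 := by
    intro a h
    by_cases h1 : a / 256 = 0
    · exact ((pr_TYC dt _ wok 0 _ _ _ _ _ _ _ _ _).2.2.2.1 bp bn pE0).2 a h1 h
    · exact bvec_ne h1

theorem c1 : Cls 3 1 (get tS1) 1 :=
  pr_CLX 3 0 1 1 tS0 tS1 tX0 (Or.inl rfl) (by norm_num) (cls_zero _ _)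
    (fun j hj => a0 j (Nat.zero_le _) hj) (fun j hj => a1 j (Nat.zero_le _) hj)
    (fun k hk => x0 k (Nat.zero_le _) hk)

theorem c2 : Cls 3 2 (get tS2) 2 :=
  pr_CLX 3 1 1 2 tS1 tS2 tX1 (Or.inl rfl) (by norm_num) c1
    (fun j hj => a1 j (Nat.zero_le _) hj) (fun j hj => a2 j (Nat.zero_le _) hj)
    (fun k hk => x1 k (Nat.zero_le _) hk)

theorem c3 : Cls 3 3 (get tS3) 3 :=
  pr_CLX 3 2 2 3 tS2 tS3 tX2 (Or.inl rfl) (by norm_num) c2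
    (fun j hj => a2 j (Nat.zero_le _) hj) (fun j hj => a3 j (Nat.zero_le _) hj)
    (fun k hk => x2 k (Nat.zero_le _) hk)

theorem c4 : Cls 3 4 (get tS4) 7 :=
  pr_CLX 3 3 3 7 tS3 tS4 tX3 (Or.inl rfl) (by norm_num) c3
    (fun j hj => a3 j (Nat.zero_le _) hj) (fun j hj => a4 j (Nat.zero_le _) hj)
    (fun k hk => x3 k (Nat.zero_le _) hk)

theorem c5 : Cls 3 5 (get tS5) 14 :=
  pr_CLX 3 4 7 14 tS4 tS5 tX4 (Or.inl rfl) (by norm_num) c4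
    (fun j hj => a4 j (Nat.zero_le _) hj) (fun j hj => a5 j (Nat.zero_le _) hj)
    (fun k hk => x4 k (Nat.zero_le _) hk)

theorem c6 : Cls 3 6 (get tR2) 38 :=
  pr_CLX 3 5 14 38 tS5 tR2 tX5 (Or.inl rfl) (by norm_num) c5
    (fun j hj => a5 j (Nat.zero_le _) hj) (fun j hj => a6 j (Nat.zero_le _) hj)
    (fun k hk => x5 k (Nat.zero_le _) hk)

theorem c7 : Cls 3 7 (get tR1) 107 :=
  pr_CLX 3 6 38 107 tR2 tR1 tX6 (Or.inl rfl) (by norm_num) c6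
    (fun j hj => a6 j (Nat.zero_le _) hj) (fun j hj => a7 j (Nat.zero_le _) hj)
    (fun k hk => x6 k (Nat.zero_le _) hk)

theorem c8 : Cls 3 8 (get tR0) 410 :=
  pr_CLX 3 7 107 410 tR1 tR0 tX7 (Or.inl rfl) (by norm_num) c7
    (fun j hj => a7 j (Nat.zero_le _) hj) (fun j hj => a8 j (Nat.zero_le _) hj)
    (fun k hk => x7 k (Nat.zero_le _) hk)

theorem str : StrOK dt 2 0 bp bn := by
  intro s t hst
  cases s <;> cases t
  · exact ⟨64693997584, by decide +kernel, by decide +kernel⟩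
  · exact ⟨17794318995472, by decide +kernel, by decide +kernel⟩
  · exact ⟨16557907390512, by decide +kernel, by decide +kernel⟩
  · exact absurd ⟨rfl, rfl⟩ (hst rfl)

/-- the bound -/
theorem pb : PB 2 ((7 : ℝ) / 50) := by
  have h := fnl pr_CGN pr_MAT pr_STR pr_CKA dt 2 4835703278458516698824704 0 bp bn 410 (by norm_num) (by norm_num) aok c8
    (fun k hk => a8 k (Nat.zero_le _) hk) (fun k hk => g k (Nat.zero_le _) hk) str
  have h1 : ((dt.q : ℕ) : ℝ) / (dt.m : ℕ) = (7 : ℝ) / 50 := by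
    show (((7 : ℕ) : ℝ)) / ((50 : ℕ) : ℝ) = _
    norm_num
  rw [h1] at h
  exact h

end Pool.Agent.Work.MP_f94384_co.Big.R2
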