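import Pool.Agent.Work.MP_f94384_co.Big.Prog2
set_option autoImplicit false
set_option maxRecDepth 1000000
set_option linter.all false

/-! Data of the certificate (generated) -/

namespace Pool.Agent.Work.MP_f94384_co.Big.R2

noncomputable def tR1 : Tr := (fun (N : Tr → Tr → Tr) (L : ℕ → Tr) => (N (N (N (N (N (N (N (L (nat_lit 0)) (L (nat_lit 0xe0e0160606010))) (N (L (nat_lit 0xf0f0060606060)) (L (nat_lit 0xf0f0760707070)))) (N (N (L (nat_lit 0x5030000402060)) (L (nat_lit 0xb070340207070))) (N (L (nat_lit 0x12034100006030)) (L (nat_lit 0))))) (N (N (N (L (nat_lit 0x3010000004060)) (L (nat_lit 0x7050300605070))) (N (L (nat_lit 0xd020140402050)) (L (nat_lit 0xe070341607038)))) (N (N (L (nat_lit 0x2c430040402020)) (L (nat_lit 0xf0d0360605070))) (N (L (nat_lit 0xf060140606050)) (L (nat_lit 0)))))) (N (N (N (N (L (nat_lit 0xf000040404040)) (L (nat_lit 0xc030340403030))) (N (L (nat_lit 0x4020100402010)) (L (nat_lit 0xe070241607028))))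 (N (N (L (nat_lit 0xf030040406060)) (L (nat_lit 0x1c074340603030))) (N (L (nat_lit 0x7060100606050)) (L (nat_lit 0))))) (N (N (N (L (nat_lit 0xf010040404060)) (L (nat_lit 0xe050340605030))) (N (L (nat_lit 0xc030140402030)) (L (nat_lit 0)))) (N (N (L (nat_lit 0xf070040606060)) (L (nat_lit 0xb070740307070))) (N (L (nat_lit 0xf070140606070)) (L (nat_lit 0))))))) (N (N (N (N (N (L (nat_lit 0x3000000004040)) (L (nat_lit 0xf0f0160606070))) (N (L (nat_lit 0x1f0f4060606060)) (L (nat_lit 0xc050241601028)))) (N (N (L (nat_lit 0xc030040402020)) (L (nat_lit 0xd070340603070))) (N (L (nat_lit 0x1e034140406030)) (L (nat_lit 0))))) (N (N (N (L (nat_lit 0x7010000404060)) (L (nat_lit 0xa050340205030))) (N (L (nat_lit 0x6030100406030)) (L (nat_lit 0xe070741707038)))) (N (N (L (nat_lit 0x7070000606060)) (L (nat_lit 0x1c0f4360603030))) (N (L (nat_lit 0xb070140206070)) (L (nat_lit 0)))))) (N (N (N (N (L (nat_lit 0x3f404040404040)) (L (nat_lit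 0xf030340407070))) (N (L (nat_lit 0x7020100406050)) (L (nat_lit 0xc060341603018)))) (N (N (L (nat_lit 0x1d034040402060)) (L (nat_lit 0xd0d0360601070))) (N (L (nat_lit 0xb060140206050)) (L (nat_lit 0))))) (N (N (N (L (nat_lit 0x1f014040404060)) (L (nat_lit 0x1c054340601030))) (N (L (nat_lit 0xe030140406030)) (L (nat_lit 0)))) (N (N (L (nat_lit 0x1b074040206060)) (L (nat_lit 0xd0b0760503070))) (N (L (nat_lit 0x1a074140206030)) (L (nat_lit 0)))))))) (N (N (N (N (N (N (L (nat_lit 0x1000000000040)) (L (nat_lit 0xf0e0160606050))) (N (L (nat_lit 0x170f4020606060)) (L (nat_lit 0xf0f0f70707070)))) (N (N (L (nat_lit 0x7030000406060)) (L (nat_lit 0xc070340603030))) (N (L (nat_lit 0x16034100406030)) (L (nat_lit 0))))) (N (N (N (L (nat_lit 0x6010000404020)) (L (nat_lit 0x9050340201070))) (N (L (nat_lit 0xf020140406050)) (L (nat_lit 0xe0e0361607018)))) (N (N (L (nat_lit 0x3c434040402020)) (L (nat_lit 0xf0f0360607070))) (N (L (nat_lit 0x7070100606070))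 (L (nat_lit 0)))))) (N (N (N (N (L (nat_lit 0x1f004040404040)) (L (nat_lit 0xd030340403070))) (N (L (nat_lit 0x5020100402050)) (L (nat_lit 0x1c074241603028)))) (N (N (L (nat_lit 0x1c034040402020)) (L (nat_lit 0xf0c0360605050))) (N (L (nat_lit 0xa060140206010)) (L (nat_lit 0))))) (N (N (N (L (nat_lit 0x1e014040404020)) (L (nat_lit 0xf050340605070))) (N (L (nat_lit 0xd030140402070)) (L (nat_lit 0)))) (N (N (L (nat_lit 0x19074040202060)) (L (nat_lit 0xf070740707070))) (N (L (nat_lit 0x16074100606030)) (L (nat_lit 0))))))) (N (N (N (N (N (L (nat_lit 0x7000000404040)) (L (nat_lit 0x1e0f4160606030))) (N (L (nat_lit 0x1f1f6060606060)) (L (nat_lit 0xe050241605028)))) (N (N (L (nat_lit 0xd030040402060)) (L (nat_lit 0xf070340607070))) (N (L (nat_lit 0x6060100606010)) (L (nat_lit 0))))) (N (N (N (L (nat_lit 0xe010040404020)) (L (nat_lit 0xb050340205070))) (N (L (nat_lit 0x7030100406070)) (L (nat_lit 0)))) (N (N (L (nat_lit 0xb070040206060))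 (L (nat_lit 0x7070700707070))) (N (L (nat_lit 0xe070140606030)) (L (nat_lit 0)))))) (N (N (N (N (L (nat_lit 0x2010000004020)) (L (nat_lit 0x6050300605030))) (N (L (nat_lit 0xc020140402010)) (L (nat_lit 0xe060341607018)))) (N (N (L (nat_lit 0x1f034040406060)) (L (nat_lit 0xe0d0360605030))) (N (L (nat_lit 0xe060140606010)) (L (nat_lit 0))))) (N (N (N (L (nat_lit 0x3030000006060)) (L (nat_lit 0x7070300607070))) (N (L (nat_lit 0xf030140406070)) (L (nat_lit 0)))) (N (N (L (nat_lit 0x1f074040606060)) (L (nat_lit 0xf0b0760507070))) (N (L (nat_lit 0x1e074140606030)) (L (nat_lit 0)))))))))) Tr.N Tr.L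
noncomputable def tR2 : Tr := (fun (N : Tr → Tr → Tr) (L : ℕ → Tr) => (N (N (N (N (N (N (L (nat_lit 0)) (L (nat_lit 0x70701303038))) (N (L (nat_lit 0xd0320201030)) (L (nat_lit 0)))) (N (N (L (nat_lit 0x60100202010)) (L (nat_lit 0))) (N (L (nat_lit 0x50201201028)) (L (nat_lit 0))))) (N (N (N (L (nat_lit 0xf0020202020)) (L (nat_lit 0x70703303838))) (N (L (nat_lit 0xb0720103030)) (L (nat_lit 0)))) (N (N (L (nat_lit 0x30300003030)) (L (nat_lit 0))) (N (L (nat_lit 0xa0321003018)) (L (nat_lit 0)))))) (N (N (N (N (L (nat_lit 0x30000002020)) (L (nat_lit 0x60503302818))) (N (L (nat_lit 0x1c2320201010)) (L (nat_lit 0)))) (N (N (L (nat_lit 0xe0120202010)) (L (nat_lit 0))) (N (L (nat_lit 0x60301203018)) (L (nat_lit 0))))) (N (N (N (L (nat_lit 0x20100002010)) (L (nat_lit 0))) (N (L (nat_lit 0xf0f30303030)) (L (nat_lit 0)))) (N (N (L (nat_lit 0x70300203030)) (L (nat_lit 0))) (N (L (nat_lit 0x60601303008)) (L (nat_lit 0))))))) (N (N (N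 (N (N (L (nat_lit 0x10000000020)) (L (nat_lit 0xe0721303018))) (N (L (nat_lit 0xf0320203030)) (L (nat_lit 0)))) (N (N (L (nat_lit 0x70100202030)) (L (nat_lit 0))) (N (L (nat_lit 0x70201203028)) (L (nat_lit 0))))) (N (N (N (L (nat_lit 0x1f2020202020)) (L (nat_lit 0x70707383838))) (N (L (nat_lit 0xf0720303030)) (L (nat_lit 0)))) (N (N (L (nat_lit 0x50300201030)) (L (nat_lit 0))) (N (L (nat_lit 0xe0321203018)) (L (nat_lit 0)))))) (N (N (N (N (L (nat_lit 0x70000202020)) (L (nat_lit 0x70503302838))) (N (L (nat_lit 0x70700303030)) (L (nat_lit 0)))) (N (N (L (nat_lit 0xf0120202030)) (L (nat_lit 0))) (N (L (nat_lit 0x70301203038)) (L (nat_lit 0))))) (N (N (N (L (nat_lit 0x30100002030)) (L (nat_lit 0))) (N (L (nat_lit 0x40201201008)) (L (nat_lit 0)))) (N (N (L (nat_lit 0xc0320201010)) (L (nat_lit 0))) (N (L (nat_lit 0x70601303028)) (L (nat_lit 0))))))))) Tr.N Tr.L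
noncomputable def tTU : Tr := (fun (N : Tr → Tr → Tr) (L : ℕ → Tr) => (N (N (N (N (N (N (N (L (nat_lit 0x78000000f130000010d010d010d010d010d010d00000000078000000f13010d0000010d010d010d010d010d00000000078000000f13010d010d0000010d010d010d010d00000000078000000f13010d010d010d0000010d010d010d00000000078000000f13010d010d010d010d0000010d010d00000000078000000f13010d010d010d010d010d0000010d00000000078000000f13010d010d010d010d010d010d0000)) (L (nat_lit 0xf0012c001050f31000803270128022902290229012800000f0012c001050f31032700080128022902290229012800000c0014a001030f36031d031d0006011e011e011e021f00001d000a8001040f1b031303130112000402140214011200001d000a8001040f1b031303130112021400040214011200001d000a8001040f1b031303130112021402140004011200000c0014a001030f36031d031d021f011e011e011e0006))) (N (L (nat_lit 0x70014a000760f360005031a021c011b011b011b011b0000070014a000760f36031a0005021c011b011b011b011b0000200009c000750f19020702070000011401140114011400000c0014a000740f36031103110213000201120112011200000c0014a000740f36031103110213011200020112011200000c0014a000740f36031103110213011201120002011200000c0014a000740f360311031102130112011201120002))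 (L (nat_lit 0x1b001860018d0f40000b0439033a023c013b013b013b00001b001860018d0f400439000b033a023c013b013b013b0000200009c0018c0f190310031000050211011801180118000025000540018b0f0d0306030602070002010c010c010c000024000cc0018a0f2104190419031a021c0005011b011b000024000cc0018a0f2104190419031a021c011b0005011b000024000cc0018a0f2104190419031a021c011b011b0005)))) (N (N (L (nat_lit 0x2001ce000340f4c0006052204260426022503240123000002001ce000340f4c052200060426042603240225012300000a00282000330f6a041204120000031402680268011300000a00282000330f6a0412041203140000026802680113000005001f8000320f5304180516031a031a000202190117000005001f8000320f5305160418031a031a021900020117000004000f0000310f27030e030e02100210010f010f0002)) (L (nat_lit 0xb002ee001450f7c000f0560046102630362017b017b00000b002ee001450f7c0560000f046103620263017b017b00001500174001440f3d031903190004021b021b011a011a00001f001aa001430f46041d051c031e0004021f0145014500001f001aa001430f46051c041d031e021f0004014501450000180021c001420f5904450445034702460246000b01440000180021c001420f59044504450347024602460144000b)))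 (N (L (nat_lit 0x5001f8000b50f530004012003210222022203210120000005001f8000b50f530120000401200222022203210321000005001f8000b50f53032101200004022202220120032100000d000a2000b60f1a011901190119000002060119011900000d000a2000b60f1a0119011901190206000001190119000005001f8000b50f530321032101200222022200040120000005001f8000b50f530120032103210222022201200004)) (L (nat_lit 0))))) (N (N (N (L (nat_lit 0x1000fc000130f290003011102250225022503120410000002001ce000140f4c0114000202160216021603150446000005001f8000150f53010f02100000034f034f0210010f000005001f8000150f53010f0210034f0000034f0210010f000005001f8000150f53010f0210034f034f00000210010f000002001ce000140f4c0446031502160216021600020114000001000fc000130f290410031202250225022501110003)) (L (nat_lit 0xa00282001200f6a000801380138023b033a033a043900000b002ee001210f7c013b0008023c0340043f053e063d00000b002ee001210f7c013b023c00080340053e043f063d000023000de001220f24010702080208000002080208010700000b002ee001210f7c063d043f053e03400008023c013b00000b002ee001210f7c063d053e043f0340023c0008013b00000a00282001200f6a0439033a033a023b013801380008)))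 (N (L (nat_lit 0x4000f0000920f270007021e041f03200320021e011d000009003420008f0f8a054c000b034e024f024f0450014d00000f0012c000910f31041702180004032f032f021801190000170015c000900f39050c020e040f00010310020e010d0000170015c000900f39050c020e040f03100001020e010d000009003420008f0f8a054c0450034e024f024f000b014d0000080022e0008e0f5c04380139033b023a023a01390009)) (L (nat_lit 0x1a001b0001a40f47000a01410243034504440542064000001c001c2001a50f4a013f000a0241034304440542064000002100126001a60f300120022100060323042505240622000023000de001a70f24012102200322000603220220012100002100126001a60f30062205240425032300060221012000001c001c2001a50f4a06400542044403430241000a013f00001a001b0001a40f47064005420444034502430141000a)))) (N (N (L (nat_lit 0x2001ce000570f4c0009042e033001480148022f022f000002001ce000570f4c042e00090330022f022f0148014800001200108000560f2b020902090000012801280128012800000900342000550f8a0420051f0323000201210222022200000900342000550f8a0420051f0323012100020222022200000900342000550f8a051f04200323022202220002012100000900342000550f8a051f042003230222022201210002))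 (L (nat_lit 0x13002ac001700f7100110569046a036d036d026c016b000014001d40016f0f4d0540000c0441034403440243014200001b001860016e0f40052f043000090332033202330131000023000de0016d0f240612051304140003031702160115000023000de0016d0f24061205130414031700030216011500001f001aa0016c0f46053204330335023402340009013100001e002580016b0f63055204530355025402540151000d))) (N (L (nat_lit 0x80022e000de0f5c000f055404560358025702570155000010001ce000dd0f4c052f000804310332024902490130000014001d4000dc0f4d0525042600060328024b024b012700001e00258000db0f63051a041b031d0002021c021c01190000180021c000da0f5906260529042a032b0005022801270000180021c000da0f5906260529042a032b02280005012700000b002ee000d90f7c054b044c034f024e014d014d000b)) (L (nat_lit 0)))))) (N (N (N (N (L (nat_lit 0x780000b0f130004020a020a01110111011101110000070014a0000a0f36030c0000020d01300130013001300000070014a0000a0f36030c020d00000130013001300130000003001b0000090f470311021302130001011201120112000003001b0000090f470311021302130112000101120112000003001b0000090f470311021302130112011200010112000003001b0000090f470311021302130112011201120001))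 (L (nat_lit 0x6000f0001140f270006011a011a021b021b011a011a0000110011a001120f2e041a0005011b021d021d031c031c0000110011a001120f2e041a011b0005021d021d031c031c00001d000a8001130f1b030701080108000102090108010800001d000a8001130f1b03070108010802090001010801080000110011a001120f2e041a031c031c021d021d0005011b0000110011a001120f2e041a031c031c021d021d011b0005))) (N (L (nat_lit 0x4000f0000800f270003012501250212031101250125000004000f0000800f270125000301250212012503110125000004000f0000800f27012501250003021201250125031100001600054000810f0d0104010401040000010401040104000004000f0000800f270311012501250212000301250125000004000f0000800f270125031101250212012500030125000004000f0000800f270125012503110212012501250003)) (L (nat_lit 0x180021c0019b0f59000d064e055201510353024f04500000180021c0019b0f59064e000d055204500353024f0151000021001260019a0f30041d041d0005012f031f021e012f00001a001b0001970f47053a0638043c000802390137033b00001c001c2001990f4a042d042d032e012c0006022b012c00000d000a2001980f1a041504150318011602170005011600001a001b0001970f470638053a043c033b023901370008))))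 (N (N (L (nat_lit 0x2001ce000470f4c000a0449033802370237013601360000070014a000460f360414000303160232023201150115000014001d4000450f4d040e030f0000024902490110011000000b002ee000440f7c05180419031c0001021b011a011a00000b002ee000440f7c05180419031c021b0001011a011a00000900342000430f8a0529042b032d022c022c0004012a00000900342000430f8a0529042b032d022c022c012a0004)) (L (nat_lit 0xb002ee0015e0f7c00110569046a036d026c016b016b000012001080015d0f2b0521000704220325022401230123000013002ac0015c0f71055c045b000e035e025d015f015f000021001260015b0f3005160414031500030217012e012e00001e002580015a0f63052304250324022700040126012600001c001c2001590f4a062505260428032a02290005012700001c001c2001590f4a062505260428032a022901270005))) (N (L (nat_lit 0x80022e000c80f5c0007052f0431033302320232013000000900342000c70f8a053f00080441034302420242014000000b002ee000c60f7c053104320006033502330233013400001e00258000c50f63051104120313000002610261011000000a00282000c40f6a06300531043203330006022f012e00000a00282000c40f6a0630053104320333022f0006012e000006000f0000c30f270512041303140215012601260004))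 (L (nat_lit 0))))) (N (N (N (L (nat_lit 0x1000fc000270f290007041c031d022802280228011b0000070014a000260f360411000203130231023102310112000010001ce000250f4c040e03100000024702470247010f00000900342000240f8a051a041c031e0001021d021d011b00000900342000240f8a051a041c031e021d0001021d011b00000900342000240f8a051a041c031e021d021d0001011b000003001b0000230f470421032302240122012201220040)) (L (nat_lit 0xa00282001350f6a0010046004600363026202620161000013002ac001340f71064a000b054b044f024e034c014d000013002ac001340f71064a054b000b044f034c024e014d00002200072001330f120405030603060001020802080107000019001c8001320f4b0629042d052b032e0006022c012a000019001c8001320f4b0629052b042d032e022c0006012a0000180021c001310f590432033403340235013301330007))) (N (L (nat_lit 0x5001f8000a20f53000a013c023d033e033e023d013c0000080022e0009f0f5c053c000a013e023f023f0340043d0000110011a000a00f2e051101120003022c022c031404130000170015c000a10f3904120111021400020313021401110000170015c000a10f3904120111021403130002021401110000110011a000a00f2e051104130314022c022c000301120000080022e0009f0f5c053c043d0340023f023f013e000a))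 (L (nat_lit 0)))) (N (N (L (nat_lit 0x3001b0000670f470008042e03310230012f012f012f0000070014a000660f36041700040319021801330133013300001b00186000650f40040c030d0000020e013d013d013d00000c0014a000640f36040e030f0210000101320132013200000b002ee000630f7c052204230326022500030124012400000b002ee000630f7c052204230326022501240003012400000b002ee000630f7c0522042303260225012401240003)) (L (nat_lit 0xc0014a0017e0f36000a042b042b032d022c01350135000015001740017d0f3d052c0008042d032f022e013c013c000015001740017d0f3d052c042d0008032f022e013c013c000024000cc0017c0f21041103100310000302130112011200001f001aa0017b0f46042503270327022800060126012600001e002580017a0f63053d044004400341023f0009013e00001e002580017a0f63053d044004400341023f013e0009))) (N (L (nat_lit 0x900342000f40f8a0014057c047e0380027f027f017d000010001ce000f30f4c0533000904350336024a024a013400001b00186000f20f40051b041c0004031e023e023e011d00001f001aa000f10f46051504160317000202440244011400001a001b0000f00f470619051b041d031e0003021c011a00001a001b0000f00f470619051b041d031e021c0003011a00000b002ee000ef0f7c055504560359025801570157000d))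 (L (nat_lit 0))))))) (N (N (N (N (N (L (nat_lit 0x78000050f130002020f020f020f020f01080108000002001ce000040f4c030f000002110211021101100110000002001ce000040f4c030f021100000211021101100110000002001ce000040f4c030f021102110000021101100110000002001ce000040f4c030f021102110211000001100110000001000fc000030f29030b020d020d020d020d0001010c000001000fc000030f29030b020d020d020d020d010c0001)) (L (nat_lit 0x10001ce0010e0f4c000c043f03410242024202420140000010001ce0010e0f4c043f000c034102420242024201400000200009c0010d0f19030c030c0003021602160216010d00001f001aa0010c0f4604190419031b0003021a021a011800001f001aa0010c0f4604190419031b021a0003021a011800001f001aa0010c0f4604190419031b021a021a0003011800000c0014a0010b0f360324032402260125012501250008))) (N (L (nat_lit 0x70014a0007d0f36000b032d022f012e012e012e012e00000e0009c0007c0f1903100005021101180118011801180000200009c0007b0f19030802090001011501150115011500001b001860007a0f4004170318021a000301190119011900001b001860007a0f4004170318021a011900030119011900001b001860007a0f4004170318021a011901190003011900001b001860007a0f4004170318021a0119011901190003))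 (L (nat_lit 0x170015c001900f3900080231013203330333013202310000170015c001900f39023100080132023103330132033300000d000a2001910f1a010f010f0003010f010f0210010f0000170015c001900f3903330231013200080231013203330000170015c001900f39033303330132023100080132023100000d000a2001910f1a010f010f0210010f010f0003010f0000170015c001900f390231033301320333023101320008)))) (N (N (L (nat_lit 0x2001ce0003c0f4c0008042b032d012c012c02470247000002001ce0003c0f4c042b0008032d02470247012c012c0000110011a0003b0f2e020a020a0000012b012b012b012b0000080022e0003a0f5c04180517031b00020119021a021a0000080022e0003a0f5c04180517031b01190002021a021a0000080022e0003a0f5c05170418031b021a021a000201190000080022e0003a0f5c05170418031b021a021a01190002)) (L (nat_lit 0xb002ee001520f7c0012066e056f0473037202710170000013002ac001510f710650000c0551045503540253015200001500174001500f3d062605270007042b0329022a0128000023000de0014f0f24060d050c040e000203110210010f00001e002580014e0f63063205350436033700070234013300001a001b00014d0f47062b052d042f0330022e0006012c000019001c80014c0f4b063505370439033a023801360008)))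 (N (L (nat_lit 0x5001f8000bf0f53000e014c024d034e034e024d014c000010001ce000bc0f4c052a0007012b022e022e032d042c000013002ac000bd0f71052f01300006023302330331043200001c001c2000be0f4a040f01100211000103120211011000001c001c2000be0f4a040f011002110312000102110110000013002ac000bd0f71052f043203310233023300060130000010001ce000bc0f4c052a042c032d022e022e012b0007)) (L (nat_lit 0))))) (N (N (N (L (nat_lit 0x1000fc0001e0f290005041703260326021802180116000003001b00001d0f470414000203160316024102410115000009003420001c0f8a0516041800000319028602860117000009003420001c0f8a0516041803190000028602860117000005001f80001b0f530511041303150315000102140112000005001f80001b0f530511041303150315021400010112000002001ce0001a0f4c041e032002210221011f011f0005)) (L (nat_lit 0xa00282001290f6a000d064e054f035304520151025000000a00282001290f6a064e000d054f04520353025001510000110011a001280f2e032203220007022d022d01230123000019001c8001270f4b0527062304250005032801240226000019001c8001270f4b06230527042503280005022601240000170015c001260f390527062504290228032a000601260000170015c001260f39062505270429032a022801260006)))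 (N (L (nat_lit 0x5001f8000970f530007012d022f03310430052e062c0000080022e000980f5c012500050227032a04290528062600000a00282000990f6a0122022300040327042605240625000019001c80009a0f4b010c020d034a0000034a020d010c00000a00282000990f6a06250524042603270004022301220000080022e000980f5c062605280429032a022700050125000005001f8000970f53062c052e04300331022f012d0007)) (L (nat_lit 0x1f001aa001ac0f46000c01400140024203410341043f00002100126001ad0f3001290008022a032c042d042d052b00002100126001ad0f300129022a0008032c042d042d052b000024000cc001ae0f21011e021d021d0006021d021d011e00002100126001ad0f30052b042d042d032c0008022a012900002100126001ad0f30052b042d042d032c022a0008012900001f001aa001ac0f46043f03410341024201400140000c)))) (N (N (L (nat_lit 0x3001b00005e0f470004031a021c021c011b011b011b000003001b00005e0f47031a0004021c021c011b011b011b00000c0014a0005d0f36030c030c0000020d01310131013100000c0014a0005d0f36030c030c020d0000013101310131000006000f00005c0f27030d030d020f020f0002010e010e000006000f00005c0f27030d030d020f020f010e0002010e000006000f00005c0f27030d030d020f020f010e010e0002))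 (L (nat_lit 0x14001d4001760f4d000b033c043d013f013f023e023e00001200108001770f2b0226000802260127012701270127000014001d4001760f4d043d033c000b023e023e013f013f00002100126001750f30031a041805190004011b021c021c00002100126001750f30031a04180519011b0004021c021c00002100126001750f3005190418031a021c021c0004011b00002100126001750f3005190418031a021c021c011b0004))) (N (L (nat_lit 0x900342000e80f8a0011066b056d0370046f026e016c00000900342000e80f8a066b0011056d046f0370026e016c00001500174000e70f3d041604160003033b033b0218011700001a001b0000e60f47051506130417000203180216011400001a001b0000e60f4706130515041703180002021601140000180021c000e50f59041d041d031f021e021e0003011c00000a00282000e40f6a044604460349024802480147000b)) (L (nat_lit 0)))))) (N (N (N (N (L (nat_lit 0x78000100f130006010c010c010c010c010c010c00000e0009c0000f0f19020800010109010901090109010900000e0009c0000f0f19020801090001010901090109010900000e0009c0000f0f19020801090109000101090109010900000e0009c0000f0f19020801090109010900010109010900000e0009c0000f0f19020801090109010901090001010900000e0009c0000f0f190208010901090109010901090001))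 (L (nat_lit 0x6000f00011d0f270008032103210222022201200120000014001d40011c0f4d0421000503220224022401230123000014001d40011c0f4d042103220005022402240123012300001f001aa0011b0f46041003120312000102130111011100001f001aa0011b0f460410031203120213000101110111000012001080011a0f2b041b031d031d021e021e0005011c000012001080011a0f2b041b031d031d021e021e011c0005))) (N (L (nat_lit 0x4000f00008a0f27000504180418031a02190117011700000900342000890f8a062e00050530048703320131022f00000900342000890f8a062e0530000504870332022f01310000180021c000880f59040f03580358000002110110011000000a00282000870f6a04200369036902210003011f011f000005001f8000860f530626042a0528032b022900060127000005001f8000860f5306260528042a032b022901270006)) (L (nat_lit 0x19001c80019f0f4b000a014102420343034302420141000019001c80019f0f4b0141000a01410242034303430242000019001c80019f0f4b02420141000a0141024203430343000019001c80019f0f4b034302420141000a014102420343000019001c80019f0f4b0343034302420141000a01410242000019001c80019f0f4b02420343034302420141000a0141000019001c80019f0f4b014102420343034302420141000a))))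 (N (N (L (nat_lit 0x2001ce000500f4c000d043f034103410341024a01400000070014a0004f0f360423000803340334033402250124000013002ac0004e0f71051604170001031a031a02190118000013002ac0004e0f7105160417031a0001031a02190118000013002ac0004e0f7105160417031a031a000102190118000010001ce0004d0f4c0419031b021c021c021c0003011a00000f0012c0004c0f310413031402160216021601150003)) (L (nat_lit 0x13002ac001660f71000f056004610364036402630162000013002ac001660f710560000f0461036403640263016200000c0014a001650f3604270427000903290329022a012800001e00258001640f63053b053b04380008033a023c013900001e00258001640f63053b053b0438033a0008023c013900001f001aa001630f46042e042e0330022f022f0008012d00001d000a8001620f1b0416041603150217021701180005))) (N (L (nat_lit 0x80022e000d30f5c000d064a054c044f034e024d014b00000900342000d20f8a0665001005670469036a02680166000013002ac000d10f710639053a0008046f033c023b013d000019001c8000d00f4b06190517041b0003031c021a01180000180021c000cf0f5906200523042403250004022201210000170015c000ce0f39061505170419031a02180003011600000a00282000cd0f6a064005410445034402430142000a))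 (L (nat_lit 0))))) (N (N (N (L (nat_lit 0x1000fc0002e0f29000903210222022202220222012000000e0009c0002d0f19030a00020215021502150215010b000010001ce0002c0f4c0411031300010214021402140112000010001ce0002c0f4c0411031302140001021402140112000010001ce0002c0f4c0411031302140214000102140112000010001ce0002c0f4c04110313021402140214000101120000070014a0002b0f360320022201210121012101210007)) (L (nat_lit 0xa002820013d0f6a000e055506540259015704580356000012001080013e0f2b031f0006031f022a0120022a012000000a002820013d0f6a06540555000e045803560259015700001c001c20013c0f4a04220520061f00040121032402230000180021c0013b0f59042d052f062c013000060331022e00001c001c20013c0f4a061f0520042203240223000401210000180021c0013b0f59062c052f042d0331022e01300006))) (N (L (nat_lit 0x5001f8000ae0f53000c05440446035203520245014300000f0012c000ad0f31051a0005041c031e031e021d011b000013002ac000ac0f71052a042b0005032e032e022c012d000019001c8000ab0f4b060e05100412000103130211010f000019001c8000ab0f4b060e05100412031300010211010f0000110011a000aa0f2e051504170318021902190004011600000900342000a90f8a055b045d035f025e025e015c000e))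 (L (nat_lit 0)))) (N (N (L (nat_lit 0x3001b00006f0f47000c043a03460346023c013b013b0000070014a0006e0f360426000903280328022901270127000015001740006d0f3d050e040f00010312021101100110000015001740006d0f3d050e040f03120001021101100110000014001d40006c0f4d0415031602180218000201170117000013002ac0006b0f710520042103240324022300030122000013002ac0006b0f710520042103240324022301220003)) (L (nat_lit 0x1500174001850f3d000a04330433023602360335013400001500174001850f3d0433000a0433023603350236013400001500174001850f3d04330433000a0335023602360134000023000de001840f240319031904180004021b021b011a000023000de001840f24031904180319021b0004021b011a000023000de001840f24041803190319021b021b0004011a00002200072001830f12020d020d020d010e010e010e0003))) (N (L (nat_lit 0x900342000fc0f8a001206710173037604750274057200000900342000fc0f8a0671001205720475037602740173000013002ac000f90f71053f063e0009024103430140044200001c001c2000fb0f4a051406130115000203180217041600001c001c2000fb0f4a0613051404160318000202170115000019001c8000fa0f4b0314031401150216021600020115000013002ac000f90f71063e053f04420343024101400009))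 (L (nat_lit 0)))))))) (N (N (N (N (N (N (L (nat_lit 0x78000010f130001010e010e010e010e010e0207000001000fc000020f29010a00000223022302230223010a000001000fc000020f29010a02230000022302230223010a000001000fc000020f29010a02230223000002230223010a000001000fc000020f29010a02230223022300000223010a000001000fc000020f29010a02230223022302230000010a00000000078000010f130207010e010e010e010e010e0001)) (L (nat_lit 0xf0012c0010a0f310009042a032c022d022d022d012b000010001ce001090f4c043b000b033d023e023e023e013c00001b00186001080f40042703280007022902290229012a00001e00258001070f630529042a032c0005022b022b012800001e00258001070f630529042a032c022b0005022b012800001e00258001070f630529042a032c022b022b0005012800000c0014a001060f360420032102230122012201220007))) (N (L (nat_lit 0x70014a000790f36000a042a022c032b0135013501350000070014a000790f36042a000a032b022c01350135013500001b00186000780f40031404130002021601150115011500001b00186000780f40041303140216000201150115011500001500174000770f3d031303130215021500020114011400001500174000770f3d031303130215021501140002011400001500174000770f3d0313031302150215011401140002))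 (L (nat_lit 0x200009c0018f0f1900060212021201130113011301130000200009c0018f0f1902120006021201130113011301130000200009c0018f0f190212021200060113011301130113000025000540018e0f0d0208020802080003010901090109000025000540018e0f0d0208020802080109000301090109000025000540018e0f0d0208020802080109010900030109000025000540018e0f0d0208020802080109010901090003)))) (N (N (L (nat_lit 0x2001ce000390f4c00070427032a032a022901280128000003001b0000380f47041700030319031902420118011800000b002ee000370f7c051404150000031702160179017900000b002ee000370f7c0514041503170000021601790179000006000f0000360f27040a030b022402240001010c010c000005001f8000350f53051b041d031f031f021e0003011c000005001f8000350f53051b041d031f031f021e011c0003)) (L (nat_lit 0xb002ee0014b0f7c00100564046503680267016601660000110011a0014a0f2e0524000804250328022701260126000013002ac001490f7105570456000d03590258015a015a00001e00258001480f63054604430344000a02420145014500001d000a8001470f1b050e040f031002110003011a011a000019001c8001460f4b062f053104330334023200070130000019001c8001460f4b062f053104330334023201300007)))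 (N (L (nat_lit 0x5001f8000bb0f53000901380239043b033a0239013800000900342000b70f8a06390007013a033e023d043c053b00000a00282000b80f6a062801290005032d022c042a052b00001c001c2000ba0f4a040c010d02490000030e0249010d00000d000a2000b90f1a040701080209030a00010209010800000a00282000b80f6a0628052b042a032d022c0005012900000900342000b70f8a0639053b043c033e023d013a0007)) (L (nat_lit 0))))) (N (N (N (L (nat_lit 0x1000fc000190f290004011303150315021402140113000002001ce000160f4c041a0004021d021d011b011b031c0000080022e000180f5c04100111000003120259025901110000080022e000180f5c0410011103120000025902590111000004000f0000170f27040a010b030d030d0001020c010b000004000f0000170f27040a010b030d030d020c0001010b000002001ce000160f4c041a031c021d021d011b011b0004)) (L (nat_lit 0xa00282001250f6a000c044a044a024d034c034c014b00000a00282001250f6a044a000c044a034c024d034c014b00000a00282001250f6a044a044a000c034c034c024d014b0000180021c001240f59033d043b043b0009023c023c013a0000180021c001240f59043b033d043b023c0009023c013a0000180021c001240f59043b043b033d023c023c0009013a00001600054001230f0d020a020a020a010b010b010b0003)))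 (N (L (nat_lit 0x4000f0000960f270008032203220223022301210121000010001ce000950f4c0521000504230348034801240222000010001ce000950f4c05210423000503480348022201240000180021c000940f5904120314031400010215011301130000180021c000940f59041203140314021500010113011300000900342000930f8a05510355045302540254000c015200000900342000930f8a055104530355025402540152000c)) (L (nat_lit 0x1c001c2001ab0f4a000b04450146024703480247014600001c001c2001ab0f4a0445000b0146024703480247014600001f001aa001a80f46053b053b000b013a023d033c043e00001e00258001a90f63055f055f015c000f025e035d046000002100126001aa0f30032803280127022600070226012700001e00258001a90f63055f055f0460035d025e000f015c00001f001aa001a80f46053b053b043e033c023d013a000b)))) (N (N (L (nat_lit 0x2001ce0005b0f4c000c033c023e023e023e013d013d000003001b00005a0f470335000a0244024402440136013600001200108000590f2b040a030b0001020d020d010c010c00001200108000590f2b040a030b020d0001020d010c010c00001200108000590f2b040a030b020d020d0001010c010c000010001ce000580f4c0415031602180218021800020117000010001ce000580f4c0415031602180218021801170002))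 (L (nat_lit 0x14001d4001740f4d000d044503460248024801470147000014001d4001740f4d0445000d034602480248014701470000200009c001730f19030e030e000402170217010f010f000024000cc001720f21040c040c030d0002020f010e010e000024000cc001720f21040c040c030d020f0002010e010e00001f001aa001710f4604370437033902380238000a013600001f001aa001710f46043704370339023802380136000a))) (N (L (nat_lit 0x900342000e30f8a000905440446034702880288014500000900342000e30f8a054400090446034702880288014500000c0014a000e20f36041404140003031602330233011500001f001aa000e10f46040e040e030f000002430243010d00000b002ee000e00f7c052e052e042f03300005022d012c00000b002ee000e00f7c052e052e042f0330022d0005012c000006000f0000df0f270416041603180219011701170005)) (L (nat_lit 0)))))) (N (N (N (N (L (nat_lit 0x780000e0f130005020b0112011201120112011200000e0009c0000d0f1902070000011401140114011401140000070014a0000c0f36030e02100001010f010f010f010f0000070014a0000c0f36030e0210010f0001010f010f010f0000070014a0000c0f36030e0210010f010f0001010f010f0000070014a0000c0f36030e0210010f010f010f0001010f0000070014a0000c0f36030e0210010f010f010f010f0001))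 (L (nat_lit 0x6000f0001190f270007041e041e031f031f021d011c000013002ac001180f710534000704350338033802370136000013002ac001180f71053404350007033803380237013600001e00258001170f63051404170417000103180216011500001e00258001170f63051404170417031800010216011500001200108001160f2b041703190319021a021a000401180000110011a001150f2e041e0320032002210221011f0006))) (N (L (nat_lit 0x4000f0000820f270004012602140316041501260513000005001f8000830f5301230005025003250250042401230000080022e000840f5c0121025a000403240423025a05220000170015c000850f39010a020b033800000338020b010a0000080022e000840f5c0522025a042303240004025a0121000005001f8000830f530123042402500325025000050123000004000f0000820f270513012604150316021401260004)) (L (nat_lit 0x180021c0019e0f59000e0454015601560257035503550000180021c0019e0f590454000e0355035502570156015600001c001c20019c0f4a053406330008013502370338043600001c001c20019c0f4a0534063301350008023704360338000022000720019d0f12020f020f0110011000040110011000001c001c20019c0f4a063305340338043602370008013500001c001c20019c0f4a0633053404360338023701350008))))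 (N (N (L (nat_lit 0x2001ce0004b0f4c000b0339023b023b023b013a013a000003001b00004a0f4703320009023302330233013401340000110011a000490f2e040b030c0001020e020e010d010d0000110011a000490f2e040b030c020e0001020e010d010d0000110011a000490f2e040b030c020e020e0001010d010d00000f0012c000480f31040f03100212021202120002011100000f0012c000480f31040f031002120212021201110002)) (L (nat_lit 0x110011a001610f2e000902290229012a012a012a012a000014001d4001600f4d0438000a0339013b013b023a023a000014001d4001600f4d04380339000a023a023a013b013b00001e002580015f0f630548034b0449000b0147024a024a00001e002580015f0f630548034b04490147000b024a024a00001e002580015f0f6305480449034b024a024a000b014700001e002580015f0f6305480449034b024a024a0147000b))) (N (L (nat_lit 0x80022e000cc0f5c000c0546015b034904480247015b0000080022e000cc0f5c0546000c015b044803490247015b00000a00282000c90f6a043c043c0009023e023e013d033f0000170015c000cb0f39041e051b011d0004031f021c011d0000170015c000cb0f39051b041e011d031f0004021c011d00001600054000ca0f0d030703070108020902090002010800000a00282000c90f6a043c043c033f023e023e013d0009))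 (L (nat_lit 0))))) (N (N (N (L (nat_lit 0x1000fc0002a0f290008011e021f021f021f021f011e0000070014a000280f36031d0006011e011e011e011e021f00000f0012c000290f31030c010d0001020e020e020e010d00000f0012c000290f31030c010d020e0001020e020e010d00000f0012c000290f31030c010d020e020e0001020e010d00000f0012c000290f31030c010d020e020e020e0001010d0000070014a000280f36031d021f011e011e011e011e0006)) (L (nat_lit 0xa002820013a0f6a0011046404640367026602660165000014001d4001390f4d062e0008052f044c023203310130000014001d4001390f4d062e052f0008044c033102320130000023000de001380f240409030a030a000102230223010b00001a001b0001370f47062504290527032a00050228012600001a001b0001370f47062505270429032a0228000501260000180021c001360f590436033803380239013701370008))) (N (L (nat_lit 0x5001f8000a80f53000b05400442035103510241013f00000900342000a70f8a0556000d045803590359025a0157000013002ac000a60f7105250426000403290329022801270000180021c000a50f5906170518041b0002031a021901160000180021c000a50f5906170518041b031a00020219011600001200108000a40f2b050e04100311022902290002010f0000080022e000a30f5c054104420345024402440143000b))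 (L (nat_lit 0)))) (N (N (L (nat_lit 0x3001b00006a0f47000b044502390239033803380137000003001b00006a0f470445000b03380338023902390137000013002ac000690f71041c051b0002021e031f031f011d000013002ac000690f71041c051b021e0002031f031f011d000013002ac000690f71051b041c031f031f0002021e011d000013002ac000690f71051b041c031f031f021e0002011d0000110011a000680f2e020f020f01100110011001100002)) (L (nat_lit 0xc0014a001820f36000b032e032e0230012f012f012f00001b00186001810f40042300060324022601250125012500001b00186001810f40042303240006022601250125012500002500054001800f0d0304020502050001010b010b010b00001f001aa0017f0f460429032b032b022c0007012a012a00001f001aa0017f0f460429032b032b022c012a0007012a00001f001aa0017f0f460429032b032b022c012a012a0007))) (N (L (nat_lit 0x900342000f80f8a000a0548014a034b02890289044900000900342000f80f8a0548000a0449034b02890289014a00000b002ee000f50f7c043705360007023a01380138033900002100126000f70f3003090309010a0000020b020b010a00000d000a2000f60f1a040b040b010c030e0002020d010c00000d000a2000f60f1a040b040b010c030e020d0002010c00000b002ee000f50f7c053604370339023a013801380007))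 (L (nat_lit 0))))))) (N (N (N (N (N (L (nat_lit 0x78000080f130003021002100210010901090109000003001b0000070f47030e000002100210010f010f010f000003001b0000070f47030e021000000210010f010f010f000003001b0000070f47030e021002100000010f010f010f000002001ce000060f4c0345021302130213000101120112000002001ce000060f4c0345021302130213011200010112000002001ce000060f4c0345021302130213011201120001)) (L (nat_lit 0x10001ce001110f4c000d044301450246024602460344000010001ce001110f4c0443000d0344024602460246014500001b001860010f0f40032c042b0008012d012d012d022e00002100126001100f30031103110112000202130213011200002100126001100f30031103110112021300020213011200002100126001100f30031103110112021302130002011200001b001860010f0f40042b032c022e012d012d012d0008))) (N (L (nat_lit 0xe0009c0007f0f19000602120113011301130113011300000e0009c0007f0f1902120006011301130113011301130000200009c0007e0f19020a020a0002010b010b010b010b0000200009c0007e0f19020a020a010b0002010b010b010b0000200009c0007e0f19020a020a010b010b0002010b010b0000200009c0007e0f19020a020a010b010b010b0002010b0000200009c0007e0f19020a020a010b010b010b010b0002))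 (L (nat_lit 0x170015c001960f3900090134043603370337023501340000180021c001920f590648000c044c024a034d0149054b00001c001c2001950f4a042f013000070331033102320130000019001c8001940f4b063e013c04400009033d023b053f000019001c8001940f4b063e053f0440033d0009023b013c00000d000a2001930f1a04110112031402130213000401120000180021c001920f590648054b044c034d024a0149000c)))) (N (N (L (nat_lit 0x2001ce000420f4c0044053104350334033402330132000003001b0000410f470525000604280326032602270143000013002ac000400f71051204130000036e036e0215011400000a002820003f0f6a06150516041a000103190218011700000a002820003f0f6a06150516041a0319000102180117000009003420003e0f8a05240426032802270227000301250000080022e0003d0f5c051c041d0320021f021f011e0003)) (L (nat_lit 0xb002ee001580f7c0013057404750378027701760176000014001d4001570f4d053300090434033702360135013500001b00186001560f40051f0420000503220221013f013f000024000cc001550f2105080409030a0001020b0120012000001f001aa001540f46052004220323022400050121012100001a001b0001530f47063105330435033602340007013200001a001b0001530f470631053304350336023401320007)))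 (N (L (nat_lit 0x80022e000c10f5c0006022b012c032e042d042d012c0000080022e000c10f5c022b0006012c032e042d042d012c000006000f0000c00f27012501250003021101250125031000001d000a8000c20f1b02190219010600000219021901060000080022e000c10f5c042d042d012c032e0006022b012c0000080022e000c10f5c042d042d012c032e022b0006012c000006000f0000c00f270125012503100211012501250003)) (L (nat_lit 0))))) (N (N (N (L (nat_lit 0x1000fc000220f2900060119031a0227022702270119000003001b00001f0f47041d00050220011e011e011e031f00000f0012c000210f31030a010b0000022e022e022e010b0000080022e000200f5c04130114031600010215021501140000080022e000200f5c04130114031602150001021501140000080022e000200f5c0413011403160215021500010114000003001b00001f0f47041d031f0220011e011e011e0005)) (L (nat_lit 0xa00282001300f6a000f065a055b045f035e025d015c00000b002ee0012f0f7c065a000e055b045e035f025d015c000013002ac0012e0f7106440545000a044903470248014600001e002580012d0f630630052d043100060362022f012e00001a001b00012c0f47061f0523042103240004022201200000180021c0012b0f59063f0540044303420241000a013e0000170015c0012a0f39062b052d042f0330022e012c0007)))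 (N (L (nat_lit 0x5001f80009b0f530008013302350337043605340632000009003420009c0f8a013300060235033804370536063400000b002ee0009d0f7c012702280004037a042b052a062900001a001b00009e0f47010b020c034600000346020c010b00000b002ee0009d0f7c0629052a042b037a000402280127000009003420009c0f8a0634053604370338023500060133000005001f80009b0f530632053404360337023501330008)) (L (nat_lit 0)))) (N (N (L (nat_lit 0x3001b0000620f4700070529042d022c032b012a012a000003001b0000620f4705290007042d032b022c012a012a00001500174000610f3d030c030c0000023a023a010d010d00000b002ee000600f7c041e051d032100020220011f011f00000b002ee000600f7c051d041e032102200002011f011f00000a002820005f0f6a041b041b031e021d021d0002011c00000a002820005f0f6a041b041b031e021d021d011c0002)) (L (nat_lit 0xc0014a001780f360005011a011a021c031b031b031b00000c0014a001780f36011a0005011a021c031b031b031b00000c0014a001780f36011a011a0005021c031b031b031b00002500054001790f0d010a010a010a0000010a010a010a00000c0014a001780f36031b031b031b021c0005011a011a00000c0014a001780f36031b031b031b021c011a0005011a00000c0014a001780f36031b031b031b021c011a011a0005)))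 (N (L (nat_lit 0x900342000ee0f8a001305770479037b027a027a017800000f0012c000ed0f31052200070424032602250225012300001500174000ec0f3d051c041d00050320021e021e011f00001e00258000eb0f630520041f0322000302210221011e000019001c8000ea0f4b061d051f0421032200040220011e000019001c8000ea0f4b061d051f0421032202200004011e00000b002ee000e90f7c055004510354025301520152000c)) (L (nat_lit 0)))))) (N (N (N (N (L (nat_lit 0x1000fc000110f290002010e022402240224030f010e000001000fc000110f29010e0002022402240224010e030f000004000f0000120f270124012400000209020901240124000004000f0000120f270124012402090000020901240124000004000f0000120f270124012402090209000001240124000001000fc000110f29030f010e0224022402240002010e000001000fc000110f29010e030f022402240224010e0002)) (L (nat_lit 0xa002820011e0f6a000701340134023703360336043500000a002820011e0f6a013400070134023703360435033600000a002820011e0f6a0134013400070237043503360336000022000720011f0f12011101110111000001110111011100000a002820011e0f6a033603360435023700070134013400000a002820011e0f6a033604350336023701340007013400000a002820011e0f6a0435033603360237013401340007)))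 (N (L (nat_lit 0x4000f00008d0f270006011b011b021c021c011b011b0000080022e0008b0f5c04340008013502360236033701350000080022e0008b0f5c0434013500080236023601350337000016000540008c0f0d0305010c010c00010206010c010c000016000540008c0f0d0305010c010c02060001010c010c0000080022e0008b0f5c04340337013502360236000801350000080022e0008b0f5c0434013503370236023601350008)) (L (nat_lit 0x19001c8001a10f4b000b02450347044905480646014400001c001c2001a20f4a02390009033b043d053e063c013a00001e00258001a30f6302570358000e0456055a0659015b00001e00258001a30f630659055a0456000e03580257015b00001c001c2001a20f4a063c053e043d033b00090239013a000019001c8001a10f4b06460548044903470245000b014400001a001b0001a00f47013d023e033f033f023e013d0009)))) (N (N (L (nat_lit 0x2001ce000540f4c000e0342024b024b024b0143014300000e0009c000530f19030c0003021602160216010d010d000014001d4000520f4d0411031200010214021401130113000014001d4000520f4d0411031202140001021401130113000014001d4000520f4d0411031202140214000101130113000010001ce000510f4c041d031f0220022002200004011e000010001ce000510f4c041d031f022002200220011e0004))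 (L (nat_lit 0x13002ac0016a0f710010056504660370037001680267000013002ac0016a0f71056500100466037003700267016800001500174001690f3d033003300009023102310132013200002200072001680f1204090409030a0002020c010b010b00002200072001680f1204090409030a020c0002010b010b00001e00258001670f63044e054d0350024f024f000c014c00001e00258001670f63054d044e0350024f024f014c000c))) (N (L (nat_lit 0x80022e000d80f5c000e04500151035302520252015100000f0012c000d70f31041f00060120032102300230012000000b002ee000d40f7c05460447000a024901480148034a00001d000a8000d60f1b040b030c010a0002020d020d010a0000170015c000d50f3905200423012203240005022101220000170015c000d50f39052004230122032402210005012200000b002ee000d40f7c05460447034a024901480148000a)) (L (nat_lit 0))))) (N (N (N (L (nat_lit 0x2001ce0002f0f4c0003011702190219021903180318000002001ce0002f0f4c0117000302190219021903180318000006000f0000300f270123012300000209020901230123000006000f0000300f270123012302090000020901230123000006000f0000300f270123012302090209000001230123000002001ce0002f0f4c0318031802190219021900030117000002001ce0002f0f4c0318031802190219021901170003))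 (L (nat_lit 0xb002ee0013f0f7c000901410242034504440543054300000b002ee0013f0f7c014100090242034504440543054300000c0014a001400f360117011700040219031804340434000024000cc001410f21011f011f020700000207011f011f00000c0014a001400f36043404340318021900040117011700000b002ee0013f0f7c054305430444034502420009014100000b002ee0013f0f7c0543054304440345024201410009))) (N (L (nat_lit 0x5001f8000b40f53000d0548044a034b034b02490147000010001ce000b30f4c0525000604270329032902280126000014001d4000b20f4d051d041e0004034a034a0220011f00001a001b0000b10f47060d050f0411000103120210010e00001a001b0000b10f47060d050f0411031200010210010e00001200108000b00f2b051204140315021602160003011300000900342000af0f8a056004620364026302630161000f)) (L (nat_lit 0)))) (N (N (L (nat_lit 0x3001b0000730f47000d033d023f023f013e013e013e00000e0009c000720f19030e0004020f020f01170117011700001b00186000710f40040f03100001021201110111011100001b00186000710f40040f031002120001011101110111000014001d4000700f4d0419031a021c021c0003011b011b000014001d4000700f4d0419031a021c021c011b0003011b000014001d4000700f4d0419031a021c021c011b011b0003))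 (L (nat_lit 0x1500174001890f3d000b03370337023902390138013800001b00186001880f400534000a0435023803370136013600001b00186001880f4005340435000a0337023801360136000024000cc001870f210514031604150004021801170117000024000cc001870f210514041503160218000401170117000023000de001860f24041c031d031d021f021f0005011e000023000de001860f24041c031d031d021f021f011e0005))) (N (L (nat_lit 0x900342001020f8a0015058104830385028402840182000010001ce001010f4c0537000a0438033a024b024b013900001500174001000f3d052104220006032502230223012400002100126000ff0f30050c040d030f000102100210010e00001c001c2000fe0f4a0619051a041c031e0003021d011b00001c001c2000fe0f4a0619051a041c031e021d0003011b000014001d4000fd0f4d0529042a032c022d012b012b0007)) (L (nat_lit 0)))))))))) Tr.N Tr.L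
noncomputable def tTE_0 : Tr := (fun (N : Tr → Tr → Tr) (L : ℕ → Tr) => (N (N (N (N (N (L (nat_lit 0x162000000f3a0f3a00000f3a013601360136013600000000162000000f3a0f3a000001360f3a01360136013600000000162000000f3a0f3a0000013601360f3a0136013600000000162000000f3a0f3a00000136013601360f3a013600000000162000000f3a0f3a000001360136013601360f3a00000000000000000000000000000000000000000000000000000000000000000000000000000000000000000000000000000000162000000f3a0f3a0f3a0000013601360136013600000000000000000000000000000000000000000000000000000000162000000f3a0f3a013600000f3a01360136013600000000162000000f3a0f3a0136000001360f3a0136013600000000162000000f3a0f3a01360000013601360f3a013600000000162000000f3a0f3a013600000136013601360f3a00000000000000000000000000000000000000000000000000000000000000000000000000000000000000000000000000000000162000000f3a0f3a0f3a0136000001360136013600000000162000000f3a0f3a01360f3a00000136013601360000000000000000000000000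0000000000000000000000000000000162000000f3a0f3a0136013600000f3a0136013600000000162000000f3a0f3a01360136000001360f3a013600000000162000000f3a0f3a013601360000013601360f3a00000000000000000000000000000000000000000000000000000000000000000000000000000000000000000000000000000000162000000f3a0f3a0f3a0136013600000136013600000000162000000f3a0f3a01360f3a013600000136013600000000162000000f3a0f3a013601360f3a00000136013600000000000000000000000000000000000000000000000000000000162000000f3a0f3a01360136013600000f3a013600000000162000000f3a0f3a013601360136000001360f3a00000000000000000000000000000000000000000000000000000000000000000000000000000000000000000000000000000000162000000f3a0f3a0f3a0136013601360000013600000000162000000f3a0f3a01360f3a013601360000013600000000162000000f3a0f3a013601360f3a01360000013600000000162000000f3a0f3a0136013601360f3a0000013600000000000000000000000000000000000000000000000000000000162000000f3a0f3a013601360136013600000f3a00000000000000000000000000000000000000000000000000000000000000000000000000000000000000000000000000000000162000000f3a0f3a0f3a0136013601360136000000000000162000000f3a0f3a01360f3a013601360136000000000000162000000f3a0f3a013601360f3a01360136000000000000162000000f3a0f3a0136013601360f3a0136000000000000162000000f3a0f3a01360136013601360f3a0000000000000000000000000000000000000000000000000000))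 (L (nat_lit 0x13001002280015c0f5b0f5b002e0f5b034e024f024f015a031503001680015b0f3b0f3b000e022c0f3b013a013a013a052f05001b60015a0f480f48002b044003460f480241013f052f05001b60015a0f480f48002b0440034602410f48013f02650200312001590f820f82007d03650280016601660f82000000000000000000000000000000000000000000000000000000000000000000000000000000000000000000000000013001002280015c0f5b0f5b0f5b002e034e024f024f015a000000000000000000000000000000000000000000000000031503001680015b0f3b0f3b022c000e0f3b013a013a013a052f05001b60015a0f480f480440002b03460f480241013f052f05001b60015a0f480f480440002b034602410f48013f02650200312001590f820f820365007d0280016601660f8200000000000000000000000000000000000000000000000000000000000000000000000000000000000000000000000003160300168001580f3b0f3b0f3b0326001702280228012703160300168001580f3b0f3b03260f3b0017022802280127000000000000000000000000000000000000000000000000060b06000ba001570f1e0f1e03150315000a0f1e02140113060b06000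ba001570f1e0f1e03150315000a02140f1e0113061106000ba001560f1e0f1e011c011c0011011c011c0f1e000000000000000000000000000000000000000000000000000000000000000000000000000000000000000000000000053005001b6001550f480f480f480439033b00330244013a053005001b6001550f480f4804390f48033b00330244013a060a06000ba001540f1e0f1e021602160f1e0006011d011d00000000000000000000000000000000000000000000000003170300168001530f3b0f3b032a032a022b00110f3b012902310200312001520f820f82036603660280003601650f82000000000000000000000000000000000000000000000000000000000000000000000000000000000000000000000000053005001b6001550f480f480f480439033b02440033013a053005001b6001550f480f4804390f48033b02440033013a060a06000ba001540f1e0f1e021602160f1e011d0006011d03170300168001530f3b0f3b032a032a022b0f3b0011012900000000000000000000000000000000000000000000000002310200312001520f820f82036603660280016500360f8200000000000000000000000000000000000000000000000000000000000000000000000000000000000000000000000002640200312001510f820f820f82036a026c016b016b005102640200312001510f820f82036a0f82026c016b016b0051061006000ba001500f1e0f1e021602160f1e011d011d000e023002003120014f0f820f820371037102720f820170001e023002003120014f0f820f8203710371027201700f82001e000000000000000000000000000000000000000000000000)))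 (N (L (nat_lit 0x170000162000ac0f3a0f3a000f0f3a0123012302390123024e0200312000ab0f820f820041046d0f82036f026e0181024e0200312000ab0f820f820041046d036f0f82026e018101170100228000aa0f5b0f5b000e034e024f024f0f5b015a01400100228000a90f5b0f5b0039014d02590259014d0f5b00000000000000000000000000000000000000000000000000000000000000000000000000000000000000000000000000180000162000a80f3a0f3a0f3a002b023802380122012200000000000000000000000000000000000000000000000002170200312000a70f820f82046d000d0f82036e026f018102170200312000a70f820f82046d000d036e0f82026f0181031f0300168000a60f3b0f3b03260019022802280f3b012702560200312000a50f820f82036700460268026801690f82000000000000000000000000000000000000000000000000000000000000000000000000000000000000000000000000024f0200312000a40f820f820f82035b007e025d015c015c02180200312000a30f820f82035e0f82002d015f0260015f000000000000000000000000000000000000000000000000051405001b6000a20f480f48043e033c00100f480245013d050b050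01b6000a10f480f480439033b000e02440f48013a040704000c0000a00f1f0f1f0319011d000a021a011d0f1f000000000000000000000000000000000000000000000000000000000000000000000000000000000000000000000000024f0200312000a40f820f820f82035b025d007e015c015c02180200312000a30f820f82035e0f82015f002d0260015f051405001b6000a20f480f48043e033c0f4800100245013d000000000000000000000000000000000000000000000000050b05001b6000a10f480f480439033b0244000e0f48013a040704000c0000a00f1f0f1f0319011d021a000a011d0f1f000000000000000000000000000000000000000000000000000000000000000000000000000000000000000000000000011801002280009f0f5b0f5b0f5b035702460246002a0145032003001680009e0f3b0f3b02230f3b01240124001e0124050a05001b60009d0f480f48043c033e0f4802450008013d050a05001b60009d0f480f48043c033e02450f480008013d000000000000000000000000000000000000000000000000023402003120009c0f820f82036702690168016800770f82000000000000000000000000000000000000000000000000000000000000000000000000000000000000000000000000014101002280009b0f5b0f5b0f5b03570246024601450042025702003120009a0f820f82035e0f82025f025f01600053040604000c0000990f1f0f1f021b021b0f1f011e011e0006040604000c0000990f1f0f1f021b021b011e0f1f011e000602330200312000980f820f82036a026c016b016b0f820024000000000000000000000000000000000000000000000000))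 (L (nat_lit 0)))) (N (N (L (nat_lit 0xc00001620003a0f3a0f3a00090f3a0238012201220238010701002280003c0f5b0f5b0004014d0f5b02590259014d014801002280003b0f5b0f5b0031015803480f5b02470158014801002280003b0f5b0f5b00310158034802470f5b0158000c00001620003a0f3a0f3a000902380238012201220f3a000000000000000000000000000000000000000000000000000000000000000000000000000000000000000000000000000d0000162000320f3a0f3a0f3a0028012101210121023700000000000000000000000000000000000000000000000002070200312000300f820f82036700040f82016801680269010d01002280002f0f5b0f5b0158000902480f5b01580347010d01002280002f0f5b0f5b01580009024801580f5b034702430200312000310f820f82035b003b025d015c015c0f8200000000000000000000000000000000000000000000000000000000000000000000000000000000000000000000000001080100228000390f5b0f5b0f5b0144002202560256014402080200312000370f820f82035b0f82001f015c015c025d000000000000000000000000000000000000000000000000041804000c0000380f1f0f1f011c011c000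30f1f011c011c041804000c0000380f1f0f1f011c011c0003011c0f1f011c02080200312000370f820f82035b025d001f015c015c0f8200000000000000000000000000000000000000000000000000000000000000000000000000000000000000000000000001350100228000360f5b0f5b0f5b01440256003b02560144010e0100228000330f5b0f5b03570f5b0246001001450246040104000c0000350f1f0f1f0319011d0f1f0001021a011d00000000000000000000000000000000000000000000000001190100228000340f5b0f5b03470158024800110f5b0158010e0100228000330f5b0f5b035702460246001001450f5b00000000000000000000000000000000000000000000000000000000000000000000000000000000000000000000000001350100228000360f5b0f5b0f5b014402560256003b0144010e0100228000330f5b0f5b03570f5b0246014500100246040104000c0000350f1f0f1f0319011d0f1f021a0001011d01190100228000340f5b0f5b0347015802480f5b00110158000000000000000000000000000000000000000000000000010e0100228000330f5b0f5b035702460246014500100f5b000000000000000000000000000000000000000000000000000000000000000000000000000000000000000000000000000d0000162000320f3a0f3a0f3a0237012101210121002802430200312000310f820f82035b0f82025d015c015c003b02070200312000300f820f82036702690f82016801680004010d01002280002f0f5b0f5b0158034702480f5b01580009010d01002280002f0f5b0f5b01580347024801580f5b0009000000000000000000000000000000000000000000000000))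 (L (nat_lit 0))) (N (L (nat_lit 0x11d0100228000e80f5b0f5b00140f5b014a024b034c0449011f0100228000e90f5b0f5b0015014d0f5b0259014d0259040f04000c0000ea0f1f0f1f0010011d021a0f1f011d0319011d0100228000e80f5b0f5b0014034c014a024b0f5b044901440100228000eb0f5b0f5b003c01580248034701580f5b000000000000000000000000000000000000000000000000000000000000000000000000000000000000000000000000011e0100228000ec0f5b0f5b0f5b001d0158024803470158000000000000000000000000000000000000000000000000021f0200312000ed0f820f82016700750f82026803690268021f0200312000ed0f820f820268007502680f8203690167052105001b6000ee0f480f4801380022024302430f480138011e0100228000ec0f5b0f5b0158001d0248015803470f5b00000000000000000000000000000000000000000000000000000000000000000000000000000000000000000000000001200100228000ef0f5b0f5b0f5b0158002402480158034702200200312000f00f820f8201610f820021026303640462000000000000000000000000000000000000000000000000040804000c0000f10f1f0f1f011a021d00070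f1f021d031902200200312000f00f820f8201610364002102630f820462041004000c0000f20f1f0f1f011c011c0012011c011c0f1f000000000000000000000000000000000000000000000000000000000000000000000000000000000000000000000000041004000c0000f20f1f0f1f0f1f011c011c0012011c011c02200200312000f00f820f8204620f820263002103640161040804000c0000f10f1f0f1f0319021d0f1f0007021d011a00000000000000000000000000000000000000000000000002200200312000f00f820f8204620364026300210f82016101200100228000ef0f5b0f5b034701580248002401580f5b000000000000000000000000000000000000000000000000000000000000000000000000000000000000000000000000011e0100228000ec0f5b0f5b0f5b034701580248001d0158052105001b6000ee0f480f4801380f480243024300220138021f0200312000ed0f820f82016703690f82026800750268021f0200312000ed0f820f820268036902680f8200750167000000000000000000000000000000000000000000000000011e0100228000ec0f5b0f5b0158034702480158001d0f5b00000000000000000000000000000000000000000000000000000000000000000000000000000000000000000000000001440100228000eb0f5b0f5b0f5b0158034702480158003c011d0100228000e80f5b0f5b04490f5b024b014a034c0014040f04000c0000ea0f1f0f1f0319011d0f1f021a011d0010011f0100228000e90f5b0f5b0259014d02590f5b014d0015011d0100228000e80f5b0f5b0449034c024b014a0f5b0014000000000000000000000000000000000000000000000000))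 (L (nat_lit 0))))) (N (N (N (L (nat_lit 0x700001620001b0f3a0f3a00040f3a0124012401240124002e00001620001a0f3a0f3a001c02390f3a012301230123002e00001620001a0f3a0f3a001c023901230f3a01230123002e00001620001a0f3a0f3a001c0239012301230f3a0123002e00001620001a0f3a0f3a001c02390123012301230f3a00000000000000000000000000000000000000000000000000000000000000000000000000000000000000000000000000080000162000190f3a0f3a0f3a0016013601360136013600000000000000000000000000000000000000000000000003020300168000180f3b0f3b022300040f3b01240124012403020300168000180f3b0f3b0223000401240f3b0124012403020300168000180f3b0f3b02230004012401240f3b012403020300168000180f3b0f3b022300040124012401240f3b00000000000000000000000000000000000000000000000000000000000000000000000000000000000000000000000000250000162000170f3a0f3a0f3a0136003401360136013603010300168000160f3b0f3b02250f3b0001013901390139000000000000000000000000000000000000000000000000020f0200312000150f820f82035e026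000730f82015f015f020f0200312000150f820f82035e02600073015f0f82015f020f0200312000150f820f82035e02600073015f015f0f8200000000000000000000000000000000000000000000000000000000000000000000000000000000000000000000000000250000162000170f3a0f3a0f3a0136013600340136013603010300168000160f3b0f3b02250f3b0139000101390139020f0200312000150f820f82035e02600f820073015f015f000000000000000000000000000000000000000000000000020f0200312000150f820f82035e0260015f00730f82015f020f0200312000150f820f82035e0260015f0073015f0f8200000000000000000000000000000000000000000000000000000000000000000000000000000000000000000000000000250000162000170f3a0f3a0f3a0136013601360034013603010300168000160f3b0f3b02250f3b0139013900010139020f0200312000150f820f82035e02600f82015f0073015f020f0200312000150f820f82035e0260015f0f820073015f000000000000000000000000000000000000000000000000020f0200312000150f820f82035e0260015f015f00730f8200000000000000000000000000000000000000000000000000000000000000000000000000000000000000000000000000250000162000170f3a0f3a0f3a0136013601360136003403010300168000160f3b0f3b02250f3b0139013901390001020f0200312000150f820f82035e02600f82015f015f0073020f0200312000150f820f82035e0260015f0f82015f0073020f0200312000150f820f82035e0260015f015f0f820073000000000000000000000000000000000000000000000000))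 (L (nat_lit 0x2420200312001730f820f82003a0f82017002720371037103190300168001740f3b0f3b0014012c0f3b023a023a023a061306000ba001750f1e0f1e001a011d011d0f1e02160216053605001b6001760f480f4800350140024603410f48043f053605001b6001760f480f480035014002460341043f0f4800000000000000000000000000000000000000000000000000000000000000000000000000000000000000000000000002420200312001730f820f820f82003a017002720371037100000000000000000000000000000000000000000000000003190300168001740f3b0f3b012c00140f3b023a023a023a061306000ba001750f1e0f1e011d001a011d0f1e02160216053605001b6001760f480f4801400035024603410f48043f053605001b6001760f480f480140003502460341043f0f48000000000000000000000000000000000000000000000000000000000000000000000000000000000000000000000000031a0300168001770f3b0f3b0f3b01290030022b032a032a031a0300168001770f3b0f3b01290f3b0030022b032a032a000000000000000000000000000000000000000000000000060d06000ba001780f1e0f1e011d011d000b0f1e02160216061706000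ba001790f1e0f1e01150115001b02140f1e0313061706000ba001790f1e0f1e01150115001b021403130f1e000000000000000000000000000000000000000000000000000000000000000000000000000000000000000000000000061706000ba001790f1e0f1e0f1e03130214001b01150115061706000ba001790f1e0f1e03130f1e0214001b01150115060d06000ba001780f1e0f1e021602160f1e000b011d011d000000000000000000000000000000000000000000000000031a0300168001770f3b0f3b032a032a022b00300f3b0129031a0300168001770f3b0f3b032a032a022b003001290f3b000000000000000000000000000000000000000000000000000000000000000000000000000000000000000000000000053605001b6001760f480f480f48043f0341024600350140053605001b6001760f480f48043f0f480341024600350140061306000ba001750f1e0f1e021602160f1e011d001a011d03190300168001740f3b0f3b023a023a023a0f3b0014012c00000000000000000000000000000000000000000000000002420200312001730f820f820371037102720170003a0f82000000000000000000000000000000000000000000000000000000000000000000000000000000000000000000000000053605001b6001760f480f480f48043f0341024601400035053605001b6001760f480f48043f0f480341024601400035061306000ba001750f1e0f1e021602160f1e011d011d001a03190300168001740f3b0f3b023a023a023a0f3b012c001402420200312001730f820f8203710371027201700f82003a000000000000000000000000000000000000000000000000)))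 (N (L (nat_lit 0x1c0000162000d40f3a0f3a00150f3a012302390123012303210300168000d20f3b0f3b001a03290f3b022b012a012a02190200312000d30f820f820074037002720f820171017102580200312000d10f820f820047046d026f036e0f82018102580200312000d10f820f820047046d026f036e01810f82000000000000000000000000000000000000000000000000000000000000000000000000000000000000000000000000001c0000162000d40f3a0f3a0f3a0015023901230123012300000000000000000000000000000000000000000000000002190200312000d30f820f82037000740f8202720171017103210300168000d20f3b0f3b0329001a022b0f3b012a012a02580200312000d10f820f82046d0047036e026f0f82018102580200312000d10f820f82046d0047036e026f01810f82000000000000000000000000000000000000000000000000000000000000000000000000000000000000000000000000032d0300168000cf0f3b0f3b0f3b02230021012401240124021a0200312000d00f820f82035e0f8200340260015f015f000000000000000000000000000000000000000000000000060606000ba000ce0f1e0f1e0213031400040f1e011501150516050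01b6000cd0f480f48033e043c001802450f48013d051605001b6000cd0f480f48033e043c00180245013d0f48000000000000000000000000000000000000000000000000000000000000000000000000000000000000000000000000021a0200312000d00f820f820f82035e02600034015f015f032d0300168000cf0f3b0f3b02230f3b0124002101240124060606000ba000ce0f1e0f1e031402130f1e000401150115000000000000000000000000000000000000000000000000051605001b6000cd0f480f48043c033e024500180f48013d051605001b6000cd0f480f48043c033e02450018013d0f4800000000000000000000000000000000000000000000000000000000000000000000000000000000000000000000000002590200312000cc0f820f820f82035e0260015f007f015f02590200312000cc0f820f82035e0f82015f0260007f015f051505001b6000cb0f480f480341043f0f48024600110140051505001b6000cb0f480f48043f034102460f4800110140000000000000000000000000000000000000000000000000040b04000c0000ca0f1f0f1f021b021b011e011e000b0f1f00000000000000000000000000000000000000000000000000000000000000000000000000000000000000000000000002590200312000cc0f820f820f82035e0260015f015f007f02590200312000cc0f820f82035e0f82015f0260015f007f051505001b6000cb0f480f480341043f0f48024601400011051505001b6000cb0f480f48043f034102460f4801400011040b04000c0000ca0f1f0f1f021b021b011e011e0f1f000b000000000000000000000000000000000000000000000000))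 (L (nat_lit 0)))) (N (N (L (nat_lit 0x130000162000670f3a0f3a000c0f3a013801380222022202050200312000680f820f82000301650f8202800366036602050200312000680f820f820003016502800f8203660366013b0100228000690f5b0f5b00360145024602460f5b0357013b0100228000690f5b0f5b003601450246024603570f5b00000000000000000000000000000000000000000000000000000000000000000000000000000000000000000000000000130000162000670f3a0f3a0f3a000c013801380222022200000000000000000000000000000000000000000000000002050200312000680f820f82016500030f8202800366036602050200312000680f820f820165000302800f8203660366013b0100228000690f5b0f5b01450036024602460f5b0357013b0100228000690f5b0f5b014500360246024603570f5b000000000000000000000000000000000000000000000000000000000000000000000000000000000000000000000000020602003120006a0f820f820f82015b0017025d035c035c020602003120006a0f820f82015b0f820017025d035c035c000000000000000000000000000000000000000000000000060006000ba0006b0f1e0f1e011c011c00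000f1e011c011c020602003120006a0f820f82035c035c0017025d0f82015b020602003120006a0f820f82035c035c0017025d015b0f82000000000000000000000000000000000000000000000000000000000000000000000000000000000000000000000000020602003120006a0f820f820f82015b025d0017035c035c020602003120006a0f820f82015b0f82025d0017035c035c060006000ba0006b0f1e0f1e011c011c0f1e0000011c011c000000000000000000000000000000000000000000000000020602003120006a0f820f82035c035c025d00170f82015b020602003120006a0f820f82035c035c025d0017015b0f82000000000000000000000000000000000000000000000000000000000000000000000000000000000000000000000000013b0100228000690f5b0f5b0f5b03570246024600360145013b0100228000690f5b0f5b03570f5b024602460036014502050200312000680f820f82036603660f8202800003016502050200312000680f820f820366036602800f820003016500000000000000000000000000000000000000000000000000130000162000670f3a0f3a0222022201380138000c0f3a000000000000000000000000000000000000000000000000000000000000000000000000000000000000000000000000013b0100228000690f5b0f5b0f5b03570246024601450036013b0100228000690f5b0f5b03570f5b024602460145003602050200312000680f820f82036603660f8202800165000302050200312000680f820f820366036602800f820165000300130000162000670f3a0f3a02220222013801380f3a000c000000000000000000000000000000000000000000000000))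 (L (nat_lit 0))) (N (L (nat_lit 0x1240100228001210f5b0f5b001c0f5b0249014c034b044a025c0200312001230f820f82004a01610f82026403620463050605001b6001220f480f480004014202470f4802470142025c0200312001230f820f82004a0463036202640f82016101240100228001210f5b0f5b001c044a034b014c02490f5b00000000000000000000000000000000000000000000000000000000000000000000000000000000000000000000000001240100228001210f5b0f5b0f5b001c044a014c034b024900000000000000000000000000000000000000000000000001240100228001210f5b0f5b044a001c0f5b014c0249034b050605001b6001220f480f480142000401420f4802470247025c0200312001230f820f820463004a016102640f820362025c0200312001230f820f820161004a0463026403620f82000000000000000000000000000000000000000000000000000000000000000000000000000000000000000000000000025c0200312001230f820f820f820161004a02640463036201240100228001210f5b0f5b02490f5b001c014c044a034b000000000000000000000000000000000000000000000000050605001b6001220f480f480247014200040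f480142024701240100228001210f5b0f5b034b044a001c014c0f5b0249025c0200312001230f820f8203620463004a026401610f82000000000000000000000000000000000000000000000000000000000000000000000000000000000000000000000000050705001b6001240f480f480f4801380243001d02430138050705001b6001240f480f4801380f480138001d02430243050705001b6001240f480f48024301380f48001d01380243000000000000000000000000000000000000000000000000050705001b6001240f480f48024302430138001d0f480138050705001b6001240f480f48013802430243001d01380f48000000000000000000000000000000000000000000000000000000000000000000000000000000000000000000000000025c0200312001230f820f820f82036204630264004a0161025c0200312001230f820f8203620f8201610264004a046301240100228001210f5b0f5b034b02490f5b014c001c044a050605001b6001220f480f480247024701420f480004014200000000000000000000000000000000000000000000000001240100228001210f5b0f5b0249034b044a014c001c0f5b00000000000000000000000000000000000000000000000000000000000000000000000000000000000000000000000001240100228001210f5b0f5b0f5b0249034b014c044a001c025c0200312001230f820f8201610f82036202640463004a025c0200312001230f820f82046303620f8202640161004a050605001b6001220f480f480142024702470f480142000401240100228001210f5b0f5b044a034b0249014c0f5b001c000000000000000000000000000000000000000000000000))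 (L (nat_lit 0)))))) (N (N (N (N (L (nat_lit 0x300001620000c0f3a0f3a00020f3a0238023801220122000300001620000c0f3a0f3a000202380f3a023801220122000300001620000c0f3a0f3a0002023802380f3a01220122002100001620000b0f3a0f3a001a0221022102210f3a0137002100001620000b0f3a0f3a001a02210221022101370f3a000000000000000000000000000000000000000000000000000000000000000000000000000000000000000000000000000400001620000a0f3a0f3a0f3a000a013601360136013600000000000000000000000000000000000000000000000002000200312000090f820f82035b00000f82025d015c015c02000200312000090f820f82035b0000025d0f82015c015c01020100228000080f5b0f5b01440006025602560f5b014401020100228000080f5b0f5b014400060256025601440f5b000000000000000000000000000000000000000000000000000000000000000000000000000000000000000000000000000400001620000a0f3a0f3a0f3a0136000a01360136013602000200312000090f820f82035b0f820000025d015c015c00000000000000000000000000000000000000000000000002000200312000090f820f82035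b025d00000f82015c015c01020100228000080f5b0f5b01440256000602560f5b014401020100228000080f5b0f5b014402560006025601440f5b000000000000000000000000000000000000000000000000000000000000000000000000000000000000000000000000000400001620000a0f3a0f3a0f3a01360136000a0136013602000200312000090f820f82035b0f82025d0000015c015c02000200312000090f820f82035b025d0f820000015c015c00000000000000000000000000000000000000000000000001020100228000080f5b0f5b01440256025600060f5b014401020100228000080f5b0f5b014402560256000601440f5b00000000000000000000000000000000000000000000000000000000000000000000000000000000000000000000000000220000162000070f3a0f3a0f3a0136013601360030013601010100228000060f5b0f5b03570f5b024602460001014501010100228000060f5b0f5b035702460f5b02460001014501010100228000060f5b0f5b0357024602460f5b00010145000000000000000000000000000000000000000000000000002b0000162000050f3a0f3a023701210121012100060f3a00000000000000000000000000000000000000000000000000000000000000000000000000000000000000000000000000220000162000070f3a0f3a0f3a0136013601360136003001010100228000060f5b0f5b03570f5b024602460145000101010100228000060f5b0f5b035702460f5b02460145000101010100228000060f5b0f5b0357024602460f5b01450001002b0000162000050f3a0f3a02370121012101210f3a0006000000000000000000000000000000000000000000000000))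 (L (nat_lit 0x23f0200312001680f820f8200320f82016d026f0381046e023f0200312001680f820f820032016d0f820381026f046e053305001b6001690f480f4800300145023d0f48033e043c053305001b6001690f480f480030023d0145033e0f48043c040d04000c00016a0f1f0f1f000e011e011e021b021b0f1f000000000000000000000000000000000000000000000000000000000000000000000000000000000000000000000000023f0200312001680f820f820f820032016d026f046e0381000000000000000000000000000000000000000000000000023f0200312001680f820f82016d00320f820381046e026f053305001b6001690f480f4801450030023d0f48043c033e040d04000c00016a0f1f0f1f011e000e011e021b0f1f021b053305001b6001690f480f48023d00300145033e043c0f48000000000000000000000000000000000000000000000000000000000000000000000000000000000000000000000000023f0200312001680f820f820f82016d0032046e026f0381023f0200312001680f820f82016d0f820032046e0381026f000000000000000000000000000000000000000000000000040d04000c00016a0f1f0f1f011e011e000e0f1f021b021b053305001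b6001690f480f480145023d0030043c0f48033e053305001b6001690f480f48023d01450030043c033e0f48000000000000000000000000000000000000000000000000000000000000000000000000000000000000000000000000053305001b6001690f480f480f48033e043c00300145023d053305001b6001690f480f48033e0f48043c0030023d0145040d04000c00016a0f1f0f1f021b021b0f1f000e011e011e000000000000000000000000000000000000000000000000023f0200312001680f820f82026f0381046e00320f82016d023f0200312001680f820f820381026f046e0032016d0f82000000000000000000000000000000000000000000000000000000000000000000000000000000000000000000000000053305001b6001690f480f480f48043c033e01450030023d040d04000c00016a0f1f0f1f021b0f1f021b011e000e011e053305001b6001690f480f48033e043c0f48023d00300145023f0200312001680f820f82026f046e03810f820032016d000000000000000000000000000000000000000000000000023f0200312001680f820f820381046e026f016d00320f82000000000000000000000000000000000000000000000000000000000000000000000000000000000000000000000000040d04000c00016a0f1f0f1f0f1f021b021b011e011e000e053305001b6001690f480f48043c0f48033e0145023d0030053305001b6001690f480f48043c033e0f48023d01450030023f0200312001680f820f82046e026f03810f82016d0032023f0200312001680f820f82046e0381026f016d0f820032000000000000000000000000000000000000000000000000)))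 (N (L (nat_lit 0x310000162000c10f3a0f3a001f0f3a0122012202380238024c0200312000bf0f820f820040036a0f82016c026b026b024c0200312000bf0f820f820040036a016c0f82026b026b01150100228000c00f5b0f5b000d035a014f014f0f5b024e01150100228000c00f5b0f5b000d035a014f014f024e0f5b00000000000000000000000000000000000000000000000000000000000000000000000000000000000000000000000000310000162000c10f3a0f3a0f3a001f023802380122012200000000000000000000000000000000000000000000000001150100228000c00f5b0f5b035a000d0f5b024e014f014f01150100228000c00f5b0f5b035a000d024e0f5b014f014f024c0200312000bf0f820f82036a0040026b026b0f82016c024c0200312000bf0f820f82036a0040026b026b016c0f82000000000000000000000000000000000000000000000000000000000000000000000000000000000000000000000000024d0200312000bd0f820f820f82035b0056015d025c025c01160100228000be0f5b0f5b03570f5b0029014502460246000000000000000000000000000000000000000000000000030f0300168000bb0f3b0f3b02270326000a0f3b012801280509050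01b6000bc0f480f480339043a000701440f48023b050905001b6000bc0f480f480339043a00070144023b0f48000000000000000000000000000000000000000000000000000000000000000000000000000000000000000000000000024d0200312000bd0f820f820f82035b015d0056025c025c01160100228000be0f5b0f5b03570f5b0145002902460246030f0300168000bb0f3b0f3b022703260f3b000a01280128000000000000000000000000000000000000000000000000050905001b6000bc0f480f480339043a014400070f48023b050905001b6000bc0f480f480339043a01440007023b0f4800000000000000000000000000000000000000000000000000000000000000000000000000000000000000000000000001160100228000be0f5b0f5b0f5b03570246024600290145024d0200312000bd0f820f82035b0f82025c025c0056015d050905001b6000bc0f480f48043a03390f48023b00070144050905001b6000bc0f480f48043a0339023b0f4800070144000000000000000000000000000000000000000000000000030f0300168000bb0f3b0f3b0326022701280128000a0f3b00000000000000000000000000000000000000000000000000000000000000000000000000000000000000000000000001160100228000be0f5b0f5b0f5b03570246024601450029024d0200312000bd0f820f82035b0f82025c025c015d0056050905001b6000bc0f480f48043a03390f48023b01440007050905001b6000bc0f480f48043a0339023b0f4801440007030f0300168000bb0f3b0f3b03260227012801280f3b000a000000000000000000000000000000000000000000000000))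 (L (nat_lit 0)))) (N (N (L (nat_lit 0xf0000162000580f3a0f3a00260f3a012301230123023901380100228000590f5b0f5b0033014d0f5b02590259014d01380100228000590f5b0f5b0033014d02590f5b0259014d01380100228000590f5b0f5b0033014d025902590f5b014d000f0000162000580f3a0f3a002602390123012301230f3a00000000000000000000000000000000000000000000000000000000000000000000000000000000000000000000000000100000162000540f3a0f3a0f3a0014012101210121023700000000000000000000000000000000000000000000000002140200312000520f820f820367000b0f8201680168026902140200312000520f820f820367000b01680f820168026902140200312000520f820f820367000b016801680f820269031c0300168000530f3b0f3b022300320124012401240f3b00000000000000000000000000000000000000000000000000000000000000000000000000000000000000000000000001490100228000570f5b0f5b0f5b0144005402560256014402150200312000550f820f82035e0f820020015f015f0260000000000000000000000000000000000000000000000000040404000c0000560f1f0f1f0319011d000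40f1f021a011d040404000c0000560f1f0f1f0319011d0004021a0f1f011d02150200312000550f820f82035e02600020015f015f0f8200000000000000000000000000000000000000000000000000000000000000000000000000000000000000000000000001490100228000570f5b0f5b0f5b0144025600540256014402150200312000550f820f82035e0f82015f0020015f0260040404000c0000560f1f0f1f0319011d0f1f0004021a011d000000000000000000000000000000000000000000000000040404000c0000560f1f0f1f0319011d021a00040f1f011d02150200312000550f820f82035e0260015f0020015f0f8200000000000000000000000000000000000000000000000000000000000000000000000000000000000000000000000001490100228000570f5b0f5b0f5b0144025602560054014402150200312000550f820f82035e0f82015f015f00200260040404000c0000560f1f0f1f0319011d0f1f021a0004011d040404000c0000560f1f0f1f0319011d021a0f1f0004011d00000000000000000000000000000000000000000000000002150200312000550f820f82035e0260015f015f00200f8200000000000000000000000000000000000000000000000000000000000000000000000000000000000000000000000000100000162000540f3a0f3a0f3a02370121012101210014031c0300168000530f3b0f3b02230f3b012401240124003202140200312000520f820f82036702690f8201680168000b02140200312000520f820f820367026901680f820168000b02140200312000520f820f8203670269016801680f82000b000000000000000000000000000000000000000000000000))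 (L (nat_lit 0))) (N (L (nat_lit 0x1270100228001030f5b0f5b001f0f5b014d02590259014d02250200312001040f820f820015016d0f82026f0381046e052405001b6001050f480f480024013d02450f48033e043c025d0200312001060f820f82004b0168016802690f82036701260100228001070f5b0f5b0050014a024c034b04490f5b00000000000000000000000000000000000000000000000000000000000000000000000000000000000000000000000001280100228001080f5b0f5b0f5b0025014a024c034b044900000000000000000000000000000000000000000000000002350200312001090f820f82016d00250f82026e0381046f040904000c00010a0f1f0f1f011e0008011e0f1f021b021b041304000c00010b0f1f0f1f011d0013021a011d0f1f0319025e02003120010c0f820f82016100540264036304620f82000000000000000000000000000000000000000000000000000000000000000000000000000000000000000000000000022602003120010d0f820f820f820161002f026403630462023602003120010e0f820f8201670f820030026802680369000000000000000000000000000000000000000000000000051705001b60010f0f480f480145023d00120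f48033c043e040a04000c0001100f1f0f1f011d021a000c011d0f1f0319052505001b6001110f480f4801380243002d024301380f48000000000000000000000000000000000000000000000000000000000000000000000000000000000000000000000000052505001b6001110f480f480f4801380243002d02430138040a04000c0001100f1f0f1f03190f1f011d000c021a011d051705001b60010f0f480f48043e033c0f480012023d0145000000000000000000000000000000000000000000000000023602003120010e0f820f8203690268026800300f820167022602003120010d0f820f82046203630264002f01610f82000000000000000000000000000000000000000000000000000000000000000000000000000000000000000000000000025e02003120010c0f820f820f8204620363026400540161041304000c00010b0f1f0f1f03190f1f011d021a0013011d040904000c00010a0f1f0f1f021b021b0f1f011e0008011e02350200312001090f820f82046f0381026e0f820025016d00000000000000000000000000000000000000000000000001280100228001080f5b0f5b0449034b024c014a00250f5b00000000000000000000000000000000000000000000000000000000000000000000000000000000000000000000000001260100228001070f5b0f5b0f5b0449034b024c014a0050025d0200312001060f820f8203670f82026901680168004b052405001b6001050f480f48043c033e0f480245013d002402250200312001040f820f82046e0381026f0f82016d001501270100228001030f5b0f5b014d02590259014d0f5b001f000000000000000000000000000000000000000000000000))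 (L (nat_lit 0))))) (N (N (N (L (nat_lit 0x900001620001f0f3a0f3a00070f3a012101210237012101030100228000200f5b0f5b000201580f5b02480347015801030100228000200f5b0f5b0002015802480f5b0347015801320100228000210f5b0f5b002f0144025602560f5b0144000900001620001f0f3a0f3a000701210121012102370f3a000000000000000000000000000000000000000000000000000000000000000000000000000000000000000000000000000900001620001f0f3a0f3a0f3a0007012101210121023700000000000000000000000000000000000000000000000001030100228000200f5b0f5b015800020f5b02480158034701030100228000200f5b0f5b0158000202480f5b01580347000900001620001f0f3a0f3a01210007012101210f3a023701320100228000210f5b0f5b0144002f0256025601440f5b00000000000000000000000000000000000000000000000000000000000000000000000000000000000000000000000001040100228000220f5b0f5b0f5b0144000f02560256014401040100228000220f5b0f5b01440f5b000f025601440256000000000000000000000000000000000000000000000000040004000c0000230f1f0f1f011c011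c00000f1f011c011c01040100228000220f5b0f5b02560144000f02560f5b014401040100228000220f5b0f5b01440256000f025601440f5b00000000000000000000000000000000000000000000000000000000000000000000000000000000000000000000000001040100228000220f5b0f5b0f5b01440256000f0256014401040100228000220f5b0f5b01440f5b0256000f01440256040004000c0000230f1f0f1f011c011c0f1f0000011c011c00000000000000000000000000000000000000000000000001040100228000220f5b0f5b025601440256000f0f5b014401040100228000220f5b0f5b014402560256000f01440f5b00000000000000000000000000000000000000000000000000000000000000000000000000000000000000000000000001320100228000210f5b0f5b0f5b014402560256002f0144000900001620001f0f3a0f3a02370f3a012101210007012101030100228000200f5b0f5b034701580f5b02480002015801030100228000200f5b0f5b0347015802480f5b00020158000000000000000000000000000000000000000000000000000900001620001f0f3a0f3a023701210121012100070f3a000000000000000000000000000000000000000000000000000000000000000000000000000000000000000000000000000900001620001f0f3a0f3a0f3a0237012101210121000701320100228000210f5b0f5b01440f5b025602560144002f01030100228000200f5b0f5b015803470f5b02480158000201030100228000200f5b0f5b0158034702480f5b01580002000900001620001f0f3a0f3a01210237012101210f3a0007000000000000000000000000000000000000000000000000))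 (L (nat_lit 0))) (N (L (nat_lit 0x1f0000162000e50f3a0f3a002e0f3a012401240124012403280300168000e40f3b0f3b001d022c0f3b013a013a013a03280300168000e40f3b0f3b001d022c013a0f3b013a013a03280300168000e40f3b0f3b001d022c013a013a0f3b013a03280300168000e40f3b0f3b001d022c013a013a013a0f3b000000000000000000000000000000000000000000000000000000000000000000000000000000000000000000000000001f0000162000e50f3a0f3a0f3a002e012401240124012400000000000000000000000000000000000000000000000003280300168000e40f3b0f3b022c001d0f3b013a013a013a03280300168000e40f3b0f3b022c001d013a0f3b013a013a03280300168000e40f3b0f3b022c001d013a013a0f3b013a03280300168000e40f3b0f3b022c001d013a013a013a0f3b00000000000000000000000000000000000000000000000000000000000000000000000000000000000000000000000003290300168000e30f3b0f3b0f3b0225003801390139013903290300168000e30f3b0f3b02250f3b0038013901390139000000000000000000000000000000000000000000000000060c06000ba000e20f1e0f1e0216021600090f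1e011d011d060c06000ba000e20f1e0f1e021602160009011d0f1e011d060c06000ba000e20f1e0f1e021602160009011d011d0f1e00000000000000000000000000000000000000000000000000000000000000000000000000000000000000000000000003290300168000e30f3b0f3b0f3b0225013900380139013903290300168000e30f3b0f3b02250f3b0139003801390139060c06000ba000e20f1e0f1e021602160f1e0009011d011d000000000000000000000000000000000000000000000000060c06000ba000e20f1e0f1e02160216011d00090f1e011d060c06000ba000e20f1e0f1e02160216011d0009011d0f1e00000000000000000000000000000000000000000000000000000000000000000000000000000000000000000000000003290300168000e30f3b0f3b0f3b0225013901390038013903290300168000e30f3b0f3b02250f3b0139013900380139060c06000ba000e20f1e0f1e021602160f1e011d0009011d060c06000ba000e20f1e0f1e02160216011d0f1e0009011d000000000000000000000000000000000000000000000000060c06000ba000e20f1e0f1e02160216011d011d00090f1e00000000000000000000000000000000000000000000000000000000000000000000000000000000000000000000000003290300168000e30f3b0f3b0f3b0225013901390139003803290300168000e30f3b0f3b02250f3b0139013901390038060c06000ba000e20f1e0f1e021602160f1e011d011d0009060c06000ba000e20f1e0f1e02160216011d0f1e011d0009060c06000ba000e20f1e0f1e02160216011d011d0f1e0009000000000000000000000000000000000000000000000000))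 (L (nat_lit 0)))) (N (N (L (nat_lit 0x140000162000900f3a0f3a000d0f3a0239012301230123020d02003120008f0f820f82000703700f82027201710171024802003120008e0f820f82003e036502800f8201660166013e01002280008d0f5b0f5b0038044a034c024b0f5b0149013e01002280008d0f5b0f5b0038044a034c024b01490f5b000000000000000000000000000000000000000000000000000000000000000000000000000000000000000000000000001500001620008c0f3a0f3a0f3a00120238023801220122000000000000000000000000000000000000000000000000030503001680008b0f3b0f3b032900030f3b022b012a012a021202003120008a0f820f820365000a02800f820166016602520200312000890f820f8204610044036402630f82016202520200312000890f820f82046100440364026301620f82000000000000000000000000000000000000000000000000000000000000000000000000000000000000000000000000020e0200312000880f820f820f82035b0033025d015c015c03060300168000870f3b0f3b02230f3b002f012401240124000000000000000000000000000000000000000000000000060206000ba000860f1e0f1e011c011c00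030f1e011c011c050505001b6000850f480f4801380243001502430f480138050505001b6000850f480f48013802430015024301380f4800000000000000000000000000000000000000000000000000000000000000000000000000000000000000000000000002490200312000840f820f820f82035b025d004e015c015c02130200312000830f820f82035e0f8202600018015f015f060106000ba000820f1e0f1e031302140f1e000101150115000000000000000000000000000000000000000000000000021e0200312000810f820f8204620363026400190f820161021e0200312000810f820f82046203630264001901610f82000000000000000000000000000000000000000000000000000000000000000000000000000000000000000000000000013f0100228000800f5b0f5b0f5b035702460246003f0145025302003120007f0f820f82035e0f820260015f007c015f050405001b60007e0f480f48043f03410f48024600030140021d02003120007d0f820f820366036602800f8200120165000000000000000000000000000000000000000000000000012301002280007c0f5b0f5b0449034b024c014a001b0f5b000000000000000000000000000000000000000000000000000000000000000000000000000000000000000000000000013f0100228000800f5b0f5b0f5b0357024602460145003f025302003120007f0f820f82035e0f820260015f015f007c050405001b60007e0f480f48043f03410f48024601400003021d02003120007d0f820f820366036602800f8201650012012301002280007c0f5b0f5b0449034b024c014a0f5b001b000000000000000000000000000000000000000000000000))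 (L (nat_lit 0))) (N (L (nat_lit 0x12d0100228001380f5b0f5b00260f5b014d02590259014d022b0200312001370f820f82002201650f82036603660280041404000c0001390f1f0f1f0014021a011d0f1f0319011d041404000c0001390f1f0f1f0014021a011d03190f1f011d022b0200312001370f820f82002201650280036603660f82000000000000000000000000000000000000000000000000000000000000000000000000000000000000000000000000012d0100228001380f5b0f5b0f5b0026014d02590259014d000000000000000000000000000000000000000000000000022b0200312001370f820f82016500220f82036603660280041404000c0001390f1f0f1f021a0014011d0f1f0319011d041404000c0001390f1f0f1f021a0014011d03190f1f011d022b0200312001370f820f82016500220280036603660f82000000000000000000000000000000000000000000000000000000000000000000000000000000000000000000000000022a0200312001350f820f820f820167001b036803680269022a0200312001350f820f8201670f82001b036803680269000000000000000000000000000000000000000000000000022a0200312001350f820f8203680368001b0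f8201670269022a0200312001350f820f8203680368001b01670f820269061506000ba001360f1e0f1e011c011c000c011c011c0f1e000000000000000000000000000000000000000000000000000000000000000000000000000000000000000000000000041404000c0001390f1f0f1f0f1f0319011d0014021a011d041404000c0001390f1f0f1f03190f1f011d0014021a011d022b0200312001370f820f82036603660f82002201650280000000000000000000000000000000000000000000000000012d0100228001380f5b0f5b02590259014d00260f5b014d022b0200312001370f820f82036603660280002201650f82000000000000000000000000000000000000000000000000000000000000000000000000000000000000000000000000041404000c0001390f1f0f1f0f1f0319011d021a0014011d041404000c0001390f1f0f1f03190f1f011d021a0014011d022b0200312001370f820f82036603660f82016500220280012d0100228001380f5b0f5b02590259014d0f5b0026014d000000000000000000000000000000000000000000000000022b0200312001370f820f82036603660280016500220f82000000000000000000000000000000000000000000000000000000000000000000000000000000000000000000000000022a0200312001350f820f820f820167026903680368001b022a0200312001350f820f8201670f82026903680368001b061506000ba001360f1e0f1e011c011c0f1e011c011c000c022a0200312001350f820f820368036802690f820167001b022a0200312001350f820f8203680368026901670f82001b000000000000000000000000000000000000000000000000))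 (L (nat_lit 0)))))))) Tr.N Tr.L
noncomputable def tTE_1 : Tr := (fun (N : Tr → Tr → Tr) (L : ℕ → Tr) => (N (N (N (N (N (L (nat_lit 0x10000162000010f3a0f3a00010f3a012101210121023700010000162000010f3a0f3a000101210f3a01210121023700010000162000010f3a0f3a0001012101210f3a0121023700010000162000010f3a0f3a00010121012101210f3a023700200000162000020f3a0f3a001901360136013601360f3a00000000000000000000000000000000000000000000000000000000000000000000000000000000000000000000000000020000162000030f3a0f3a0f3a0005013601360136013600000000000000000000000000000000000000000000000001000100228000040f5b0f5b014400000f5b02560256014401000100228000040f5b0f5b0144000002560f5b0256014401000100228000040f5b0f5b01440000025602560f5b014400020000162000030f3a0f3a013600050136013601360f3a00000000000000000000000000000000000000000000000000000000000000000000000000000000000000000000000000020000162000030f3a0f3a0f3a0136000501360136013601000100228000040f5b0f5b01440f5b0000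02560256014400000000000000000000000000000000000000000000000001000100228000040f5b0f5b0144025600000f5b0256014401000100228000040f5b0f5b01440256000002560f5b014400020000162000030f3a0f3a013601360005013601360f3a00000000000000000000000000000000000000000000000000000000000000000000000000000000000000000000000000020000162000030f3a0f3a0f3a0136013600050136013601000100228000040f5b0f5b01440f5b025600000256014401000100228000040f5b0f5b014402560f5b00000256014400000000000000000000000000000000000000000000000001000100228000040f5b0f5b01440256025600000f5b014400020000162000030f3a0f3a013601360136000501360f3a00000000000000000000000000000000000000000000000000000000000000000000000000000000000000000000000000020000162000030f3a0f3a0f3a0136013601360005013601000100228000040f5b0f5b01440f5b025602560000014401000100228000040f5b0f5b014402560f5b02560000014401000100228000040f5b0f5b0144025602560f5b0000014400000000000000000000000000000000000000000000000000020000162000030f3a0f3a013601360136013600050f3a00000000000000000000000000000000000000000000000000000000000000000000000000000000000000000000000000200000162000020f3a0f3a0f3a0136013601360136001900010000162000010f3a0f3a02370f3a012101210121000100010000162000010f3a0f3a023701210f3a01210121000100010000162000010f3a0f3a0237012101210f3a0121000100010000162000010f3a0f3a02370121012101210f3a0001000000000000000000000000000000000000000000000000))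 (L (nat_lit 0x1310100228001670f5b0f5b00520f5b015a024f024f034e032a0300168001640f3b0f3b002003290f3b012a012a022b053105001b6001650f480f48002c024201470f4801470242053105001b6001650f480f48002c0242014701470f480242023c0200312001660f820f82002b03700172027102710f8200000000000000000000000000000000000000000000000000000000000000000000000000000000000000000000000001310100228001670f5b0f5b0f5b0052034e024f024f015a000000000000000000000000000000000000000000000000023c0200312001660f820f820370002b0f82027102710172053105001b6001650f480f480242002c02420f4801470147053105001b6001650f480f480242002c024201470f480147032a0300168001640f3b0f3b03290020022b012a012a0f3b000000000000000000000000000000000000000000000000000000000000000000000000000000000000000000000000032b03001680015f0f3b0f3b0f3b03260022012801280227023d0200312001600f820f82036a0f820038016b016b026c000000000000000000000000000000000000000000000000051e05001b60015d0f480f4802470142001c0f4801420247051e05001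b60015d0f480f4802470142001c01420f480247061206000ba0015e0f1e0f1e02130314000f011501150f1e000000000000000000000000000000000000000000000000000000000000000000000000000000000000000000000000053205001b6001630f480f480f480439013b00370244033a053205001b6001630f480f4804390f48033a00370244013b051f05001b6001610f480f480341043f0f48002001400246000000000000000000000000000000000000000000000000052005001b6001620f480f4802470247014200210f480142051f05001b6001610f480f48043f03410246002001400f48000000000000000000000000000000000000000000000000000000000000000000000000000000000000000000000000053205001b6001630f480f480f480439013b02440037033a053205001b6001630f480f4804390f48033a02440037013b051f05001b6001610f480f480341043f0f48014000200246052005001b6001620f480f480247024701420f4800210142000000000000000000000000000000000000000000000000051f05001b6001610f480f48043f03410246014000200f48000000000000000000000000000000000000000000000000000000000000000000000000000000000000000000000000023d0200312001600f820f820f82036a026c016b016b0038032b03001680015f0f3b0f3b03260f3b0227012801280022061206000ba0015e0f1e0f1e031402130f1e01150115000f051e05001b60015d0f480f480142024702470f480142001c051e05001b60015d0f480f4801420247024701420f48001c000000000000000000000000000000000000000000000000)))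 (N (L (nat_lit 0x190000162000ba0f3a0f3a00100f3a012401240124012402500200312000b90f820f82004203700f8202720171017102500200312000b90f820f820042037002720f820171017101420100228000b80f5b0f5b003a034e024f024f0f5b015a01420100228000b80f5b0f5b003a034e024f024f015a0f5b000000000000000000000000000000000000000000000000000000000000000000000000000000000000000000000000001a0000162000b70f3a0f3a0f3a00180238023801220122000000000000000000000000000000000000000000000000030b0300168000b60f3b0f3b032900060f3b022b012a012a030b0300168000b60f3b0f3b03290006022b0f3b012a012a03240300168000b50f3b0f3b0326001c022802280f3b012703240300168000b50f3b0f3b0326001c0228022801270f3b00000000000000000000000000000000000000000000000000000000000000000000000000000000000000000000000002510200312000b40f820f820f82035b0059025d015c015c030c0300168000b30f3b0f3b02250f3b000f013901390139000000000000000000000000000000000000000000000000060506000ba000b20f1e0f1e0313021400170f1e01150115050d050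01b6000b10f480f480439033b001602440f48013a050d05001b6000b10f480f480439033b00160244013a0f4800000000000000000000000000000000000000000000000000000000000000000000000000000000000000000000000002510200312000b40f820f820f82035b025d0059015c015c030c0300168000b30f3b0f3b02250f3b0139000f01390139060506000ba000b20f1e0f1e031302140f1e001701150115000000000000000000000000000000000000000000000000050d05001b6000b10f480f480439033b024400160f48013a050d05001b6000b10f480f480439033b02440016013a0f4800000000000000000000000000000000000000000000000000000000000000000000000000000000000000000000000001430100228000b00f5b0f5b0f5b0357024602460043014503250300168000af0f3b0f3b02250f3b01390139001f0139050c05001b6000ae0f480f48043f03410f48024600090140050c05001b6000ae0f480f48043f034102460f480009014000000000000000000000000000000000000000000000000002390200312000ad0f820f82036a026c016b016b00780f8200000000000000000000000000000000000000000000000000000000000000000000000000000000000000000000000001430100228000b00f5b0f5b0f5b0357024602460145004303250300168000af0f3b0f3b02250f3b013901390139001f050c05001b6000ae0f480f48043f03410f48024601400009050c05001b6000ae0f480f48043f034102460f480140000902390200312000ad0f820f82036a026c016b016b0f820078000000000000000000000000000000000000000000000000))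 (L (nat_lit 0)))) (N (N (L (nat_lit 0xe0000162000510f3a0f3a00250f3a023901230123012301090100228000500f5b0f5b0005034e0f5b024f024f015a013601002280004f0f5b0f5b0032044a034c0f5b024b0149013601002280004f0f5b0f5b0032044a034c024b0f5b0149003000001620004e0f3a0f3a003202380238012201220f3a000000000000000000000000000000000000000000000000000000000000000000000000000000000000000000000000002c00001620004d0f3a0f3a0f3a002a0221022102210137000000000000000000000000000000000000000000000000030303001680004c0f3b0f3b032600020f3b022802280127021002003120004b0f820f820461000903640f8202630162021002003120004b0f820f8204610009036402630f820162024502003120004a0f820f82035b0043025d015c015c0f82000000000000000000000000000000000000000000000000000000000000000000000000000000000000000000000000010a0100228000490f5b0f5b0f5b0144002802560256014403040300168000480f3b0f3b02230f3b0008012401240124000000000000000000000000000000000000000000000000050105001b6000470f480f4801380243000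50f4802430138050105001b6000470f480f4801380243000502430f480138020a0200312000460f820f82035b025d0027015c015c0f8200000000000000000000000000000000000000000000000000000000000000000000000000000000000000000000000001370100228000450f5b0f5b0f5b01440256003e0256014402110200312000440f820f82035e0f820260000f015f015f050005001b6000430f480f480439033b0f4800010244013a000000000000000000000000000000000000000000000000021b0200312000420f820f8204620363026400100f82016101100100228000410f5b0f5b035702460246001801450f5b00000000000000000000000000000000000000000000000000000000000000000000000000000000000000000000000001370100228000450f5b0f5b0f5b014402560256003e014402110200312000440f820f82035e0f820260015f000f015f050005001b6000430f480f480439033b0f4802440001013a021b0200312000420f820f820462036302640f820010016100000000000000000000000000000000000000000000000001100100228000410f5b0f5b035702460246014500180f5b00000000000000000000000000000000000000000000000000000000000000000000000000000000000000000000000000280000162000400f3a0f3a0f3a02370121012101210033024402003120003f0f820f82035e0f820260015f015f003c020902003120003e0f820f82036a026c0f82016b016b0005010f01002280003d0f5b0f5b0449034b024c0f5b014a000a010f01002280003d0f5b0f5b0449034b024c014a0f5b000a000000000000000000000000000000000000000000000000))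 (L (nat_lit 0))) (N (L (nat_lit 0x1210100228001020f5b0f5b00160f5b034e014f014f025a01210100228001020f5b0f5b0016034e0f5b014f025a014f041104000c0001010f1f0f1f0011021e021e0f1f011b011b01450100228001000f5b0f5b003d034c044a024b0f5b014901450100228001000f5b0f5b003d044a034c024b01490f5b00000000000000000000000000000000000000000000000000000000000000000000000000000000000000000000000001220100228000ff0f5b0f5b0f5b002b025803480147025800000000000000000000000000000000000000000000000003100300168000fe0f3b0f3b0326000b0f3b022801270228050e05001b6000fd0f480f48043d000a03450f48013e023c052305001b6000fb0f480f4801380027024302430f48013802220200312000fc0f820f82046100760364026301620f8200000000000000000000000000000000000000000000000000000000000000000000000000000000000000000000000001220100228000ff0f5b0f5b0f5b0258002b03480258014703100300168000fe0f3b0f3b03260f3b000b022802280127000000000000000000000000000000000000000000000000050e05001b6000fd0f480f48043d0345000a0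f48023c013e02220200312000fc0f820f8204610364007602630f820162052305001b6000fb0f480f48013802430027024301380f48000000000000000000000000000000000000000000000000000000000000000000000000000000000000000000000000041204000c0000fa0f1f0f1f0f1f011c011c0016011c011c050f05001b6000f90f480f4804390f48033b000f0144023a050f05001b6000f90f480f480439033b0f48000f023a014400000000000000000000000000000000000000000000000002240200312000f80f820f82046202640363002e0f82016102240200312000f80f820f82046203630264002e01610f8200000000000000000000000000000000000000000000000000000000000000000000000000000000000000000000000001460100228000f70f5b0f5b0f5b03470158024800400158052205001b6000f50f480f4804390f48033b02440023013a02210200312000f60f820f82036a026c0f82016b0013016b02230200312000f40f820f820481026f036e0f820014016d00000000000000000000000000000000000000000000000001250100228000f30f5b0f5b0449024b034c014a001e0f5b00000000000000000000000000000000000000000000000000000000000000000000000000000000000000000000000001460100228000f70f5b0f5b0f5b0158034702480158004002210200312000f60f820f82036a0f82026c016b016b0013052205001b6000f50f480f480439033b0f480244013a002302230200312000f40f820f820481036e026f0f82016d001401250100228000f30f5b0f5b0449034c024b014a0f5b001e000000000000000000000000000000000000000000000000))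 (L (nat_lit 0))))) (N (N (N (L (nat_lit 0x2f00001620001e0f3a0f3a002f0f3a0124012401240124002f00001620001e0f3a0f3a002f01240f3a012401240124002f00001620001e0f3a0f3a002f012401240f3a01240124002f00001620001e0f3a0f3a002f0124012401240f3a0124002f00001620001e0f3a0f3a002f01240124012401240f3a000000000000000000000000000000000000000000000000000000000000000000000000000000000000000000000000002600001620001d0f3a0f3a0f3a00350136013601360136000000000000000000000000000000000000000000000000032c03001680001c0f3b0f3b022500050f3b013901390139032c03001680001c0f3b0f3b0225000501390f3b01390139032c03001680001c0f3b0f3b02250005013901390f3b0139032c03001680001c0f3b0f3b022500050139013901390f3b000000000000000000000000000000000000000000000000000000000000000000000000000000000000000000000000002600001620001d0f3a0f3a0f3a01360035013601360136032c03001680001c0f3b0f3b02250f3b0005013901390139000000000000000000000000000000000000000000000000032c03001680001c0f3b0f3b022501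3900050f3b01390139032c03001680001c0f3b0f3b02250139000501390f3b0139032c03001680001c0f3b0f3b022501390005013901390f3b000000000000000000000000000000000000000000000000000000000000000000000000000000000000000000000000002600001620001d0f3a0f3a0f3a01360136003501360136032c03001680001c0f3b0f3b02250f3b0139000501390139032c03001680001c0f3b0f3b022501390f3b000501390139000000000000000000000000000000000000000000000000032c03001680001c0f3b0f3b02250139013900050f3b0139032c03001680001c0f3b0f3b022501390139000501390f3b000000000000000000000000000000000000000000000000000000000000000000000000000000000000000000000000002600001620001d0f3a0f3a0f3a01360136013600350136032c03001680001c0f3b0f3b02250f3b0139013900050139032c03001680001c0f3b0f3b022501390f3b013900050139032c03001680001c0f3b0f3b0225013901390f3b00050139000000000000000000000000000000000000000000000000032c03001680001c0f3b0f3b022501390139013900050f3b000000000000000000000000000000000000000000000000000000000000000000000000000000000000000000000000002600001620001d0f3a0f3a0f3a01360136013601360035032c03001680001c0f3b0f3b02250f3b0139013901390005032c03001680001c0f3b0f3b022501390f3b013901390005032c03001680001c0f3b0f3b0225013901390f3b01390005032c03001680001c0f3b0f3b02250139013901390f3b0005000000000000000000000000000000000000000000000000))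 (L (nat_lit 0x31b03001680017a0f3b0f3b00310f3b012c023a023a023a031b03001680017a0f3b0f3b0031012c0f3b023a023a023a061406000ba0017b0f1e0f1e0012011d011d0f1e02160216061406000ba0017b0f1e0f1e0012011d011d02160f1e0216061406000ba0017b0f1e0f1e0012011d011d021602160f1e000000000000000000000000000000000000000000000000000000000000000000000000000000000000000000000000031b03001680017a0f3b0f3b0f3b0031012c023a023a023a000000000000000000000000000000000000000000000000031b03001680017a0f3b0f3b012c00310f3b023a023a023a061406000ba0017b0f1e0f1e011d0012011d0f1e02160216061406000ba0017b0f1e0f1e011d0012011d02160f1e0216061406000ba0017b0f1e0f1e011d0012011d021602160f1e000000000000000000000000000000000000000000000000000000000000000000000000000000000000000000000000031b03001680017a0f3b0f3b0f3b012c0031023a023a023a031b03001680017a0f3b0f3b012c0f3b0031023a023a023a000000000000000000000000000000000000000000000000061406000ba0017b0f1e0f1e011d011d00120f1e02160216061406000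ba0017b0f1e0f1e011d011d001202160f1e0216061406000ba0017b0f1e0f1e011d011d0012021602160f1e000000000000000000000000000000000000000000000000000000000000000000000000000000000000000000000000061406000ba0017b0f1e0f1e0f1e021602160012011d011d061406000ba0017b0f1e0f1e02160f1e02160012011d011d061406000ba0017b0f1e0f1e021602160f1e0012011d011d000000000000000000000000000000000000000000000000031b03001680017a0f3b0f3b023a023a023a00310f3b012c031b03001680017a0f3b0f3b023a023a023a0031012c0f3b000000000000000000000000000000000000000000000000000000000000000000000000000000000000000000000000061406000ba0017b0f1e0f1e0f1e02160216011d0012011d061406000ba0017b0f1e0f1e02160f1e0216011d0012011d061406000ba0017b0f1e0f1e021602160f1e011d0012011d031b03001680017a0f3b0f3b023a023a023a0f3b0031012c000000000000000000000000000000000000000000000000031b03001680017a0f3b0f3b023a023a023a012c00310f3b000000000000000000000000000000000000000000000000000000000000000000000000000000000000000000000000061406000ba0017b0f1e0f1e0f1e02160216011d011d0012061406000ba0017b0f1e0f1e02160f1e0216011d011d0012061406000ba0017b0f1e0f1e021602160f1e011d011d0012031b03001680017a0f3b0f3b023a023a023a0f3b012c0031031b03001680017a0f3b0f3b023a023a023a012c0f3b0031000000000000000000000000000000000000000000000000)))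 (N (L (nat_lit 0x1d0000162000e10f3a0f3a002c0f3a012401240124012403220300168000e00f3b0f3b001b022c0f3b013a013a013a025a0200312000df0f820f820048037002720f8201710171025a0200312000df0f820f8200480370027201710f820171025a0200312000df0f820f82004803700272017101710f82000000000000000000000000000000000000000000000000000000000000000000000000000000000000000000000000001e0000162000de0f3a0f3a0f3a002d0239012301230123000000000000000000000000000000000000000000000000030d0300168000dd0f3b0f3b022c00070f3b013a013a013a03260300168000dc0f3b0f3b03290034022b0f3b012a012a03260300168000dc0f3b0f3b03290034022b012a0f3b012a03260300168000dc0f3b0f3b03290034022b012a012a0f3b00000000000000000000000000000000000000000000000000000000000000000000000000000000000000000000000003230300168000db0f3b0f3b0f3b02230037012401240124030e0300168000da0f3b0f3b02250f3b0016013901390139000000000000000000000000000000000000000000000000060806000ba000d90f1e0f1e0313021400080f1e011501150608060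00ba000d90f1e0f1e03130214000801150f1e0115060806000ba000d90f1e0f1e031302140008011501150f1e000000000000000000000000000000000000000000000000000000000000000000000000000000000000000000000000025b0200312000d80f820f820f82035e0260005a015f015f03270300168000d70f3b0f3b02250f3b0139003601390139060706000ba000d60f1e0f1e021602160f1e0018011d011d000000000000000000000000000000000000000000000000051c05001b6000d50f480f48043f0341024600190f480140051c05001b6000d50f480f48043f03410246001901400f48000000000000000000000000000000000000000000000000000000000000000000000000000000000000000000000000025b0200312000d80f820f820f82035e0260015f005a015f03270300168000d70f3b0f3b02250f3b0139013900360139060706000ba000d60f1e0f1e021602160f1e011d0018011d051c05001b6000d50f480f48043f034102460f4800190140000000000000000000000000000000000000000000000000051c05001b6000d50f480f48043f03410246014000190f48000000000000000000000000000000000000000000000000000000000000000000000000000000000000000000000000025b0200312000d80f820f820f82035e0260015f015f005a03270300168000d70f3b0f3b02250f3b0139013901390036060706000ba000d60f1e0f1e021602160f1e011d011d0018051c05001b6000d50f480f48043f034102460f4801400019051c05001b6000d50f480f48043f0341024601400f480019000000000000000000000000000000000000000000000000))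 (L (nat_lit 0)))) (N (N (L (nat_lit 0x2d00001620007b0f3a0f3a00290f3a0238012202380122020b02003120007a0f820f820006046d0f82026f036e018102460200312000780f820f82003d046103640f820263016201110100228000790f5b0f5b000b044a034c024b0f5b0149013c0100228000770f5b0f5b003702580348014702580f5b000000000000000000000000000000000000000000000000000000000000000000000000000000000000000000000000002d00001620007b0f3a0f3a0f3a00290238023801220122000000000000000000000000000000000000000000000000020b02003120007a0f820f82046d00060f82036e026f018101110100228000790f5b0f5b044a000b034c0f5b024b014902460200312000780f820f820461003d036402630f820162013c0100228000770f5b0f5b025800370348025801470f5b000000000000000000000000000000000000000000000000000000000000000000000000000000000000000000000000020c0200312000760f820f820f82035b002c025d015c015c020c0200312000760f820f82035b0f82002c015c025d015c000000000000000000000000000000000000000000000000050305001b6000750f480f480243013800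0d0f4802430138050305001b6000750f480f4801380243000d02430f480138040304000c0000740f1f0f1f011c011c0009011c011c0f1f00000000000000000000000000000000000000000000000000000000000000000000000000000000000000000000000002470200312000720f820f820f82035b025d0049015c015c01120100228000730f5b0f5b03570f5b0246001902460145050205001b6000710f480f48033e043c0f4800020245013d000000000000000000000000000000000000000000000000021c0200312000700f820f8203620463026400110f820161011b01002280006f0f5b0f5b034701580248001a01580f5b00000000000000000000000000000000000000000000000000000000000000000000000000000000000000000000000001120100228000730f5b0f5b0f5b0357024602460019014502470200312000720f820f82035b0f82025d015c0049015c050205001b6000710f480f48043c033e0f4802450002013d021c0200312000700f820f820463036202640f8200110161000000000000000000000000000000000000000000000000011b01002280006f0f5b0f5b0158034702480158001a0f5b000000000000000000000000000000000000000000000000000000000000000000000000000000000000000000000000013d01002280006e0f5b0f5b0f5b03570146014602450053013d01002280006e0f5b0f5b03570f5b0146024501460053040204000c00006d0f1f0f1f021b021b0f1f011e011e0002011a01002280006c0f5b0f5b034b0449024c0f5b014a0012011a01002280006c0f5b0f5b0449034b024c014a0f5b0012000000000000000000000000000000000000000000000000))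 (L (nat_lit 0))) (N (L (nat_lit 0x12b0100228001320f5b0f5b00210f5b015a024f024f034e02600200312001330f820f82004d016d0f82026f0381046e052805001b6001340f480f480026014202470f480247014202600200312001330f820f82004d046e0381026f0f82016d012b0100228001320f5b0f5b0021034e024f024f015a0f5b000000000000000000000000000000000000000000000000000000000000000000000000000000000000000000000000012c0100228001290f5b0f5b0f5b002d014a024c034b0449000000000000000000000000000000000000000000000000023a0200312001250f820f82046d002a0f82016e0281036f051205001b6001260f480f480142000c01420f4802470247052b05001b6001270f480f48043c0029013d02450f48033e032e0300168001280f3b0f3b032600350128012802270f3b000000000000000000000000000000000000000000000000000000000000000000000000000000000000000000000000026102003120012e0f820f820f8201610058026403630462023b02003120012a0f820f82036a0f82007a016b016b026c000000000000000000000000000000000000000000000000051a05001b60012b0f480f480247014200140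f4801420247040c04000c00012c0f1f0f1f021b011e000d011e0f1f021b052c05001b60012d0f480f480439013b002e0244033a0f48000000000000000000000000000000000000000000000000000000000000000000000000000000000000000000000000052905001b6001310f480f480f4801380243003602430138051305001b60012f0f480f4804390f48013a001e0244033b051b05001b6001300f480f48043e013c0f48001f023d0345000000000000000000000000000000000000000000000000051b05001b6001300f480f48043e0345023d001f0f48013c051305001b60012f0f480f480439033b0244001e013a0f48000000000000000000000000000000000000000000000000000000000000000000000000000000000000000000000000026102003120012e0f820f820f8204620363026400580161052c05001b60012d0f480f4804390f48033a0244002e013b040c04000c00012c0f1f0f1f021b021b0f1f011e000d011e051a05001b60012b0f480f480247024701420f4800140142000000000000000000000000000000000000000000000000023b02003120012a0f820f82036a026c016b016b007a0f82000000000000000000000000000000000000000000000000000000000000000000000000000000000000000000000000012c0100228001290f5b0f5b0f5b0449034b024c014a002d032e0300168001280f3b0f3b03260f3b0227012801280035052b05001b6001270f480f48043c033e0f480245013d0029051205001b6001260f480f480142024702470f480142000c023a0200312001250f820f82046d036f0281016e0f82002a000000000000000000000000000000000000000000000000))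 (L (nat_lit 0)))))) (N (N (N (N (L (nat_lit 0x50000162000140f3a0f3a00030f3a023901230123012300050000162000140f3a0f3a000302390f3a01230123012300230000162000130f3a0f3a001b023802380f3a0122012200230000162000130f3a0f3a001b0238023801220f3a012200230000162000130f3a0f3a001b02380238012201220f3a00000000000000000000000000000000000000000000000000000000000000000000000000000000000000000000000000060000162000120f3a0f3a0f3a0011013601360136013600000000000000000000000000000000000000000000000003000300168000110f3b0f3b022300000f3b01240124012402020200312000100f820f82035b0008025d0f82015c015c02020200312000100f820f82035b0008025d015c0f82015c02020200312000100f820f82035b0008025d015c015c0f8200000000000000000000000000000000000000000000000000000000000000000000000000000000000000000000000000060000162000120f3a0f3a0f3a0136001101360136013603000300168000110f3b0f3b02230f3b000001240124012400000000000000000000000000000000000000000000000002020200312000100f820f82035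b025d00080f82015c015c02020200312000100f820f82035b025d0008015c0f82015c02020200312000100f820f82035b025d0008015c015c0f82000000000000000000000000000000000000000000000000000000000000000000000000000000000000000000000000002400001620000f0f3a0f3a0f3a01360136001e01360136020102003120000e0f820f82035e0f8202600001015f015f020102003120000e0f820f82035e02600f820001015f015f000000000000000000000000000000000000000000000000010b01002280000d0f5b0f5b03570246024600070f5b0145010b01002280000d0f5b0f5b035702460246000701450f5b000000000000000000000000000000000000000000000000000000000000000000000000000000000000000000000000002400001620000f0f3a0f3a0f3a013601360136001e0136020102003120000e0f820f82035e0f820260015f0001015f020102003120000e0f820f82035e02600f82015f0001015f010b01002280000d0f5b0f5b0357024602460f5b00070145000000000000000000000000000000000000000000000000010b01002280000d0f5b0f5b035702460246014500070f5b000000000000000000000000000000000000000000000000000000000000000000000000000000000000000000000000002400001620000f0f3a0f3a0f3a0136013601360136001e020102003120000e0f820f82035e0f820260015f015f0001020102003120000e0f820f82035e02600f82015f015f0001010b01002280000d0f5b0f5b0357024602460f5b01450007010b01002280000d0f5b0f5b03570246024601450f5b0007000000000000000000000000000000000000000000000000))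 (L (nat_lit 0x24002003120016b0f820f82007b0f820170027203710371024002003120016b0f820f82007b01700f82037102720371053405001b60016c0f480f480031014602400f480341043f053405001b60016c0f480f4800310240014603410f48043f041704000c00016d0f1f0f1f0018011e011e021b021b0f1f000000000000000000000000000000000000000000000000000000000000000000000000000000000000000000000000024102003120016e0f820f820f820039016d026f036e0481000000000000000000000000000000000000000000000000031803001680016f0f3b0f3b012900130f3b022a032b022a061606000ba001700f1e0f1e0115001001150f1e02140313051d05001b6001710f480f480140001b024603410f48043f053505001b6001720f480f48013d00340245033e043c0f48000000000000000000000000000000000000000000000000000000000000000000000000000000000000000000000000024102003120016e0f820f820f82016d0039036e026f0481031803001680016f0f3b0f3b01290f3b0013032b022a022a000000000000000000000000000000000000000000000000051d05001b6001710f480f4801400246001b0f480341043f061606000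ba001700f1e0f1e01150115001002140f1e0313053505001b6001720f480f48013d02450034043c033e0f48000000000000000000000000000000000000000000000000000000000000000000000000000000000000000000000000053505001b6001720f480f480f48033e043c00340245013d061606000ba001700f1e0f1e03130f1e0214001001150115051d05001b6001710f480f48043f03410f48001b02460140000000000000000000000000000000000000000000000000031803001680016f0f3b0f3b022a022a032b00130f3b0129024102003120016e0f820f820481026f036e0039016d0f82000000000000000000000000000000000000000000000000000000000000000000000000000000000000000000000000053505001b6001720f480f480f48043c033e02450034013d051d05001b6001710f480f48043f0f4803410246001b0140061606000ba001700f1e0f1e031302140f1e011500100115031803001680016f0f3b0f3b022a032b022a0f3b00130129000000000000000000000000000000000000000000000000024102003120016e0f820f820481036e026f016d00390f82000000000000000000000000000000000000000000000000000000000000000000000000000000000000000000000000041704000c00016d0f1f0f1f0f1f021b021b011e011e0018053405001b60016c0f480f48043f0f480341014602400031053405001b60016c0f480f48043f03410f48024001460031024002003120016b0f820f820371027203710f820170007b024002003120016b0f820f8203710371027201700f82007b000000000000000000000000000000000000000000000000)))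 (N (L (nat_lit 0x1b0000162000c90f3a0f3a00130f3a023901230123012303070300168000c80f3b0f3b002d022c0f3b013a013a013a02540200312000c70f820f820045036502800f820166016602540200312000c70f820f8200450365028001660f82016602540200312000c70f820f82004503650280016601660f82000000000000000000000000000000000000000000000000000000000000000000000000000000000000000000000000001b0000162000c90f3a0f3a0f3a0013023901230123012300000000000000000000000000000000000000000000000003070300168000c80f3b0f3b022c002d0f3b013a013a013a02540200312000c70f820f820365004502800f820166016602540200312000c70f820f8203650045028001660f82016602540200312000c70f820f82036500450280016601660f8200000000000000000000000000000000000000000000000000000000000000000000000000000000000000000000000003080300168000c60f3b0f3b0f3b0223001501240124012403080300168000c60f3b0f3b02230f3b0015012401240124000000000000000000000000000000000000000000000000060406000ba000c50f1e0f1e011c011c00070f1e011c011c0604060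00ba000c50f1e0f1e011c011c0007011c0f1e011c060406000ba000c50f1e0f1e011c011c0007011c011c0f1e00000000000000000000000000000000000000000000000000000000000000000000000000000000000000000000000002550200312000c40f820f820f82035e0260004f015f015f02550200312000c40f820f82035e0f820260004f015f015f060306000ba000c30f1e0f1e021602160f1e0002011d011d00000000000000000000000000000000000000000000000002290200312000c20f820f82036603660280001a0f82016502290200312000c20f820f82036603660280001a01650f8200000000000000000000000000000000000000000000000000000000000000000000000000000000000000000000000002550200312000c40f820f820f82035e0260015f004f015f02550200312000c40f820f82035e0f820260015f004f015f060306000ba000c30f1e0f1e021602160f1e011d0002011d02290200312000c20f820f820366036602800f82001a016500000000000000000000000000000000000000000000000002290200312000c20f820f820366036602800165001a0f8200000000000000000000000000000000000000000000000000000000000000000000000000000000000000000000000002550200312000c40f820f820f82035e0260015f015f004f02550200312000c40f820f82035e0f820260015f015f004f060306000ba000c30f1e0f1e021602160f1e011d011d000202290200312000c20f820f820366036602800f820165001a02290200312000c20f820f8203660366028001650f82001a000000000000000000000000000000000000000000000000))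 (L (nat_lit 0)))) (N (N (L (nat_lit 0x110000162000660f3a0f3a00270f3a012401240124012401390100228000650f5b0f5b0034034e0f5b024f024f015a01390100228000650f5b0f5b0034034e024f0f5b024f015a01390100228000650f5b0f5b0034034e024f024f0f5b015a00290000162000640f3a0f3a001d02390123012301230f3a00000000000000000000000000000000000000000000000000000000000000000000000000000000000000000000000000120000162000630f3a0f3a0f3a0017022102210221013700000000000000000000000000000000000000000000000003090300168000620f3b0f3b0326002e0f3b02280228012703090300168000620f3b0f3b0326002e02280f3b0228012703090300168000620f3b0f3b0326002e022802280f3b0127031e0300168000610f3b0f3b022300330124012401240f3b000000000000000000000000000000000000000000000000000000000000000000000000000000000000000000000000013a0100228000600f5b0f5b0f5b01440055025602560144030a03001680005f0f3b0f3b02250f3b0009013901390139000000000000000000000000000000000000000000000000050805001b60005e0f480f480439033b00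060f480244013a050805001b60005e0f480f480439033b000602440f48013a026602003120005d0f820f82035e02600028015f015f0f82000000000000000000000000000000000000000000000000000000000000000000000000000000000000000000000000013a0100228000600f5b0f5b0f5b01440256005502560144030a03001680005f0f3b0f3b02250f3b0139000901390139050805001b60005e0f480f480439033b0f4800060244013a000000000000000000000000000000000000000000000000050805001b60005e0f480f480439033b024400060f48013a026602003120005d0f820f82035e0260015f0028015f0f82000000000000000000000000000000000000000000000000000000000000000000000000000000000000000000000000013a0100228000600f5b0f5b0f5b01440256025600550144030a03001680005f0f3b0f3b02250f3b0139013900090139050805001b60005e0f480f480439033b0f4802440006013a050805001b60005e0f480f480439033b02440f480006013a000000000000000000000000000000000000000000000000026602003120005d0f820f82035e0260015f015f00280f82000000000000000000000000000000000000000000000000000000000000000000000000000000000000000000000000002a00001620005c0f3a0f3a0f3a02370121012101210020031d03001680005b0f3b0f3b02250f3b0139013901390018021602003120005a0f820f82036a026c0f82016b016b000c021602003120005a0f820f82036a026c016b0f82016b000c021602003120005a0f820f82036a026c016b016b0f82000c000000000000000000000000000000000000000000000000))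 (L (nat_lit 0))) (N (L (nat_lit 0x1290100228001120f5b0f5b00200f5b014e024f024f035a02270200312001130f820f82001601700f82027203710371052605001b6001140f480f480025014002460f480341043f025f0200312001150f820f82004c016b016b026c0f82036a01470100228001160f5b0f5b0041014a024c034b04490f5b000000000000000000000000000000000000000000000000000000000000000000000000000000000000000000000000012a0100228001170f5b0f5b0f5b002c014a024c034b044900000000000000000000000000000000000000000000000003110300168001180f3b0f3b0129000c0f3b022b032a032a051005001b6001190f480f480140000b02460f480341043f052a05001b60011a0f480f48013a00280244033b0f480439026702003120011b0f820f82016100570264036304620f82000000000000000000000000000000000000000000000000000000000000000000000000000000000000000000000000022802003120011c0f820f820f8201610035026403630462031203001680011d0f3b0f3b01260f3b0010022802280327000000000000000000000000000000000000000000000000060906000ba0011e0f1e0f1e0115011500050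f1e02140313051105001b60011f0f480f48013a02440017033b0f480439052705001b6001200f480f48013802430032024301380f48000000000000000000000000000000000000000000000000000000000000000000000000000000000000000000000000052705001b6001200f480f480f4801380243003202430138051105001b60011f0f480f4804390f48033b00170244013a060906000ba0011e0f1e0f1e031302140f1e000501150115000000000000000000000000000000000000000000000000031203001680011d0f3b0f3b03270228022800100f3b0126022802003120011c0f820f82046203630264003501610f82000000000000000000000000000000000000000000000000000000000000000000000000000000000000000000000000026702003120011b0f820f820f8204620363026400570161052a05001b60011a0f480f4804390f48033b02440028013a051005001b6001190f480f48043f03410f480246000b014003110300168001180f3b0f3b032a032a022b0f3b000c0129000000000000000000000000000000000000000000000000012a0100228001170f5b0f5b0449034b024c014a002c0f5b00000000000000000000000000000000000000000000000000000000000000000000000000000000000000000000000001470100228001160f5b0f5b0f5b0449034b024c014a0041025f0200312001150f820f82036a0f82026c016b016b004c052605001b6001140f480f48043f03410f4802460140002502270200312001130f820f820371037102720f820170001601290100228001120f5b0f5b035a024f024f014e0f5b0020000000000000000000000000000000000000000000000000))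 (L (nat_lit 0))))) (N (N (N (L (nat_lit 0xa0000162000240f3a0f3a00080f3a013801380222022201050100228000250f5b0f5b0003014a0f5b024c034b044901050100228000250f5b0f5b0003014a024c0f5b034b044901330100228000260f5b0f5b00300145024602460f5b035700270000162000270f3a0f3a003101210121012102370f3a000000000000000000000000000000000000000000000000000000000000000000000000000000000000000000000000000b0000162000280f3a0f3a0f3a000b012101210121023700000000000000000000000000000000000000000000000002030200312000290f820f82016100020f8202640363046202030200312000290f820f820161000202640f8203630462010c01002280002a0f5b0f5b01450008024602460f5b0357013401002280002b0f5b0f5b014400350256025601440f5b000000000000000000000000000000000000000000000000000000000000000000000000000000000000000000000000010601002280002c0f5b0f5b0f5b01440017025602560144020402003120002d0f820f82015b0f82000e025d035c035c000000000000000000000000000000000000000000000000053705001b60002e0f480f480138024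300000f4802430138020402003120002d0f820f82035c035c000e025d0f82015b010601002280002c0f5b0f5b014402560017025601440f5b000000000000000000000000000000000000000000000000000000000000000000000000000000000000000000000000010601002280002c0f5b0f5b0f5b01440256001702560144020402003120002d0f820f82015b0f82025d000e035c035c053705001b60002e0f480f48013802430f48000002430138000000000000000000000000000000000000000000000000020402003120002d0f820f82035c035c025d000e0f82015b010601002280002c0f5b0f5b014402560256001701440f5b000000000000000000000000000000000000000000000000000000000000000000000000000000000000000000000000013401002280002b0f5b0f5b0f5b01440256025600350144010c01002280002a0f5b0f5b03570f5b024602460008014502030200312000290f820f82046203630f8202640002016102030200312000290f820f820462036302640f8200020161000000000000000000000000000000000000000000000000000b0000162000280f3a0f3a0237012101210121000b0f3a00000000000000000000000000000000000000000000000000000000000000000000000000000000000000000000000000270000162000270f3a0f3a0f3a0237012101210121003101330100228000260f5b0f5b03570f5b024602460145003001050100228000250f5b0f5b0449034b0f5b024c014a000301050100228000250f5b0f5b0449034b024c0f5b014a0003000a0000162000240f3a0f3a02220222013801380f3a0008000000000000000000000000000000000000000000000000))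 (L (nat_lit 0))) (N (L (nat_lit 0x11c0100228000e60f5b0f5b00130f5b0158024703480158011c0100228000e60f5b0f5b001301580f5b024701580348040e04000c0000e70f1f0f1f000f011c011c0f1f011c011c011c0100228000e60f5b0f5b00130348015802470f5b0158011c0100228000e60f5b0f5b001301580348024701580f5b000000000000000000000000000000000000000000000000000000000000000000000000000000000000000000000000011c0100228000e60f5b0f5b0f5b00130158034802470158000000000000000000000000000000000000000000000000011c0100228000e60f5b0f5b015800130f5b015802470348011c0100228000e60f5b0f5b0348001301580f5b02470158040e04000c0000e70f1f0f1f011c000f011c011c0f1f011c011c0100228000e60f5b0f5b015800130348015802470f5b000000000000000000000000000000000000000000000000000000000000000000000000000000000000000000000000011c0100228000e60f5b0f5b0f5b01580013034801580247011c0100228000e60f5b0f5b01580f5b0013015803480247000000000000000000000000000000000000000000000000011c0100228000e60f5b0f5b0348015800130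f5b01580247011c0100228000e60f5b0f5b01580348001301580f5b0247040e04000c0000e70f1f0f1f011c011c000f011c011c0f1f000000000000000000000000000000000000000000000000000000000000000000000000000000000000000000000000040e04000c0000e70f1f0f1f0f1f011c011c000f011c011c011c0100228000e60f5b0f5b02470f5b0158001303480158011c0100228000e60f5b0f5b024701580f5b001301580348000000000000000000000000000000000000000000000000011c0100228000e60f5b0f5b02470348015800130f5b0158011c0100228000e60f5b0f5b024701580348001301580f5b000000000000000000000000000000000000000000000000000000000000000000000000000000000000000000000000011c0100228000e60f5b0f5b0f5b02470158034800130158040e04000c0000e70f1f0f1f011c0f1f011c011c000f011c011c0100228000e60f5b0f5b015802470f5b015800130348011c0100228000e60f5b0f5b0348024701580f5b00130158000000000000000000000000000000000000000000000000011c0100228000e60f5b0f5b015802470348015800130f5b000000000000000000000000000000000000000000000000000000000000000000000000000000000000000000000000011c0100228000e60f5b0f5b0f5b01580247034801580013011c0100228000e60f5b0f5b01580f5b0247015803480013040e04000c0000e70f1f0f1f011c011c0f1f011c011c000f011c0100228000e60f5b0f5b0348015802470f5b01580013011c0100228000e60f5b0f5b01580348024701580f5b0013000000000000000000000000000000000000000000000000))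 (L (nat_lit 0)))) (N (N (L (nat_lit 0x160000162000970f3a0f3a000e0f3a0122012202380238024a0200312000950f820f82003f03670f82016902680268024a0200312000950f820f82003f036701690f820268026801130100228000960f5b0f5b000c024d015901590f5b024d01130100228000960f5b0f5b000c024d01590159024d0f5b00000000000000000000000000000000000000000000000000000000000000000000000000000000000000000000000000160000162000970f3a0f3a0f3a000e023802380122012200000000000000000000000000000000000000000000000001130100228000960f5b0f5b024d000c0f5b024d0159015901130100228000960f5b0f5b024d000c024d0f5b01590159024a0200312000950f820f820367003f026802680f820169024a0200312000950f820f820367003f0268026801690f82000000000000000000000000000000000000000000000000000000000000000000000000000000000000000000000000024b0200312000930f820f820f82035b0052015d025c025c01140100228000940f5b0f5b03570f5b002301450246024600000000000000000000000000000000000000000000000002320200312000910f820f820269036700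230f8201680168040504000c0000920f1f0f1f0319021d0005011a0f1f021d040504000c0000920f1f0f1f0319021d0005011a021d0f1f000000000000000000000000000000000000000000000000000000000000000000000000000000000000000000000000024b0200312000930f820f820f82035b015d0052025c025c01140100228000940f5b0f5b03570f5b014500230246024602320200312000910f820f82026903670f82002301680168000000000000000000000000000000000000000000000000040504000c0000920f1f0f1f0319021d011a00050f1f021d040504000c0000920f1f0f1f0319021d011a0005021d0f1f00000000000000000000000000000000000000000000000000000000000000000000000000000000000000000000000001140100228000940f5b0f5b0f5b03570246024600230145024b0200312000930f820f82035b0f82025c025c0052015d040504000c0000920f1f0f1f021d03190f1f021d0005011a040504000c0000920f1f0f1f021d0319021d0f1f0005011a00000000000000000000000000000000000000000000000002320200312000910f820f82036702690168016800230f8200000000000000000000000000000000000000000000000000000000000000000000000000000000000000000000000001140100228000940f5b0f5b0f5b03570246024601450023024b0200312000930f820f82035b0f82025c025c015d0052040504000c0000920f1f0f1f021d03190f1f021d011a0005040504000c0000920f1f0f1f021d0319021d0f1f011a000502320200312000910f820f8203670269016801680f820023000000000000000000000000000000000000000000000000))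 (L (nat_lit 0))) (N (L (nat_lit 0x12e01002280014e0f5b0f5b00270f5b034e024f024f015a023702003120014d0f820f82002603700f82027102710172041504000c00014c0f1f0f1f0015021e021e0f1f011b011b041504000c00014c0f1f0f1f0015021e021e011b0f1f011b026302003120014b0f820f82005503650280016601660f82000000000000000000000000000000000000000000000000000000000000000000000000000000000000000000000000012f01002280014a0f5b0f5b0f5b0051014d02590259014d00000000000000000000000000000000000000000000000003130300168001490f3b0f3b0329000d0f3b022a022a012b052d05001b6001480f480f48043d002a03450f48023e013c052d05001b6001480f480f48043d002a0345023e0f48013c022d0200312001470f820f82036500290280016601660f8200000000000000000000000000000000000000000000000000000000000000000000000000000000000000000000000002380200312001460f820f820f820367003702680268016903140300168001450f3b0f3b03260f3b0012022802280127000000000000000000000000000000000000000000000000051905001b6001440f480f48043d0345001a0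f48023c013e051905001b6001440f480f48043d0345001a023c0f48013e060f06000ba001430f1e0f1e011c011c0019011c011c0f1e000000000000000000000000000000000000000000000000000000000000000000000000000000000000000000000000041604000c0001420f1f0f1f0f1f0319011d0017021a011d052e05001b6001410f480f4804390f48033b002f0244013a051805001b6001400f480f48043f03410f48001302400146000000000000000000000000000000000000000000000000023e02003120013f0f820f820481036f026e00310f82016d022f02003120013e0f820f82036603660280007901650f82000000000000000000000000000000000000000000000000000000000000000000000000000000000000000000000000041604000c0001420f1f0f1f0f1f0319011d021a0017011d052e05001b6001410f480f4804390f48033b0244002f013a051805001b6001400f480f48043f03410f48024000130146023e02003120013f0f820f820481036f026e0f820031016d000000000000000000000000000000000000000000000000022f02003120013e0f820f82036603660280016500790f82000000000000000000000000000000000000000000000000000000000000000000000000000000000000000000000000026202003120013d0f820f820f8203670269016801680050022c02003120013c0f820f82036a0f82026c016b016b001c060e06000ba0013b0f1e0f1e031302140f1e01150115000d022e02003120013a0f820f820481036e026f0f82016d001d022e02003120013a0f820f820481036e026f016d0f82001d000000000000000000000000000000000000000000000000))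 (L (nat_lit 0)))))))) Tr.N Tr.L
noncomputable def tTE : Tr := (fun (N : Tr → Tr → Tr) (L : ℕ → Tr) => (N tTE_0 tTE_1)) Tr.N Tr.L
noncomputable def tFU : Tr := (fun (N : Tr → Tr → Tr) (L : ℕ → Tr) => (N (N (N (N (N (N (N (N (N (L (nat_lit 0xffffffffffffffffffffffff000d0000)) (L (nat_lit 0xffffffff152115221525152315241506))) (N (L (nat_lit 0xffffffffffffffff0411041204250403)) (L (nat_lit 0xffffffffffffffff25042505250b2501)))) (N (N (L (nat_lit 0xffffffff13121313136e131513141300)) (L (nat_lit 0xffffffffffff0c340c180c190c170c04))) (N (L (nat_lit 0xffffffffffffffff0610061106250603)) (L (nat_lit 0))))) (N (N (N (L (nat_lit 0xffffffffffff08130816081508140801)) (L (nat_lit 0xffffffffffff0a390a3a0a3b0a380a08))) (N (L (nat_lit 0xffffffff111111131114112c11121103)) (L (nat_lit 0xffffffffffffffff1a3f1a3e1a3d1a09)))) (N (N (L (nat_lit 0xffffffff0b1d0b1e0b210b200b1f0b02)) (L (nat_lit 0xffffffffffff14381439143a143b140a))) (N (L (nat_lit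 0xffffffff0b2e0b2f0b300b2d0b2c0b05)) (L (nat_lit 0)))))) (N (N (N (N (L (nat_lit 0xffffffffffffffffffffffff000c0006)) (L (nat_lit 0xffffffffffffffff2111211321122102))) (N (L (nat_lit 0xffffffff170c170f1710170e170d1701)) (L (nat_lit 0xffffffffffffffff1733173117321708)))) (N (N (L (nat_lit 0xffffffffffff023f0241024a0240020d)) (L (nat_lit 0xffff15261527152b1529152a15281507))) (N (L (nat_lit 0xffff19191917191b191c191a19181903)) (L (nat_lit 0))))) (N (N (N (L (nat_lit 0xffffffffffffffffffff060906230600)) (L (nat_lit 0xffff0a5a0a5b0a5f0a5e0a5d0a5c0a0f))) (N (L (nat_lit 0xffffffff121212141215121612131203)) (L (nat_lit 0)))) (N (N (L (nat_lit 0xffffffffffff1419141a141c141b1403)) (L (nat_lit 0xffffffff1369136a136d136c136b1311))) (N (L (nat_lit 0xffff1a191a1b1a1d1a1e1a1c1a1a1a03)) (L (nat_lit 0))))))) (N (N (N (N (N (L (nat_lit 0xffffffffffffffffffff001000090003)) (L (nat_lit 0xffffffffffff1b271b281b291b2a1b07))) (N (L (nat_lit 0xffffffffffff180f1858181118101800))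 (L (nat_lit 0xffffffff1b341b351b371b381b361b0a)))) (N (N (L (nat_lit 0xffffffffffff0f0f0f100f120f110f02)) (L (nat_lit 0xffffffff1e461e431e441e421e451e0a))) (N (L (nat_lit 0xffffffff082f08310833083208300807)) (L (nat_lit 0))))) (N (N (N (L (nat_lit 0xffffffffffffffff071d071f071e0706)) (L (nat_lit 0xffffffffffffffff1122112d11231107))) (N (L (nat_lit 0xffffffff0540054205510541053f050b)) (L (nat_lit 0xffffffff1f3b1f3e1f3c1f3d1f3a1f0b)))) (N (N (L (nat_lit 0xffffffffffffffffffff110f11101102)) (L (nat_lit 0xffffffffffff2209220a220c220b2202))) (N (L (nat_lit 0xffff096b096d096f0970096e096c0911)) (L (nat_lit 0)))))) (N (N (N (N (L (nat_lit 0xffffffffffff08100812085908110800)) (L (nat_lit 0xffffffff133413351338133713361307))) (N (L (nat_lit 0xffff082608280829082a082708250805)) (L (nat_lit 0xffffffffffff0d150d180d170d160d05)))) (N (N (L (nat_lit 0xffffffffffff10151016101810171002)) (L (nat_lit 0xffffffff0b740b750b780b770b760b13))) (N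 (L (nat_lit 0xffffffffffff0850085308520851080e)) (L (nat_lit 0))))) (N (N (N (L (nat_lit 0xffffffffffff03170319034203180303)) (L (nat_lit 0xffffffffffff2309230a2323230b2301))) (N (L (nat_lit 0xffff0a280a2b0a2a0a2d0a2c0a290a05)) (L (nat_lit 0)))) (N (N (L (nat_lit 0xffffffffffff1b131b141b161b151b02)) (L (nat_lit 0xffffffffffffffff0c1b0c1c0c1a0c05))) (N (L (nat_lit 0xffffffff09480949094b0989094a090a)) (L (nat_lit 0)))))))) (N (N (N (N (N (N (L (nat_lit 0xffffffffffffffff020f021102100200)) (L (nat_lit 0xffffffffffffffff1d131d141d121d04))) (N (L (nat_lit 0xffffffff082208230824085a08210804)) (L (nat_lit 0xffffffffffff23182319231b231a2304)))) (N (N (L (nat_lit 0xffffffff0b180b190b1c0b1b0b1a0b01)) (L (nat_lit 0xffffffffffffffff1519151b151a1504))) (N (L (nat_lit 0xffff0a300a310a320a330a2f0a2e0a06)) (L (nat_lit 0))))) (N (N (N (L (nat_lit 0xffffffff091a091c091e091d091b0901)) (L (nat_lit 0xffffffffffff183b183d183c183a1809))) (N (L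 (nat_lit 0xffffffff120e121012111229120f1202)) (L (nat_lit 0xffff1a401a421a441a451a431a411a0a)))) (N (N (L (nat_lit 0xffffffffffff0c0e0c0f0c100c320c01)) (L (nat_lit 0xffffffff1e3b1e381e3a1e3c1e391e08))) (N (L (nat_lit 0xffffffffffff0a460a490a480a470a0b)) (L (nat_lit 0)))))) (N (N (N (N (L (nat_lit 0xffffffffffff02460215021602140202)) (L (nat_lit 0xffffffffffffffffffff061b061a0606))) (N (L (nat_lit 0xffffffffffff18121814181518131801)) (L (nat_lit 0xffff193e193f1940193d193b193c1909)))) (N (N (L (nat_lit 0xffffffffffffffff0242024b0243020e)) (L (nat_lit 0xffffffff1f201f221f231f241f211f05))) (N (L (nat_lit 0xffffffff0b460b470b4a0b490b480b0a)) (L (nat_lit 0))))) (N (N (N (L (nat_lit 0xffffffff022202260224022502230206)) (L (nat_lit 0xffff134a134b134f134c134e134d130b))) (N (L (nat_lit 0xffffffff0548054a054b05490547050d)) (L (nat_lit 0)))) (N (N (L (nat_lit 0xffffffffffffffff0c110c130c120c02)) (L (nat_lit 0xffffffffffff1445144614481447140d)))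 (N (L (nat_lit 0xffffffff097c097e0980097f097d0914)) (L (nat_lit 0))))))) (N (N (N (N (N (L (nat_lit 0xffffffffffffffff070e0710070f0701)) (L (nat_lit 0xffffffffffff1f191f1b1f1a1f181f03))) (N (L (nat_lit 0xffffffffffffffff16051606160c1601)) (L (nat_lit 0xffffffffffffffff2010201120182005)))) (N (N (L (nat_lit 0xffffffffffff0f130f140f160f150f03)) (L (nat_lit 0xffff193519371939193a193819361908))) (N (L (nat_lit 0xffffffff0846084808490847085b080c)) (L (nat_lit 0))))) (N (N (N (L (nat_lit 0xffffffffffff10111013101410121001)) (L (nat_lit 0xffff1a1f1a231a211a241a221a201a04))) (N (L (nat_lit 0xffffffff132a132b132e132c132d1305)) (L (nat_lit 0xffffffffffff1f3f1f411f421f401f0c)))) (N (N (L (nat_lit 0xffffffffffff14151416141814171402)) (L (nat_lit 0xffffffff1f321f331f351f341f311f09))) (N (L (nat_lit 0xffffffff151c151d1520151e151f1505)) (L (nat_lit 0)))))) (N (N (N (N (L (nat_lit 0xffffffff091609180919098609170900)) (L (nat_lit 0xffffffffffff14211422142414231405)))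 (N (L (nat_lit 0xffff0934093609370938093509330906)) (L (nat_lit 0xffff1c331c341c361c381c371c351c08)))) (N (N (L (nat_lit 0xffffffffffffffff060d060f060e0602)) (L (nat_lit 0xffffffff135c135b135e135d135f130e))) (N (L (nat_lit 0xffffffff142514261428144b14271406)) (L (nat_lit 0))))) (N (N (N (L (nat_lit 0xffffffffffff022b022d0247022c0208)) (L (nat_lit 0xffff1c1f1c201c221c241c231c211c04))) (N (L (nat_lit 0xffffffff102a102c102d102e102b1007)) (L (nat_lit 0)))) (N (N (L (nat_lit 0xffffffffffffffff0e100e110e180e05)) (L (nat_lit 0xffffffffffff24112410241324122403))) (N (L (nat_lit 0xffff0971097209750976097409730912)) (L (nat_lit 0))))))))) (N (N (N (N (N (N (N (L (nat_lit 0xffffffffffffffffffff0123010a0100)) (L (nat_lit 0xffffffff098109830985098409820915))) (N (L (nat_lit 0xffffffff041304150416041404260404)) (L (nat_lit 0xffffffffffffffff0c2e0c300c2f0c0b)))) (N (N (L (nat_lit 0xffffffff023102350234023302320244)) (L (nat_lit 0xffffffffffff1845184718461844180b)))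 (N (L (nat_lit 0xffffffffffffffffffff1d191d061d00)) (L (nat_lit 0))))) (N (N (N (L (nat_lit 0xffffffffffffffff011a012701190106)) (L (nat_lit 0xffffffffffffffffffff230823072300))) (N (L (nat_lit 0xffffffffffffffff053e053d053c050a)) (L (nat_lit 0xffff1c3c1c3e1c3d1c3b1c391c3a1c09)))) (N (N (L (nat_lit 0xffffffff0329032d032b032c032a0307)) (L (nat_lit 0xffffffffffff1d161d151d171d181d05))) (N (L (nat_lit 0xffffffffffff0c140c160c330c150c03)) (L (nat_lit 0)))))) (N (N (N (N (L (nat_lit 0xffffffffffffffffffff040904240400)) (L (nat_lit 0xffffffffffff111a111c111d111b1105))) (N (L (nat_lit 0xffffffffffff041f0420041e041d0407)) (L (nat_lit 0xffff1848184b184c184d184a1849180c)))) (N (N (L (nat_lit 0xffffffffffff14111412141414131401)) (L (nat_lit 0xffff0b6e0b6f0b730b720b710b700b12))) (N (L (nat_lit 0xffff096509670969096a096809660910)) (L (nat_lit 0))))) (N (N (N (L (nat_lit 0xffffffff05160518051a051905170502)) (L (nat_lit 0xffff1929192b192d192e192c192a1906)))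 (N (L (nat_lit 0xffffffff141d141e144a1420141f1404)) (L (nat_lit 0)))) (N (N (L (nat_lit 0xffffffffffffffff0e0e0e0f0e170e04)) (L (nat_lit 0xffffffffffff240c240d240f240e2402))) (N (L (nat_lit 0xffffffff1b1b1b1c1b1e1b3e1b1d1b04)) (L (nat_lit 0))))))) (N (N (N (N (N (L (nat_lit 0xffffffffffffffff070c070d07300700)) (L (nat_lit 0xffffffffffff0f2a0f2c0f2d0f2b0f09))) (N (L (nat_lit 0xffffffffffff0418041a041904170405)) (L (nat_lit 0xffffffffffff2419241a241c241b2405)))) (N (N (L (nat_lit 0xffffffffffffffff0332033303340309)) (L (nat_lit 0xffffffff112411251128112711261108))) (N (L (nat_lit 0xffffffffffffffff1607160916081602)) (L (nat_lit 0))))) (N (N (N (L (nat_lit 0xffffffffffffffffffff011f011e0108)) (L (nat_lit 0xffff172b172d172f1730172e172c1707))) (N (L (nat_lit 0xffffffff111511171118111911161104)) (L (nat_lit 0xffffffffffffffff2128212621272107)))) (N (N (L (nat_lit 0xffffffffffff0345033803390337030b)) (L (nat_lit 0xffffffff136513661370136713681310)))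 (N (L (nat_lit 0xffff191d191f192119221920191e1904)) (L (nat_lit 0)))))) (N (N (N (N (L (nat_lit 0xffffffffffff021e02200221021f0205)) (L (nat_lit 0xffffffffffff121b121d121e121c1205))) (N (L (nat_lit 0xffffffffffffffff194a190d190c1900)) (L (nat_lit 0xffffffffffff211d211f211e212f2105)))) (N (N (L (nat_lit 0xffffffffffffffff033503440336030a)) (L (nat_lit 0xffffffff1e231e251e241e271e261e04))) (N (L (nat_lit 0xffff18261829182a182b182818271805)) (L (nat_lit 0))))) (N (N (N (L (nat_lit 0xffffffff08170818081b081a08190802)) (L (nat_lit 0xffffffffffff0a640a670a660a650a11))) (N (L (nat_lit 0xffffffffffff1c0c1c0e1c491c0d1c00)) (L (nat_lit 0)))) (N (N (L (nat_lit 0xffffffffffff1b171b181b1a1b191b03)) (L (nat_lit 0xffffffff1e3d1e401e411e3f1e3e1e09))) (N (L (nat_lit 0xffffffffffffffff1914191619151902)) (L (nat_lit 0)))))))) (N (N (N (N (N (N (L (nat_lit 0xffffffffffffffff0245021302120201)) (L (nat_lit 0xffffffffffff0c200c210c230c220c07)))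 (N (L (nat_lit 0xffff05260528052a052b052905270506)) (L (nat_lit 0xffffffffffff231c231d231f231e2305)))) (N (N (L (nat_lit 0xffffffffffff07140716073207150703)) (L (nat_lit 0xffff192f193119331934193219301907))) (N (L (nat_lit 0xffffffff0b310b320b350b330b340b06)) (L (nat_lit 0))))) (N (N (N (L (nat_lit 0xffffffffffff07110713073107120702)) (L (nat_lit 0xffff172517271729172a172817261706))) (N (L (nat_lit 0xffffffff132513261329132813271304)) (L (nat_lit 0xffff2122212421252123212121202106)))) (N (N (L (nat_lit 0xffffffffffff07170719071807330704)) (L (nat_lit 0xffffffff13601361136413631362130f))) (N (L (nat_lit 0xffff1a131a151a171a181a161a141a02)) (L (nat_lit 0)))))) (N (N (N (N (L (nat_lit 0xffffffffffff021a021c021d021b0204)) (L (nat_lit 0xffffffffffff12171219121a12181204))) (N (L (nat_lit 0xffffffffffffffff0422042304210408)) (L (nat_lit 0xffffffffffff17361737173517341709)))) (N (N (L (nat_lit 0xffffffffffffffffffff120912281200))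 (L (nat_lit 0xffffffff1b1f1b201b221b211b3f1b05))) (N (L (nat_lit 0xffffffffffff1d0b1d0c1d0d1d0a1d02)) (L (nat_lit 0))))) (N (N (N (L (nat_lit 0xffffffffffff060a060b0624060c0601)) (L (nat_lit 0xffffffffffff18361838183918371808))) (N (L (nat_lit 0xffffffffffffffffffff0d060d190d00)) (L (nat_lit 0)))) (N (N (L (nat_lit 0xffffffffffffffff071a071c071b0705)) (L (nat_lit 0xffffffffffff143d143c143e143f140b))) (N (L (nat_lit 0xffffffffffff0d0b0d0e0d0d0d0c0d02)) (L (nat_lit 0))))))) (N (N (N (N (N (L (nat_lit 0xffffffffffffffffffff000b00120005)) (L (nat_lit 0xffffffffffff103f104110421040100c))) (N (L (nat_lit 0xffffffffffff0838083b083a08390809)) (L (nat_lit 0xffffffffffffffffffff250825092503)))) (N (N (L (nat_lit 0xffffffff13161317131a131913181301)) (L (nat_lit 0xffff1e321e351e361e371e341e331e07))) (N (L (nat_lit 0xffff171517171719171a171817161703)) (L (nat_lit 0))))) (N (N (N (L (nat_lit 0xffffffffffffffff0121012201200109)) (L (nat_lit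 0xffff134413451349134713481346130a))) (N (L (nat_lit 0xffffffff05440546055205450543050c)) (L (nat_lit 0xffffffffffffffffffff241d241e2406)))) (N (N (L (nat_lit 0xffffffffffff07260728072907270709)) (L (nat_lit 0xffffffff1b2f1b301b321b331b311b09))) (N (L (nat_lit 0xffffffff09770979097b097a09780913)) (L (nat_lit 0)))))) (N (N (N (N (L (nat_lit 0xffffffffffff01170126011801160105)) (L (nat_lit 0xffffffffffff0a350a360a370a340a07))) (N (L (nat_lit 0xffffffffffffffff1a461a0c1a0b1a00)) (L (nat_lit 0xffffffffffff1854185518571856180e)))) (N (N (L (nat_lit 0xffffffffffffffff031a031c031b0304)) (L (nat_lit 0xffffffff0b690b6a0b6d0b6c0b6b0b11))) (N (L (nat_lit 0xffffffff08540856085808570855080f)) (L (nat_lit 0))))) (N (N (N (L (nat_lit 0xffffffff092409260928092709250903)) (L (nat_lit 0xffffffffffffffff121f122a12201206))) (N (L (nat_lit 0xffffffffffff1c0f1c121c111c101c01)) (L (nat_lit 0)))) (N (N (L (nat_lit 0xffffffffffffffffffff200a200b2002))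 (L (nat_lit 0xffffffffffff0c2b0c2d0c2c0c350c0a))) (N (L (nat_lit 0xffff1c191c1a1c1c1c1e1c1d1c1b1c03)) (L (nat_lit 0)))))))))) (N (N (N (N (N (N (N (N (L (nat_lit 0xffffffffffffffffffff0007000e0001)) (L (nat_lit 0xffffffff10371038103a104b1039100a))) (N (L (nat_lit 0xffffffffffffffffffffffff16041600)) (L (nat_lit 0xffffffffffff1b231b241b261b251b06)))) (N (N (L (nat_lit 0xffffffff032503280326032703430306)) (L (nat_lit 0xffffffffffffffffffff2407241f2400))) (N (L (nat_lit 0xffffffffffff082d082e082b082c0806)) (L (nat_lit 0))))) (N (N (N (L (nat_lit 0xffffffffffffffff0f0a0f2e0f0b0f00)) (L (nat_lit 0xffff0b3d0b3e0b3f0b400b3c0b3b0b08))) (N (L (nat_lit 0xffffffffffff17121713171417111702)) (L (nat_lit 0xffff194619481949194719451944190b)))) (N (N (L (nat_lit 0xffffffffffffffff150c153a150d1500)) (L (nat_lit 0xffffffffffffffffffff1129112a1109))) (N (L (nat_lit 0xffffffffffff1f0e1f0f1f431f0d1f00)) (L (nat_lit 0)))))) (N (N (N (N (L (nat_lit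 0xffffffffffffffff010f0124010e0102)) (L (nat_lit 0xffffffffffff1043104410461045100d))) (N (L (nat_lit 0xffffffffffff0f170f2f0f180f190f04)) (L (nat_lit 0xffffffffffffffffffff0d100d0f0d03)))) (N (N (L (nat_lit 0xffffffffffff101d101f1020101e1004)) (L (nat_lit 0xffff135013511355135413531352130c))) (N (L (nat_lit 0xffff1339133a136f133c133b133d1308)) (L (nat_lit 0))))) (N (N (N (L (nat_lit 0xffffffffffffffff040e0410040f0402)) (L (nat_lit 0xffffffffffff18321834183518331807))) (N (L (nat_lit 0xffff1a0d1a0f1a111a121a101a0e1a01)) (L (nat_lit 0)))) (N (N (L (nat_lit 0xffffffffffff1b0f1b101b121b111b01)) (L (nat_lit 0xffffffffffff1f371f391f381f361f0a))) (N (L (nat_lit 0xffffffff1f151f161f171f441f141f02)) (L (nat_lit 0))))))) (N (N (N (N (N (L (nat_lit 0xffffffffffffffff0311031303120301)) (L (nat_lit 0xffffffffffff103b103d103e103c100b))) (N (L (nat_lit 0xffff092e093009870932092f09310905)) (L (nat_lit 0xffffffffffffffff153715391538150b))))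 (N (N (L (nat_lit 0xffffffffffff110b110c110e110d1101)) (L (nat_lit 0xffffffff1357135613591358135a130d))) (N (L (nat_lit 0xffffffffffff0a3c0a3f0a3e0a3d0a09)) (L (nat_lit 0))))) (N (N (N (L (nat_lit 0xffffffffffffffff0f0c0f0e0f0d0f01)) (L (nat_lit 0xffff0a4e0a4f0a520a530a500a510a0d))) (N (L (nat_lit 0xffffffff095b095d095f095e095c090e)) (L (nat_lit 0xffffffff1e5f1e601e5d1e5e1e5c1e0f)))) (N (N (L (nat_lit 0xffffffff131b131c131f131e131d1302)) (L (nat_lit 0xffffffffffffffff1530153115321509))) (N (L (nat_lit 0xffffffff0b500b510b540b530b520b0c)) (L (nat_lit 0)))))) (N (N (N (N (L (nat_lit 0xffffffffffffffff0115011401130104)) (L (nat_lit 0xffffffffffff061e061f061d061c0607))) (N (L (nat_lit 0xffff0a250a240a260a270a230a220a04)) (L (nat_lit 0xffffffffffff1c2d1c2e1c2b1c2c1c06)))) (N (N (L (nat_lit 0xffffffffffff120a120b120d120c1201)) (L (nat_lit 0xffff1c251c261c281c2a1c291c271c05))) (N (L (nat_lit 0xffffffff0b4b0b4c0b4f0b4e0b4d0b0b))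 (L (nat_lit 0))))) (N (N (N (L (nat_lit 0xffffffffffff0227022a022902280207)) (L (nat_lit 0xffff142e142f144c1431143214301408))) (N (L (nat_lit 0xffffffffffff0d070d0a0d090d080d01)) (L (nat_lit 0)))) (N (N (L (nat_lit 0xffffffffffff072a072b072c0735070a)) (L (nat_lit 0xffffffffffffffffffffffff250a2500))) (N (L (nat_lit 0xffff133e133f13421343134113401309)) (L (nat_lit 0)))))))) (N (N (N (N (N (N (L (nat_lit 0xffffffffffffffffffff000f00080002)) (L (nat_lit 0xffffffffffffffff0f270f290f280f08))) (N (L (nat_lit 0xffffffffffffffff1738170b170a1700)) (L (nat_lit 0xffffffffffff1533153515361534150a)))) (N (N (L (nat_lit 0xffffffffffff140e140f144914101400)) (L (nat_lit 0xffffffff0b600b610b620b630b7b0b0f))) (N (L (nat_lit 0xffffffff1e111e121e131e611e101e00)) (L (nat_lit 0))))) (N (N (N (L (nat_lit 0xffffffffffff100e10101047100f1000)) (L (nat_lit 0xffffffffffff0a4a0a4c0a4d0a4b0a0c))) (N (L (nat_lit 0xffff18171818181b181a181918161802)) (L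 (nat_lit 0xffff1c401c421c441c431c411c3f1c0a)))) (N (N (L (nat_lit 0xffffffffffff1b0c1b0d1b0e1b3d1b00)) (L (nat_lit 0xffffffffffff0c270c290c2a0c280c09))) (N (L (nat_lit 0xffffffffffff181d181f181e181c1803)) (L (nat_lit 0)))))) (N (N (N (N (L (nat_lit 0xffffffffffffffff054f0510050f0500)) (L (nat_lit 0xffffffffffff111e11201121111f1106))) (N (L (nat_lit 0xffffffff102110231048102210241005)) (L (nat_lit 0xffffffffffff1c2f1c311c321c301c07)))) (N (N (L (nat_lit 0xffffffff091f09200923092209210902)) (L (nat_lit 0xffffffff24082409240a240b24202401))) (N (L (nat_lit 0xffffffff172017231724172117221705)) (L (nat_lit 0))))) (N (N (N (L (nat_lit 0xffffffff051b051d051f051e051c0503)) (L (nat_lit 0xffffffffffff0a600a630a620a610a10))) (N (L (nat_lit 0xffffffffffffffff0521052205200504)) (L (nat_lit 0)))) (N (N (L (nat_lit 0xffffffffffffffffffff200720142000)) (L (nat_lit 0xffffffff21192118211a211c211b2104))) (N (L (nat_lit 0xffffffff0b360b370b390b3a0b380b07))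 (L (nat_lit 0))))))) (N (N (N (N (N (L (nat_lit 0xffffffffffffffffffff0e070e140e00)) (L (nat_lit 0xffffffffffffffff200c2016200d2003))) (N (L (nat_lit 0xffffffffffffffffffff041c041b0406)) (L (nat_lit 0xffffffffffff1b391b3a1b3c1b3b1b0b)))) (N (N (L (nat_lit 0xffffffffffff1019101b101c101a1003)) (L (nat_lit 0xffff1a2b1a2d1a2f1a301a2e1a2c1a06))) (N (L (nat_lit 0xffff0a400a410a450a440a430a420a0a)) (L (nat_lit 0))))) (N (N (N (L (nat_lit 0xffffffffffffffff0e0a0e150e0b0e02)) (L (nat_lit 0xffff1e301e2d1e311e621e2f1e2e1e06))) (N (L (nat_lit 0xffffffff0f1a0f1c0f1e0f1d0f1b0f05)) (L (nat_lit 0xffffffff212b212d212c212a21292108)))) (N (N (L (nat_lit 0xffffffff150e150f1512151115101501)) (L (nat_lit 0xffff2312231323142317231623152303))) (N (L (nat_lit 0xffffffff0f220f240f260f250f230f07)) (L (nat_lit 0)))))) (N (N (N (N (L (nat_lit 0xffffffffffff03140316034103150302)) (L (nat_lit 0xffffffffffffffff0621062206200608))) (N (L (nat_lit 0xffff0b290b2a0b2b0b7a0b280b270b04))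 (L (nat_lit 0xffffffffffffffffffff220f22102204)))) (N (N (L (nat_lit 0xffffffffffffffff0c0c0c0d0c310c00)) (L (nat_lit 0xffffffff122112221225122412231207))) (N (L (nat_lit 0xffffffff102f10311032104910301008)) (L (nat_lit 0))))) (N (N (N (L (nat_lit 0xffffffff081c081d0820081f081e0803)) (L (nat_lit 0xffff0a540a550a580a560a590a570a0e))) (N (L (nat_lit 0xffffffff132f13321331133313301306)) (L (nat_lit 0)))) (N (N (L (nat_lit 0xffffffffffffffff072d072f072e070b)) (L (nat_lit 0xffffffff152c152d152f152e153c1508))) (N (L (nat_lit 0xffffffff1429142a142c142d142b1407)) (L (nat_lit 0))))))))) (N (N (N (N (N (N (N (L (nat_lit 0xffffffffffffffff010b010d010c0101)) (L (nat_lit 0xffffffffffffffff0c1d0c1f0c1e0c06))) (N (L (nat_lit 0xffffffffffff05240525055005230505)) (L (nat_lit 0xffffffffffffffffffff220d220e2203)))) (N (N (L (nat_lit 0xffffffff0929092b092d092c092a0904)) (L (nat_lit 0xffffffff1f1c1f1d1f1e1f1f1f451f04))) (N (L (nat_lit 0xffffffff061206130614061506260604))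 (L (nat_lit 0))))) (N (N (N (L (nat_lit 0xffffffffffff03210323032403220340)) (L (nat_lit 0xffffffffffffffffffff160a160b1603))) (N (L (nat_lit 0xffffffff08410842084508440843080b)) (L (nat_lit 0xffff1e591e5a1e561e581e571e5b1e0e)))) (N (N (L (nat_lit 0xffffffff0b220b230b260b250b240b03)) (L (nat_lit 0xffffffffffff1f2e1f301f2f1f2d1f08))) (N (L (nat_lit 0xffffffff094409460947098809450909)) (L (nat_lit 0)))))) (N (N (N (N (L (nat_lit 0xffffffffffff01100112012501110103)) (L (nat_lit 0xffffffffffffffff1d071d091d081d01))) (N (L (nat_lit 0xffffffff09510953095509540952090c)) (L (nat_lit 0xffffffffffff0d110d140d130d120d04)))) (N (N (L (nat_lit 0xffffffffffffffff0e0c0e160e0d0e03)) (L (nat_lit 0xffff1a311a331a351a361a341a321a07))) (N (L (nat_lit 0xffff084a084c084f084e084d084b080d)) (L (nat_lit 0))))) (N (N (N (L (nat_lit 0xffffffffffff0a120a140a680a130a00)) (L (nat_lit 0xffffffffffff22052206220822072201))) (N (L (nat_lit 0xffffffff102510271029102810261006))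 (L (nat_lit 0)))) (N (N (L (nat_lit 0xffffffffffffffff033d033f033e030d)) (L (nat_lit 0xffffffffffffffff200e2017200f2004))) (N (L (nat_lit 0xffffffff103310351036104a10341009)) (L (nat_lit 0))))))) (N (N (N (N (N (L (nat_lit 0xffffffffffffffffffff000a00110004)) (L (nat_lit 0xffffffffffffffff0c240c260c250c08))) (N (L (nat_lit 0xffffffffffff08340837083608350808)) (L (nat_lit 0xffffffffffffffff25062507250c2502)))) (N (N (L (nat_lit 0xffffffffffffffff0239023b023a020b)) (L (nat_lit 0xffffffff0b640b650b680b670b660b10))) (N (L (nat_lit 0xffffffff171b171e171f171c171d1704)) (L (nat_lit 0))))) (N (N (N (L (nat_lit 0xffffffffffffffff0720072207210707)) (L (nat_lit 0xffff183f1840184318421841183e180a))) (N (L (nat_lit 0xffff190e1910191219131911190f1901)) (L (nat_lit 0xffffffffffff1c451c481c471c461c0b)))) (N (N (L (nat_lit 0xffffffff132013211324132313221303)) (L (nat_lit 0xffffffff1e521e531e551e541e511e0d))) (N (L (nat_lit 0xffffffff1e201e1f1e221e211e1e1e03))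 (L (nat_lit 0)))))) (N (N (N (N (L (nat_lit 0xffffffff051105130515051405120501)) (L (nat_lit 0xffffffffffff1f101f121f131f111f01))) (N (L (nat_lit 0xffff0532053405360537053505330508)) (L (nat_lit 0xffff184e185218501853184f1851180d)))) (N (N (L (nat_lit 0xffffffffffffffff023c023e023d020c)) (L (nat_lit 0xffffffff2116211421152117212e2103))) (N (L (nat_lit 0xffffffff1e1a1e1b1e1d1e1c1e191e02)) (L (nat_lit 0))))) (N (N (N (L (nat_lit 0xffffffffffffffffffff110a112b1100)) (L (nat_lit 0xffff182c182f182d1831182e18301806))) (N (L (nat_lit 0xffffffffffff053b053a053905380509)) (L (nat_lit 0)))) (N (N (L (nat_lit 0xffffffffffffffff2008200920152001)) (L (nat_lit 0xffffffffffff1f251f271f281f261f06))) (N (L (nat_lit 0xffff1c131c141c161c181c171c151c02)) (L (nat_lit 0)))))))) (N (N (N (N (N (N (L (nat_lit 0xffffffffffffffff030e0310030f0300)) (L (nat_lit 0xffffffff1e291e2a1e2c1e2b1e281e05))) (N (L (nat_lit 0xffffffffffff0a200a690a210a1f0a03))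 (L (nat_lit 0xffffffff241424152416241824172404)))) (N (N (L (nat_lit 0xffffffffffff0249023802370236020a)) (L (nat_lit 0xffffffff1d0e1d0f1d101d111d1a1d03))) (N (L (nat_lit 0xffffffff093f09410943094209400908)) (L (nat_lit 0))))) (N (N (N (L (nat_lit 0xffffffffffff011c011d0128011b0107)) (L (nat_lit 0xffff1923192719251928192619241905))) (N (L (nat_lit 0xffffffff095609580959095a0957090d)) (L (nat_lit 0xffffffffffffffff2322232023212306)))) (N (N (L (nat_lit 0xffffffffffff032e03310330032f0308)) (L (nat_lit 0xffffffff1e4d1e4e1e501e4f1e4c1e0c))) (N (L (nat_lit 0xffffffffffff1516153b151815171503)) (L (nat_lit 0)))))) (N (N (N (N (L (nat_lit 0xffffffffffff040a040d040c040b0401)) (L (nat_lit 0xffffffff1e141e171e181e161e151e01))) (N (L (nat_lit 0xffff052c052e05300531052f052d0507)) (L (nat_lit 0xffff1a381a3a1a3c1a3b1a391a371a08)))) (N (N (L (nat_lit 0xffffffffffff022e0230022f02480209)) (L (nat_lit 0xffffffff143314341437143614351409))) (N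 (L (nat_lit 0xffffffffffff0f1f0f210f300f200f06)) (L (nat_lit 0))))) (N (N (N (L (nat_lit 0xffffffff0b140b150b170b160b790b00)) (L (nat_lit 0xffff1a251a271a291a2a1a281a261a05))) (N (L (nat_lit 0xffff0939093b093c093e093d093a0907)) (L (nat_lit 0)))) (N (N (L (nat_lit 0xffffffffffffffff1513151515141502)) (L (nat_lit 0xffffffffffffffffffff122612271208))) (N (L (nat_lit 0xffffffffffffffff2109210b210a2100)) (L (nat_lit 0))))))) (N (N (N (N (N (L (nat_lit 0xffffffffffffffffffff0e080e090e01)) (L (nat_lit 0xffffffffffff1b2b1b2c1b2e1b2d1b08))) (N (L (nat_lit 0xffffffff094c0950094e094f094d090b)) (L (nat_lit 0xffffffffffffffffffff201220132006)))) (N (N (L (nat_lit 0xffffffffffff07230734072507240708)) (L (nat_lit 0xffff230d230c230e23112310230f2302))) (N (L (nat_lit 0xffff1820182318241825182218211804)) (L (nat_lit 0))))) (N (N (N (L (nat_lit 0xffffffffffffffff0218021902170203)) (L (nat_lit 0xffff0b5a0b5b0b5e0b5f0b5d0b5c0b0e))) (N (L (nat_lit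 0xffffffff09600962096409630961090f)) (L (nat_lit 0)))) (N (N (L (nat_lit 0xffffffffffff033a0346033c033b030c)) (L (nat_lit 0xffffffff14401441144414431442140c))) (N (L (nat_lit 0xffffffff0b550b560b590b580b570b0d)) (L (nat_lit 0)))))) (N (N (N (N (L (nat_lit 0xffffffffffff031d031f0320031e0305)) (L (nat_lit 0xffffffffffffffffffffffff22112200))) (N (L (nat_lit 0xffffffff083c083d0840083f083e080a)) (L (nat_lit 0xffffffffffffffff194319421941190a)))) (N (N (L (nat_lit 0xffffffffffff0a1b0a1e0a1d0a1c0a02)) (L (nat_lit 0xffffffff1e481e491e4b1e4a1e471e0b))) (N (L (nat_lit 0xffffffffffff06160618061906170605)) (L (nat_lit 0))))) (N (N (N (L (nat_lit 0xffff0a150a160a1a0a190a180a170a01)) (L (nat_lit 0xffffffff0b430b440b450b420b410b09))) (N (L (nat_lit 0xffffffffffffffff054e054d054c050e)) (L (nat_lit 0)))) (N (N (L (nat_lit 0xffffffffffffffffffff0e120e130e06)) (L (nat_lit 0xffffffffffff1f291f2b1f2c1f2a1f07))) (N (L (nat_lit 0xffffffff210c210d210f2110210e2101))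 (L (nat_lit 0)))))))))))) Tr.N Tr.L
noncomputable def tWU_0 : Tr := (fun (N : Tr → Tr → Tr) (L : ℕ → Tr) => (N (N (N (N (N (N (N (N (N (N (N (N (L (nat_lit 0)) (L (nat_lit 0x750))) (N (L (nat_lit 0x250)) (L (nat_lit 0)))) (N (N (L (nat_lit 0x180)) (L (nat_lit 0))) (N (L (nat_lit 0x880)) (L (nat_lit 0))))) (N (N (N (L (nat_lit 0x120)) (L (nat_lit 0x1410))) (N (L (nat_lit 0x450)) (L (nat_lit 0)))) (N (N (L (nat_lit 0x5d0)) (L (nat_lit 0))) (N (L (nat_lit 0xba0)) (L (nat_lit 0)))))) (N (N (N (N (L (nat_lit 0x40)) (L (nat_lit 0x11f0))) (N (L (nat_lit 0x560)) (L (nat_lit 0)))) (N (N (L (nat_lit 0x330)) (L (nat_lit 0))) (N (L (nat_lit 0x9e0)) (L (nat_lit 0))))) (N (N (N (L (nat_lit 0x300)) (L (nat_lit 0))) (N (L (nat_lit 0x810)) (L (nat_lit 0)))) (N (N (L (nat_lit 0xd0)) (L (nat_lit 0))) (N (L (nat_lit 0xc50)) (L (nat_lit 0))))))) (N (N (N (N (N (L (nat_lit 0x20)) (L (nat_lit 0xf70))) (N (L (nat_lit 0x3b0)) (L (nat_lit 0)))) (N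 (N (L (nat_lit 0x1c0)) (L (nat_lit 0))) (N (L (nat_lit 0x9a0)) (L (nat_lit 0))))) (N (N (N (L (nat_lit 0x150)) (L (nat_lit 0x1790))) (N (L (nat_lit 0x610)) (L (nat_lit 0)))) (N (N (L (nat_lit 0xb60)) (L (nat_lit 0))) (N (L (nat_lit 0xc20)) (L (nat_lit 0)))))) (N (N (N (N (L (nat_lit 0x70)) (L (nat_lit 0x1220))) (N (L (nat_lit 0x400)) (L (nat_lit 0)))) (N (N (L (nat_lit 0x370)) (L (nat_lit 0))) (N (L (nat_lit 0x650)) (L (nat_lit 0))))) (N (N (N (L (nat_lit 0xa0)) (L (nat_lit 0))) (N (L (nat_lit 0x850)) (L (nat_lit 0)))) (N (N (L (nat_lit 0x210)) (L (nat_lit 0))) (N (L (nat_lit 0xe10)) (L (nat_lit 0)))))))) (N (L (nat_lit 0)) (N (N (N (L (nat_lit 0)) (N (N (L (nat_lit 0xf43)) (L (nat_lit 0))) (L (nat_lit 0)))) (L (nat_lit 0))) (L (nat_lit 0))))) (N (N (N (N (N (N (L (nat_lit 0)) (N (L (nat_lit 0x10e1)) (L (nat_lit 0)))) (N (N (L (nat_lit 0x9f3)) (L (nat_lit 0))) (N (L (nat_lit 0x12b5)) (L (nat_lit 0))))) (N (N (L (nat_lit 0))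 (N (L (nat_lit 0x16f5)) (L (nat_lit 0)))) (N (L (nat_lit 0)) (N (L (nat_lit 0x1a56)) (L (nat_lit 0)))))) (N (N (N (N (L (nat_lit 0x501)) (L (nat_lit 0))) (L (nat_lit 0))) (N (N (L (nat_lit 0xcd6)) (L (nat_lit 0))) (N (L (nat_lit 0x1a46)) (L (nat_lit 0))))) (N (L (nat_lit 0)) (N (L (nat_lit 0)) (N (L (nat_lit 0x17a4)) (L (nat_lit 0))))))) (N (N (N (L (nat_lit 0)) (N (N (L (nat_lit 0xc71)) (L (nat_lit 0))) (N (L (nat_lit 0x1944)) (L (nat_lit 0))))) (N (N (N (L (nat_lit 0xa85)) (L (nat_lit 0))) (L (nat_lit 0))) (L (nat_lit 0)))) (N (N (N (N (L (nat_lit 0x230)) (L (nat_lit 0))) (N (L (nat_lit 0xf91)) (L (nat_lit 0)))) (N (N (L (nat_lit 0x1213)) (L (nat_lit 0))) (L (nat_lit 0)))) (N (L (nat_lit 0)) (N (L (nat_lit 0)) (N (L (nat_lit 0x1ac1)) (L (nat_lit 0)))))))) (L (nat_lit 0)))) (N (N (N (N (N (N (N (L (nat_lit 0)) (N (L (nat_lit 0x512)) (L (nat_lit 0)))) (N (N (L (nat_lit 0x3d3)) (L (nat_lit 0))) (N (L (nat_lit 0xcf6)) (L (nat_lit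 0))))) (N (N (N (L (nat_lit 0x923)) (L (nat_lit 0x1551))) (N (L (nat_lit 0xb22)) (L (nat_lit 0)))) (N (N (L (nat_lit 0x1064)) (L (nat_lit 0))) (N (L (nat_lit 0x13c5)) (L (nat_lit 0)))))) (N (N (N (N (L (nat_lit 0x1a3)) (L (nat_lit 0))) (N (L (nat_lit 0x13e1)) (L (nat_lit 0)))) (N (N (L (nat_lit 0x874)) (L (nat_lit 0))) (N (L (nat_lit 0x12c1)) (L (nat_lit 0))))) (N (N (N (L (nat_lit 0x11d1)) (L (nat_lit 0))) (L (nat_lit 0))) (N (L (nat_lit 0)) (N (L (nat_lit 0xeb5)) (L (nat_lit 0))))))) (N (N (N (N (N (L (nat_lit 0x2e1)) (L (nat_lit 0x1a61))) (N (L (nat_lit 0x1153)) (L (nat_lit 0)))) (N (N (L (nat_lit 0x554)) (L (nat_lit 0))) (N (L (nat_lit 0xea2)) (L (nat_lit 0))))) (N (N (N (L (nat_lit 0xb51)) (L (nat_lit 0))) (N (L (nat_lit 0xec3)) (L (nat_lit 0)))) (L (nat_lit 0)))) (N (N (N (N (L (nat_lit 0x1f2)) (L (nat_lit 0x1a72))) (N (L (nat_lit 0x6b5)) (L (nat_lit 0)))) (N (N (L (nat_lit 0x602)) (L (nat_lit 0))) (N (L (nat_lit 0x1564))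 (L (nat_lit 0))))) (N (N (N (L (nat_lit 0x2b3)) (L (nat_lit 0))) (N (L (nat_lit 0xd55)) (L (nat_lit 0)))) (N (N (L (nat_lit 0xd71)) (L (nat_lit 0))) (N (L (nat_lit 0x1545)) (L (nat_lit 0)))))))) (L (nat_lit 0))) (N (N (N (L (nat_lit 0)) (N (N (L (nat_lit 0)) (N (N (L (nat_lit 0x1354)) (L (nat_lit 0))) (L (nat_lit 0)))) (N (L (nat_lit 0)) (N (L (nat_lit 0)) (N (L (nat_lit 0x1a94)) (L (nat_lit 0))))))) (N (N (N (L (nat_lit 0)) (N (N (L (nat_lit 0xaf5)) (L (nat_lit 0))) (L (nat_lit 0)))) (L (nat_lit 0))) (N (N (N (L (nat_lit 0)) (N (L (nat_lit 0x1665)) (L (nat_lit 0)))) (N (N (L (nat_lit 0x1455)) (L (nat_lit 0))) (L (nat_lit 0)))) (L (nat_lit 0))))) (L (nat_lit 0))))) (N (N (N (N (N (N (N (N (N (L (nat_lit 0x82)) (L (nat_lit 0x18c3))) (N (L (nat_lit 0x253)) (L (nat_lit 0)))) (N (N (L (nat_lit 0x184)) (L (nat_lit 0))) (N (L (nat_lit 0x881)) (L (nat_lit 0))))) (N (N (N (L (nat_lit 0x312)) (L (nat_lit 0x17c3))) (N (L (nat_lit 0x451))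 (L (nat_lit 0)))) (N (N (L (nat_lit 0x642)) (L (nat_lit 0))) (N (L (nat_lit 0xbe1)) (L (nat_lit 0)))))) (N (N (N (N (L (nat_lit 0x41)) (L (nat_lit 0x19d1))) (N (L (nat_lit 0xa44)) (L (nat_lit 0)))) (N (N (L (nat_lit 0x1350)) (L (nat_lit 0))) (N (L (nat_lit 0xb12)) (L (nat_lit 0))))) (N (N (N (L (nat_lit 0xc03)) (L (nat_lit 0))) (L (nat_lit 0))) (N (N (L (nat_lit 0x7c3)) (L (nat_lit 0))) (N (L (nat_lit 0xc51)) (L (nat_lit 0))))))) (N (N (N (N (N (L (nat_lit 0x134)) (L (nat_lit 0xff2))) (N (L (nat_lit 0x681)) (L (nat_lit 0)))) (N (N (L (nat_lit 0xd20)) (L (nat_lit 0))) (N (L (nat_lit 0xab5)) (L (nat_lit 0))))) (N (N (N (L (nat_lit 0x152)) (L (nat_lit 0))) (N (L (nat_lit 0x6d1)) (L (nat_lit 0)))) (N (N (L (nat_lit 0x1912)) (L (nat_lit 0))) (N (L (nat_lit 0x1473)) (L (nat_lit 0)))))) (N (N (N (N (L (nat_lit 0x72)) (L (nat_lit 0x14f2))) (N (L (nat_lit 0x16a0)) (L (nat_lit 0)))) (N (N (L (nat_lit 0x14b0)) (L (nat_lit 0))) (N (L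 (nat_lit 0x713)) (L (nat_lit 0))))) (N (N (N (L (nat_lit 0xc2)) (L (nat_lit 0))) (N (L (nat_lit 0x903)) (L (nat_lit 0)))) (N (N (L (nat_lit 0x483)) (L (nat_lit 0))) (N (L (nat_lit 0x11b4)) (L (nat_lit 0)))))))) (L (nat_lit 0))) (N (N (N (N (N (L (nat_lit 0)) (N (N (L (nat_lit 0xd84)) (L (nat_lit 0))) (N (L (nat_lit 0x19b4)) (L (nat_lit 0))))) (L (nat_lit 0))) (N (N (L (nat_lit 0)) (N (N (L (nat_lit 0x1292)) (L (nat_lit 0))) (L (nat_lit 0)))) (N (L (nat_lit 0)) (N (L (nat_lit 0)) (N (L (nat_lit 0x1673)) (L (nat_lit 0))))))) (N (N (N (L (nat_lit 0)) (N (N (L (nat_lit 0x8f4)) (L (nat_lit 0))) (L (nat_lit 0)))) (N (N (N (L (nat_lit 0x832)) (L (nat_lit 0))) (L (nat_lit 0))) (L (nat_lit 0)))) (N (N (N (L (nat_lit 0)) (N (L (nat_lit 0x1516)) (L (nat_lit 0)))) (N (N (L (nat_lit 0xe95)) (L (nat_lit 0))) (L (nat_lit 0)))) (L (nat_lit 0))))) (L (nat_lit 0)))) (N (N (N (N (N (N (N (L (nat_lit 0)) (N (L (nat_lit 0xdd1)) (L (nat_lit 0))))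 (N (N (L (nat_lit 0xc81)) (L (nat_lit 0))) (N (L (nat_lit 0x13b1)) (L (nat_lit 0))))) (N (N (L (nat_lit 0)) (N (L (nat_lit 0x1391)) (L (nat_lit 0)))) (N (N (L (nat_lit 0x1822)) (L (nat_lit 0))) (N (L (nat_lit 0x1951)) (L (nat_lit 0)))))) (N (N (N (N (L (nat_lit 0x573)) (L (nat_lit 0))) (L (nat_lit 0))) (N (N (L (nat_lit 0xc46)) (L (nat_lit 0))) (N (L (nat_lit 0x14d3)) (L (nat_lit 0))))) (N (L (nat_lit 0)) (N (L (nat_lit 0)) (N (L (nat_lit 0x12d6)) (L (nat_lit 0))))))) (N (N (N (L (nat_lit 0)) (N (N (L (nat_lit 0x895)) (L (nat_lit 0))) (N (L (nat_lit 0x1461)) (L (nat_lit 0))))) (N (N (N (L (nat_lit 0x974)) (L (nat_lit 0))) (N (L (nat_lit 0x1693)) (L (nat_lit 0)))) (L (nat_lit 0)))) (N (N (N (N (L (nat_lit 0x672)) (L (nat_lit 0))) (N (L (nat_lit 0xbd1)) (L (nat_lit 0)))) (N (N (L (nat_lit 0xe03)) (L (nat_lit 0))) (N (L (nat_lit 0x16e4)) (L (nat_lit 0))))) (N (N (N (L (nat_lit 0xa1)) (L (nat_lit 0))) (N (L (nat_lit 0x12a3))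 (L (nat_lit 0)))) (N (N (L (nat_lit 0xd72)) (L (nat_lit 0))) (N (L (nat_lit 0x1633)) (L (nat_lit 0)))))))) (L (nat_lit 0))) (N (N (L (nat_lit 0)) (N (N (N (L (nat_lit 0)) (N (N (L (nat_lit 0xe83)) (L (nat_lit 0))) (L (nat_lit 0)))) (L (nat_lit 0))) (N (N (N (L (nat_lit 0)) (N (L (nat_lit 0x16a3)) (L (nat_lit 0)))) (N (N (L (nat_lit 0x1521)) (L (nat_lit 0))) (L (nat_lit 0)))) (L (nat_lit 0))))) (L (nat_lit 0)))))) (N (N (N (N (N (N (N (N (N (N (L (nat_lit 0x51)) (L (nat_lit 0x7b3))) (N (L (nat_lit 0xdd0)) (L (nat_lit 0)))) (N (N (L (nat_lit 0x8b0)) (L (nat_lit 0))) (N (L (nat_lit 0x1360)) (L (nat_lit 0))))) (N (N (N (L (nat_lit 0x960)) (L (nat_lit 0x1555))) (N (L (nat_lit 0x1390)) (L (nat_lit 0)))) (N (N (L (nat_lit 0x10b0)) (L (nat_lit 0))) (N (L (nat_lit 0x19c0)) (L (nat_lit 0)))))) (N (N (N (N (L (nat_lit 0x3c0)) (L (nat_lit 0x1332))) (N (L (nat_lit 0x1770)) (L (nat_lit 0)))) (N (N (L (nat_lit 0x1200)) (L (nat_lit 0)))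 (N (L (nat_lit 0x1970)) (L (nat_lit 0))))) (N (N (N (L (nat_lit 0x11d0)) (L (nat_lit 0))) (N (L (nat_lit 0xca1)) (L (nat_lit 0)))) (N (N (L (nat_lit 0xf2)) (L (nat_lit 0))) (N (L (nat_lit 0x1640)) (L (nat_lit 0))))))) (N (N (N (N (N (L (nat_lit 0x2a0)) (L (nat_lit 0x1ad0))) (N (L (nat_lit 0x14a0)) (L (nat_lit 0)))) (N (N (L (nat_lit 0xc70)) (L (nat_lit 0))) (N (L (nat_lit 0x14c0)) (L (nat_lit 0))))) (N (N (N (L (nat_lit 0x9b0)) (L (nat_lit 0x18e2))) (N (L (nat_lit 0x17d0)) (L (nat_lit 0)))) (N (N (L (nat_lit 0xb91)) (L (nat_lit 0))) (N (L (nat_lit 0x1131)) (L (nat_lit 0)))))) (N (N (N (N (L (nat_lit 0x670)) (L (nat_lit 0x1222))) (N (L (nat_lit 0xd10)) (L (nat_lit 0)))) (N (N (L (nat_lit 0x1210)) (L (nat_lit 0))) (N (L (nat_lit 0x10f0)) (L (nat_lit 0))))) (N (N (N (L (nat_lit 0x4f0)) (L (nat_lit 0))) (N (L (nat_lit 0x1900)) (L (nat_lit 0)))) (N (N (L (nat_lit 0x1050)) (L (nat_lit 0))) (N (L (nat_lit 0x1630)) (L (nat_lit 0))))))))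 (N (L (nat_lit 0)) (N (N (N (L (nat_lit 0)) (N (N (L (nat_lit 0xe32)) (L (nat_lit 0))) (L (nat_lit 0)))) (L (nat_lit 0))) (L (nat_lit 0))))) (N (N (N (N (N (N (L (nat_lit 0)) (N (L (nat_lit 0x953)) (L (nat_lit 0)))) (N (N (L (nat_lit 0xcc4)) (L (nat_lit 0))) (N (L (nat_lit 0x1926)) (L (nat_lit 0))))) (N (N (L (nat_lit 0)) (N (L (nat_lit 0x1742)) (L (nat_lit 0)))) (N (L (nat_lit 0)) (N (L (nat_lit 0x1ab3)) (L (nat_lit 0)))))) (N (N (N (N (L (nat_lit 0x571)) (L (nat_lit 0))) (L (nat_lit 0))) (N (N (L (nat_lit 0xe42)) (L (nat_lit 0))) (L (nat_lit 0)))) (N (L (nat_lit 0)) (N (L (nat_lit 0)) (N (L (nat_lit 0x15f5)) (L (nat_lit 0))))))) (N (N (N (L (nat_lit 0)) (N (N (L (nat_lit 0xf85)) (L (nat_lit 0))) (N (L (nat_lit 0x1a15)) (L (nat_lit 0))))) (N (N (N (L (nat_lit 0xb45)) (L (nat_lit 0))) (L (nat_lit 0))) (L (nat_lit 0)))) (N (N (N (L (nat_lit 0)) (N (L (nat_lit 0x12e2)) (L (nat_lit 0)))) (N (N (L (nat_lit 0xd41)) (L (nat_lit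 0))) (L (nat_lit 0)))) (L (nat_lit 0))))) (L (nat_lit 0)))) (N (N (N (N (N (N (N (L (nat_lit 0)) (N (L (nat_lit 0xb32)) (L (nat_lit 0)))) (N (N (L (nat_lit 0x985)) (L (nat_lit 0))) (N (L (nat_lit 0xda2)) (L (nat_lit 0))))) (N (N (L (nat_lit 0)) (N (L (nat_lit 0xdc3)) (L (nat_lit 0)))) (N (N (L (nat_lit 0x1651)) (L (nat_lit 0))) (N (L (nat_lit 0x1594)) (L (nat_lit 0)))))) (N (N (N (N (L (nat_lit 0x391)) (L (nat_lit 0))) (N (L (nat_lit 0x561)) (L (nat_lit 0)))) (N (N (L (nat_lit 0xb86)) (L (nat_lit 0))) (N (L (nat_lit 0x1372)) (L (nat_lit 0))))) (N (L (nat_lit 0)) (N (L (nat_lit 0)) (N (L (nat_lit 0x1071)) (L (nat_lit 0))))))) (N (N (N (N (N (L (nat_lit 0x272)) (L (nat_lit 0x1aa3))) (N (L (nat_lit 0x14a3)) (L (nat_lit 0)))) (N (N (L (nat_lit 0x3e3)) (L (nat_lit 0))) (N (L (nat_lit 0x1273)) (L (nat_lit 0))))) (N (N (N (L (nat_lit 0x865)) (L (nat_lit 0))) (N (L (nat_lit 0x1501)) (L (nat_lit 0)))) (L (nat_lit 0)))) (N (N (N (N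 (L (nat_lit 0x414)) (L (nat_lit 0))) (N (L (nat_lit 0xa62)) (L (nat_lit 0)))) (N (N (L (nat_lit 0x9d2)) (L (nat_lit 0))) (N (L (nat_lit 0x1083)) (L (nat_lit 0))))) (N (N (N (L (nat_lit 0x6e3)) (L (nat_lit 0))) (N (L (nat_lit 0x1262)) (L (nat_lit 0)))) (N (N (L (nat_lit 0x1051)) (L (nat_lit 0))) (N (L (nat_lit 0x17b2)) (L (nat_lit 0)))))))) (L (nat_lit 0))) (N (N (N (L (nat_lit 0)) (N (N (L (nat_lit 0)) (N (N (L (nat_lit 0x332)) (L (nat_lit 0))) (L (nat_lit 0)))) (L (nat_lit 0)))) (N (N (N (L (nat_lit 0)) (N (N (L (nat_lit 0xd22)) (L (nat_lit 0))) (L (nat_lit 0)))) (L (nat_lit 0))) (N (N (N (L (nat_lit 0)) (N (L (nat_lit 0x16a1)) (L (nat_lit 0)))) (N (N (L (nat_lit 0x14b3)) (L (nat_lit 0))) (L (nat_lit 0)))) (L (nat_lit 0))))) (L (nat_lit 0))))) (N (N (N (N (N (N (N (N (N (L (nat_lit 0)) (L (nat_lit 0x18c1))) (N (L (nat_lit 0x582)) (L (nat_lit 0)))) (N (N (L (nat_lit 0x3a4)) (L (nat_lit 0))) (N (L (nat_lit 0xa55)) (L (nat_lit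 0))))) (N (N (N (L (nat_lit 0x8a4)) (L (nat_lit 0x1872))) (N (L (nat_lit 0x6c2)) (L (nat_lit 0)))) (N (N (L (nat_lit 0x1403)) (L (nat_lit 0))) (N (L (nat_lit 0xfb3)) (L (nat_lit 0)))))) (N (N (N (N (L (nat_lit 0x2f3)) (L (nat_lit 0))) (N (L (nat_lit 0x1161)) (L (nat_lit 0)))) (N (N (L (nat_lit 0x3f2)) (L (nat_lit 0))) (N (L (nat_lit 0xe63)) (L (nat_lit 0))))) (N (N (N (L (nat_lit 0xdf3)) (L (nat_lit 0))) (L (nat_lit 0))) (N (N (L (nat_lit 0x7c1)) (L (nat_lit 0))) (N (L (nat_lit 0x1173)) (L (nat_lit 0))))))) (N (N (N (N (N (L (nat_lit 0x1e2)) (L (nat_lit 0x1754))) (N (L (nat_lit 0xaa3)) (L (nat_lit 0)))) (N (N (L (nat_lit 0x1c4)) (L (nat_lit 0))) (N (L (nat_lit 0xd01)) (L (nat_lit 0))))) (N (N (N (L (nat_lit 0x324)) (L (nat_lit 0))) (N (L (nat_lit 0xe72)) (L (nat_lit 0)))) (N (N (L (nat_lit 0x1983)) (L (nat_lit 0))) (N (L (nat_lit 0x1621)) (L (nat_lit 0)))))) (N (N (N (N (L (nat_lit 0x381)) (L (nat_lit 0x1844))) (N (L (nat_lit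 0x4e1)) (L (nat_lit 0)))) (N (N (L (nat_lit 0x445)) (L (nat_lit 0))) (N (L (nat_lit 0x7a3)) (L (nat_lit 0))))) (N (N (N (L (nat_lit 0x662)) (L (nat_lit 0))) (N (L (nat_lit 0xce2)) (L (nat_lit 0)))) (N (N (L (nat_lit 0x912)) (L (nat_lit 0))) (N (L (nat_lit 0x10c1)) (L (nat_lit 0)))))))) (L (nat_lit 0))) (N (N (N (N (N (L (nat_lit 0)) (N (N (L (nat_lit 0xde3)) (L (nat_lit 0))) (N (L (nat_lit 0x883)) (L (nat_lit 0))))) (L (nat_lit 0))) (N (N (L (nat_lit 0)) (N (N (L (nat_lit 0x13d4)) (L (nat_lit 0))) (L (nat_lit 0)))) (N (L (nat_lit 0)) (N (L (nat_lit 0)) (N (L (nat_lit 0x1a33)) (L (nat_lit 0))))))) (N (N (N (L (nat_lit 0)) (N (N (L (nat_lit 0xa74)) (L (nat_lit 0))) (L (nat_lit 0)))) (L (nat_lit 0))) (N (N (N (L (nat_lit 0)) (N (L (nat_lit 0x1492)) (L (nat_lit 0)))) (N (N (L (nat_lit 0xef2)) (L (nat_lit 0))) (L (nat_lit 0)))) (L (nat_lit 0))))) (L (nat_lit 0)))) (N (N (N (N (N (N (N (L (nat_lit 0)) (N (L (nat_lit 0x1014)) (L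 (nat_lit 0)))) (N (N (L (nat_lit 0x8e4)) (L (nat_lit 0))) (N (L (nat_lit 0x1363)) (L (nat_lit 0))))) (N (N (L (nat_lit 0)) (N (L (nat_lit 0x1604)) (L (nat_lit 0)))) (N (L (nat_lit 0)) (N (L (nat_lit 0x19c3)) (L (nat_lit 0)))))) (N (N (N (N (L (nat_lit 0x473)) (L (nat_lit 0))) (L (nat_lit 0))) (N (N (L (nat_lit 0x1201)) (L (nat_lit 0))) (N (L (nat_lit 0x1976)) (L (nat_lit 0))))) (N (L (nat_lit 0)) (N (L (nat_lit 0)) (N (L (nat_lit 0x1644)) (L (nat_lit 0))))))) (N (N (N (L (nat_lit 0)) (N (N (L (nat_lit 0x9c3)) (L (nat_lit 0))) (N (L (nat_lit 0x14c2)) (L (nat_lit 0))))) (N (N (N (L (nat_lit 0xbb1)) (L (nat_lit 0))) (N (L (nat_lit 0x1891)) (L (nat_lit 0)))) (L (nat_lit 0)))) (N (N (N (N (L (nat_lit 0x6a3)) (L (nat_lit 0))) (N (L (nat_lit 0x1183)) (L (nat_lit 0)))) (N (N (L (nat_lit 0xf51)) (L (nat_lit 0))) (N (L (nat_lit 0x1882)) (L (nat_lit 0))))) (N (N (L (nat_lit 0)) (N (L (nat_lit 0x853)) (L (nat_lit 0)))) (N (L (nat_lit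 0)) (N (L (nat_lit 0x1712)) (L (nat_lit 0)))))))) (L (nat_lit 0))) (N (N (L (nat_lit 0)) (N (N (N (L (nat_lit 0)) (N (N (L (nat_lit 0xee1)) (L (nat_lit 0))) (L (nat_lit 0)))) (L (nat_lit 0))) (N (N (L (nat_lit 0)) (N (N (L (nat_lit 0x1583)) (L (nat_lit 0))) (L (nat_lit 0)))) (L (nat_lit 0))))) (L (nat_lit 0))))))) (N (N (N (N (N (N (N (N (N (N (N (L (nat_lit 0xb0)) (L (nat_lit 0x1730))) (N (L (nat_lit 0x510)) (L (nat_lit 0)))) (N (N (L (nat_lit 0x840)) (L (nat_lit 0))) (N (L (nat_lit 0xcf0)) (L (nat_lit 0))))) (N (N (N (L (nat_lit 0x820)) (L (nat_lit 0x1870))) (N (L (nat_lit 0xb20)) (L (nat_lit 0)))) (N (N (L (nat_lit 0x1400)) (L (nat_lit 0))) (N (L (nat_lit 0x13c0)) (L (nat_lit 0)))))) (N (N (N (N (L (nat_lit 0x160)) (L (nat_lit 0x19d0))) (N (L (nat_lit 0x1160)) (L (nat_lit 0)))) (N (N (L (nat_lit 0x990)) (L (nat_lit 0))) (N (L (nat_lit 0x12c0)) (L (nat_lit 0))))) (N (N (N (L (nat_lit 0xc30)) (L (nat_lit 0))) (N (L (nat_lit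 0x811)) (L (nat_lit 0)))) (N (N (L (nat_lit 0x720)) (L (nat_lit 0))) (N (L (nat_lit 0x15a0)) (L (nat_lit 0))))))) (N (N (N (N (N (L (nat_lit 0x190)) (L (nat_lit 0x1750))) (N (L (nat_lit 0xaa0)) (L (nat_lit 0)))) (N (N (L (nat_lit 0x430)) (L (nat_lit 0))) (N (L (nat_lit 0xea0)) (L (nat_lit 0))))) (N (N (N (L (nat_lit 0xb50)) (L (nat_lit 0x1803))) (N (L (nat_lit 0x1440)) (L (nat_lit 0)))) (N (N (L (nat_lit 0x1930)) (L (nat_lit 0))) (N (L (nat_lit 0x1040)) (L (nat_lit 0)))))) (N (N (N (N (L (nat_lit 0x5e0)) (L (nat_lit 0x1840))) (N (L (nat_lit 0xa60)) (L (nat_lit 0)))) (N (N (L (nat_lit 0x9d0)) (L (nat_lit 0))) (N (L (nat_lit 0xf20)) (L (nat_lit 0))))) (N (N (N (L (nat_lit 0x660)) (L (nat_lit 0))) (N (L (nat_lit 0xcb0)) (L (nat_lit 0)))) (N (N (L (nat_lit 0x910)) (L (nat_lit 0))) (N (L (nat_lit 0x1430)) (L (nat_lit 0)))))))) (N (L (nat_lit 0)) (N (N (N (L (nat_lit 0)) (N (N (L (nat_lit 0x1022)) (L (nat_lit 0))) (L (nat_lit 0))))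 (L (nat_lit 0))) (L (nat_lit 0))))) (N (N (N (N (N (N (L (nat_lit 0)) (N (L (nat_lit 0x1113)) (L (nat_lit 0)))) (N (N (L (nat_lit 0xa32)) (L (nat_lit 0))) (N (L (nat_lit 0x1421)) (L (nat_lit 0))))) (N (N (L (nat_lit 0)) (N (L (nat_lit 0x16f3)) (L (nat_lit 0)))) (N (L (nat_lit 0)) (N (L (nat_lit 0x1a54)) (L (nat_lit 0)))))) (N (N (N (N (L (nat_lit 0x420)) (L (nat_lit 0))) (L (nat_lit 0))) (N (N (L (nat_lit 0xcd3)) (L (nat_lit 0))) (N (L (nat_lit 0x1a44)) (L (nat_lit 0))))) (N (L (nat_lit 0)) (N (L (nat_lit 0)) (N (L (nat_lit 0x1483)) (L (nat_lit 0))))))) (N (N (N (L (nat_lit 0)) (N (N (L (nat_lit 0xe35)) (L (nat_lit 0))) (N (L (nat_lit 0x1a11)) (L (nat_lit 0))))) (N (N (N (L (nat_lit 0xae5)) (L (nat_lit 0))) (L (nat_lit 0))) (L (nat_lit 0)))) (N (N (N (N (L (nat_lit 0x5a2)) (L (nat_lit 0))) (N (L (nat_lit 0x12e6)) (L (nat_lit 0)))) (N (N (L (nat_lit 0x13f4)) (L (nat_lit 0))) (L (nat_lit 0)))) (N (L (nat_lit 0)) (N (L (nat_lit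 0)) (N (L (nat_lit 0xf12)) (L (nat_lit 0)))))))) (L (nat_lit 0)))) (N (N (N (N (N (N (N (L (nat_lit 0)) (N (L (nat_lit 0x951)) (L (nat_lit 0)))) (N (N (L (nat_lit 0x843)) (L (nat_lit 0))) (N (L (nat_lit 0xcf4)) (L (nat_lit 0))))) (N (N (N (L (nat_lit 0x121)) (L (nat_lit 0))) (N (L (nat_lit 0x11c2)) (L (nat_lit 0)))) (N (N (L (nat_lit 0x10b3)) (L (nat_lit 0))) (N (L (nat_lit 0x13c3)) (L (nat_lit 0)))))) (N (N (N (N (L (nat_lit 0x343)) (L (nat_lit 0))) (N (L (nat_lit 0x15d2)) (L (nat_lit 0)))) (N (N (L (nat_lit 0x995)) (L (nat_lit 0))) (N (L (nat_lit 0x12c3)) (L (nat_lit 0))))) (N (N (N (L (nat_lit 0x362)) (L (nat_lit 0))) (L (nat_lit 0))) (N (L (nat_lit 0)) (N (L (nat_lit 0x15a3)) (L (nat_lit 0))))))) (N (N (N (N (N (L (nat_lit 0x112)) (L (nat_lit 0x1a65))) (N (L (nat_lit 0x14a5)) (L (nat_lit 0)))) (N (N (L (nat_lit 0x3e5)) (L (nat_lit 0))) (N (L (nat_lit 0x1271)) (L (nat_lit 0))))) (N (N (N (L (nat_lit 0x834)) (L (nat_lit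 0))) (N (L (nat_lit 0x1001)) (L (nat_lit 0)))) (L (nat_lit 0)))) (N (N (N (N (L (nat_lit 0x232)) (L (nat_lit 0))) (N (L (nat_lit 0x6b3)) (L (nat_lit 0)))) (N (N (L (nat_lit 0x631)) (L (nat_lit 0))) (N (L (nat_lit 0x1813)) (L (nat_lit 0))))) (N (N (N (L (nat_lit 0x4f1)) (L (nat_lit 0))) (N (L (nat_lit 0xd53)) (L (nat_lit 0)))) (N (N (L (nat_lit 0xed4)) (L (nat_lit 0))) (N (L (nat_lit 0x1542)) (L (nat_lit 0)))))))) (L (nat_lit 0))) (N (N (N (L (nat_lit 0)) (N (N (L (nat_lit 0)) (N (N (L (nat_lit 0x13a4)) (L (nat_lit 0))) (L (nat_lit 0)))) (L (nat_lit 0)))) (N (N (N (L (nat_lit 0)) (N (N (L (nat_lit 0xaf3)) (L (nat_lit 0))) (L (nat_lit 0)))) (L (nat_lit 0))) (N (N (N (L (nat_lit 0)) (N (L (nat_lit 0x1663)) (L (nat_lit 0)))) (N (N (L (nat_lit 0x14b5)) (L (nat_lit 0))) (L (nat_lit 0)))) (L (nat_lit 0))))) (L (nat_lit 0))))) (N (N (N (N (N (N (N (N (N (L (nat_lit 0)) (L (nat_lit 0x751))) (N (L (nat_lit 0x2c2)) (L (nat_lit 0))))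 (N (N (L (nat_lit 0x201)) (L (nat_lit 0))) (N (L (nat_lit 0x943)) (L (nat_lit 0))))) (N (N (N (L (nat_lit 0x822)) (L (nat_lit 0x1875))) (N (L (nat_lit 0x522)) (L (nat_lit 0)))) (N (N (L (nat_lit 0xe24)) (L (nat_lit 0))) (N (L (nat_lit 0xfb5)) (L (nat_lit 0)))))) (N (N (N (N (L (nat_lit 0x141)) (L (nat_lit 0))) (N (L (nat_lit 0xb04)) (L (nat_lit 0)))) (N (N (L (nat_lit 0x333)) (L (nat_lit 0))) (N (L (nat_lit 0xe61)) (L (nat_lit 0))))) (N (N (N (L (nat_lit 0xc33)) (L (nat_lit 0))) (L (nat_lit 0))) (N (N (L (nat_lit 0xd1)) (L (nat_lit 0))) (N (L (nat_lit 0x1175)) (L (nat_lit 0))))))) (N (N (N (N (N (L (nat_lit 0x192)) (L (nat_lit 0x15b4))) (N (L (nat_lit 0xa03)) (L (nat_lit 0)))) (N (N (L (nat_lit 0xf40)) (L (nat_lit 0))) (N (L (nat_lit 0xfa3)) (L (nat_lit 0))))) (N (N (N (L (nat_lit 0x1b2)) (L (nat_lit 0))) (N (L (nat_lit 0x771)) (L (nat_lit 0)))) (N (N (L (nat_lit 0x1933)) (L (nat_lit 0))) (N (L (nat_lit 0x1042)) (L (nat_lit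 0)))))) (N (N (N (N (L (nat_lit 0x1d4)) (L (nat_lit 0x16d4))) (N (L (nat_lit 0x401)) (L (nat_lit 0)))) (N (N (L (nat_lit 0x375)) (L (nat_lit 0))) (N (L (nat_lit 0x783)) (L (nat_lit 0))))) (N (N (N (L (nat_lit 0x464)) (L (nat_lit 0))) (N (L (nat_lit 0xa12)) (L (nat_lit 0)))) (N (N (L (nat_lit 0x4c3)) (L (nat_lit 0))) (N (L (nat_lit 0xf11)) (L (nat_lit 0)))))))) (L (nat_lit 0))) (N (N (N (N (N (L (nat_lit 0)) (N (N (L (nat_lit 0xde5)) (L (nat_lit 0))) (N (L (nat_lit 0x19e4)) (L (nat_lit 0))))) (L (nat_lit 0))) (N (N (L (nat_lit 0)) (N (N (L (nat_lit 0x13d6)) (L (nat_lit 0))) (L (nat_lit 0)))) (N (L (nat_lit 0)) (N (L (nat_lit 0)) (N (L (nat_lit 0x16b2)) (L (nat_lit 0))))))) (N (N (N (L (nat_lit 0)) (N (N (L (nat_lit 0x932)) (L (nat_lit 0))) (L (nat_lit 0)))) (L (nat_lit 0))) (N (N (N (L (nat_lit 0)) (N (L (nat_lit 0x1513)) (L (nat_lit 0)))) (N (N (L (nat_lit 0xe93)) (L (nat_lit 0))) (L (nat_lit 0)))) (L (nat_lit 0))))) (L (nat_lit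 0)))) (N (N (N (N (N (N (N (L (nat_lit 0)) (N (L (nat_lit 0xf31)) (L (nat_lit 0)))) (N (N (L (nat_lit 0x8b4)) (L (nat_lit 0))) (N (L (nat_lit 0x1313)) (L (nat_lit 0))))) (N (N (L (nat_lit 0)) (N (L (nat_lit 0x1574)) (L (nat_lit 0)))) (N (N (L (nat_lit 0x1404)) (L (nat_lit 0))) (N (L (nat_lit 0x19c5)) (L (nat_lit 0)))))) (N (N (N (N (L (nat_lit 0x423)) (L (nat_lit 0))) (L (nat_lit 0))) (N (N (L (nat_lit 0x11e1)) (L (nat_lit 0))) (N (L (nat_lit 0x1532)) (L (nat_lit 0))))) (N (L (nat_lit 0)) (N (L (nat_lit 0)) (N (L (nat_lit 0x14e2)) (L (nat_lit 0))))))) (N (N (N (L (nat_lit 0)) (N (N (L (nat_lit 0x9c6)) (L (nat_lit 0))) (N (L (nat_lit 0x1463)) (L (nat_lit 0))))) (N (N (N (L (nat_lit 0x9b5)) (L (nat_lit 0))) (N (L (nat_lit 0x1851)) (L (nat_lit 0)))) (L (nat_lit 0)))) (N (N (N (N (L (nat_lit 0x4a1)) (L (nat_lit 0))) (N (L (nat_lit 0x1185)) (L (nat_lit 0)))) (N (N (L (nat_lit 0xc61)) (L (nat_lit 0))) (N (L (nat_lit 0x1885)) (L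 (nat_lit 0))))) (N (N (N (L (nat_lit 0x4f3)) (L (nat_lit 0))) (N (L (nat_lit 0x1961)) (L (nat_lit 0)))) (N (L (nat_lit 0)) (N (L (nat_lit 0x16c2)) (L (nat_lit 0)))))))) (L (nat_lit 0))) (N (N (L (nat_lit 0)) (N (N (N (L (nat_lit 0)) (N (N (L (nat_lit 0xfc2)) (L (nat_lit 0))) (L (nat_lit 0)))) (L (nat_lit 0))) (N (N (L (nat_lit 0)) (N (N (L (nat_lit 0x1585)) (L (nat_lit 0))) (L (nat_lit 0)))) (L (nat_lit 0))))) (L (nat_lit 0)))))) (N (N (N (N (N (N (N (N (N (N (L (nat_lit 0x101)) (L (nat_lit 0x10d3))) (N (L (nat_lit 0x10e0)) (L (nat_lit 0)))) (N (N (L (nat_lit 0xcc0)) (L (nat_lit 0))) (N (L (nat_lit 0x1920)) (L (nat_lit 0))))) (N (N (N (L (nat_lit 0x172)) (L (nat_lit 0x1724))) (N (L (nat_lit 0x16f0)) (L (nat_lit 0)))) (N (N (L (nat_lit 0x5d3)) (L (nat_lit 0))) (N (L (nat_lit 0xba4)) (L (nat_lit 0)))))) (N (N (N (N (L (nat_lit 0x5b0)) (L (nat_lit 0x1682))) (N (L (nat_lit 0x591)) (L (nat_lit 0)))) (N (N (L (nat_lit 0x1250))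 (L (nat_lit 0))) (N (L (nat_lit 0x9e2)) (L (nat_lit 0))))) (N (N (N (L (nat_lit 0x361)) (L (nat_lit 0))) (N (L (nat_lit 0x8c1)) (L (nat_lit 0)))) (N (N (L (nat_lit 0x533)) (L (nat_lit 0))) (N (L (nat_lit 0x1670)) (L (nat_lit 0))))))) (N (N (N (N (N (L (nat_lit 0x31)) (L (nat_lit 0xff5))) (N (L (nat_lit 0x493)) (L (nat_lit 0)))) (N (N (L (nat_lit 0x930)) (L (nat_lit 0))) (N (L (nat_lit 0x9a1)) (L (nat_lit 0))))) (N (N (N (L (nat_lit 0xae0)) (L (nat_lit 0x18b1))) (N (L (nat_lit 0x613)) (L (nat_lit 0)))) (N (N (L (nat_lit 0xf61)) (L (nat_lit 0))) (N (L (nat_lit 0xd63)) (L (nat_lit 0)))))) (N (N (N (N (L (nat_lit 0x6f0)) (L (nat_lit 0x14f5))) (N (L (nat_lit 0x1510)) (L (nat_lit 0)))) (N (N (L (nat_lit 0xe90)) (L (nat_lit 0))) (N (L (nat_lit 0x654)) (L (nat_lit 0))))) (N (N (N (L (nat_lit 0xa3)) (L (nat_lit 0))) (N (L (nat_lit 0x905)) (L (nat_lit 0)))) (N (N (L (nat_lit 0x293)) (L (nat_lit 0))) (N (L (nat_lit 0x1ac0)) (L (nat_lit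 0)))))))) (L (nat_lit 0))) (N (N (N (N (N (L (nat_lit 0)) (N (N (L (nat_lit 0xd35)) (L (nat_lit 0))) (N (L (nat_lit 0x1924)) (L (nat_lit 0))))) (N (N (L (nat_lit 0)) (N (L (nat_lit 0x1394)) (L (nat_lit 0)))) (L (nat_lit 0)))) (N (N (L (nat_lit 0)) (N (N (L (nat_lit 0x1253)) (L (nat_lit 0))) (L (nat_lit 0)))) (N (L (nat_lit 0)) (N (L (nat_lit 0)) (N (L (nat_lit 0x1671)) (L (nat_lit 0))))))) (N (N (N (L (nat_lit 0)) (N (N (L (nat_lit 0x8f5)) (L (nat_lit 0))) (L (nat_lit 0)))) (N (N (N (L (nat_lit 0xbf1)) (L (nat_lit 0))) (L (nat_lit 0))) (L (nat_lit 0)))) (N (N (N (L (nat_lit 0)) (N (L (nat_lit 0x1343)) (L (nat_lit 0)))) (N (N (L (nat_lit 0xd94)) (L (nat_lit 0))) (L (nat_lit 0)))) (L (nat_lit 0))))) (L (nat_lit 0)))) (N (N (N (N (N (N (N (L (nat_lit 0)) (N (L (nat_lit 0xbc4)) (L (nat_lit 0)))) (N (N (L (nat_lit 0xc11)) (L (nat_lit 0))) (N (L (nat_lit 0x13b6)) (L (nat_lit 0))))) (N (N (L (nat_lit 0)) (N (L (nat_lit 0xfd3)) (L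 (nat_lit 0)))) (N (N (L (nat_lit 0x17e2)) (L (nat_lit 0))) (N (L (nat_lit 0x1991)) (L (nat_lit 0)))))) (N (N (N (N (L (nat_lit 0x3c1)) (L (nat_lit 0))) (L (nat_lit 0))) (N (N (L (nat_lit 0xb82)) (L (nat_lit 0))) (N (L (nat_lit 0x14d1)) (L (nat_lit 0))))) (N (L (nat_lit 0)) (N (L (nat_lit 0)) (N (L (nat_lit 0x1073)) (L (nat_lit 0))))))) (N (N (N (N (N (L (nat_lit 0)) (L (nat_lit 0x1ad3))) (N (L (nat_lit 0xa02)) (L (nat_lit 0)))) (N (N (L (nat_lit 0x432)) (L (nat_lit 0))) (N (L (nat_lit 0x1322)) (L (nat_lit 0))))) (N (N (N (L (nat_lit 0x976)) (L (nat_lit 0))) (N (L (nat_lit 0x17d5)) (L (nat_lit 0)))) (L (nat_lit 0)))) (N (N (N (N (L (nat_lit 0x622)) (L (nat_lit 0))) (N (L (nat_lit 0xac2)) (L (nat_lit 0)))) (N (N (L (nat_lit 0xe01)) (L (nat_lit 0))) (N (L (nat_lit 0x10f3)) (L (nat_lit 0))))) (N (N (N (L (nat_lit 0x792)) (L (nat_lit 0))) (N (L (nat_lit 0x12a1)) (L (nat_lit 0)))) (N (N (L (nat_lit 0x10a3)) (L (nat_lit 0))) (N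 (L (nat_lit 0x17f2)) (L (nat_lit 0)))))))) (L (nat_lit 0))) (N (N (L (nat_lit 0)) (N (N (N (L (nat_lit 0)) (N (N (L (nat_lit 0xe81)) (L (nat_lit 0))) (L (nat_lit 0)))) (L (nat_lit 0))) (N (N (N (L (nat_lit 0)) (N (L (nat_lit 0x1702)) (L (nat_lit 0)))) (N (N (L (nat_lit 0x15e2)) (L (nat_lit 0))) (L (nat_lit 0)))) (L (nat_lit 0))))) (L (nat_lit 0))))) (N (N (N (N (N (N (N (N (L (nat_lit 0)) (N (L (nat_lit 0x4d2)) (L (nat_lit 0)))) (N (N (L (nat_lit 0x3d5)) (L (nat_lit 0))) (N (L (nat_lit 0xe51)) (L (nat_lit 0))))) (N (N (N (L (nat_lit 0x8d2)) (L (nat_lit 0x18a2))) (N (L (nat_lit 0x702)) (L (nat_lit 0)))) (N (N (L (nat_lit 0x1782)) (L (nat_lit 0))) (N (L (nat_lit 0xfe4)) (L (nat_lit 0)))))) (N (N (N (N (L (nat_lit 0x163)) (L (nat_lit 0))) (N (L (nat_lit 0x11a1)) (L (nat_lit 0)))) (N (N (L (nat_lit 0x5f1)) (L (nat_lit 0))) (N (L (nat_lit 0xf02)) (L (nat_lit 0))))) (N (N (N (L (nat_lit 0x1191)) (L (nat_lit 0))) (L (nat_lit 0)))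 (N (L (nat_lit 0)) (N (L (nat_lit 0xdb2)) (L (nat_lit 0))))))) (N (N (N (N (N (L (nat_lit 0x274)) (L (nat_lit 0x1752))) (N (L (nat_lit 0x1123)) (L (nat_lit 0)))) (N (N (L (nat_lit 0x244)) (L (nat_lit 0))) (N (L (nat_lit 0xd03)) (L (nat_lit 0))))) (N (N (N (L (nat_lit 0x351)) (L (nat_lit 0))) (N (L (nat_lit 0xec5)) (L (nat_lit 0)))) (L (nat_lit 0)))) (N (N (N (N (L (nat_lit 0x5e2)) (L (nat_lit 0x1864))) (N (L (nat_lit 0x694)) (L (nat_lit 0)))) (N (N (L (nat_lit 0x443)) (L (nat_lit 0))) (N (L (nat_lit 0xf24)) (L (nat_lit 0))))) (N (N (N (L (nat_lit 0x762)) (L (nat_lit 0))) (N (L (nat_lit 0xcb2)) (L (nat_lit 0)))) (N (N (L (nat_lit 0xad4)) (L (nat_lit 0))) (N (L (nat_lit 0x1435)) (L (nat_lit 0)))))))) (L (nat_lit 0))) (N (N (N (L (nat_lit 0)) (N (N (L (nat_lit 0)) (N (N (L (nat_lit 0x1301)) (L (nat_lit 0))) (L (nat_lit 0)))) (N (L (nat_lit 0)) (N (L (nat_lit 0)) (N (L (nat_lit 0x1a91)) (L (nat_lit 0))))))) (N (N (N (L (nat_lit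 0)) (N (N (L (nat_lit 0xa91)) (L (nat_lit 0))) (L (nat_lit 0)))) (L (nat_lit 0))) (N (N (N (L (nat_lit 0)) (N (L (nat_lit 0x15c5)) (L (nat_lit 0)))) (N (N (L (nat_lit 0x12f1)) (L (nat_lit 0))) (L (nat_lit 0)))) (L (nat_lit 0))))) (L (nat_lit 0)))) (N (N (N (N (N (N (N (L (nat_lit 0)) (N (L (nat_lit 0x1091)) (L (nat_lit 0)))) (N (N (L (nat_lit 0x9f5)) (L (nat_lit 0))) (N (L (nat_lit 0x1242)) (L (nat_lit 0))))) (N (N (L (nat_lit 0)) (N (L (nat_lit 0x1763)) (L (nat_lit 0)))) (N (L (nat_lit 0)) (N (L (nat_lit 0x1a26)) (L (nat_lit 0)))))) (N (N (N (N (L (nat_lit 0x5b3)) (L (nat_lit 0))) (L (nat_lit 0))) (N (N (L (nat_lit 0xc94)) (L (nat_lit 0))) (N (L (nat_lit 0x1974)) (L (nat_lit 0))))) (N (L (nat_lit 0)) (N (L (nat_lit 0)) (N (L (nat_lit 0x1642)) (L (nat_lit 0))))))) (N (N (N (L (nat_lit 0)) (N (N (L (nat_lit 0xb74)) (L (nat_lit 0))) (N (L (nat_lit 0x1941)) (L (nat_lit 0))))) (N (N (N (L (nat_lit 0xa21)) (L (nat_lit 0))) (N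 (L (nat_lit 0x17d1)) (L (nat_lit 0)))) (L (nat_lit 0)))) (N (N (N (N (L (nat_lit 0x6f2)) (L (nat_lit 0))) (N (L (nat_lit 0xd13)) (L (nat_lit 0)))) (N (N (L (nat_lit 0x1212)) (L (nat_lit 0))) (N (L (nat_lit 0x18d2)) (L (nat_lit 0))))) (N (L (nat_lit 0)) (N (L (nat_lit 0)) (N (L (nat_lit 0x1a83)) (L (nat_lit 0)))))))) (L (nat_lit 0))) (N (N (L (nat_lit 0)) (N (N (N (L (nat_lit 0)) (N (N (L (nat_lit 0xf45)) (L (nat_lit 0))) (L (nat_lit 0)))) (L (nat_lit 0))) (L (nat_lit 0)))) (L (nat_lit 0))))))))) Tr.N Tr.L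
noncomputable def tWU_1 : Tr := (fun (N : Tr → Tr → Tr) (L : ℕ → Tr) => (N (N (N (N (N (N (N (N (N (N (N (N (L (nat_lit 0x50)) (L (nat_lit 0x7e0))) (N (L (nat_lit 0x580)) (L (nat_lit 0)))) (N (N (L (nat_lit 0x3a0)) (L (nat_lit 0))) (N (L (nat_lit 0xa50)) (L (nat_lit 0))))) (N (N (N (L (nat_lit 0x310)) (L (nat_lit 0x1720))) (N (L (nat_lit 0x6c0)) (L (nat_lit 0)))) (N (N (L (nat_lit 0x740)) (L (nat_lit 0))) (N (L (nat_lit 0xfb0)) (L (nat_lit 0)))))) (N (N (N (N (L (nat_lit 0x140)) (L (nat_lit 0x1680))) (N (L (nat_lit 0xa40)) (L (nat_lit 0)))) (N (N (L (nat_lit 0x5f0)) (L (nat_lit 0))) (N (L (nat_lit 0xe60)) (L (nat_lit 0))))) (N (N (N (L (nat_lit 0x5c0)) (L (nat_lit 0))) (N (L (nat_lit 0xca0)) (L (nat_lit 0)))) (N (N (L (nat_lit 0x2d0)) (L (nat_lit 0))) (N (L (nat_lit 0xdb0)) (L (nat_lit 0))))))) (N (N (N (N (N (L (nat_lit 0x110)) (L (nat_lit 0x1100))) (N (L (nat_lit 0x680)) (L (nat_lit 0)))) (N (N (L (nat_lit 0x550)) (L (nat_lit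 0))) (N (L (nat_lit 0xfa0)) (L (nat_lit 0))))) (N (N (N (L (nat_lit 0x320)) (L (nat_lit 0x18b0))) (N (L (nat_lit 0x770)) (L (nat_lit 0)))) (N (N (L (nat_lit 0xf60)) (L (nat_lit 0))) (N (L (nat_lit 0xd60)) (L (nat_lit 0)))))) (N (N (N (N (L (nat_lit 0x1d0)) (L (nat_lit 0x14f0))) (N (L (nat_lit 0x690)) (L (nat_lit 0)))) (N (N (L (nat_lit 0x600)) (L (nat_lit 0))) (N (L (nat_lit 0x780)) (L (nat_lit 0))))) (N (N (N (L (nat_lit 0x260)) (L (nat_lit 0))) (N (L (nat_lit 0xa10)) (L (nat_lit 0)))) (N (N (L (nat_lit 0x480)) (L (nat_lit 0))) (N (L (nat_lit 0xf10)) (L (nat_lit 0)))))))) (N (L (nat_lit 0)) (N (N (N (L (nat_lit 0)) (N (N (L (nat_lit 0x1021)) (L (nat_lit 0))) (L (nat_lit 0)))) (L (nat_lit 0))) (L (nat_lit 0))))) (N (N (N (N (N (N (L (nat_lit 0)) (N (L (nat_lit 0x10e2)) (L (nat_lit 0)))) (N (N (L (nat_lit 0xa34)) (L (nat_lit 0))) (N (L (nat_lit 0x12b3)) (L (nat_lit 0))))) (N (N (L (nat_lit 0)) (N (L (nat_lit 0x16f1)) (L (nat_lit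 0)))) (N (L (nat_lit 0)) (N (L (nat_lit 0x1a55)) (L (nat_lit 0)))))) (N (N (N (N (L (nat_lit 0x543)) (L (nat_lit 0))) (L (nat_lit 0))) (N (N (L (nat_lit 0xcd1)) (L (nat_lit 0))) (N (L (nat_lit 0x1a45)) (L (nat_lit 0))))) (N (L (nat_lit 0)) (N (L (nat_lit 0)) (N (L (nat_lit 0x1482)) (L (nat_lit 0))))))) (N (N (N (L (nat_lit 0)) (N (N (L (nat_lit 0xc72)) (L (nat_lit 0))) (N (L (nat_lit 0x19f2)) (L (nat_lit 0))))) (N (N (N (L (nat_lit 0xa84)) (L (nat_lit 0))) (L (nat_lit 0))) (L (nat_lit 0)))) (N (N (N (N (L (nat_lit 0x382)) (L (nat_lit 0))) (N (L (nat_lit 0xf94)) (L (nat_lit 0)))) (N (N (L (nat_lit 0x13f2)) (L (nat_lit 0))) (L (nat_lit 0)))) (N (L (nat_lit 0)) (N (L (nat_lit 0)) (N (L (nat_lit 0x1ac2)) (L (nat_lit 0)))))))) (L (nat_lit 0)))) (N (N (N (N (N (N (N (L (nat_lit 0)) (N (L (nat_lit 0x952)) (L (nat_lit 0)))) (N (N (L (nat_lit 0x845)) (L (nat_lit 0))) (N (L (nat_lit 0xcf2)) (L (nat_lit 0))))) (N (N (N (L (nat_lit 0x963))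 (L (nat_lit 0))) (N (L (nat_lit 0x11c3)) (L (nat_lit 0)))) (N (N (L (nat_lit 0x1061)) (L (nat_lit 0))) (N (L (nat_lit 0x13c4)) (L (nat_lit 0)))))) (N (N (N (N (L (nat_lit 0x345)) (L (nat_lit 0))) (N (L (nat_lit 0x15d4)) (L (nat_lit 0)))) (N (N (L (nat_lit 0x991)) (L (nat_lit 0))) (N (L (nat_lit 0x12c2)) (L (nat_lit 0))))) (N (N (N (L (nat_lit 0x11d2)) (L (nat_lit 0))) (L (nat_lit 0))) (N (L (nat_lit 0)) (N (L (nat_lit 0xeb3)) (L (nat_lit 0))))))) (N (N (N (N (N (L (nat_lit 0x2e2)) (L (nat_lit 0x1a66))) (N (L (nat_lit 0x1283)) (L (nat_lit 0)))) (N (N (L (nat_lit 0x552)) (L (nat_lit 0))) (N (L (nat_lit 0xea3)) (L (nat_lit 0))))) (N (N (N (L (nat_lit 0xb52)) (L (nat_lit 0))) (N (L (nat_lit 0x1004)) (L (nat_lit 0)))) (L (nat_lit 0)))) (N (N (N (N (L (nat_lit 0x231)) (L (nat_lit 0x1a73))) (N (L (nat_lit 0x6b1)) (L (nat_lit 0)))) (N (N (L (nat_lit 0x635)) (L (nat_lit 0))) (N (L (nat_lit 0x1563)) (L (nat_lit 0))))) (N (N (N (L (nat_lit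 0x2b2)) (L (nat_lit 0))) (N (L (nat_lit 0xd51)) (L (nat_lit 0)))) (N (N (L (nat_lit 0xed5)) (L (nat_lit 0))) (N (L (nat_lit 0x1544)) (L (nat_lit 0)))))))) (L (nat_lit 0))) (N (N (N (L (nat_lit 0)) (N (N (L (nat_lit 0)) (N (N (L (nat_lit 0x1352)) (L (nat_lit 0))) (L (nat_lit 0)))) (N (L (nat_lit 0)) (N (L (nat_lit 0)) (N (L (nat_lit 0x12d3)) (L (nat_lit 0))))))) (N (N (N (L (nat_lit 0)) (N (N (L (nat_lit 0xaf4)) (L (nat_lit 0))) (L (nat_lit 0)))) (L (nat_lit 0))) (N (N (N (L (nat_lit 0)) (N (L (nat_lit 0x1661)) (L (nat_lit 0)))) (N (N (L (nat_lit 0x1453)) (L (nat_lit 0))) (L (nat_lit 0)))) (L (nat_lit 0))))) (L (nat_lit 0))))) (N (N (N (N (N (N (N (N (N (L (nat_lit 0xe1)) (L (nat_lit 0x18f2))) (N (L (nat_lit 0x2c1)) (L (nat_lit 0)))) (N (N (L (nat_lit 0x183)) (L (nat_lit 0))) (N (L (nat_lit 0x944)) (L (nat_lit 0))))) (N (N (N (L (nat_lit 0x802)) (L (nat_lit 0x17c1))) (N (L (nat_lit 0x523)) (L (nat_lit 0)))) (N (N (L (nat_lit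 0x741)) (L (nat_lit 0))) (N (L (nat_lit 0xbe3)) (L (nat_lit 0)))))) (N (N (N (N (L (nat_lit 0x61)) (L (nat_lit 0))) (N (L (nat_lit 0xb05)) (L (nat_lit 0)))) (N (N (L (nat_lit 0x334)) (L (nat_lit 0))) (N (L (nat_lit 0xb13)) (L (nat_lit 0))))) (N (N (N (L (nat_lit 0xc35)) (L (nat_lit 0))) (L (nat_lit 0))) (N (N (L (nat_lit 0x7f2)) (L (nat_lit 0))) (N (L (nat_lit 0xc54)) (L (nat_lit 0))))))) (N (N (N (N (N (L (nat_lit 0x133)) (L (nat_lit 0x1101))) (N (L (nat_lit 0xa01)) (L (nat_lit 0)))) (N (N (L (nat_lit 0xfc0)) (L (nat_lit 0))) (N (L (nat_lit 0xab4)) (L (nat_lit 0))))) (N (N (N (L (nat_lit 0x1b1)) (L (nat_lit 0))) (N (L (nat_lit 0x6d3)) (L (nat_lit 0)))) (N (N (L (nat_lit 0x1931)) (L (nat_lit 0))) (N (L (nat_lit 0x1041)) (L (nat_lit 0)))))) (N (N (N (N (L (nat_lit 0x91)) (L (nat_lit 0x16d6))) (N (L (nat_lit 0x405)) (L (nat_lit 0)))) (N (N (L (nat_lit 0x1520)) (L (nat_lit 0))) (N (L (nat_lit 0x712)) (L (nat_lit 0))))) (N (N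 (N (L (nat_lit 0x261)) (L (nat_lit 0))) (N (L (nat_lit 0xa14)) (L (nat_lit 0)))) (N (N (L (nat_lit 0x482)) (L (nat_lit 0))) (N (L (nat_lit 0x11b3)) (L (nat_lit 0)))))))) (L (nat_lit 0))) (N (N (N (N (N (L (nat_lit 0)) (N (N (L (nat_lit 0xd82)) (L (nat_lit 0))) (N (L (nat_lit 0x19b5)) (L (nat_lit 0))))) (L (nat_lit 0))) (N (N (L (nat_lit 0)) (N (N (L (nat_lit 0x1294)) (L (nat_lit 0))) (L (nat_lit 0)))) (N (L (nat_lit 0)) (N (L (nat_lit 0)) (N (L (nat_lit 0x16b5)) (L (nat_lit 0))))))) (N (N (N (L (nat_lit 0)) (N (N (L (nat_lit 0x931)) (L (nat_lit 0))) (L (nat_lit 0)))) (N (N (N (L (nat_lit 0xae3)) (L (nat_lit 0))) (L (nat_lit 0))) (L (nat_lit 0)))) (N (N (N (L (nat_lit 0)) (N (L (nat_lit 0x1511)) (L (nat_lit 0)))) (N (N (L (nat_lit 0xe91)) (L (nat_lit 0))) (L (nat_lit 0)))) (L (nat_lit 0))))) (L (nat_lit 0)))) (N (N (N (N (N (N (N (L (nat_lit 0)) (N (L (nat_lit 0xdd3)) (L (nat_lit 0)))) (N (N (L (nat_lit 0xc82)) (L (nat_lit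 0))) (N (L (nat_lit 0x1314)) (L (nat_lit 0))))) (N (N (L (nat_lit 0)) (N (L (nat_lit 0x1392)) (L (nat_lit 0)))) (N (N (L (nat_lit 0x641)) (L (nat_lit 0))) (N (L (nat_lit 0x1952)) (L (nat_lit 0)))))) (N (N (N (N (L (nat_lit 0x421)) (L (nat_lit 0))) (L (nat_lit 0))) (N (N (L (nat_lit 0xc44)) (L (nat_lit 0))) (N (L (nat_lit 0x1531)) (L (nat_lit 0))))) (N (L (nat_lit 0)) (N (L (nat_lit 0)) (N (L (nat_lit 0x14e6)) (L (nat_lit 0))))))) (N (N (N (L (nat_lit 0)) (N (N (L (nat_lit 0x893)) (L (nat_lit 0))) (N (L (nat_lit 0x1462)) (L (nat_lit 0))))) (N (N (N (L (nat_lit 0x9b6)) (L (nat_lit 0))) (N (L (nat_lit 0x1691)) (L (nat_lit 0)))) (L (nat_lit 0)))) (N (N (N (N (L (nat_lit 0x4a3)) (L (nat_lit 0))) (N (L (nat_lit 0xbd4)) (L (nat_lit 0)))) (N (N (L (nat_lit 0xc64)) (L (nat_lit 0))) (N (L (nat_lit 0x16e3)) (L (nat_lit 0))))) (N (N (N (L (nat_lit 0x462)) (L (nat_lit 0))) (N (L (nat_lit 0x1901)) (L (nat_lit 0)))) (N (L (nat_lit 0)) (N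 (L (nat_lit 0x16c5)) (L (nat_lit 0)))))))) (L (nat_lit 0))) (N (N (L (nat_lit 0)) (N (N (N (L (nat_lit 0)) (N (N (L (nat_lit 0xfc5)) (L (nat_lit 0))) (L (nat_lit 0)))) (L (nat_lit 0))) (N (N (L (nat_lit 0)) (N (N (L (nat_lit 0x1523)) (L (nat_lit 0))) (L (nat_lit 0)))) (L (nat_lit 0))))) (L (nat_lit 0)))))) (N (N (N (N (N (N (N (N (N (N (L (nat_lit 0xb2)) (L (nat_lit 0x7e2))) (N (L (nat_lit 0x1010)) (L (nat_lit 0)))) (N (N (L (nat_lit 0x9f0)) (L (nat_lit 0))) (N (L (nat_lit 0x12b0)) (L (nat_lit 0))))) (N (N (N (L (nat_lit 0x174)) (L (nat_lit 0x1553))) (N (L (nat_lit 0x1600)) (L (nat_lit 0)))) (N (N (L (nat_lit 0x17e0)) (L (nat_lit 0))) (N (L (nat_lit 0x1a50)) (L (nat_lit 0)))))) (N (N (N (N (L (nat_lit 0x470)) (L (nat_lit 0x1683))) (N (L (nat_lit 0x594)) (L (nat_lit 0)))) (N (N (L (nat_lit 0xcd0)) (L (nat_lit 0))) (N (L (nat_lit 0x1a40)) (L (nat_lit 0))))) (N (N (N (L (nat_lit 0x364)) (L (nat_lit 0))) (N (L (nat_lit 0x1232))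 (L (nat_lit 0)))) (N (N (L (nat_lit 0x2d3)) (L (nat_lit 0))) (N (L (nat_lit 0x1480)) (L (nat_lit 0))))))) (N (N (N (N (N (L (nat_lit 0x21)) (L (nat_lit 0xf71))) (N (L (nat_lit 0x3b2)) (L (nat_lit 0)))) (N (N (L (nat_lit 0xf80)) (L (nat_lit 0))) (N (L (nat_lit 0x19f0)) (L (nat_lit 0))))) (N (N (N (L (nat_lit 0xa20)) (L (nat_lit 0x1791))) (N (L (nat_lit 0x1850)) (L (nat_lit 0)))) (N (N (L (nat_lit 0xb93)) (L (nat_lit 0))) (N (L (nat_lit 0xd61)) (L (nat_lit 0)))))) (N (N (N (N (L (nat_lit 0x5a0)) (L (nat_lit 0x1383))) (N (L (nat_lit 0x12e0)) (L (nat_lit 0)))) (N (N (L (nat_lit 0xd40)) (L (nat_lit 0))) (N (L (nat_lit 0x1880)) (L (nat_lit 0))))) (N (N (N (L (nat_lit 0x790)) (L (nat_lit 0))) (N (L (nat_lit 0x851)) (L (nat_lit 0)))) (N (N (L (nat_lit 0x213)) (L (nat_lit 0))) (N (L (nat_lit 0x1710)) (L (nat_lit 0)))))))) (L (nat_lit 0))) (N (N (N (N (N (N (L (nat_lit 0)) (N (L (nat_lit 0xf32)) (L (nat_lit 0)))) (N (N (L (nat_lit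 0xd36)) (L (nat_lit 0))) (N (L (nat_lit 0x1922)) (L (nat_lit 0))))) (N (N (L (nat_lit 0)) (N (L (nat_lit 0xb23)) (L (nat_lit 0)))) (L (nat_lit 0)))) (N (N (N (N (L (nat_lit 0x502)) (L (nat_lit 0))) (L (nat_lit 0))) (N (N (L (nat_lit 0x1254)) (L (nat_lit 0))) (L (nat_lit 0)))) (N (L (nat_lit 0)) (N (L (nat_lit 0)) (N (L (nat_lit 0x15f2)) (L (nat_lit 0))))))) (N (N (N (L (nat_lit 0)) (N (N (L (nat_lit 0xf81)) (L (nat_lit 0))) (N (L (nat_lit 0x9a3)) (L (nat_lit 0))))) (N (N (N (L (nat_lit 0xb44)) (L (nat_lit 0))) (L (nat_lit 0))) (L (nat_lit 0)))) (N (N (N (L (nat_lit 0)) (N (L (nat_lit 0x1346)) (L (nat_lit 0)))) (N (N (L (nat_lit 0xd43)) (L (nat_lit 0))) (L (nat_lit 0)))) (L (nat_lit 0))))) (L (nat_lit 0)))) (N (N (N (N (N (N (N (L (nat_lit 0)) (N (L (nat_lit 0xbc5)) (L (nat_lit 0)))) (N (N (L (nat_lit 0x983)) (L (nat_lit 0))) (N (L (nat_lit 0xda4)) (L (nat_lit 0))))) (N (N (L (nat_lit 0)) (N (L (nat_lit 0xfd4)) (L (nat_lit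 0)))) (N (N (L (nat_lit 0x1652)) (L (nat_lit 0))) (N (L (nat_lit 0x1593)) (L (nat_lit 0)))))) (N (N (N (N (L (nat_lit 0x393)) (L (nat_lit 0))) (N (L (nat_lit 0x13e2)) (L (nat_lit 0)))) (N (N (L (nat_lit 0xb84)) (L (nat_lit 0))) (N (L (nat_lit 0x1373)) (L (nat_lit 0))))) (N (L (nat_lit 0)) (N (L (nat_lit 0)) (N (L (nat_lit 0x1074)) (L (nat_lit 0))))))) (N (N (N (N (N (L (nat_lit 0)) (L (nat_lit 0x1ad2))) (N (L (nat_lit 0x1611)) (L (nat_lit 0)))) (N (N (L (nat_lit 0x431)) (L (nat_lit 0))) (N (L (nat_lit 0x1321)) (L (nat_lit 0))))) (N (N (N (L (nat_lit 0x864)) (L (nat_lit 0))) (N (L (nat_lit 0x1502)) (L (nat_lit 0)))) (L (nat_lit 0)))) (N (N (N (N (L (nat_lit 0x621)) (L (nat_lit 0))) (N (L (nat_lit 0xac5)) (L (nat_lit 0)))) (N (N (L (nat_lit 0x9d5)) (L (nat_lit 0))) (N (L (nat_lit 0x1081)) (L (nat_lit 0))))) (N (N (N (L (nat_lit 0x794)) (L (nat_lit 0))) (N (L (nat_lit 0x1263)) (L (nat_lit 0)))) (N (N (L (nat_lit 0x10a4)) (L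 (nat_lit 0))) (N (L (nat_lit 0x17f1)) (L (nat_lit 0)))))))) (L (nat_lit 0))) (N (N (L (nat_lit 0)) (N (N (N (L (nat_lit 0)) (N (N (L (nat_lit 0xd23)) (L (nat_lit 0))) (L (nat_lit 0)))) (L (nat_lit 0))) (N (N (N (L (nat_lit 0)) (N (L (nat_lit 0x1704)) (L (nat_lit 0)))) (N (N (L (nat_lit 0x15e4)) (L (nat_lit 0))) (L (nat_lit 0)))) (L (nat_lit 0))))) (L (nat_lit 0))))) (N (N (N (N (N (N (N (N (L (nat_lit 0)) (N (L (nat_lit 0x4d1)) (L (nat_lit 0)))) (N (N (L (nat_lit 0x3a2)) (L (nat_lit 0))) (N (L (nat_lit 0xa53)) (L (nat_lit 0))))) (N (N (N (L (nat_lit 0x8a3)) (L (nat_lit 0x18a3))) (N (L (nat_lit 0x703)) (L (nat_lit 0)))) (N (N (L (nat_lit 0x1781)) (L (nat_lit 0))) (N (L (nat_lit 0xfe5)) (L (nat_lit 0)))))) (N (N (N (N (L (nat_lit 0x164)) (L (nat_lit 0))) (N (L (nat_lit 0x1162)) (L (nat_lit 0)))) (N (N (L (nat_lit 0x3f4)) (L (nat_lit 0))) (N (L (nat_lit 0xf01)) (L (nat_lit 0))))) (N (N (N (L (nat_lit 0x1141)) (L (nat_lit 0)))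 (L (nat_lit 0))) (N (L (nat_lit 0)) (N (L (nat_lit 0xdb5)) (L (nat_lit 0))))))) (N (N (N (N (N (L (nat_lit 0x223)) (L (nat_lit 0x1753))) (N (L (nat_lit 0x1124)) (L (nat_lit 0)))) (N (N (L (nat_lit 0x245)) (L (nat_lit 0))) (N (L (nat_lit 0xd02)) (L (nat_lit 0))))) (N (N (N (L (nat_lit 0x323)) (L (nat_lit 0))) (N (L (nat_lit 0x1441)) (L (nat_lit 0)))) (N (L (nat_lit 0)) (N (L (nat_lit 0x1471)) (L (nat_lit 0)))))) (N (N (N (N (L (nat_lit 0x5e3)) (L (nat_lit 0x1841))) (N (L (nat_lit 0x4e3)) (L (nat_lit 0)))) (N (N (L (nat_lit 0x441)) (L (nat_lit 0))) (N (L (nat_lit 0x7a2)) (L (nat_lit 0))))) (N (N (N (L (nat_lit 0x763)) (L (nat_lit 0))) (N (L (nat_lit 0xce3)) (L (nat_lit 0)))) (N (N (L (nat_lit 0xad5)) (L (nat_lit 0))) (N (L (nat_lit 0x10c2)) (L (nat_lit 0)))))))) (L (nat_lit 0))) (N (N (N (N (N (L (nat_lit 0)) (N (N (L (nat_lit 0x842)) (L (nat_lit 0))) (L (nat_lit 0)))) (L (nat_lit 0))) (N (N (L (nat_lit 0)) (N (N (L (nat_lit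 0x1306)) (L (nat_lit 0))) (L (nat_lit 0)))) (N (L (nat_lit 0)) (N (L (nat_lit 0)) (N (L (nat_lit 0x1a35)) (L (nat_lit 0))))))) (N (N (N (L (nat_lit 0)) (N (N (L (nat_lit 0xa72)) (L (nat_lit 0))) (L (nat_lit 0)))) (L (nat_lit 0))) (N (N (N (L (nat_lit 0)) (N (L (nat_lit 0x1491)) (L (nat_lit 0)))) (N (N (L (nat_lit 0x12f6)) (L (nat_lit 0))) (L (nat_lit 0)))) (L (nat_lit 0))))) (L (nat_lit 0)))) (N (N (N (N (N (N (N (L (nat_lit 0)) (N (L (nat_lit 0x1013)) (L (nat_lit 0)))) (N (N (L (nat_lit 0x8e2)) (L (nat_lit 0))) (N (L (nat_lit 0x1241)) (L (nat_lit 0))))) (N (N (L (nat_lit 0)) (N (L (nat_lit 0x1602)) (L (nat_lit 0)))) (N (L (nat_lit 0)) (N (L (nat_lit 0x1a21)) (L (nat_lit 0)))))) (N (N (N (N (L (nat_lit 0x4b1)) (L (nat_lit 0))) (L (nat_lit 0))) (N (N (L (nat_lit 0x1203)) (L (nat_lit 0))) (N (L (nat_lit 0x1975)) (L (nat_lit 0))))) (N (L (nat_lit 0)) (N (L (nat_lit 0)) (N (L (nat_lit 0x1643)) (L (nat_lit 0))))))) (N (N (N (L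 (nat_lit 0)) (N (N (L (nat_lit 0xb71)) (L (nat_lit 0))) (N (L (nat_lit 0x14c3)) (L (nat_lit 0))))) (N (N (N (L (nat_lit 0xbb3)) (L (nat_lit 0))) (N (L (nat_lit 0x612)) (L (nat_lit 0)))) (L (nat_lit 0)))) (N (N (N (N (L (nat_lit 0x6f4)) (L (nat_lit 0))) (N (L (nat_lit 0xd15)) (L (nat_lit 0)))) (N (N (L (nat_lit 0xf52)) (L (nat_lit 0))) (N (L (nat_lit 0x18d3)) (L (nat_lit 0))))) (N (L (nat_lit 0)) (N (L (nat_lit 0)) (N (L (nat_lit 0x1a81)) (L (nat_lit 0)))))))) (L (nat_lit 0))) (N (N (L (nat_lit 0)) (N (N (N (L (nat_lit 0)) (N (N (L (nat_lit 0xee2)) (L (nat_lit 0))) (L (nat_lit 0)))) (L (nat_lit 0))) (N (N (L (nat_lit 0)) (N (N (L (nat_lit 0x9d3)) (L (nat_lit 0))) (L (nat_lit 0)))) (L (nat_lit 0))))) (L (nat_lit 0))))))) (N (N (N (N (N (N (N (N (N (N (N (L (nat_lit 0x100)) (L (nat_lit 0x18f0))) (N (L (nat_lit 0xb30)) (L (nat_lit 0)))) (N (N (L (nat_lit 0xc10)) (L (nat_lit 0))) (N (L (nat_lit 0x13b0)) (L (nat_lit 0))))) (N (N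 (N (L (nat_lit 0x8d0)) (L (nat_lit 0x1ae0))) (N (L (nat_lit 0xdc0)) (L (nat_lit 0)))) (N (N (L (nat_lit 0x1030)) (L (nat_lit 0))) (N (L (nat_lit 0x1990)) (L (nat_lit 0)))))) (N (N (N (N (L (nat_lit 0x340)) (L (nat_lit 0x1333))) (N (L (nat_lit 0x13e0)) (L (nat_lit 0)))) (N (N (L (nat_lit 0xc40)) (L (nat_lit 0))) (N (L (nat_lit 0x14d0)) (L (nat_lit 0))))) (N (N (N (L (nat_lit 0x1140)) (L (nat_lit 0))) (N (L (nat_lit 0x8c2)) (L (nat_lit 0)))) (N (N (L (nat_lit 0x7f0)) (L (nat_lit 0))) (N (L (nat_lit 0x12d0)) (L (nat_lit 0))))))) (N (N (N (N (N (L (nat_lit 0x220)) (L (nat_lit 0x1a60))) (N (L (nat_lit 0x1150)) (L (nat_lit 0)))) (N (N (L (nat_lit 0x9c0)) (L (nat_lit 0))) (N (L (nat_lit 0x1320)) (L (nat_lit 0))))) (N (N (N (L (nat_lit 0x860)) (L (nat_lit 0x18b3))) (N (L (nat_lit 0x1000)) (L (nat_lit 0)))) (N (N (L (nat_lit 0xb62)) (L (nat_lit 0))) (N (L (nat_lit 0xc21)) (L (nat_lit 0)))))) (N (N (N (N (L (nat_lit 0x410)) (L (nat_lit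 0x1a70))) (N (L (nat_lit 0xbd0)) (L (nat_lit 0)))) (N (N (L (nat_lit 0xc60)) (L (nat_lit 0))) (N (L (nat_lit 0x1810)) (L (nat_lit 0))))) (N (N (N (L (nat_lit 0x280)) (L (nat_lit 0))) (N (L (nat_lit 0x1260)) (L (nat_lit 0)))) (N (N (L (nat_lit 0xd70)) (L (nat_lit 0))) (N (L (nat_lit 0x17b0)) (L (nat_lit 0)))))))) (N (L (nat_lit 0)) (N (N (N (L (nat_lit 0)) (N (N (L (nat_lit 0x1c2)) (L (nat_lit 0))) (L (nat_lit 0)))) (L (nat_lit 0))) (L (nat_lit 0))))) (N (N (N (N (N (N (L (nat_lit 0)) (N (L (nat_lit 0x1112)) (L (nat_lit 0)))) (N (N (L (nat_lit 0xcc5)) (L (nat_lit 0))) (N (L (nat_lit 0x1422)) (L (nat_lit 0))))) (N (N (L (nat_lit 0)) (N (L (nat_lit 0x1743)) (L (nat_lit 0)))) (N (L (nat_lit 0)) (N (L (nat_lit 0x1ab1)) (L (nat_lit 0)))))) (N (N (N (N (L (nat_lit 0x144)) (L (nat_lit 0))) (L (nat_lit 0))) (N (N (L (nat_lit 0xe44)) (L (nat_lit 0))) (N (L (nat_lit 0x9e3)) (L (nat_lit 0))))) (N (L (nat_lit 0)) (N (L (nat_lit 0)) (N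 (L (nat_lit 0x1485)) (L (nat_lit 0))))))) (N (N (N (L (nat_lit 0)) (N (N (L (nat_lit 0xe34)) (L (nat_lit 0))) (N (L (nat_lit 0x1a16)) (L (nat_lit 0))))) (N (N (N (L (nat_lit 0xae4)) (L (nat_lit 0))) (L (nat_lit 0))) (L (nat_lit 0)))) (N (N (N (N (L (nat_lit 0x6f3)) (L (nat_lit 0))) (N (L (nat_lit 0x12e1)) (L (nat_lit 0)))) (N (N (L (nat_lit 0xd45)) (L (nat_lit 0))) (L (nat_lit 0)))) (L (nat_lit 0))))) (L (nat_lit 0)))) (N (N (N (N (N (N (N (L (nat_lit 0)) (N (L (nat_lit 0xb31)) (L (nat_lit 0)))) (N (N (L (nat_lit 0x986)) (L (nat_lit 0))) (N (L (nat_lit 0xda6)) (L (nat_lit 0))))) (N (N (N (L (nat_lit 0x821)) (L (nat_lit 0))) (N (L (nat_lit 0xdc4)) (L (nat_lit 0)))) (N (N (L (nat_lit 0x10b2)) (L (nat_lit 0))) (N (L (nat_lit 0x1595)) (L (nat_lit 0)))))) (N (N (N (N (L (nat_lit 0x344)) (L (nat_lit 0))) (N (L (nat_lit 0x1772)) (L (nat_lit 0)))) (N (N (L (nat_lit 0x994)) (L (nat_lit 0))) (N (L (nat_lit 0x1371)) (L (nat_lit 0)))))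 (N (N (N (L (nat_lit 0xc31)) (L (nat_lit 0))) (L (nat_lit 0))) (N (L (nat_lit 0)) (N (L (nat_lit 0x15a1)) (L (nat_lit 0))))))) (N (N (N (N (N (L (nat_lit 0x1e3)) (L (nat_lit 0x1aa2))) (N (L (nat_lit 0x14a1)) (L (nat_lit 0)))) (N (N (L (nat_lit 0x3e4)) (L (nat_lit 0))) (N (L (nat_lit 0x1272)) (L (nat_lit 0))))) (N (N (N (L (nat_lit 0x866)) (L (nat_lit 0))) (N (L (nat_lit 0x1506)) (L (nat_lit 0)))) (L (nat_lit 0)))) (N (N (N (N (L (nat_lit 0x413)) (L (nat_lit 0))) (N (L (nat_lit 0xa64)) (L (nat_lit 0)))) (N (N (L (nat_lit 0x633)) (L (nat_lit 0))) (N (L (nat_lit 0x1812)) (L (nat_lit 0))))) (N (N (N (L (nat_lit 0x6e4)) (L (nat_lit 0))) (N (L (nat_lit 0x1261)) (L (nat_lit 0)))) (N (N (L (nat_lit 0xed3)) (L (nat_lit 0))) (N (L (nat_lit 0x17b1)) (L (nat_lit 0)))))))) (L (nat_lit 0))) (N (N (N (L (nat_lit 0)) (N (N (L (nat_lit 0)) (N (N (L (nat_lit 0x13a2)) (L (nat_lit 0))) (L (nat_lit 0)))) (L (nat_lit 0)))) (N (N (N (L (nat_lit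 0)) (N (N (L (nat_lit 0xd21)) (L (nat_lit 0))) (L (nat_lit 0)))) (L (nat_lit 0))) (N (N (N (L (nat_lit 0)) (N (L (nat_lit 0x16a4)) (L (nat_lit 0)))) (N (N (L (nat_lit 0x14b1)) (L (nat_lit 0))) (L (nat_lit 0)))) (L (nat_lit 0))))) (L (nat_lit 0))))) (N (N (N (N (N (N (N (N (N (L (nat_lit 0)) (L (nat_lit 0x10d2))) (N (L (nat_lit 0x583)) (L (nat_lit 0)))) (N (N (L (nat_lit 0x203)) (L (nat_lit 0))) (N (L (nat_lit 0xa51)) (L (nat_lit 0))))) (N (N (N (L (nat_lit 0x823)) (L (nat_lit 0x1873))) (N (L (nat_lit 0x6c3)) (L (nat_lit 0)))) (N (N (L (nat_lit 0xe23)) (L (nat_lit 0))) (N (L (nat_lit 0xfb4)) (L (nat_lit 0)))))) (N (N (N (N (L (nat_lit 0x142)) (L (nat_lit 0))) (N (L (nat_lit 0xb02)) (L (nat_lit 0)))) (N (N (L (nat_lit 0x3f5)) (L (nat_lit 0))) (N (L (nat_lit 0xe62)) (L (nat_lit 0))))) (N (N (N (L (nat_lit 0xdf4)) (L (nat_lit 0))) (L (nat_lit 0))) (N (N (L (nat_lit 0x532)) (L (nat_lit 0))) (N (L (nat_lit 0x1172)) (L (nat_lit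 0))))))) (N (N (N (N (N (L (nat_lit 0x1e1)) (L (nat_lit 0x15b5))) (N (L (nat_lit 0xaa1)) (L (nat_lit 0)))) (N (N (L (nat_lit 0x1c5)) (L (nat_lit 0))) (N (L (nat_lit 0xfa2)) (L (nat_lit 0))))) (N (N (N (L (nat_lit 0x325)) (L (nat_lit 0))) (N (L (nat_lit 0xe74)) (L (nat_lit 0)))) (N (N (L (nat_lit 0x1981)) (L (nat_lit 0))) (N (L (nat_lit 0x1624)) (L (nat_lit 0)))))) (N (N (N (N (L (nat_lit 0x1d3)) (L (nat_lit 0x16d2))) (N (L (nat_lit 0x4e5)) (L (nat_lit 0)))) (N (N (L (nat_lit 0x372)) (L (nat_lit 0))) (N (L (nat_lit 0x782)) (L (nat_lit 0))))) (N (N (N (L (nat_lit 0x463)) (L (nat_lit 0))) (N (L (nat_lit 0xce1)) (L (nat_lit 0)))) (N (N (L (nat_lit 0x4c2)) (L (nat_lit 0))) (N (L (nat_lit 0xf14)) (L (nat_lit 0)))))))) (L (nat_lit 0))) (N (N (N (N (N (L (nat_lit 0)) (N (N (L (nat_lit 0xde4)) (L (nat_lit 0))) (N (L (nat_lit 0x19e1)) (L (nat_lit 0))))) (L (nat_lit 0))) (N (N (L (nat_lit 0)) (N (N (L (nat_lit 0x13d3)) (L (nat_lit 0)))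 (L (nat_lit 0)))) (N (L (nat_lit 0)) (N (L (nat_lit 0)) (N (L (nat_lit 0x1a34)) (L (nat_lit 0))))))) (N (N (N (L (nat_lit 0)) (N (N (L (nat_lit 0xa75)) (L (nat_lit 0))) (L (nat_lit 0)))) (L (nat_lit 0))) (N (N (N (L (nat_lit 0)) (N (L (nat_lit 0x1494)) (L (nat_lit 0)))) (N (N (L (nat_lit 0xef4)) (L (nat_lit 0))) (L (nat_lit 0)))) (L (nat_lit 0))))) (L (nat_lit 0)))) (N (N (N (N (N (N (N (L (nat_lit 0)) (N (L (nat_lit 0xf33)) (L (nat_lit 0)))) (N (N (L (nat_lit 0x8b2)) (L (nat_lit 0))) (N (L (nat_lit 0x1364)) (L (nat_lit 0))))) (N (N (L (nat_lit 0)) (N (L (nat_lit 0x1572)) (L (nat_lit 0)))) (N (L (nat_lit 0)) (N (L (nat_lit 0x19c4)) (L (nat_lit 0)))))) (N (N (N (N (L (nat_lit 0x471)) (L (nat_lit 0))) (L (nat_lit 0))) (N (N (L (nat_lit 0x11e3)) (L (nat_lit 0))) (N (L (nat_lit 0x1533)) (L (nat_lit 0))))) (N (L (nat_lit 0)) (N (L (nat_lit 0)) (N (L (nat_lit 0x14e4)) (L (nat_lit 0))))))) (N (N (N (L (nat_lit 0)) (N (N (L (nat_lit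 0x9c5)) (L (nat_lit 0))) (N (L (nat_lit 0x14c1)) (L (nat_lit 0))))) (N (N (N (L (nat_lit 0x9b4)) (L (nat_lit 0))) (N (L (nat_lit 0x1852)) (L (nat_lit 0)))) (L (nat_lit 0)))) (N (N (N (N (L (nat_lit 0x5a1)) (L (nat_lit 0))) (N (L (nat_lit 0x1181)) (L (nat_lit 0)))) (N (N (L (nat_lit 0xf55)) (L (nat_lit 0))) (N (L (nat_lit 0x1881)) (L (nat_lit 0))))) (N (N (L (nat_lit 0)) (N (L (nat_lit 0x1964)) (L (nat_lit 0)))) (N (L (nat_lit 0)) (N (L (nat_lit 0x1711)) (L (nat_lit 0)))))))) (L (nat_lit 0))) (N (N (L (nat_lit 0)) (N (N (N (L (nat_lit 0)) (N (N (L (nat_lit 0xfc3)) (L (nat_lit 0))) (L (nat_lit 0)))) (L (nat_lit 0))) (N (N (L (nat_lit 0)) (N (N (L (nat_lit 0x1581)) (L (nat_lit 0))) (L (nat_lit 0)))) (L (nat_lit 0))))) (L (nat_lit 0)))))) (N (N (N (N (N (N (N (N (N (N (L (nat_lit 0x11)) (L (nat_lit 0x1733))) (N (L (nat_lit 0x254)) (L (nat_lit 0)))) (N (N (L (nat_lit 0xd80)) (L (nat_lit 0))) (N (L (nat_lit 0x19e0)) (L (nat_lit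 0))))) (N (N (N (L (nat_lit 0x313)) (L (nat_lit 0x1721))) (N (L (nat_lit 0x454)) (L (nat_lit 0)))) (N (N (L (nat_lit 0x644)) (L (nat_lit 0))) (N (L (nat_lit 0xba3)) (L (nat_lit 0)))))) (N (N (N (N (L (nat_lit 0x540)) (L (nat_lit 0x1831))) (N (L (nat_lit 0xa45)) (L (nat_lit 0)))) (N (N (L (nat_lit 0x13d0)) (L (nat_lit 0))) (N (L (nat_lit 0xb11)) (L (nat_lit 0))))) (N (N (N (L (nat_lit 0x5c1)) (L (nat_lit 0))) (L (nat_lit 0))) (N (N (L (nat_lit 0x723)) (L (nat_lit 0))) (N (L (nat_lit 0x1a30)) (L (nat_lit 0))))))) (N (N (N (N (N (L (nat_lit 0x111)) (L (nat_lit 0xff1))) (N (L (nat_lit 0x492)) (L (nat_lit 0)))) (N (N (L (nat_lit 0xa90)) (L (nat_lit 0))) (N (L (nat_lit 0xab6)) (L (nat_lit 0))))) (N (N (N (L (nat_lit 0xbf0)) (L (nat_lit 0))) (N (L (nat_lit 0x6d5)) (L (nat_lit 0)))) (N (N (L (nat_lit 0xf63)) (L (nat_lit 0))) (N (L (nat_lit 0x1475)) (L (nat_lit 0)))))) (N (N (N (N (L (nat_lit 0x73)) (L (nat_lit 0x14f4))) (N (L (nat_lit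 0x15c0)) (L (nat_lit 0)))) (N (N (L (nat_lit 0x12f0)) (L (nat_lit 0))) (N (L (nat_lit 0x652)) (L (nat_lit 0))))) (N (N (N (L (nat_lit 0xc3)) (L (nat_lit 0))) (N (L (nat_lit 0x902)) (L (nat_lit 0)))) (N (N (L (nat_lit 0x292)) (L (nat_lit 0))) (N (L (nat_lit 0xe14)) (L (nat_lit 0)))))))) (L (nat_lit 0))) (N (N (N (N (N (L (nat_lit 0)) (N (N (L (nat_lit 0xd33)) (L (nat_lit 0))) (N (L (nat_lit 0x19b6)) (L (nat_lit 0))))) (L (nat_lit 0))) (N (N (L (nat_lit 0)) (N (N (L (nat_lit 0x1296)) (L (nat_lit 0))) (L (nat_lit 0)))) (N (L (nat_lit 0)) (N (L (nat_lit 0)) (N (L (nat_lit 0x1674)) (L (nat_lit 0))))))) (N (N (N (L (nat_lit 0)) (N (N (L (nat_lit 0x8f3)) (L (nat_lit 0))) (L (nat_lit 0)))) (N (N (N (L (nat_lit 0xbf3)) (L (nat_lit 0))) (L (nat_lit 0))) (L (nat_lit 0)))) (N (N (N (L (nat_lit 0)) (N (L (nat_lit 0x1342)) (L (nat_lit 0)))) (N (N (L (nat_lit 0xd92)) (L (nat_lit 0))) (L (nat_lit 0)))) (L (nat_lit 0))))) (L (nat_lit 0))))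 (N (N (N (N (N (N (N (L (nat_lit 0)) (N (L (nat_lit 0xbc2)) (L (nat_lit 0)))) (N (N (L (nat_lit 0xc13)) (L (nat_lit 0))) (N (L (nat_lit 0x13b2)) (L (nat_lit 0))))) (N (N (L (nat_lit 0)) (N (L (nat_lit 0x1396)) (L (nat_lit 0)))) (N (N (L (nat_lit 0x1823)) (L (nat_lit 0))) (N (L (nat_lit 0x1993)) (L (nat_lit 0)))))) (N (N (N (N (L (nat_lit 0x574)) (L (nat_lit 0))) (L (nat_lit 0))) (N (N (L (nat_lit 0xc41)) (L (nat_lit 0))) (N (L (nat_lit 0x14d2)) (L (nat_lit 0))))) (N (L (nat_lit 0)) (N (L (nat_lit 0)) (N (L (nat_lit 0x12d1)) (L (nat_lit 0))))))) (N (N (N (N (N (L (nat_lit 0)) (L (nat_lit 0x15b1))) (L (nat_lit 0))) (N (N (L (nat_lit 0x896)) (L (nat_lit 0))) (N (L (nat_lit 0x1323)) (L (nat_lit 0))))) (N (N (N (L (nat_lit 0x975)) (L (nat_lit 0))) (N (L (nat_lit 0x17d2)) (L (nat_lit 0)))) (L (nat_lit 0)))) (N (N (N (N (L (nat_lit 0x674)) (L (nat_lit 0))) (N (L (nat_lit 0xac3)) (L (nat_lit 0)))) (N (N (L (nat_lit 0xe05)) (L (nat_lit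 0))) (N (L (nat_lit 0x10f2)) (L (nat_lit 0))))) (N (N (N (L (nat_lit 0x7d1)) (L (nat_lit 0))) (N (L (nat_lit 0x12a2)) (L (nat_lit 0)))) (N (N (L (nat_lit 0x212)) (L (nat_lit 0))) (N (L (nat_lit 0x1634)) (L (nat_lit 0)))))))) (L (nat_lit 0))) (N (N (L (nat_lit 0)) (N (N (N (L (nat_lit 0)) (N (N (L (nat_lit 0xe82)) (L (nat_lit 0))) (L (nat_lit 0)))) (L (nat_lit 0))) (N (N (N (L (nat_lit 0)) (N (L (nat_lit 0x403)) (L (nat_lit 0)))) (N (N (L (nat_lit 0x1526)) (L (nat_lit 0))) (L (nat_lit 0)))) (L (nat_lit 0))))) (L (nat_lit 0))))) (N (N (N (N (N (N (N (N (L (nat_lit 0)) (N (L (nat_lit 0x511)) (L (nat_lit 0)))) (N (N (L (nat_lit 0x3d1)) (L (nat_lit 0))) (N (L (nat_lit 0xe52)) (L (nat_lit 0))))) (N (N (N (L (nat_lit 0x922)) (L (nat_lit 0x1ae1))) (N (L (nat_lit 0xb24)) (L (nat_lit 0)))) (N (N (L (nat_lit 0x1031)) (L (nat_lit 0))) (N (L (nat_lit 0xfe3)) (L (nat_lit 0)))))) (N (N (N (N (L (nat_lit 0x1a4)) (L (nat_lit 0))) (N (L (nat_lit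 0x11a2)) (L (nat_lit 0)))) (N (N (L (nat_lit 0x5f3)) (L (nat_lit 0))) (N (L (nat_lit 0xf03)) (L (nat_lit 0))))) (N (N (N (L (nat_lit 0x1194)) (L (nat_lit 0))) (L (nat_lit 0))) (N (L (nat_lit 0)) (N (L (nat_lit 0xeb1)) (L (nat_lit 0))))))) (N (N (N (N (N (L (nat_lit 0x2a1)) (L (nat_lit 0x19a2))) (N (L (nat_lit 0x1154)) (L (nat_lit 0)))) (N (N (L (nat_lit 0x243)) (L (nat_lit 0))) (N (L (nat_lit 0xea1)) (L (nat_lit 0))))) (N (N (N (L (nat_lit 0x352)) (L (nat_lit 0))) (N (L (nat_lit 0xec2)) (L (nat_lit 0)))) (L (nat_lit 0)))) (N (N (N (N (L (nat_lit 0x1f1)) (L (nat_lit 0x1861))) (N (L (nat_lit 0x692)) (L (nat_lit 0)))) (N (N (L (nat_lit 0x604)) (L (nat_lit 0))) (N (L (nat_lit 0xf23)) (L (nat_lit 0))))) (N (N (N (L (nat_lit 0x281)) (L (nat_lit 0))) (N (L (nat_lit 0xcb4)) (L (nat_lit 0)))) (N (N (L (nat_lit 0xad3)) (L (nat_lit 0))) (N (L (nat_lit 0x1433)) (L (nat_lit 0)))))))) (L (nat_lit 0))) (N (N (N (L (nat_lit 0)) (N (N (L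 (nat_lit 0)) (N (N (L (nat_lit 0x1303)) (L (nat_lit 0))) (L (nat_lit 0)))) (N (L (nat_lit 0)) (N (L (nat_lit 0)) (N (L (nat_lit 0x1a92)) (L (nat_lit 0))))))) (N (N (N (L (nat_lit 0)) (N (N (L (nat_lit 0xa92)) (L (nat_lit 0))) (L (nat_lit 0)))) (L (nat_lit 0))) (N (N (N (L (nat_lit 0)) (N (L (nat_lit 0x15c3)) (L (nat_lit 0)))) (N (N (L (nat_lit 0x12f4)) (L (nat_lit 0))) (L (nat_lit 0)))) (L (nat_lit 0))))) (L (nat_lit 0)))) (N (N (N (N (N (N (N (L (nat_lit 0)) (N (L (nat_lit 0x1092)) (L (nat_lit 0)))) (N (N (L (nat_lit 0x9f1)) (L (nat_lit 0))) (N (L (nat_lit 0x12b1)) (L (nat_lit 0))))) (N (N (L (nat_lit 0)) (N (L (nat_lit 0x1762)) (L (nat_lit 0)))) (N (L (nat_lit 0)) (N (L (nat_lit 0x1a25)) (L (nat_lit 0)))))) (N (N (N (N (L (nat_lit 0x5b2)) (L (nat_lit 0))) (L (nat_lit 0))) (N (N (L (nat_lit 0xc92)) (L (nat_lit 0))) (N (L (nat_lit 0x1a02)) (L (nat_lit 0))))) (N (L (nat_lit 0)) (N (L (nat_lit 0)) (N (L (nat_lit 0x17a1)) (L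 (nat_lit 0))))))) (N (N (N (L (nat_lit 0)) (N (N (L (nat_lit 0xb73)) (L (nat_lit 0))) (N (L (nat_lit 0x1946)) (L (nat_lit 0))))) (N (N (N (L (nat_lit 0xa23)) (L (nat_lit 0))) (L (nat_lit 0))) (L (nat_lit 0)))) (N (N (N (N (L (nat_lit 0x731)) (L (nat_lit 0))) (N (L (nat_lit 0xf96)) (L (nat_lit 0)))) (N (N (L (nat_lit 0x1215)) (L (nat_lit 0))) (N (L (nat_lit 0xf22)) (L (nat_lit 0))))) (N (L (nat_lit 0)) (N (L (nat_lit 0)) (N (L (nat_lit 0x1a84)) (L (nat_lit 0)))))))) (L (nat_lit 0))) (N (N (L (nat_lit 0)) (N (N (N (L (nat_lit 0)) (N (N (L (nat_lit 0xf44)) (L (nat_lit 0))) (L (nat_lit 0)))) (L (nat_lit 0))) (L (nat_lit 0)))) (L (nat_lit 0))))))))) Tr.N Tr.L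
noncomputable def tWU_2 : Tr := (fun (N : Tr → Tr → Tr) (L : ℕ → Tr) => (N (N (N (N (N (N (N (N (N (N (N (N (L (nat_lit 0x10)) (L (nat_lit 0x7b0))) (N (L (nat_lit 0x2c0)) (L (nat_lit 0)))) (N (N (L (nat_lit 0x200)) (L (nat_lit 0))) (N (L (nat_lit 0x940)) (L (nat_lit 0))))) (N (N (N (L (nat_lit 0x170)) (L (nat_lit 0x1550))) (N (L (nat_lit 0x520)) (L (nat_lit 0)))) (N (N (L (nat_lit 0x640)) (L (nat_lit 0))) (N (L (nat_lit 0xbe0)) (L (nat_lit 0)))))) (N (N (N (N (L (nat_lit 0x60)) (L (nat_lit 0x1330))) (N (L (nat_lit 0x590)) (L (nat_lit 0)))) (N (N (L (nat_lit 0x3f0)) (L (nat_lit 0))) (N (L (nat_lit 0xb10)) (L (nat_lit 0))))) (N (N (N (L (nat_lit 0x360)) (L (nat_lit 0))) (N (L (nat_lit 0x8c0)) (L (nat_lit 0)))) (N (N (L (nat_lit 0xf0)) (L (nat_lit 0))) (N (L (nat_lit 0x1170)) (L (nat_lit 0))))))) (N (N (N (N (N (L (nat_lit 0x30)) (L (nat_lit 0xff0))) (N (L (nat_lit 0x490)) (L (nat_lit 0)))) (N (N (L (nat_lit 0x240)) (L (nat_lit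 0))) (N (L (nat_lit 0xab0)) (L (nat_lit 0))))) (N (N (N (L (nat_lit 0x1b0)) (L (nat_lit 0x1800))) (N (L (nat_lit 0x6d0)) (L (nat_lit 0)))) (N (N (L (nat_lit 0xb90)) (L (nat_lit 0))) (N (L (nat_lit 0x1130)) (L (nat_lit 0)))))) (N (N (N (N (L (nat_lit 0x90)) (L (nat_lit 0x1380))) (N (L (nat_lit 0x4e0)) (L (nat_lit 0)))) (N (N (L (nat_lit 0x440)) (L (nat_lit 0))) (N (L (nat_lit 0x710)) (L (nat_lit 0))))) (N (N (N (L (nat_lit 0xc0)) (L (nat_lit 0))) (N (L (nat_lit 0x900)) (L (nat_lit 0)))) (N (N (L (nat_lit 0x290)) (L (nat_lit 0))) (N (L (nat_lit 0x11b0)) (L (nat_lit 0)))))))) (N (L (nat_lit 0)) (N (N (N (L (nat_lit 0)) (N (N (L (nat_lit 0x1025)) (L (nat_lit 0))) (L (nat_lit 0)))) (L (nat_lit 0))) (L (nat_lit 0))))) (N (N (N (N (N (N (L (nat_lit 0)) (N (L (nat_lit 0x10e3)) (L (nat_lit 0)))) (N (N (L (nat_lit 0xa35)) (L (nat_lit 0))) (N (L (nat_lit 0x12b2)) (L (nat_lit 0))))) (N (N (L (nat_lit 0)) (N (L (nat_lit 0x16f4)) (L (nat_lit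 0)))) (N (L (nat_lit 0)) (N (L (nat_lit 0x1a52)) (L (nat_lit 0)))))) (N (N (N (N (L (nat_lit 0x503)) (L (nat_lit 0))) (L (nat_lit 0))) (N (N (L (nat_lit 0xcd5)) (L (nat_lit 0))) (N (L (nat_lit 0x1a41)) (L (nat_lit 0))))) (N (L (nat_lit 0)) (N (L (nat_lit 0)) (N (L (nat_lit 0x17a3)) (L (nat_lit 0))))))) (N (N (N (L (nat_lit 0)) (N (N (L (nat_lit 0xc74)) (L (nat_lit 0))) (N (L (nat_lit 0x19f1)) (L (nat_lit 0))))) (N (N (N (L (nat_lit 0xa82)) (L (nat_lit 0))) (L (nat_lit 0))) (L (nat_lit 0)))) (N (N (N (N (L (nat_lit 0x1d2)) (L (nat_lit 0))) (N (L (nat_lit 0xf92)) (L (nat_lit 0)))) (N (N (L (nat_lit 0x13f1)) (L (nat_lit 0))) (L (nat_lit 0)))) (N (L (nat_lit 0)) (N (L (nat_lit 0)) (N (L (nat_lit 0x1ac3)) (L (nat_lit 0)))))))) (L (nat_lit 0)))) (N (N (N (N (N (N (N (L (nat_lit 0)) (N (L (nat_lit 0x955)) (L (nat_lit 0)))) (N (N (L (nat_lit 0x841)) (L (nat_lit 0))) (N (L (nat_lit 0xcf1)) (L (nat_lit 0))))) (N (N (N (L (nat_lit 0x961))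 (L (nat_lit 0))) (N (L (nat_lit 0x11c4)) (L (nat_lit 0)))) (N (N (L (nat_lit 0x1063)) (L (nat_lit 0))) (N (L (nat_lit 0x13c1)) (L (nat_lit 0)))))) (N (N (N (N (L (nat_lit 0x1a2)) (L (nat_lit 0))) (N (L (nat_lit 0x15d5)) (L (nat_lit 0)))) (N (N (L (nat_lit 0x872)) (L (nat_lit 0))) (N (L (nat_lit 0x12c4)) (L (nat_lit 0))))) (N (N (N (L (nat_lit 0x11d3)) (L (nat_lit 0))) (L (nat_lit 0))) (N (L (nat_lit 0)) (N (L (nat_lit 0xeb2)) (L (nat_lit 0))))))) (N (N (N (N (N (L (nat_lit 0x2e3)) (L (nat_lit 0x1a62))) (N (L (nat_lit 0x1152)) (L (nat_lit 0)))) (N (N (L (nat_lit 0x551)) (L (nat_lit 0))) (N (L (nat_lit 0xea4)) (L (nat_lit 0))))) (N (N (N (L (nat_lit 0xb53)) (L (nat_lit 0))) (N (L (nat_lit 0x1005)) (L (nat_lit 0)))) (L (nat_lit 0)))) (N (N (N (N (L (nat_lit 0x234)) (L (nat_lit 0x1a71))) (N (L (nat_lit 0x6b4)) (L (nat_lit 0)))) (N (N (L (nat_lit 0x603)) (L (nat_lit 0))) (N (L (nat_lit 0x1562)) (L (nat_lit 0))))) (N (N (N (L (nat_lit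 0x2b1)) (L (nat_lit 0))) (N (L (nat_lit 0xd52)) (L (nat_lit 0)))) (N (N (L (nat_lit 0xd73)) (L (nat_lit 0))) (N (L (nat_lit 0x1541)) (L (nat_lit 0)))))))) (L (nat_lit 0))) (N (N (N (L (nat_lit 0)) (N (N (L (nat_lit 0)) (N (N (L (nat_lit 0x1351)) (L (nat_lit 0))) (L (nat_lit 0)))) (N (L (nat_lit 0)) (N (L (nat_lit 0)) (N (L (nat_lit 0xc52)) (L (nat_lit 0))))))) (N (N (N (L (nat_lit 0)) (N (N (L (nat_lit 0xaf1)) (L (nat_lit 0))) (L (nat_lit 0)))) (L (nat_lit 0))) (N (N (N (L (nat_lit 0)) (N (L (nat_lit 0x1664)) (L (nat_lit 0)))) (N (N (L (nat_lit 0x1454)) (L (nat_lit 0))) (L (nat_lit 0)))) (L (nat_lit 0))))) (L (nat_lit 0))))) (N (N (N (N (N (N (N (N (N (L (nat_lit 0xb1)) (L (nat_lit 0x18c2))) (N (L (nat_lit 0x2c4)) (L (nat_lit 0)))) (N (N (L (nat_lit 0x181)) (L (nat_lit 0))) (N (L (nat_lit 0x882)) (L (nat_lit 0))))) (N (N (N (L (nat_lit 0x803)) (L (nat_lit 0x17c4))) (N (L (nat_lit 0x524)) (L (nat_lit 0)))) (N (N (L (nat_lit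 0x743)) (L (nat_lit 0))) (N (L (nat_lit 0xbe2)) (L (nat_lit 0)))))) (N (N (N (N (L (nat_lit 0x42)) (L (nat_lit 0x11f1))) (N (L (nat_lit 0xa43)) (L (nat_lit 0)))) (N (N (L (nat_lit 0x13a0)) (L (nat_lit 0))) (N (L (nat_lit 0xb14)) (L (nat_lit 0))))) (N (N (N (L (nat_lit 0xc02)) (L (nat_lit 0))) (L (nat_lit 0))) (N (N (L (nat_lit 0x7c2)) (L (nat_lit 0))) (N (L (nat_lit 0xc55)) (L (nat_lit 0))))))) (N (N (N (N (N (L (nat_lit 0x131)) (L (nat_lit 0x1103))) (N (L (nat_lit 0xa05)) (L (nat_lit 0)))) (N (N (L (nat_lit 0xe80)) (L (nat_lit 0))) (N (L (nat_lit 0xab2)) (L (nat_lit 0))))) (N (N (N (L (nat_lit 0x1b5)) (L (nat_lit 0))) (N (L (nat_lit 0x6d2)) (L (nat_lit 0)))) (N (N (L (nat_lit 0x1934)) (L (nat_lit 0))) (N (L (nat_lit 0x1472)) (L (nat_lit 0)))))) (N (N (N (N (L (nat_lit 0x93)) (L (nat_lit 0x14f3))) (N (L (nat_lit 0x1700)) (L (nat_lit 0)))) (N (N (L (nat_lit 0x15e0)) (L (nat_lit 0))) (N (L (nat_lit 0x711)) (L (nat_lit 0)))))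 (N (N (N (L (nat_lit 0x264)) (L (nat_lit 0))) (N (L (nat_lit 0xa11)) (L (nat_lit 0)))) (N (N (L (nat_lit 0x481)) (L (nat_lit 0))) (N (L (nat_lit 0x11b1)) (L (nat_lit 0)))))))) (L (nat_lit 0))) (N (N (N (N (N (L (nat_lit 0)) (N (N (L (nat_lit 0xd81)) (L (nat_lit 0))) (N (L (nat_lit 0x19b1)) (L (nat_lit 0))))) (L (nat_lit 0))) (N (N (L (nat_lit 0)) (N (N (L (nat_lit 0x1291)) (L (nat_lit 0))) (L (nat_lit 0)))) (N (L (nat_lit 0)) (N (L (nat_lit 0)) (N (L (nat_lit 0x16b1)) (L (nat_lit 0))))))) (N (N (N (L (nat_lit 0)) (N (N (L (nat_lit 0x935)) (L (nat_lit 0))) (L (nat_lit 0)))) (N (N (N (L (nat_lit 0xa83)) (L (nat_lit 0))) (L (nat_lit 0))) (L (nat_lit 0)))) (N (N (N (L (nat_lit 0)) (N (L (nat_lit 0x1515)) (L (nat_lit 0)))) (N (N (L (nat_lit 0xe94)) (L (nat_lit 0))) (L (nat_lit 0)))) (L (nat_lit 0))))) (L (nat_lit 0)))) (N (N (N (N (N (N (N (L (nat_lit 0)) (N (L (nat_lit 0xdd4)) (L (nat_lit 0)))) (N (N (L (nat_lit 0xc84)) (L (nat_lit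 0))) (N (L (nat_lit 0x13b3)) (L (nat_lit 0))))) (N (N (L (nat_lit 0)) (N (L (nat_lit 0x1393)) (L (nat_lit 0)))) (N (N (L (nat_lit 0x5d1)) (L (nat_lit 0))) (N (L (nat_lit 0x1953)) (L (nat_lit 0)))))) (N (N (N (N (L (nat_lit 0x425)) (L (nat_lit 0))) (L (nat_lit 0))) (N (N (L (nat_lit 0xc45)) (L (nat_lit 0))) (N (L (nat_lit 0x1536)) (L (nat_lit 0))))) (N (L (nat_lit 0)) (N (L (nat_lit 0)) (N (L (nat_lit 0x12d4)) (L (nat_lit 0))))))) (N (N (N (L (nat_lit 0)) (N (N (L (nat_lit 0x891)) (L (nat_lit 0))) (N (L (nat_lit 0x1465)) (L (nat_lit 0))))) (N (N (N (L (nat_lit 0x973)) (L (nat_lit 0))) (N (L (nat_lit 0x1692)) (L (nat_lit 0)))) (L (nat_lit 0)))) (N (N (N (N (L (nat_lit 0x673)) (L (nat_lit 0))) (N (L (nat_lit 0xbd3)) (L (nat_lit 0)))) (N (N (L (nat_lit 0xc65)) (L (nat_lit 0))) (N (L (nat_lit 0x16e1)) (L (nat_lit 0))))) (N (N (N (L (nat_lit 0x262)) (L (nat_lit 0))) (N (L (nat_lit 0x1902)) (L (nat_lit 0)))) (N (L (nat_lit 0)) (N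 (L (nat_lit 0x16c1)) (L (nat_lit 0)))))))) (L (nat_lit 0))) (N (N (L (nat_lit 0)) (N (N (N (L (nat_lit 0)) (N (N (L (nat_lit 0xfc6)) (L (nat_lit 0))) (L (nat_lit 0)))) (L (nat_lit 0))) (N (N (L (nat_lit 0)) (N (N (L (nat_lit 0x1522)) (L (nat_lit 0))) (L (nat_lit 0)))) (L (nat_lit 0))))) (L (nat_lit 0)))))) (N (N (N (N (N (N (N (N (N (N (L (nat_lit 0x81)) (L (nat_lit 0x7b2))) (N (L (nat_lit 0xf30)) (L (nat_lit 0)))) (N (N (L (nat_lit 0x8e0)) (L (nat_lit 0))) (N (L (nat_lit 0x1240)) (L (nat_lit 0))))) (N (N (N (L (nat_lit 0x122)) (L (nat_lit 0x1554))) (N (L (nat_lit 0x1570)) (L (nat_lit 0)))) (N (N (L (nat_lit 0x1650)) (L (nat_lit 0))) (N (L (nat_lit 0x1a20)) (L (nat_lit 0)))))) (N (N (N (N (L (nat_lit 0x570)) (L (nat_lit 0x1684))) (N (L (nat_lit 0x562)) (L (nat_lit 0)))) (N (N (L (nat_lit 0xc90)) (L (nat_lit 0))) (N (L (nat_lit 0x1a00)) (L (nat_lit 0))))) (N (N (N (L (nat_lit 0x302)) (L (nat_lit 0))) (N (L (nat_lit 0xca2))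 (L (nat_lit 0)))) (N (N (L (nat_lit 0xf1)) (L (nat_lit 0))) (N (L (nat_lit 0x17a0)) (L (nat_lit 0))))))) (N (N (N (N (N (L (nat_lit 0x2e0)) (L (nat_lit 0xf73))) (N (L (nat_lit 0x1610)) (L (nat_lit 0)))) (N (N (L (nat_lit 0xe30)) (L (nat_lit 0))) (N (L (nat_lit 0x1940)) (L (nat_lit 0))))) (N (N (N (L (nat_lit 0xbb0)) (L (nat_lit 0x18e1))) (N (L (nat_lit 0x1690)) (L (nat_lit 0)))) (N (N (L (nat_lit 0xb92)) (L (nat_lit 0))) (N (L (nat_lit 0x1132)) (L (nat_lit 0)))))) (N (N (N (N (L (nat_lit 0x4a0)) (L (nat_lit 0x1384))) (N (L (nat_lit 0xf90)) (L (nat_lit 0)))) (N (N (L (nat_lit 0x13f0)) (L (nat_lit 0))) (N (L (nat_lit 0x16e0)) (L (nat_lit 0))))) (N (N (N (L (nat_lit 0x6e0)) (L (nat_lit 0))) (N (L (nat_lit 0x1960)) (L (nat_lit 0)))) (N (N (L (nat_lit 0x10a0)) (L (nat_lit 0))) (N (L (nat_lit 0x16c0)) (L (nat_lit 0)))))))) (N (L (nat_lit 0)) (N (N (N (L (nat_lit 0)) (N (N (L (nat_lit 0xf82)) (L (nat_lit 0))) (L (nat_lit 0)))) (L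 (nat_lit 0))) (L (nat_lit 0))))) (N (N (N (N (N (N (L (nat_lit 0)) (N (L (nat_lit 0xdd2)) (L (nat_lit 0)))) (N (N (L (nat_lit 0xcc3)) (L (nat_lit 0))) (N (L (nat_lit 0x1921)) (L (nat_lit 0))))) (N (N (L (nat_lit 0)) (N (L (nat_lit 0x452)) (L (nat_lit 0)))) (N (L (nat_lit 0)) (N (L (nat_lit 0xba2)) (L (nat_lit 0)))))) (N (N (N (N (L (nat_lit 0x474)) (L (nat_lit 0))) (L (nat_lit 0))) (N (N (L (nat_lit 0xe43)) (L (nat_lit 0))) (L (nat_lit 0)))) (N (L (nat_lit 0)) (N (L (nat_lit 0)) (N (L (nat_lit 0x15f4)) (L (nat_lit 0))))))) (N (N (N (L (nat_lit 0)) (N (N (L (nat_lit 0xf84)) (L (nat_lit 0))) (N (L (nat_lit 0x1a14)) (L (nat_lit 0))))) (N (N (N (L (nat_lit 0xb42)) (L (nat_lit 0))) (L (nat_lit 0))) (L (nat_lit 0)))) (N (N (N (L (nat_lit 0)) (N (L (nat_lit 0x12e4)) (L (nat_lit 0)))) (N (N (L (nat_lit 0xd42)) (L (nat_lit 0))) (L (nat_lit 0)))) (L (nat_lit 0))))) (L (nat_lit 0)))) (N (N (N (N (N (N (N (L (nat_lit 0)) (N (L (nat_lit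 0xb33)) (L (nat_lit 0)))) (N (N (L (nat_lit 0x984)) (L (nat_lit 0))) (N (L (nat_lit 0xda5)) (L (nat_lit 0))))) (N (N (L (nat_lit 0)) (N (L (nat_lit 0xfd5)) (L (nat_lit 0)))) (N (N (L (nat_lit 0x1653)) (L (nat_lit 0))) (N (L (nat_lit 0x1592)) (L (nat_lit 0)))))) (N (N (N (N (L (nat_lit 0x392)) (L (nat_lit 0))) (N (L (nat_lit 0xa42)) (L (nat_lit 0)))) (N (N (L (nat_lit 0xb81)) (L (nat_lit 0))) (N (L (nat_lit 0x1374)) (L (nat_lit 0))))) (N (L (nat_lit 0)) (N (L (nat_lit 0)) (N (L (nat_lit 0x1075)) (L (nat_lit 0))))))) (N (N (N (N (N (L (nat_lit 0)) (L (nat_lit 0x1ad1))) (N (L (nat_lit 0x1612)) (L (nat_lit 0)))) (N (N (L (nat_lit 0x435)) (L (nat_lit 0))) (N (L (nat_lit 0x1326)) (L (nat_lit 0))))) (N (N (N (L (nat_lit 0x862)) (L (nat_lit 0))) (N (L (nat_lit 0x1503)) (L (nat_lit 0)))) (L (nat_lit 0)))) (N (N (N (N (L (nat_lit 0x625)) (L (nat_lit 0))) (N (L (nat_lit 0xa63)) (L (nat_lit 0)))) (N (N (L (nat_lit 0x9d6)) (L (nat_lit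 0))) (N (L (nat_lit 0x1082)) (L (nat_lit 0))))) (N (N (N (L (nat_lit 0x6e2)) (L (nat_lit 0))) (N (L (nat_lit 0x1264)) (L (nat_lit 0)))) (N (N (L (nat_lit 0x1052)) (L (nat_lit 0))) (N (L (nat_lit 0x17f4)) (L (nat_lit 0)))))))) (L (nat_lit 0))) (N (N (N (L (nat_lit 0)) (N (N (L (nat_lit 0)) (N (N (L (nat_lit 0x873)) (L (nat_lit 0))) (L (nat_lit 0)))) (L (nat_lit 0)))) (N (N (N (L (nat_lit 0)) (N (N (L (nat_lit 0xd24)) (L (nat_lit 0))) (L (nat_lit 0)))) (L (nat_lit 0))) (N (N (N (L (nat_lit 0)) (N (L (nat_lit 0x1705)) (L (nat_lit 0)))) (N (N (L (nat_lit 0x15e5)) (L (nat_lit 0))) (L (nat_lit 0)))) (L (nat_lit 0))))) (L (nat_lit 0))))) (N (N (N (N (N (N (N (N (L (nat_lit 0)) (N (L (nat_lit 0x4d4)) (L (nat_lit 0)))) (N (N (L (nat_lit 0x3a1)) (L (nat_lit 0))) (N (L (nat_lit 0xa52)) (L (nat_lit 0))))) (N (N (N (L (nat_lit 0x8a2)) (L (nat_lit 0x18a4))) (N (L (nat_lit 0x704)) (L (nat_lit 0)))) (N (N (L (nat_lit 0x1402)) (L (nat_lit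 0))) (N (L (nat_lit 0xfe6)) (L (nat_lit 0)))))) (N (N (N (N (L (nat_lit 0x2f2)) (L (nat_lit 0))) (N (L (nat_lit 0x1163)) (L (nat_lit 0)))) (N (N (L (nat_lit 0x3f3)) (L (nat_lit 0))) (N (L (nat_lit 0xf06)) (L (nat_lit 0))))) (N (N (N (L (nat_lit 0xdf2)) (L (nat_lit 0))) (L (nat_lit 0))) (N (L (nat_lit 0)) (N (L (nat_lit 0xdb1)) (L (nat_lit 0))))))) (N (N (N (N (N (L (nat_lit 0x221)) (L (nat_lit 0x1755))) (N (L (nat_lit 0xaa2)) (L (nat_lit 0)))) (N (N (L (nat_lit 0x1c3)) (L (nat_lit 0))) (N (L (nat_lit 0xd06)) (L (nat_lit 0))))) (N (N (N (L (nat_lit 0x322)) (L (nat_lit 0))) (N (L (nat_lit 0x1443)) (L (nat_lit 0)))) (N (N (L (nat_lit 0xb61)) (L (nat_lit 0))) (N (L (nat_lit 0xc22)) (L (nat_lit 0)))))) (N (N (N (N (L (nat_lit 0x383)) (L (nat_lit 0x1843))) (N (L (nat_lit 0x4e2)) (L (nat_lit 0)))) (N (N (L (nat_lit 0x444)) (L (nat_lit 0))) (N (L (nat_lit 0x7a1)) (L (nat_lit 0))))) (N (N (N (L (nat_lit 0x663)) (L (nat_lit 0))) (N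 (L (nat_lit 0xce4)) (L (nat_lit 0)))) (N (N (L (nat_lit 0x911)) (L (nat_lit 0))) (N (L (nat_lit 0x10c4)) (L (nat_lit 0)))))))) (L (nat_lit 0))) (N (N (N (N (N (L (nat_lit 0)) (N (N (L (nat_lit 0x182)) (L (nat_lit 0))) (L (nat_lit 0)))) (L (nat_lit 0))) (N (N (L (nat_lit 0)) (N (N (L (nat_lit 0x13d2)) (L (nat_lit 0))) (L (nat_lit 0)))) (N (L (nat_lit 0)) (N (L (nat_lit 0)) (N (L (nat_lit 0x1a36)) (L (nat_lit 0))))))) (N (N (N (L (nat_lit 0)) (N (N (L (nat_lit 0xa73)) (L (nat_lit 0))) (L (nat_lit 0)))) (L (nat_lit 0))) (N (N (N (L (nat_lit 0)) (N (L (nat_lit 0x1493)) (L (nat_lit 0)))) (N (N (L (nat_lit 0xef3)) (L (nat_lit 0))) (L (nat_lit 0)))) (L (nat_lit 0))))) (L (nat_lit 0)))) (N (N (N (N (N (N (N (L (nat_lit 0)) (N (L (nat_lit 0x1011)) (L (nat_lit 0)))) (N (N (L (nat_lit 0x8e1)) (L (nat_lit 0))) (N (L (nat_lit 0x1362)) (L (nat_lit 0))))) (N (N (L (nat_lit 0)) (N (L (nat_lit 0x1603)) (L (nat_lit 0)))) (N (L (nat_lit 0))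 (N (L (nat_lit 0x1a22)) (L (nat_lit 0)))))) (N (N (N (N (L (nat_lit 0x4b3)) (L (nat_lit 0))) (L (nat_lit 0))) (N (N (L (nat_lit 0x1204)) (L (nat_lit 0))) (N (L (nat_lit 0x1972)) (L (nat_lit 0))))) (N (L (nat_lit 0)) (N (L (nat_lit 0)) (N (L (nat_lit 0x1641)) (L (nat_lit 0))))))) (N (N (N (L (nat_lit 0)) (N (N (L (nat_lit 0xb76)) (L (nat_lit 0))) (N (L (nat_lit 0x14c4)) (L (nat_lit 0))))) (N (N (N (L (nat_lit 0xbb2)) (L (nat_lit 0))) (N (L (nat_lit 0x1892)) (L (nat_lit 0)))) (L (nat_lit 0)))) (N (N (N (N (L (nat_lit 0x6a2)) (L (nat_lit 0))) (N (L (nat_lit 0xd16)) (L (nat_lit 0)))) (N (N (L (nat_lit 0xf53)) (L (nat_lit 0))) (N (L (nat_lit 0x18d4)) (L (nat_lit 0))))) (N (L (nat_lit 0)) (N (L (nat_lit 0)) (N (L (nat_lit 0x1713)) (L (nat_lit 0)))))))) (L (nat_lit 0))) (N (N (L (nat_lit 0)) (N (N (N (L (nat_lit 0)) (N (N (L (nat_lit 0xee4)) (L (nat_lit 0))) (L (nat_lit 0)))) (L (nat_lit 0))) (N (N (L (nat_lit 0)) (N (N (L (nat_lit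 0x371)) (L (nat_lit 0))) (L (nat_lit 0)))) (L (nat_lit 0))))) (L (nat_lit 0))))))) (N (N (N (N (N (N (N (N (N (N (N (L (nat_lit 0xe0)) (L (nat_lit 0x18c0))) (N (L (nat_lit 0x950)) (L (nat_lit 0)))) (N (N (L (nat_lit 0x980)) (L (nat_lit 0))) (N (L (nat_lit 0xda0)) (L (nat_lit 0))))) (N (N (N (L (nat_lit 0x8a0)) (L (nat_lit 0x18a0))) (N (L (nat_lit 0x11c0)) (L (nat_lit 0)))) (N (N (L (nat_lit 0x1780)) (L (nat_lit 0))) (N (L (nat_lit 0x1590)) (L (nat_lit 0)))))) (N (N (N (N (L (nat_lit 0x1a0)) (L (nat_lit 0x1334))) (N (L (nat_lit 0x11a0)) (L (nat_lit 0)))) (N (N (L (nat_lit 0xb80)) (L (nat_lit 0))) (N (L (nat_lit 0x1370)) (L (nat_lit 0))))) (N (N (N (L (nat_lit 0xdf0)) (L (nat_lit 0))) (N (L (nat_lit 0x8c3)) (L (nat_lit 0)))) (N (N (L (nat_lit 0x7c0)) (L (nat_lit 0))) (N (L (nat_lit 0x1070)) (L (nat_lit 0))))))) (N (N (N (N (N (L (nat_lit 0x1e0)) (L (nat_lit 0x19a0))) (N (L (nat_lit 0x1120)) (L (nat_lit 0)))) (N (N (L (nat_lit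 0x890)) (L (nat_lit 0))) (N (L (nat_lit 0x1270)) (L (nat_lit 0))))) (N (N (N (L (nat_lit 0x830)) (L (nat_lit 0x1802))) (N (L (nat_lit 0xec0)) (L (nat_lit 0)))) (N (N (L (nat_lit 0x1980)) (L (nat_lit 0))) (N (L (nat_lit 0x1620)) (L (nat_lit 0)))))) (N (N (N (N (L (nat_lit 0x1f0)) (L (nat_lit 0x1860))) (N (L (nat_lit 0xac0)) (L (nat_lit 0)))) (N (N (L (nat_lit 0xe00)) (L (nat_lit 0))) (N (L (nat_lit 0x1560)) (L (nat_lit 0))))) (N (N (N (L (nat_lit 0x760)) (L (nat_lit 0))) (N (L (nat_lit 0xd50)) (L (nat_lit 0)))) (N (N (L (nat_lit 0xad0)) (L (nat_lit 0))) (N (L (nat_lit 0x1540)) (L (nat_lit 0)))))))) (N (L (nat_lit 0)) (N (N (N (L (nat_lit 0)) (N (N (L (nat_lit 0x1023)) (L (nat_lit 0))) (L (nat_lit 0)))) (L (nat_lit 0))) (L (nat_lit 0))))) (N (N (N (N (N (N (L (nat_lit 0)) (N (L (nat_lit 0x1111)) (L (nat_lit 0)))) (N (N (L (nat_lit 0xa33)) (L (nat_lit 0))) (N (L (nat_lit 0x1424)) (L (nat_lit 0))))) (N (N (L (nat_lit 0)) (N (L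 (nat_lit 0x1744)) (L (nat_lit 0)))) (N (L (nat_lit 0)) (N (L (nat_lit 0x1ab4)) (L (nat_lit 0)))))) (N (N (N (N (L (nat_lit 0x63)) (L (nat_lit 0))) (L (nat_lit 0))) (N (N (L (nat_lit 0xcd4)) (L (nat_lit 0))) (N (L (nat_lit 0x1a43)) (L (nat_lit 0))))) (N (L (nat_lit 0)) (N (L (nat_lit 0)) (N (L (nat_lit 0x1481)) (L (nat_lit 0))))))) (N (N (N (L (nat_lit 0)) (N (N (L (nat_lit 0xe31)) (L (nat_lit 0))) (N (L (nat_lit 0x1a12)) (L (nat_lit 0))))) (N (N (N (L (nat_lit 0xae2)) (L (nat_lit 0))) (L (nat_lit 0))) (L (nat_lit 0)))) (N (N (N (N (L (nat_lit 0x6a4)) (L (nat_lit 0))) (N (L (nat_lit 0x12e5)) (L (nat_lit 0)))) (N (N (L (nat_lit 0x13f3)) (L (nat_lit 0))) (L (nat_lit 0)))) (N (L (nat_lit 0)) (N (L (nat_lit 0)) (N (L (nat_lit 0x1431)) (L (nat_lit 0)))))))) (L (nat_lit 0)))) (N (N (N (N (N (N (N (L (nat_lit 0)) (N (L (nat_lit 0xb35)) (L (nat_lit 0)))) (N (N (L (nat_lit 0x981)) (L (nat_lit 0))) (N (L (nat_lit 0xcf3)) (L (nat_lit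 0))))) (N (N (N (L (nat_lit 0x801)) (L (nat_lit 0))) (N (L (nat_lit 0xdc5)) (L (nat_lit 0)))) (N (N (L (nat_lit 0x10b1)) (L (nat_lit 0))) (N (L (nat_lit 0x1596)) (L (nat_lit 0)))))) (N (N (N (N (L (nat_lit 0x342)) (L (nat_lit 0))) (N (L (nat_lit 0x15d3)) (L (nat_lit 0)))) (N (N (L (nat_lit 0x996)) (L (nat_lit 0))) (N (L (nat_lit 0x1376)) (L (nat_lit 0))))) (N (N (N (L (nat_lit 0xc01)) (L (nat_lit 0))) (L (nat_lit 0))) (N (L (nat_lit 0)) (N (L (nat_lit 0x15a4)) (L (nat_lit 0))))))) (N (N (N (N (N (L (nat_lit 0x132)) (L (nat_lit 0x1a64))) (N (L (nat_lit 0x14a4)) (L (nat_lit 0)))) (N (N (L (nat_lit 0x3e1)) (L (nat_lit 0))) (N (L (nat_lit 0x1274)) (L (nat_lit 0))))) (N (N (N (L (nat_lit 0x833)) (L (nat_lit 0))) (N (L (nat_lit 0x1003)) (L (nat_lit 0)))) (L (nat_lit 0)))) (N (N (N (N (L (nat_lit 0x415)) (L (nat_lit 0))) (N (L (nat_lit 0xa65)) (L (nat_lit 0)))) (N (N (L (nat_lit 0x632)) (L (nat_lit 0))) (N (L (nat_lit 0x1811)) (L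 (nat_lit 0))))) (N (N (N (L (nat_lit 0x4f2)) (L (nat_lit 0))) (N (L (nat_lit 0x1266)) (L (nat_lit 0)))) (N (N (L (nat_lit 0xed2)) (L (nat_lit 0))) (N (L (nat_lit 0x17b4)) (L (nat_lit 0)))))))) (L (nat_lit 0))) (N (N (N (L (nat_lit 0)) (N (N (L (nat_lit 0)) (N (N (L (nat_lit 0x13a1)) (L (nat_lit 0))) (L (nat_lit 0)))) (L (nat_lit 0)))) (N (N (N (L (nat_lit 0)) (N (N (L (nat_lit 0xd26)) (L (nat_lit 0))) (L (nat_lit 0)))) (L (nat_lit 0))) (N (N (N (L (nat_lit 0)) (N (L (nat_lit 0x16a5)) (L (nat_lit 0)))) (N (N (L (nat_lit 0x14b4)) (L (nat_lit 0))) (L (nat_lit 0)))) (L (nat_lit 0))))) (L (nat_lit 0))))) (N (N (N (N (N (N (N (N (N (L (nat_lit 0)) (L (nat_lit 0x7b1))) (N (L (nat_lit 0x584)) (L (nat_lit 0)))) (N (N (L (nat_lit 0x202)) (L (nat_lit 0))) (N (L (nat_lit 0x942)) (L (nat_lit 0))))) (N (N (N (L (nat_lit 0x824)) (L (nat_lit 0x1874))) (N (L (nat_lit 0x6c4)) (L (nat_lit 0)))) (N (N (L (nat_lit 0xe21)) (L (nat_lit 0))) (N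 (L (nat_lit 0xfb1)) (L (nat_lit 0)))))) (N (N (N (N (L (nat_lit 0x143)) (L (nat_lit 0))) (N (L (nat_lit 0xb03)) (L (nat_lit 0)))) (N (N (L (nat_lit 0x3f6)) (L (nat_lit 0))) (N (L (nat_lit 0xe65)) (L (nat_lit 0))))) (N (N (N (L (nat_lit 0xc32)) (L (nat_lit 0))) (L (nat_lit 0))) (N (N (L (nat_lit 0x2d2)) (L (nat_lit 0))) (N (L (nat_lit 0x1171)) (L (nat_lit 0))))))) (N (N (N (N (N (L (nat_lit 0x193)) (L (nat_lit 0x15b3))) (N (L (nat_lit 0xaa5)) (L (nat_lit 0)))) (N (N (L (nat_lit 0x1020)) (L (nat_lit 0))) (N (L (nat_lit 0xfa1)) (L (nat_lit 0))))) (N (N (N (L (nat_lit 0x1b3)) (L (nat_lit 0))) (N (L (nat_lit 0x772)) (L (nat_lit 0)))) (N (N (L (nat_lit 0x1984)) (L (nat_lit 0))) (N (L (nat_lit 0x1623)) (L (nat_lit 0)))))) (N (N (N (N (L (nat_lit 0x1d1)) (L (nat_lit 0x16d1))) (N (L (nat_lit 0x402)) (L (nat_lit 0)))) (N (N (L (nat_lit 0x374)) (L (nat_lit 0))) (N (L (nat_lit 0x781)) (L (nat_lit 0))))) (N (N (N (L (nat_lit 0x461)) (L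 (nat_lit 0))) (N (L (nat_lit 0xce6)) (L (nat_lit 0)))) (N (N (L (nat_lit 0x4c1)) (L (nat_lit 0))) (N (L (nat_lit 0xf15)) (L (nat_lit 0)))))))) (L (nat_lit 0))) (N (N (N (N (N (L (nat_lit 0)) (N (N (L (nat_lit 0xde1)) (L (nat_lit 0))) (N (L (nat_lit 0x19e3)) (L (nat_lit 0))))) (L (nat_lit 0))) (N (N (L (nat_lit 0)) (N (N (L (nat_lit 0x13d5)) (L (nat_lit 0))) (L (nat_lit 0)))) (N (L (nat_lit 0)) (N (L (nat_lit 0)) (N (L (nat_lit 0x16b3)) (L (nat_lit 0))))))) (N (N (N (L (nat_lit 0)) (N (N (L (nat_lit 0x933)) (L (nat_lit 0))) (L (nat_lit 0)))) (L (nat_lit 0))) (N (N (N (L (nat_lit 0)) (N (L (nat_lit 0x1514)) (L (nat_lit 0)))) (N (N (L (nat_lit 0xef5)) (L (nat_lit 0))) (L (nat_lit 0)))) (L (nat_lit 0))))) (L (nat_lit 0)))) (N (N (N (N (N (N (N (L (nat_lit 0)) (N (L (nat_lit 0xf34)) (L (nat_lit 0)))) (N (N (L (nat_lit 0x8b1)) (L (nat_lit 0))) (N (L (nat_lit 0x1312)) (L (nat_lit 0))))) (N (N (L (nat_lit 0)) (N (L (nat_lit 0x1571))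 (L (nat_lit 0)))) (N (N (L (nat_lit 0x17e1)) (L (nat_lit 0))) (N (L (nat_lit 0x19c1)) (L (nat_lit 0)))))) (N (N (N (N (L (nat_lit 0x424)) (L (nat_lit 0))) (L (nat_lit 0))) (N (N (L (nat_lit 0x11e4)) (L (nat_lit 0))) (N (L (nat_lit 0x1534)) (L (nat_lit 0))))) (N (L (nat_lit 0)) (N (L (nat_lit 0)) (N (L (nat_lit 0x14e5)) (L (nat_lit 0))))))) (N (N (N (L (nat_lit 0)) (N (N (L (nat_lit 0x9c2)) (L (nat_lit 0))) (N (L (nat_lit 0x14c6)) (L (nat_lit 0))))) (N (N (N (L (nat_lit 0x9b2)) (L (nat_lit 0))) (N (L (nat_lit 0x1853)) (L (nat_lit 0)))) (L (nat_lit 0)))) (N (N (N (N (L (nat_lit 0x5a3)) (L (nat_lit 0))) (N (L (nat_lit 0x1184)) (L (nat_lit 0)))) (N (N (L (nat_lit 0xc63)) (L (nat_lit 0))) (N (L (nat_lit 0x1884)) (L (nat_lit 0))))) (N (N (N (L (nat_lit 0x791)) (L (nat_lit 0))) (N (L (nat_lit 0x1962)) (L (nat_lit 0)))) (N (L (nat_lit 0)) (N (L (nat_lit 0x16c3)) (L (nat_lit 0)))))))) (L (nat_lit 0))) (N (N (L (nat_lit 0)) (N (N (N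 (L (nat_lit 0)) (N (N (L (nat_lit 0xfc4)) (L (nat_lit 0))) (L (nat_lit 0)))) (L (nat_lit 0))) (N (N (L (nat_lit 0)) (N (N (L (nat_lit 0x1584)) (L (nat_lit 0))) (L (nat_lit 0)))) (L (nat_lit 0))))) (L (nat_lit 0)))))) (N (N (N (N (N (N (N (N (N (N (L (nat_lit 1)) (L (nat_lit 0x10d1))) (N (L (nat_lit 0x1110)) (L (nat_lit 0)))) (N (N (L (nat_lit 0xd30)) (L (nat_lit 0))) (N (L (nat_lit 0x19b0)) (L (nat_lit 0))))) (N (N (N (L (nat_lit 0x173)) (L (nat_lit 0x1723))) (N (L (nat_lit 0x1740)) (L (nat_lit 0)))) (N (N (L (nat_lit 0x5d2)) (L (nat_lit 0))) (N (L (nat_lit 0xba1)) (L (nat_lit 0)))))) (N (N (N (N (L (nat_lit 0x500)) (L (nat_lit 0x1832))) (N (L (nat_lit 0x592)) (L (nat_lit 0)))) (N (N (L (nat_lit 0x1290)) (L (nat_lit 0))) (N (L (nat_lit 0xb16)) (L (nat_lit 0))))) (N (N (N (L (nat_lit 0x5c3)) (L (nat_lit 0))) (L (nat_lit 0))) (N (N (L (nat_lit 0x531)) (L (nat_lit 0))) (N (L (nat_lit 0x16b0)) (L (nat_lit 0))))))) (N (N (N (N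 (N (L (nat_lit 0x32)) (L (nat_lit 0xff4))) (N (L (nat_lit 0x491)) (L (nat_lit 0)))) (N (N (L (nat_lit 0xa70)) (L (nat_lit 0))) (N (L (nat_lit 0x9a2)) (L (nat_lit 0))))) (N (N (N (L (nat_lit 0xb40)) (L (nat_lit 0))) (N (L (nat_lit 0x611)) (L (nat_lit 0)))) (N (N (L (nat_lit 0xf62)) (L (nat_lit 0))) (N (L (nat_lit 0xd62)) (L (nat_lit 0)))))) (N (N (N (N (L (nat_lit 0x730)) (L (nat_lit 0x14f6))) (N (L (nat_lit 0x1490)) (L (nat_lit 0)))) (N (N (L (nat_lit 0xef0)) (L (nat_lit 0))) (N (L (nat_lit 0x653)) (L (nat_lit 0))))) (N (N (N (L (nat_lit 0xa2)) (L (nat_lit 0))) (N (L (nat_lit 0x901)) (L (nat_lit 0)))) (N (N (L (nat_lit 0x291)) (L (nat_lit 0))) (N (L (nat_lit 0xe11)) (L (nat_lit 0)))))))) (L (nat_lit 0))) (N (N (N (N (N (L (nat_lit 0)) (N (N (L (nat_lit 0xd32)) (L (nat_lit 0))) (N (L (nat_lit 0x1923)) (L (nat_lit 0))))) (L (nat_lit 0))) (N (N (L (nat_lit 0)) (N (N (L (nat_lit 0x1252)) (L (nat_lit 0))) (L (nat_lit 0)))) (N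 (L (nat_lit 0)) (N (L (nat_lit 0)) (N (L (nat_lit 0x1675)) (L (nat_lit 0))))))) (N (N (N (L (nat_lit 0)) (N (N (L (nat_lit 0x8f1)) (L (nat_lit 0))) (L (nat_lit 0)))) (N (N (N (L (nat_lit 0xbf2)) (L (nat_lit 0))) (L (nat_lit 0))) (L (nat_lit 0)))) (N (N (N (L (nat_lit 0)) (N (L (nat_lit 0x1341)) (L (nat_lit 0)))) (N (N (L (nat_lit 0xd91)) (L (nat_lit 0))) (L (nat_lit 0)))) (L (nat_lit 0))))) (L (nat_lit 0)))) (N (N (N (N (N (N (N (L (nat_lit 0)) (N (L (nat_lit 0xbc3)) (L (nat_lit 0)))) (N (N (L (nat_lit 0xc14)) (L (nat_lit 0))) (N (L (nat_lit 0x13b4)) (L (nat_lit 0))))) (N (N (L (nat_lit 0)) (N (L (nat_lit 0xfd2)) (L (nat_lit 0)))) (N (N (L (nat_lit 0x17e3)) (L (nat_lit 0))) (N (L (nat_lit 0x1994)) (L (nat_lit 0)))))) (N (N (N (N (L (nat_lit 0x3c3)) (L (nat_lit 0))) (L (nat_lit 0))) (N (N (L (nat_lit 0xb83)) (L (nat_lit 0))) (N (L (nat_lit 0x14d5)) (L (nat_lit 0))))) (N (L (nat_lit 0)) (N (L (nat_lit 0)) (N (L (nat_lit 0x12d5))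 (L (nat_lit 0))))))) (N (N (N (N (N (L (nat_lit 0)) (L (nat_lit 0x1ad4))) (N (L (nat_lit 0x1282)) (L (nat_lit 0)))) (N (N (L (nat_lit 0x433)) (L (nat_lit 0))) (N (L (nat_lit 0x1324)) (L (nat_lit 0))))) (N (N (N (L (nat_lit 0x971)) (L (nat_lit 0))) (N (L (nat_lit 0x17d4)) (L (nat_lit 0)))) (L (nat_lit 0)))) (N (N (N (N (L (nat_lit 0x624)) (L (nat_lit 0))) (N (L (nat_lit 0xac1)) (L (nat_lit 0)))) (N (N (L (nat_lit 0xe02)) (L (nat_lit 0))) (N (L (nat_lit 0x10f1)) (L (nat_lit 0))))) (N (N (N (L (nat_lit 0x7d3)) (L (nat_lit 0))) (N (L (nat_lit 0x12a5)) (L (nat_lit 0)))) (N (N (L (nat_lit 0x10a2)) (L (nat_lit 0))) (N (L (nat_lit 0x1631)) (L (nat_lit 0)))))))) (L (nat_lit 0))) (N (N (L (nat_lit 0)) (N (N (N (L (nat_lit 0)) (N (N (L (nat_lit 0xe85)) (L (nat_lit 0))) (L (nat_lit 0)))) (L (nat_lit 0))) (N (N (N (L (nat_lit 0)) (N (L (nat_lit 0x1703)) (L (nat_lit 0)))) (N (N (L (nat_lit 0x15e3)) (L (nat_lit 0))) (L (nat_lit 0)))) (L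 (nat_lit 0))))) (L (nat_lit 0))))) (N (N (N (N (N (N (N (N (L (nat_lit 0)) (N (L (nat_lit 0x514)) (L (nat_lit 0)))) (N (N (L (nat_lit 0x3d4)) (L (nat_lit 0))) (N (L (nat_lit 0xe54)) (L (nat_lit 0))))) (N (N (N (L (nat_lit 0x921)) (L (nat_lit 0x1ae2))) (N (L (nat_lit 0xb25)) (L (nat_lit 0)))) (N (N (L (nat_lit 0x1033)) (L (nat_lit 0))) (N (L (nat_lit 0xfe2)) (L (nat_lit 0)))))) (N (N (N (N (L (nat_lit 0x162)) (L (nat_lit 0))) (N (L (nat_lit 0x11a3)) (L (nat_lit 0)))) (N (N (L (nat_lit 0x5f2)) (L (nat_lit 0))) (N (L (nat_lit 0xf04)) (L (nat_lit 0))))) (N (N (N (L (nat_lit 0x1192)) (L (nat_lit 0))) (L (nat_lit 0))) (N (L (nat_lit 0)) (N (L (nat_lit 0xdb3)) (L (nat_lit 0))))))) (N (N (N (N (N (L (nat_lit 0x273)) (L (nat_lit 0x19a4))) (N (L (nat_lit 0x1122)) (L (nat_lit 0)))) (N (N (L (nat_lit 0x242)) (L (nat_lit 0))) (N (L (nat_lit 0xea6)) (L (nat_lit 0))))) (N (N (N (L (nat_lit 0x354)) (L (nat_lit 0))) (N (L (nat_lit 0xec4))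 (L (nat_lit 0)))) (L (nat_lit 0)))) (N (N (N (N (L (nat_lit 0x1f4)) (L (nat_lit 0x1863))) (N (L (nat_lit 0x691)) (L (nat_lit 0)))) (N (N (L (nat_lit 0x605)) (L (nat_lit 0))) (N (L (nat_lit 0xf21)) (L (nat_lit 0))))) (N (N (N (L (nat_lit 0x283)) (L (nat_lit 0))) (N (L (nat_lit 0xcb1)) (L (nat_lit 0)))) (N (N (L (nat_lit 0xad2)) (L (nat_lit 0))) (N (L (nat_lit 0x1434)) (L (nat_lit 0)))))))) (L (nat_lit 0))) (N (N (N (L (nat_lit 0)) (N (N (L (nat_lit 0)) (N (N (L (nat_lit 0x1302)) (L (nat_lit 0))) (L (nat_lit 0)))) (N (L (nat_lit 0)) (N (L (nat_lit 0)) (N (L (nat_lit 0x1a93)) (L (nat_lit 0))))))) (N (N (N (L (nat_lit 0)) (N (N (L (nat_lit 0xa94)) (L (nat_lit 0))) (L (nat_lit 0)))) (L (nat_lit 0))) (N (N (N (L (nat_lit 0)) (N (L (nat_lit 0x15c2)) (L (nat_lit 0)))) (N (N (L (nat_lit 0x12f2)) (L (nat_lit 0))) (L (nat_lit 0)))) (L (nat_lit 0))))) (L (nat_lit 0)))) (N (N (N (N (N (N (N (L (nat_lit 0)) (N (L (nat_lit 0x1093)) (L (nat_lit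 0)))) (N (N (L (nat_lit 0x9f4)) (L (nat_lit 0))) (N (L (nat_lit 0x1243)) (L (nat_lit 0))))) (N (N (L (nat_lit 0)) (N (L (nat_lit 0x1764)) (L (nat_lit 0)))) (N (L (nat_lit 0)) (N (L (nat_lit 0x1a24)) (L (nat_lit 0)))))) (N (N (N (N (L (nat_lit 0x5b1)) (L (nat_lit 0))) (L (nat_lit 0))) (N (N (L (nat_lit 0xc91)) (L (nat_lit 0))) (N (L (nat_lit 0x1a01)) (L (nat_lit 0))))) (N (L (nat_lit 0)) (N (L (nat_lit 0)) (N (L (nat_lit 0x17a5)) (L (nat_lit 0))))))) (N (N (N (L (nat_lit 0)) (N (N (L (nat_lit 0xb72)) (L (nat_lit 0))) (N (L (nat_lit 0x1943)) (L (nat_lit 0))))) (N (N (N (L (nat_lit 0xa22)) (L (nat_lit 0))) (L (nat_lit 0))) (L (nat_lit 0)))) (N (N (N (N (L (nat_lit 0x733)) (L (nat_lit 0))) (N (L (nat_lit 0xd11)) (L (nat_lit 0)))) (N (N (L (nat_lit 0x1216)) (L (nat_lit 0))) (N (L (nat_lit 0x651)) (L (nat_lit 0))))) (N (L (nat_lit 0)) (N (L (nat_lit 0)) (N (L (nat_lit 0x1a82)) (L (nat_lit 0)))))))) (L (nat_lit 0))) (N (N (L (nat_lit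 0)) (N (N (N (L (nat_lit 0)) (N (N (L (nat_lit 0xf41)) (L (nat_lit 0))) (L (nat_lit 0)))) (L (nat_lit 0))) (L (nat_lit 0)))) (L (nat_lit 0))))))))) Tr.N Tr.L
noncomputable def tWU_3 : Tr := (fun (N : Tr → Tr → Tr) (L : ℕ → Tr) => (N (N (N (N (N (N (N (N (N (N (N (N (L (nat_lit 0x80)) (L (nat_lit 0x10d0))) (N (L (nat_lit 0x4d0)) (L (nat_lit 0)))) (N (N (L (nat_lit 0x3d0)) (L (nat_lit 0))) (N (L (nat_lit 0xe50)) (L (nat_lit 0))))) (N (N (N (L (nat_lit 0x800)) (L (nat_lit 0x17c0))) (N (L (nat_lit 0x700)) (L (nat_lit 0)))) (N (N (L (nat_lit 0xe20)) (L (nat_lit 0))) (N (L (nat_lit 0xfe0)) (L (nat_lit 0)))))) (N (N (N (N (L (nat_lit 0x2f0)) (L (nat_lit 0x1830))) (N (L (nat_lit 0xb00)) (L (nat_lit 0)))) (N (N (L (nat_lit 0x870)) (L (nat_lit 0))) (N (L (nat_lit 0xf00)) (L (nat_lit 0))))) (N (N (N (L (nat_lit 0xc00)) (L (nat_lit 0))) (N (L (nat_lit 0x1230)) (L (nat_lit 0)))) (N (N (L (nat_lit 0x530)) (L (nat_lit 0))) (N (L (nat_lit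 0xeb0)) (L (nat_lit 0))))))) (N (N (N (N (N (L (nat_lit 0x130)) (L (nat_lit 0x15b0))) (N (L (nat_lit 0xa00)) (L (nat_lit 0)))) (N (N (L (nat_lit 0x3e0)) (L (nat_lit 0))) (N (L (nat_lit 0xd00)) (L (nat_lit 0))))) (N (N (N (L (nat_lit 0x350)) (L (nat_lit 0x18e0))) (N (L (nat_lit 0xe70)) (L (nat_lit 0)))) (N (N (L (nat_lit 0x1910)) (L (nat_lit 0))) (N (L (nat_lit 0x1470)) (L (nat_lit 0)))))) (N (N (N (N (L (nat_lit 0x380)) (L (nat_lit 0x16d0))) (N (L (nat_lit 0x6b0)) (L (nat_lit 0)))) (N (N (L (nat_lit 0x630)) (L (nat_lit 0))) (N (L (nat_lit 0x7a0)) (L (nat_lit 0))))) (N (N (N (L (nat_lit 0x460)) (L (nat_lit 0))) (N (L (nat_lit 0xce0)) (L (nat_lit 0)))) (N (N (L (nat_lit 0x4c0)) (L (nat_lit 0))) (N (L (nat_lit 0x10c0)) (L (nat_lit 0)))))))) (N (L (nat_lit 0)) (N (N (N (L (nat_lit 0)) (N (N (L (nat_lit 0x1024)) (L (nat_lit 0))) (L (nat_lit 0)))) (L (nat_lit 0))) (L (nat_lit 0))))) (N (N (N (N (N (N (L (nat_lit 0)) (N (L (nat_lit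 0x1114)) (L (nat_lit 0)))) (N (N (L (nat_lit 0xa31)) (L (nat_lit 0))) (N (L (nat_lit 0x12b4)) (L (nat_lit 0))))) (N (N (L (nat_lit 0)) (N (L (nat_lit 0x16f2)) (L (nat_lit 0)))) (N (L (nat_lit 0)) (N (L (nat_lit 0x1a53)) (L (nat_lit 0)))))) (N (N (N (N (L (nat_lit 0x541)) (L (nat_lit 0))) (L (nat_lit 0))) (N (N (L (nat_lit 0xcd2)) (L (nat_lit 0))) (N (L (nat_lit 0x1a42)) (L (nat_lit 0))))) (N (L (nat_lit 0)) (N (L (nat_lit 0)) (N (L (nat_lit 0x1484)) (L (nat_lit 0))))))) (N (N (N (L (nat_lit 0)) (N (N (L (nat_lit 0xc73)) (L (nat_lit 0))) (N (L (nat_lit 0x19f3)) (L (nat_lit 0))))) (N (N (N (L (nat_lit 0xae1)) (L (nat_lit 0))) (L (nat_lit 0))) (L (nat_lit 0)))) (N (N (N (N (L (nat_lit 0x411)) (L (nat_lit 0))) (N (L (nat_lit 0xf93)) (L (nat_lit 0)))) (N (N (L (nat_lit 0x13f5)) (L (nat_lit 0))) (L (nat_lit 0)))) (N (L (nat_lit 0)) (N (L (nat_lit 0)) (N (L (nat_lit 0xe12)) (L (nat_lit 0)))))))) (L (nat_lit 0)))) (N (N (N (N (N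 (N (N (L (nat_lit 0)) (N (L (nat_lit 0x954)) (L (nat_lit 0)))) (N (N (L (nat_lit 0x844)) (L (nat_lit 0))) (N (L (nat_lit 0xcf5)) (L (nat_lit 0))))) (N (N (N (L (nat_lit 0x962)) (L (nat_lit 0))) (N (L (nat_lit 0x11c1)) (L (nat_lit 0)))) (N (N (L (nat_lit 0x1062)) (L (nat_lit 0))) (N (L (nat_lit 0x13c2)) (L (nat_lit 0)))))) (N (N (N (N (L (nat_lit 0x341)) (L (nat_lit 0))) (N (L (nat_lit 0x15d1)) (L (nat_lit 0)))) (N (N (L (nat_lit 0x992)) (L (nat_lit 0))) (N (L (nat_lit 0x12c5)) (L (nat_lit 0))))) (N (N (N (L (nat_lit 0x301)) (L (nat_lit 0))) (L (nat_lit 0))) (N (L (nat_lit 0)) (N (L (nat_lit 0x15a5)) (L (nat_lit 0))))))) (N (N (N (N (N (L (nat_lit 0x22)) (L (nat_lit 0x1a63))) (N (L (nat_lit 0x1281)) (L (nat_lit 0)))) (N (N (L (nat_lit 0x553)) (L (nat_lit 0))) (N (L (nat_lit 0x1276)) (L (nat_lit 0))))) (N (N (N (L (nat_lit 0x831)) (L (nat_lit 0))) (N (L (nat_lit 0x1002)) (L (nat_lit 0)))) (L (nat_lit 0)))) (N (N (N (N (L (nat_lit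 0x233)) (L (nat_lit 0x1382))) (N (L (nat_lit 0x6b2)) (L (nat_lit 0)))) (N (N (L (nat_lit 0x634)) (L (nat_lit 0))) (N (L (nat_lit 0x1814)) (L (nat_lit 0))))) (N (N (N (L (nat_lit 0x4f4)) (L (nat_lit 0))) (N (L (nat_lit 0xd54)) (L (nat_lit 0)))) (N (N (L (nat_lit 0xed1)) (L (nat_lit 0))) (N (L (nat_lit 0x1543)) (L (nat_lit 0)))))))) (L (nat_lit 0))) (N (N (N (L (nat_lit 0)) (N (N (L (nat_lit 0)) (N (N (L (nat_lit 0x1353)) (L (nat_lit 0))) (L (nat_lit 0)))) (L (nat_lit 0)))) (N (N (N (L (nat_lit 0)) (N (N (L (nat_lit 0xaf2)) (L (nat_lit 0))) (L (nat_lit 0)))) (L (nat_lit 0))) (N (N (N (L (nat_lit 0)) (N (L (nat_lit 0x1662)) (L (nat_lit 0)))) (N (N (L (nat_lit 0x1452)) (L (nat_lit 0))) (L (nat_lit 0)))) (L (nat_lit 0))))) (L (nat_lit 0))))) (N (N (N (N (N (N (N (N (N (L (nat_lit 0)) (L (nat_lit 0x18f1))) (N (L (nat_lit 0x2c3)) (L (nat_lit 0)))) (N (N (L (nat_lit 0x204)) (L (nat_lit 0))) (N (L (nat_lit 0x941)) (L (nat_lit 0)))))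 (N (N (N (L (nat_lit 0x825)) (L (nat_lit 0x17c2))) (N (L (nat_lit 0x521)) (L (nat_lit 0)))) (N (N (L (nat_lit 0x742)) (L (nat_lit 0))) (N (L (nat_lit 0xfb6)) (L (nat_lit 0)))))) (N (N (N (N (L (nat_lit 0x62)) (L (nat_lit 0))) (N (L (nat_lit 0xb01)) (L (nat_lit 0)))) (N (N (L (nat_lit 0x331)) (L (nat_lit 0))) (N (L (nat_lit 0xe66)) (L (nat_lit 0))))) (N (N (N (L (nat_lit 0xc34)) (L (nat_lit 0))) (L (nat_lit 0))) (N (N (L (nat_lit 0x7f1)) (L (nat_lit 0))) (N (L (nat_lit 0xc53)) (L (nat_lit 0))))))) (N (N (N (N (N (L (nat_lit 0x191)) (L (nat_lit 0x1102))) (N (L (nat_lit 0xa04)) (L (nat_lit 0)))) (N (N (L (nat_lit 0xee0)) (L (nat_lit 0))) (N (L (nat_lit 0xab3)) (L (nat_lit 0))))) (N (N (N (L (nat_lit 0x1b4)) (L (nat_lit 0))) (N (L (nat_lit 0x773)) (L (nat_lit 0)))) (N (N (L (nat_lit 0x1932)) (L (nat_lit 0))) (N (L (nat_lit 0x1043)) (L (nat_lit 0)))))) (N (N (N (N (L (nat_lit 0x92)) (L (nat_lit 0x16d5))) (N (L (nat_lit 0x404))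 (L (nat_lit 0)))) (N (N (L (nat_lit 0x1580)) (L (nat_lit 0))) (N (L (nat_lit 0x784)) (L (nat_lit 0))))) (N (N (N (L (nat_lit 0x263)) (L (nat_lit 0))) (N (L (nat_lit 0xa13)) (L (nat_lit 0)))) (N (N (L (nat_lit 0x4c4)) (L (nat_lit 0))) (N (L (nat_lit 0x11b2)) (L (nat_lit 0)))))))) (L (nat_lit 0))) (N (N (N (N (N (L (nat_lit 0)) (N (N (L (nat_lit 0xd83)) (L (nat_lit 0))) (N (L (nat_lit 0x19b3)) (L (nat_lit 0))))) (L (nat_lit 0))) (N (N (L (nat_lit 0)) (N (N (L (nat_lit 0x1293)) (L (nat_lit 0))) (L (nat_lit 0)))) (N (L (nat_lit 0)) (N (L (nat_lit 0)) (N (L (nat_lit 0x16b4)) (L (nat_lit 0))))))) (N (N (N (L (nat_lit 0)) (N (N (L (nat_lit 0x934)) (L (nat_lit 0))) (L (nat_lit 0)))) (L (nat_lit 0))) (N (N (N (L (nat_lit 0)) (N (L (nat_lit 0x1512)) (L (nat_lit 0)))) (N (N (L (nat_lit 0xe92)) (L (nat_lit 0))) (L (nat_lit 0)))) (L (nat_lit 0))))) (L (nat_lit 0)))) (N (N (N (N (N (N (N (L (nat_lit 0)) (N (L (nat_lit 0xf35)) (L (nat_lit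 0)))) (N (N (L (nat_lit 0xc83)) (L (nat_lit 0))) (N (L (nat_lit 0x1311)) (L (nat_lit 0))))) (N (N (L (nat_lit 0)) (N (L (nat_lit 0x1575)) (L (nat_lit 0)))) (N (N (L (nat_lit 0xe22)) (L (nat_lit 0))) (N (L (nat_lit 0x19c6)) (L (nat_lit 0)))))) (N (N (N (N (L (nat_lit 0x422)) (L (nat_lit 0))) (L (nat_lit 0))) (N (N (L (nat_lit 0xc43)) (L (nat_lit 0))) (N (L (nat_lit 0x1535)) (L (nat_lit 0))))) (N (L (nat_lit 0)) (N (L (nat_lit 0)) (N (L (nat_lit 0x14e1)) (L (nat_lit 0))))))) (N (N (N (L (nat_lit 0)) (N (N (L (nat_lit 0x9c1)) (L (nat_lit 0))) (N (L (nat_lit 0x1464)) (L (nat_lit 0))))) (N (N (N (L (nat_lit 0x9b1)) (L (nat_lit 0))) (N (L (nat_lit 0x1854)) (L (nat_lit 0)))) (L (nat_lit 0)))) (N (N (N (N (L (nat_lit 0x4a2)) (L (nat_lit 0))) (N (L (nat_lit 0xbd2)) (L (nat_lit 0)))) (N (N (L (nat_lit 0xc62)) (L (nat_lit 0))) (N (L (nat_lit 0x16e2)) (L (nat_lit 0))))) (N (N (N (L (nat_lit 0x661)) (L (nat_lit 0))) (N (L (nat_lit 0x1903))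 (L (nat_lit 0)))) (N (L (nat_lit 0)) (N (L (nat_lit 0x16c4)) (L (nat_lit 0)))))))) (L (nat_lit 0))) (N (N (L (nat_lit 0)) (N (N (N (L (nat_lit 0)) (N (N (L (nat_lit 0xfc1)) (L (nat_lit 0))) (L (nat_lit 0)))) (L (nat_lit 0))) (N (N (L (nat_lit 0)) (N (N (L (nat_lit 0x1524)) (L (nat_lit 0))) (L (nat_lit 0)))) (L (nat_lit 0))))) (L (nat_lit 0)))))) (N (N (N (N (N (N (N (N (N (N (L (nat_lit 0xe2)) (L (nat_lit 0x7e1))) (N (L (nat_lit 0x1090)) (L (nat_lit 0)))) (N (N (L (nat_lit 0xa30)) (L (nat_lit 0))) (N (L (nat_lit 0x1420)) (L (nat_lit 0))))) (N (N (N (L (nat_lit 0x171)) (L (nat_lit 0x1552))) (N (L (nat_lit 0x1760)) (L (nat_lit 0)))) (N (N (L (nat_lit 0x1820)) (L (nat_lit 0))) (N (L (nat_lit 0x1ab0)) (L (nat_lit 0)))))) (N (N (N (N (L (nat_lit 0x4b0)) (L (nat_lit 0x1681))) (N (L (nat_lit 0x593)) (L (nat_lit 0)))) (N (N (L (nat_lit 0xe40)) (L (nat_lit 0))) (N (L (nat_lit 0x9e1)) (L (nat_lit 0))))) (N (N (N (L (nat_lit 0x363))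 (L (nat_lit 0))) (N (L (nat_lit 0x1231)) (L (nat_lit 0)))) (N (N (L (nat_lit 0x2d1)) (L (nat_lit 0))) (N (L (nat_lit 0x15f0)) (L (nat_lit 0))))))) (N (N (N (N (N (L (nat_lit 0x33)) (L (nat_lit 0xf72))) (N (L (nat_lit 0x494)) (L (nat_lit 0)))) (N (N (L (nat_lit 0x8f0)) (L (nat_lit 0))) (N (L (nat_lit 0x1a10)) (L (nat_lit 0))))) (N (N (N (L (nat_lit 0xa80)) (L (nat_lit 0x1801))) (N (L (nat_lit 0x1890)) (L (nat_lit 0)))) (N (N (L (nat_lit 0xf64)) (L (nat_lit 0))) (N (L (nat_lit 0xd64)) (L (nat_lit 0)))))) (N (N (N (N (L (nat_lit 0x6a0)) (L (nat_lit 0x1381))) (N (L (nat_lit 0x1340)) (L (nat_lit 0)))) (N (N (L (nat_lit 0xd90)) (L (nat_lit 0))) (N (L (nat_lit 0x18d0)) (L (nat_lit 0))))) (N (N (N (L (nat_lit 0x7d0)) (L (nat_lit 0))) (N (L (nat_lit 0x852)) (L (nat_lit 0)))) (N (N (L (nat_lit 0x211)) (L (nat_lit 0))) (N (L (nat_lit 0x1a80)) (L (nat_lit 0)))))))) (L (nat_lit 0))) (N (N (N (N (N (N (L (nat_lit 0)) (N (L (nat_lit 0x1012))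 (L (nat_lit 0)))) (N (N (L (nat_lit 0xd31)) (L (nat_lit 0))) (N (L (nat_lit 0x1925)) (L (nat_lit 0))))) (N (N (L (nat_lit 0)) (N (L (nat_lit 0xdc2)) (L (nat_lit 0)))) (L (nat_lit 0)))) (N (N (N (N (L (nat_lit 0x542)) (L (nat_lit 0))) (L (nat_lit 0))) (N (N (L (nat_lit 0x1251)) (L (nat_lit 0))) (L (nat_lit 0)))) (N (L (nat_lit 0)) (N (L (nat_lit 0)) (N (L (nat_lit 0x15f3)) (L (nat_lit 0))))))) (N (N (N (L (nat_lit 0)) (N (N (L (nat_lit 0xf83)) (L (nat_lit 0))) (L (nat_lit 0)))) (N (N (N (L (nat_lit 0xb43)) (L (nat_lit 0))) (L (nat_lit 0))) (L (nat_lit 0)))) (N (N (N (L (nat_lit 0)) (N (L (nat_lit 0x1345)) (L (nat_lit 0)))) (N (N (L (nat_lit 0xd95)) (L (nat_lit 0))) (L (nat_lit 0)))) (L (nat_lit 0))))) (L (nat_lit 0)))) (N (N (N (N (N (N (N (L (nat_lit 0)) (N (L (nat_lit 0xbc1)) (L (nat_lit 0)))) (N (N (L (nat_lit 0xc12)) (L (nat_lit 0))) (N (L (nat_lit 0xda3)) (L (nat_lit 0))))) (N (N (L (nat_lit 0)) (N (L (nat_lit 0xfd1))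 (L (nat_lit 0)))) (N (N (L (nat_lit 0x17e4)) (L (nat_lit 0))) (N (L (nat_lit 0x1992)) (L (nat_lit 0)))))) (N (N (N (N (L (nat_lit 0x3c4)) (L (nat_lit 0))) (L (nat_lit 0))) (N (N (L (nat_lit 0xb85)) (L (nat_lit 0))) (N (L (nat_lit 0x14d6)) (L (nat_lit 0))))) (N (L (nat_lit 0)) (N (L (nat_lit 0)) (N (L (nat_lit 0x1072)) (L (nat_lit 0))))))) (N (N (N (N (N (L (nat_lit 0)) (L (nat_lit 0x1ad5))) (N (L (nat_lit 0x3b1)) (L (nat_lit 0)))) (N (N (L (nat_lit 0x434)) (L (nat_lit 0))) (N (L (nat_lit 0x1325)) (L (nat_lit 0))))) (N (N (N (L (nat_lit 0x863)) (L (nat_lit 0))) (N (L (nat_lit 0x1504)) (L (nat_lit 0)))) (L (nat_lit 0)))) (N (N (N (N (L (nat_lit 0x623)) (L (nat_lit 0))) (N (L (nat_lit 0xac4)) (L (nat_lit 0)))) (N (N (L (nat_lit 0x9d4)) (L (nat_lit 0))) (N (L (nat_lit 0x10f4)) (L (nat_lit 0))))) (N (N (N (L (nat_lit 0x793)) (L (nat_lit 0))) (N (L (nat_lit 0x12a6)) (L (nat_lit 0)))) (N (N (L (nat_lit 0x10a1)) (L (nat_lit 0)))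 (N (L (nat_lit 0x17f3)) (L (nat_lit 0)))))))) (L (nat_lit 0))) (N (N (L (nat_lit 0)) (N (N (N (L (nat_lit 0)) (N (N (L (nat_lit 0xe86)) (L (nat_lit 0))) (L (nat_lit 0)))) (L (nat_lit 0))) (N (N (N (L (nat_lit 0)) (N (L (nat_lit 0x1701)) (L (nat_lit 0)))) (N (N (L (nat_lit 0x15e1)) (L (nat_lit 0))) (L (nat_lit 0)))) (L (nat_lit 0))))) (L (nat_lit 0))))) (N (N (N (N (N (N (N (N (L (nat_lit 0)) (N (L (nat_lit 0x4d3)) (L (nat_lit 0)))) (N (N (L (nat_lit 0x3a3)) (L (nat_lit 0))) (N (L (nat_lit 0xa54)) (L (nat_lit 0))))) (N (N (N (L (nat_lit 0x8d1)) (L (nat_lit 0x18a1))) (N (L (nat_lit 0x701)) (L (nat_lit 0)))) (N (N (L (nat_lit 0x1783)) (L (nat_lit 0))) (N (L (nat_lit 0xfe1)) (L (nat_lit 0)))))) (N (N (N (N (L (nat_lit 0x161)) (L (nat_lit 0))) (N (L (nat_lit 0x11a4)) (L (nat_lit 0)))) (N (N (L (nat_lit 0x5f4)) (L (nat_lit 0))) (N (L (nat_lit 0xf05)) (L (nat_lit 0))))) (N (N (N (L (nat_lit 0x1142)) (L (nat_lit 0))) (L (nat_lit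 0))) (N (L (nat_lit 0)) (N (L (nat_lit 0xdb4)) (L (nat_lit 0))))))) (N (N (N (N (N (L (nat_lit 0x271)) (L (nat_lit 0x1751))) (N (L (nat_lit 0x1121)) (L (nat_lit 0)))) (N (N (L (nat_lit 0x241)) (L (nat_lit 0))) (N (L (nat_lit 0xd04)) (L (nat_lit 0))))) (N (N (N (L (nat_lit 0x355)) (L (nat_lit 0))) (N (L (nat_lit 0x1442)) (L (nat_lit 0)))) (L (nat_lit 0)))) (N (N (N (N (L (nat_lit 0x5e1)) (L (nat_lit 0x1842))) (N (L (nat_lit 0x695)) (L (nat_lit 0)))) (N (N (L (nat_lit 0x442)) (L (nat_lit 0))) (N (L (nat_lit 0xf25)) (L (nat_lit 0))))) (N (N (N (L (nat_lit 0x761)) (L (nat_lit 0))) (N (L (nat_lit 0xcb5)) (L (nat_lit 0)))) (N (N (L (nat_lit 0xad1)) (L (nat_lit 0))) (N (L (nat_lit 0x10c3)) (L (nat_lit 0)))))))) (L (nat_lit 0))) (N (N (N (N (N (L (nat_lit 0)) (N (N (L (nat_lit 0xcc1)) (L (nat_lit 0))) (L (nat_lit 0)))) (L (nat_lit 0))) (N (N (L (nat_lit 0)) (N (N (L (nat_lit 0x1305)) (L (nat_lit 0))) (L (nat_lit 0)))) (N (L (nat_lit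 0)) (N (L (nat_lit 0)) (N (L (nat_lit 0x1a31)) (L (nat_lit 0))))))) (N (N (N (L (nat_lit 0)) (N (N (L (nat_lit 0xa95)) (L (nat_lit 0))) (L (nat_lit 0)))) (L (nat_lit 0))) (N (N (N (L (nat_lit 0)) (N (L (nat_lit 0x15c4)) (L (nat_lit 0)))) (N (N (L (nat_lit 0x12f5)) (L (nat_lit 0))) (L (nat_lit 0)))) (L (nat_lit 0))))) (L (nat_lit 0)))) (N (N (N (N (N (N (N (L (nat_lit 0)) (N (L (nat_lit 0x1094)) (L (nat_lit 0)))) (N (N (L (nat_lit 0x8e3)) (L (nat_lit 0))) (N (L (nat_lit 0x1244)) (L (nat_lit 0))))) (N (N (L (nat_lit 0)) (N (L (nat_lit 0x1601)) (L (nat_lit 0)))) (N (L (nat_lit 0)) (N (L (nat_lit 0x1a23)) (L (nat_lit 0)))))) (N (N (N (N (L (nat_lit 0x4b2)) (L (nat_lit 0))) (L (nat_lit 0))) (N (N (L (nat_lit 0x1202)) (L (nat_lit 0))) (N (L (nat_lit 0x1973)) (L (nat_lit 0))))) (N (L (nat_lit 0)) (N (L (nat_lit 0)) (N (L (nat_lit 0x1645)) (L (nat_lit 0))))))) (N (N (N (L (nat_lit 0)) (N (N (L (nat_lit 0xb75)) (L (nat_lit 0))) (N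 (L (nat_lit 0x1942)) (L (nat_lit 0))))) (N (N (N (L (nat_lit 0xbb4)) (L (nat_lit 0))) (N (L (nat_lit 0xe73)) (L (nat_lit 0)))) (L (nat_lit 0)))) (N (N (N (N (L (nat_lit 0x6f1)) (L (nat_lit 0))) (N (L (nat_lit 0xd12)) (L (nat_lit 0)))) (N (N (L (nat_lit 0x1211)) (L (nat_lit 0))) (N (L (nat_lit 0x18d1)) (L (nat_lit 0))))) (N (L (nat_lit 0)) (N (L (nat_lit 0)) (N (L (nat_lit 0x1a85)) (L (nat_lit 0)))))))) (L (nat_lit 0))) (N (N (L (nat_lit 0)) (N (N (N (L (nat_lit 0)) (N (N (L (nat_lit 0xee3)) (L (nat_lit 0))) (L (nat_lit 0)))) (L (nat_lit 0))) (N (N (L (nat_lit 0)) (N (N (L (nat_lit 0x1451)) (L (nat_lit 0))) (L (nat_lit 0)))) (L (nat_lit 0))))) (L (nat_lit 0))))))) (N (N (N (N (N (N (N (N (N (N (N (L (nat_lit 0x12)) (L (nat_lit 0x752))) (N (L (nat_lit 0xbc0)) (L (nat_lit 0)))) (N (N (L (nat_lit 0xc80)) (L (nat_lit 0))) (N (L (nat_lit 0x1310)) (L (nat_lit 0))))) (N (N (N (L (nat_lit 0x920)) (L (nat_lit 0x1412))) (N (L (nat_lit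 0xfd0)) (L (nat_lit 0)))) (N (N (L (nat_lit 0x1060)) (L (nat_lit 0))) (N (L (nat_lit 0x1950)) (L (nat_lit 0)))))) (N (N (N (N (L (nat_lit 0x390)) (L (nat_lit 0x1331))) (N (L (nat_lit 0x15d0)) (L (nat_lit 0)))) (N (N (L (nat_lit 0x11e0)) (L (nat_lit 0))) (N (L (nat_lit 0x1530)) (L (nat_lit 0))))) (N (N (N (L (nat_lit 0x1190)) (L (nat_lit 0))) (N (L (nat_lit 0xca3)) (L (nat_lit 0)))) (N (N (L (nat_lit 0xd2)) (L (nat_lit 0))) (N (L (nat_lit 0x14e0)) (L (nat_lit 0))))))) (N (N (N (N (N (L (nat_lit 0x270)) (L (nat_lit 0x1aa0))) (N (L (nat_lit 0x1280)) (L (nat_lit 0)))) (N (N (L (nat_lit 0xb70)) (L (nat_lit 0))) (N (L (nat_lit 0x1460)) (L (nat_lit 0))))) (N (N (N (L (nat_lit 0x970)) (L (nat_lit 0x18b2))) (N (L (nat_lit 0x1500)) (L (nat_lit 0)))) (N (N (L (nat_lit 0xb94)) (L (nat_lit 0))) (N (L (nat_lit 0x1133)) (L (nat_lit 0)))))) (N (N (N (N (L (nat_lit 0x620)) (L (nat_lit 0x1221))) (N (L (nat_lit 0x1180)) (L (nat_lit 0)))) (N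 (N (L (nat_lit 0xf50)) (L (nat_lit 0))) (N (L (nat_lit 0x1080)) (L (nat_lit 0))))) (N (N (N (L (nat_lit 0x2b0)) (L (nat_lit 0))) (N (L (nat_lit 0x12a0)) (L (nat_lit 0)))) (N (N (L (nat_lit 0xed0)) (L (nat_lit 0))) (N (L (nat_lit 0x17f0)) (L (nat_lit 0)))))))) (N (L (nat_lit 0)) (N (N (N (L (nat_lit 0)) (N (N (L (nat_lit 0x894)) (L (nat_lit 0))) (L (nat_lit 0)))) (L (nat_lit 0))) (L (nat_lit 0))))) (N (N (N (N (N (N (L (nat_lit 0)) (N (L (nat_lit 0x252)) (L (nat_lit 0)))) (N (N (L (nat_lit 0xcc2)) (L (nat_lit 0))) (N (L (nat_lit 0x1423)) (L (nat_lit 0))))) (N (N (L (nat_lit 0)) (N (L (nat_lit 0x1741)) (L (nat_lit 0)))) (N (L (nat_lit 0)) (N (L (nat_lit 0x1ab2)) (L (nat_lit 0)))))) (N (N (N (N (L (nat_lit 0x3c2)) (L (nat_lit 0))) (L (nat_lit 0))) (N (N (L (nat_lit 0xe41)) (L (nat_lit 0))) (L (nat_lit 0)))) (N (L (nat_lit 0)) (N (L (nat_lit 0)) (N (L (nat_lit 0x15f1)) (L (nat_lit 0))))))) (N (N (N (L (nat_lit 0)) (N (N (L (nat_lit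 0xe33)) (L (nat_lit 0))) (N (L (nat_lit 0x1a13)) (L (nat_lit 0))))) (N (N (N (L (nat_lit 0xb41)) (L (nat_lit 0))) (L (nat_lit 0))) (L (nat_lit 0)))) (N (N (N (L (nat_lit 0)) (N (L (nat_lit 0x12e3)) (L (nat_lit 0)))) (N (N (L (nat_lit 0xd44)) (L (nat_lit 0))) (L (nat_lit 0)))) (L (nat_lit 0))))) (L (nat_lit 0)))) (N (N (N (N (N (N (N (L (nat_lit 0)) (N (L (nat_lit 0xb34)) (L (nat_lit 0)))) (N (N (L (nat_lit 0x982)) (L (nat_lit 0))) (N (L (nat_lit 0xda1)) (L (nat_lit 0))))) (N (N (L (nat_lit 0)) (N (L (nat_lit 0xdc1)) (L (nat_lit 0)))) (N (N (L (nat_lit 0x1654)) (L (nat_lit 0))) (N (L (nat_lit 0x1591)) (L (nat_lit 0)))))) (N (N (N (N (L (nat_lit 0x394)) (L (nat_lit 0))) (N (L (nat_lit 0x1771)) (L (nat_lit 0)))) (N (N (L (nat_lit 0x993)) (L (nat_lit 0))) (N (L (nat_lit 0x1375)) (L (nat_lit 0))))) (N (L (nat_lit 0)) (N (L (nat_lit 0)) (N (L (nat_lit 0x15a2)) (L (nat_lit 0))))))) (N (N (N (N (N (L (nat_lit 0x222)) (L (nat_lit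 0x1aa1))) (N (L (nat_lit 0x14a2)) (L (nat_lit 0)))) (N (N (L (nat_lit 0x3e2)) (L (nat_lit 0))) (N (L (nat_lit 0x1275)) (L (nat_lit 0))))) (N (N (N (L (nat_lit 0x861)) (L (nat_lit 0))) (N (L (nat_lit 0x1505)) (L (nat_lit 0)))) (L (nat_lit 0)))) (N (N (N (N (L (nat_lit 0x412)) (L (nat_lit 0))) (N (L (nat_lit 0xa61)) (L (nat_lit 0)))) (N (N (L (nat_lit 0x9d1)) (L (nat_lit 0))) (N (L (nat_lit 0x1084)) (L (nat_lit 0))))) (N (N (N (L (nat_lit 0x6e1)) (L (nat_lit 0))) (N (L (nat_lit 0x1265)) (L (nat_lit 0)))) (N (N (L (nat_lit 0x1053)) (L (nat_lit 0))) (N (L (nat_lit 0x17b3)) (L (nat_lit 0)))))))) (L (nat_lit 0))) (N (N (N (L (nat_lit 0)) (N (N (L (nat_lit 0)) (N (N (L (nat_lit 0x13a3)) (L (nat_lit 0))) (L (nat_lit 0)))) (L (nat_lit 0)))) (N (N (N (L (nat_lit 0)) (N (N (L (nat_lit 0xd25)) (L (nat_lit 0))) (L (nat_lit 0)))) (L (nat_lit 0))) (N (N (N (L (nat_lit 0)) (N (L (nat_lit 0x16a2)) (L (nat_lit 0)))) (N (N (L (nat_lit 0x14b2))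 (L (nat_lit 0))) (L (nat_lit 0)))) (L (nat_lit 0))))) (L (nat_lit 0))))) (N (N (N (N (N (N (N (N (N (L (nat_lit 0)) (L (nat_lit 0x1732))) (N (L (nat_lit 0x581)) (L (nat_lit 0)))) (N (N (L (nat_lit 0x3a5)) (L (nat_lit 0))) (N (L (nat_lit 0xa56)) (L (nat_lit 0))))) (N (N (N (L (nat_lit 0x8a1)) (L (nat_lit 0x1871))) (N (L (nat_lit 0x6c1)) (L (nat_lit 0)))) (N (N (L (nat_lit 0x1401)) (L (nat_lit 0))) (N (L (nat_lit 0xfb2)) (L (nat_lit 0)))))) (N (N (N (N (L (nat_lit 0x2f1)) (L (nat_lit 0))) (N (L (nat_lit 0x1164)) (L (nat_lit 0)))) (N (N (L (nat_lit 0x3f1)) (L (nat_lit 0))) (N (L (nat_lit 0xe64)) (L (nat_lit 0))))) (N (N (N (L (nat_lit 0xdf1)) (L (nat_lit 0))) (L (nat_lit 0))) (N (N (L (nat_lit 0x721)) (L (nat_lit 0))) (N (L (nat_lit 0x1174)) (L (nat_lit 0))))))) (N (N (N (N (N (L (nat_lit 0x1e4)) (L (nat_lit 0x15b2))) (N (L (nat_lit 0xaa4)) (L (nat_lit 0)))) (N (N (L (nat_lit 0x1c1)) (L (nat_lit 0))) (N (L (nat_lit 0xd05)) (L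 (nat_lit 0))))) (N (N (N (L (nat_lit 0x321)) (L (nat_lit 0))) (N (L (nat_lit 0xe71)) (L (nat_lit 0)))) (N (N (L (nat_lit 0x1982)) (L (nat_lit 0))) (N (L (nat_lit 0x1622)) (L (nat_lit 0)))))) (N (N (N (N (L (nat_lit 0x384)) (L (nat_lit 0x16d3))) (N (L (nat_lit 0x4e4)) (L (nat_lit 0)))) (N (N (L (nat_lit 0x373)) (L (nat_lit 0))) (N (L (nat_lit 0x7a4)) (L (nat_lit 0))))) (N (N (N (L (nat_lit 0x664)) (L (nat_lit 0))) (N (L (nat_lit 0xce5)) (L (nat_lit 0)))) (N (N (L (nat_lit 0x914)) (L (nat_lit 0))) (N (L (nat_lit 0xf13)) (L (nat_lit 0)))))))) (L (nat_lit 0))) (N (N (N (N (N (L (nat_lit 0)) (N (N (L (nat_lit 0xde2)) (L (nat_lit 0))) (N (L (nat_lit 0x19e2)) (L (nat_lit 0))))) (L (nat_lit 0))) (N (N (L (nat_lit 0)) (N (N (L (nat_lit 0x13d1)) (L (nat_lit 0))) (L (nat_lit 0)))) (N (L (nat_lit 0)) (N (L (nat_lit 0)) (N (L (nat_lit 0x1a32)) (L (nat_lit 0))))))) (N (N (N (L (nat_lit 0)) (N (N (L (nat_lit 0xa71)) (L (nat_lit 0))) (L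 (nat_lit 0)))) (L (nat_lit 0))) (N (N (N (L (nat_lit 0)) (N (L (nat_lit 0x1495)) (L (nat_lit 0)))) (N (N (L (nat_lit 0xef1)) (L (nat_lit 0))) (L (nat_lit 0)))) (L (nat_lit 0))))) (L (nat_lit 0)))) (N (N (N (N (N (N (N (L (nat_lit 0)) (N (L (nat_lit 0x1015)) (L (nat_lit 0)))) (N (N (L (nat_lit 0x8b3)) (L (nat_lit 0))) (N (L (nat_lit 0x1361)) (L (nat_lit 0))))) (N (N (L (nat_lit 0)) (N (L (nat_lit 0x1573)) (L (nat_lit 0)))) (N (L (nat_lit 0)) (N (L (nat_lit 0x19c2)) (L (nat_lit 0)))))) (N (N (N (N (L (nat_lit 0x472)) (L (nat_lit 0))) (L (nat_lit 0))) (N (N (L (nat_lit 0x11e2)) (L (nat_lit 0))) (N (L (nat_lit 0x1971)) (L (nat_lit 0))))) (N (L (nat_lit 0)) (N (L (nat_lit 0)) (N (L (nat_lit 0x14e3)) (L (nat_lit 0))))))) (N (N (N (L (nat_lit 0)) (N (N (L (nat_lit 0x9c4)) (L (nat_lit 0))) (N (L (nat_lit 0x14c5)) (L (nat_lit 0))))) (N (N (N (L (nat_lit 0x9b3)) (L (nat_lit 0))) (N (L (nat_lit 0x1893)) (L (nat_lit 0)))) (L (nat_lit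 0)))) (N (N (N (N (L (nat_lit 0x6a1)) (L (nat_lit 0))) (N (L (nat_lit 0x1182)) (L (nat_lit 0)))) (N (N (L (nat_lit 0xf54)) (L (nat_lit 0))) (N (L (nat_lit 0x1883)) (L (nat_lit 0))))) (N (N (L (nat_lit 0)) (N (L (nat_lit 0x1963)) (L (nat_lit 0)))) (N (L (nat_lit 0)) (N (L (nat_lit 0x1714)) (L (nat_lit 0)))))))) (L (nat_lit 0))) (N (N (L (nat_lit 0)) (N (N (N (L (nat_lit 0)) (N (N (L (nat_lit 0xee5)) (L (nat_lit 0))) (L (nat_lit 0)))) (L (nat_lit 0))) (N (N (L (nat_lit 0)) (N (N (L (nat_lit 0x1582)) (L (nat_lit 0))) (L (nat_lit 0)))) (L (nat_lit 0))))) (L (nat_lit 0)))))) (N (N (N (N (N (N (N (N (N (N (L (nat_lit 0x52)) (L (nat_lit 0x1731))) (N (L (nat_lit 0x251)) (L (nat_lit 0)))) (N (N (L (nat_lit 0xde0)) (L (nat_lit 0))) (N (L (nat_lit 0x884)) (L (nat_lit 0))))) (N (N (N (L (nat_lit 0x311)) (L (nat_lit 0x1722))) (N (L (nat_lit 0x453)) (L (nat_lit 0)))) (N (N (L (nat_lit 0x643)) (L (nat_lit 0))) (N (L (nat_lit 0xbe4)) (L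 (nat_lit 0)))))) (N (N (N (N (L (nat_lit 0x43)) (L (nat_lit 0x19d2))) (N (L (nat_lit 0xa41)) (L (nat_lit 0)))) (N (N (L (nat_lit 0x1300)) (L (nat_lit 0))) (N (L (nat_lit 0xb15)) (L (nat_lit 0))))) (N (N (N (L (nat_lit 0x5c2)) (L (nat_lit 0))) (L (nat_lit 0))) (N (N (L (nat_lit 0x722)) (L (nat_lit 0))) (N (L (nat_lit 0x1a90)) (L (nat_lit 0))))))) (N (N (N (N (N (L (nat_lit 0x113)) (L (nat_lit 0xff3))) (N (L (nat_lit 0x682)) (L (nat_lit 0)))) (N (N (L (nat_lit 0xaf0)) (L (nat_lit 0))) (N (L (nat_lit 0xab1)) (L (nat_lit 0))))) (N (N (N (L (nat_lit 0x151)) (L (nat_lit 0))) (N (L (nat_lit 0x6d4)) (L (nat_lit 0)))) (N (N (L (nat_lit 0x1911)) (L (nat_lit 0))) (N (L (nat_lit 0x1474)) (L (nat_lit 0)))))) (N (N (N (N (L (nat_lit 0x71)) (L (nat_lit 0x14f1))) (N (L (nat_lit 0x1660)) (L (nat_lit 0)))) (N (N (L (nat_lit 0x1450)) (L (nat_lit 0))) (N (L (nat_lit 0x714)) (L (nat_lit 0))))) (N (N (N (L (nat_lit 0xc1)) (L (nat_lit 0))) (N (L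 (nat_lit 0x904)) (L (nat_lit 0)))) (N (N (L (nat_lit 0x484)) (L (nat_lit 0))) (N (L (nat_lit 0xe13)) (L (nat_lit 0)))))))) (L (nat_lit 0))) (N (N (N (N (N (L (nat_lit 0)) (N (N (L (nat_lit 0xd34)) (L (nat_lit 0))) (N (L (nat_lit 0x19b2)) (L (nat_lit 0))))) (L (nat_lit 0))) (N (N (L (nat_lit 0)) (N (N (L (nat_lit 0x1295)) (L (nat_lit 0))) (L (nat_lit 0)))) (N (L (nat_lit 0)) (N (L (nat_lit 0)) (N (L (nat_lit 0x1672)) (L (nat_lit 0))))))) (N (N (N (L (nat_lit 0)) (N (N (L (nat_lit 0x8f2)) (L (nat_lit 0))) (L (nat_lit 0)))) (N (N (N (L (nat_lit 0x153)) (L (nat_lit 0))) (L (nat_lit 0))) (L (nat_lit 0)))) (N (N (N (L (nat_lit 0)) (N (L (nat_lit 0x1344)) (L (nat_lit 0)))) (N (N (L (nat_lit 0xd93)) (L (nat_lit 0))) (L (nat_lit 0)))) (L (nat_lit 0))))) (L (nat_lit 0)))) (N (N (N (N (N (N (N (L (nat_lit 0)) (N (L (nat_lit 0xdd5)) (L (nat_lit 0)))) (N (N (L (nat_lit 0xc85)) (L (nat_lit 0))) (N (L (nat_lit 0x13b5)) (L (nat_lit 0)))))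 (N (N (L (nat_lit 0)) (N (L (nat_lit 0x1395)) (L (nat_lit 0)))) (N (N (L (nat_lit 0x1821)) (L (nat_lit 0))) (N (L (nat_lit 0x1954)) (L (nat_lit 0)))))) (N (N (N (N (L (nat_lit 0x572)) (L (nat_lit 0))) (L (nat_lit 0))) (N (N (L (nat_lit 0xc42)) (L (nat_lit 0))) (N (L (nat_lit 0x14d4)) (L (nat_lit 0))))) (N (L (nat_lit 0)) (N (L (nat_lit 0)) (N (L (nat_lit 0x12d2)) (L (nat_lit 0))))))) (N (N (N (N (N (L (nat_lit 0)) (L (nat_lit 0x19a1))) (L (nat_lit 0))) (N (N (L (nat_lit 0x892)) (L (nat_lit 0))) (N (L (nat_lit 0x1466)) (L (nat_lit 0))))) (N (N (N (L (nat_lit 0x972)) (L (nat_lit 0))) (N (L (nat_lit 0x17d3)) (L (nat_lit 0)))) (L (nat_lit 0)))) (N (N (N (N (L (nat_lit 0x671)) (L (nat_lit 0))) (N (L (nat_lit 0xbd5)) (L (nat_lit 0)))) (N (N (L (nat_lit 0xe04)) (L (nat_lit 0))) (N (L (nat_lit 0x16e5)) (L (nat_lit 0))))) (N (N (N (L (nat_lit 0x7d2)) (L (nat_lit 0))) (N (L (nat_lit 0x12a4)) (L (nat_lit 0)))) (N (N (L (nat_lit 0x913))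 (L (nat_lit 0))) (N (L (nat_lit 0x1632)) (L (nat_lit 0)))))))) (L (nat_lit 0))) (N (N (L (nat_lit 0)) (N (N (N (L (nat_lit 0)) (N (N (L (nat_lit 0xe84)) (L (nat_lit 0))) (L (nat_lit 0)))) (L (nat_lit 0))) (N (N (N (L (nat_lit 0)) (N (L (nat_lit 0xd14)) (L (nat_lit 0)))) (N (N (L (nat_lit 0x1525)) (L (nat_lit 0))) (L (nat_lit 0)))) (L (nat_lit 0))))) (L (nat_lit 0))))) (N (N (N (N (N (N (N (N (L (nat_lit 0)) (N (L (nat_lit 0x513)) (L (nat_lit 0)))) (N (N (L (nat_lit 0x3d2)) (L (nat_lit 0))) (N (L (nat_lit 0xe53)) (L (nat_lit 0))))) (N (N (N (L (nat_lit 0x924)) (L (nat_lit 0x1411))) (N (L (nat_lit 0xb21)) (L (nat_lit 0)))) (N (N (L (nat_lit 0x1032)) (L (nat_lit 0))) (N (L (nat_lit 0x13c6)) (L (nat_lit 0)))))) (N (N (N (N (L (nat_lit 0x1a1)) (L (nat_lit 0))) (N (L (nat_lit 0x13e3)) (L (nat_lit 0)))) (N (N (L (nat_lit 0x871)) (L (nat_lit 0))) (N (L (nat_lit 0x12c6)) (L (nat_lit 0))))) (N (N (N (L (nat_lit 0x1193)) (L (nat_lit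 0))) (L (nat_lit 0))) (N (L (nat_lit 0)) (N (L (nat_lit 0xeb4)) (L (nat_lit 0))))))) (N (N (N (N (N (L (nat_lit 0x2a2)) (L (nat_lit 0x19a3))) (N (L (nat_lit 0x1151)) (L (nat_lit 0)))) (N (N (L (nat_lit 0x555)) (L (nat_lit 0))) (N (L (nat_lit 0xea5)) (L (nat_lit 0))))) (N (N (N (L (nat_lit 0x353)) (L (nat_lit 0))) (N (L (nat_lit 0xec1)) (L (nat_lit 0)))) (L (nat_lit 0)))) (N (N (N (N (L (nat_lit 0x1f3)) (L (nat_lit 0x1862))) (N (L (nat_lit 0x693)) (L (nat_lit 0)))) (N (N (L (nat_lit 0x601)) (L (nat_lit 0))) (N (L (nat_lit 0x1565)) (L (nat_lit 0))))) (N (N (N (L (nat_lit 0x282)) (L (nat_lit 0))) (N (L (nat_lit 0xcb3)) (L (nat_lit 0)))) (N (N (L (nat_lit 0xd74)) (L (nat_lit 0))) (N (L (nat_lit 0x1432)) (L (nat_lit 0)))))))) (L (nat_lit 0))) (N (N (N (L (nat_lit 0)) (N (N (L (nat_lit 0)) (N (N (L (nat_lit 0x1304)) (L (nat_lit 0))) (L (nat_lit 0)))) (N (L (nat_lit 0)) (N (L (nat_lit 0)) (N (L (nat_lit 0x1a95)) (L (nat_lit 0)))))))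 (N (N (N (L (nat_lit 0)) (N (N (L (nat_lit 0xa93)) (L (nat_lit 0))) (L (nat_lit 0)))) (L (nat_lit 0))) (N (N (N (L (nat_lit 0)) (N (L (nat_lit 0x15c1)) (L (nat_lit 0)))) (N (N (L (nat_lit 0x12f3)) (L (nat_lit 0))) (L (nat_lit 0)))) (L (nat_lit 0))))) (L (nat_lit 0)))) (N (N (N (N (N (N (N (L (nat_lit 0)) (N (L (nat_lit 0x10e4)) (L (nat_lit 0)))) (N (N (L (nat_lit 0x9f2)) (L (nat_lit 0))) (N (L (nat_lit 0x12b6)) (L (nat_lit 0))))) (N (N (L (nat_lit 0)) (N (L (nat_lit 0x1761)) (L (nat_lit 0)))) (N (L (nat_lit 0)) (N (L (nat_lit 0x1a51)) (L (nat_lit 0)))))) (N (N (N (N (L (nat_lit 0x504)) (L (nat_lit 0))) (L (nat_lit 0))) (N (N (L (nat_lit 0xc93)) (L (nat_lit 0))) (N (L (nat_lit 0x1a03)) (L (nat_lit 0))))) (N (L (nat_lit 0)) (N (L (nat_lit 0)) (N (L (nat_lit 0x17a2)) (L (nat_lit 0))))))) (N (N (N (L (nat_lit 0)) (N (N (L (nat_lit 0xc75)) (L (nat_lit 0))) (N (L (nat_lit 0x1945)) (L (nat_lit 0))))) (N (N (N (L (nat_lit 0xa81))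 (L (nat_lit 0))) (L (nat_lit 0))) (L (nat_lit 0)))) (N (N (N (N (L (nat_lit 0x732)) (L (nat_lit 0))) (N (L (nat_lit 0xf95)) (L (nat_lit 0)))) (N (N (L (nat_lit 0x1214)) (L (nat_lit 0))) (N (L (nat_lit 0x1561)) (L (nat_lit 0))))) (N (L (nat_lit 0)) (N (L (nat_lit 0)) (N (L (nat_lit 0x1ac4)) (L (nat_lit 0)))))))) (L (nat_lit 0))) (N (N (L (nat_lit 0)) (N (N (N (L (nat_lit 0)) (N (N (L (nat_lit 0xf42)) (L (nat_lit 0))) (L (nat_lit 0)))) (L (nat_lit 0))) (L (nat_lit 0)))) (L (nat_lit 0))))))))) Tr.N Tr.L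
noncomputable def tWU : Tr := (fun (N : Tr → Tr → Tr) (L : ℕ → Tr) => (N (N tWU_0 tWU_1) (N tWU_2 tWU_3))) Tr.N Tr.L
noncomputable def tFE : Tr := (fun (N : Tr → Tr → Tr) (L : ℕ → Tr) => (N (N (N (N (N (N (N (N (N (L (nat_lit 0xffffffffffffffffffffffff00360000)) (L (nat_lit 0xffffffffffff014a014c014b0149013d))) (N (L (nat_lit 0xffffffffffffffff015701460145013f)) (L (nat_lit 0)))) (N (N (L (nat_lit 0xffffffffffffffffffff003700210033)) (L (nat_lit 0xffffffffffff053f0541054005460513))) (N (L (nat_lit 0xffffffffffffffff015a014e014f010d)) (L (nat_lit 0))))) (N (N (N (L (nat_lit 0xffffffffffffffff0147014801580102)) (L (nat_lit 0xffffffffffffffffffff054305380532))) (N (L (nat_lit 0xffffffffffffffff0419041a041d040a)) (L (nat_lit 0)))) (N (N (L (nat_lit 0xffffffffffffffffffff015601440155)) (L (nat_lit 0xffffffffffffffff026a026c026b0238))) (N (L (nat_lit 0xffffffffffffffffffff032c033a031b)) (L (nat_lit 0)))))) (N (N (N (N (L (nat_lit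 0xffffffffffffffff025b025d025c0208)) (L (nat_lit 0xffffffffffffffff0419041a041d040c))) (N (L (nat_lit 0xffffffffffffffffffff00390023000d)) (L (nat_lit 0)))) (N (N (L (nat_lit 0xffffffffffffffff014e014f015a0105)) (L (nat_lit 0xffffffffffffffffffff0616061d060e))) (N (L (nat_lit 0xffffffffffffffff025e0260025f0234)) (L (nat_lit 0))))) (N (N (N (L (nat_lit 0xffffffffffffffff0267026902680204)) (L (nat_lit 0xffffffffffff053e0545053d053c051f))) (N (L (nat_lit 0xffffffffffffffff0157014601450143)) (L (nat_lit 0)))) (N (N (L (nat_lit 0xffffffffffff02630262026402610211)) (L (nat_lit 0xffffffffffffffff0613061406150610))) (N (L (nat_lit 0xffffffffffff02620264026302610221)) (L (nat_lit 0))))))) (N (N (N (N (N (L (nat_lit 0xffffffffffffffffffff015601440106)) (L (nat_lit 0xffffffffffff0149014b014c014a0125))) (N (L (nat_lit 0xffffffffffffffff025b025d025c0233)) (L (nat_lit 0)))) (N (N (L (nat_lit 0xffffffffffffffffffff032303240308)) (L (nat_lit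 0xffffffffffff053d0545053e053c052a))) (N (L (nat_lit 0xffffffffffffffffffff032c033a032d)) (L (nat_lit 0))))) (N (N (N (L (nat_lit 0xffffffffffffffffffff00370021000b)) (L (nat_lit 0xffffffffffffffff0326032703280335))) (N (L (nat_lit 0xffffffffffffffffffff00380022002b)) (L (nat_lit 0)))) (N (N (L (nat_lit 0xffffffffffffffff0266028002650203)) (L (nat_lit 0xffffffffffff026e0281026f026d0232))) (N (L (nat_lit 0xffffffffffff0149014c014b014a0114)) (L (nat_lit 0)))))) (N (N (N (N (L (nat_lit 0xffffffffffffffffffff032303240304)) (L (nat_lit 0xffffffffffffffff032a032b0329030c))) (N (L (nat_lit 0xffffffffffffffff026a026c026b0224)) (L (nat_lit 0)))) (N (N (L (nat_lit 0xffffffffffffffffffff003900230026)) (L (nat_lit 0xffffffffffffffff0326032803270317))) (N (L (nat_lit 0xffffffffffffffff025e0260025f025a)) (L (nat_lit 0))))) (N (N (N (L (nat_lit 0xffffffffffffffffffffffff041c0403)) (L (nat_lit 0xffffffffffffffffffff0159014d0126))) (N (L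 (nat_lit 0xffffffffffffffff014e014f015a013a)) (L (nat_lit 0)))) (N (N (L (nat_lit 0xffffffffffff0261026402630262023d)) (L (nat_lit 0xffffffffffffffffffff0616061d060b))) (N (L (nat_lit 0xffffffffffff0262026302640261022e)) (L (nat_lit 0)))))))) (N (N (N (N (N (N (L (nat_lit 0xffffffffffffffffffff015601440100)) (L (nat_lit 0xffffffffffff026e0281026f026d0215))) (N (L (nat_lit 0xffffffffffffffff025b025d025c024e)) (L (nat_lit 0)))) (N (N (L (nat_lit 0xffffffffffffffff025e0260025f020f)) (L (nat_lit 0xffffffffffff053d0545053c053e051a))) (N (L (nat_lit 0xffffffffffffffff025e0260025f024f)) (L (nat_lit 0))))) (N (N (N (L (nat_lit 0xffffffffffffffffffff002200380008)) (L (nat_lit 0xffffffffffffffffffff05430538051d))) (N (L (nat_lit 0xffffffffffffffff025b025d025c027e)) (L (nat_lit 0)))) (N (N (L (nat_lit 0xffffffffffffffffffff00390023001d)) (L (nat_lit 0xffffffffffffffff0329032b032a0320))) (N (L (nat_lit 0xffffffffffffffffffff032c033a031d))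 (L (nat_lit 0)))))) (N (N (N (N (L (nat_lit 0xffffffffffffffffffff003900230003)) (L (nat_lit 0xffffffffffff053f0541054605400525))) (N (L (nat_lit 0xffffffffffffffff0157014601450123)) (L (nat_lit 0)))) (N (N (L (nat_lit 0xffffffffffffffffffff003700210014)) (L (nat_lit 0xffffffffffffffffffff0616061d0606))) (N (L (nat_lit 0xffffffffffffffffffff003900230015)) (L (nat_lit 0))))) (N (N (N (L (nat_lit 0xffffffffffffffff0147014801580111)) (L (nat_lit 0xffffffffffffffffffff054705420526))) (N (L (nat_lit 0xffffffffffffffff025b025d025c0259)) (L (nat_lit 0)))) (N (N (L (nat_lit 0xffffffffffffffffffffffff041c0409)) (L (nat_lit 0xffffffffffffffffffff033a032c0314))) (N (L (nat_lit 0xffffffffffff0281026e026f026d0214)) (L (nat_lit 0))))))) (N (N (N (N (N (L (nat_lit 0xffffffffffffffffffff003800220002)) (L (nat_lit 0xffffffffffff02620263026402610254))) (N (L (nat_lit 0xffffffffffffffffffff003800220012)) (L (nat_lit 0)))) (N (N (L (nat_lit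 0xffffffffffffffff0326032803270302)) (L (nat_lit 0xffffffffffffffffffff041e041b0415))) (N (L (nat_lit 0xffffffffffffffff025e0260025f027f)) (L (nat_lit 0))))) (N (N (N (L (nat_lit 0xffffffffffffffffffff015601440117)) (L (nat_lit 0xffffffffffffffffffff041b041e040d))) (N (L (nat_lit 0xffffffffffffffffffff00390023000f)) (L (nat_lit 0)))) (N (N (L (nat_lit 0xffffffffffff0149014b014c014a0112)) (L (nat_lit 0xffffffffffff053f0541054005460531))) (N (L (nat_lit 0xffffffffffffffff014701480158011d)) (L (nat_lit 0)))))) (N (N (N (N (L (nat_lit 0xffffffffffffffffffff032503390305)) (L (nat_lit 0xffffffffffff02620263026402610235))) (N (L (nat_lit 0xffffffffffffffff0267026902680277)) (L (nat_lit 0)))) (N (N (L (nat_lit 0xffffffffffffffffffff003700210020)) (L (nat_lit 0xffffffffffffffff014e014f015a012e))) (N (L (nat_lit 0xffffffffffffffff0329032b032a0334)) (L (nat_lit 0))))) (N (N (N (L (nat_lit 0xffffffffffffffffffff0159014d0104)) (L (nat_lit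 0xffffffffffffffff026a026c026b021c))) (N (L (nat_lit 0xffffffffffff053a0539053b05440507)) (L (nat_lit 0)))) (N (N (L (nat_lit 0xffffffffffff0149014b014c014a011b)) (L (nat_lit 0))) (N (L (nat_lit 0xffffffffffff02610264026302620276)) (L (nat_lit 0))))))))) (N (N (N (N (N (N (N (L (nat_lit 0xffffffffffffffffffffffff00360019)) (L (nat_lit 0xffffffffffffffff014e015a014f0116))) (N (L (nat_lit 0xffffffffffffffff0613061406150601)) (L (nat_lit 0)))) (N (N (L (nat_lit 0xffffffffffff02620263026402610210)) (L (nat_lit 0xffffffffffffffff0419041a041d0417))) (N (L (nat_lit 0xffffffffffffffff026602800265021a)) (L (nat_lit 0))))) (N (N (N (L (nat_lit 0xffffffffffffffffffff01560144010f)) (L (nat_lit 0xffffffffffffffffffff054705420504))) (N (L (nat_lit 0xffffffffffff053e053c0545053d0510)) (L (nat_lit 0)))) (N (N (L (nat_lit 0xffffffffffffffff032603280327032e)) (L (nat_lit 0xffffffffffffffffffff054705420521))) (N (L (nat_lit 0xffffffffffffffffffff0616061d0609))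 (L (nat_lit 0)))))) (N (N (N (N (L (nat_lit 0xffffffffffffffffffffffff00360011)) (L (nat_lit 0xffffffffffffffff015a014f014e0120))) (N (L (nat_lit 0xffffffffffffffff0419041d041a0405)) (L (nat_lit 0)))) (N (N (L (nat_lit 0xffffffffffffffff026702690268020b)) (L (nat_lit 0xffffffffffffffff0266028002650236))) (N (L (nat_lit 0xffffffffffffffff0329032b032a031a)) (L (nat_lit 0))))) (N (N (N (L (nat_lit 0xffffffffffffffffffff003700210028)) (L (nat_lit 0xffffffffffffffff014e014f015a0121))) (N (L (nat_lit 0xffffffffffffffff0613061406150617)) (L (nat_lit 0)))) (N (N (L (nat_lit 0xffffffffffffffff025b025d025c0249)) (L (nat_lit 0xffffffffffff053c053e0545053d0534))) (N (L (nat_lit 0xffffffffffffffffffffffff041c0412)) (L (nat_lit 0))))))) (N (N (N (N (N (L (nat_lit 0xffffffffffffffffffffffff0036000a)) (L (nat_lit 0xffffffffffffffffffff041b041e0408))) (N (L (nat_lit 0xffffffffffffffff026502800266020a)) (L (nat_lit 0)))) (N (N (L (nat_lit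 0xffffffffffffffff025b025d025c0243)) (L (nat_lit 0xffffffffffffffffffff0159014d0151))) (N (L (nat_lit 0xffffffffffffffffffff041b041e040b)) (L (nat_lit 0))))) (N (N (N (L (nat_lit 0xffffffffffffffff0157014601450108)) (L (nat_lit 0xffffffffffffffff026a026c026b027a))) (N (L (nat_lit 0xffffffffffffffff014e014f015a010e)) (L (nat_lit 0)))) (N (N (L (nat_lit 0xffffffffffffffff025c025d025b0217)) (L (nat_lit 0xffffffffffffffffffff041b041e040e))) (N (L (nat_lit 0xffffffffffffffff0419041a041d0410)) (L (nat_lit 0)))))) (N (N (N (N (L (nat_lit 0xffffffffffffffffffff00390023001c)) (L (nat_lit 0xffffffffffff0539053b0544053a0528))) (N (L (nat_lit 0xffffffffffffffff025e025f02600253)) (L (nat_lit 0)))) (N (N (L (nat_lit 0xffffffffffffffff026a026c026b020c)) (L (nat_lit 0xffffffffffff054005460541053f052b))) (N (L (nat_lit 0xffffffffffffffffffff032503390316)) (L (nat_lit 0))))) (N (N (N (L (nat_lit 0xffffffffffffffffffff003800220009)) (L (nat_lit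 0xffffffffffff0281026e026f026d021d))) (N (L (nat_lit 0xffffffffffffffffffffffff00240010)) (L (nat_lit 0)))) (N (N (L (nat_lit 0xffffffffffff026d026e026f02810206)) (L (nat_lit 0xffffffffffffffffffff033a032c0331))) (N (L (nat_lit 0xffffffffffffffffffffffff041c0416)) (L (nat_lit 0)))))))) (N (N (N (N (N (N (L (nat_lit 0xffffffffffffffff0157014601450101)) (L (nat_lit 0xffffffffffffffff026702690268024b))) (N (L (nat_lit 0xffffffffffffffffffffffff061c0603)) (L (nat_lit 0)))) (N (N (L (nat_lit 0xffffffffffffffff025b025d025c0227)) (L (nat_lit 0xffffffffffffffff0267026802690237))) (N (L (nat_lit 0xffffffffffffffffffff032303240315)) (L (nat_lit 0))))) (N (N (N (L (nat_lit 0xffffffffffffffff0157014601450130)) (L (nat_lit 0xffffffffffffffffffff05470542050c))) (N (L (nat_lit 0xffffffffffffffff0326032803270319)) (L (nat_lit 0)))) (N (N (L (nat_lit 0xffffffffffffffffffffffff00240027)) (L (nat_lit 0xffffffffffffffff027002710272022b))) (N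 (L (nat_lit 0xffffffffffffffff0148014701580113)) (L (nat_lit 0)))))) (N (N (N (N (L (nat_lit 0xffffffffffffffffffff032503390301)) (L (nat_lit 0xffffffffffff0149014b014c014a0141))) (N (L (nat_lit 0xffffffffffffffffffff014d0159010c)) (L (nat_lit 0)))) (N (N (L (nat_lit 0xffffffffffffffff0419041a041d0404)) (L (nat_lit 0xffffffffffffffffffffffff061c0611))) (N (L (nat_lit 0xffffffffffffffffffff0616061d0618)) (L (nat_lit 0))))) (N (N (N (L (nat_lit 0xffffffffffffffffffff01560144013b)) (L (nat_lit 0xffffffffffffffffffffffff061c060c))) (N (L (nat_lit 0xffffffffffffffff0329032b032a0306)) (L (nat_lit 0)))) (N (N (L (nat_lit 0xffffffffffffffff025b025d025c022c)) (L (nat_lit 0xffffffffffff053f0541054605400535))) (N (L (nat_lit 0xffffffffffffffff026a026c026b0213)) (L (nat_lit 0))))))) (N (N (N (N (N (L (nat_lit 0xffffffffffffffff025e0260025f0201)) (L (nat_lit 0xffffffffffffffff0269026802670230))) (N (L (nat_lit 0xffffffffffffffff026502800266023e))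 (L (nat_lit 0)))) (N (N (L (nat_lit 0xffffffffffffffffffff003800220032)) (L (nat_lit 0xffffffffffffffff014e014f015a0127))) (N (L (nat_lit 0xffffffffffffffff0614061306150604)) (L (nat_lit 0))))) (N (N (N (L (nat_lit 0xffffffffffffffffffff054305380500)) (L (nat_lit 0xffffffffffff02620263026402610258))) (N (L (nat_lit 0xffffffffffff053f0541054605400509)) (L (nat_lit 0)))) (N (N (L (nat_lit 0xffffffffffffffff0157014501460153)) (L (nat_lit 0xffffffffffff0281026e026f026d0239))) (N (L (nat_lit 0xffffffffffffffffffff054305380522)) (L (nat_lit 0)))))) (N (N (N (N (L (nat_lit 0xffffffffffffffffffffffff0024002f)) (L (nat_lit 0xffffffffffffffff0613061406150605))) (N (L (nat_lit 0xffffffffffffffffffff03230324031e)) (L (nat_lit 0)))) (N (N (L (nat_lit 0xffffffffffff0539053b0544053a0506)) (L (nat_lit 0xffffffffffffffff061406130615060f))) (N (L (nat_lit 0xffffffffffffffffffff00390023002d)) (L (nat_lit 0))))) (N (N (N (L (nat_lit 0xffffffffffffffff026a026c026b0205))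 (L (nat_lit 0xffffffffffffffff0266028002650279))) (N (L (nat_lit 0xffffffffffffffff0157014601450129)) (L (nat_lit 0)))) (N (N (L (nat_lit 0xffffffffffff053f0541054605400503)) (L (nat_lit 0))) (N (L (nat_lit 0xffffffffffffffff032603280327030b)) (L (nat_lit 0)))))))))) (N (N (N (N (N (N (N (N (L (nat_lit 0xffffffffffffffffffff003700210001)) (L (nat_lit 0xffffffffffffffffffff041e041b0411))) (N (L (nat_lit 0xffffffffffff02620263026402610219)) (L (nat_lit 0)))) (N (N (L (nat_lit 0xffffffffffffffff0157014601450118)) (L (nat_lit 0xffffffffffff0539053b0544053a052f))) (N (L (nat_lit 0xffffffffffffffffffff00380022001f)) (L (nat_lit 0))))) (N (N (N (L (nat_lit 0xffffffffffffffffffff01560144012f)) (L (nat_lit 0xffffffffffff014a014b0149014c011c))) (N (L (nat_lit 0xffffffffffff0539053b0544053a050e)) (L (nat_lit 0)))) (N (N (L (nat_lit 0xffffffffffffffffffff032303240333)) (L (nat_lit 0xffffffffffff053f0541054605400520))) (N (L (nat_lit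 0xffffffffffffffffffffffff0024002c)) (L (nat_lit 0)))))) (N (N (N (N (L (nat_lit 0xffffffffffffffffffff032303240300)) (L (nat_lit 0xffffffffffffffffffff05430538052d))) (N (L (nat_lit 0xffffffffffffffff0267026902680223)) (L (nat_lit 0)))) (N (N (L (nat_lit 0xffffffffffffffffffff003900230025)) (L (nat_lit 0xffffffffffffffff026a026c026b0251))) (N (L (nat_lit 0xffffffffffff026d026e026f02810247)) (L (nat_lit 0))))) (N (N (N (L (nat_lit 0xffffffffffffffff025b025d025c023b)) (L (nat_lit 0xffffffffffffffffffff054305380536))) (N (L (nat_lit 0xffffffffffff0539053b0544053a0516)) (L (nat_lit 0)))) (N (N (L (nat_lit 0xffffffffffff053c053e0545053d0502)) (L (nat_lit 0xffffffffffff053f054105460540051b))) (N (L (nat_lit 0xffffffffffffffff0419041d041a0407)) (L (nat_lit 0))))))) (N (N (N (N (N (L (nat_lit 0xffffffffffffffff025b025d025c0200)) (L (nat_lit 0xffffffffffff026f0281026e026d0225))) (N (L (nat_lit 0xffffffffffff02610264026302620244))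 (L (nat_lit 0)))) (N (N (L (nat_lit 0xffffffffffffffffffff015601440128)) (L (nat_lit 0xffffffffffffffff0329032a032b030d))) (N (L (nat_lit 0xffffffffffffffffffff003900230013)) (L (nat_lit 0))))) (N (N (N (L (nat_lit 0xffffffffffff02620263026402610202)) (L (nat_lit 0xffffffffffff0149014b014c014a012d))) (N (L (nat_lit 0xffffffffffffffffffff0159014d0139)) (L (nat_lit 0)))) (N (N (L (nat_lit 0xffffffffffffffff0157014601450136)) (L (nat_lit 0xffffffffffff053c053e053d05450530))) (N (L (nat_lit 0xffffffffffffffffffff0159014d0115)) (L (nat_lit 0)))))) (N (N (N (N (L (nat_lit 0xffffffffffffffffffffffff00360016)) (L (nat_lit 0xffffffffffff053f054105460540050b))) (N (L (nat_lit 0xffffffffffffffffffff041b041e0406)) (L (nat_lit 0)))) (N (N (L (nat_lit 0xffffffffffffffffffff0159014d0133)) (L (nat_lit 0xffffffffffffffff026502800266027d))) (N (L (nat_lit 0xffffffffffffffff0613061406150608)) (L (nat_lit 0))))) (N (N (N (L (nat_lit 0xffffffffffffffffffff015601440122))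 (L (nat_lit 0xffffffffffffffff0419041a041d0414))) (N (L (nat_lit 0xffffffffffffffff0270027202710242)) (L (nat_lit 0)))) (N (N (L (nat_lit 0xffffffffffff014a014c014b0149010b)) (L (nat_lit 0xffffffffffffffff061306140615061b))) (N (L (nat_lit 0xffffffffffff0539053b053a0544050f)) (L (nat_lit 0)))))))) (N (N (N (N (N (N (L (nat_lit 0xffffffffffffffffffff003700210006)) (L (nat_lit 0xffffffffffff053c053e0545053d0524))) (N (L (nat_lit 0xffffffffffffffffffff054305380515)) (L (nat_lit 0)))) (N (N (L (nat_lit 0xffffffffffffffffffff01560144013e)) (L (nat_lit 0xffffffffffffffff0326032803270312))) (N (L (nat_lit 0xffffffffffffffffffffffff061c0607)) (L (nat_lit 0))))) (N (N (N (L (nat_lit 0xffffffffffff0149014b014c014a0103)) (L (nat_lit 0xffffffffffff026d026f0281026e022a))) (N (L (nat_lit 0xffffffffffffffff0267026802690246)) (L (nat_lit 0)))) (N (N (L (nat_lit 0xffffffffffffffff014e014f015a0134)) (L (nat_lit 0xffffffffffffffffffff05420547052c)))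 (N (L (nat_lit 0xffffffffffffffffffffffff0024002e)) (L (nat_lit 0)))))) (N (N (N (N (L (nat_lit 0xffffffffffffffff025e0260025f0273)) (L (nat_lit 0xffffffffffffffff026a026c026b024c))) (N (L (nat_lit 0xffffffffffffffff026702680269023f)) (L (nat_lit 0)))) (N (N (L (nat_lit 0xffffffffffffffff025e0260025f0220)) (L (nat_lit 0xffffffffffff0539053b0544053a0533))) (N (L (nat_lit 0xffffffffffff053f0541054605400519)) (L (nat_lit 0))))) (N (N (N (L (nat_lit 0xffffffffffffffff0419041a041d0401)) (L (nat_lit 0xffffffffffffffff026802690267021b))) (N (L (nat_lit 0xffffffffffffffff032603280327031c)) (L (nat_lit 0)))) (N (N (L (nat_lit 0xffffffffffffffffffff05430538050d)) (L (nat_lit 0xffffffffffffffffffff0616061d061a))) (N (L (nat_lit 0xffffffffffff0539053b0544053a0523)) (L (nat_lit 0))))))) (N (N (N (N (N (L (nat_lit 0xffffffffffffffff0157014601450107)) (L (nat_lit 0xffffffffffff0262026302640261022f))) (N (L (nat_lit 0xffffffffffff014a014c014b01490138))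 (L (nat_lit 0)))) (N (N (L (nat_lit 0xffffffffffffffffffff00210037002a)) (L (nat_lit 0xffffffffffffffff0270027102720226))) (N (L (nat_lit 0xffffffffffff053c053e0545053d0518)) (L (nat_lit 0))))) (N (N (N (L (nat_lit 0xffffffffffffffff025c025d025b020e)) (L (nat_lit 0xffffffffffff0539053a0544053b052e))) (N (L (nat_lit 0xffffffffffffffff026a026c026b0278)) (L (nat_lit 0)))) (N (N (L (nat_lit 0xffffffffffffffffffff041b041e0402)) (L (nat_lit 0xffffffffffffffffffff041b041e0418))) (N (L (nat_lit 0xffffffffffffffff0269026802670275)) (L (nat_lit 0)))))) (N (N (N (N (L (nat_lit 0xffffffffffffffffffffffff00360035)) (L (nat_lit 0xffffffffffffffff0327032803260310))) (N (L (nat_lit 0xffffffffffff053c053e0545053d0508)) (L (nat_lit 0)))) (N (N (L (nat_lit 0xffffffffffffffff025e0260025f0228)) (L (nat_lit 0xffffffffffffffffffff05470542051c))) (N (L (nat_lit 0xffffffffffffffffffff032c033a0307)) (L (nat_lit 0))))) (N (N (N (L (nat_lit 0xffffffffffff0149014b014c014a010a))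 (L (nat_lit 0xffffffffffffffff0267026902680250))) (N (L (nat_lit 0xffffffffffffffff025b025c025d0256)) (L (nat_lit 0)))) (N (N (L (nat_lit 0xffffffffffffffff0266028002650212)) (L (nat_lit 0))) (N (L (nat_lit 0xffffffffffff053d0545053c053e050a)) (L (nat_lit 0))))))))) (N (N (N (N (N (N (N (L (nat_lit 0xffffffffffffffffffffffff00360005)) (L (nat_lit 0xffffffffffffffffffff0159014d011f))) (N (L (nat_lit 0xffffffffffffffff025e0260025f0218)) (L (nat_lit 0)))) (N (N (L (nat_lit 0xffffffffffff0539053b0544053a0501)) (L (nat_lit 0xffffffffffffffffffffffff061c0619))) (N (L (nat_lit 0xffffffffffffffffffff0616061d0602)) (L (nat_lit 0))))) (N (N (N (L (nat_lit 0xffffffffffffffffffffffff041c0400)) (L (nat_lit 0xffffffffffff0263026202640261024a))) (N (L (nat_lit 0xffffffffffffffff025e0260025f022d)) (L (nat_lit 0)))) (N (N (L (nat_lit 0xffffffffffffffffffff002100370017)) (L (nat_lit 0xffffffffffff0539053a0544053b0537))) (N (L (nat_lit 0xffffffffffffffffffff032503390338))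 (L (nat_lit 0)))))) (N (N (N (N (L (nat_lit 0xffffffffffffffffffff00380022001b)) (L (nat_lit 0xffffffffffffffff0271027202700216))) (N (L (nat_lit 0xffffffffffffffff025b025c025d0252)) (L (nat_lit 0)))) (N (N (L (nat_lit 0xffffffffffffffffffff032303240332)) (L (nat_lit 0xffffffffffffffff032a032b03290311))) (N (L (nat_lit 0xffffffffffffffff0270027202710274)) (L (nat_lit 0))))) (N (N (N (L (nat_lit 0xffffffffffffffff0157014601450110)) (L (nat_lit 0xffffffffffff026e0281026f026d024d))) (N (L (nat_lit 0xffffffffffffffffffff03250339030f)) (L (nat_lit 0)))) (N (N (L (nat_lit 0xffffffffffffffff0157014601450119)) (L (nat_lit 0xffffffffffffffff027102720270023a))) (N (L (nat_lit 0xffffffffffff0149014c014b014a011e)) (L (nat_lit 0))))))) (N (N (N (N (N (L (nat_lit 0xffffffffffffffffffff00210037001a)) (L (nat_lit 0xffffffffffffffff0419041a041d0413))) (N (L (nat_lit 0xffffffffffffffff0329032b032a0303)) (L (nat_lit 0)))) (N (N (L (nat_lit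 0xffffffffffff02610264026302620209)) (L (nat_lit 0xffffffffffffffff0265028002660255))) (N (L (nat_lit 0xffffffffffff053f0541054605400511)) (L (nat_lit 0))))) (N (N (N (L (nat_lit 0xffffffffffffffffffff015601440135)) (L (nat_lit 0xffffffffffffffffffff054705420514))) (N (L (nat_lit 0xffffffffffff026d026f026e02810241)) (L (nat_lit 0)))) (N (N (L (nat_lit 0xffffffffffffffffffffffff061c0600)) (L (nat_lit 0xffffffffffffffff027102720270027b))) (N (L (nat_lit 0xffffffffffffffff014701480158013c)) (L (nat_lit 0)))))) (N (N (N (N (L (nat_lit 0xffffffffffffffffffffffff00240004)) (L (nat_lit 0xffffffffffff02620263026402610257))) (N (L (nat_lit 0xffffffffffffffff0157014601450142)) (L (nat_lit 0)))) (N (N (L (nat_lit 0xffffffffffffffffffff032503390318)) (L (nat_lit 0xffffffffffffffffffff032c033a030e))) (N (L (nat_lit 0xffffffffffffffffffff032303240337)) (L (nat_lit 0))))) (N (N (N (L (nat_lit 0xffffffffffffffff0148014701580131)) (L (nat_lit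 0xffffffffffffffff061306140615060d))) (N (L (nat_lit 0xffffffffffffffff032603270328030a)) (L (nat_lit 0)))) (N (N (L (nat_lit 0xffffffffffffffffffff003800220029)) (L (nat_lit 0xffffffffffffffffffff0616061d0612))) (N (L (nat_lit 0xffffffffffffffffffff054305380527)) (L (nat_lit 0)))))))) (N (N (N (N (N (N (L (nat_lit 0xffffffffffffffffffffffff00360030)) (L (nat_lit 0xffffffffffff0149014b014c014a0150))) (N (L (nat_lit 0xffffffffffffffffffff03230324032f)) (L (nat_lit 0)))) (N (N (L (nat_lit 0xffffffffffffffffffff054305380505)) (L (nat_lit 0xffffffffffffffff0265028002660229))) (N (L (nat_lit 0xffffffffffffffff0265028002660245)) (L (nat_lit 0))))) (N (N (N (L (nat_lit 0xffffffffffffffffffff003700210031)) (L (nat_lit 0xffffffffffff053c053e0545053d0529))) (N (L (nat_lit 0xffffffffffff026d026e026f0281020d)) (L (nat_lit 0)))) (N (N (L (nat_lit 0xffffffffffffffffffff00220038000c)) (L (nat_lit 0xffffffffffffffff014e014f015a0152))) (N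 (L (nat_lit 0xffffffffffffffffffffffff041c040f)) (L (nat_lit 0)))))) (N (N (N (N (L (nat_lit 0xffffffffffffffffffffffff00360034)) (L (nat_lit 0xffffffffffff0149014b014c014a012c))) (N (L (nat_lit 0xffffffffffffffffffff00380022000e)) (L (nat_lit 0)))) (N (N (L (nat_lit 0xffffffffffffffffffff015601440154)) (L (nat_lit 0xffffffffffffffff061506140613060a))) (N (L (nat_lit 0xffffffffffffffffffff032503390336)) (L (nat_lit 0))))) (N (N (N (L (nat_lit 0xffffffffffffffff025b025d025c021f)) (L (nat_lit 0xffffffffffffffff0266028002650222))) (N (L (nat_lit 0xffffffffffffffffffff003800220018)) (L (nat_lit 0)))) (N (N (L (nat_lit 0xffffffffffffffff0148015801470137)) (L (nat_lit 0xffffffffffffffff032a032b03290330))) (N (L (nat_lit 0xffffffffffffffff0147014801580140)) (L (nat_lit 0))))))) (N (N (N (N (N (L (nat_lit 0xffffffffffffffffffffffff0036001e)) (L (nat_lit 0xffffffffffff053e053c053d05450512))) (N (L (nat_lit 0xffffffffffffffff0270027202710207))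 (L (nat_lit 0)))) (N (N (L (nat_lit 0xffffffffffff014a014c014b01490132)) (L (nat_lit 0xffffffffffffffff027102720270021e))) (N (L (nat_lit 0xffffffffffffffffffff032303240321)) (L (nat_lit 0))))) (N (N (N (L (nat_lit 0xffffffffffffffff0147014801580109)) (L (nat_lit 0xffffffffffff0539053b0544053a051e))) (N (L (nat_lit 0xffffffffffffffffffff03250339031f)) (L (nat_lit 0)))) (N (N (L (nat_lit 0xffffffffffffffff014701480158011a)) (L (nat_lit 0xffffffffffffffff032b032a03290313))) (N (L (nat_lit 0xffffffffffffffff0147014801580124)) (L (nat_lit 0)))))) (N (N (N (N (L (nat_lit 0xffffffffffffffffffff003700210007)) (L (nat_lit 0xffffffffffff0539053b0544053a0517))) (N (L (nat_lit 0xffffffffffffffff015701460145012a)) (L (nat_lit 0)))) (N (N (L (nat_lit 0xffffffffffffffffffff032503390309)) (L (nat_lit 0xffffffffffffffff0326032703280322))) (N (L (nat_lit 0xffffffffffffffff0270027202710248)) (L (nat_lit 0))))) (N (N (N (L (nat_lit 0xffffffffffffffff025e0260025f023c))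 (L (nat_lit 0xffffffffffff0281026f026e026d0231))) (N (L (nat_lit 0xffffffffffffffff026a026b026c0240)) (L (nat_lit 0)))) (N (N (L (nat_lit 0xffffffffffffffff025e0260025f027c)) (L (nat_lit 0))) (N (L (nat_lit 0xffffffffffffffff014801580147012b)) (L (nat_lit 0)))))))))))) Tr.N Tr.L
noncomputable def tWE : Tr := (fun (N : Tr → Tr → Tr) (L : ℕ → Tr) => (N (N (N (N (N (N (N (N (N (N (N (L (nat_lit 0)) (L (nat_lit 0x230))) (N (L (nat_lit 0x90)) (L (nat_lit 0x6b0)))) (N (N (L (nat_lit 0x40)) (L (nat_lit 0x2e0))) (N (L (nat_lit 0x110)) (L (nat_lit 0))))) (N (N (L (nat_lit 0)) (N (L (nat_lit 0x682)) (L (nat_lit 0)))) (L (nat_lit 0)))) (N (N (N (L (nat_lit 0)) (N (L (nat_lit 0xbf0)) (L (nat_lit 0)))) (N (N (L (nat_lit 0xf70)) (L (nat_lit 0x7e1))) (L (nat_lit 0)))) (L (nat_lit 0)))) (N (N (N (N (N (L (nat_lit 0x5c0)) (L (nat_lit 0))) (N (L (nat_lit 0x550)) (L (nat_lit 0)))) (N (N (L (nat_lit 0x1120)) (L (nat_lit 0x1610))) (N (L (nat_lit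 0x1640)) (L (nat_lit 0))))) (L (nat_lit 0))) (N (N (N (L (nat_lit 0)) (N (L (nat_lit 0xe2)) (L (nat_lit 0)))) (L (nat_lit 0))) (L (nat_lit 0))))) (N (N (N (N (N (N (L (nat_lit 0xba0)) (L (nat_lit 0xea0))) (N (L (nat_lit 0x420)) (L (nat_lit 0x1700)))) (N (N (L (nat_lit 0x330)) (L (nat_lit 0xa20))) (N (L (nat_lit 0x11d0)) (L (nat_lit 0))))) (L (nat_lit 0))) (N (N (N (L (nat_lit 0)) (N (L (nat_lit 0x13d0)) (L (nat_lit 0)))) (N (N (L (nat_lit 0x1070)) (L (nat_lit 0))) (L (nat_lit 0)))) (L (nat_lit 0)))) (N (N (N (N (N (L (nat_lit 0x70)) (L (nat_lit 0))) (N (L (nat_lit 0x10e0)) (L (nat_lit 0)))) (N (N (L (nat_lit 0x260)) (L (nat_lit 0x1690))) (N (L (nat_lit 0x1770)) (L (nat_lit 0))))) (L (nat_lit 0))) (N (N (N (L (nat_lit 0)) (N (L (nat_lit 0x8f3)) (L (nat_lit 0)))) (L (nat_lit 0))) (L (nat_lit 0)))))) (N (N (N (N (N (N (N (L (nat_lit 0x240)) (L (nat_lit 0x10a0))) (N (L (nat_lit 0x100)) (L (nat_lit 0xd90)))) (N (N (L (nat_lit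 0x2a0)) (L (nat_lit 0x9d0))) (N (L (nat_lit 0x480)) (L (nat_lit 0))))) (L (nat_lit 0))) (N (N (N (L (nat_lit 0)) (N (L (nat_lit 0xdf0)) (L (nat_lit 0)))) (N (N (L (nat_lit 0x202)) (L (nat_lit 0))) (L (nat_lit 0)))) (L (nat_lit 0)))) (N (N (N (N (N (L (nat_lit 0x320)) (L (nat_lit 0))) (N (L (nat_lit 0x5d0)) (L (nat_lit 0)))) (N (N (L (nat_lit 0x490)) (L (nat_lit 0x11a0))) (N (L (nat_lit 0x4c2)) (L (nat_lit 0))))) (L (nat_lit 0))) (N (N (N (L (nat_lit 0)) (N (L (nat_lit 0x301)) (L (nat_lit 0)))) (L (nat_lit 0))) (L (nat_lit 0))))) (N (N (N (N (N (N (L (nat_lit 0xb70)) (L (nat_lit 0x16d0))) (N (L (nat_lit 0x830)) (L (nat_lit 0xd60)))) (N (N (L (nat_lit 0x410)) (L (nat_lit 0xcd0))) (N (L (nat_lit 0x5b0)) (L (nat_lit 0))))) (L (nat_lit 0))) (N (N (N (L (nat_lit 0)) (N (L (nat_lit 0x12e0)) (L (nat_lit 0)))) (N (N (L (nat_lit 0x201)) (L (nat_lit 0))) (L (nat_lit 0)))) (L (nat_lit 0)))) (N (N (N (N (N (L (nat_lit 0xc2)) (L (nat_lit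 0))) (N (L (nat_lit 0x1600)) (L (nat_lit 0)))) (N (N (L (nat_lit 0x8d0)) (L (nat_lit 0x2e1))) (N (L (nat_lit 0xe30)) (L (nat_lit 0))))) (L (nat_lit 0))) (N (N (N (L (nat_lit 0)) (N (L (nat_lit 0xad0)) (L (nat_lit 0)))) (L (nat_lit 0))) (L (nat_lit 0))))))) (N (N (N (N (N (N (N (N (L (nat_lit 0x1b0)) (L (nat_lit 0x560))) (N (L (nat_lit 0x300)) (L (nat_lit 0xce0)))) (N (N (L (nat_lit 0x3c0)) (L (nat_lit 0x1220))) (N (L (nat_lit 0x180)) (L (nat_lit 0))))) (L (nat_lit 0))) (N (N (N (L (nat_lit 0)) (N (L (nat_lit 0x890)) (L (nat_lit 0)))) (N (N (L (nat_lit 0x41)) (L (nat_lit 0x432))) (L (nat_lit 0)))) (L (nat_lit 0)))) (N (N (N (N (N (L (nat_lit 0x1b1)) (L (nat_lit 0))) (N (L (nat_lit 0x980)) (L (nat_lit 0)))) (N (N (L (nat_lit 0xef0)) (L (nat_lit 0x1050))) (N (L (nat_lit 0x111)) (L (nat_lit 0))))) (L (nat_lit 0))) (N (N (N (L (nat_lit 0)) (N (L (nat_lit 0x292)) (L (nat_lit 0)))) (L (nat_lit 0))) (L (nat_lit 0))))) (N (N (N (N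 (N (N (L (nat_lit 0x540)) (L (nat_lit 0x1390))) (N (L (nat_lit 0xf40)) (L (nat_lit 0x822)))) (N (N (L (nat_lit 0xe80)) (L (nat_lit 0x12b0))) (N (L (nat_lit 0x1740)) (L (nat_lit 0))))) (L (nat_lit 0))) (N (N (N (L (nat_lit 0)) (N (L (nat_lit 0x10c0)) (L (nat_lit 0)))) (N (N (L (nat_lit 0x570)) (L (nat_lit 0))) (L (nat_lit 0)))) (L (nat_lit 0)))) (N (N (N (N (N (L (nat_lit 0x170)) (L (nat_lit 0))) (N (L (nat_lit 0xd00)) (L (nat_lit 0)))) (N (N (L (nat_lit 0x650)) (L (nat_lit 0x1720))) (N (L (nat_lit 0xdc0)) (L (nat_lit 0))))) (L (nat_lit 0))) (N (N (N (L (nat_lit 0)) (N (L (nat_lit 0xd30)) (L (nat_lit 0)))) (L (nat_lit 0))) (L (nat_lit 0)))))) (N (N (N (N (N (N (N (L (nat_lit 0x670)) (L (nat_lit 0x1100))) (N (L (nat_lit 0x5a0)) (L (nat_lit 0x1360)))) (N (N (L (nat_lit 0x960)) (L (nat_lit 0x1260))) (N (L (nat_lit 0x1180)) (L (nat_lit 0))))) (L (nat_lit 0))) (N (N (N (L (nat_lit 0)) (N (L (nat_lit 0x1150)) (L (nat_lit 0)))) (N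 (N (L (nat_lit 0x252)) (L (nat_lit 0))) (L (nat_lit 0)))) (L (nat_lit 0)))) (N (N (N (N (N (L (nat_lit 0xe10)) (L (nat_lit 0))) (N (L (nat_lit 0x760)) (L (nat_lit 0)))) (N (N (L (nat_lit 0x1170)) (L (nat_lit 0x1650))) (N (L (nat_lit 0xc82)) (L (nat_lit 0))))) (L (nat_lit 0))) (N (N (N (L (nat_lit 0)) (N (L (nat_lit 0x3e2)) (L (nat_lit 0)))) (L (nat_lit 0))) (L (nat_lit 0))))) (N (N (N (N (N (N (L (nat_lit 0x1a0)) (L (nat_lit 0x231))) (N (L (nat_lit 0x13c0)) (L (nat_lit 0x6b1)))) (N (N (L (nat_lit 0x1210)) (L (nat_lit 0x15d0))) (N (L (nat_lit 0xb50)) (L (nat_lit 0))))) (L (nat_lit 0))) (N (N (N (L (nat_lit 0)) (N (L (nat_lit 0x91)) (L (nat_lit 0)))) (L (nat_lit 0))) (L (nat_lit 0)))) (N (N (N (N (L (nat_lit 0)) (N (L (nat_lit 0x3f0)) (L (nat_lit 0)))) (N (N (L (nat_lit 0xeb0)) (L (nat_lit 0x714))) (L (nat_lit 0)))) (L (nat_lit 0))) (N (N (N (L (nat_lit 0)) (N (L (nat_lit 0x7f0)) (L (nat_lit 0)))) (L (nat_lit 0))) (L (nat_lit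 0)))))))) (N (N (N (N (N (N (N (N (N (L (nat_lit 0xc0)) (L (nat_lit 0x6d0))) (N (L (nat_lit 0x290)) (L (nat_lit 0xc30)))) (N (N (L (nat_lit 0x200)) (L (nat_lit 0x710))) (N (L (nat_lit 0x4c0)) (L (nat_lit 0))))) (L (nat_lit 0))) (N (N (N (L (nat_lit 0)) (N (L (nat_lit 0xb90)) (L (nat_lit 0)))) (N (N (L (nat_lit 0x9b0)) (L (nat_lit 0x1221))) (L (nat_lit 0)))) (L (nat_lit 0)))) (N (N (N (N (N (L (nat_lit 0xc1)) (L (nat_lit 0))) (N (L (nat_lit 0x1370)) (L (nat_lit 0)))) (N (N (L (nat_lit 0x390)) (L (nat_lit 0xee0))) (N (L (nat_lit 0x15f0)) (L (nat_lit 0))))) (L (nat_lit 0))) (N (N (N (L (nat_lit 0)) (N (L (nat_lit 0x294)) (L (nat_lit 0)))) (L (nat_lit 0))) (L (nat_lit 0))))) (N (N (N (N (N (N (L (nat_lit 0x8c0)) (L (nat_lit 0xf20))) (N (L (nat_lit 0x7d0)) (L (nat_lit 0x17b0)))) (N (N (L (nat_lit 0x6c0)) (L (nat_lit 0x10f0))) (N (L (nat_lit 0x1450)) (L (nat_lit 0))))) (L (nat_lit 0))) (N (N (N (L (nat_lit 0)) (N (L (nat_lit 0x930))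 (L (nat_lit 0)))) (N (N (L (nat_lit 0x1670)) (L (nat_lit 0))) (L (nat_lit 0)))) (L (nat_lit 0)))) (N (N (N (N (N (L (nat_lit 0x4e0)) (L (nat_lit 0))) (N (L (nat_lit 0x1680)) (L (nat_lit 0)))) (N (N (L (nat_lit 0x4f0)) (L (nat_lit 0x1200))) (N (L (nat_lit 0x530)) (L (nat_lit 0))))) (L (nat_lit 0))) (N (N (N (L (nat_lit 0)) (N (L (nat_lit 0x8f2)) (L (nat_lit 0)))) (L (nat_lit 0))) (L (nat_lit 0)))))) (N (N (N (N (N (N (N (L (nat_lit 0xa0)) (L (nat_lit 0xa00))) (N (L (nat_lit 0x8a0)) (L (nat_lit 0x1570)))) (N (N (L (nat_lit 0x3d0)) (L (nat_lit 0xfd0))) (N (L (nat_lit 0xbb0)) (L (nat_lit 0))))) (L (nat_lit 0))) (N (N (N (L (nat_lit 0)) (N (L (nat_lit 0x1230)) (L (nat_lit 0)))) (N (N (L (nat_lit 0x251)) (L (nat_lit 0))) (L (nat_lit 0)))) (L (nat_lit 0)))) (N (N (N (N (N (L (nat_lit 0x4d0)) (L (nat_lit 0))) (N (L (nat_lit 0x1250)) (L (nat_lit 0)))) (N (N (L (nat_lit 0x9f0)) (L (nat_lit 0x1480))) (N (L (nat_lit 0x8b1)) (L (nat_lit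 0))))) (L (nat_lit 0))) (N (N (N (L (nat_lit 0)) (N (L (nat_lit 0x3e3)) (L (nat_lit 0)))) (L (nat_lit 0))) (L (nat_lit 0))))) (N (N (N (N (N (N (L (nat_lit 0xb0)) (L (nat_lit 0x352))) (N (L (nat_lit 0xc20)) (L (nat_lit 0x1750)))) (N (N (L (nat_lit 0x6f0)) (L (nat_lit 0x1440))) (N (L (nat_lit 0xd20)) (L (nat_lit 0))))) (L (nat_lit 0))) (N (N (N (L (nat_lit 0)) (N (L (nat_lit 0xd80)) (L (nat_lit 0)))) (N (N (L (nat_lit 0x501)) (L (nat_lit 0))) (L (nat_lit 0)))) (L (nat_lit 0)))) (N (N (N (N (L (nat_lit 0)) (N (L (nat_lit 0x1730)) (L (nat_lit 0)))) (N (N (L (nat_lit 0xb80)) (L (nat_lit 0x431))) (N (L (nat_lit 0xc81)) (L (nat_lit 0))))) (L (nat_lit 0))) (N (N (N (L (nat_lit 0)) (N (L (nat_lit 0x12a0)) (L (nat_lit 0)))) (L (nat_lit 0))) (L (nat_lit 0))))))) (N (N (N (N (N (N (N (N (L (nat_lit 0x50)) (L (nat_lit 0x990))) (N (L (nat_lit 0x7a0)) (L (nat_lit 0x1540)))) (N (N (L (nat_lit 0x80)) (L (nat_lit 0x5e0))) (N (L (nat_lit 0xb60))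 (L (nat_lit 0))))) (L (nat_lit 0))) (N (N (N (L (nat_lit 0)) (N (L (nat_lit 0xa50)) (L (nat_lit 0)))) (N (N (L (nat_lit 0x62)) (L (nat_lit 0x7e2))) (L (nat_lit 0)))) (L (nat_lit 0)))) (N (N (N (N (N (L (nat_lit 0x580)) (L (nat_lit 0))) (N (L (nat_lit 0x14d0)) (L (nat_lit 0)))) (N (N (L (nat_lit 0x1380)) (L (nat_lit 0x1340))) (N (L (nat_lit 0x4c3)) (L (nat_lit 0))))) (L (nat_lit 0))) (N (N (N (L (nat_lit 0)) (N (L (nat_lit 0x683)) (L (nat_lit 0)))) (L (nat_lit 0))) (L (nat_lit 0))))) (N (N (N (N (N (N (L (nat_lit 0x190)) (L (nat_lit 0xfa0))) (N (L (nat_lit 0x1130)) (L (nat_lit 0xc32)))) (N (N (L (nat_lit 0x1020)) (L (nat_lit 0xb10))) (N (L (nat_lit 0xda0)) (L (nat_lit 0))))) (L (nat_lit 0))) (N (N (N (L (nat_lit 0)) (N (L (nat_lit 0xbd0)) (L (nat_lit 0)))) (N (N (L (nat_lit 0x42)) (L (nat_lit 0))) (L (nat_lit 0)))) (L (nat_lit 0)))) (N (N (N (N (N (L (nat_lit 1)) (L (nat_lit 0))) (N (L (nat_lit 0x1520)) (L (nat_lit 0)))) (N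 (N (L (nat_lit 0x690)) (L (nat_lit 0x1310))) (N (L (nat_lit 0xd70)) (L (nat_lit 0))))) (L (nat_lit 0))) (N (N (N (L (nat_lit 0)) (N (L (nat_lit 0xfc0)) (L (nat_lit 0)))) (L (nat_lit 0))) (L (nat_lit 0)))))) (N (N (N (N (N (N (N (L (nat_lit 0x970)) (L (nat_lit 0x16a0))) (N (L (nat_lit 0x2d0)) (L (nat_lit 0x1500)))) (N (N (L (nat_lit 0xaa0)) (L (nat_lit 0xa10))) (N (L (nat_lit 0x15b0)) (L (nat_lit 0))))) (L (nat_lit 0))) (N (N (N (L (nat_lit 0)) (N (L (nat_lit 0x840)) (L (nat_lit 0)))) (N (N (L (nat_lit 0x503)) (L (nat_lit 0))) (L (nat_lit 0)))) (L (nat_lit 0)))) (N (N (N (N (N (L (nat_lit 0xe50)) (L (nat_lit 0))) (N (L (nat_lit 0xf80)) (L (nat_lit 0)))) (N (N (L (nat_lit 0x15c0)) (L (nat_lit 0x12d0))) (N (L (nat_lit 0x620)) (L (nat_lit 0))))) (L (nat_lit 0))) (N (N (N (L (nat_lit 0)) (N (L (nat_lit 0x7a3)) (L (nat_lit 0)))) (L (nat_lit 0))) (L (nat_lit 0))))) (N (N (N (N (N (N (L (nat_lit 0xf0)) (L (nat_lit 0x6d1))) (N (L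 (nat_lit 0x14f0)) (L (nat_lit 0)))) (N (N (L (nat_lit 0xf30)) (L (nat_lit 0x12f0))) (N (L (nat_lit 0x9e0)) (L (nat_lit 0))))) (L (nat_lit 0))) (N (N (N (L (nat_lit 0)) (N (L (nat_lit 0xe3)) (L (nat_lit 0)))) (L (nat_lit 0))) (L (nat_lit 0)))) (N (N (N (N (L (nat_lit 0)) (N (L (nat_lit 0x8e0)) (L (nat_lit 0)))) (N (N (L (nat_lit 0x450)) (L (nat_lit 0x713))) (L (nat_lit 0)))) (L (nat_lit 0))) (N (N (N (L (nat_lit 0)) (N (L (nat_lit 0xa40)) (L (nat_lit 0)))) (L (nat_lit 0))) (L (nat_lit 0))))))))) (N (N (N (N (N (N (N (N (N (N (L (nat_lit 0x10)) (L (nat_lit 0x350))) (N (L (nat_lit 0xe0)) (L (nat_lit 0x820)))) (N (N (L (nat_lit 0x60)) (L (nat_lit 0x430))) (N (L (nat_lit 0x160)) (L (nat_lit 0))))) (N (N (L (nat_lit 0)) (N (L (nat_lit 0x7a1)) (L (nat_lit 0)))) (L (nat_lit 0)))) (N (N (N (L (nat_lit 0)) (N (L (nat_lit 0xab0)) (L (nat_lit 0)))) (N (N (L (nat_lit 0x1160)) (L (nat_lit 0x7e3))) (L (nat_lit 0)))) (L (nat_lit 0)))) (N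 (N (N (N (N (L (nat_lit 0x11)) (L (nat_lit 0))) (N (L (nat_lit 0xf00)) (L (nat_lit 0)))) (N (N (L (nat_lit 0x1320)) (L (nat_lit 0x1620))) (N (L (nat_lit 0xcf0)) (L (nat_lit 0))))) (L (nat_lit 0))) (N (N (N (L (nat_lit 0)) (N (L (nat_lit 0x291)) (L (nat_lit 0)))) (L (nat_lit 0))) (L (nat_lit 0))))) (N (N (N (N (N (N (L (nat_lit 0x120)) (L (nat_lit 0x1010))) (N (L (nat_lit 0x700)) (L (nat_lit 0x1560)))) (N (N (L (nat_lit 0x340)) (L (nat_lit 0xcb0))) (N (L (nat_lit 0x1530)) (L (nat_lit 0))))) (L (nat_lit 0))) (N (N (N (L (nat_lit 0)) (N (L (nat_lit 0x1510)) (L (nat_lit 0)))) (N (N (L (nat_lit 0x14a0)) (L (nat_lit 0))) (L (nat_lit 0)))) (L (nat_lit 0)))) (N (N (N (N (N (L (nat_lit 0x270)) (L (nat_lit 0))) (N (L (nat_lit 0x13f0)) (L (nat_lit 0)))) (N (N (L (nat_lit 0x3b0)) (L (nat_lit 0x16c0))) (N (L (nat_lit 0x17a0)) (L (nat_lit 0))))) (L (nat_lit 0))) (N (N (N (L (nat_lit 0)) (N (L (nat_lit 0x8f1)) (L (nat_lit 0)))) (L (nat_lit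 0))) (L (nat_lit 0)))))) (N (N (N (N (N (N (N (L (nat_lit 0x3a0)) (L (nat_lit 0x740))) (N (L (nat_lit 0x4b0)) (L (nat_lit 0xe20)))) (N (N (L (nat_lit 0x2f0)) (L (nat_lit 0xae0))) (N (L (nat_lit 0x5f0)) (L (nat_lit 0))))) (L (nat_lit 0))) (N (N (N (L (nat_lit 0)) (N (L (nat_lit 0x720)) (L (nat_lit 0)))) (N (N (L (nat_lit 0x254)) (L (nat_lit 0))) (L (nat_lit 0)))) (L (nat_lit 0)))) (N (N (N (N (N (L (nat_lit 0x7b0)) (L (nat_lit 0))) (N (L (nat_lit 0x1470)) (L (nat_lit 0)))) (N (N (L (nat_lit 0xbe0)) (L (nat_lit 0x1270))) (N (L (nat_lit 0x8b3)) (L (nat_lit 0))))) (L (nat_lit 0))) (N (N (N (L (nat_lit 0)) (N (L (nat_lit 0x302)) (L (nat_lit 0)))) (L (nat_lit 0))) (L (nat_lit 0))))) (N (N (N (N (N (N (L (nat_lit 0x20)) (L (nat_lit 0x353))) (N (L (nat_lit 0x810)) (L (nat_lit 0x1430)))) (N (N (L (nat_lit 0x730)) (L (nat_lit 0xd50))) (N (L (nat_lit 0xa60)) (L (nat_lit 0))))) (L (nat_lit 0))) (N (N (N (L (nat_lit 0)) (N (L (nat_lit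 0xb40)) (L (nat_lit 0)))) (N (N (L (nat_lit 0x3c2)) (L (nat_lit 0))) (L (nat_lit 0)))) (L (nat_lit 0)))) (N (N (N (N (N (L (nat_lit 0x142)) (L (nat_lit 0))) (N (L (nat_lit 0x16e0)) (L (nat_lit 0)))) (N (N (L (nat_lit 0xa90)) (L (nat_lit 0x434))) (N (L (nat_lit 0x161)) (L (nat_lit 0))))) (L (nat_lit 0))) (N (N (N (L (nat_lit 0)) (N (L (nat_lit 0x13e0)) (L (nat_lit 0)))) (L (nat_lit 0))) (L (nat_lit 0))))))) (N (N (N (N (N (N (N (N (L (nat_lit 0x30)) (L (nat_lit 0x920))) (N (L (nat_lit 0x3e0)) (L (nat_lit 0x11e0)))) (N (N (L (nat_lit 0x500)) (L (nat_lit 0x470))) (N (L (nat_lit 0x1c0)) (L (nat_lit 0))))) (L (nat_lit 0))) (N (N (N (L (nat_lit 0)) (N (L (nat_lit 0xc70)) (L (nat_lit 0)))) (N (N (L (nat_lit 0x61)) (L (nat_lit 0x712))) (L (nat_lit 0)))) (L (nat_lit 0)))) (N (N (N (N (N (L (nat_lit 0x510)) (L (nat_lit 0))) (N (L (nat_lit 0x1090)) (L (nat_lit 0)))) (N (N (L (nat_lit 0x1080)) (L (nat_lit 0x1140))) (N (L (nat_lit 0x162))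 (L (nat_lit 0))))) (L (nat_lit 0))) (N (N (N (L (nat_lit 0)) (N (L (nat_lit 0x681)) (L (nat_lit 0)))) (L (nat_lit 0))) (L (nat_lit 0))))) (N (N (N (N (N (N (L (nat_lit 0xd40)) (L (nat_lit 0x14c0))) (N (L (nat_lit 0x1040)) (L (nat_lit 0x821)))) (N (N (L (nat_lit 0xe90)) (L (nat_lit 0x850))) (N (L (nat_lit 0xc60)) (L (nat_lit 0))))) (L (nat_lit 0))) (N (N (N (L (nat_lit 0)) (N (L (nat_lit 0x14b0)) (L (nat_lit 0)))) (N (N (L (nat_lit 0x600)) (L (nat_lit 0))) (L (nat_lit 0)))) (L (nat_lit 0)))) (N (N (N (N (N (L (nat_lit 0x1d0)) (L (nat_lit 0))) (N (L (nat_lit 0x11c0)) (L (nat_lit 0)))) (N (N (L (nat_lit 0x2b0)) (L (nat_lit 0x1760))) (N (L (nat_lit 0x1280)) (L (nat_lit 0))))) (L (nat_lit 0))) (N (N (N (L (nat_lit 0)) (N (L (nat_lit 0xed0)) (L (nat_lit 0)))) (L (nat_lit 0))) (L (nat_lit 0)))))) (N (N (N (N (N (N (N (L (nat_lit 0x900)) (L (nat_lit 0x12c0))) (N (L (nat_lit 0xa70)) (L (nat_lit 0x13b0)))) (N (N (L (nat_lit 0xc00))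 (L (nat_lit 0x750))) (N (L (nat_lit 0x1490)) (L (nat_lit 0))))) (L (nat_lit 0))) (N (N (N (L (nat_lit 0)) (N (L (nat_lit 0x1330)) (L (nat_lit 0)))) (N (N (L (nat_lit 0x3c1)) (L (nat_lit 0))) (L (nat_lit 0)))) (L (nat_lit 0)))) (N (N (N (N (N (L (nat_lit 0xde0)) (L (nat_lit 0))) (N (L (nat_lit 0xa30)) (L (nat_lit 0)))) (N (N (L (nat_lit 0x1290)) (L (nat_lit 0x1110))) (N (L (nat_lit 0xc80)) (L (nat_lit 0))))) (L (nat_lit 0))) (N (N (N (L (nat_lit 0)) (N (L (nat_lit 0x7a4)) (L (nat_lit 0)))) (L (nat_lit 0))) (L (nat_lit 0))))) (N (N (N (N (N (N (L (nat_lit 0x640)) (L (nat_lit 0x351))) (N (L (nat_lit 0x13a0)) (L (nat_lit 0xc31)))) (N (N (L (nat_lit 0xec0)) (L (nat_lit 0x1240))) (N (L (nat_lit 0xe40)) (L (nat_lit 0))))) (L (nat_lit 0))) (N (N (N (L (nat_lit 0)) (N (L (nat_lit 0x92)) (L (nat_lit 0)))) (L (nat_lit 0))) (L (nat_lit 0)))) (N (N (N (N (L (nat_lit 0)) (N (L (nat_lit 0x780)) (L (nat_lit 0)))) (N (N (L (nat_lit 0x1000))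 (L (nat_lit 0x711))) (L (nat_lit 0)))) (L (nat_lit 0))) (N (N (N (L (nat_lit 0)) (N (L (nat_lit 0x1590)) (L (nat_lit 0)))) (L (nat_lit 0))) (L (nat_lit 0)))))))) (N (N (N (N (N (N (N (N (N (L (nat_lit 0x140)) (L (nat_lit 0x380))) (N (L (nat_lit 0x680)) (L (nat_lit 0x860)))) (N (N (L (nat_lit 0x250)) (L (nat_lit 0x7e0))) (N (L (nat_lit 0x8b0)) (L (nat_lit 0))))) (L (nat_lit 0))) (N (N (N (L (nat_lit 0)) (N (L (nat_lit 0x4a0)) (L (nat_lit 0)))) (N (N (L (nat_lit 0xb00)) (L (nat_lit 0x2e2))) (L (nat_lit 0)))) (L (nat_lit 0)))) (N (N (N (N (N (L (nat_lit 0x141)) (L (nat_lit 0))) (N (L (nat_lit 0x910)) (L (nat_lit 0)))) (N (N (L (nat_lit 0x940)) (L (nat_lit 0xf50))) (N (L (nat_lit 0x112)) (L (nat_lit 0))))) (L (nat_lit 0))) (N (N (N (L (nat_lit 0)) (N (L (nat_lit 0x293)) (L (nat_lit 0)))) (L (nat_lit 0))) (L (nat_lit 0))))) (N (N (N (N (N (N (L (nat_lit 0xc90)) (L (nat_lit 0x10b0))) (N (L (nat_lit 0xf60)) (L (nat_lit 0x823))))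 (N (N (L (nat_lit 0xe60)) (L (nat_lit 0x1400))) (N (L (nat_lit 0x16f0)) (L (nat_lit 0))))) (L (nat_lit 0))) (N (N (N (L (nat_lit 0)) (N (L (nat_lit 0x9a0)) (L (nat_lit 0)))) (N (N (L (nat_lit 0x6e0)) (L (nat_lit 0))) (L (nat_lit 0)))) (L (nat_lit 0)))) (N (N (N (N (N (L (nat_lit 0x400)) (L (nat_lit 0))) (N (L (nat_lit 0x880)) (L (nat_lit 0)))) (N (N (L (nat_lit 0x590)) (L (nat_lit 0x1550))) (N (L (nat_lit 0x610)) (L (nat_lit 0))))) (L (nat_lit 0))) (N (N (N (L (nat_lit 0)) (N (L (nat_lit 0x150)) (L (nat_lit 0)))) (L (nat_lit 0))) (L (nat_lit 0)))))) (N (N (N (N (N (N (N (L (nat_lit 0x280)) (L (nat_lit 0xca0))) (N (L (nat_lit 0x520)) (L (nat_lit 0x1780)))) (N (N (L (nat_lit 0x790)) (L (nat_lit 0x1190))) (N (L (nat_lit 0xfe0)) (L (nat_lit 0))))) (L (nat_lit 0))) (N (N (N (L (nat_lit 0)) (N (L (nat_lit 0x1060)) (L (nat_lit 0)))) (N (N (L (nat_lit 0x253)) (L (nat_lit 0))) (L (nat_lit 0)))) (L (nat_lit 0)))) (N (N (N (N (N (L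 (nat_lit 0xa80)) (L (nat_lit 0))) (N (L (nat_lit 0x1660)) (L (nat_lit 0)))) (N (N (L (nat_lit 0xff0)) (L (nat_lit 0x15a0))) (N (L (nat_lit 0x8b2)) (L (nat_lit 0))))) (L (nat_lit 0))) (N (N (N (L (nat_lit 0)) (N (L (nat_lit 0x3e1)) (L (nat_lit 0)))) (L (nat_lit 0))) (L (nat_lit 0))))) (N (N (N (N (N (N (L (nat_lit 0x130)) (L (nat_lit 0x6d2))) (N (L (nat_lit 0x1350)) (L (nat_lit 0x1790)))) (N (N (L (nat_lit 0x7c0)) (L (nat_lit 0x1710))) (N (L (nat_lit 0xe00)) (L (nat_lit 0))))) (L (nat_lit 0))) (N (N (N (L (nat_lit 0)) (N (L (nat_lit 0x93)) (L (nat_lit 0)))) (L (nat_lit 0))) (L (nat_lit 0)))) (N (N (N (N (L (nat_lit 0)) (N (L (nat_lit 0x310)) (L (nat_lit 0)))) (N (N (L (nat_lit 0x360)) (L (nat_lit 0x433))) (L (nat_lit 0)))) (L (nat_lit 0))) (N (N (N (L (nat_lit 0)) (N (L (nat_lit 0x16b0)) (L (nat_lit 0)))) (L (nat_lit 0))) (L (nat_lit 0))))))) (N (N (N (N (N (N (N (N (L (nat_lit 0x1f0)) (L (nat_lit 0xf10))) (N (L (nat_lit 0x8f0))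 (L (nat_lit 0xc50)))) (N (N (L (nat_lit 0xd0)) (L (nat_lit 0xbc0))) (N (L (nat_lit 0xdd0)) (L (nat_lit 0))))) (L (nat_lit 0))) (N (N (N (L (nat_lit 0)) (N (L (nat_lit 0xd10)) (L (nat_lit 0)))) (N (N (L (nat_lit 0x203)) (L (nat_lit 0x1222))) (L (nat_lit 0)))) (L (nat_lit 0)))) (N (N (N (N (N (L (nat_lit 0x660)) (L (nat_lit 0))) (N (L (nat_lit 0x460)) (L (nat_lit 0)))) (N (N (L (nat_lit 0x14e0)) (L (nat_lit 0xfb0))) (N (L (nat_lit 0x4c1)) (L (nat_lit 0))))) (L (nat_lit 0))) (N (N (N (L (nat_lit 0)) (N (L (nat_lit 0x303)) (L (nat_lit 0)))) (L (nat_lit 0))) (L (nat_lit 0))))) (N (N (N (N (N (N (L (nat_lit 0x630)) (L (nat_lit 0x1420))) (N (L (nat_lit 0x6a0)) (L (nat_lit 0xb20)))) (N (N (L (nat_lit 0x2c0)) (L (nat_lit 0x11f0))) (N (L (nat_lit 0x1580)) (L (nat_lit 0))))) (L (nat_lit 0))) (N (N (N (L (nat_lit 0)) (N (L (nat_lit 0x11b0)) (L (nat_lit 0)))) (N (N (L (nat_lit 0x63)) (L (nat_lit 0))) (L (nat_lit 0)))) (L (nat_lit 0))))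 (N (N (N (N (N (L (nat_lit 0x12)) (L (nat_lit 0))) (N (L (nat_lit 0x1460)) (L (nat_lit 0)))) (N (N (L (nat_lit 0x770)) (L (nat_lit 0x1630))) (N (L (nat_lit 0xdb0)) (L (nat_lit 0))))) (L (nat_lit 0))) (N (N (N (L (nat_lit 0)) (N (L (nat_lit 0x9c0)) (L (nat_lit 0)))) (L (nat_lit 0))) (L (nat_lit 0)))))) (N (N (N (N (N (N (N (L (nat_lit 0xac0)) (L (nat_lit 0xe70))) (N (L (nat_lit 0x440)) (L (nat_lit 0x15e0)))) (N (N (L (nat_lit 0x220)) (L (nat_lit 0xf90))) (N (L (nat_lit 0xb30)) (L (nat_lit 0))))) (L (nat_lit 0))) (N (N (N (L (nat_lit 0)) (N (L (nat_lit 0xc40)) (L (nat_lit 0)))) (N (N (L (nat_lit 0x502)) (L (nat_lit 0))) (L (nat_lit 0)))) (L (nat_lit 0)))) (N (N (N (N (N (L (nat_lit 0x1e0)) (L (nat_lit 0))) (N (L (nat_lit 0x10d0)) (L (nat_lit 0)))) (N (N (L (nat_lit 0x210)) (L (nat_lit 0x1410))) (N (L (nat_lit 0x870)) (L (nat_lit 0))))) (L (nat_lit 0))) (N (N (N (L (nat_lit 0)) (N (L (nat_lit 0x7a2)) (L (nat_lit 0)))) (L (nat_lit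 0))) (L (nat_lit 0))))) (N (N (N (N (N (N (L (nat_lit 0xc10)) (L (nat_lit 0))) (N (L (nat_lit 0x370)) (L (nat_lit 0)))) (N (N (L (nat_lit 0x1030)) (L (nat_lit 0x1300))) (N (L (nat_lit 0xaf0)) (L (nat_lit 0))))) (L (nat_lit 0))) (N (N (N (L (nat_lit 0)) (N (L (nat_lit 0xe1)) (L (nat_lit 0)))) (L (nat_lit 0))) (L (nat_lit 0)))) (N (N (N (N (L (nat_lit 0)) (N (L (nat_lit 0x950)) (L (nat_lit 0)))) (N (N (L (nat_lit 0x800)) (L (nat_lit 0x7e4))) (L (nat_lit 0)))) (L (nat_lit 0))) (N (N (N (L (nat_lit 0)) (N (L (nat_lit 0xcc0)) (L (nat_lit 0)))) (L (nat_lit 0))) (L (nat_lit 0))))))))))) Tr.N Tr.L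
noncomputable def tHU_0 : St := (fun (N : ℕ → St → St → St) (L : ℕ → St) => (N (nat_lit 0x13659f6f7ad) (N (nat_lit 0xaff24d9) (N (nat_lit 0x1caf101) (N (nat_lit 0x80b9d9) (N (nat_lit 0x2430c1) (N (nat_lit 0xf5cc1) (N (nat_lit 0x27e2d) (N (nat_lit 0x13f6d) (N (nat_lit 0xc1) (L (nat_lit 0xd)) (L (nat_lit 0))) (N (nat_lit 0x13f81) (L (nat_lit 0x123)) (L (nat_lit 0x100)))) (N (nat_lit 0x3bd01) (N (nat_lit 0x27e41) (L (nat_lit 0x409)) (L (nat_lit 0x400))) (N (nat_lit 0xf5cad) (L (nat_lit 0x1600)) (L (nat_lit 0x211))))) (N (nat_lit 0x1a7299) (N (nat_lit 0x109b81) (N (nat_lit 0x109b6d) (L (nat_lit 0x200)) (L (nat_lit 0x812))) (N (nat_lit 0x1933d9) (L (nat_lit 0x800)) (L (nat_lit 0xe)))) (N (nat_lit 0x1eb8c1) (N (nat_lit 0x1bb159) (L (nat_lit 0x124)) (L (nat_lit 0x412))) (N (nat_lit 0x22f1ed) (L (nat_lit 0x1100)) (N (nat_lit 0x22f201) (L (nat_lit 0x54f)) (L (nat_lit 0x500))))))) (N (nat_lit 0x66d5ad) (N (nat_lit 0x3ca741) (N (nat_lit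 0x3c2519) (N (nat_lit 0x288fd9) (L (nat_lit 0x1700)) (L (nat_lit 0x21d))) (N (nat_lit 0x3ca72d) (L (nat_lit 0x525)) (L (nat_lit 0xa14)))) (N (nat_lit 0x59746d) (N (nat_lit 0x565c81) (L (nat_lit 0xa00)) (L (nat_lit 0x1900))) (N (nat_lit 0x597481) (L (nat_lit 0x310)) (N (nat_lit 0x5ab341) (L (nat_lit 0x300)) (L (nat_lit 0xf00)))))) (N (nat_lit 0x7411ad) (N (nat_lit 0x681481) (N (nat_lit 0x66d5c1) (L (nat_lit 0x609)) (L (nat_lit 0x600))) (N (nat_lit 0x72a799) (L (nat_lit 0x1d00)) (L (nat_lit 0x320)))) (N (nat_lit 0x8008d9) (N (nat_lit 0x7411c1) (L (nat_lit 0x919)) (L (nat_lit 0x900))) (N (nat_lit 0x808aed) (L (nat_lit 0x611)) (N (nat_lit 0x808b01) (L (nat_lit 0xd06)) (L (nat_lit 0xd00)))))))) (N (nat_lit 0xf91ac1) (N (nat_lit 0x9d5799) (N (nat_lit 0x976701) (N (nat_lit 0x9015d9) (N (nat_lit 0x81f899) (L (nat_lit 0x10d)) (L (nat_lit 0x40d))) (N (nat_lit 0x94cf01) (L (nat_lit 0x81b)) (L (nat_lit 0x1800)))) (N (nat_lit 0x9a4041)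 (N (nat_lit 0x992a05) (L (nat_lit 0x1300)) (L (nat_lit 0xf))) (N (nat_lit 0x9a68c5) (L (nat_lit 0x2200)) (L (nat_lit 0x115))))) (N (nat_lit 0xcdc981) (N (nat_lit 0xa88605) (N (nat_lit 0x9e9659) (L (nat_lit 0x216)) (L (nat_lit 0x824))) (N (nat_lit 0xc3a0d9) (L (nat_lit 0x22d)) (L (nat_lit 0x51a)))) (N (nat_lit 0xd23d81) (N (nat_lit 0xd23d6d) (L (nat_lit 0x1200)) (L (nat_lit 0xb17))) (N (nat_lit 0xdd5619) (L (nat_lit 0xb00)) (N (nat_lit 0xebf2c1) (L (nat_lit 0xa27)) (L (nat_lit 0x1c00))))))) (N (nat_lit 0x15b6cc5) (N (nat_lit 0x1322499) (N (nat_lit 0x126c519) (N (nat_lit 0xf973d9) (L (nat_lit 0x1e00)) (L (nat_lit 0x316))) (N (nat_lit 0x1310705) (L (nat_lit 0x987)) (L (nat_lit 0x125)))) (N (nat_lit 0x1463d41) (N (nat_lit 0x13245c5) (L (nat_lit 0x928)) (L (nat_lit 0x416))) (N (nat_lit 0x150a2ad) (L (nat_lit 0x1a00)) (N (nat_lit 0x150a2c1) (L (nat_lit 0x70d)) (L (nat_lit 0x700)))))) (N (nat_lit 0x197a4d9) (N (nat_lit 0x173d801)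 (N (nat_lit 0x15be541) (L (nat_lit 0x226)) (L (nat_lit 0x1500))) (N (nat_lit 0x181b605) (L (nat_lit 0x1000)) (L (nat_lit 0x531)))) (N (nat_lit 0x1c0b019) (N (nat_lit 0x1bf7159) (L (nat_lit 0xb35)) (L (nat_lit 0x213))) (N (nat_lit 0x1c2c3ad) (L (nat_lit 0x816)) (N (nat_lit 0x1c2c3c1) (L (nat_lit 0xc0d)) (L (nat_lit 0xc00))))))))) (N (nat_lit 0x42e2f31) (N (nat_lit 0x2712ec5) (N (nat_lit 0x2195459) (N (nat_lit 0x1f16405) (N (nat_lit 0x1cd5901) (N (nat_lit 0x1cd3105) (L (nat_lit 0x2300)) (L (nat_lit 0x328))) (N (nat_lit 0x1e50b19) (L (nat_lit 0x2100)) (L (nat_lit 0x515)))) (N (nat_lit 0x2062a99) (N (nat_lit 0x1f4dbc1) (L (nat_lit 0x410)) (L (nat_lit 0x1400))) (N (nat_lit 0x210c4d9) (L (nat_lit 0x713)) (L (nat_lit 0xa21))))) (N (nat_lit 0x26e3f31) (N (nat_lit 0x24bb359) (N (nat_lit 0x21bc9c5) (L (nat_lit 0xa1a)) (L (nat_lit 0x82a))) (N (nat_lit 0x2529b81) (L (nat_lit 0x923)) (L (nat_lit 0x1f00)))) (N (nat_lit 0x26fd0c5) (N (nat_lit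 0x26f7df1) (L (nat_lit 0x10)) (L (nat_lit 0x11a))) (N (nat_lit 0x26ff005) (L (nat_lit 0x522)) (N (nat_lit 0x2701b59) (L (nat_lit 0x219)) (L (nat_lit 0x624))))))) (N (nat_lit 0x338fa01) (N (nat_lit 0x2e18745) (N (nat_lit 0x289d099) (N (nat_lit 0x2898605) (L (nat_lit 0x82e)) (L (nat_lit 0xa37))) (N (nat_lit 0x2ae2585) (L (nat_lit 0xd0a)) (L (nat_lit 0x221)))) (N (nat_lit 0x3060105) (N (nat_lit 0x2f10b99) (L (nat_lit 0x52b)) (L (nat_lit 0xb7a))) (N (nat_lit 0x30960c5) (L (nat_lit 0x93e)) (N (nat_lit 0x32f0b19) (L (nat_lit 0x319)) (L (nat_lit 0xb21)))))) (N (nat_lit 0x37a5f85) (N (nat_lit 0x3496605) (N (nat_lit 0x339f731) (L (nat_lit 0x1b00)) (L (nat_lit 0x126))) (N (nat_lit 0x37a04f1) (L (nat_lit 0x943)) (L (nat_lit 0x235)))) (N (nat_lit 0x3a48285) (N (nat_lit 0x38e11c1) (L (nat_lit 0x615)) (L (nat_lit 0x2400))) (N (nat_lit 0x3c60381) (L (nat_lit 0x820)) (N (nat_lit 0x42c4259) (L (nat_lit 0xe00)) (L (nat_lit 0xc16)))))))) (N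 (nat_lit 0x5fe5185) (N (nat_lit 0x4f900b1) (N (nat_lit 0x4904c45) (N (nat_lit 0x456ca85) (N (nat_lit 0x439eb45) (L (nat_lit 0x41a)) (L (nat_lit 0xa2d))) (N (nat_lit 0x466b005) (L (nat_lit 0x51f)) (L (nat_lit 0x716)))) (N (nat_lit 0x4d7ebf1) (N (nat_lit 0x4c32659) (L (nat_lit 0xa33)) (L (nat_lit 0x313))) (N (nat_lit 0x4d80b31) (L (nat_lit 0x53b)) (N (nat_lit 0x4f34c19) (L (nat_lit 0x22a)) (L (nat_lit 0x91e)))))) (N (nat_lit 0x5b58bf1) (N (nat_lit 0x597ca85) (N (nat_lit 0x4fac745) (L (nat_lit 0x230)) (L (nat_lit 0x938))) (N (nat_lit 0x5abe859) (L (nat_lit 0xb3a)) (L (nat_lit 0xb1c)))) (N (nat_lit 0x5e3a281) (N (nat_lit 0x5c09b85) (L (nat_lit 0x32d)) (L (nat_lit 0xb40))) (N (nat_lit 0x5e77ec1) (L (nat_lit 0x2500)) (N (nat_lit 0x5f4c331) (L (nat_lit 0x2000)) (L (nat_lit 0x833))))))) (N (nat_lit 0x82a7285) (N (nat_lit 0x77312f1) (N (nat_lit 0x700d0b1) (N (nat_lit 0x6a5a505) (L (nat_lit 0x324)) (L (nat_lit 0xa1e))) (N (nat_lit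 0x75e49c5) (L (nat_lit 0x537)) (L (nat_lit 0xd0e)))) (N (nat_lit 0x7b7e905) (N (nat_lit 0x776d719) (L (nat_lit 0x94b)) (L (nat_lit 0xc10))) (N (nat_lit 0x7bee331) (L (nat_lit 0x60f)) (N (nat_lit 0x7d4ef5d) (L (nat_lit 0x31c)) (L (nat_lit 0xa)))))) (N (nat_lit 0x9da7af1) (N (nat_lit 0x8d8065d) (N (nat_lit 0x879b1c5) (L (nat_lit 0x92d)) (L (nat_lit 0xb30))) (N (nat_lit 0x93740b1) (L (nat_lit 0x11d)) (L (nat_lit 0xa3b)))) (N (nat_lit 0xa52f4b1) (N (nat_lit 0xa2ae905) (L (nat_lit 0x719)) (L (nat_lit 0xc19))) (N (nat_lit 0xacf2a31) (L (nat_lit 0x947)) (N (nat_lit 0xae8895d) (L (nat_lit 0x619)) (L (nat_lit 0x238)))))))))) (N (nat_lit 0x10fd438a6ad) (N (nat_lit 0xed29fcb2c5) (N (nat_lit 0xed275a27ad) (N (nat_lit 0xed26f352ad) (N (nat_lit 0x14282d05) (N (nat_lit 0xe9fda31) (N (nat_lit 0xc758d05) (L (nat_lit 0x710)) (L (nat_lit 0xb26))) (N (nat_lit 0xeaf805d) (L (nat_lit 0xb45)) (L (nat_lit 0x331)))) (N (nat_lit 0x1517f35d) (N (nat_lit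 0x14efb689) (L (nat_lit 0xc13)) (L (nat_lit 0xb))) (N (nat_lit 0x153babb1) (L (nat_lit 0x71c)) (L (nat_lit 0xc1c))))) (N (nat_lit 0xed270c85d9) (N (nat_lit 0xed26f5d02d) (N (nat_lit 0xed26f4916d) (L (nat_lit 0x10a)) (L (nat_lit 0x424))) (N (nat_lit 0xed2702aead) (L (nat_lit 0x1604)) (L (nat_lit 0x811)))) (N (nat_lit 0xed271643ed) (N (nat_lit 0xed270dc499) (L (nat_lit 0x10e)) (L (nat_lit 0x425))) (N (nat_lit 0xed271be1d9) (L (nat_lit 0x170b)) (N (nat_lit 0xed274cc66d) (L (nat_lit 0x835)) (L (nat_lit 0xf0b))))))) (N (nat_lit 0xed284ebec5) (N (nat_lit 0xed278dbac5) (N (nat_lit 0xed27754a99) (N (nat_lit 0xed27740bd9) (L (nat_lit 0x1d06)) (L (nat_lit 0x40b))) (N (nat_lit 0xed278c7c05) (L (nat_lit 0x160c)) (L (nat_lit 0x113)))) (N (nat_lit 0xed27b6f2d9) (N (nat_lit 0xed2790a999) (L (nat_lit 0x41b)) (L (nat_lit 0x85a))) (N (nat_lit 0xed27ecc5d9) (L (nat_lit 0x171d)) (N (nat_lit 0xed28245905) (L (nat_lit 0xf18)) (L (nat_lit 0x426))))))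 (N (nat_lit 0xed29619131) (N (nat_lit 0xed28d85d19) (N (nat_lit 0xed28b2c359) (L (nat_lit 0x85b)) (L (nat_lit 0x814))) (N (nat_lit 0xed28e4b605) (L (nat_lit 0x170e)) (L (nat_lit 0x1608)))) (N (nat_lit 0xed29634205) (N (nat_lit 0xed296322c5) (L (nat_lit 0x119)) (L (nat_lit 0x1732))) (N (nat_lit 0xed29636d59) (L (nat_lit 0x82c)) (N (nat_lit 0xed29a17785) (L (nat_lit 0x1d0a)) (L (nat_lit 0x839)))))))) (N (nat_lit 0x10fc6d701f1) (N (nat_lit 0x10fc46a022d) (N (nat_lit 0xed2bcb5d31) (N (nat_lit 0xed2b4a1c85) (N (nat_lit 0xed2a2d4931) (L (nat_lit 0xf20)) (L (nat_lit 0x41e))) (N (nat_lit 0xed2bb67859) (L (nat_lit 0x1722)) (L (nat_lit 0xf0d)))) (N (nat_lit 0xed2eb23531) (N (nat_lit 0xed2eab3b05) (L (nat_lit 0x851)) (L (nat_lit 0x1d12))) (N (nat_lit 0xed2ec8415d) (L (nat_lit 0xf28)) (N (nat_lit 0x10fc468c36d) (L (nat_lit 0x11e)) (L (nat_lit 0x210)))))) (N (nat_lit 0x10fc4e97c99) (N (nat_lit 0x10fc481f699) (N (nat_lit 0x10fc4781f6d)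 (L (nat_lit 0x859)) (L (nat_lit 0x112b))) (N (nat_lit 0x10fc4833559) (L (nat_lit 0x21b)) (L (nat_lit 0x836)))) (N (nat_lit 0x10fc5061a59) (N (nat_lit 0x10fc501ecc5) (L (nat_lit 0x81a)) (L (nat_lit 0x247))) (N (nat_lit 0x10fc599c9c5) (L (nat_lit 0x112c)) (N (nat_lit 0x10fc6283419) (L (nat_lit 0x83f)) (L (nat_lit 0x110d))))))) (N (nat_lit 0x10fcf9927d9) (N (nat_lit 0x10fc92d53d9) (N (nat_lit 0x10fc91420ad) (N (nat_lit 0x10fc6d8b2c5) (L (nat_lit 0x23a)) (L (nat_lit 0x111d))) (N (nat_lit 0x10fc9155f6d) (L (nat_lit 0x510)) (L (nat_lit 0x1738)))) (N (nat_lit 0x10fc9ad4a05) (N (nat_lit 0x10fc994d9d9) (L (nat_lit 0x550)) (L (nat_lit 0x1714))) (N (nat_lit 0x10fce33b86d) (L (nat_lit 0x53d)) (N (nat_lit 0x10fce4ceb99) (L (nat_lit 0x918)) (L (nat_lit 0x94e)))))) (N (nat_lit 0x10fd2ba6919) (N (nat_lit 0x10fcfa883d9) (N (nat_lit 0x10fcf9a6699) (L (nat_lit 0x215)) (L (nat_lit 0x823))) (N (nat_lit 0x10fd2a135ed) (L (nat_lit 0x1114)) (L (nat_lit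 0xa68)))) (N (nat_lit 0x10fd341e4d9) (N (nat_lit 0x10fd2baeb2d) (L (nat_lit 0xa3e)) (L (nat_lit 0x194a))) (N (nat_lit 0x10fd35b9a19) (L (nat_lit 0xa26)) (N (nat_lit 0x10fd3fffa05) (L (nat_lit 0x1928)) (L (nat_lit 0xa52))))))))) (N (nat_lit 0x10ff5e0a545) (N (nat_lit 0x10fe68597c5) (N (nat_lit 0x10fdfc71259) (N (nat_lit 0x10fd7c7d5ad) (N (nat_lit 0x10fd5f3af59) (N (nat_lit 0x10fd4979859) (L (nat_lit 0x1010)) (L (nat_lit 0x1912))) (N (nat_lit 0x10fd5f4ee19) (L (nat_lit 0x513)) (L (nat_lit 0x170f)))) (N (nat_lit 0x10fde4b7459) (N (nat_lit 0x10fd885e899) (L (nat_lit 0x1858)) (L (nat_lit 0x1824))) (N (nat_lit 0x10fdf92c919) (L (nat_lit 0x91c)) (L (nat_lit 0xa69))))) (N (nat_lit 0x10fe3fc4f19) (N (nat_lit 0x10fe1d5d5ad) (N (nat_lit 0x10fe19f816d) (L (nat_lit 0x191b)) (L (nat_lit 0x1e13))) (N (nat_lit 0x10fe2888919) (L (nat_lit 0x1315)) (L (nat_lit 0x133c)))) (N (nat_lit 0x10fe59ad505) (N (nat_lit 0x10fe4ab2a05) (L (nat_lit 0x1e22))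 (L (nat_lit 0x1359))) (N (nat_lit 0x10fe59c13c5) (L (nat_lit 0x224)) (N (nat_lit 0x10fe65b3205) (L (nat_lit 0x848)) (L (nat_lit 0x829))))))) (N (nat_lit 0x10febc227d9) (N (nat_lit 0x10fe7f51a19) (N (nat_lit 0x10fe691ca59) (N (nat_lit 0x10fe6908b99) (L (nat_lit 0x112d)) (L (nat_lit 0x519))) (N (nat_lit 0x10fe74ea0c5) (L (nat_lit 0x171f)) (L (nat_lit 0x52f)))) (N (nat_lit 0x10fe80efdc5) (N (nat_lit 0x10fe80e5085) (L (nat_lit 0x1814)) (L (nat_lit 0x1118))) (N (nat_lit 0x10fe96d38f1) (L (nat_lit 0x172a)) (N (nat_lit 0x10fea13c2d9) (L (nat_lit 0x546)) (L (nat_lit 0x1013)))))) (N (nat_lit 0x10feedcf159) (N (nat_lit 0x10fec95e505) (N (nat_lit 0x10fec33c385) (L (nat_lit 0x930)) (L (nat_lit 0x528))) (N (nat_lit 0x10fed2a2085) (L (nat_lit 0x967)) (L (nat_lit 0x1719)))) (N (nat_lit 0x10ff2273659) (N (nat_lit 0x10ff1dc9e99) (L (nat_lit 0x1328)) (L (nat_lit 0x1023))) (N (nat_lit 0x10ff4d7ff85) (L (nat_lit 0x1e1d)) (N (nat_lit 0x10ff568f919)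 (L (nat_lit 0x953)) (L (nat_lit 0x183c)))))))) (N (nat_lit 0x1100e423b05) (N (nat_lit 0x110007da085) (N (nat_lit 0x10ff9a4c305) (N (nat_lit 0x10ff7483505) (N (nat_lit 0x10ff7390945) (L (nat_lit 0xa4c)) (L (nat_lit 0x1940))) (N (nat_lit 0x10ff755e885) (L (nat_lit 0x184c)) (L (nat_lit 0xa32)))) (N (nat_lit 0x10ffdabf8d9) (N (nat_lit 0x10ffd803f19) (L (nat_lit 0x1921)) (L (nat_lit 0xa18))) (N (nat_lit 0x10ffe7cbb45) (L (nat_lit 0x191c)) (N (nat_lit 0x110002b8045) (L (nat_lit 0xa43)) (L (nat_lit 0x1934)))))) (N (nat_lit 0x1100a17dd31) (N (nat_lit 0x11006dd6545) (N (nat_lit 0x11002bc6759) (L (nat_lit 0x182a)) (L (nat_lit 0x1819))) (N (nat_lit 0x1100923a531) (L (nat_lit 0x1347)) (L (nat_lit 0x233)))) (N (nat_lit 0x1100bde7131) (N (nat_lit 0x1100ac084c5) (L (nat_lit 0x84e)) (L (nat_lit 0x941))) (N (nat_lit 0x1100cdb3f99) (L (nat_lit 0x1128)) (N (nat_lit 0x1100d6caff1) (L (nat_lit 0x1e62)) (L (nat_lit 0x979))))))) (N (nat_lit 0x1103c70145d)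 (N (nat_lit 0x1101ba08019) (N (nat_lit 0x110112b9405) (N (nat_lit 0x1100ffe7eb1) (L (nat_lit 0x1e2c)) (L (nat_lit 0x541))) (N (nat_lit 0x1101b7fceb1) (L (nat_lit 0x1031)) (L (nat_lit 0xa5e)))) (N (nat_lit 0x1102db572b1) (N (nat_lit 0x1102259eb45) (L (nat_lit 0x1319)) (L (nat_lit 0x1841))) (N (nat_lit 0x110338dcef1) (L (nat_lit 0x1363)) (N (nat_lit 0x1103b80d5c5) (L (nat_lit 0x103d)) (L (nat_lit 0x1e3c)))))) (N (nat_lit 0x136502fbbd9) (N (nat_lit 0x1364fb0416d) (N (nat_lit 0x1364faf02ad) (L (nat_lit 0x24a)) (L (nat_lit 0x30f))) (N (nat_lit 0x1364fc835d9) (L (nat_lit 0xf2e)) (L (nat_lit 0x31e)))) (N (nat_lit 0x136549817ed) (N (nat_lit 0x13650482c05) (L (nat_lit 0xf12)) (L (nat_lit 0x333))) (N (nat_lit 0x13654b14b19) (L (nat_lit 0x986)) (N (nat_lit 0x13659874d2d) (L (nat_lit 0x94f)) (L (nat_lit 0x1811))))))))))) (N (nat_lit 0x16c838590d9) (N (nat_lit 0x136f1d5eab1) (N (nat_lit 0x13692ceef85) (N (nat_lit 0x1367357c9c5) (N (nat_lit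 0x13667120459) (N (nat_lit 0x1365f49fc19) (N (nat_lit 0x1365b6db659) (N (nat_lit 0x1365b6c7799) (L (nat_lit 0x1228)) (L (nat_lit 0x341))) (N (nat_lit 0x1365ea94d2d) (L (nat_lit 0xf2f)) (L (nat_lit 0x136e)))) (N (nat_lit 0x13662083b19) (N (nat_lit 0x136606840d9) (L (nat_lit 0x132e)) (L (nat_lit 0x932))) (N (nat_lit 0x13665e48499) (L (nat_lit 0x922)) (L (nat_lit 0x1211))))) (N (nat_lit 0x1366da07bad) (N (nat_lit 0x1366aa2cc19) (N (nat_lit 0x1366a797619) (L (nat_lit 0x181b)) (L (nat_lit 0x136f))) (N (nat_lit 0x1366c2b74d9) (L (nat_lit 0x120c)) (L (nat_lit 0x1329)))) (N (nat_lit 0x1366dba30ed) (N (nat_lit 0x1366db9aed9) (L (nat_lit 0xb16)) (L (nat_lit 0xb49))) (N (nat_lit 0x13672976cc5) (L (nat_lit 0x1c0e)) (N (nat_lit 0x1367319a36d) (L (nat_lit 0x326)) (L (nat_lit 0x1a46))))))) (N (nat_lit 0x13681247b19) (N (nat_lit 0x13678972c19) (N (nat_lit 0x13674660c05) (N (nat_lit 0x13673a7f6d9) (L (nat_lit 0xf1e)) (L (nat_lit 0x927)))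 (N (nat_lit 0x13677933605) (L (nat_lit 0x95e)) (L (nat_lit 0x969)))) (N (nat_lit 0x13679719745) (N (nat_lit 0x1367918db19) (L (nat_lit 0x1825)) (L (nat_lit 0x1229))) (N (nat_lit 0x1367b57cb59) (L (nat_lit 0x959)) (N (nat_lit 0x1367b718099) (L (nat_lit 0xb2b)) (L (nat_lit 0x1c24)))))) (N (nat_lit 0x1368bc5aa59) (N (nat_lit 0x136841fe859) (N (nat_lit 0x13682928605) (L (nat_lit 0x1a17)) (L (nat_lit 0x134f))) (N (nat_lit 0x1368517dc45) (L (nat_lit 0x1a11)) (L (nat_lit 0x1338)))) (N (nat_lit 0x1368d5ee36d) (N (nat_lit 0x1368d06e9ad) (L (nat_lit 0x131f)) (L (nat_lit 0x1f0f))) (N (nat_lit 0x1368e244ad9) (L (nat_lit 0x153a)) (N (nat_lit 0x136924e3ad9) (L (nat_lit 0x1520)) (L (nat_lit 0x1a24)))))))) (N (nat_lit 0x136b4682b85) (N (nat_lit 0x1369b2bbb99) (N (nat_lit 0x13697f364f1) (N (nat_lit 0x136954988c5) (N (nat_lit 0x13695484a05) (L (nat_lit 0xb5e)) (L (nat_lit 0x342))) (N (nat_lit 0x13696f080c5) (L (nat_lit 0xf21)) (L (nat_lit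 0x93d)))) (N (nat_lit 0x13699aaac05) (N (nat_lit 0x13698b28c05) (L (nat_lit 0x338)) (L (nat_lit 0x1835))) (N (nat_lit 0x1369b032699) (L (nat_lit 0x121a)) (L (nat_lit 0x1c18))))) (N (nat_lit 0x1369ee79719) (N (nat_lit 0x1369c947105) (N (nat_lit 0x1369c833485) (L (nat_lit 0x153b)) (L (nat_lit 0x937))) (N (nat_lit 0x1369e0eab45) (L (nat_lit 0x122a)) (L (nat_lit 0x1831)))) (N (nat_lit 0x136a5e32c85) (N (nat_lit 0x136a4261f05) (L (nat_lit 0x1f17)) (L (nat_lit 0x181f))) (N (nat_lit 0x136a6b43645) (L (nat_lit 0x1215)) (N (nat_lit 0x136af829b45) (L (nat_lit 0x1349)) (L (nat_lit 0x1343))))))) (N (nat_lit 0x136cbb7d199) (N (nat_lit 0x136bc95fbf1) (N (nat_lit 0x136b8cdc3c5) (N (nat_lit 0x136b8694a85) (L (nat_lit 0x152b)) (L (nat_lit 0x1a3c))) (N (nat_lit 0x136b9276305) (L (nat_lit 0x1c2e)) (L (nat_lit 0xb2f)))) (N (nat_lit 0x136c3715705) (N (nat_lit 0x136c1f289c5) (L (nat_lit 0x975)) (L (nat_lit 0x1c2a))) (N (nat_lit 0x136c6292159)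 (L (nat_lit 0x1a1d)) (N (nat_lit 0x136c7336585) (L (nat_lit 0xb20)) (L (nat_lit 0xb53)))))) (N (nat_lit 0x136e2ae12f1) (N (nat_lit 0x136de2b2531) (N (nat_lit 0x136d93c2bc5) (L (nat_lit 0x1a18)) (L (nat_lit 0x151b))) (N (nat_lit 0x136df47dd31) (L (nat_lit 0x32b)) (L (nat_lit 0xf26)))) (N (nat_lit 0x136e5a7fab1) (N (nat_lit 0x136e49f4705) (L (nat_lit 0x1225)) (L (nat_lit 0x1f1b))) (N (nat_lit 0x136e5efc859) (L (nat_lit 0x96f)) (N (nat_lit 0x136ecf69185) (L (nat_lit 0x1f1f)) (L (nat_lit 0x1a30))))))))) (N (nat_lit 0x14156bf5f89) (N (nat_lit 0x140eabebac5) (N (nat_lit 0x14099558a59) (N (nat_lit 0x137426dcf05) (N (nat_lit 0x13702b96431) (N (nat_lit 0x1370258ee59) (L (nat_lit 0x1355)) (L (nat_lit 0x1511))) (N (nat_lit 0x13725dd1431) (L (nat_lit 0xb62)) (L (nat_lit 0x152f)))) (N (nat_lit 0x14099530cd9) (N (nat_lit 0x1374457635d) (L (nat_lit 0x1f28)) (L (nat_lit 0x33c))) (N (nat_lit 0x14099544b99) (L (nat_lit 0x10c)) (L (nat_lit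 0x40c))))) (N (nat_lit 0x14099b9e1d9) (N (nat_lit 0x1409975fe19) (N (nat_lit 0x140996268d9) (L (nat_lit 0x1606)) (L (nat_lit 0x819))) (N (nat_lit 0x14099ac8099) (L (nat_lit 0x1713)) (L (nat_lit 0xf11)))) (N (nat_lit 0x140c33bddc5) (N (nat_lit 0x140c33a9f05) (L (nat_lit 0x1d09)) (L (nat_lit 0x111))) (N (nat_lit 0x140c349fb05) (L (nat_lit 0x414)) (N (nat_lit 0x140eabd7c05) (L (nat_lit 0x83e)) (L (nat_lit 0x40f))))))) (N (nat_lit 0x141201e9a85) (N (nat_lit 0x140eef5e031) (N (nat_lit 0x140eb0e2b05) (N (nat_lit 0x140eae7e1c5) (L (nat_lit 0x1609)) (L (nat_lit 0x827))) (N (nat_lit 0x140eb59a605) (L (nat_lit 0x1728)) (L (nat_lit 0xf1c)))) (N (nat_lit 0x14116ac9831) (N (nat_lit 0x140eef71ef1) (L (nat_lit 0x117)) (L (nat_lit 0x41f))) (N (nat_lit 0x14116eca5f1) (L (nat_lit 0x418)) (N (nat_lit 0x1411ec14c5d) (L (nat_lit 0x84c)) (L (nat_lit 0x11c)))))) (N (nat_lit 0x1413f358cf1) (N (nat_lit 0x14120ead485) (N (nat_lit 0x1412051fc45) (L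 (nat_lit 0x81e)) (L (nat_lit 0x1718))) (N (nat_lit 0x1413e8bd031) (L (nat_lit 0x1d11)) (L (nat_lit 0x160b)))) (N (nat_lit 0x14140132cf1) (N (nat_lit 0x1413f35ac31) (L (nat_lit 0x1736)) (L (nat_lit 0x831))) (N (nat_lit 0x14146af635d) (L (nat_lit 0xf24)) (N (nat_lit 0x1414c4fa1b1) (L (nat_lit 0x422)) (L (nat_lit 0x843)))))))) (N (nat_lit 0x16166f1d305) (N (nat_lit 0x161285f35d9) (N (nat_lit 0x1419a5cdd5d) (N (nat_lit 0x1416faae65d) (N (nat_lit 0x141644bc685) (L (nat_lit 0x121)) (L (nat_lit 0xf15))) (N (nat_lit 0x141754271b1) (L (nat_lit 0x856)) (L (nat_lit 0x172e)))) (N (nat_lit 0x1611c112c6d) (N (nat_lit 0x141acf4cb31) (L (nat_lit 0xf2c)) (L (nat_lit 0x1d18))) (N (nat_lit 0x1611c2a5f99) (L (nat_lit 0x730)) (N (nat_lit 0x161213989ad) (L (nat_lit 0x71e)) (L (nat_lit 0x1047)))))) (N (nat_lit 0x16140bb5305) (N (nat_lit 0x1612f3dc559) (N (nat_lit 0x1612d9a4719) (L (nat_lit 0x731)) (L (nat_lit 0x1048))) (N (nat_lit 0x1613b90756d)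 (L (nat_lit 0x1018)) (L (nat_lit 0x1449)))) (N (nat_lit 0x1614803e6d9) (N (nat_lit 0x16141e78c99) (L (nat_lit 0x734)) (L (nat_lit 0x101c))) (N (nat_lit 0x16149dbdd99) (L (nat_lit 0x1428)) (N (nat_lit 0x161652decc5) (L (nat_lit 0x144a)) (L (nat_lit 0x732))))))) (N (nat_lit 0x161be514c85) (N (nat_lit 0x161876a3785) (N (nat_lit 0x1616caba345) (N (nat_lit 0x1616a7bb205) (L (nat_lit 0x102e)) (L (nat_lit 0x1032))) (N (nat_lit 0x1617d52bbad) (L (nat_lit 0x1029)) (L (nat_lit 0x1b0e)))) (N (nat_lit 0x1618be8d459) (N (nat_lit 0x1618aa1ddc5) (L (nat_lit 0x144c)) (L (nat_lit 0x1424))) (N (nat_lit 0x16198b22319) (L (nat_lit 0x1b1e)) (N (nat_lit 0x161b1cfd7f1) (L (nat_lit 0x1418)) (L (nat_lit 0x728)))))) (N (nat_lit 0x162042adab1) (N (nat_lit 0x161d88b0ef1) (N (nat_lit 0x161cd24d505) (L (nat_lit 0x142d)) (L (nat_lit 0x1b22))) (N (nat_lit 0x161fc0a7931) (L (nat_lit 0x103a)) (L (nat_lit 0x718)))) (N (nat_lit 0x16233859f19) (N (nat_lit 0x16222ef1031)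 (L (nat_lit 0x1036)) (L (nat_lit 0x1437))) (N (nat_lit 0x1626adb31b1) (L (nat_lit 0x1b16)) (N (nat_lit 0x1629a43365d) (L (nat_lit 0x1b26)) (L (nat_lit 0x72b)))))))))) (N (nat_lit 0x19d4b8bc685) (N (nat_lit 0x16d218e6e45) (N (nat_lit 0x16cd9291705) (N (nat_lit 0x16c95073199) (N (nat_lit 0x16c88bf3d59) (N (nat_lit 0x16c8394ecd9) (N (nat_lit 0x16c8386cf99) (L (nat_lit 0x212)) (L (nat_lit 0x815))) (N (nat_lit 0x16c88bdfe99) (L (nat_lit 0x110e)) (L (nat_lit 0x514)))) (N (nat_lit 0x16c937947d9) (N (nat_lit 0x16c8e6e2ad9) (L (nat_lit 0x1710)) (L (nat_lit 0x921))) (N (nat_lit 0x16c9392fd19) (L (nat_lit 0xa19)) (L (nat_lit 0x1913))))) (N (nat_lit 0x16caf97ba05) (N (nat_lit 0x16ca4365bd9) (N (nat_lit 0x16c99307c19) (L (nat_lit 0x1017)) (L (nat_lit 0x181a))) (N (nat_lit 0x16ca488cb99) (L (nat_lit 0x1e18)) (L (nat_lit 0x131e)))) (N (nat_lit 0x16cb4ddefc5) (N (nat_lit 0x16caf98f8c5) (L (nat_lit 0x21f)) (L (nat_lit 0x83a))) (N (nat_lit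 0x16cbaa3c405) (L (nat_lit 0x529)) (N (nat_lit 0x16cbf993905) (L (nat_lit 0x958)) (L (nat_lit 0xa44))))))) (N (nat_lit 0x16cff139305) (N (nat_lit 0x16ce2dcf3f1) (N (nat_lit 0x16cdd811631) (N (nat_lit 0x16cd9537cc5) (L (nat_lit 0x81f)) (L (nat_lit 0x1119))) (N (nat_lit 0x16cde6f4cc5) (L (nat_lit 0x22f)) (L (nat_lit 0x171a)))) (N (nat_lit 0x16ce9720905) (N (nat_lit 0x16ce95853c5) (L (nat_lit 0x542)) (L (nat_lit 0xa2c))) (N (nat_lit 0x16cef429405) (L (nat_lit 0x192e)) (N (nat_lit 0x16cfa8f8405) (L (nat_lit 0x1830)) (L (nat_lit 0x1341)))))) (N (nat_lit 0x16d0beab305) (N (nat_lit 0x16d050113c5) (N (nat_lit 0x16cff14d1c5) (L (nat_lit 0x51e)) (L (nat_lit 0x1724))) (N (nat_lit 0x16d07464e31) (L (nat_lit 0x935)) (L (nat_lit 0x844)))) (N (nat_lit 0x16d0fd61905) (N (nat_lit 0x16d0f7e215d) (L (nat_lit 0x1027)) (L (nat_lit 0x23d))) (N (nat_lit 0x16d11483585) (L (nat_lit 0x1842)) (N (nat_lit 0x16d17a0daf1) (L (nat_lit 0x1110)) (L (nat_lit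 0xa58)))))))) (N (nat_lit 0x16db5ad1585) (N (nat_lit 0x16d5749d231) (N (nat_lit 0x16d338daaf1) (N (nat_lit 0x16d31dde231) (N (nat_lit 0x16d2d5c1a31) (L (nat_lit 0x1916)) (L (nat_lit 0x535))) (N (nat_lit 0x16d32d55d85) (L (nat_lit 0x1121)) (L (nat_lit 0x1e27)))) (N (nat_lit 0x16d4fcfef45) (N (nat_lit 0x16d4f966d85) (L (nat_lit 0x96d)) (L (nat_lit 0xa1d))) (N (nat_lit 0x16d53ae01f1) (L (nat_lit 0x1922)) (N (nat_lit 0x16d558e7a45) (L (nat_lit 0x135e)) (L (nat_lit 0x181e)))))) (N (nat_lit 0x16d7e20dfb1) (N (nat_lit 0x16d60e94e85) (N (nat_lit 0x16d5fcb945d) (L (nat_lit 0x1730)) (L (nat_lit 0x54a))) (N (nat_lit 0x16d68b131f1) (L (nat_lit 0x1e37)) (L (nat_lit 0x1852)))) (N (nat_lit 0x16d866009f1) (N (nat_lit 0x16d7eb82231) (L (nat_lit 0xa48)) (L (nat_lit 0x946))) (N (nat_lit 0x16da9284fb1) (L (nat_lit 0x1035)) (N (nat_lit 0x16db207bb5d) (L (nat_lit 0x193a)) (L (nat_lit 0x97e))))))) (N (nat_lit 0x19d1d40f659) (N (nat_lit 0x19081545cad)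 (N (nat_lit 0x16e071d9e5d) (N (nat_lit 0x16dcfe833b1) (L (nat_lit 0x1323)) (L (nat_lit 0x1846))) (N (nat_lit 0x16e22d11931) (L (nat_lit 0x1041)) (L (nat_lit 0x1e41)))) (N (nat_lit 0x190ce0b5e05) (N (nat_lit 0x1908e367e99) (L (nat_lit 0xe14)) (L (nat_lit 0xe15))) (N (nat_lit 0x1916c78c2f1) (L (nat_lit 0xe16)) (N (nat_lit 0x1929672955d) (L (nat_lit 0xe0f)) (L (nat_lit 0xe11)))))) (N (nat_lit 0x19d28ad9859) (N (nat_lit 0x19d22baa019) (N (nat_lit 0x19d1d423519) (L (nat_lit 0x312)) (L (nat_lit 0xf0e))) (N (nat_lit 0x19d283a69d9) (L (nat_lit 0x91d)) (L (nat_lit 0x1815)))) (N (nat_lit 0x19d3ebfc059) (N (nat_lit 0x19d2e01e959) (L (nat_lit 0x120d)) (L (nat_lit 0x131a))) (N (nat_lit 0x19d3ed97599) (L (nat_lit 0xb1b)) (N (nat_lit 0x19d44cd0099) (L (nat_lit 0x1c12)) (L (nat_lit 0x1a12))))))))) (N (nat_lit 0x20dda3054ad) (N (nat_lit 0x19e24fb61b1) (N (nat_lit 0x19d9f105b85) (N (nat_lit 0x19d6d262085) (N (nat_lit 0x19d61ba8759) (N (nat_lit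 0x19d51133845) (L (nat_lit 0x322)) (L (nat_lit 0x954))) (N (nat_lit 0x19d624cb019) (L (nat_lit 0x1f13)) (L (nat_lit 0x1512)))) (N (nat_lit 0x19d7bb14db1) (N (nat_lit 0x19d77392385) (L (nat_lit 0xb4e)) (L (nat_lit 0xf16))) (N (nat_lit 0x19d88359c45) (L (nat_lit 0x344)) (L (nat_lit 0x1333))))) (N (nat_lit 0x19dc1808c85) (N (nat_lit 0x19da540a845) (N (nat_lit 0x19da49ded45) (L (nat_lit 0x92c)) (L (nat_lit 0x182b))) (N (nat_lit 0x19dbcc88b85) (L (nat_lit 0x1216)) (L (nat_lit 0x1525)))) (N (nat_lit 0x19df3a33605) (N (nat_lit 0x19dcf950db1) (L (nat_lit 0x1a2a)) (L (nat_lit 0x963))) (N (nat_lit 0x19e04c2eac5) (L (nat_lit 0x1324)) (N (nat_lit 0x19e23a76db1) (L (nat_lit 0x1c1e)) (L (nat_lit 0x1839))))))) (N (nat_lit 0x1d2c9c97f19) (N (nat_lit 0x19e661c5731) (N (nat_lit 0x19e3b7882c5) (N (nat_lit 0x19e352a6a05) (L (nat_lit 0x121e)) (L (nat_lit 0xb25))) (N (nat_lit 0x19e58dc0a05) (L (nat_lit 0x1a1e)) (L (nat_lit 0x1f24)))) (N (nat_lit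 0x19ec0610e05) (N (nat_lit 0x19ebc013731) (L (nat_lit 0xb58)) (L (nat_lit 0x1a36))) (N (nat_lit 0x19f558e38b1) (L (nat_lit 0x1515)) (N (nat_lit 0x1d2c40d0959) (L (nat_lit 0x1f2c)) (L (nat_lit 0x70f)))))) (N (nat_lit 0x1d34c45a185) (N (nat_lit 0x1d2f49e9085) (N (nat_lit 0x1d2e7306b59) (L (nat_lit 0x1014)) (L (nat_lit 0x1414))) (N (nat_lit 0x1d3309faa19) (L (nat_lit 0x721)) (L (nat_lit 0x1b12)))) (N (nat_lit 0x1d4e24a3c05) (N (nat_lit 0x1d3e9caac05) (L (nat_lit 0x1020)) (L (nat_lit 0x141c))) (N (nat_lit 0x20dda2f15d9) (L (nat_lit 0x1b1a)) (N (nat_lit 0x20dda2f15ed) (L (nat_lit 0xe09)) (L (nat_lit 1)))))))) (N (nat_lit 0x24ec7215bad) (N (nat_lit 0x20ddaafa02d) (N (nat_lit 0x20dda52072d) (N (nat_lit 0x20dda3e71ed) (N (nat_lit 0x20dda31936d) (L (nat_lit 0x102)) (L (nat_lit 0x403))) (N (nat_lit 0x20dda3fb0ad) (L (nat_lit 0x204)) (L (nat_lit 0x808)))) (N (nat_lit 0x20dda8889ad) (N (nat_lit 0x20dda6bbc6d) (L (nat_lit 0x505)) (L (nat_lit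 0xa09))) (N (nat_lit 0x20dda95eaed) (L (nat_lit 0x305)) (N (nat_lit 0x20ddaa326ed) (L (nat_lit 0x603)) (L (nat_lit 0x90b)))))) (N (nat_lit 0x24ec6c7e7ed) (N (nat_lit 0x20ddb7fb7ed) (N (nat_lit 0x20ddb0152ad) (L (nat_lit 0xd03)) (L (nat_lit 0xb0a))) (N (nat_lit 0x20ddbf1d8ed) (L (nat_lit 0x706)) (L (nat_lit 0xc06)))) (N (nat_lit 0x24ec6ca656d) (N (nat_lit 0x24ec6c926ad) (L (nat_lit 0x101)) (L (nat_lit 0x401))) (N (nat_lit 0x24ec6d743ed) (L (nat_lit 0x1601)) (N (nat_lit 0x24ec6ead92d) (L (nat_lit 0x802)) (L (nat_lit 0x1702))))))) (N (nat_lit 0x24eda28a42d) (N (nat_lit 0x24ecd1e01ad) (N (nat_lit 0x24ecd0ea5ad) (N (nat_lit 0x24ec72ebced) (L (nat_lit 0xf02)) (L (nat_lit 0x1d01))) (N (nat_lit 0x24ecd0fe46d) (L (nat_lit 0x202)) (L (nat_lit 0x804)))) (N (nat_lit 0x24ed3d4a0ad) (N (nat_lit 0x24ed3d361ed) (L (nat_lit 0x1103)) (L (nat_lit 0x302))) (N (nat_lit 0x24eda0eeeed) (L (nat_lit 0xf04)) (N (nat_lit 0x24eda102dad) (L (nat_lit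 0x502)) (L (nat_lit 0x1704)))))) (N (nat_lit 0x24ee0dab32d) (N (nat_lit 0x24eda8363ed) (N (nat_lit 0x24eda42596d) (L (nat_lit 0xa04)) (L (nat_lit 0x1905))) (N (nat_lit 0x24edb8738ad) (L (nat_lit 0x1305)) (L (nat_lit 0x702)))) (N (nat_lit 0x24ee4fb45ed) (N (nat_lit 0x24ee0fe086d) (L (nat_lit 0x905)) (L (nat_lit 0x1308))) (N (nat_lit 0x24ee89721ed) (L (nat_lit 0xe02)) (N (nat_lit 0x24eede8246d) (L (nat_lit 0x1005)) (L (nat_lit 0x1809))))))))))))) St.N St.L
noncomputable def tHU_1 : St := (fun (N : ℕ → St → St → St) (L : ℕ → St) => (N (nat_lit 0x4b0f12e35dd) (N (nat_lit 0x433d4bd6719) (N (nat_lit 0x33911e7b0ed) (N (nat_lit 0x296330f36ed) (N (nat_lit 0x29603145eed) (N (nat_lit 0x24f02e8f6ad) (N (nat_lit 0x24eeed02fed) (N (nat_lit 0x24eeeaf3aad) (N (nat_lit 0x24eee3f482d) (L (nat_lit 0xb06)) (L (nat_lit 0x1c07))) (N (nat_lit 0x24eeeaf72ad) (L (nat_lit 0x1505)) (L (nat_lit 0x903)))) (N (nat_lit 0x24ef583ceed) (N (nat_lit 0x24eef347bad)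 (L (nat_lit 0x1804)) (L (nat_lit 0x1e0a))) (N (nat_lit 0x24ef604d9ad) (L (nat_lit 0x1202)) (L (nat_lit 0x1406))))) (N (nat_lit 0x295f5f1cb6d) (N (nat_lit 0x24f0b614ced) (N (nat_lit 0x24f0435abed) (L (nat_lit 0x1a04)) (L (nat_lit 0x1b07))) (N (nat_lit 0x24f1844b8ed) (L (nat_lit 0x1003)) (L (nat_lit 0x1f08)))) (N (nat_lit 0x295f601276d) (N (nat_lit 0x295f5f30a2d) (L (nat_lit 0x201)) (L (nat_lit 0x801))) (N (nat_lit 0x295fc80052d) (L (nat_lit 0x1101)) (N (nat_lit 0x295fc8143ed) (L (nat_lit 0x501)) (L (nat_lit 0x1701))))))) (N (nat_lit 0x2961e40f42d) (N (nat_lit 0x2960a3403ad) (N (nat_lit 0x2960a1a4e6d) (N (nat_lit 0x296038dcd6d) (L (nat_lit 0xa03)) (L (nat_lit 0x902))) (N (nat_lit 0x2960a2bc72d) (L (nat_lit 0xa01)) (L (nat_lit 0x1304)))) (N (nat_lit 0x29610aea82d) (N (nat_lit 0x2960b8c402d) (L (nat_lit 0x1901)) (L (nat_lit 0x1002))) (N (nat_lit 0x296112f1ead) (L (nat_lit 0x1903)) (N (nat_lit 0x2961e3fb56d) (L (nat_lit 0x1802))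 (L (nat_lit 0x601)))))) (N (nat_lit 0x2961facd22d) (N (nat_lit 0x2961e731fed) (N (nat_lit 0x2961e596aad) (L (nat_lit 0x1d02)) (L (nat_lit 0xd01))) (N (nat_lit 0x2961f13fe6d) (L (nat_lit 0x2201)) (L (nat_lit 0x1e01)))) (N (nat_lit 0x29625817aed) (N (nat_lit 0x2962567c5ad) (L (nat_lit 0x1302)) (L (nat_lit 0xb04))) (N (nat_lit 0x2962cae15ed) (L (nat_lit 0x1c04)) (N (nat_lit 0x2962d89106d) (L (nat_lit 0x1503)) (L (nat_lit 0x1404)))))))) (N (nat_lit 0x2e3e69337ed) (N (nat_lit 0x296508aff2d) (N (nat_lit 0x296491aa52d) (N (nat_lit 0x29648161c6d) (N (nat_lit 0x29633fc966d) (L (nat_lit 0x1e06)) (L (nat_lit 0x1c02))) (N (nat_lit 0x2964820b1ad) (L (nat_lit 0xc03)) (L (nat_lit 0x2105)))) (N (nat_lit 0x2964941826d) (N (nat_lit 0x296491b392d) (L (nat_lit 0xb02)) (L (nat_lit 0x2103))) (N (nat_lit 0x296504b4d6d) (L (nat_lit 0x1e03)) (L (nat_lit 0x1a02))))) (N (nat_lit 0x296841b2b6d) (N (nat_lit 0x29673157c2d) (N (nat_lit 0x2965e50952d) (L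 (nat_lit 0x1b04)) (L (nat_lit 0x2302))) (N (nat_lit 0x2967539586d) (L (nat_lit 0x1f04)) (L (nat_lit 0x2003)))) (N (nat_lit 0x2e3d8de8c6d) (N (nat_lit 0x2969ec07a6d) (L (nat_lit 0x1402)) (L (nat_lit 0x2403))) (N (nat_lit 0x2e3d8dfcb2d) (L (nat_lit 0x301)) (N (nat_lit 0x2e3dfb5d22d) (L (nat_lit 0xf01)) (L (nat_lit 0x901))))))) (N (nat_lit 0x2e42fc37e2d) (N (nat_lit 0x2e4031343ad) (N (nat_lit 0x2e3eded9b6d) (N (nat_lit 0x2e3e70e366d) (L (nat_lit 0x1801)) (L (nat_lit 0x1201))) (N (nat_lit 0x2e402f98e6d) (L (nat_lit 0x1301)) (L (nat_lit 0xb01)))) (N (nat_lit 0x2e40a6c3aad) (N (nat_lit 0x2e409dd142d) (L (nat_lit 0x1c01)) (L (nat_lit 0x1e02))) (N (nat_lit 0x2e42dd67eed) (L (nat_lit 0x1a01)) (N (nat_lit 0x2e42ea02d6d) (L (nat_lit 0x2301)) (L (nat_lit 0x1f01)))))) (N (nat_lit 0x2e4870d2c2d) (N (nat_lit 0x2e45b1b9d2d) (N (nat_lit 0x2e445060e6d) (L (nat_lit 0x1501)) (L (nat_lit 0x2101))) (N (nat_lit 0x2e462aa216d) (L (nat_lit 0xc01))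 (L (nat_lit 0x1f02)))) (N (nat_lit 0x2e4e0d6496d) (N (nat_lit 0x2e4b7154f6d) (L (nat_lit 0x2401)) (L (nat_lit 0x1b02))) (N (nat_lit 0x338e5f576ed) (L (nat_lit 0x2501)) (N (nat_lit 0x338ed1758ad) (L (nat_lit 0x701)) (L (nat_lit 0x1001))))))))) (N (nat_lit 0x3f21bdfa3d9) (N (nat_lit 0x3f1f2507e2d) (N (nat_lit 0x3b4cd892099) (N (nat_lit 0x3b4cd6eaead) (N (nat_lit 0x33a1aed34ed) (N (nat_lit 0x3396dec5bad) (L (nat_lit 0x1401)) (L (nat_lit 0x1b01))) (N (nat_lit 0x39598f156ed) (L (nat_lit 0x2001)) (L (nat_lit 0xe01)))) (N (nat_lit 0x3b4cd7e0aad) (N (nat_lit 0x3b4cd6fed6d) (L (nat_lit 0x20f)) (L (nat_lit 0x810))) (N (nat_lit 0x3b4cd87e1d9) (L (nat_lit 0x110a)) (L (nat_lit 0x21a))))) (N (nat_lit 0x3b4ce9fb505) (N (nat_lit 0x3b4ce07d805) (N (nat_lit 0x3b4cdef67d9) (L (nat_lit 0x834)) (L (nat_lit 0x817))) (N (nat_lit 0x3b4ce0c0599) (L (nat_lit 0x22b)) (L (nat_lit 0x1111)))) (N (nat_lit 0x3b4cfdced31) (N (nat_lit 0x3b4cf2e1f59) (L (nat_lit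 0x83c)) (L (nat_lit 0x110c))) (N (nat_lit 0x3b4cfde9e05) (L (nat_lit 0x239)) (N (nat_lit 0x3f1f24f3f6d) (L (nat_lit 0x111a)) (L (nat_lit 0x50f))))))) (N (nat_lit 0x3f2016431ed) (N (nat_lit 0x3f1f7d71cad) (N (nat_lit 0x3f1f2cff899) (N (nat_lit 0x3f1f2687299) (L (nat_lit 0x170a)) (L (nat_lit 0x523))) (N (nat_lit 0x3f1f2e868c5) (L (nat_lit 0x1711)) (L (nat_lit 0x53c)))) (N (nat_lit 0x3f1fe51346d) (N (nat_lit 0x3f1f7f04fd9) (L (nat_lit 0xa12)) (L (nat_lit 0xa3c))) (N (nat_lit 0x3f20020f3d9) (L (nat_lit 0x1313)) (N (nat_lit 0x3f200223299) (L (nat_lit 0x516)) (L (nat_lit 0x171b)))))) (N (nat_lit 0x3f213414059) (N (nat_lit 0x3f208737b59) (N (nat_lit 0x3f20204e0d9) (L (nat_lit 0x190c)) (L (nat_lit 0x1923))) (N (nat_lit 0x3f212129519) (L (nat_lit 0xa16)) (L (nat_lit 0x1917)))) (N (nat_lit 0x3f216119cc5) (N (nat_lit 0x3f215538799) (L (nat_lit 0x1317)) (L (nat_lit 0xa22))) (N (nat_lit 0x3f21622a105) (L (nat_lit 0xa4e)) (N (nat_lit 0x3f216e2fe05)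 (L (nat_lit 0x52c)) (L (nat_lit 0x1725)))))))) (N (nat_lit 0x430c673e3ad) (N (nat_lit 0x430a0da0499) (N (nat_lit 0x3f239ab7131) (N (nat_lit 0x3f229d5b485) (N (nat_lit 0x3f21eb38f85) (L (nat_lit 0x133a)) (L (nat_lit 0xa41))) (N (nat_lit 0x3f22c433b19) (L (nat_lit 0x192f)) (L (nat_lit 0x190f)))) (N (nat_lit 0x4309308502d) (N (nat_lit 0x3f23ade00c5) (L (nat_lit 0x543)) (L (nat_lit 0x1357))) (N (nat_lit 0x43093218359) (L (nat_lit 0xa13)) (N (nat_lit 0x43098902d6d) (L (nat_lit 0xa3d)) (L (nat_lit 0x190d)))))) (N (nat_lit 0x430b1287719) (N (nat_lit 0x430a92c8c19) (N (nat_lit 0x430a661e1d9) (L (nat_lit 0xa24)) (L (nat_lit 0x1925))) (N (nat_lit 0x430b10f43ed) (L (nat_lit 0x1910)) (L (nat_lit 0xd19)))) (N (nat_lit 0x430b60c9859) (N (nat_lit 0x430b128f92d) (L (nat_lit 0xd0f)) (L (nat_lit 0x2211))) (N (nat_lit 0x430b6dbb1c5) (L (nat_lit 0x1926)) (N (nat_lit 0x430c1f1f059) (L (nat_lit 0xa50)) (L (nat_lit 0x2206))))))) (N (nat_lit 0x4310536f6d9)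 (N (nat_lit 0x430e4150719) (N (nat_lit 0x430da3e6a05) (N (nat_lit 0x430da2d65c5) (L (nat_lit 0x1c0d)) (L (nat_lit 0x1942))) (N (nat_lit 0x430e3055885) (L (nat_lit 0xa35)) (L (nat_lit 0x192b)))) (N (nat_lit 0x431000d4b05) (N (nat_lit 0x430eada9719) (L (nat_lit 0x1c30)) (L (nat_lit 0xd08))) (N (nat_lit 0x4310054bf59) (L (nat_lit 0x220a)) (N (nat_lit 0x43101287345) (L (nat_lit 0x1c20)) (L (nat_lit 0xd12)))))) (N (nat_lit 0x433bdcadead) (N (nat_lit 0x4311f7af531) (N (nat_lit 0x43110c4e819) (L (nat_lit 0x2207)) (L (nat_lit 0x1c10))) (N (nat_lit 0x4313543a345) (L (nat_lit 0xa61)) (L (nat_lit 0x1c3a)))) (N (nat_lit 0x433c39073ed) (N (nat_lit 0x433bde411d9) (L (nat_lit 0x917)) (L (nat_lit 0x94d))) (N (nat_lit 0x433cc29a399) (L (nat_lit 0x1810)) (N (nat_lit 0x433d201ecd9) (L (nat_lit 0x92f)) (L (nat_lit 0x183b)))))))))) (N (nat_lit 0x483712d65ad) (N (nat_lit 0x43fd8384205) (N (nat_lit 0x43f52bdf999) (N (nat_lit 0x4343075df05) (N (nat_lit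 0x433eee97759) (N (nat_lit 0x433e2a052d9) (N (nat_lit 0x433dd7557ad) (L (nat_lit 0x1818)) (L (nat_lit 0x1e10))) (N (nat_lit 0x433e35498c5) (L (nat_lit 0x1821)) (L (nat_lit 0x966)))) (N (nat_lit 0x43408a6c605) (N (nat_lit 0x434088a2cc5) (L (nat_lit 0x1e2d)) (L (nat_lit 0x1849))) (N (nat_lit 0x43411d9b085) (L (nat_lit 0x940)) (L (nat_lit 0x1840))))) (N (nat_lit 0x43f45fbed6d) (N (nat_lit 0x4345189a131) (N (nat_lit 0x43435fdfd59) (L (nat_lit 0x1e38)) (L (nat_lit 0x1e1e))) (N (nat_lit 0x43f45faaead) (L (nat_lit 0x978)) (L (nat_lit 0x623)))) (N (nat_lit 0x43f467b67d9) (N (nat_lit 0x43f4613e1d9) (L (nat_lit 0x1d19)) (L (nat_lit 0x625))) (N (nat_lit 0x43f4693d805) (L (nat_lit 0x1d08)) (N (nat_lit 0x43f52a4c66d) (L (nat_lit 0x61a)) (L (nat_lit 0xb15))))))) (N (nat_lit 0x43f8df56305) (N (nat_lit 0x43f65b263ad) (N (nat_lit 0x43f65835759) (N (nat_lit 0x43f616874ad) (L (nat_lit 0xb47)) (L (nat_lit 0x140f))) (N (nat_lit 0x43f65849619)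 (L (nat_lit 0x60b)) (L (nat_lit 0x1d0c)))) (N (nat_lit 0x43f781b2c59) (N (nat_lit 0x43f66707699) (L (nat_lit 0x1e12)) (L (nat_lit 0x1e44))) (N (nat_lit 0x43f8b3e5219) (L (nat_lit 0xb19)) (N (nat_lit 0x43f8d21a5d9) (L (nat_lit 0x1e1b)) (L (nat_lit 0xb32)))))) (N (nat_lit 0x43f9bfadc99) (N (nat_lit 0x43f9114cb85) (N (nat_lit 0x43f8f57cad9) (L (nat_lit 0xb65)) (L (nat_lit 0x1412))) (N (nat_lit 0x43f920b2885) (L (nat_lit 0x613)) (L (nat_lit 0x1d10)))) (N (nat_lit 0x43fb9183885) (N (nat_lit 0x43fa3f91785) (L (nat_lit 0x1426)) (L (nat_lit 0xb4c))) (N (nat_lit 0x43fb9c3e559) (L (nat_lit 0x1e49)) (N (nat_lit 0x43fd65f66b1) (L (nat_lit 0x1e16)) (L (nat_lit 0x61d)))))))) (N (nat_lit 0x4742d9ee1c5) (N (nat_lit 0x44576b12631) (N (nat_lit 0x44520338d05) (N (nat_lit 0x444f45d1999) (N (nat_lit 0x444f45bdad9) (L (nat_lit 0x1439)) (L (nat_lit 0x214))) (N (nat_lit 0x444f46b36d9) (L (nat_lit 0x821)) (L (nat_lit 0x1112)))) (N (nat_lit 0x44547b66a05)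 (N (nat_lit 0x4452034cbc5) (L (nat_lit 0x222)) (L (nat_lit 0x846))) (N (nat_lit 0x44547e0cfc5) (L (nat_lit 0x825)) (N (nat_lit 0x4454efa6e31) (L (nat_lit 0x1122)) (L (nat_lit 0x231)))))) (N (nat_lit 0x473e4b26f6d) (N (nat_lit 0x44582ecfa5d) (N (nat_lit 0x4457d178885) (L (nat_lit 0x84a)) (L (nat_lit 0x1116))) (N (nat_lit 0x4459f3a3a31) (L (nat_lit 0x23f)) (L (nat_lit 0x1124)))) (N (nat_lit 0x473f3113459) (N (nat_lit 0x473f28423d9) (L (nat_lit 0x1314)) (L (nat_lit 0x132c))) (N (nat_lit 0x474037b3b2d) (L (nat_lit 0x133b)) (N (nat_lit 0x47411ecb419) (L (nat_lit 0x1c49)) (L (nat_lit 0x1c31))))))) (N (nat_lit 0x474c8373659) (N (nat_lit 0x47442b6d16d) (N (nat_lit 0x4743dd722d9) (N (nat_lit 0x4742f8e56c5) (L (nat_lit 0x134c)) (L (nat_lit 0x1358))) (N (nat_lit 0x4743f83e259) (L (nat_lit 0x1c23)) (L (nat_lit 0x1c16)))) (N (nat_lit 0x4747b338345) (N (nat_lit 0x4747b013445) (L (nat_lit 0x210a)) (L (nat_lit 0x1c3d))) (N (nat_lit 0x4747d5d6999)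 (L (nat_lit 0x1c36)) (N (nat_lit 0x474bdb02531) (L (nat_lit 0x212f)) (L (nat_lit 0x1367)))))) (N (nat_lit 0x47ad18c08c5) (N (nat_lit 0x47a832ca86d) (N (nat_lit 0x474e84799c5) (L (nat_lit 0x210e)) (L (nat_lit 0x2127))) (N (nat_lit 0x47a921c01d9) (L (nat_lit 0x100f)) (L (nat_lit 0x1022)))) (N (nat_lit 0x483644405ed) (N (nat_lit 0x47b6b09e531) (L (nat_lit 0x1030)) (L (nat_lit 0x103c))) (N (nat_lit 0x483645d3919) (L (nat_lit 0xb79)) (N (nat_lit 0x4836a0fbb2d) (L (nat_lit 0xb48)) (L (nat_lit 0x1e61))))))))) (N (nat_lit 0x485fafa2605) (N (nat_lit 0x483e065d705) (N (nat_lit 0x48394a6116d) (N (nat_lit 0x483845d4319) (N (nat_lit 0x4837b574259) (N (nat_lit 0x48372b57ed9) (L (nat_lit 0x1a0c)) (L (nat_lit 0xb33))) (N (nat_lit 0x4837fbc4299) (L (nat_lit 0x1e17)) (L (nat_lit 0x1a21)))) (N (nat_lit 0x48389e07405) (N (nat_lit 0x483891f9a19) (L (nat_lit 0xb2a)) (L (nat_lit 0x1e45))) (N (nat_lit 0x4838a438c59) (L (nat_lit 0xb66)) (L (nat_lit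 0x1e31))))) (N (nat_lit 0x483b117ff45) (N (nat_lit 0x483a66db919) (N (nat_lit 0x4839737e419) (L (nat_lit 0x2308)) (L (nat_lit 0x1a0f))) (N (nat_lit 0x483ad3db919) (L (nat_lit 0x230e)) (L (nat_lit 0x1a22)))) (N (nat_lit 0x483d35a9f05) (N (nat_lit 0x483bb0b0059) (L (nat_lit 0xb5d)) (L (nat_lit 0x230a))) (N (nat_lit 0x483d6919345) (L (nat_lit 0x1a3e)) (N (nat_lit 0x483d6caec85) (L (nat_lit 0x1e5a)) (L (nat_lit 0xb3e))))))) (N (nat_lit 0x4858d816e19) (N (nat_lit 0x484416f92b1) (N (nat_lit 0x484136a9f05) (N (nat_lit 0x483ea6af485) (L (nat_lit 0x1e36)) (L (nat_lit 0x1a27))) (N (nat_lit 0x48416612f99) (L (nat_lit 0x2314)) (L (nat_lit 0x2310)))) (N (nat_lit 0x4857e6dba59) (N (nat_lit 0x4857e6c7b99) (L (nat_lit 0xb71)) (L (nat_lit 0x517))) (N (nat_lit 0x48583f458d9) (L (nat_lit 0x171c)) (N (nat_lit 0x4858a6e7099) (L (nat_lit 0xa23)) (L (nat_lit 0x132b)))))) (N (nat_lit 0x485d90b0ef1) (N (nat_lit 0x485afcc0b05) (N (nat_lit 0x485aa442dc5)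 (L (nat_lit 0x1924)) (L (nat_lit 0x52d))) (N (nat_lit 0x485d1c70ac5) (L (nat_lit 0xa4f)) (L (nat_lit 0x1726)))) (N (nat_lit 0x485f45861c5) (N (nat_lit 0x485e109bb05) (L (nat_lit 0x544)) (L (nat_lit 0x1941))) (N (nat_lit 0x485f4696605) (L (nat_lit 0xa34)) (N (nat_lit 0x485f46aa4c5) (L (nat_lit 0x520)) (L (nat_lit 0x1731)))))))) (N (nat_lit 0x48d39e58dc5) (N (nat_lit 0x486819adbb1) (N (nat_lit 0x4863f6a7c45) (N (nat_lit 0x48630de5485) (N (nat_lit 0x4862368c5f1) (L (nat_lit 0x134b)) (L (nat_lit 0xa60))) (N (nat_lit 0x4863a8b3645) (L (nat_lit 0xa29)) (L (nat_lit 0x193c)))) (N (nat_lit 0x4866cc33a31) (N (nat_lit 0x48644e40231) (L (nat_lit 0x192a)) (L (nat_lit 0x538))) (N (nat_lit 0x4866fadbcf1) (L (nat_lit 0x1734)) (N (nat_lit 0x4867cd59085) (L (nat_lit 0x1366)) (L (nat_lit 0x1330)))))) (N (nat_lit 0x48d05c1cd99) (N (nat_lit 0x486b4072bb1) (N (nat_lit 0x486a6bc4d5d) (L (nat_lit 0xa55)) (L (nat_lit 0x54c))) (N (nat_lit 0x48d05c08ed9)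 (L (nat_lit 0x1944)) (L (nat_lit 0x512)))) (N (nat_lit 0x48d12e028d9) (N (nat_lit 0x48d0bd57c99) (L (nat_lit 0x170d)) (L (nat_lit 0xa1f))) (N (nat_lit 0x48d1690c5d9) (L (nat_lit 0x1326)) (N (nat_lit 0x48d33c2d805) (L (nat_lit 0x1918)) (L (nat_lit 0x527))))))) (N (nat_lit 0x4b0f0ba24dd) (N (nat_lit 0x48d841b3105) (N (nat_lit 0x48d64b7d431) (N (nat_lit 0x48d5d543505) (L (nat_lit 0xa4a)) (L (nat_lit 0x1716))) (N (nat_lit 0x48d6e5ff1c5) (L (nat_lit 0x540)) (L (nat_lit 0x193b)))) (N (nat_lit 0x48db56f5831) (N (nat_lit 0x48d8b6331c5) (L (nat_lit 0xa2e)) (L (nat_lit 0x1345))) (N (nat_lit 0x48dd49e0b85) (L (nat_lit 0xa5a)) (N (nat_lit 0x48e0825e031) (L (nat_lit 0x191e)) (L (nat_lit 0x1361)))))) (N (nat_lit 0x4b0f0cabf9d) (N (nat_lit 0x4b0f0bca25d) (N (nat_lit 0x4b0f0bb639d) (L (nat_lit 7)) (L (nat_lit 0x10f))) (N (nat_lit 0x4b0f0c980dd) (L (nat_lit 0x411)) (L (nat_lit 0x21c)))) (N (nat_lit 0x4b0f0f6cb5d) (N (nat_lit 0x4b0f0dd161d)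 (L (nat_lit 0x837)) (L (nat_lit 0x524))) (N (nat_lit 0x4b0f113989d) (L (nat_lit 0xa3f)) (N (nat_lit 0x4b0f120f9dd) (L (nat_lit 0x31f)) (L (nat_lit 0x610))))))))))) (N (nat_lit 0x527a87e7dd9) (N (nat_lit 0x4d9c49e2985) (N (nat_lit 0x4cd0242fb45) (N (nat_lit 0x4cae66963d9) (N (nat_lit 0x4c93f25ced9) (N (nat_lit 0x4b0f27ce7dd) (N (nat_lit 0x4b0f18c619d) (N (nat_lit 0x4b0f13aaf1d) (L (nat_lit 0x950)) (L (nat_lit 0xd10))) (N (nat_lit 0x4b0f20ac6dd) (L (nat_lit 0xb4a)) (L (nat_lit 0x71f)))) (N (nat_lit 0x4c92ced7619) (N (nat_lit 0x4c91e7bfd2d) (L (nat_lit 0xc1f)) (L (nat_lit 0x150d))) (N (nat_lit 0x4c93e12e0ed) (L (nat_lit 0x151e)) (L (nat_lit 0x210b))))) (N (nat_lit 0x4c992bcc045) (N (nat_lit 0x4c969443005) (N (nat_lit 0x4c95ef1da99) (L (nat_lit 0x1518)) (L (nat_lit 0x211f))) (N (nat_lit 0x4c97ac6b099) (L (nat_lit 0x1531)) (L (nat_lit 0x212e)))) (N (nat_lit 0x4ca4896deb1) (N (nat_lit 0x4c9e1b77dc5) (L (nat_lit 0x1529)) (L (nat_lit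 0x2125))) (N (nat_lit 0x4cac6beead9) (L (nat_lit 0x1535)) (N (nat_lit 0x4cacc848019) (L (nat_lit 0x925)) (L (nat_lit 0x1822))))))) (N (nat_lit 0x4cbdd2a08f1) (N (nat_lit 0x4cb444a7705) (N (nat_lit 0x4cb3e722dc5) (N (nat_lit 0x4caf2969d05) (L (nat_lit 0x1e42)) (L (nat_lit 0x95c))) (N (nat_lit 0x4cb3e7bfd05) (L (nat_lit 0x93a)) (L (nat_lit 0x1833)))) (N (nat_lit 0x4cb90bff1f1) (N (nat_lit 0x4cb7b285845) (L (nat_lit 0x184a)) (L (nat_lit 0x182e))) (N (nat_lit 0x4cb95623085) (L (nat_lit 0x972)) (N (nat_lit 0x4cbc609d685) (L (nat_lit 0x1e56)) (L (nat_lit 0x1e4c)))))) (N (nat_lit 0x4cc90ca4131) (N (nat_lit 0x4cc3ddcd7b1) (N (nat_lit 0x4cc00840231) (L (nat_lit 0x1855)) (L (nat_lit 0x949))) (N (nat_lit 0x4cc8c3517ad) (L (nat_lit 0x1850)) (L (nat_lit 0x1410)))) (N (nat_lit 0x4cc9b372519) (N (nat_lit 0x4cc953c1c5d) (L (nat_lit 0x1e5c)) (L (nat_lit 0x982))) (N (nat_lit 0x4ccace26d59) (L (nat_lit 0x144b)) (N (nat_lit 0x4ccdab9e005) (L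 (nat_lit 0x1420)) (L (nat_lit 0x143a)))))))) (N (nat_lit 0x4cfdc541f85) (N (nat_lit 0x4cf58a29c19) (N (nat_lit 0x4cf29001d59) (N (nat_lit 0x4cf22eb2f99) (N (nat_lit 0x4cdbde362b1) (L (nat_lit 0x1431)) (L (nat_lit 0x1443))) (N (nat_lit 0x4cf28730cd9) (L (nat_lit 0xa17)) (L (nat_lit 0x1911)))) (N (nat_lit 0x4cf42c71d19) (N (nat_lit 0x4cf42ad67d9) (L (nat_lit 0x191a)) (L (nat_lit 0xd09))) (N (nat_lit 0x4cf50ed78c5) (L (nat_lit 0x2208)) (L (nat_lit 0xa42))))) (N (nat_lit 0x4cf9d213105) (N (nat_lit 0x4cf70bd7905) (N (nat_lit 0x4cf59eceb99) (L (nat_lit 0x1c21)) (L (nat_lit 0x1c15))) (N (nat_lit 0x4cf9d102cc5) (L (nat_lit 0xd13)) (L (nat_lit 0x192c)))) (N (nat_lit 0x4cfa343e6c5) (N (nat_lit 0x4cfa145d1c5) (L (nat_lit 0xa2a)) (L (nat_lit 0x1932))) (N (nat_lit 0x4cfced23405) (L (nat_lit 0x193d)) (N (nat_lit 0x4cfd1385905) (L (nat_lit 0x1c35)) (L (nat_lit 0x1c3b))))))) (N (nat_lit 0x4d0da139db1) (N (nat_lit 0x4d02a111f45) (N (nat_lit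 0x4cff6f05845) (N (nat_lit 0x4cfefc9e831) (L (nat_lit 0x1915)) (L (nat_lit 0xa56))) (N (nat_lit 0x4d024f85785) (L (nat_lit 0x2210)) (L (nat_lit 0xd0c)))) (N (nat_lit 0x4d040a9ec31) (N (nat_lit 0x4d03b2e6445) (L (nat_lit 0x220b)) (L (nat_lit 0x1c2c))) (N (nat_lit 0x4d0780e49b1) (L (nat_lit 0x1947)) (N (nat_lit 0x4d092d90f85) (L (nat_lit 0xd16)) (L (nat_lit 0x1c1b)))))) (N (nat_lit 0x4d996ba2559) (N (nat_lit 0x4d975f45ed9) (N (nat_lit 0x4d975db2bad) (L (nat_lit 0x1c46)) (L (nat_lit 0xc31))) (N (nat_lit 0x4d98317136d) (L (nat_lit 0xc1e)) (L (nat_lit 0x1f43)))) (N (nat_lit 0x4d9a9fa9259) (N (nat_lit 0x4d9a4499519) (L (nat_lit 0xc33)) (L (nat_lit 0x1f1e))) (N (nat_lit 0x4d9b8b619ad) (L (nat_lit 0x1f12)) (N (nat_lit 0x4d9c0badad9) (L (nat_lit 0x2407)) (L (nat_lit 0x1f2f))))))))) (N (nat_lit 0x50347ba56f1) (N (nat_lit 0x4dfc6758199) (N (nat_lit 0x4da85ce8e19) (N (nat_lit 0x4da294d6b05) (N (nat_lit 0x4da106a7485) (N (nat_lit 0x4d9e0740119)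 (L (nat_lit 0xc29)) (L (nat_lit 0x240a))) (N (nat_lit 0x4da148b2705) (L (nat_lit 0x1f3d)) (L (nat_lit 0xc18)))) (N (nat_lit 0x4da68e2ab05) (N (nat_lit 0x4da681e5859) (L (nat_lit 0x1f23)) (L (nat_lit 0x2413))) (N (nat_lit 0x4da7f786459) (L (nat_lit 0x240d)) (L (nat_lit 0x91b))))) (N (nat_lit 0x4db04146985) (N (nat_lit 0x4daa497e831) (N (nat_lit 0x4daa2b02e59) (L (nat_lit 0x1813)) (L (nat_lit 0x1e19))) (N (nat_lit 0x4daafb35485) (L (nat_lit 0xc2c)) (L (nat_lit 0x952)))) (N (nat_lit 0x4dfa9e30e99) (N (nat_lit 0x4db9b0af805) (L (nat_lit 0x1827)) (L (nat_lit 0x1e28))) (N (nat_lit 0x4dfa9e44d59) (L (nat_lit 0x60c)) (N (nat_lit 0x4dfb71dbad9) (L (nat_lit 0x1d0d)) (L (nat_lit 0xb28))))))) (N (nat_lit 0x4e07e276af1) (N (nat_lit 0x4e001847cc5) (N (nat_lit 0x4dfd7f31fc5) (N (nat_lit 0x4dfcb598c19) (L (nat_lit 0x141e)) (L (nat_lit 0x1e2f))) (N (nat_lit 0x4dfe5437405) (L (nat_lit 0x626)) (L (nat_lit 0xb5b)))) (N (nat_lit 0x4e0235bc405)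 (N (nat_lit 0x4e008fdc3f1) (L (nat_lit 0x1d1a)) (L (nat_lit 0x61e))) (N (nat_lit 0x4e04c8f33c5) (L (nat_lit 0x1e58)) (N (nat_lit 0x4e05c379305) (L (nat_lit 0xb3c)) (L (nat_lit 0x142f)))))) (N (nat_lit 0x5029d2122c5) (N (nat_lit 0x4e0f6a6f9f1) (N (nat_lit 0x4e0b2c49a45) (L (nat_lit 0xb6f)) (L (nat_lit 0x1e34))) (N (nat_lit 0x5029d1fe405) (L (nat_lit 0x1441)) (L (nat_lit 0x217)))) (N (nat_lit 0x502f8d89131) (N (nat_lit 0x5029d2f4005) (L (nat_lit 0x82b)) (L (nat_lit 0x111b))) (N (nat_lit 0x502f8d9cff1) (L (nat_lit 0x227)) (N (nat_lit 0x503477a4931) (L (nat_lit 0x850)) (L (nat_lit 0x82f)))))))) (N (nat_lit 0x517d4f4e5b1) (N (nat_lit 0x51629d3af19) (N (nat_lit 0x503c8bd9889) (N (nat_lit 0x503aa30105d) (N (nat_lit 0x5035b56f95d) (L (nat_lit 0x1125)) (L (nat_lit 0x249))) (N (nat_lit 0x503b10152b1) (L (nat_lit 0x854)) (L (nat_lit 0x111f)))) (N (nat_lit 0x515209e4499) (N (nat_lit 0x503fa16935d) (L (nat_lit 0x242)) (L (nat_lit 0x1129)))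 (N (nat_lit 0x5159a134405) (L (nat_lit 0x101a)) (N (nat_lit 0x516094f9ed9) (L (nat_lit 0x102b)) (L (nat_lit 0x131d)))))) (N (nat_lit 0x516a5e08505) (N (nat_lit 0x5166ace0dd9) (N (nat_lit 0x51661a5e4f1) (L (nat_lit 0x1c17)) (L (nat_lit 0x1038))) (N (nat_lit 0x516853bf8c5) (L (nat_lit 0x2117)) (L (nat_lit 0x1340)))) (N (nat_lit 0x5174b8a6831) (N (nat_lit 0x5170dd87b45) (L (nat_lit 0x1c37)) (L (nat_lit 0x1c29))) (N (nat_lit 0x5174f48da85) (L (nat_lit 0x135d)) (N (nat_lit 0x517a2316f5d) (L (nat_lit 0x2123)) (L (nat_lit 0x1044))))))) (N (nat_lit 0x525313186d9) (N (nat_lit 0x51e9f734019) (N (nat_lit 0x51e3a130519) (N (nat_lit 0x518808ebf31) (L (nat_lit 0x1c43)) (L (nat_lit 0x212c))) (N (nat_lit 0x51e5aa27959) (L (nat_lit 0x1318)) (L (nat_lit 0x1c11)))) (N (nat_lit 0x51f46719005) (N (nat_lit 0x51eb89dad85) (L (nat_lit 0x210f)) (L (nat_lit 0x1331))) (N (nat_lit 0x520254f7805) (L (nat_lit 0x1c1c)) (N (nat_lit 0x525221cc56d) (L (nat_lit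 0x2112)) (L (nat_lit 0x1b3d)))))) (N (nat_lit 0x526a5c08431) (N (nat_lit 0x5259a2c6185) (N (nat_lit 0x525438fd799) (L (nat_lit 0x1b29)) (L (nat_lit 0x1b3e))) (N (nat_lit 0x525c45741c5) (L (nat_lit 0x1b32)) (L (nat_lit 0x1b21)))) (N (nat_lit 0x5277c295f19) (N (nat_lit 0x527765da9d9) (L (nat_lit 0x1b37)) (L (nat_lit 0xb1f))) (N (nat_lit 0x52783d79e19) (L (nat_lit 0x1e21)) (N (nat_lit 0x527a46dbb05) (L (nat_lit 0x1a16)) (L (nat_lit 0xb52)))))))))) (N (nat_lit 0x575af3b99f1) (N (nat_lit 0x56032e7cac9) (N (nat_lit 0x53042cb3845) (N (nat_lit 0x528bda0f085) (N (nat_lit 0x5281adc8b05) (N (nat_lit 0x527f26a7fc5) (N (nat_lit 0x527f267bb05) (L (nat_lit 0x2311)) (L (nat_lit 0x1e4f))) (N (nat_lit 0x52800178005) (L (nat_lit 0xb38)) (L (nat_lit 0x1a39)))) (N (nat_lit 0x52846fc06f1) (N (nat_lit 0x52831ecaa45) (L (nat_lit 0x1a2e)) (L (nat_lit 0x1e26))) (N (nat_lit 0x5285ee55985) (L (nat_lit 0xb6b)) (L (nat_lit 0x2322))))) (N (nat_lit 0x52fa03869d9)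 (N (nat_lit 0x52dbf0b2759) (N (nat_lit 0x528be3e4df1) (L (nat_lit 0x231b)) (L (nat_lit 0x1a43))) (N (nat_lit 0x52f99dc2019) (L (nat_lit 0x1012)) (L (nat_lit 0xb1a)))) (N (nat_lit 0x52fca24d845) (N (nat_lit 0x52fa7599859) (L (nat_lit 0x1e1c)) (L (nat_lit 0x1a10))) (N (nat_lit 0x52fcdcf0099) (L (nat_lit 0xb4d)) (N (nat_lit 0x5301e8c0d45) (L (nat_lit 0x2323)) (L (nat_lit 0x1e4a))))))) (N (nat_lit 0x550f39c6f31) (N (nat_lit 0x5504b2824c5) (N (nat_lit 0x55045056f05) (N (nat_lit 0x530ef8792c5) (L (nat_lit 0x1a28)) (L (nat_lit 0x2316))) (N (nat_lit 0x5504506adc5) (L (nat_lit 0x51c)) (L (nat_lit 0x1721)))) (N (nat_lit 0x55055e36e05) (N (nat_lit 0x55052487905) (L (nat_lit 0xa2f)) (L (nat_lit 0x1335))) (N (nat_lit 0x550a2ec3731) (L (nat_lit 0x1930)) (N (nat_lit 0x550a92494f1) (L (nat_lit 0x533)) (L (nat_lit 0xa5b)))))) (N (nat_lit 0x551221acbf1) (N (nat_lit 0x551079c3e5d) (N (nat_lit 0x55104d37bf1) (L (nat_lit 0x172c)) (L (nat_lit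 0x1945))) (N (nat_lit 0x5511a8ebb31) (L (nat_lit 0x548)) (L (nat_lit 0xa38)))) (N (nat_lit 0x5519f3780b1) (N (nat_lit 0x5517fb1315d) (L (nat_lit 0x1351)) (L (nat_lit 0xa64))) (N (nat_lit 0x551fa32d85d) (L (nat_lit 0x1936)) (N (nat_lit 0x56032e68c09) (L (nat_lit 0x136a)) (L (nat_lit 8)))))))) (N (nat_lit 0x5606bd87a89) (N (nat_lit 0x560556d3189) (N (nat_lit 0x560333fffc9) (N (nat_lit 0x56032f5e809) (N (nat_lit 0x56032e90989) (L (nat_lit 0x114)) (L (nat_lit 0x41c))) (N (nat_lit 0x56033097d49) (L (nat_lit 0x22c)) (L (nat_lit 0x53e)))) (N (nat_lit 0x56042c12609) (N (nat_lit 0x560334d6109) (L (nat_lit 0x334)) (L (nat_lit 0x61b))) (N (nat_lit 0x56042c264c9) (L (nat_lit 0x112)) (N (nat_lit 0x56042d08209) (L (nat_lit 0x415)) (L (nat_lit 0x840)))))) (N (nat_lit 0x56058556d09) (N (nat_lit 0x560582f23c9) (N (nat_lit 0x560556e7049) (L (nat_lit 0x220)) (L (nat_lit 0x83b))) (N (nat_lit 0x56058306289) (L (nat_lit 0x225)) (L (nat_lit 0x849))))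 (N (nat_lit 0x56058c3f0c9) (N (nat_lit 0x560586f2249) (L (nat_lit 0x530)) (L (nat_lit 0xa53))) (N (nat_lit 0x5606ae42b49) (L (nat_lit 0x95f)) (N (nat_lit 0x5606b187489) (L (nat_lit 0x52a)) (L (nat_lit 0xa45))))))) (N (nat_lit 0x56087764d09) (N (nat_lit 0x56080614509) (N (nat_lit 0x5607a387149) (N (nat_lit 0x5607a0b2009) (L (nat_lit 0x323)) (L (nat_lit 0x327))) (N (nat_lit 0x5607aa95109) (L (nat_lit 0x96a)) (L (nat_lit 0xb68)))) (N (nat_lit 0x56080da50c9) (N (nat_lit 0x56080c09b89) (L (nat_lit 0xa4d)) (L (nat_lit 0x614))) (N (nat_lit 0x560815a0049) (L (nat_lit 0xd14)) (N (nat_lit 0x560817f8b49) (L (nat_lit 0x955)) (L (nat_lit 0xb54)))))) (N (nat_lit 0x560a8c636c9) (N (nat_lit 0x5609763fc89) (N (nat_lit 0x5608ccab389) (L (nat_lit 0x722)) (L (nat_lit 0x95a))) (N (nat_lit 0x560a2c16bc9) (L (nat_lit 0xb4f)) (L (nat_lit 0xb5f)))) (N (nat_lit 0x560c57c8289) (N (nat_lit 0x560ae804b49) (L (nat_lit 0x725)) (L (nat_lit 0xc23))) (N (nat_lit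 0x57465756f99) (L (nat_lit 0xc2a)) (N (nat_lit 0x574e3440205) (L (nat_lit 0x1417)) (L (nat_lit 0x142b))))))))) (N (nat_lit 0x5b266e46605) (N (nat_lit 0x59fb9922fc5) (N (nat_lit 0x5855f71af19) (N (nat_lit 0x57a29e196c5) (N (nat_lit 0x5793c304799) (N (nat_lit 0x5791ad2bb59) (L (nat_lit 0x143e)) (L (nat_lit 0x1510))) (N (nat_lit 0x5799b343845) (L (nat_lit 0x2110)) (L (nat_lit 0x1523)))) (N (nat_lit 0x584cc78d059) (N (nat_lit 0x584aa3c7dad) (L (nat_lit 0x211c)) (L (nat_lit 0x2014))) (N (nat_lit 0x585506bcb05) (L (nat_lit 0x2016)) (L (nat_lit 0x2017))))) (N (nat_lit 0x58b9ce0c285) (N (nat_lit 0x58b6c8a4259) (N (nat_lit 0x586884161b1) (L (nat_lit 0x1413)) (L (nat_lit 0x2011))) (N (nat_lit 0x58b7a5a4299) (L (nat_lit 0xc32)) (L (nat_lit 0x1f44)))) (N (nat_lit 0x58c176d1e85) (N (nat_lit 0x58bb2f98959) (L (nat_lit 0xc22)) (L (nat_lit 0x240b))) (N (nat_lit 0x58d028a8c05) (L (nat_lit 0x1f34)) (N (nat_lit 0x59fb36f7a05) (L (nat_lit 0x2418))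 (L (nat_lit 0xa1c))))))) (N (nat_lit 0x5a379ebeb85) (N (nat_lit 0x5a013845d31) (N (nat_lit 0x59fd5223c05) (N (nat_lit 0x59fd50886c5) (L (nat_lit 0x1920)) (L (nat_lit 0xd0d))) (N (nat_lit 0x59fecee4705) (L (nat_lit 0x220c)) (L (nat_lit 0x1c27)))) (N (nat_lit 0x5a08d356131) (N (nat_lit 0x5a03548b9f1) (L (nat_lit 0xa47)) (L (nat_lit 0xd17))) (N (nat_lit 0x5a0c12590f1) (L (nat_lit 0x1938)) (N (nat_lit 0x5a153f84eb1) (L (nat_lit 0x1c41)) (L (nat_lit 0x220e)))))) (N (nat_lit 0x5a455ba1eb1) (N (nat_lit 0x5a39d3f4585) (N (nat_lit 0x5a3804fdd45) (L (nat_lit 0x92a)) (L (nat_lit 0x1828))) (N (nat_lit 0x5a3da0edeb1) (L (nat_lit 0x1e47)) (L (nat_lit 0x961)))) (N (nat_lit 0x5b248c6e605) (N (nat_lit 0x5a52101e831) (L (nat_lit 0x1837)) (L (nat_lit 0x1e51))) (N (nat_lit 0x5b248c824c5) (L (nat_lit 0x60e)) (N (nat_lit 0x5b256bd76c5) (L (nat_lit 0x1d14)) (L (nat_lit 0xb2d)))))))) (N (nat_lit 0x5fc995b2585) (N (nat_lit 0x5b3b38a265d) (N (nat_lit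 0x5b2fbc5d131) (N (nat_lit 0x5b2a9071931) (N (nat_lit 0x5b26c277c05) (L (nat_lit 0x1422)) (L (nat_lit 0x1e3a))) (N (nat_lit 0x5b2b741b9f1) (L (nat_lit 0x617)) (L (nat_lit 0xb61)))) (N (nat_lit 0x5b31fcb40f1) (N (nat_lit 0x5b31023cf5d) (L (nat_lit 0x1d17)) (L (nat_lit 0x621))) (N (nat_lit 0x5b34b8d5131) (L (nat_lit 0x1e5e)) (N (nat_lit 0x5b35c7288f1) (L (nat_lit 0xb42)) (L (nat_lit 0x1434)))))) (N (nat_lit 0x5db963c2985) (N (nat_lit 0x5b45afe795d) (N (nat_lit 0x5b3eb5962b1) (L (nat_lit 0xb75)) (L (nat_lit 0x1e3f))) (N (nat_lit 0x5db13f87419) (L (nat_lit 0x1446)) (L (nat_lit 0x1b15)))) (N (nat_lit 0x5f4ba81f685) (N (nat_lit 0x5e3dbd99d59) (L (nat_lit 0x1b2d)) (L (nat_lit 0x1b11))) (N (nat_lit 0x5f4dce83f45) (L (nat_lit 0x1322)) (N (nat_lit 0x5f5239b3e85) (L (nat_lit 0x1c1d)) (L (nat_lit 0x211b))))))) (N (nat_lit 0x6235924e635) (N (nat_lit 0x6087990df85) (N (nat_lit 0x6084a103045) (N (nat_lit 0x60843a61e85) (L (nat_lit 0x101e))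 (L (nat_lit 0xb24))) (N (nat_lit 0x60851df7b45) (L (nat_lit 0x1e2b)) (L (nat_lit 0x1a1c)))) (N (nat_lit 0x60923e25cb1) (N (nat_lit 0x608a6227cb1) (L (nat_lit 0x2317)) (L (nat_lit 0xb57))) (N (nat_lit 0x6094cb300b1) (L (nat_lit 0x1e54)) (N (nat_lit 0x60a33315631) (L (nat_lit 0x1a34)) (L (nat_lit 0x231f)))))) (N (nat_lit 0x62369afa5f5) (N (nat_lit 0x62359344235) (N (nat_lit 0x623592624f5) (L (nat_lit 9)) (L (nat_lit 0x127))) (N (nat_lit 0x62369ae6735) (L (nat_lit 0x23b)) (L (nat_lit 0x118)))) (N (nat_lit 0x6237d1769b5) (N (nat_lit 0x6237a606835) (L (nat_lit 0x420)) (L (nat_lit 0x419))) (N (nat_lit 0x6238045acf5) (L (nat_lit 0x248)) (N (nat_lit 0x623806bf635) (L (nat_lit 0x234)) (L (nat_lit 0x552))))))))))))) St.N St.L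
noncomputable def tHU_2 : St := (fun (N : ℕ → St → St → St) (L : ℕ → St) => (N (nat_lit 0xa2988ce1e1d) (N (nat_lit 0x925425c20d9) (N (nat_lit 0x837acd09319) (N (nat_lit 0x67517865431) (N (nat_lit 0x623ef0cea35) (N (nat_lit 0x623a7d24a35) (N (nat_lit 0x623a3f4d135) (N (nat_lit 0x62393b7ab75) (N (nat_lit 0x62390f7adf5) (L (nat_lit 0x845)) (L (nat_lit 0x84f))) (N (nat_lit 0x623944db9b5) (L (nat_lit 0x551)) (L (nat_lit 0x336)))) (N (nat_lit 0x623a7b8b435) (N (nat_lit 0x623a7b894f5) (L (nat_lit 0x339)) (L (nat_lit 0x53a))) (N (nat_lit 0x623a7b9f2f5) (L (nat_lit 0x229)) (L (nat_lit 0x853))))) (N (nat_lit 0x623cb8c2535) (N (nat_lit 0x623bb6e9375) (N (nat_lit 0x623aabd63b5) (L (nat_lit 0xa63)) (L (nat_lit 0x61f))) (N (nat_lit 0x623bb8b72b5) (L (nat_lit 0xa59)) (L (nat_lit 0x536)))) (N (nat_lit 0x623d231d475) (N (nat_lit 0x623cfc63135) (L (nat_lit 0x976)) (L (nat_lit 0xa49))) (N (nat_lit 0x623d3453eb5) (L (nat_lit 0xa5f)) (N (nat_lit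 0x623eecce4f5) (L (nat_lit 0x964)) (L (nat_lit 0x32c))))))) (N (nat_lit 0x6245ec88135) (N (nat_lit 0x62402aa2f75) (N (nat_lit 0x623fd5895f5) (N (nat_lit 0x623f676b2b5) (L (nat_lit 0x97b)) (L (nat_lit 0xb6d))) (N (nat_lit 0x623fdb23535) (L (nat_lit 0xd18)) (L (nat_lit 0x618)))) (N (nat_lit 0x62419dce3b5) (N (nat_lit 0x6241655fd35) (L (nat_lit 0x970)) (L (nat_lit 0xb59))) (N (nat_lit 0x62444eebdf5) (L (nat_lit 0xb73)) (N (nat_lit 0x6245045f435) (L (nat_lit 0xb63)) (L (nat_lit 0x729)))))) (N (nat_lit 0x6604c651bc5) (N (nat_lit 0x6499bbcce19) (N (nat_lit 0x6248d1ab535) (L (nat_lit 0xc26)) (L (nat_lit 0xc2d))) (N (nat_lit 0x66029255705) (L (nat_lit 0x2015)) (L (nat_lit 0x1514)))) (N (nat_lit 0x674b2a27b05) (N (nat_lit 0x6643acdd485) (L (nat_lit 0x2113)) (L (nat_lit 0x141b))) (N (nat_lit 0x674c131e3c5) (L (nat_lit 0xc12)) (N (nat_lit 0x674fcfcbb05) (L (nat_lit 0x1f1a)) (L (nat_lit 0x240f)))))))) (N (nat_lit 0x6fcd0059f21) (N (nat_lit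 0x6fc2e86b8e1) (N (nat_lit 0x6fc09214f61) (N (nat_lit 0x676f16795b1) (N (nat_lit 0x675c2346431) (L (nat_lit 0xc25)) (L (nat_lit 0x1f38))) (N (nat_lit 0x6d3a7632d05) (L (nat_lit 0x241c)) (L (nat_lit 0x1b19)))) (N (nat_lit 0x6fc1a5d3b61) (N (nat_lit 0x6fc09228e21) (L (nat_lit 0x11)) (L (nat_lit 0x11f))) (N (nat_lit 0x6fc2bc1a761) (L (nat_lit 0x128)) (L (nat_lit 0x423))))) (N (nat_lit 0x6fc6d092f61) (N (nat_lit 0x6fc5b7c2421) (N (nat_lit 0x6fc3225a921) (L (nat_lit 0x23e)) (L (nat_lit 0x241))) (N (nat_lit 0x6fc5b7c4361) (L (nat_lit 0x54e)) (L (nat_lit 0x237)))) (N (nat_lit 0x6fca64f8421) (N (nat_lit 0x6fc700f7ce1) (L (nat_lit 0x858)) (L (nat_lit 0x54b))) (N (nat_lit 0x6fcb1c6e0e1) (L (nat_lit 0x346)) (N (nat_lit 0x6fcb5590a61) (L (nat_lit 0xa67)) (L (nat_lit 0x622))))))) (N (nat_lit 0x7ec556a658d) (N (nat_lit 0x6fd8eb00721) (N (nat_lit 0x6fd0a4ad4e1) (N (nat_lit 0x6fcf54c4f61) (L (nat_lit 0x985)) (L (nat_lit 0x330))) (N (nat_lit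 0x6fd5012ee61) (L (nat_lit 0x980)) (L (nat_lit 0xb78)))) (N (nat_lit 0x74b50d1bb05) (N (nat_lit 0x6fdef9233e1) (L (nat_lit 0x72c)) (L (nat_lit 0xc30))) (N (nat_lit 0x7ebff31838d) (L (nat_lit 0x200b)) (N (nat_lit 0x7ec11235e8d) (L (nat_lit 0x12)) (L (nat_lit 0x122)))))) (N (nat_lit 0x837ac6afcd9) (N (nat_lit 0x7ee20d4178d) (N (nat_lit 0x7ecf6ed208d) (L (nat_lit 0x24b)) (L (nat_lit 0x33f))) (N (nat_lit 0x837ac69be19) (L (nat_lit 0x72f)) (L (nat_lit 2)))) (N (nat_lit 0x837ac791a19) (N (nat_lit 0x837ac6c3b99) (L (nat_lit 0x104)) (L (nat_lit 0x406))) (N (nat_lit 0x837ac8caf59) (L (nat_lit 0x208)) (N (nat_lit 0x837acc331d9) (L (nat_lit 0x50a)) (L (nat_lit 0x309))))))))) (N (nat_lit 0x9176c55b7d9) (N (nat_lit 0x8aad5cde219) (N (nat_lit 0x8aaabe62319) (N (nat_lit 0x857e2357dd9) (N (nat_lit 0x857e1b6036d) (N (nat_lit 0x857e1b4c4ad) (L (nat_lit 0x606)) (L (nat_lit 0x30e))) (N (nat_lit 0x857e1cdf7d9) (L (nat_lit 0xf0a)) (L (nat_lit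 0x31d)))) (N (nat_lit 0x8aaabd6c719) (N (nat_lit 0x857e24dee05) (L (nat_lit 0xf0f)) (L (nat_lit 0x332))) (N (nat_lit 0x8aaabd805d9) (L (nat_lit 0x103)) (L (nat_lit 0x404))))) (N (nat_lit 0x8aac0209619) (N (nat_lit 0x8aab3218b99) (N (nat_lit 0x8aab3204cd9) (L (nat_lit 0x80a)) (L (nat_lit 0x206))) (N (nat_lit 0x8aabb7bb119) (L (nat_lit 0x80c)) (L (nat_lit 0x306)))) (N (nat_lit 0x8aac55a0fd9) (N (nat_lit 0x8aac03a4b59) (L (nat_lit 0x507)) (L (nat_lit 0xa0d))) (N (nat_lit 0x8aac8830259) (L (nat_lit 0x708)) (N (nat_lit 0x8aad4c119d9) (L (nat_lit 0x910)) (L (nat_lit 0x90e))))))) (N (nat_lit 0x908b695262d) (N (nat_lit 0x8afa02c79d9) (N (nat_lit 0x8af8e51e899) (N (nat_lit 0x8af8e38b56d) (L (nat_lit 0xb10)) (L (nat_lit 0x916))) (N (nat_lit 0x8af951b12ad) (L (nat_lit 0x94c)) (L (nat_lit 0x1312)))) (N (nat_lit 0x8afb2977d99) (N (nat_lit 0x8afab970159) (L (nat_lit 0x924)) (L (nat_lit 0x131b))) (N (nat_lit 0x8afb62e2705) (L (nat_lit 0x132a))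 (N (nat_lit 0x8f50eecbeb9) (L (nat_lit 0x95b)) (L (nat_lit 0xc)))))) (N (nat_lit 0x90916fbfd19) (N (nat_lit 0x908d75119ed) (N (nat_lit 0x908c888ea99) (L (nat_lit 0x180f)) (L (nat_lit 0x1820))) (N (nat_lit 0x909060f6005) (L (nat_lit 0x1c0c)) (L (nat_lit 0x1832)))) (N (nat_lit 0x90caca2c999) (N (nat_lit 0x90c9a21f4ad) (L (nat_lit 0x1c13)) (L (nat_lit 0x1209))) (N (nat_lit 0x90ced41fc05) (L (nat_lit 0x120e)) (N (nat_lit 0x9176c3c84ad) (L (nat_lit 0x1217)) (L (nat_lit 0xb14)))))))) (N (nat_lit 0x9205f15a1d9) (N (nat_lit 0x9201c275b99) (N (nat_lit 0x917b7a47bd9) (N (nat_lit 0x91797844d59) (N (nat_lit 0x9177d279c6d) (L (nat_lit 0xb46)) (L (nat_lit 0x150c))) (N (nat_lit 0x917b1d82259) (L (nat_lit 0xb1d)) (L (nat_lit 0x150f)))) (N (nat_lit 0x9200d945019) (N (nat_lit 0x917c315c185) (L (nat_lit 0x151c)) (L (nat_lit 0xb50))) (N (nat_lit 0x9200d958ed9) (L (nat_lit 0x402)) (N (nat_lit 0x92014ddd5d9) (L (nat_lit 0x1602)) (L (nat_lit 0x805))))))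 (N (nat_lit 0x92036063b99) (N (nat_lit 0x92021de1f19) (N (nat_lit 0x9201d393a19) (L (nat_lit 0x1107)) (L (nat_lit 0xf05))) (N (nat_lit 0x9203604fcd9) (L (nat_lit 0x1706)) (L (nat_lit 0x504)))) (N (nat_lit 0x92036386759) (N (nat_lit 0x920361eb219) (L (nat_lit 0x1708)) (L (nat_lit 0xa07))) (N (nat_lit 0x9203e8abe59) (L (nat_lit 0x190a)) (N (nat_lit 0x92052b6cd19) (L (nat_lit 0x130b)) (L (nat_lit 0x907))))))) (N (nat_lit 0x92514142205) (N (nat_lit 0x920784fd7d9) (N (nat_lit 0x9206139f119) (N (nat_lit 0x9205fc43e59) (L (nat_lit 0x1807)) (L (nat_lit 0x180c))) (N (nat_lit 0x9206f713559) (L (nat_lit 0x1509)) (L (nat_lit 0x1206)))) (N (nat_lit 0x924bdadf2d9) (N (nat_lit 0x92089c31119) (L (nat_lit 0x1007)) (L (nat_lit 0x1a09))) (N (nat_lit 0x924bdaf3199) (L (nat_lit 0x314)) (N (nat_lit 0x924ec914505) (L (nat_lit 0xf17)) (L (nat_lit 0x325)))))) (N (nat_lit 0x92520214631) (N (nat_lit 0x92517f03059) (N (nat_lit 0x92517eef199) (L (nat_lit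 0xf1a)) (L (nat_lit 0x205))) (N (nat_lit 0x9251f7ff359) (L (nat_lit 0x809)) (L (nat_lit 0x506)))) (N (nat_lit 0x92528246399) (N (nat_lit 0x92527171519) (L (nat_lit 0x345)) (L (nat_lit 0xa0c))) (N (nat_lit 0x9252d1a3c99) (L (nat_lit 0x90d)) (N (nat_lit 0x92542426b99) (L (nat_lit 0xa0a)) (L (nat_lit 0x604)))))))))) (N (nat_lit 0x9b99c1c0119) (N (nat_lit 0x988fdec8499) (N (nat_lit 0x972226539d9) (N (nat_lit 0x93b725b8b99) (N (nat_lit 0x93b61ed9c19) (N (nat_lit 0x9256d1d5b59) (N (nat_lit 0x9254b0123d9) (L (nat_lit 0xd04)) (L (nat_lit 0xb0e))) (N (nat_lit 0x9256f462299) (L (nat_lit 0xb0c)) (L (nat_lit 0xc09)))) (N (nat_lit 0x93b61fcf819) (N (nat_lit 0x93b61eedad9) (L (nat_lit 0x203)) (L (nat_lit 0x806))) (N (nat_lit 0x93b725a4cd9) (L (nat_lit 0x1105)) (L (nat_lit 0x303))))) (N (nat_lit 0x93b9b0f65d9) (N (nat_lit 0x93b8c4e5219) (N (nat_lit 0x93b851fdc19) (L (nat_lit 0xf06)) (L (nat_lit 0x703))) (N (nat_lit 0x93b8c71a759) (L (nat_lit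 0x908)) (L (nat_lit 0x130d)))) (N (nat_lit 0x93bb546d1d9) (N (nat_lit 0x93b9f1c7959) (L (nat_lit 0xe03)) (L (nat_lit 0x1008))) (N (nat_lit 0x93bb976e519) (L (nat_lit 0x1204)) (N (nat_lit 0x9721071756d) (L (nat_lit 0x140a)) (L (nat_lit 0x1e11))))))) (N (nat_lit 0x9774d5b9285) (N (nat_lit 0x972bc778759) (N (nat_lit 0x972539a2bad) (N (nat_lit 0x9723bb93e19) (L (nat_lit 0x1e43)) (L (nat_lit 0x1e1f))) (N (nat_lit 0x9728f057a85) (L (nat_lit 0x2109)) (L (nat_lit 0x1e4d)))) (N (nat_lit 0x976caf37bed) (N (nat_lit 0x972bdabaa19) (L (nat_lit 0x2114)) (L (nat_lit 0x210d))) (N (nat_lit 0x976dd8704d9) (L (nat_lit 0x1a0b)) (N (nat_lit 0x976f6cbd919) (L (nat_lit 0x1a1f)) (L (nat_lit 0x1a13)))))) (N (nat_lit 0x98049b3f9c5) (N (nat_lit 0x97fd64450d9) (N (nat_lit 0x97fcf61f399) (L (nat_lit 0x1a2b)) (L (nat_lit 0x92e))) (N (nat_lit 0x97ffe4545c5) (L (nat_lit 0x1339)) (L (nat_lit 0x965)))) (N (nat_lit 0x9808c197c85) (N (nat_lit 0x9804c8c8e05)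 (L (nat_lit 0x134a)) (L (nat_lit 0x939))) (N (nat_lit 0x980a1d04a31) (L (nat_lit 0x133e)) (N (nat_lit 0x988f67d16d9) (L (nat_lit 0x971)) (L (nat_lit 0x91f)))))))) (N (nat_lit 0x99d31247399) (N (nat_lit 0x9900e674985) (N (nat_lit 0x98f807d4199) (N (nat_lit 0x989793dd905) (N (nat_lit 0x989278b0005) (L (nat_lit 0x1325)) (L (nat_lit 0x956))) (N (nat_lit 0x98f80640e6d) (L (nat_lit 0x1334)) (L (nat_lit 0xc0c)))) (N (nat_lit 0x98fcd37fe59) (N (nat_lit 0x98f9ec17cad) (L (nat_lit 0xc1d)) (L (nat_lit 0x1b0d))) (N (nat_lit 0x98ff6425499) (L (nat_lit 0xc0f)) (N (nat_lit 0x98ffae0ecd9) (L (nat_lit 0x1b28)) (L (nat_lit 0x1b10)))))) (N (nat_lit 0x99d1380a359) (N (nat_lit 0x99cf1780059) (N (nat_lit 0x99cea2e7a99) (L (nat_lit 0xc21)) (L (nat_lit 0x803))) (N (nat_lit 0x99cf1bf7c59) (L (nat_lit 0x1104)) (L (nat_lit 0x1703)))) (N (nat_lit 0x99d1481f499) (N (nat_lit 0x99d139a5899) (L (nat_lit 0xa05)) (L (nat_lit 0x1906))) (N (nat_lit 0x99d1b17c519)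 (L (nat_lit 0x1d03)) (N (nat_lit 0x99d307b7f99) (L (nat_lit 0x1909)) (L (nat_lit 0x1806))))))) (N (nat_lit 0x9a769be1759) (N (nat_lit 0x99d6881c299) (N (nat_lit 0x99d5363b3d9) (N (nat_lit 0x99d535e5fd9) (L (nat_lit 0x1309)) (L (nat_lit 0x1e0e))) (N (nat_lit 0x99d67fa0359) (L (nat_lit 0x1c08)) (L (nat_lit 0x1e0c)))) (N (nat_lit 0x99dac697959) (N (nat_lit 0x99d859876d9) (L (nat_lit 0xb07)) (L (nat_lit 0x1a08))) (N (nat_lit 0x99dbe48b199) (L (nat_lit 0x1407)) (N (nat_lit 0x9a761e40999) (L (nat_lit 0x1f0b)) (L (nat_lit 0x340)))))) (N (nat_lit 0x9b983c6c159) (N (nat_lit 0x9a7e7297259) (N (nat_lit 0x9a78e049b99) (L (nat_lit 0x90c)) (L (nat_lit 0xb0b))) (N (nat_lit 0x9b983c58299) (L (nat_lit 0xc07)) (L (nat_lit 0x503)))) (N (nat_lit 0x9b9940ab499) (N (nat_lit 0x9b98b5ca459) (L (nat_lit 0x1705)) (L (nat_lit 0xa06))) (N (nat_lit 0x9b9947b3f59) (L (nat_lit 0x1307)) (N (nat_lit 0x9b998f6ed99) (L (nat_lit 0x906)) (L (nat_lit 0x1907)))))))))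 (N (nat_lit 0x9eb2380ea99) (N (nat_lit 0x9dc7daa6819) (N (nat_lit 0x9ba08fd0199) (N (nat_lit 0x9b9c45e68d9) (N (nat_lit 0x9b9af094499) (N (nat_lit 0x9b9a78b6a99) (L (nat_lit 0x130a)) (L (nat_lit 0x1006))) (N (nat_lit 0x9b9c444b399) (L (nat_lit 0x180a)) (L (nat_lit 0xb08)))) (N (nat_lit 0x9b9d777b6d9) (N (nat_lit 0x9b9cd21abd9) (L (nat_lit 0x1c09)) (L (nat_lit 0x1507))) (N (nat_lit 0x9ba03779f59) (L (nat_lit 0x1408)) (L (nat_lit 0x1a06))))) (N (nat_lit 0x9cb298e24dd) (N (nat_lit 0x9cb2980079d) (N (nat_lit 0x9cb297ec8dd) (L (nat_lit 0x1b09)) (L (nat_lit 0x10b))) (N (nat_lit 0x9cb2981465d) (L (nat_lit 0x40a)) (L (nat_lit 0x1605)))) (N (nat_lit 0x9cb29d83c9d) (N (nat_lit 0x9cb29a1ba1d) (L (nat_lit 0x818)) (L (nat_lit 0x1712))) (N (nat_lit 0x9cb29e59ddd) (L (nat_lit 0xf10)) (N (nat_lit 0x9dc5cee7459) (L (nat_lit 0x1d07)) (L (nat_lit 0x183a))))))) (N (nat_lit 0x9e329b5a905) (N (nat_lit 0x9e0582202d9) (N (nat_lit 0x9dd5cbc5045)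 (N (nat_lit 0x9dcda190ec5) (L (nat_lit 0x1c2f)) (L (nat_lit 0x1848))) (N (nat_lit 0x9dd9f804e31) (L (nat_lit 0x1c33)) (L (nat_lit 0x1854)))) (N (nat_lit 0x9e1a1fffa31) (N (nat_lit 0x9e0d702f5c5) (L (nat_lit 0x120f)) (L (nat_lit 0x121f))) (N (nat_lit 0x9e277a3a32d) (L (nat_lit 0x1221)) (N (nat_lit 0x9e2a3969459) (L (nat_lit 0x2307)) (L (nat_lit 0x230c)))))) (N (nat_lit 0x9e6a8f86f85) (N (nat_lit 0x9e5bdc24fd9) (N (nat_lit 0x9e59b4b1799) (L (nat_lit 0x2318)) (L (nat_lit 0x1816))) (N (nat_lit 0x9e61caec905) (L (nat_lit 0x1c1f)) (L (nat_lit 0x182c)))) (N (nat_lit 0x9e84c4b5b59) (N (nat_lit 0x9e81fad41ad) (L (nat_lit 0x1c25)) (L (nat_lit 0x1f0d))) (N (nat_lit 0x9e8d5db7d05) (L (nat_lit 0x1f1c)) (N (nat_lit 0x9eb1295d2d9) (L (nat_lit 0x1f25)) (L (nat_lit 0xb31)))))))) (N (nat_lit 0xa1cc5e87519) (N (nat_lit 0x9f1ebf8d685) (N (nat_lit 0x9ec4e058485) (N (nat_lit 0x9ebb406b005) (N (nat_lit 0x9eb41792505) (L (nat_lit 0x151d)) (L (nat_lit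 0xb64))) (N (nat_lit 0x9ebf2883885) (L (nat_lit 0x1530)) (L (nat_lit 0xb36)))) (N (nat_lit 0x9f131ea4dad) (N (nat_lit 0x9ec698dbfb1) (L (nat_lit 0x1522)) (L (nat_lit 0xb69))) (N (nat_lit 0x9f1449b3a99) (L (nat_lit 0x1f0e)) (N (nat_lit 0x9f17f525619) (L (nat_lit 0x1f2e)) (L (nat_lit 0x1f16)))))) (N (nat_lit 0x9f65613a7c5) (N (nat_lit 0x9f624f7f699) (N (nat_lit 0x9f350699c59) (L (nat_lit 0x1f33)) (L (nat_lit 0x120b))) (N (nat_lit 0x9f63673a2d9) (L (nat_lit 0xb27)) (L (nat_lit 0x1516)))) (N (nat_lit 0xa1c45d0a519) (N (nat_lit 0x9f6cef0bbc5) (L (nat_lit 0xb5a)) (L (nat_lit 0x1526))) (N (nat_lit 0xa1c700449d9) (L (nat_lit 0x1102)) (N (nat_lit 0xa1c9a442e99) (L (nat_lit 0x1902)) (L (nat_lit 0x2204))))))) (N (nat_lit 0xa21dd0fc759) (N (nat_lit 0xa1f21967cc5) (N (nat_lit 0xa1d9e45b219) (N (nat_lit 0xa1d1bfbb859) (L (nat_lit 0x1e04)) (L (nat_lit 0x2306))) (N (nat_lit 0xa1f21953e05) (L (nat_lit 0x2406)) (L (nat_lit 0x317)))) (N (nat_lit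 0xa1fd581e331) (N (nat_lit 0xa1f86e02b31) (L (nat_lit 0xf1f)) (L (nat_lit 0x329))) (N (nat_lit 0xa1ff66bd35d) (L (nat_lit 0xf22)) (N (nat_lit 0xa21b2d71299) (L (nat_lit 0x33a)) (L (nat_lit 0xf03)))))) (N (nat_lit 0xa2977f59a5d) (N (nat_lit 0xa22d30ef059) (N (nat_lit 0xa2234e67299) (L (nat_lit 0x1306)) (L (nat_lit 0x1506))) (N (nat_lit 0xa2977f45b9d) (L (nat_lit 0x1b08)) (L (nat_lit 0x246)))) (N (nat_lit 0xa297f4108dd) (N (nat_lit 0xa297803b79d) (L (nat_lit 0x822)) (L (nat_lit 0x1113))) (N (nat_lit 0xa297f42479d) (L (nat_lit 0x518)) (N (nat_lit 0xa298882b09d) (L (nat_lit 0x171e)) (L (nat_lit 0x926))))))))))) (N (nat_lit 0xb17dc16c8c9) (N (nat_lit 0xa8d5b8c321d) (N (nat_lit 0xa5821c66d19) (N (nat_lit 0xa3f99101699) (N (nat_lit 0xa3a3b5c8ad9) (N (nat_lit 0xa299802bddd) (N (nat_lit 0xa299216cddd) (N (nat_lit 0xa2988e7d35d) (L (nat_lit 0xa25)) (L (nat_lit 0x1927))) (N (nat_lit 0xa29942a6edd) (L (nat_lit 0x1823)) (L (nat_lit 0x101b))))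 (N (nat_lit 0xa32001d5b19) (N (nat_lit 0xa299bee799d) (L (nat_lit 0x132d)) (L (nat_lit 0x1e46))) (N (nat_lit 0xa3a33c56919) (L (nat_lit 0x707)) (L (nat_lit 0xa02))))) (N (nat_lit 0xa3a6f175699) (N (nat_lit 0xa3a5e054dd9) (N (nat_lit 0xa3a44c431d9) (L (nat_lit 0x1904)) (L (nat_lit 0x1803))) (N (nat_lit 0xa3a5e1f0319) (L (nat_lit 0xd02)) (L (nat_lit 0x2202)))) (N (nat_lit 0xa3a7bfbca19) (N (nat_lit 0xa3a7527a619) (L (nat_lit 0x1c06)) (L (nat_lit 0x1e07))) (N (nat_lit 0xa3ab6058d59) (L (nat_lit 0x1c05)) (N (nat_lit 0xa3adfd68cd9) (L (nat_lit 0x2106)) (L (nat_lit 0x2304))))))) (N (nat_lit 0xa4fbcef6bb1) (N (nat_lit 0xa3fdb5def99) (N (nat_lit 0xa3faa106f59) (N (nat_lit 0xa3fa0f04459) (L (nat_lit 0x904)) (L (nat_lit 0x1805))) (N (nat_lit 0xa3fc53ce899) (L (nat_lit 0x1203)) (L (nat_lit 0x1e0b)))) (N (nat_lit 0xa4dee239a19) (N (nat_lit 0xa4048ee0259) (L (nat_lit 0x1a05)) (L (nat_lit 0x1f09))) (N (nat_lit 0xa4e6d174105) (L (nat_lit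 0x1a20)) (N (nat_lit 0xa4ecfcfdc45) (L (nat_lit 0x1a3d)) (L (nat_lit 0x1a38)))))) (N (nat_lit 0xa5429617385) (N (nat_lit 0xa52b857d599) (N (nat_lit 0xa527198f6d9) (L (nat_lit 0x1a40)) (L (nat_lit 0x1e15))) (N (nat_lit 0xa5358827385) (L (nat_lit 0x2115)) (L (nat_lit 0x1e24)))) (N (nat_lit 0xa548a85f619) (N (nat_lit 0xa54459e7759) (L (nat_lit 0x2119)) (L (nat_lit 0x1e2e))) (N (nat_lit 0xa54c70ff0c5) (L (nat_lit 0x211d)) (N (nat_lit 0xa559f19de45) (L (nat_lit 0x1e57)) (L (nat_lit 0x2120)))))))) (N (nat_lit 0xa65c82afd05) (N (nat_lit 0xa588e3a8c59) (N (nat_lit 0xa58464d7d19) (N (nat_lit 0xa5832d875d9) (N (nat_lit 0xa5821c7abd9) (L (nat_lit 0x602)) (L (nat_lit 0x1d04))) (N (nat_lit 0xa584408be99) (L (nat_lit 0xb05)) (L (nat_lit 0x1504)))) (N (nat_lit 0xa587a71ed19) (N (nat_lit 0xa584e007b19) (L (nat_lit 0x1405)) (L (nat_lit 0x1e08))) (N (nat_lit 0xa587a7c8259) (L (nat_lit 0xc04)) (L (nat_lit 0x2107))))) (N (nat_lit 0xa59b51ab7c5)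 (N (nat_lit 0xa58d93dca19) (N (nat_lit 0xa58cfe0d4d9) (L (nat_lit 0x1b05)) (L (nat_lit 0x1f06))) (N (nat_lit 0xa5931e031d9) (L (nat_lit 0x2004)) (L (nat_lit 0x1a14)))) (N (nat_lit 0xa64d9869b6d) (N (nat_lit 0xa62f525b819) (L (nat_lit 0x1a37)) (L (nat_lit 0x1a0e))) (N (nat_lit 0xa6506783d19) (L (nat_lit 0x241f)) (N (nat_lit 0xa6527c7a459) (L (nat_lit 0x2410)) (L (nat_lit 0x2409))))))) (N (nat_lit 0xa7e94aa3f31) (N (nat_lit 0xa745e47bd05) (N (nat_lit 0xa73a88b9b99) (N (nat_lit 0xa73899a14d9) (L (nat_lit 0x2415)) (L (nat_lit 0xc14))) (N (nat_lit 0xa73bacb6e05) (L (nat_lit 0x1b1c)) (L (nat_lit 0xc27)))) (N (nat_lit 0xa7d9f5bac05) (N (nat_lit 0xa7d98794ec5) (L (nat_lit 0x1b30)) (L (nat_lit 0x93f))) (N (nat_lit 0xa7dfdc43bf1) (L (nat_lit 0x1356)) (N (nat_lit 0xa7e706772f1) (L (nat_lit 0x977)) (L (nat_lit 0x1365)))))) (N (nat_lit 0xa88f8626ec5) (N (nat_lit 0xa7f321ba65d) (N (nat_lit 0xa7f085d18b1) (L (nat_lit 0x948)) (L (nat_lit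 0x135b))) (N (nat_lit 0xa88f0e53905) (L (nat_lit 0x981)) (L (nat_lit 0x933)))) (N (nat_lit 0xa89d15b4531) (N (nat_lit 0xa89585e4131) (L (nat_lit 0x1344)) (L (nat_lit 0x96b))) (N (nat_lit 0xa8d5401ccdd) (L (nat_lit 0x1350)) (N (nat_lit 0xa8d54030b9d) (L (nat_lit 0x315)) (L (nat_lit 0xf19))))))))) (N (nat_lit 0xae23030fd19) (N (nat_lit 0xab666b51b49) (N (nat_lit 0xa8d9ee073dd) (N (nat_lit 0xa8d7735e5dd) (N (nat_lit 0xa8d650d21dd) (N (nat_lit 0xa8d631cb75d) (L (nat_lit 0x931)) (L (nat_lit 0x183d))) (N (nat_lit 0xa8d659d675d) (L (nat_lit 0x1210)) (L (nat_lit 0x133d)))) (N (nat_lit 0xa8d80d11d9d) (N (nat_lit 0xa8d774f9b1d) (L (nat_lit 0xb34)) (L (nat_lit 0x1c32))) (N (nat_lit 0xa8d96f44d9d) (L (nat_lit 0x1a23)) (L (nat_lit 0x151f))))) (N (nat_lit 0xab636fa1609) (N (nat_lit 0xab6216ebac9) (N (nat_lit 0xab6216d7c09) (L (nat_lit 0x1f30)) (L (nat_lit 0x110))) (N (nat_lit 0xab6217cd809) (L (nat_lit 0x413)) (L (nat_lit 0x83d)))) (N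 (nat_lit 0xab64c6813c9) (N (nat_lit 0xab636fb54c9) (L (nat_lit 0x40e)) (L (nat_lit 0x1607))) (N (nat_lit 0xab64c8e5d09) (L (nat_lit 0x826)) (N (nat_lit 0xab6513e2189) (L (nat_lit 0x1727)) (L (nat_lit 0x81d))))))) (N (nat_lit 0xac51b924131) (N (nat_lit 0xac2bfb42fd9) (N (nat_lit 0xab671276a89) (N (nat_lit 0xab66e441009) (L (nat_lit 0x1717)) (L (nat_lit 0xf1b))) (N (nat_lit 0xab67c918b89) (L (nat_lit 0xf14)) (L (nat_lit 0x1d0e)))) (N (nat_lit 0xac3113c6dd9) (N (nat_lit 0xac2e615fd19) (L (nat_lit 0x1f2d)) (L (nat_lit 0x1303))) (N (nat_lit 0xac36a05e519) (L (nat_lit 0x1c03)) (N (nat_lit 0xac3a34f7685) (L (nat_lit 0x2104)) (L (nat_lit 0x1f3a)))))) (N (nat_lit 0xad415c073d9) (N (nat_lit 0xac943cd9e45) (N (nat_lit 0xac85b01e919) (L (nat_lit 0x1f3f)) (L (nat_lit 0x230f))) (N (nat_lit 0xace1834a419) (L (nat_lit 0x2320)) (L (nat_lit 0x1004)))) (N (nat_lit 0xad96cbf2a05) (N (nat_lit 0xad8e9519819) (L (nat_lit 0x230b)) (L (nat_lit 0x1f45)))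 (N (nat_lit 0xada0af67a59) (L (nat_lit 0x1f3b)) (N (nat_lit 0xae19e102e05) (L (nat_lit 0x1f14)) (L (nat_lit 0x1218)))))))) (N (nat_lit 0xaf710f2389d) (N (nat_lit 0xae8fae349c5) (N (nat_lit 0xae28aacb519) (N (nat_lit 0xae2418da1d9) (N (nat_lit 0xae238174ad9) (L (nat_lit 0xb03)) (L (nat_lit 0x1e05))) (N (nat_lit 0xae2737b4219) (L (nat_lit 0x1a03)) (L (nat_lit 0x2303)))) (N (nat_lit 0xae2d00aa259) (N (nat_lit 0xae29dca9ef1) (L (nat_lit 0x1f05)) (L (nat_lit 0x1222))) (N (nat_lit 0xae30e8c03d9) (L (nat_lit 0x1f11)) (N (nat_lit 0xae408ecf55d) (L (nat_lit 0x2404)) (L (nat_lit 0x1226)))))) (N (nat_lit 0xaeabbebb6b1) (N (nat_lit 0xae9fb50d531) (N (nat_lit 0xae91d684a05) (L (nat_lit 0x183e)) (L (nat_lit 0x1c39))) (N (nat_lit 0xaea7bfc83ad) (L (nat_lit 0x184e)) (L (nat_lit 0x250a)))) (N (nat_lit 0xaeba8bb0905) (N (nat_lit 0xaeacb968519) (L (nat_lit 0x1c3f)) (L (nat_lit 0x2505))) (N (nat_lit 0xaf486b9b405) (L (nat_lit 0x2507)) (N (nat_lit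 0xaf4ab07c0c5) (L (nat_lit 0x181c)) (L (nat_lit 0x1c2b))))))) (N (nat_lit 0xb071ec62005) (N (nat_lit 0xaf906006585) (N (nat_lit 0xaf735b4219d) (N (nat_lit 0xaf718bbe5dd) (L (nat_lit 0x712)) (L (nat_lit 0x1024))) (N (nat_lit 0xaf77a17b7dd) (L (nat_lit 0x1427)) (L (nat_lit 0x1b2a)))) (N (nat_lit 0xaf9962f4505) (N (nat_lit 0xaf9849df0c5) (L (nat_lit 0x1213)) (L (nat_lit 0xb3b))) (N (nat_lit 0xaf9ec2ca0f1) (L (nat_lit 0x1527)) (N (nat_lit 0xafa8c8247f1) (L (nat_lit 0xb6e)) (L (nat_lit 0x1533)))))) (N (nat_lit 0xb17c68a2ec9) (N (nat_lit 0xb0788989331) (N (nat_lit 0xb0730fdb0c5) (L (nat_lit 0xb2c)) (L (nat_lit 0x1519))) (N (nat_lit 0xb082f5fcb31) (L (nat_lit 0xb60)) (L (nat_lit 0x152c)))) (N (nat_lit 0xb17cdd6dc09) (N (nat_lit 0xb17c68b6d89) (L (nat_lit 0x223)) (L (nat_lit 0x847))) (N (nat_lit 0xb17d71883c9) (L (nat_lit 0x52e)) (N (nat_lit 0xb17d763f149) (L (nat_lit 0x95d)) (L (nat_lit 0xa51)))))))))) (N (nat_lit 0xb89f3ced205)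 (N (nat_lit 0xb4832c1ed5d) (N (nat_lit 0xb1879efbac9) (N (nat_lit 0xb1815b1c689) (N (nat_lit 0xb180261e109) (N (nat_lit 0xb17f184c689) (N (nat_lit 0xb17e3637609) (L (nat_lit 0x828)) (L (nat_lit 0x1729))) (N (nat_lit 0xb17f65ad449) (L (nat_lit 0x1123)) (L (nat_lit 0x1117)))) (N (nat_lit 0xb180bc7f4c9) (N (nat_lit 0xb18027b9649) (L (nat_lit 0xa36)) (L (nat_lit 0x1943))) (N (nat_lit 0xb1815b087c9) (L (nat_lit 0x1834)) (L (nat_lit 0x521))))) (N (nat_lit 0xb1845950f49) (N (nat_lit 0xb1833286549) (N (nat_lit 0xb181cbce889) (L (nat_lit 0x1733)) (L (nat_lit 0x192d))) (N (nat_lit 0xb1840841409) (L (nat_lit 0x134d)) (L (nat_lit 0x93b)))) (N (nat_lit 0xb184a2ae549) (N (nat_lit 0xb1845a58f49) (L (nat_lit 0x1e50)) (L (nat_lit 0xa2b))) (N (nat_lit 0xb185b22a909) (L (nat_lit 0x184b)) (N (nat_lit 0xb187083a789) (L (nat_lit 0x193f)) (L (nat_lit 0x182f))))))) (N (nat_lit 0xb392d369489) (N (nat_lit 0xb38e8b034c9) (N (nat_lit 0xb188ff3dfc9)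 (N (nat_lit 0xb1880ab6449) (L (nat_lit 0x102c)) (L (nat_lit 0x1332))) (N (nat_lit 0xb38e8aef609) (L (nat_lit 0x1e5b)) (L (nat_lit 0x218)))) (N (nat_lit 0xb390e11d189) (N (nat_lit 0xb38e8be5209) (L (nat_lit 0x82d)) (L (nat_lit 0x111c))) (N (nat_lit 0xb390e131049) (L (nat_lit 0x51d)) (N (nat_lit 0xb392d024b49) (L (nat_lit 0x1723)) (L (nat_lit 0xa31)))))) (N (nat_lit 0xb3970658d09) (N (nat_lit 0xb3959cdf049) (N (nat_lit 0xb393ad2ea89) (L (nat_lit 0x1933)) (L (nat_lit 0x92b))) (N (nat_lit 0xb395dcc5389) (L (nat_lit 0x1829)) (L (nat_lit 0x1337)))) (N (nat_lit 0xb47185fb231) (N (nat_lit 0xb3979516c89) (L (nat_lit 0x101f)) (L (nat_lit 0x1e4b))) (N (nat_lit 0xb471860f0f1) (L (nat_lit 0x31a)) (N (nat_lit 0xb47bcfdd65d) (L (nat_lit 0xf27)) (L (nat_lit 0x32e)))))))) (N (nat_lit 0xb79f9da0885) (N (nat_lit 0xb67068abadd) (N (nat_lit 0xb5c38bdec99) (N (nat_lit 0xb503f1f29d9) (N (nat_lit 0xb487356c189) (L (nat_lit 0xf2a)) (L (nat_lit 0x33d)))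 (N (nat_lit 0xb512a287f85) (L (nat_lit 0x2412)) (L (nat_lit 0x241d)))) (N (nat_lit 0xb61127c63f1) (N (nat_lit 0xb600e5cfc05) (L (nat_lit 0x2420)) (L (nat_lit 0x1a2c))) (N (nat_lit 0xb66ad8c6bc5) (L (nat_lit 0x1a41)) (N (nat_lit 0xb66f62d8305) (L (nat_lit 0x1e33)) (L (nat_lit 0x2121)))))) (N (nat_lit 0xb6ad71108b1) (N (nat_lit 0xb6902afc805) (N (nat_lit 0xb68bbde30c5) (L (nat_lit 0xe0b)) (L (nat_lit 0x1e39))) (N (nat_lit 0xb69c0b3a731) (L (nat_lit 0x2126)) (L (nat_lit 0x1e5d)))) (N (nat_lit 0xb6efaa80d19) (N (nat_lit 0xb6c0ffa5945) (L (nat_lit 0x2129)) (L (nat_lit 0x1a26))) (N (nat_lit 0xb6f26c149d9) (L (nat_lit 0x1502)) (N (nat_lit 0xb74bf0fc699) (L (nat_lit 0x2102)) (L (nat_lit 0x1403))))))) (N (nat_lit 0xb7f929acc89) (N (nat_lit 0xb7f33b45909) (N (nat_lit 0xb7f180aa549) (N (nat_lit 0xb7f10804009) (L (nat_lit 0x1a1a)) (L (nat_lit 0x343))) (N (nat_lit 0xb7f260cda09) (L (nat_lit 0x968)) (L (nat_lit 0xf1d)))) (N (nat_lit 0xb7f6177c509)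 (N (nat_lit 0xb7f4d19ca49) (L (nat_lit 0xb67)) (L (nat_lit 0x134e))) (N (nat_lit 0xb7f69084a49) (L (nat_lit 0x93c)) (N (nat_lit 0xb7f8c8a9949) (L (nat_lit 0x184d)) (L (nat_lit 0x1220)))))) (N (nat_lit 0xb7fe4f0f389) (N (nat_lit 0xb7fa8614909) (N (nat_lit 0xb7fa0154909) (L (nat_lit 0x1342)) (L (nat_lit 0x1532))) (N (nat_lit 0xb7fb9caf8c9) (L (nat_lit 0x1a3f)) (L (nat_lit 0x1c38)))) (N (nat_lit 0xb803e065489) (N (nat_lit 0xb80102193c9) (L (nat_lit 0xb39)) (L (nat_lit 0x1a3b))) (N (nat_lit 0xb804ffb7a89) (L (nat_lit 0x1524)) (N (nat_lit 0xb89d40e22c5) (L (nat_lit 0x1f3e)) (L (nat_lit 0xc17))))))))) (N (nat_lit 0xbb75c568135) (N (nat_lit 0xba2560d84c9) (N (nat_lit 0xba1ff0eb689) (N (nat_lit 0xb8fc275c9d9) (N (nat_lit 0xb8b0fdda4f1) (N (nat_lit 0xb8a3e24a5f1) (L (nat_lit 0x1b20)) (L (nat_lit 0xc2b))) (N (nat_lit 0xb8fb0bb4919) (L (nat_lit 0x1b35)) (L (nat_lit 0xc02)))) (N (nat_lit 0xb90c197b2d9) (N (nat_lit 0xb900d2db919) (L (nat_lit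 0x1f03)) (L (nat_lit 0x2402))) (N (nat_lit 0xba1ff0d77c9) (L (nat_lit 0x2502)) (L (nat_lit 0x318))))) (N (nat_lit 0xba224b18f49) (N (nat_lit 0xba21048e4c9) (N (nat_lit 0xba206aa9109) (L (nat_lit 0xf30)) (L (nat_lit 0x942))) (N (nat_lit 0xba210bbc649) (L (nat_lit 0x1219)) (L (nat_lit 0x135a)))) (N (nat_lit 0xba244262909) (N (nat_lit 0xba22c5ca889) (L (nat_lit 0x936)) (L (nat_lit 0x1843))) (N (nat_lit 0xba251b57449) (L (nat_lit 0x1348)) (N (nat_lit 0xba255f3cf89) (L (nat_lit 0x1214)) (L (nat_lit 0xb3f))))))) (N (nat_lit 0xbb6b370b335) (N (nat_lit 0xba2b7605f49) (N (nat_lit 0xba283254089) (N (nat_lit 0xba25fe28f49) (L (nat_lit 0x1c3e)) (L (nat_lit 0x1a2f))) (N (nat_lit 0xba297479fc9) (L (nat_lit 0x1a29)) (L (nat_lit 0x152a)))) (N (nat_lit 0xbb685c6e5f1) (N (nat_lit 0xbb67e340831) (L (nat_lit 0x1f35)) (L (nat_lit 0x944))) (N (nat_lit 0xbb69d353235) (L (nat_lit 0x1360)) (N (nat_lit 0xbb69d3670f5) (L (nat_lit 0x116)) (L (nat_lit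 0x41d)))))) (N (nat_lit 0xbb6f72ce0f5) (N (nat_lit 0xbb6ca07f8f5) (N (nat_lit 0xbb6c9d4b435) (L (nat_lit 0x417)) (L (nat_lit 0x160a))) (N (nat_lit 0xbb6ce71b5b5) (L (nat_lit 0x84b)) (L (nat_lit 0x842)))) (N (nat_lit 0xbb71297beb5) (N (nat_lit 0xbb6f72d0035) (L (nat_lit 0x1735)) (L (nat_lit 0x830))) (N (nat_lit 0xbb72503cb5d) (L (nat_lit 0x172d)) (N (nat_lit 0xbb73e4130f5) (L (nat_lit 0x97c)) (L (nat_lit 0xf23)))))))) (N (nat_lit 0xc11723a23c9) (N (nat_lit 0xbee96f41c45) (N (nat_lit 0xbe79c4e5559) (N (nat_lit 0xbe045346a05) (N (nat_lit 0xbb7c55e3e5d) (L (nat_lit 0x1d15)) (L (nat_lit 0x1369))) (N (nat_lit 0xbe6a2afb385) (L (nat_lit 0x231a)) (L (nat_lit 0x1f31)))) (N (nat_lit 0xbeca56fbcc9) (N (nat_lit 0xbec529acbc9) (L (nat_lit 0x250b)) (L (nat_lit 0x724))) (N (nat_lit 0xbed2d325749) (L (nat_lit 0x102d)) (N (nat_lit 0xbedfcde1749) (L (nat_lit 0x142c)) (L (nat_lit 0x1b2e)))))) (N (nat_lit 0xc034bc01505) (N (nat_lit 0xbf3eaca08f1)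 (N (nat_lit 0xbf2e1f6ea05) (L (nat_lit 0x2315)) (L (nat_lit 0x1f26))) (N (nat_lit 0xbff2564d745) (L (nat_lit 0x1f40)) (L (nat_lit 0x1f21)))) (N (nat_lit 0xc11219ed949) (N (nat_lit 0xc1119c27809) (L (nat_lit 0x1f18)) (L (nat_lit 0x715))) (N (nat_lit 0xc113ea9c909) (L (nat_lit 0x1049)) (N (nat_lit 0xc113fa95b89) (L (nat_lit 0x143b)) (L (nat_lit 0x1028))))))) (N (nat_lit 0xc1c2ddfc135) (N (nat_lit 0xc1bc67605f5) (N (nat_lit 0xc1bb03a84f5) (N (nat_lit 0xc11d8684a89) (L (nat_lit 0x1432)) (L (nat_lit 0x1b33))) (N (nat_lit 0xc1bb7873235) (L (nat_lit 0x232)) (L (nat_lit 0x545)))) (N (nat_lit 0xc1c01390cf5) (N (nat_lit 0xc1bedea6635) (L (nat_lit 0x84d)) (L (nat_lit 0xa62))) (N (nat_lit 0xc1c0a3252f5) (L (nat_lit 0x539)) (N (nat_lit 0xc1c179d0df5) (L (nat_lit 0x1127)) (L (nat_lit 0x1737)))))) (N (nat_lit 0xc1c76173475) (N (nat_lit 0xc1c64a29535) (N (nat_lit 0xc1c31eb0b75) (L (nat_lit 0x973)) (L (nat_lit 0xa57))) (N (nat_lit 0xc1c7120da35)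 (L (nat_lit 0x1856)) (L (nat_lit 0x1368)))) (N (nat_lit 0xc1ccc758f75) (N (nat_lit 0xc1c9b5844f5) (L (nat_lit 0x1949)) (L (nat_lit 0x94a))) (N (nat_lit 0xc1d0781e435) (L (nat_lit 0x1851)) (N (nat_lit 0xc1d2bfa1df5) (L (nat_lit 0x1039)) (L (nat_lit 0x1e60))))))))))))) St.N St.L
noncomputable def tHU_3 : St := (fun (N : ℕ → St → St → St) (L : ℕ → St) => (N (nat_lit 0x13cb85b1c0b5) (N (nat_lit 0x113cb7eb445d) (N (nat_lit 0xd1c12772905) (N (nat_lit 0xcab6a84fdf5) (N (nat_lit 0xc3f128c0f75) (N (nat_lit 0xc3e9ee99335) (N (nat_lit 0xc3a42c49a31) (N (nat_lit 0xc27cf063af1) (N (nat_lit 0xc27aa8cde31) (L (nat_lit 0x1b03)) (L (nat_lit 0x1844))) (N (nat_lit 0xc2c4e815fb1) (L (nat_lit 0x1c45)) (L (nat_lit 0x121c)))) (N (nat_lit 0xc3aec010c5d) (N (nat_lit 0xc3a55403af1) (L (nat_lit 0xb41)) (L (nat_lit 0x152d))) (N (nat_lit 0xc3bba93635d) (L (nat_lit 0xb74)) (L (nat_lit 0x1537))))) (N (nat_lit 0xc3ecbe4d9f5) (N (nat_lit 0xc3eb54d9435) (N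 (nat_lit 0xc3e9eead1f5) (L (nat_lit 0x228)) (L (nat_lit 0x852))) (N (nat_lit 0xc3ec50965b5) (L (nat_lit 0x832)) (L (nat_lit 0x534)))) (N (nat_lit 0xc3edba366b5) (N (nat_lit 0xc3ed08496b5) (L (nat_lit 0x1126)) (L (nat_lit 0x1120))) (N (nat_lit 0xc3ee5232775) (L (nat_lit 0x172f)) (N (nat_lit 0xc3ef29585b5) (L (nat_lit 0xa5d)) (L (nat_lit 0x962))))))) (N (nat_lit 0xc86d2cc6a35) (N (nat_lit 0xc3f68ab2b75) (N (nat_lit 0xc3f2e7bad35) (N (nat_lit 0xc3f12a8eeb5) (L (nat_lit 0x1948)) (L (nat_lit 0xa3a))) (N (nat_lit 0xc3f40b88ab5) (L (nat_lit 0x1939)) (L (nat_lit 0x1838)))) (N (nat_lit 0xc7c3c572d85) (N (nat_lit 0xc3f94dac935) (L (nat_lit 0x1353)) (L (nat_lit 0x1e55))) (N (nat_lit 0xc867ffcb635) (L (nat_lit 0x2417)) (N (nat_lit 0xc86909312c9) (L (nat_lit 0x337)) (L (nat_lit 0xe0d)))))) (N (nat_lit 0xc87f49c57b5) (N (nat_lit 0xc87582bd7b5) (N (nat_lit 0xc8725cabe35) (L (nat_lit 0x974)) (L (nat_lit 0x1857))) (N (nat_lit 0xc876ebe5e35)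 (L (nat_lit 0xb6c)) (L (nat_lit 0x1224)))) (N (nat_lit 0xc8aeda0efc5) (N (nat_lit 0xc88c4a12935) (L (nat_lit 0x1a45)) (L (nat_lit 0x1f42))) (N (nat_lit 0xcab5420fcf5) (L (nat_lit 0x240e)) (N (nat_lit 0xcab5bbe1635) (L (nat_lit 0x32a)) (L (nat_lit 0x97a)))))))) (N (nat_lit 0xccea040fb61) (N (nat_lit 0xcabd941e375) (N (nat_lit 0xcabaced93b5) (N (nat_lit 0xcab92cdea35) (N (nat_lit 0xcab7a820b75) (L (nat_lit 0xf25)) (L (nat_lit 0x96e))) (N (nat_lit 0xcaba72be4f5) (L (nat_lit 0x1370)) (L (nat_lit 0x989)))) (N (nat_lit 0xcabcdd0f375) (N (nat_lit 0xcabc8a5b475) (L (nat_lit 0xb72)) (L (nat_lit 0x1354))) (N (nat_lit 0xcabd42f4535) (L (nat_lit 0x1853)) (L (nat_lit 0x1223))))) (N (nat_lit 0xcad35a1f031) (N (nat_lit 0xcac381275f5) (N (nat_lit 0xcac25f7e2b5) (L (nat_lit 0x135f)) (L (nat_lit 0x1a44))) (N (nat_lit 0xcac411213b5) (L (nat_lit 0x1c44)) (L (nat_lit 0x1536)))) (N (nat_lit 0xcb2d90aadb1) (N (nat_lit 0xcad80712ff1) (L (nat_lit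 0x1e3e)) (L (nat_lit 0x212a))) (N (nat_lit 0xcce42820761) (L (nat_lit 0x1a32)) (N (nat_lit 0xcce596ff361) (L (nat_lit 0x11b)) (L (nat_lit 0x421))))))) (N (nat_lit 0xcd0b86d8135) (N (nat_lit 0xcd04f68aeb5) (N (nat_lit 0xcd028a6e035) (N (nat_lit 0xccf3fc30761) (L (nat_lit 0x855)) (L (nat_lit 0xf2b))) (N (nat_lit 0xcd028a81ef5) (L (nat_lit 0x31b)) (L (nat_lit 0xf29)))) (N (nat_lit 0xcd076927d35) (N (nat_lit 0xcd070069075) (L (nat_lit 0x988)) (L (nat_lit 0x1364))) (N (nat_lit 0xcd07db08ab5) (L (nat_lit 0x1847)) (N (nat_lit 0xcd0b813e1f5) (L (nat_lit 0x121d)) (L (nat_lit 0x1c48)))))) (N (nat_lit 0xcd26afc9031) (N (nat_lit 0xcd11efd09f5) (N (nat_lit 0xcd0e79f5935) (L (nat_lit 0xb44)) (L (nat_lit 0x1a35))) (N (nat_lit 0xcd15a8eed35) (L (nat_lit 0x152e)) (L (nat_lit 0x1f39)))) (N (nat_lit 0xcd31713615d) (N (nat_lit 0xcd28bfa17f1) (L (nat_lit 0xc1a)) (L (nat_lit 0x1b24))) (N (nat_lit 0xcd417c1245d) (L (nat_lit 0xc2e)) (N (nat_lit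 0xce3e8694819) (L (nat_lit 0x1b3a)) (L (nat_lit 0x2002))))))))) (N (nat_lit 0xe6b851ef021) (N (nat_lit 0xd5ba21cd361) (N (nat_lit 0xd3b2a1e9bb1) (N (nat_lit 0xd36dab17a21) (N (nat_lit 0xd1e7b249935) (N (nat_lit 0xd1e263c4535) (L (nat_lit 0x250c)) (L (nat_lit 0x727))) (N (nat_lit 0xd1f051626b5) (L (nat_lit 0x104b)) (L (nat_lit 0x143f)))) (N (nat_lit 0xd37cd557021) (N (nat_lit 0xd372d939521) (L (nat_lit 0x240)) (L (nat_lit 0x54d))) (N (nat_lit 0xd38e306f321) (L (nat_lit 0x983)) (L (nat_lit 0x1045))))) (N (nat_lit 0xd451417df75) (N (nat_lit 0xd44ed1344f5) (N (nat_lit 0xd41e64e3531) (L (nat_lit 0x231e)) (L (nat_lit 0x1f36))) (N (nat_lit 0xd44f5025a35) (L (nat_lit 0x733)) (L (nat_lit 0x103e)))) (N (nat_lit 0xd457e6ebdf5) (N (nat_lit 0xd4547e4a3b5) (L (nat_lit 0x104a)) (L (nat_lit 0x1444))) (N (nat_lit 0xd460a0dc535) (L (nat_lit 0x1436)) (N (nat_lit 0xd4dc73cefb1) (L (nat_lit 0x1b38)) (L (nat_lit 0x1f2a))))))) (N (nat_lit 0xdcd05837b21)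 (N (nat_lit 0xd5c19b164e1) (N (nat_lit 0xd5bc8fd20e1) (N (nat_lit 0xd5bb9333f61) (L (nat_lit 0x236)) (L (nat_lit 0x857))) (N (nat_lit 0xd5c002cc761) (L (nat_lit 0x549)) (L (nat_lit 0x112a)))) (N (nat_lit 0xdc033048835) (N (nat_lit 0xd5cc8823ce1) (L (nat_lit 0xa66)) (L (nat_lit 0x136c))) (N (nat_lit 0xdcc0eba8521) (L (nat_lit 0xe17)) (N (nat_lit 0xdcc63a90021) (L (nat_lit 0x33b)) (L (nat_lit 0x984)))))) (N (nat_lit 0xdf2fd35a4e1) (N (nat_lit 0xdf2d5b35b61) (N (nat_lit 0xddf9a8e0331) (L (nat_lit 0x1227)) (L (nat_lit 0x241b))) (N (nat_lit 0xdf2ecf24761) (L (nat_lit 0x32f)) (L (nat_lit 0xf2d)))) (N (nat_lit 0xdf3695d4261) (N (nat_lit 0xdf34e9688e1) (L (nat_lit 0x97f)) (L (nat_lit 0x136d))) (N (nat_lit 0xdf4291c2661) (L (nat_lit 0xb77)) (N (nat_lit 0xdfecda9b78d) (L (nat_lit 0x1539)) (L (nat_lit 0x120)))))))) (N (nat_lit 0xfe264b67705) (N (nat_lit 0xed8a04177d9) (N (nat_lit 0xe94592f8761) (N (nat_lit 0xe87e9faa2b1) (N (nat_lit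 0xe6bdc260b21) (L (nat_lit 0x735)) (L (nat_lit 0x1046))) (N (nat_lit 0xe91ae9e728d) (L (nat_lit 0x2509)) (L (nat_lit 0x243)))) (N (nat_lit 0xe94ef2fc661) (N (nat_lit 0xe9481555ce1) (L (nat_lit 0x71b)) (L (nat_lit 0x1042))) (N (nat_lit 0xe95dd9a5be1) (L (nat_lit 0x1448)) (N (nat_lit 0xed8a02844ad) (L (nat_lit 0x1b3c)) (L (nat_lit 0x70c)))))) (N (nat_lit 0xf4aec1e69d9) (N (nat_lit 0xf2eb177798d) (N (nat_lit 0xf15be42a321) (L (nat_lit 0x71d)) (L (nat_lit 0xe18))) (N (nat_lit 0xf4ad487d56d) (L (nat_lit 0x33e)) (L (nat_lit 0x100e)))) (N (nat_lit 0xfcd7964ad59) (N (nat_lit 0xfcd3e1844ad) (L (nat_lit 0x1019)) (L (nat_lit 0x140e))) (N (nat_lit 0xfd65437548d) (L (nat_lit 0x1415)) (N (nat_lit 0xfe231ac04d9) (L (nat_lit 0x72e)) (L (nat_lit 0x711))))))) (N (nat_lit 0x10c3e19a1edd) (N (nat_lit 0x106050a0ce59) (N (nat_lit 0x105852303005) (N (nat_lit 0x1057cb3ba599) (L (nat_lit 0x723)) (L (nat_lit 0x1021))) (N (nat_lit 0x105fe4a76e6d) (L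 (nat_lit 0x102a)) (L (nat_lit 0x1b0c)))) (N (nat_lit 0x1089195a8b8d) (N (nat_lit 0x1062921dd8d9) (L (nat_lit 0x1b13)) (L (nat_lit 0x1015))) (N (nat_lit 0x10c3e18ac2dd) (L (nat_lit 0xe13)) (N (nat_lit 0x10c3e18c019d) (L (nat_lit 0x245)) (L (nat_lit 0x813)))))) (N (nat_lit 0x1102d0452ead) (N (nat_lit 0x10de8e1a4a85) (N (nat_lit 0x10dd99fc24d9) (L (nat_lit 0x110b)) (L (nat_lit 0x1425))) (N (nat_lit 0x10ea4c255899) (L (nat_lit 0x1429)) (L (nat_lit 0x141d)))) (N (nat_lit 0x1119536c2205) (N (nat_lit 0x11037ae4d8d9) (L (nat_lit 0x2007)) (L (nat_lit 0x2009))) (N (nat_lit 0x1119c5c44f31) (L (nat_lit 0x714)) (N (nat_lit 0x113cb7ea059d) (L (nat_lit 0x726)) (L (nat_lit 0x511)))))))))) (N (nat_lit 0x12e948e66609) (N (nat_lit 0x1239a3936405) (N (nat_lit 0x11bbfbcf7fdd) (N (nat_lit 0x1193610cd331) (N (nat_lit 0x1173a5bb5e99) (N (nat_lit 0x113ccabbc81d) (N (nat_lit 0x113cc12eb2dd) (L (nat_lit 0x170c)) (L (nat_lit 0xa15))) (N (nat_lit 0x113ccd885a9d)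 (L (nat_lit 0x190e)) (L (nat_lit 0x131c)))) (N (nat_lit 0x1182432f16d9) (N (nat_lit 0x117521015285) (L (nat_lit 0x1b27)) (L (nat_lit 0x1b2b))) (N (nat_lit 0x1192522bd2c5) (L (nat_lit 0x1b1b)) (L (nat_lit 0x102f))))) (N (nat_lit 0x11b72fa25c1d) (N (nat_lit 0x11b70a21c85d) (N (nat_lit 0x119f4a5ecd05) (L (nat_lit 0x1037)) (L (nat_lit 0x1025))) (N (nat_lit 0x11b71366759d) (L (nat_lit 0xa20)) (L (nat_lit 0x1919)))) (N (nat_lit 0x11b74ae68bdd) (N (nat_lit 0x11b72fbc115d) (L (nat_lit 0xd07)) (L (nat_lit 0x2205))) (N (nat_lit 0x11bbd4ab66dd) (L (nat_lit 0x1c14)) (N (nat_lit 0x11bbde2dcc1d) (L (nat_lit 0x920)) (L (nat_lit 0x1817))))))) (N (nat_lit 0x11eac3c899c9) (N (nat_lit 0x11c5f0049bdd) (N (nat_lit 0x11c5c48f059d) (N (nat_lit 0x11c5c48dc6dd) (L (nat_lit 0x1e14)) (L (nat_lit 0x60a))) (N (nat_lit 0x11c5dcf6fe9d) (L (nat_lit 0x1d0b)) (L (nat_lit 0xb1e)))) (N (nat_lit 0x11ea91360209) (N (nat_lit 0x11c5fbbf4cdd) (L (nat_lit 0x1e20))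 (L (nat_lit 0x1416))) (N (nat_lit 0x11ea913740c9) (L (nat_lit 0x21e)) (N (nat_lit 0x11eaae5a9c09) (L (nat_lit 0x838)) (L (nat_lit 0x81c)))))) (N (nat_lit 0x122a69a424c5) (N (nat_lit 0x121b861c6205) (N (nat_lit 0x11ead2bea789) (L (nat_lit 0x1115)) (L (nat_lit 0x110f))) (N (nat_lit 0x121d57ccc8b1) (L (nat_lit 0x1438)) (L (nat_lit 0x143c)))) (N (nat_lit 0x1237ad11a99d) (N (nat_lit 0x122a7f4aef99) (L (nat_lit 0x142e)) (L (nat_lit 0x200c))) (N (nat_lit 0x1237d354155d) (L (nat_lit 0x1327)) (N (nat_lit 0x12381c2c0b9d) (L (nat_lit 0x1c22)) (L (nat_lit 0x2116)))))))) (N (nat_lit 0x1287edfc2c09) (N (nat_lit 0x126703a41709) (N (nat_lit 0x12474cc55fdd) (N (nat_lit 0x1247341ce01d) (N (nat_lit 0x12418b1a029d) (L (nat_lit 0x1421)) (L (nat_lit 0x1016))) (N (nat_lit 0x12473da5655d) (L (nat_lit 0xb29)) (L (nat_lit 0x1e30)))) (N (nat_lit 0x1266be3c64c9) (N (nat_lit 0x124773fadb9d) (L (nat_lit 0x1a15)) (L (nat_lit 0x230d))) (N (nat_lit 0x1266c7811209)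 (L (nat_lit 0x526)) (N (nat_lit 0x1266db60fec9) (L (nat_lit 0xa40)) (L (nat_lit 0x1715)))))) (N (nat_lit 0x127e177c2831) (N (nat_lit 0x126744de4a09) (N (nat_lit 0x126716f2bdc9) (L (nat_lit 0x1929)) (L (nat_lit 0xa28))) (N (nat_lit 0x12675107c549) (L (nat_lit 0x133f)) (L (nat_lit 0x1914)))) (N (nat_lit 0x127ebedcb405) (N (nat_lit 0x127ebedb7545) (L (nat_lit 0x717)) (L (nat_lit 3))) (N (nat_lit 0x127ebeead145) (L (nat_lit 0x106)) (N (nat_lit 0x127ed6ccac5d) (L (nat_lit 0x20b)) (L (nat_lit 0x72a))))))) (N (nat_lit 0x12d6eb4306c5) (N (nat_lit 0x128861082089) (N (nat_lit 0x128821ff0789) (N (nat_lit 0x1287edfd6ac9) (L (nat_lit 0x51b)) (L (nat_lit 0x1720))) (N (nat_lit 0x128840ef8149) (L (nat_lit 0xa1b)) (L (nat_lit 0x191d)))) (N (nat_lit 0x12ca3f9a995d) (N (nat_lit 0x12c5c5f39b05) (L (nat_lit 0x1321)) (L (nat_lit 0x1b2f))) (N (nat_lit 0x12ca66ab1d1d) (L (nat_lit 0x1517)) (N (nat_lit 0x12cf4d1ac3dd) (L (nat_lit 0x211e)) (L (nat_lit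 0x141f)))))) (N (nat_lit 0x12e4671b4789) (N (nat_lit 0x12dab76e6f9d) (N (nat_lit 0x12da9e7367dd) (L (nat_lit 0x1b1f)) (L (nat_lit 0xc15))) (N (nat_lit 0x12daf8cc95dd) (L (nat_lit 0x1f1d)) (L (nat_lit 0x2411)))) (N (nat_lit 0x12e4bfd1a089) (N (nat_lit 0x12e48c9bdb49) (L (nat_lit 0xa4b)) (L (nat_lit 0xd11))) (N (nat_lit 0x12e518f64f49) (L (nat_lit 0x193e)) (N (nat_lit 0x12e54b2f8309) (L (nat_lit 0x1c34)) (L (nat_lit 0x220f))))))))) (N (nat_lit 0x13360eff5649) (N (nat_lit 0x13066273bd89) (N (nat_lit 0x12f4146eb4c9) (N (nat_lit 0x12f339f07dc9) (N (nat_lit 0x12ea32ff1989) (N (nat_lit 0x12e9a36deb09) (L (nat_lit 0x957)) (L (nat_lit 0x182d))) (N (nat_lit 0x12f321874609) (L (nat_lit 0x1e23)) (L (nat_lit 0x612)))) (N (nat_lit 0x12f37fb16ec9) (N (nat_lit 0x12f33eabe009) (L (nat_lit 0xb51)) (L (nat_lit 0x1d0f))) (N (nat_lit 0x12f3c7e27e09) (L (nat_lit 0x1e4e)) (L (nat_lit 0xb37))))) (N (nat_lit 0x130596db0ec9) (N (nat_lit 0x12fa7b6be8f1)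 (N (nat_lit 0x12f417aa1189) (L (nat_lit 0x142a)) (L (nat_lit 0x1e25))) (N (nat_lit 0x12fc2c15ff5d) (L (nat_lit 0x103b)) (L (nat_lit 0x1043)))) (N (nat_lit 0x1305caddea49) (N (nat_lit 0x1305a01fbc09) (L (nat_lit 0xa30)) (L (nat_lit 0x1931))) (N (nat_lit 0x1305fcb17e89) (L (nat_lit 0x191f)) (N (nat_lit 0x1306259a2549) (L (nat_lit 0x2209)) (L (nat_lit 0xd0b))))))) (N (nat_lit 0x1323da3ee705) (N (nat_lit 0x130c4ea3b709) (N (nat_lit 0x1309a4f32e31) (N (nat_lit 0x13067fbfca49) (L (nat_lit 0x1c26)) (L (nat_lit 0x1c1a))) (N (nat_lit 0x130c450e9dc9) (L (nat_lit 0x1033)) (L (nat_lit 0x934)))) (N (nat_lit 0x130cac8cf589) (N (nat_lit 0x130c7952b549) (L (nat_lit 0x183f)) (L (nat_lit 0x181d))) (N (nat_lit 0x1323d15eb945) (L (nat_lit 0x1e32)) (N (nat_lit 0x1323d15ff805) (L (nat_lit 0x105)) (L (nat_lit 0x407)))))) (N (nat_lit 0x13288254d535) (N (nat_lit 0x1323e73f3045) (N (nat_lit 0x1323e5195345) (L (nat_lit 0x244)) (L (nat_lit 0x30b)))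 (N (nat_lit 0x132864815435) (L (nat_lit 0x50c)) (L (nat_lit 0x22e)))) (N (nat_lit 0x13359509e789) (N (nat_lit 0x1328cda92235) (L (nat_lit 0x841)) (L (nat_lit 0x111e))) (N (nat_lit 0x1335950b2649) (L (nat_lit 0x60d)) (N (nat_lit 0x1335e68ad089) (L (nat_lit 0x1d13)) (L (nat_lit 0xb23)))))))) (N (nat_lit 0x139b13ffcec9) (N (nat_lit 0x138a3971d289) (N (nat_lit 0x1378598ca449) (N (nat_lit 0x13653bc1d39d) (N (nat_lit 0x1336475e4309) (L (nat_lit 0x1e2a)) (L (nat_lit 0x141a))) (N (nat_lit 0x1377fefeff49) (L (nat_lit 0x1b1d)) (L (nat_lit 0xb5c)))) (N (nat_lit 0x13794c83edc9) (N (nat_lit 0x1378a72cf349) (L (nat_lit 0x1e59)) (L (nat_lit 0x1a3a))) (N (nat_lit 0x138478180805) (L (nat_lit 0x2321)) (N (nat_lit 0x1389a7b39009) (L (nat_lit 0x200e)) (L (nat_lit 0x1336)))))) (N (nat_lit 0x138c03a07309) (N (nat_lit 0x138b741c0089) (N (nat_lit 0x138b0f6eaa89) (L (nat_lit 0x1c28)) (L (nat_lit 0x211a))) (N (nat_lit 0x138b9a712049) (L (nat_lit 0x1346))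 (L (nat_lit 0x1c3c)))) (N (nat_lit 0x13975941ce09) (N (nat_lit 0x138c6e42f9c9) (L (nat_lit 0x1c2d)) (L (nat_lit 0x2122))) (N (nat_lit 0x1398297e3df1) (L (nat_lit 0x1026)) (N (nat_lit 0x139afb39eb09) (L (nat_lit 0x1440)) (L (nat_lit 0xb3d))))))) (N (nat_lit 0x13bc90b14a49) (N (nat_lit 0x13a859fedef5) (N (nat_lit 0x139b7bb2f949) (N (nat_lit 0x139b2f8c0289) (L (nat_lit 0x1a2d)) (L (nat_lit 0x1e35))) (N (nat_lit 0x13a7ff7056f5) (L (nat_lit 0x2319)) (L (nat_lit 0x53f)))) (N (nat_lit 0x13a994d77031) (N (nat_lit 0x13a8fece16f5) (L (nat_lit 0xa54)) (L (nat_lit 0x135c))) (N (nat_lit 0x13bc3eed9549) (L (nat_lit 0x1433)) (N (nat_lit 0x13bc4890ae89) (L (nat_lit 0xb2e)) (L (nat_lit 0x1e3b)))))) (N (nat_lit 0x13cb307a37b5) (N (nat_lit 0x13cafbba6535) (N (nat_lit 0x13bccd929689) (L (nat_lit 0x1a1b)) (L (nat_lit 0x2313))) (N (nat_lit 0x13cb19b66635) (L (nat_lit 0x532)) (L (nat_lit 0x172b)))) (N (nat_lit 0x13cb4f12ab05) (N (nat_lit 0x13cb46327d45)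 (L (nat_lit 0xa46)) (L (nat_lit 0x405))) (N (nat_lit 0x13cb71d07a05) (L (nat_lit 0x80d)) (N (nat_lit 0x13cb71ea2f45) (L (nat_lit 0x509)) (L (nat_lit 0xa10))))))))))) (N (nat_lit 0x1683e81f4ff5) (N (nat_lit 0x14c74f377505) (N (nat_lit 0x14558d814949) (N (nat_lit 0x1422073802c9) (N (nat_lit 0x13e6ccb83945) (N (nat_lit 0x13d1a827f8c5) (N (nat_lit 0x13d17aa72ec5) (N (nat_lit 0x13cb91015245) (L (nat_lit 0x1935)) (L (nat_lit 0x912))) (N (nat_lit 0x13d183ced885) (L (nat_lit 0x209)) (L (nat_lit 0x50b)))) (N (nat_lit 0x13e69dba5805) (N (nat_lit 0x13e69db91945) (L (nat_lit 0x607)) (L (nat_lit 0x207))) (N (nat_lit 0x13e6b323da05) (L (nat_lit 0x80e)) (L (nat_lit 0x307))))) (N (nat_lit 0x140f81521709) (N (nat_lit 0x1403bc67fddd) (N (nat_lit 0x13e6cd17df45) (L (nat_lit 0x709)) (L (nat_lit 0x913))) (N (nat_lit 0x140ed73e2709) (L (nat_lit 0x200d)) (L (nat_lit 0xc28)))) (N (nat_lit 0x1410913dc35d) (N (nat_lit 0x14108e6b4889) (L (nat_lit 0x1f3c))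 (L (nat_lit 0x241e))) (N (nat_lit 0x1411ad173a89) (L (nat_lit 0x71a)) (N (nat_lit 0x142174a04449) (L (nat_lit 0x72d)) (L (nat_lit 0x1528))))))) (N (nat_lit 0x144c1281e7f5) (N (nat_lit 0x14398bf38a35) (N (nat_lit 0x1437d0a3d835) (N (nat_lit 0x142871fc6349) (L (nat_lit 0x2124)) (L (nat_lit 0x1430))) (N (nat_lit 0x14387aaa6735) (L (nat_lit 0x61c)) (L (nat_lit 0xb6a)))) (N (nat_lit 0x1444ac058ec9) (N (nat_lit 0x144484bfe309) (L (nat_lit 0x143d)) (L (nat_lit 0x151a))) (N (nat_lit 0x1449b5b39189) (L (nat_lit 0x2128)) (N (nat_lit 0x144a41fb32f1) (L (nat_lit 0x1423)) (L (nat_lit 0x1b34)))))) (N (nat_lit 0x1452f1a5bef5) (N (nat_lit 0x144ca3273d75) (N (nat_lit 0x144c6d38eff5) (L (nat_lit 0xa5c)) (L (nat_lit 0x1946))) (N (nat_lit 0x144d57454175) (L (nat_lit 0xd15)) (L (nat_lit 0x1c40)))) (N (nat_lit 0x1454e3cdd989) (N (nat_lit 0x14534e40a6f5) (L (nat_lit 0x96c)) (L (nat_lit 0x184f))) (N (nat_lit 0x1454fd1c6949) (L (nat_lit 0xc34)) (N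 (nat_lit 0x145535f75a89) (L (nat_lit 0x1f27)) (L (nat_lit 0x1f22)))))))) (N (nat_lit 0x147e8ec98cb5) (N (nat_lit 0x1477d3c6a235) (N (nat_lit 0x146fb9fadf35) (N (nat_lit 0x146f0ef47635) (N (nat_lit 0x145def3e1631) (L (nat_lit 0x2416)) (L (nat_lit 0x1b23))) (N (nat_lit 0x146f43ea48b5) (L (nat_lit 0xa39)) (L (nat_lit 0x1937)))) (N (nat_lit 0x147548f4be05) (N (nat_lit 0x14751d56c145) (L (nat_lit 0x220d)) (L (nat_lit 0x1603))) (N (nat_lit 0x14759f3ff145) (L (nat_lit 0x1709)) (L (nat_lit 0x180e))))) (N (nat_lit 0x147b8c7c6b85) (N (nat_lit 0x147880cd4335) (N (nat_lit 0x1478092870b5) (L (nat_lit 0x945)) (L (nat_lit 0x1845))) (N (nat_lit 0x147b5ffcf2c5) (L (nat_lit 0x1e3d)) (L (nat_lit 0x80b)))) (N (nat_lit 0x147ddd4917b5) (N (nat_lit 0x147be5933ac5) (L (nat_lit 0xa0e)) (L (nat_lit 0xb11))) (N (nat_lit 0x147dfb7b18b5) (L (nat_lit 0x616)) (N (nat_lit 0x147e2f9507b5) (L (nat_lit 0x1d16)) (L (nat_lit 0xb56))))))) (N (nat_lit 0x149103981845)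 (N (nat_lit 0x14907dbd8b05) (N (nat_lit 0x14882be6a1c5) (N (nat_lit 0x147f0118d561) (L (nat_lit 0x1e53)) (L (nat_lit 0x23c))) (N (nat_lit 0x149074dd5d45) (L (nat_lit 0x30a)) (L (nat_lit 0x807)))) (N (nat_lit 0x1490ba1cfe45) (N (nat_lit 0x14908a481e05) (L (nat_lit 0x1108)) (L (nat_lit 0xf07))) (N (nat_lit 0x1490ce490d05) (L (nat_lit 0x1310)) (N (nat_lit 0x149101d1e145) (L (nat_lit 0x90a)) (L (nat_lit 0x1207)))))) (N (nat_lit 0x149843d533c5) (N (nat_lit 0x149805ef1485) (N (nat_lit 0x1497fcc14ac5) (L (nat_lit 0x100a)) (L (nat_lit 0x508))) (N (nat_lit 0x149812751785) (L (nat_lit 0xa0f)) (L (nat_lit 0x911)))) (N (nat_lit 0x14c1ce9ec709) (N (nat_lit 0x14a1b53ca85d) (L (nat_lit 0xb12)) (L (nat_lit 0x103f))) (N (nat_lit 0x14c729547d45) (L (nat_lit 0x1b31)) (N (nat_lit 0x14c72955bc05) (L (nat_lit 0x304)) (L (nat_lit 0xf08))))))))) (N (nat_lit 0x1569f12fe905) (N (nat_lit 0x152d3e511f35) (N (nat_lit 0x14fa70bca4f5) (N (nat_lit 0x14e515b9ac35)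 (N (nat_lit 0x14c77bd36b45) (N (nat_lit 0x14c77620c645) (L (nat_lit 0x704)) (L (nat_lit 0x100b))) (N (nat_lit 0x14e4dee45dc9) (L (nat_lit 0xe04)) (L (nat_lit 0x1b3f)))) (N (nat_lit 0x14f88b0e4ff5) (N (nat_lit 0x14e5c1d8db35) (L (nat_lit 0xb70)) (L (nat_lit 0x1a42))) (N (nat_lit 0x14f91efb8575) (L (nat_lit 0x1352)) (L (nat_lit 0x1c42))))) (N (nat_lit 0x150882e49575) (N (nat_lit 0x14fbfec48ff5) (N (nat_lit 0x14fb02881675) (L (nat_lit 0x1362)) (L (nat_lit 0x1c47))) (N (nat_lit 0x15082605ad75) (L (nat_lit 0x212b)) (L (nat_lit 0xb7b)))) (N (nat_lit 0x1510cd39eff1) (N (nat_lit 0x150891b136f5) (L (nat_lit 0x1e5f)) (L (nat_lit 0x1034))) (N (nat_lit 0x1526f6385161) (L (nat_lit 0x2010)) (N (nat_lit 0x152d088750b5) (L (nat_lit 0x547)) (L (nat_lit 0xb43))))))) (N (nat_lit 0x15450c3855c5) (N (nat_lit 0x15435a68fe85) (N (nat_lit 0x152ddd974b35) (N (nat_lit 0x152d5b8efcb5) (L (nat_lit 0x1e40)) (L (nat_lit 0x1a33))) (N (nat_lit 0x1542ff29d2c5)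 (L (nat_lit 0x231d)) (L (nat_lit 0x1106)))) (N (nat_lit 0x154444678ec5) (N (nat_lit 0x1543f3e760c5) (L (nat_lit 0x130e)) (L (nat_lit 0x140b))) (N (nat_lit 0x154470ed2785) (L (nat_lit 0x1707)) (N (nat_lit 0x15449eb64a85) (L (nat_lit 0x190b)) (L (nat_lit 0x180d)))))) (N (nat_lit 0x1552795639c5) (N (nat_lit 0x154be9f17c45) (N (nat_lit 0x15473be3d95d) (L (nat_lit 0x1a0a)) (L (nat_lit 0x1445))) (N (nat_lit 0x154c175eb105) (L (nat_lit 0xa0b)) (L (nat_lit 0xd05)))) (N (nat_lit 0x1560f6ef7385) (N (nat_lit 0x1560e13206c5) (L (nat_lit 0x90f)) (L (nat_lit 0xa08))) (N (nat_lit 0x156141f12ec5) (L (nat_lit 0x130c)) (N (nat_lit 0x1569db1fd045) (L (nat_lit 0x150a)) (L (nat_lit 0x605)))))))) (N (nat_lit 0x15ee9777cb35) (N (nat_lit 0x15a469bed9b5) (N (nat_lit 0x157c644b8e85) (N (nat_lit 0x157c3e1dfac5) (N (nat_lit 0x156a3dc77045) (L (nat_lit 0xb0f)) (L (nat_lit 0xc0a))) (N (nat_lit 0x157c47556485) (L (nat_lit 0x909)) (L (nat_lit 0x130f))))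 (N (nat_lit 0x1588bd87c889) (N (nat_lit 0x157ca2bb36c5) (L (nat_lit 0x1009)) (L (nat_lit 0x140c))) (N (nat_lit 0x1593f6e6a035) (L (nat_lit 0x200f)) (N (nat_lit 0x159d18672035) (L (nat_lit 0x1534)) (L (nat_lit 0x1442)))))) (N (nat_lit 0x15c02904b175) (N (nat_lit 0x15b8ed328675) (N (nat_lit 0x15a5183028b5) (L (nat_lit 0xc35)) (L (nat_lit 0x1f41))) (N (nat_lit 0x15b98285d7f5) (L (nat_lit 0x153c)) (L (nat_lit 0x212d)))) (N (nat_lit 0x15d9781dc961) (N (nat_lit 0x15d06758cd61) (L (nat_lit 0x1435)) (L (nat_lit 0xa65))) (N (nat_lit 0x15df35bb7ee1) (L (nat_lit 0x97d)) (N (nat_lit 0x15ee434de335) (L (nat_lit 0x620)) (L (nat_lit 0xc1b))))))) (N (nat_lit 0x162850d4bb45) (N (nat_lit 0x16179b163005) (N (nat_lit 0x16012d7b1e5d) (N (nat_lit 0x15ef434e6f35) (L (nat_lit 0x1f2b)) (L (nat_lit 0x241a))) (N (nat_lit 0x16173ee43845) (L (nat_lit 0x1b39)) (L (nat_lit 0x1908)))) (N (nat_lit 0x1618ee8d1c05) (N (nat_lit 0x161893481445) (L (nat_lit 0x1c0a))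 (L (nat_lit 0x1d05))) (N (nat_lit 0x1619a137f245) (L (nat_lit 0x1e0f)) (N (nat_lit 0x161f291c71c5) (L (nat_lit 0x1f0c)) (L (nat_lit 0x1808)))))) (N (nat_lit 0x1651d2510c45) (N (nat_lit 0x16340e8fed05) (N (nat_lit 0x1633e10f7845) (L (nat_lit 0xb0d)) (L (nat_lit 0x180b))) (N (nat_lit 0x163a8609f5c5) (L (nat_lit 0x1c0b)) (L (nat_lit 0x1205)))) (N (nat_lit 0x1651f8e37c05) (N (nat_lit 0x1651e87f6505) (L (nat_lit 0xb09)) (L (nat_lit 0x1508))) (N (nat_lit 0x165252bb4f45) (L (nat_lit 0x1409)) (N (nat_lit 0x165ef12119b5) (L (nat_lit 0x1b0a)) (L (nat_lit 0x1b36)))))))))) (N (nat_lit 0x1d5bd1d11f09) (N (nat_lit 0x1ad6c4aea6dd) (N (nat_lit 0x1753f85bdae1) (N (nat_lit 0x170c036a89c5) (N (nat_lit 0x16cf928c3f5d) (N (nat_lit 0x16940ad2f2e1) (N (nat_lit 0x16846f954561) (L (nat_lit 0x1b25)) (L (nat_lit 0x136b))) (N (nat_lit 0x169702b32561) (L (nat_lit 0xb76)) (L (nat_lit 0x1040)))) (N (nat_lit 0x16f771231345) (N (nat_lit 0x16ee0cccbdc5) (L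 (nat_lit 0x2012)) (L (nat_lit 0x2203))) (N (nat_lit 0x170a3bd6b245) (L (nat_lit 0x1e0d)) (L (nat_lit 0xc08))))) (N (nat_lit 0x173b2b2bdead) (N (nat_lit 0x1714135d0345) (N (nat_lit 0x170c60b10d85) (L (nat_lit 0x1e09)) (L (nat_lit 0x2108))) (N (nat_lit 0x172d70b2cb35) (L (nat_lit 0x1a07)) (L (nat_lit 0x2018)))) (N (nat_lit 0x1748129f5585) (N (nat_lit 0x1747eb7749c5) (L (nat_lit 0xe07)) (L (nat_lit 0xc05))) (N (nat_lit 0x17488c0327c5) (L (nat_lit 0x1b06)) (N (nat_lit 0x174a7c0186e1) (L (nat_lit 0x2005)) (L (nat_lit 0x1538))))))) (N (nat_lit 0x199fcc7bc2dd) (N (nat_lit 0x180e25a4ccc5) (N (nat_lit 0x17f02ede30c5) (N (nat_lit 0x175aef80d061) (L (nat_lit 0x1447)) (L (nat_lit 0xc2f))) (N (nat_lit 0x17f9c9c94645) (L (nat_lit 0x2305)) (L (nat_lit 0x1f0a)))) (N (nat_lit 0x188172b8c0d9) (N (nat_lit 0x181d61be8461) (L (nat_lit 0x1f07)) (L (nat_lit 0x1b3b))) (N (nat_lit 0x18f3ccd2b9e1) (L (nat_lit 0xe0a)) (N (nat_lit 0x18f7d545dbc5) (L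 (nat_lit 0x2013)) (L (nat_lit 0x2405)))))) (N (nat_lit 0x1a332afcf59d) (N (nat_lit 0x19f555074005) (N (nat_lit 0x199fcc7d019d) (L (nat_lit 0x311)) (L (nat_lit 0xf0c))) (N (nat_lit 0x1a050003bec5) (L (nat_lit 0xe0c)) (L (nat_lit 0x2503)))) (N (nat_lit 0x1ac80556a85d) (N (nat_lit 0x1a3336b7a2dd) (L (nat_lit 0x91a)) (L (nat_lit 0x1316))) (N (nat_lit 0x1ac82fc33c1d) (L (nat_lit 0x1812)) (N (nat_lit 0x1acd88aa86dd) (L (nat_lit 0x1c0f)) (L (nat_lit 0x120a)))))))) (N (nat_lit 0x1c4092f42a09) (N (nat_lit 0x1b96ed2f6831) (N (nat_lit 0x1b6d1ae0d99d) (N (nat_lit 0x1b0235ddce09) (N (nat_lit 0x1ad6e4d3de9d) (L (nat_lit 0xb18)) (L (nat_lit 0x150e))) (N (nat_lit 0x1b025c806809) (L (nat_lit 0x321)) (L (nat_lit 0xf13)))) (N (nat_lit 0x1b737529f01d) (N (nat_lit 0x1b6d721bffdd) (L (nat_lit 0x1e1a)) (L (nat_lit 0x210c))) (N (nat_lit 0x1b8aa682f29d) (L (nat_lit 0x1a0d)) (N (nat_lit 0x1b8ae405d0dd) (L (nat_lit 0xc0e)) (L (nat_lit 0x1b14))))))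 (N (nat_lit 0x1bba72128389) (N (nat_lit 0x1b994fb079c9) (N (nat_lit 0x1b98eb0620c9) (L (nat_lit 0xe0e)) (L (nat_lit 0x951))) (N (nat_lit 0x1bba2bc7a809) (L (nat_lit 0x132f)) (L (nat_lit 0x929)))) (N (nat_lit 0x1c222558a7dd) (N (nat_lit 0x1c1add87f95d) (L (nat_lit 0x1320)) (L (nat_lit 0x2309))) (N (nat_lit 0x1c29a9cd83dd) (L (nat_lit 0x1f10)) (N (nat_lit 0x1c3fdb5ef209) (L (nat_lit 0x1f15)) (L (nat_lit 0xb4b))))))) (N (nat_lit 0x1cf8337f94c9) (N (nat_lit 0x1c7d62a6fc35) (N (nat_lit 0x1c5300459149) (N (nat_lit 0x1c525cc87ac9) (L (nat_lit 0x1521)) (L (nat_lit 0x1826))) (N (nat_lit 0x1c59c3c649c9) (L (nat_lit 0x1c19)) (L (nat_lit 0x1212)))) (N (nat_lit 0x1c82e9c5fc89) (N (nat_lit 0x1c827a631389) (L (nat_lit 0x335)) (L (nat_lit 0xb22))) (N (nat_lit 0x1cdaacdec39d) (L (nat_lit 0x1513)) (N (nat_lit 0x1cf713da5dc9) (L (nat_lit 0x2408)) (L (nat_lit 0xc20)))))) (N (nat_lit 0x1d1c273c6649) (N (nat_lit 0x1cfbe3f7cd89) (N (nat_lit 0x1cfac8f9cc09)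 (L (nat_lit 0x1b2c)) (L (nat_lit 0x1e48))) (N (nat_lit 0x1d0306ff8709) (L (nat_lit 0x2118)) (L (nat_lit 0x1a25)))) (N (nat_lit 0x1d246532f149) (N (nat_lit 0x1d1d18679649) (L (nat_lit 0x1e29)) (L (nat_lit 0x2111))) (N (nat_lit 0x1d3a9303bd35) (L (nat_lit 0x1a19)) (N (nat_lit 0x1d5b2f60dc89) (L (nat_lit 0x960)) (L (nat_lit 0xc11))))))))) (N (nat_lit 0x23c50eed3c31) (N (nat_lit 0x1fa3f1db2735) (N (nat_lit 0x1e02bcfdea35) (N (nat_lit 0x1dcf2452ae89) (N (nat_lit 0x1d9dbcc87ddd) (N (nat_lit 0x1d665797655d) (L (nat_lit 0x1b18)) (L (nat_lit 0xe10))) (N (nat_lit 0x1dbc92679ec9) (L (nat_lit 0x2504)) (L (nat_lit 0x1f32)))) (N (nat_lit 0x1df93f617e35) (N (nat_lit 0x1dd84feb6589) (L (nat_lit 0x2312)) (L (nat_lit 0x1f20))) (N (nat_lit 0x1dff6d038649) (L (nat_lit 0x1836)) (L (nat_lit 0x1f19))))) (N (nat_lit 0x1ec8448c60b5) (N (nat_lit 0x1e942e6c2949) (N (nat_lit 0x1e081c201fb5) (L (nat_lit 0x121b)) (L (nat_lit 0xb55))) (N (nat_lit 0x1eb5aab1c689)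 (L (nat_lit 0x2414)) (L (nat_lit 0x240c)))) (N (nat_lit 0x1ee60bacefb5) (N (nat_lit 0x1ed2994c48b5) (L (nat_lit 0x1e52)) (L (nat_lit 0x1a31))) (N (nat_lit 0x1f63b28b6389) (L (nat_lit 0xc24)) (N (nat_lit 0x1f7df5b87949) (L (nat_lit 0xe12)) (L (nat_lit 0x2506))))))) (N (nat_lit 0x2296d3ed5d71) (N (nat_lit 0x20e625e5d771) (N (nat_lit 0x1fb2dc24d4b5) (N (nat_lit 0x1faf346acb35) (L (nat_lit 0x231c)) (L (nat_lit 0x1f29))) (N (nat_lit 0x2091caf59335) (L (nat_lit 0x1f37)) (L (nat_lit 0x2419)))) (N (nat_lit 0x2182e62ab735) (N (nat_lit 0x20e625e71631) (L (nat_lit 4)) (L (nat_lit 0x108))) (N (nat_lit 0x21bd4bc15a71) (L (nat_lit 0x2508)) (N (nat_lit 0x21bd56cc1031) (L (nat_lit 0x107)) (L (nat_lit 0x20d)))))) (N (nat_lit 0x22b24c029a31) (N (nat_lit 0x229e327c1ef1) (N (nat_lit 0x229703e06a31) (L (nat_lit 0x408)) (L (nat_lit 0x50e))) (N (nat_lit 0x22b22fc90971) (L (nat_lit 0x20c)) (L (nat_lit 0x20a)))) (N (nat_lit 0x238e7caa9431) (N (nat_lit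 0x238e1a458c71) (L (nat_lit 0x30c)) (L (nat_lit 0x80f))) (N (nat_lit 0x2396cc4389f1) (L (nat_lit 0x915)) (N (nat_lit 0x23c4db1d6c71) (L (nat_lit 0x50d)) (L (nat_lit 0x308)))))))) (N (nat_lit 0x26d27caca471) (N (nat_lit 0x24f557210b71) (N (nat_lit 0x2491c86194f1) (N (nat_lit 0x2487c2ee3b71) (N (nat_lit 0x246641c778dd) (L (nat_lit 0x70a)) (L (nat_lit 0x70e))) (N (nat_lit 0x2488806c9e31) (L (nat_lit 0x1109)) (L (nat_lit 0x1208)))) (N (nat_lit 0x24a327ea6f71) (N (nat_lit 0x249bec696e71) (L (nat_lit 0xa11)) (L (nat_lit 0x608))) (N (nat_lit 0x24a3ca8d1631) (L (nat_lit 0xf09)) (N (nat_lit 0x24ad2d5938f1) (L (nat_lit 0x100d)) (L (nat_lit 0x914)))))) (N (nat_lit 0x25b60353a971) (N (nat_lit 0x251428a2db9d) (N (nat_lit 0x24f5a94e7e31) (L (nat_lit 0x705)) (L (nat_lit 0xe05))) (N (nat_lit 0x25aa8bd163f1) (L (nat_lit 0x1011)) (L (nat_lit 0x1311)))) (N (nat_lit 0x25e15f1fb3f1) (N (nat_lit 0x25d25096bcdd) (L (nat_lit 0xb13)) (L (nat_lit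 0x1411))) (N (nat_lit 0x260466da9009) (L (nat_lit 0x100c)) (N (nat_lit 0x26a0cba5389d) (L (nat_lit 0x720)) (L (nat_lit 0x1b0f))))))) (N (nat_lit 0x29b17906d109) (N (nat_lit 0x277fac126add) (N (nat_lit 0x26df664cf5f1) (N (nat_lit 0x26d6f9871a09) (L (nat_lit 0x150b)) (L (nat_lit 0x101d))) (N (nat_lit 0x26edeaf74071) (L (nat_lit 0xc0b)) (L (nat_lit 0x140d)))) (N (nat_lit 0x281b03fe68f1) (N (nat_lit 0x27b9f6313589) (L (nat_lit 0x2008)) (L (nat_lit 0x1419))) (N (nat_lit 0x28ad6f99ae89) (L (nat_lit 0x1b0b)) (N (nat_lit 0x2968b3cde571) (L (nat_lit 0x1b17)) (L (nat_lit 0x2006)))))) (N (nat_lit 0x35a3c9e5089d) (N (nat_lit 0x33739350809d) (N (nat_lit 0x3121d49b94dd) (L (nat_lit 0x200a)) (L (nat_lit 0xe08))) (N (nat_lit 0x347cccc6469d) (L (nat_lit 5)) (L (nat_lit 0x109)))) (N (nat_lit 0x384b46b2209d) (N (nat_lit 0x36e898816e9d) (L (nat_lit 0x20e)) (L (nat_lit 0x30d))) (N (nat_lit 0x39cbe2edc69d) (L (nat_lit 0x70b)) (N (nat_lit 0x4a302778ecc9)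 (L (nat_lit 0xe06)) (L (nat_lit 6))))))))))))) St.N St.L
noncomputable def tHU : St := (fun (N : ℕ → St → St → St) (L : ℕ → St) => (N (nat_lit 0x6238dff6ab5) (N (nat_lit 0x24eee2592ed) tHU_0 tHU_1) (N (nat_lit 0xc267f374e99) tHU_2 tHU_3))) St.N St.L
noncomputable def tHE_0 : St := (fun (N : ℕ → St → St → St) (L : ℕ → St) => (N (nat_lit 0x489d4744f0e) (N (nat_lit 0x14099544baa) (N (nat_lit 0x8902a056) (N (nat_lit 0xb984e42) (N (nat_lit 0xc3a126) (N (nat_lit 0x22f212) (N (nat_lit 0x27e7a) (N (nat_lit 0x13f7e) (N (nat_lit 0xd2) (L (nat_lit 0x36)) (N (nat_lit 0xfa) (L (nat_lit 0)) (L (nat_lit 0xffff)))) (N (nat_lit 0x13fba) (N (nat_lit 0x13f92) (L (nat_lit 0x156)) (L (nat_lit 0x100))) (N (nat_lit 0x27e52) (L (nat_lit 0xffff)) (L (nat_lit 0x400))))) (N (nat_lit 0x1933ea) (N (nat_lit 0xf5cd2) (N (nat_lit 0xf5cbe) (L (nat_lit 0xffff)) (L (nat_lit 0x25d))) (N (nat_lit 0xf5cfa) (L (nat_lit 0x200)) (L (nat_lit 0xffff)))) (N (nat_lit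 0x1a72aa) (N (nat_lit 0x193426) (L (nat_lit 0x21)) (L (nat_lit 0xffff))) (N (nat_lit 0x1a72e6) (L (nat_lit 0x148)) (L (nat_lit 0xffff)))))) (N (nat_lit 0x80b9ea) (N (nat_lit 0x597492) (N (nat_lit 0x22f23a) (L (nat_lit 0x500)) (N (nat_lit 0x289026) (L (nat_lit 0xffff)) (L (nat_lit 0xffff)))) (N (nat_lit 0x66d5d2) (N (nat_lit 0x5974ba) (L (nat_lit 0x300)) (L (nat_lit 0xffff))) (N (nat_lit 0x66d5fa) (L (nat_lit 0x600)) (L (nat_lit 0xffff))))) (N (nat_lit 0x992a52) (N (nat_lit 0x81f8e6) (N (nat_lit 0x80ba26) (L (nat_lit 0x146)) (L (nat_lit 0xffff))) (N (nat_lit 0x992a16) (L (nat_lit 0xffff)) (L (nat_lit 0x38)))) (N (nat_lit 0x9d57aa) (N (nat_lit 0x9a6912) (L (nat_lit 0xffff)) (L (nat_lit 0xffff))) (N (nat_lit 0x9d57e6) (L (nat_lit 0x264)) (L (nat_lit 0xffff))))))) (N (nat_lit 0x2ae25d2) (N (nat_lit 0x1e50b66) (N (nat_lit 0x1310752) (N (nat_lit 0xf97426) (L (nat_lit 0xffff)) (N (nat_lit 0x1310716) (L (nat_lit 0xffff)) (L (nat_lit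 0x14c)))) (N (nat_lit 0x1bf716a) (N (nat_lit 0x15b6d12) (L (nat_lit 0xffff)) (L (nat_lit 0xffff))) (N (nat_lit 0x1bf71a6) (L (nat_lit 0x260)) (L (nat_lit 0xffff))))) (N (nat_lit 0x26fd112) (N (nat_lit 0x26e3f42) (N (nat_lit 0x1f16452) (L (nat_lit 0xffff)) (L (nat_lit 0xffff))) (N (nat_lit 0x26e3f7e) (L (nat_lit 0x39)) (L (nat_lit 0xffff)))) (N (nat_lit 0x26ff052) (N (nat_lit 0x26ff016) (L (nat_lit 0xffff)) (L (nat_lit 0x280))) (N (nat_lit 0x2701ba6) (L (nat_lit 0xffff)) (L (nat_lit 0xffff)))))) (N (nat_lit 0x7d4efaa) (N (nat_lit 0x4c326a6) (N (nat_lit 0x339f77e) (N (nat_lit 0x3096112) (L (nat_lit 0xffff)) (L (nat_lit 0xffff))) (N (nat_lit 0x456cad2) (L (nat_lit 0xffff)) (L (nat_lit 0xffff)))) (N (nat_lit 0x7b7e952) (N (nat_lit 0x4d80b7e) (L (nat_lit 0xffff)) (L (nat_lit 0xffff))) (N (nat_lit 0x7bee37e) (L (nat_lit 0xffff)) (L (nat_lit 0xffff))))) (N (nat_lit 0xb0063be) (N (nat_lit 0xaff24fe) (N (nat_lit 0xaff24ea) (L (nat_lit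 0xffff)) (L (nat_lit 0x36))) (N (nat_lit 0xb0063aa) (L (nat_lit 5)) (L (nat_lit 0x156)))) (N (nat_lit 0xb185816) (N (nat_lit 0xb0e80fe) (L (nat_lit 0x10f)) (L (nat_lit 0x21f))) (N (nat_lit 0xb7fde16) (L (nat_lit 0x21)) (L (nat_lit 0x146)))))))) (N (nat_lit 0x3a971eee) (N (nat_lit 0x2a95d83e) (N (nat_lit 0x17476ffe) (N (nat_lit 0x168b77be) (N (nat_lit 0x168a38ea) (L (nat_lit 0x38)) (N (nat_lit 0x168a38fe) (L (nat_lit 0x156)) (L (nat_lit 0x106)))) (N (nat_lit 0x16d426aa) (N (nat_lit 0x16a36c16) (L (nat_lit 0x403)) (L (nat_lit 0x148))) (N (nat_lit 0x16d426be) (L (nat_lit 0x25d)) (L (nat_lit 0x20e))))) (N (nat_lit 0x1925a642) (N (nat_lit 0x179e0416) (N (nat_lit 0x1763d2fe) (L (nat_lit 0x50d)) (L (nat_lit 0x308))) (N (nat_lit 0x18865e16) (L (nat_lit 0x146)) (L (nat_lit 0x264)))) (N (nat_lit 0x2a3cae6a) (N (nat_lit 0x192e8516) (L (nat_lit 0x14c)) (L (nat_lit 0x260))) (N (nat_lit 0x2a3cae7e) (L (nat_lit 0x25d)) (L (nat_lit 0x208))))))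 (N (nat_lit 0x3002ef42) (N (nat_lit 0x2d8dd416) (N (nat_lit 0x2b74f316) (L (nat_lit 0x505)) (N (nat_lit 0x2c0a787e) (L (nat_lit 0x264)) (L (nat_lit 0x603)))) (N (nat_lit 0x2d8f12ea) (N (nat_lit 0x2d8dd42a) (L (nat_lit 0x36)) (L (nat_lit 0xa))) (N (nat_lit 0x2da70742) (L (nat_lit 0x122)) (L (nat_lit 0x21))))) (N (nat_lit 0x35e0eb7a) (N (nat_lit 0x30dae4ce) (N (nat_lit 0x30d9a60e) (L (nat_lit 0x280)) (L (nat_lit 0x21))) (N (nat_lit 0x336e727a) (L (nat_lit 0x148)) (L (nat_lit 0x38)))) (N (nat_lit 0x3a87c2ee) (N (nat_lit 0x376e56e6) (L (nat_lit 0x14c)) (L (nat_lit 0x39))) (N (nat_lit 0x3a8901ae) (L (nat_lit 0x36)) (L (nat_lit 0x156))))))) (N (nat_lit 0x5d9186ea) (N (nat_lit 0x54833fce) (N (nat_lit 0x40d2a4ea) (N (nat_lit 0x40626f16) (L (nat_lit 0x25d)) (N (nat_lit 0x40626f2a) (L (nat_lit 0x156)) (L (nat_lit 0x117)))) (N (nat_lit 0x49ce517e) (N (nat_lit 0x41eb1f42) (L (nat_lit 0x22c)) (L (nat_lit 0x146))) (N (nat_lit 0x5414d88e)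 (L (nat_lit 0x304)) (L (nat_lit 0x146))))) (N (nat_lit 0x5c43f616) (N (nat_lit 0x5731dffa) (N (nat_lit 0x559b8a2a) (L (nat_lit 0x264)) (L (nat_lit 0x409))) (N (nat_lit 0x573f96ea) (L (nat_lit 0x14c)) (L (nat_lit 0x51d)))) (N (nat_lit 0x5c667baa) (N (nat_lit 0x5c43f62a) (L (nat_lit 0x25d)) (L (nat_lit 0x217))) (N (nat_lit 0x5cac15fa) (L (nat_lit 0x227)) (L (nat_lit 0x280)))))) (N (nat_lit 0x77c2fa0e) (N (nat_lit 0x6edaba42) (N (nat_lit 0x65411b7a) (N (nat_lit 0x6094d842) (L (nat_lit 0x32f)) (L (nat_lit 0x260))) (N (nat_lit 0x682c09e6) (L (nat_lit 0x21)) (L (nat_lit 0x38)))) (N (nat_lit 0x75f3a6ae) (N (nat_lit 0x6edaba56) (L (nat_lit 0x36)) (L (nat_lit 0x11))) (N (nat_lit 0x75f4e56e) (L (nat_lit 0x21)) (L (nat_lit 0x148))))) (N (nat_lit 0x7df2e27a) (N (nat_lit 0x7ac162ee) (N (nat_lit 0x78b6ecce) (L (nat_lit 0x146)) (L (nat_lit 0x264))) (N (nat_lit 0x7cc8beaa) (L (nat_lit 0x260)) (L (nat_lit 0x515)))) (N (nat_lit 0x85b7e1ae)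 (N (nat_lit 0x852f95e6) (L (nat_lit 0x148)) (L (nat_lit 0x14c))) (N (nat_lit 0x85b9206e) (L (nat_lit 0x36)) (L (nat_lit 0x156))))))))) (N (nat_lit 0xee01bf03ae) (N (nat_lit 0x15868046e) (N (nat_lit 0xdad74856) (N (nat_lit 0xb87cc0e6) (N (nat_lit 0xa1b6210e) (N (nat_lit 0x893cf78e) (L (nat_lit 0x128)) (N (nat_lit 0x9217f8fa) (L (nat_lit 0x260)) (L (nat_lit 0x146)))) (N (nat_lit 0xababab2a) (N (nat_lit 0xa274f3ce) (L (nat_lit 0x156)) (L (nat_lit 0x25d))) (N (nat_lit 0xacafc256) (L (nat_lit 0x607)) (L (nat_lit 0x233))))) (N (nat_lit 0xcd83884a) (N (nat_lit 0xc64a209e) (N (nat_lit 0xb8e54cfa) (L (nat_lit 0x21)) (L (nat_lit 0x264))) (N (nat_lit 0xc82de5ee) (L (nat_lit 0x38)) (L (nat_lit 0x25d)))) (N (nat_lit 0xd536e0ce) (N (nat_lit 0xd26a6d6e) (L (nat_lit 0x39)) (L (nat_lit 0x21))) (N (nat_lit 0xdacbb1ae) (L (nat_lit 0x146)) (L (nat_lit 0x38)))))) (N (nat_lit 0x105b3d46e) (N (nat_lit 0xe1af1e6e) (N (nat_lit 0xdce1550e) (L (nat_lit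 0x315)) (N (nat_lit 0xe026a382) (L (nat_lit 0x14c)) (L (nat_lit 0x16)))) (N (nat_lit 0xf95ee62e) (N (nat_lit 0xf3caccce) (L (nat_lit 0x280)) (L (nat_lit 0x148))) (N (nat_lit 0x101204b1e) (L (nat_lit 0x264)) (L (nat_lit 0x14c))))) (N (nat_lit 0x12c83394a) (N (nat_lit 0x10b60b6ce) (N (nat_lit 0x107535fae) (L (nat_lit 0x146)) (L (nat_lit 0x36))) (N (nat_lit 0x12ab11f0e) (L (nat_lit 0x260)) (L (nat_lit 0x156)))) (N (nat_lit 0x14adb446e) (N (nat_lit 0x1364f72ce) (L (nat_lit 0x38)) (L (nat_lit 0x264))) (N (nat_lit 0x153edb81e) (L (nat_lit 0x38)) (L (nat_lit 0x280))))))) (N (nat_lit 0xed320baa16) (N (nat_lit 0x1e3a1a3ee) (N (nat_lit 0x1886a5b6e) (N (nat_lit 0x165a4776e) (L (nat_lit 0x25d)) (N (nat_lit 0x17be23aee) (L (nat_lit 0x21)) (L (nat_lit 0x39)))) (N (nat_lit 0x1cd9a1a6e) (N (nat_lit 0x1a2aa0e6e) (L (nat_lit 0x14c)) (L (nat_lit 0x146))) (N (nat_lit 0x1dcb4276e) (L (nat_lit 0x39)) (L (nat_lit 0x280))))) (N (nat_lit 0xed270c85ea)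 (N (nat_lit 0xed26f352be) (N (nat_lit 0x1ee296a6e) (L (nat_lit 0x36)) (L (nat_lit 0x260))) (N (nat_lit 0xed26f4917e) (L (nat_lit 0x144)) (L (nat_lit 0x41c)))) (N (nat_lit 0xed278c7c16) (N (nat_lit 0xed27740bea) (L (nat_lit 0x158)) (L (nat_lit 0x41d))) (N (nat_lit 0xed31f276ea) (L (nat_lit 0x14d)) (L (nat_lit 0x144)))))) (N (nat_lit 0xed7b082a8e) (N (nat_lit 0xed57ccf80e) (N (nat_lit 0xed3e915616) (N (nat_lit 0xed3d7d8aea) (L (nat_lit 0x158)) (L (nat_lit 0x41c))) (N (nat_lit 0xed54812616) (L (nat_lit 0x41d)) (L (nat_lit 0x144)))) (N (nat_lit 0xed617b14ee) (N (nat_lit 0xed5a61c47a) (L (nat_lit 0x158)) (L (nat_lit 0x14d))) (N (nat_lit 0xed617c53ae) (L (nat_lit 0x144)) (L (nat_lit 0x41c))))) (N (nat_lit 0xedacab33ae) (N (nat_lit 0xed9ce6f8ae) (N (nat_lit 0xed8c346d7a) (L (nat_lit 0x41d)) (L (nat_lit 0x158))) (N (nat_lit 0xed9eb64c0e) (L (nat_lit 0x158)) (L (nat_lit 0x41d)))) (N (nat_lit 0xeded3d729e) (N (nat_lit 0xedc8a9730e)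 (L (nat_lit 0x144)) (L (nat_lit 0x41c))) (N (nat_lit 0xedf95dbf6e) (L (nat_lit 0x14d)) (L (nat_lit 0x158)))))))) (N (nat_lit 0x110bff074fa) (N (nat_lit 0x10ffef085ae) (N (nat_lit 0x10fcf9927ea) (N (nat_lit 0x10fc468c37e) (N (nat_lit 0xee2ca7266e) (L (nat_lit 0x14d)) (N (nat_lit 0xee2e46b1ae) (L (nat_lit 0x41d)) (L (nat_lit 0x144)))) (N (nat_lit 0x10fc91420be) (N (nat_lit 0x10fc481f6aa) (L (nat_lit 0x25c)) (L (nat_lit 0x268))) (N (nat_lit 0x10fcf67e7aa) (L (nat_lit 0x543)) (L (nat_lit 0x25c))))) (N (nat_lit 0x10fe6908baa) (N (nat_lit 0x10fda984c16) (N (nat_lit 0x10fd5f3af6a) (L (nat_lit 0x263)) (L (nat_lit 0x53b))) (N (nat_lit 0x10fe59ad516) (L (nat_lit 0x263)) (L (nat_lit 0x26e)))) (N (nat_lit 0x10ffb6366ea) (N (nat_lit 0x10ff54268ce) (L (nat_lit 0x545)) (L (nat_lit 0x268))) (N (nat_lit 0x10ffb7c9a16) (L (nat_lit 0x25c)) (L (nat_lit 0x268)))))) (N (nat_lit 0x1104a20a46e) (N (nat_lit 0x1101a4ab97a) (N (nat_lit 0x110039be2ee)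 (L (nat_lit 0x25c)) (N (nat_lit 0x1101512ac6a) (L (nat_lit 0x543)) (L (nat_lit 0x543)))) (N (nat_lit 0x1103a5c696e) (N (nat_lit 0x11033396116) (L (nat_lit 0x26e)) (L (nat_lit 0x545))) (N (nat_lit 0x11046b5f48e) (L (nat_lit 0x268)) (L (nat_lit 0x263))))) (N (nat_lit 0x11073e35aaa) (N (nat_lit 0x1105f245bfa) (N (nat_lit 0x1105eaa20ce) (L (nat_lit 0x25c)) (L (nat_lit 0x545))) (N (nat_lit 0x1106072fd16) (L (nat_lit 0x26e)) (L (nat_lit 0x25c)))) (N (nat_lit 0x1108259738e) (N (nat_lit 0x110816d3316) (L (nat_lit 0x543)) (L (nat_lit 0x53b))) (N (nat_lit 0x1109e03707a) (L (nat_lit 0x53b)) (L (nat_lit 0x268))))))) (N (nat_lit 0x1365b6c77aa) (N (nat_lit 0x11193f2e40e) (N (nat_lit 0x1113b618b0e) (N (nat_lit 0x110ff8427ce) (L (nat_lit 0x263)) (N (nat_lit 0x1111aa383ce) (L (nat_lit 0x543)) (L (nat_lit 0x545)))) (N (nat_lit 0x11167d61fee) (N (nat_lit 0x111444a271e) (L (nat_lit 0x25c)) (L (nat_lit 0x26e))) (N (nat_lit 0x1118d7636ce) (L (nat_lit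 0x543)) (L (nat_lit 0x268))))) (N (nat_lit 0x1124bb6890e) (N (nat_lit 0x111f166cace) (N (nat_lit 0x1119c0d1cee) (L (nat_lit 0x263)) (L (nat_lit 0x53b))) (N (nat_lit 0x111f2e61cce) (L (nat_lit 0x263)) (L (nat_lit 0x545)))) (N (nat_lit 0x112c0b6e0ce) (N (nat_lit 0x1125a853f0e) (L (nat_lit 0x25c)) (L (nat_lit 0x26e))) (N (nat_lit 0x1364faf02be) (L (nat_lit 0x53b)) (L (nat_lit 0x324)))))) (N (nat_lit 0x137d21cbfce) (N (nat_lit 0x13695484a16) (N (nat_lit 0x1368a36c4ee) (N (nat_lit 0x136884506aa) (L (nat_lit 0x328)) (L (nat_lit 0x324))) (N (nat_lit 0x1369526b816) (L (nat_lit 0x324)) (L (nat_lit 0x328)))) (N (nat_lit 0x137146cadfa) (N (nat_lit 0x136d43a9dce) (L (nat_lit 0x32b)) (L (nat_lit 0x328))) (N (nat_lit 0x1376c1bd016) (L (nat_lit 0x32b)) (L (nat_lit 0x324))))) (N (nat_lit 0x139929b582e) (N (nat_lit 0x13831eb38ce) (N (nat_lit 0x137d703a4fa) (L (nat_lit 0x324)) (L (nat_lit 0x328))) (N (nat_lit 0x138ad2c4e1e) (L (nat_lit 0x328))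 (L (nat_lit 0x32b)))) (N (nat_lit 0x13ad180106e) (N (nat_lit 0x13a84dbf66e) (L (nat_lit 0x328)) (L (nat_lit 0x324))) (N (nat_lit 0x14099530cea) (L (nat_lit 0x32b)) (L (nat_lit 0x145)))))))))) (N (nat_lit 0x2504a9ddb82) (N (nat_lit 0x20ddaafcf16) (N (nat_lit 0x16ceb150742) (N (nat_lit 0x142f2df66e6) (N (nat_lit 0x140eef5e042) (N (nat_lit 0x140c33a9f16) (N (nat_lit 0x140a4523116) (L (nat_lit 0x41a)) (N (nat_lit 0x140afdd4516) (L (nat_lit 0x145)) (L (nat_lit 0x41a)))) (N (nat_lit 0x140ce39c342) (N (nat_lit 0x140c6e0e042) (L (nat_lit 0x14a)) (L (nat_lit 0x145))) (N (nat_lit 0x140eabd7c16) (L (nat_lit 0x14a)) (L (nat_lit 0x41e))))) (N (nat_lit 0x142ab68242e) (N (nat_lit 0x1421a11792e) (N (nat_lit 0x14102b21b42) (L (nat_lit 0x14e)) (L (nat_lit 0x41e))) (N (nat_lit 0x1421a12b7ee) (L (nat_lit 0x145)) (L (nat_lit 0x41a)))) (N (nat_lit 0x142d468c78e) (N (nat_lit 0x142be21cf7a) (L (nat_lit 0x14a)) (L (nat_lit 0x14a))) (N (nat_lit 0x142ec07dfe6)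 (L (nat_lit 0x41e)) (L (nat_lit 0x14e)))))) (N (nat_lit 0x145415009ee) (N (nat_lit 0x143797bdd6e) (N (nat_lit 0x14359e47cfa) (L (nat_lit 0x14a)) (N (nat_lit 0x14369c4ffee) (L (nat_lit 0x41e)) (L (nat_lit 0x145)))) (N (nat_lit 0x1440eb476ee) (N (nat_lit 0x1438b255f4e) (L (nat_lit 0x14e)) (L (nat_lit 0x41a))) (N (nat_lit 0x144732e8dee) (L (nat_lit 0x14a)) (L (nat_lit 0x41e))))) (N (nat_lit 0x16c8e84b516) (N (nat_lit 0x16c838590ea) (N (nat_lit 0x1454a2ef94a) (L (nat_lit 0x145)) (L (nat_lit 0x14e))) (N (nat_lit 0x16c88bdfeaa) (L (nat_lit 0x25f)) (L (nat_lit 0x544)))) (N (nat_lit 0x16cbe2b8916) (N (nat_lit 0x16caf97ba16) (L (nat_lit 0x25f)) (L (nat_lit 0x26b))) (N (nat_lit 0x16cd87dd816) (L (nat_lit 0x25f)) (L (nat_lit 0x544))))))) (N (nat_lit 0x170c3a7694e) (N (nat_lit 0x16ea59f158e) (N (nat_lit 0x16d45ff2516) (N (nat_lit 0x16cff139316) (L (nat_lit 0x26b)) (N (nat_lit 0x16d2a9be442) (L (nat_lit 0x546)) (L (nat_lit 0x25f)))) (N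 (nat_lit 0x16e1207da8e) (N (nat_lit 0x16d518ed042) (L (nat_lit 0x544)) (L (nat_lit 0x546))) (N (nat_lit 0x16e18179d4e) (L (nat_lit 0x25f)) (L (nat_lit 0x544))))) (N (nat_lit 0x16f77936ee6) (N (nat_lit 0x16ef8a9ceee) (N (nat_lit 0x16ec298d67a) (L (nat_lit 0x26b)) (L (nat_lit 0x26b))) (N (nat_lit 0x16f6e96014e) (L (nat_lit 0x546)) (L (nat_lit 0x25f)))) (N (nat_lit 0x170870a90fa) (N (nat_lit 0x1703d31f6ae) (L (nat_lit 0x26b)) (L (nat_lit 0x544))) (N (nat_lit 0x1708c906aee) (L (nat_lit 0x546)) (L (nat_lit 0x25f)))))) (N (nat_lit 0x1a14db7cb4e) (N (nat_lit 0x19d1d40f66a) (N (nat_lit 0x171e1a61dee) (N (nat_lit 0x1713dbfd1ee) (L (nat_lit 0x544)) (L (nat_lit 0x26b))) (N (nat_lit 0x17314d5a4ee) (L (nat_lit 0x546)) (L (nat_lit 0x25f)))) (N (nat_lit 0x19e50545942) (N (nat_lit 0x19d59984816) (L (nat_lit 0x339)) (L (nat_lit 0x339))) (N (nat_lit 0x19eb9df016e) (L (nat_lit 0x339)) (L (nat_lit 0x339))))) (N (nat_lit 0x20dda3054aa) (N (nat_lit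 0x20dda2f15ea) (N (nat_lit 0x1a5c91f34ee) (L (nat_lit 0x339)) (L (nat_lit 0x339))) (N (nat_lit 0x20dda2f15fe) (L (nat_lit 0x144)) (L (nat_lit 1)))) (N (nat_lit 0x20dda3e71fe) (N (nat_lit 0x20dda3054be) (L (nat_lit 0x41c)) (L (nat_lit 0x102))) (N (nat_lit 0x20dda484916) (L (nat_lit 0x204)) (L (nat_lit 0x158)))))))) (N (nat_lit 0x21ee112966e) (N (nat_lit 0x214a77b107a) (N (nat_lit 0x20e07bce956) (N (nat_lit 0x20de52f78ea) (N (nat_lit 0x20ddac83f42) (L (nat_lit 0x41d)) (N (nat_lit 0x20de52e3a2a) (L (nat_lit 0x14d)) (L (nat_lit 7)))) (N (nat_lit 0x20df1033bea) (N (nat_lit 0x20df0b94e2a) (L (nat_lit 0x113)) (L (nat_lit 0x109))) (N (nat_lit 0x20e046bc3aa) (L (nat_lit 0x275)) (L (nat_lit 0x20b))))) (N (nat_lit 0x2118cec2116) (N (nat_lit 0x20e36730b56) (N (nat_lit 0x20e1a918456) (L (nat_lit 0x28)) (L (nat_lit 0x11d))) (N (nat_lit 0x20e4909cf82) (L (nat_lit 0x21b)) (L (nat_lit 0x14)))) (N (nat_lit 0x212cd37bc16) (N (nat_lit 0x2118d055442)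 (L (nat_lit 0x144)) (L (nat_lit 0x158))) (N (nat_lit 0x212cec06c42) (L (nat_lit 0x41c)) (L (nat_lit 0x41d)))))) (N (nat_lit 0x2194e3ccfee) (N (nat_lit 0x2165b3e842e) (N (nat_lit 0x214aa65fee6) (L (nat_lit 0x158)) (N (nat_lit 0x2155fc6f342) (L (nat_lit 0x14d)) (L (nat_lit 0x144)))) (N (nat_lit 0x21662af2dfa) (N (nat_lit 0x2165b3fc2ee) (L (nat_lit 0x144)) (L (nat_lit 0x41c))) (N (nat_lit 0x2188c44a1e6) (L (nat_lit 0x41d)) (L (nat_lit 0x158))))) (N (nat_lit 0x21be326c24a) (N (nat_lit 0x21a701f622e) (N (nat_lit 0x2195109434e) (L (nat_lit 0x158)) (L (nat_lit 0x41d))) (N (nat_lit 0x21bc0f4218e) (L (nat_lit 0x144)) (L (nat_lit 0x41c)))) (N (nat_lit 0x21d74bc39ee) (N (nat_lit 0x21ccddfa6ee) (L (nat_lit 0x14d)) (L (nat_lit 0x14d))) (N (nat_lit 0x21edf38d0ee) (L (nat_lit 0x158)) (L (nat_lit 0x41d))))))) (N (nat_lit 0x24ef3688342) (N (nat_lit 0x24ed1c70c2a) (N (nat_lit 0x24ec6c926be) (N (nat_lit 0x24ec6c7e7ea) (L (nat_lit 0x144)) (N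 (nat_lit 0x24ec6c7e7fe) (L (nat_lit 0x25c)) (L (nat_lit 0x101)))) (N (nat_lit 0x24ecd0ea5aa) (N (nat_lit 0x24ec6e11b16) (L (nat_lit 0x401)) (L (nat_lit 0x268))) (N (nat_lit 0x24ecd0ea5be) (L (nat_lit 0x543)) (L (nat_lit 0x202))))) (N (nat_lit 0x24eda0eeefe) (N (nat_lit 0x24ed5a3a116) (N (nat_lit 0x24ed3d361fe) (L (nat_lit 0x110)) (L (nat_lit 0x302))) (N (nat_lit 0x24ed80dc9ea) (L (nat_lit 0x263)) (L (nat_lit 0x221)))) (N (nat_lit 0x24eddaf8216) (N (nat_lit 0x24edd52202a) (L (nat_lit 0x502)) (L (nat_lit 0x405))) (N (nat_lit 0x24ef1336cea) (L (nat_lit 0x53b)) (L (nat_lit 0x512)))))) (N (nat_lit 0x24f830d7956) (N (nat_lit 0x24f086f1cea) (N (nat_lit 0x24ef513fd16) (N (nat_lit 0x24ef455bb56) (L (nat_lit 0x26e)) (L (nat_lit 0x123))) (N (nat_lit 0x24f086dde2a) (L (nat_lit 0x545)) (L (nat_lit 0x108)))) (N (nat_lit 0x24f313b6aea) (N (nat_lit 0x24f23f58d2a) (L (nat_lit 0x407)) (L (nat_lit 0x209))) (N (nat_lit 0x24f4b9e6daa) (L (nat_lit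 0x50a)) (L (nat_lit 0x32e))))) (N (nat_lit 0x24fb4d03cea) (N (nat_lit 0x24fa6e6bf56) (N (nat_lit 0x24f98469456) (L (nat_lit 0x119)) (L (nat_lit 0x40c))) (N (nat_lit 0x24fadc5ec2a) (L (nat_lit 0x276)) (L (nat_lit 0x211)))) (N (nat_lit 0x24fd7c46a56) (N (nat_lit 0x24fd435b656) (L (nat_lit 0x30b)) (L (nat_lit 0x51a))) (N (nat_lit 0x24ffc9d1daa) (L (nat_lit 0x22f)) (L (nat_lit 0x508))))))))) (N (nat_lit 0x2f86b728f8e) (N (nat_lit 0x296783986ea) (N (nat_lit 0x25ca4fdbd4e) (N (nat_lit 0x25615c706e6) (N (nat_lit 0x252b5415842) (N (nat_lit 0x250c4f06d56) (L (nat_lit 0x12a)) (N (nat_lit 0x252a5f0ba16) (L (nat_lit 0x312)) (L (nat_lit 0x25c)))) (N (nat_lit 0x254d8469142) (N (nat_lit 0x254c5af3116) (L (nat_lit 0x263)) (L (nat_lit 0x543))) (N (nat_lit 0x255e485257a) (L (nat_lit 0x53b)) (L (nat_lit 0x268))))) (N (nat_lit 0x25abfe77d4e) (N (nat_lit 0x257b293344e) (N (nat_lit 0x257abd7918e) (L (nat_lit 0x26e)) (L (nat_lit 0x25c))) (N (nat_lit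 0x259135d1ffa) (L (nat_lit 0x543)) (L (nat_lit 0x545)))) (N (nat_lit 0x25bed3a2f8e) (N (nat_lit 0x25af1cb86ae) (L (nat_lit 0x268)) (L (nat_lit 0x545))) (N (nat_lit 0x25c98d57aee) (L (nat_lit 0x25c)) (L (nat_lit 0x263)))))) (N (nat_lit 0x295fc80053e) (N (nat_lit 0x260ee3354ee) (N (nat_lit 0x25e1ece04ee) (L (nat_lit 0x53b)) (N (nat_lit 0x260c37a01ee) (L (nat_lit 0x543)) (L (nat_lit 0x26e)))) (N (nat_lit 0x295f5f1cb6a) (N (nat_lit 0x2633e0e30ee) (L (nat_lit 0x263)) (L (nat_lit 0x53b))) (N (nat_lit 0x295f5f1cb7e) (L (nat_lit 0x324)) (L (nat_lit 0x201))))) (N (nat_lit 0x29639702b2a) (N (nat_lit 0x29605708e16) (N (nat_lit 0x29600f0efaa) (L (nat_lit 0x501)) (L (nat_lit 0x220))) (N (nat_lit 0x2961e3fb57e) (L (nat_lit 0x328)) (L (nat_lit 0x601)))) (N (nat_lit 0x29652f68842) (N (nat_lit 0x296405e18ea) (L (nat_lit 0x20f)) (L (nat_lit 0x50f))) (N (nat_lit 0x29655491a2a) (L (nat_lit 0x32b)) (L (nat_lit 0x507))))))) (N (nat_lit 0x2a93be44be6)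 (N (nat_lit 0x2985047412a) (N (nat_lit 0x2975460ca56) (N (nat_lit 0x296b7d24656) (L (nat_lit 0x605)) (N (nat_lit 0x296e69d8baa) (L (nat_lit 0x22d)) (L (nat_lit 0x50e)))) (N (nat_lit 0x297a7b2e556) (N (nat_lit 0x2977cfcd056) (L (nat_lit 0x218)) (L (nat_lit 0x517))) (N (nat_lit 0x297cef82256) (L (nat_lit 0x51e)) (L (nat_lit 0x60a))))) (N (nat_lit 0x2a8c949b30e) (N (nat_lit 0x29f4153d46e) (N (nat_lit 0x298ae05a882) (L (nat_lit 0x604)) (L (nat_lit 0x234))) (N (nat_lit 0x2a465f1574e) (L (nat_lit 0x324)) (L (nat_lit 0x328)))) (N (nat_lit 0x2a901a22b7a) (N (nat_lit 0x2a8c94af1ce) (L (nat_lit 0x145)) (L (nat_lit 0x41a))) (N (nat_lit 0x2a936dd247a) (L (nat_lit 0x14a)) (L (nat_lit 0x41e)))))) (N (nat_lit 0x2b32f88e14a) (N (nat_lit 0x2ae4344db7a) (N (nat_lit 0x2ace16c947a) (N (nat_lit 0x2ab37f141ee) (L (nat_lit 0x14e)) (L (nat_lit 0x32b))) (N (nat_lit 0x2ad1a1b2ee6) (L (nat_lit 0x145)) (L (nat_lit 0x14a)))) (N (nat_lit 0x2b119c335e6)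 (N (nat_lit 0x2aeb30dbae6) (L (nat_lit 0x41a)) (L (nat_lit 0x41e))) (N (nat_lit 0x2b2f20d3d9e) (L (nat_lit 0x145)) (L (nat_lit 0x14a))))) (N (nat_lit 0x2e3d8de8c7e) (N (nat_lit 0x2b73d61524a) (N (nat_lit 0x2b57c6b281e) (L (nat_lit 0x14e)) (L (nat_lit 0x41e))) (N (nat_lit 0x2bd8e8e676e) (L (nat_lit 0x14a)) (L (nat_lit 0x14e)))) (N (nat_lit 0x2e542c2a656) (N (nat_lit 0x2e41e3f19aa) (L (nat_lit 0x301)) (L (nat_lit 0x309))) (N (nat_lit 0x2e7e5390e82) (L (nat_lit 0x30f)) (L (nat_lit 0x316)))))))) (N (nat_lit 0x41d5e44210e) (N (nat_lit 0x3b553268fae) (N (nat_lit 0x30733213f1e) (N (nat_lit 0x2f910a668fa) (N (nat_lit 0x2f8725c56ce) (L (nat_lit 0x25f)) (N (nat_lit 0x2f8a64d82fa) (L (nat_lit 0x544)) (L (nat_lit 0x26b)))) (N (nat_lit 0x2ff0a795ffa) (N (nat_lit 0x2fcb2535bfa) (L (nat_lit 0x546)) (L (nat_lit 0x25f))) (N (nat_lit 0x3030755321e) (L (nat_lit 0x544)) (L (nat_lit 0x26b))))) (N (nat_lit 0x3b4d86dd2ea) (N (nat_lit 0x3b4cd6eaebe)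 (N (nat_lit 0x34f5633488e) (L (nat_lit 0x546)) (L (nat_lit 0x339))) (N (nat_lit 0x3b4cd87e1ea) (L (nat_lit 0x25b)) (L (nat_lit 0x267)))) (N (nat_lit 0x3b507f670ee) (N (nat_lit 0x3b4fe48540e) (L (nat_lit 0x25b)) (L (nat_lit 0x267))) (N (nat_lit 0x3b5436254ae) (L (nat_lit 0x25b)) (L (nat_lit 0x267)))))) (N (nat_lit 0x3f3c47ab00e) (N (nat_lit 0x3f22cd701ae) (N (nat_lit 0x3f1f24f3f7e) (L (nat_lit 0x25b)) (N (nat_lit 0x3f20020f3ea) (L (nat_lit 0x538)) (L (nat_lit 0x53c)))) (N (nat_lit 0x3f28b9ef08e) (N (nat_lit 0x3f236bf32ea) (L (nat_lit 0x538)) (L (nat_lit 0x538))) (N (nat_lit 0x3f376bd570e) (L (nat_lit 0x53c)) (L (nat_lit 0x538))))) (N (nat_lit 0x419d891ad8e) (N (nat_lit 0x414ff47fee2) (N (nat_lit 0x414ff46c022) (L (nat_lit 0x53c)) (L (nat_lit 6))) (N (nat_lit 0x414ff561c22) (L (nat_lit 0x111)) (L (nat_lit 0x223)))) (N (nat_lit 0x41b7a54748e) (N (nat_lit 0x419d892ec4e) (L (nat_lit 0xb)) (L (nat_lit 0x124))) (N (nat_lit 0x41b7ac4aa4e)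 (L (nat_lit 0x11a)) (L (nat_lit 0x230))))))) (N (nat_lit 0x44693623b2e) (N (nat_lit 0x43f808270ee) (N (nat_lit 0x4222de8cafa) (N (nat_lit 0x41ed2376afa) (L (nat_lit 0x277)) (N (nat_lit 0x4207b4d7cfa) (L (nat_lit 0x2a)) (L (nat_lit 0x12b)))) (N (nat_lit 0x43f45faaebe) (N (nat_lit 0x423fd78c466) (L (nat_lit 0x237)) (L (nat_lit 0x17))) (N (nat_lit 0x43f6583576a) (L (nat_lit 0x61c)) (L (nat_lit 0x614))))) (N (nat_lit 0x44278b440ee) (N (nat_lit 0x44065bab98e) (N (nat_lit 0x43fd4dc146a) (L (nat_lit 0x61c)) (L (nat_lit 0x61c))) (N (nat_lit 0x441dc71c3ee) (L (nat_lit 0x614)) (L (nat_lit 0x61c)))) (N (nat_lit 0x444ff5aff16) (N (nat_lit 0x444f45bdaea) (L (nat_lit 0x614)) (L (nat_lit 0x261))) (N (nat_lit 0x44520338d16) (L (nat_lit 0x261)) (L (nat_lit 0x26d)))))) (N (nat_lit 0x484e1669322) (N (nat_lit 0x484c84b36a2) (N (nat_lit 0x4472d94e62e) (N (nat_lit 0x4471b1abd7a) (L (nat_lit 0x261)) (L (nat_lit 0x26d))) (N (nat_lit 0x447e315c1ee)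 (L (nat_lit 0x26d)) (L (nat_lit 0x261)))) (N (nat_lit 0x484d06a5de2) (N (nat_lit 0x484c84c7562) (L (nat_lit 0x107)) (L (nat_lit 0x404))) (N (nat_lit 0x484d91147a2) (L (nat_lit 0x210)) (L (nat_lit 0x30a))))) (N (nat_lit 0x4871d72dbee) (N (nat_lit 0x485c2dc6f16) (N (nat_lit 0x4857e6c7baa) (L (nat_lit 0x510)) (L (nat_lit 0x53d))) (N (nat_lit 0x485f4696616) (L (nat_lit 0x53d)) (L (nat_lit 0x542)))) (N (nat_lit 0x489713eb94e) (N (nat_lit 0x4889b7a44fa) (L (nat_lit 0x53d)) (L (nat_lit 0x542))) (N (nat_lit 0x4899c82a18e) (L (nat_lit 0x53d)) (L (nat_lit 0x542))))))))))) (N (nat_lit 0x9bbb85e1782) (N (nat_lit 0x668f102570e) (N (nat_lit 0x56176a3bebe) (N (nat_lit 0x4fdef86f9a2) (N (nat_lit 0x4b0f0bb63ae) (N (nat_lit 0x48d4ddbd716) (N (nat_lit 0x48ba10ea84e) (N (nat_lit 0x489dcb9be4e) (L (nat_lit 0x118)) (N (nat_lit 0x48b870c760e) (L (nat_lit 0x22e)) (L (nat_lit 0x40a)))) (N (nat_lit 0x48ca14a514e) (N (nat_lit 0x48c97e5830e) (L (nat_lit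 0x51f)) (L (nat_lit 0x219))) (N (nat_lit 0x48d05c08eea) (L (nat_lit 0x310)) (L (nat_lit 0x53a))))) (N (nat_lit 0x4913a88acee) (N (nat_lit 0x48edc6d6b8e) (N (nat_lit 0x48eb28acc8e) (L (nat_lit 0x53a)) (L (nat_lit 0x53a))) (N (nat_lit 0x48f0101fb7a) (L (nat_lit 0x518)) (L (nat_lit 0x129)))) (N (nat_lit 0x494a238017a) (N (nat_lit 0x491cc3eca7a) (L (nat_lit 0x53a)) (L (nat_lit 0x235))) (N (nat_lit 0x4b0f0ba24ee) (L (nat_lit 0x317)) (L (nat_lit 0x37)))))) (N (nat_lit 0x4b11e47f846) (N (nat_lit 0x4b0fbba87da) (N (nat_lit 0x4b0f0c980ee) (L (nat_lit 0x147)) (N (nat_lit 0x4b0fbb9491a) (L (nat_lit 0x269)) (L (nat_lit 0x37)))) (N (nat_lit 0x4b1078e4ada) (N (nat_lit 0x4b107445d1a) (L (nat_lit 0x147)) (L (nat_lit 0x147))) (N (nat_lit 0x4b11af6d29a) (L (nat_lit 0x269)) (L (nat_lit 0x269))))) (N (nat_lit 0x4dfa9e30eaa) (N (nat_lit 0x4b14cfe1a46) (N (nat_lit 0x4b1311c9346) (L (nat_lit 0x37)) (L (nat_lit 0x147))) (N (nat_lit 0x4b15f94de72)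 (L (nat_lit 0x269)) (L (nat_lit 0x37)))) (N (nat_lit 0x4e15784a14e) (N (nat_lit 0x4e03c85c216) (L (nat_lit 0x615)) (L (nat_lit 0x615))) (N (nat_lit 0x4e4fac9834e) (L (nat_lit 0x615)) (L (nat_lit 0x615))))))) (N (nat_lit 0x553936f700e) (N (nat_lit 0x505ddb00eae) (N (nat_lit 0x5029d1fe416) (N (nat_lit 0x4fdf7f760e2) (L (nat_lit 0x273)) (N (nat_lit 0x4fe23bcd6a2) (L (nat_lit 0x506)) (L (nat_lit 0x617)))) (N (nat_lit 0x502f8d89142) (N (nat_lit 0x502a81f0842) (L (nat_lit 0x265)) (L (nat_lit 0x265))) (N (nat_lit 0x5032f964d0e) (L (nat_lit 0x270)) (L (nat_lit 0x228))))) (N (nat_lit 0x5083439216e) (N (nat_lit 0x506bdfc78e6) (N (nat_lit 0x5060f41ad0e) (L (nat_lit 0x265)) (L (nat_lit 0x516))) (N (nat_lit 0x506ecaff7ee) (L (nat_lit 0x270)) (L (nat_lit 0x270)))) (N (nat_lit 0x55045056f16) (N (nat_lit 0x509d7006a8e) (L (nat_lit 0x265)) (L (nat_lit 0x608))) (N (nat_lit 0x5508df80c42) (L (nat_lit 0x540)) (L (nat_lit 0x540)))))) (N (nat_lit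 0x560556d319a) (N (nat_lit 0x5603de5b046) (N (nat_lit 0x56032e68c1a) (N (nat_lit 0x5572c423c6e) (L (nat_lit 0x540)) (L (nat_lit 0x540))) (N (nat_lit 0x56032e7cada) (L (nat_lit 0x22)) (L (nat_lit 0x159)))) (N (nat_lit 0x5604970c446) (N (nat_lit 0x56042c1261a) (L (nat_lit 0x22)) (L (nat_lit 0x14b))) (N (nat_lit 0x5604dc04a46) (L (nat_lit 0x159)) (L (nat_lit 0x14b))))) (N (nat_lit 0x560e4a7e53e) (N (nat_lit 0x56060745f72) (N (nat_lit 0x560582f23da) (L (nat_lit 0x26c)) (L (nat_lit 0x26f))) (N (nat_lit 0x56070182a46) (L (nat_lit 0x22)) (L (nat_lit 0x26f)))) (N (nat_lit 0x56123b23bbe) (N (nat_lit 0x560e4a923fe) (L (nat_lit 0x22)) (L (nat_lit 0x159))) (N (nat_lit 0x561397202fe) (L (nat_lit 0x14b)) (L (nat_lit 0x26f)))))))) (N (nat_lit 0x5e71db225ea) (N (nat_lit 0x58df96c3e7a) (N (nat_lit 0x5621c40db46) (N (nat_lit 0x561b6fdb9aa) (N (nat_lit 0x5619e4bf2aa) (L (nat_lit 0x26c)) (N (nat_lit 0x561a6f5ec46) (L (nat_lit 0x22)) (L (nat_lit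 0x14b)))) (N (nat_lit 0x561d1430772) (N (nat_lit 0x561b9f3c146) (L (nat_lit 0x159)) (L (nat_lit 0x26c))) (N (nat_lit 0x561e6f1f42a) (L (nat_lit 0x14b)) (L (nat_lit 0x14b))))) (N (nat_lit 0x58108a66522) (N (nat_lit 0x562c2e6d016) (N (nat_lit 0x5622310a82a) (L (nat_lit 0x26f)) (L (nat_lit 0x26f))) (N (nat_lit 0x5634e719072) (L (nat_lit 0x22)) (L (nat_lit 0x26c)))) (N (nat_lit 0x58726d75716) (N (nat_lit 0x58726be23ea) (L (nat_lit 0x305)) (L (nat_lit 0x25b))) (N (nat_lit 0x58adedd4f16) (L (nat_lit 0x267)) (L (nat_lit 0x25b)))))) (N (nat_lit 0x5ba9f210c6e) (N (nat_lit 0x593d96ca42e) (N (nat_lit 0x58fb83dc62e) (L (nat_lit 0x267)) (N (nat_lit 0x592ab3c11ee) (L (nat_lit 0x25b)) (L (nat_lit 0x267)))) (N (nat_lit 0x5b2e13c0142) (N (nat_lit 0x5b248c6e616) (L (nat_lit 0x25b)) (L (nat_lit 0x61d))) (N (nat_lit 0x5b5a71bd76e) (L (nat_lit 0x61d)) (L (nat_lit 0x61d))))) (N (nat_lit 0x5d6ccba66ee) (N (nat_lit 0x5ce490c7916) (N (nat_lit 0x5ce3b3ac4aa)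 (L (nat_lit 0x61d)) (L (nat_lit 0x538))) (N (nat_lit 0x5d39cc2a616) (L (nat_lit 0x53c)) (L (nat_lit 0x538)))) (N (nat_lit 0x5db1ced9d4e) (N (nat_lit 0x5d7498f35fa) (L (nat_lit 0x538)) (L (nat_lit 0x53c))) (N (nat_lit 0x5dda8cffb8e) (L (nat_lit 0x53c)) (L (nat_lit 0x538))))))) (N (nat_lit 0x6265c528516) (N (nat_lit 0x623a7b8b446) (N (nat_lit 0x5f502d13cee) (N (nat_lit 0x5e72f2f2f16) (L (nat_lit 0x538)) (N (nat_lit 0x5f01332038e) (L (nat_lit 0x53c)) (L (nat_lit 0x538)))) (N (nat_lit 0x62364240a72) (N (nat_lit 0x6235924e646) (L (nat_lit 0x53c)) (L (nat_lit 0x23))) (N (nat_lit 0x62369ae6746) (L (nat_lit 0x23)) (L (nat_lit 0x14f))))) (N (nat_lit 0x6249268d52a) (N (nat_lit 0x624227636aa) (N (nat_lit 0x624101219aa) (L (nat_lit 0x272)) (L (nat_lit 0x23))) (N (nat_lit 0x62450233b2a) (L (nat_lit 0x14f)) (L (nat_lit 0x14f)))) (N (nat_lit 0x624e0083272) (N (nat_lit 0x624d0f82916) (L (nat_lit 0x272)) (L (nat_lit 0x23))) (N (nat_lit 0x6263f56a2ce)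 (L (nat_lit 0x14f)) (L (nat_lit 0x23)))))) (N (nat_lit 0x636d308ebe6) (N (nat_lit 0x6285e0eeb7a) (N (nat_lit 0x62732444b72) (N (nat_lit 0x626967a814e) (L (nat_lit 0x14f)) (L (nat_lit 0x14f))) (N (nat_lit 0x627326f624e) (L (nat_lit 0x272)) (L (nat_lit 0x272)))) (N (nat_lit 0x62e35f72442) (N (nat_lit 0x62e0a1f7216) (L (nat_lit 0x23)) (L (nat_lit 0x261))) (N (nat_lit 0x631c23e9d42) (L (nat_lit 0x26d)) (L (nat_lit 0x261))))) (N (nat_lit 0x643f962f5aa) (N (nat_lit 0x63f5fea516e) (N (nat_lit 0x63baaecda6e) (L (nat_lit 0x26d)) (L (nat_lit 0x261))) (N (nat_lit 0x641220b446e) (L (nat_lit 0x26d)) (L (nat_lit 0x261)))) (N (nat_lit 0x64cef57b84e) (N (nat_lit 0x6441cacec16) (L (nat_lit 0x61c)) (L (nat_lit 0x614))) (N (nat_lit 0x6534182d74e) (L (nat_lit 0x61c)) (L (nat_lit 0x614))))))))) (N (nat_lit 0x8aab6d5eb56) (N (nat_lit 0x7c2a83983fa) (N (nat_lit 0x6c14c3fb61e) (N (nat_lit 0x691fa15b416) (N (nat_lit 0x6732118219e) (N (nat_lit 0x6692b4aef7a)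 (L (nat_lit 0x261)) (N (nat_lit 0x66d0e87587a) (L (nat_lit 0x26d)) (L (nat_lit 0x261)))) (N (nat_lit 0x686136f6142) (N (nat_lit 0x680a6db6616) (L (nat_lit 0x26d)) (L (nat_lit 0x53a))) (N (nat_lit 0x68e62474bce) (L (nat_lit 0x53a)) (L (nat_lit 0x53a))))) (N (nat_lit 0x6a6826e6c6e) (N (nat_lit 0x696e3069f6e) (N (nat_lit 0x6927b812842) (L (nat_lit 0x53d)) (L (nat_lit 0x542))) (N (nat_lit 0x6a01ff4f7ce) (L (nat_lit 0x53a)) (L (nat_lit 0x53d)))) (N (nat_lit 0x6b48e2e547a) (N (nat_lit 0x6b3fc0867ce) (L (nat_lit 0x542)) (L (nat_lit 0x53d))) (N (nat_lit 0x6b9e482cb7a) (L (nat_lit 0x542)) (L (nat_lit 0x53d)))))) (N (nat_lit 0x70b3943ef2e) (N (nat_lit 0x6fcc5505616) (N (nat_lit 0x6d93d4d738e) (L (nat_lit 0x542)) (N (nat_lit 0x6fc09214f72) (L (nat_lit 0x53a)) (L (nat_lit 0x24)))) (N (nat_lit 0x6ff08bd267a) (N (nat_lit 0x6fcf779f416) (L (nat_lit 0x24)) (L (nat_lit 0x615))) (N (nat_lit 0x703d876e79e) (L (nat_lit 0x24)) (L (nat_lit 0x24)))))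 (N (nat_lit 0x74ffe0a5fe6) (N (nat_lit 0x74be02f3c7a) (N (nat_lit 0x73c47074cce) (L (nat_lit 0x615)) (L (nat_lit 0x615))) (N (nat_lit 0x74c4a6ec8e6) (L (nat_lit 0x265)) (L (nat_lit 0x270)))) (N (nat_lit 0x7a56004f37a) (N (nat_lit 0x7580b87664a) (L (nat_lit 0x265)) (L (nat_lit 0x270))) (N (nat_lit 0x7ab54b8e7e6) (L (nat_lit 0x540)) (L (nat_lit 0x540))))))) (N (nat_lit 0x8581c3c86ee) (N (nat_lit 0x837c2f3f656) (N (nat_lit 0x837ac69be2a) (N (nat_lit 0x837247f77fa) (L (nat_lit 0x540)) (N (nat_lit 0x837ac69be16) (L (nat_lit 0x61d)) (L (nat_lit 0x25b)))) (N (nat_lit 0x837ac82f142) (N (nat_lit 0x837ac6afcea) (L (nat_lit 2)) (L (nat_lit 0x104))) (N (nat_lit 0x837b768e256) (L (nat_lit 0x267)) (L (nat_lit 9))))) (N (nat_lit 0x848c7c2dcae) (N (nat_lit 0x83f21bdbc42) (N (nat_lit 0x837d9f79182) (L (nat_lit 0x10c)) (L (nat_lit 0xe))) (N (nat_lit 0x845311712e6) (L (nat_lit 0x25b)) (L (nat_lit 0x267)))) (N (nat_lit 0x850ec1e00ee) (N (nat_lit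 0x84e72ab746e) (L (nat_lit 0x25b)) (L (nat_lit 0x267))) (N (nat_lit 0x857e1b4c4be) (L (nat_lit 0x25b)) (L (nat_lit 0x323)))))) (N (nat_lit 0x88ab054b192) (N (nat_lit 0x88aafd08dd2) (N (nat_lit 0x88aafb89966) (N (nat_lit 0x88aafb75aa6) (L (nat_lit 0x323)) (L (nat_lit 0xffff))) (N (nat_lit 0x88aafc6b6a6) (L (nat_lit 0xffff)) (L (nat_lit 0xffff)))) (N (nat_lit 0x88ab03813d2) (N (nat_lit 0x88aafd1cc92) (L (nat_lit 0xffff)) (L (nat_lit 0xffff))) (N (nat_lit 0x88ab05083fe) (L (nat_lit 0xffff)) (L (nat_lit 0xffff))))) (N (nat_lit 0x88ab22749fe) (N (nat_lit 0x88ab176cb52) (N (nat_lit 0x88ab0e860fe) (L (nat_lit 0xffff)) (L (nat_lit 0xffff))) (N (nat_lit 0x88ab225992a) (L (nat_lit 0xffff)) (L (nat_lit 0xffff)))) (N (nat_lit 0x8aaabd6c72a) (N (nat_lit 0x8aaabd6c716) (L (nat_lit 0xffff)) (L (nat_lit 0x538))) (N (nat_lit 0x8aab3204cea) (L (nat_lit 0x103)) (L (nat_lit 0x206)))))))) (N (nat_lit 0x94d46bf5d6e) (N (nat_lit 0x9256b38c656)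 (N (nat_lit 0x8c3d52c4f6e) (N (nat_lit 0x8ab1d6ee156) (N (nat_lit 0x8aabdc8b542) (L (nat_lit 0x114)) (N (nat_lit 0x8aafd483256) (L (nat_lit 0x53c)) (L (nat_lit 0x10b)))) (N (nat_lit 0x8ab93d79356) (N (nat_lit 0x8ab77e7cd82) (L (nat_lit 0x20d)) (L (nat_lit 0x150))) (N (nat_lit 0x8bc2b461a0e) (L (nat_lit 0x215)) (L (nat_lit 0x538))))) (N (nat_lit 0x9217a8d0982) (N (nat_lit 0x9203604fcea) (N (nat_lit 0x9200d94502a) (L (nat_lit 0x53c)) (L (nat_lit 0x402))) (N (nat_lit 0x9205f05bb56) (L (nat_lit 0x504)) (L (nat_lit 0x408)))) (N (nat_lit 0x924bdadf2ea) (N (nat_lit 0x92198b46e56) (L (nat_lit 0x40e)) (L (nat_lit 0x50c))) (N (nat_lit 0x92517eef1aa) (L (nat_lit 0x326)) (L (nat_lit 0x205)))))) (N (nat_lit 0x93b8a451a42) (N (nat_lit 0x93b61ed9c16) (N (nat_lit 0x9268c49f72e) (L (nat_lit 0x213)) (N (nat_lit 0x92695f4da82) (L (nat_lit 0x326)) (L (nat_lit 0x21c)))) (N (nat_lit 0x93b6cecc056) (N (nat_lit 0x93b61ed9c2a) (L (nat_lit 0x61c))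 (L (nat_lit 0x203))) (N (nat_lit 0x93b725a4cea) (L (nat_lit 0x222)) (L (nat_lit 0x303))))) (N (nat_lit 0x93d1d49a456) (N (nat_lit 0x93c46835156) (N (nat_lit 0x93c0c5d7356) (L (nat_lit 0x614)) (L (nat_lit 0x20a))) (N (nat_lit 0x93ce0160a82) (L (nat_lit 0x306)) (L (nat_lit 0x229)))) (N (nat_lit 0x94523b537e6) (N (nat_lit 0x944e9167d7a) (L (nat_lit 0x30d)) (L (nat_lit 0x261))) (N (nat_lit 0x94cc3e64ae6) (L (nat_lit 0x26d)) (L (nat_lit 0x261))))))) (N (nat_lit 0x95396c9ae92) (N (nat_lit 0x95365298e92) (N (nat_lit 0x9535a6bd8d2) (N (nat_lit 0x9535a52a5a6) (L (nat_lit 0x61c)) (N (nat_lit 0x9535a53e466) (L (nat_lit 0xffff)) (L (nat_lit 0xffff)))) (N (nat_lit 0x9535aebcefe) (N (nat_lit 0x9535ad35ed2) (L (nat_lit 0xffff)) (L (nat_lit 0xffff))) (N (nat_lit 0x95365105b66) (L (nat_lit 0xffff)) (L (nat_lit 0xffff))))) (N (nat_lit 0x9537bbb24a6) (N (nat_lit 0x9537358cfd2) (N (nat_lit 0x9537061efa6) (L (nat_lit 0xffff)) (L (nat_lit 0xffff)))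 (N (nat_lit 0x953735a0e92) (L (nat_lit 0xffff)) (L (nat_lit 0xffff)))) (N (nat_lit 0x953800ce0d2) (N (nat_lit 0x9537c5bd392) (L (nat_lit 0xffff)) (L (nat_lit 0xffff))) (N (nat_lit 0x9538eddd352) (L (nat_lit 0xffff)) (L (nat_lit 0xffff)))))) (N (nat_lit 0x953df843652) (N (nat_lit 0x953ab57d7fe) (N (nat_lit 0x953a79daefe) (N (nat_lit 0x953a6dd51fe) (L (nat_lit 0xffff)) (L (nat_lit 0xffff))) (N (nat_lit 0x953aa99c2d2) (L (nat_lit 0xffff)) (L (nat_lit 0xffff)))) (N (nat_lit 0x953b5fd5b92) (N (nat_lit 0x953b3cfc9fe) (L (nat_lit 0xffff)) (L (nat_lit 0xffff))) (N (nat_lit 0x953cc0fa2fe) (L (nat_lit 0xffff)) (L (nat_lit 0xffff))))) (N (nat_lit 0x956f6f7ef6e) (N (nat_lit 0x953fd08b4fe) (N (nat_lit 0x953f8c6032a) (L (nat_lit 0xffff)) (L (nat_lit 0xffff))) (N (nat_lit 0x955cc502f4a) (L (nat_lit 0xffff)) (L (nat_lit 0x26d)))) (N (nat_lit 0x9b9d76f0b56) (N (nat_lit 0x9b983c582aa) (L (nat_lit 0x614)) (L (nat_lit 0x503))) (N (nat_lit 0x9ba30178756)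 (L (nat_lit 0x513)) (L (nat_lit 0x50b)))))))))) (N (nat_lit 0xba5432d342a) (N (nat_lit 0xa80d8192e6e) (N (nat_lit 0xa2b28b090fe) (N (nat_lit 0xa29fdbcc69a) (N (nat_lit 0x9cb4009011a) (N (nat_lit 0x9c93cce34fa) (N (nat_lit 0x9bd59ae427a) (L (nat_lit 0x51b)) (N (nat_lit 0x9bdf80dbfe6) (L (nat_lit 0x53d)) (L (nat_lit 0x542)))) (N (nat_lit 0x9cb298007ae) (N (nat_lit 0x9cb297ec8ee) (L (nat_lit 0x53a)) (L (nat_lit 0x157))) (N (nat_lit 0x9cb347ded1a) (L (nat_lit 0x419)) (L (nat_lit 0x157))))) (N (nat_lit 0xa2977f45bae) (N (nat_lit 0xa1f21953e16) (N (nat_lit 0x9cb570c9c46) (L (nat_lit 0x419)) (L (nat_lit 0x157))) (N (nat_lit 0xa22d71170ae) (L (nat_lit 0x329)) (L (nat_lit 0x329)))) (N (nat_lit 0xa2982f37fda) (N (nat_lit 0xa297f4108ee) (L (nat_lit 0x262)) (L (nat_lit 0x53e))) (N (nat_lit 0xa29d807811a) (L (nat_lit 0x262)) (L (nat_lit 0x262)))))) (N (nat_lit 0xa2aa1ecdb92) (N (nat_lit 0xa2a7ce4aa26) (N (nat_lit 0xa2a2a1042da) (L (nat_lit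 0x53e)) (N (nat_lit 0xa2a3d171746) (L (nat_lit 0x53e)) (L (nat_lit 0x262)))) (N (nat_lit 0xa2a87ffbbe6) (N (nat_lit 0xa2a7cfddd52) (L (nat_lit 0xffff)) (L (nat_lit 0xffff))) (N (nat_lit 0xa2a96bf15d2) (L (nat_lit 0xffff)) (L (nat_lit 0xffff))))) (N (nat_lit 0xa2acff50352) (N (nat_lit 0xa2ac2034426) (N (nat_lit 0xa2aa3d406d2) (L (nat_lit 0xffff)) (L (nat_lit 0xffff))) (N (nat_lit 0xa2acc0c57fe) (L (nat_lit 0xffff)) (L (nat_lit 0xffff)))) (N (nat_lit 0xa2b1afc78fe) (N (nat_lit 0xa2ade1ebb92) (L (nat_lit 0xffff)) (L (nat_lit 0xffff))) (N (nat_lit 0xa2b1f7cd0fe) (L (nat_lit 0xffff)) (L (nat_lit 0xffff))))))) (N (nat_lit 0xa63624198a2) (N (nat_lit 0xa626a2f06fa) (N (nat_lit 0xa2bc294462a) (N (nat_lit 0xa2b669714fe) (L (nat_lit 0xffff)) (N (nat_lit 0xa2b8ec712d2) (L (nat_lit 0xffff)) (L (nat_lit 0xffff)))) (N (nat_lit 0xa58d0e5c756) (N (nat_lit 0xa5821c66d2a) (L (nat_lit 0xffff)) (L (nat_lit 0x602))) (N (nat_lit 0xa5b25912582)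 (L (nat_lit 0x606)) (L (nat_lit 0x60b))))) (N (nat_lit 0xa62ffabd636) (N (nat_lit 0xa629f32328a) (N (nat_lit 0xa629f30f3ca) (L (nat_lit 0x615)) (L (nat_lit 0xffff))) (N (nat_lit 0xa629f404fca) (L (nat_lit 0xffff)) (L (nat_lit 0xffff)))) (N (nat_lit 0xa635b1b8f36) (N (nat_lit 0xa62ffad14f6) (L (nat_lit 0xffff)) (L (nat_lit 0xffff))) (N (nat_lit 0xa635b45f4f6) (L (nat_lit 0xffff)) (L (nat_lit 0xffff)))))) (N (nat_lit 0xa6f0cf2cc2e) (N (nat_lit 0xa641a5b1ca2) (N (nat_lit 0xa63c92eb70e) (N (nat_lit 0xa63bde52ca2) (L (nat_lit 0xffff)) (L (nat_lit 0xffff))) (N (nat_lit 0xa63d5b87db6) (L (nat_lit 0xffff)) (L (nat_lit 0xffff)))) (N (nat_lit 0xa669dafb42e) (N (nat_lit 0xa669dae756e) (L (nat_lit 0xffff)) (L (nat_lit 0x37))) (N (nat_lit 0xa669dbdd16e) (L (nat_lit 0x147)) (L (nat_lit 0x269))))) (N (nat_lit 0xa74fce6906e) (N (nat_lit 0xa71cf3ccb8e) (N (nat_lit 0xa6f0cf40aee) (L (nat_lit 0x37)) (L (nat_lit 0x147))) (N (nat_lit 0xa71cffb9e4e)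 (L (nat_lit 0x147)) (L (nat_lit 0x269)))) (N (nat_lit 0xa7a88a8118e) (N (nat_lit 0xa77befe922e) (L (nat_lit 0x269)) (L (nat_lit 0x37))) (N (nat_lit 0xa7d5caab6ee) (L (nat_lit 0x147)) (L (nat_lit 0x269)))))))) (N (nat_lit 0xb38f3ae1a46) (N (nat_lit 0xadbe2777bea) (N (nat_lit 0xab6216d7c1a) (N (nat_lit 0xa8ec29f9e46) (N (nat_lit 0xa8d5401ccee) (L (nat_lit 0x37)) (N (nat_lit 0xa8db5b052da) (L (nat_lit 0x327)) (L (nat_lit 0x327)))) (N (nat_lit 0xaa3e9ca144a) (N (nat_lit 0xaa36ff4f49e) (L (nat_lit 0x327)) (L (nat_lit 0x265))) (N (nat_lit 0xaabb14f454a) (L (nat_lit 0x270)) (L (nat_lit 0x265))))) (N (nat_lit 0xab766869bbe) (N (nat_lit 0xab636fa161a) (N (nat_lit 0xab62c6ca046) (L (nat_lit 0x149)) (L (nat_lit 0x149))) (N (nat_lit 0xab715ecc53e) (L (nat_lit 0x41b)) (L (nat_lit 0x149)))) (N (nat_lit 0xab7b8a9ce6e) (N (nat_lit 0xab79b2edc46) (L (nat_lit 0x41b)) (L (nat_lit 0x41b))) (N (nat_lit 0xab7cf90d2aa) (L (nat_lit 0x270)) (L (nat_lit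 0x149)))))) (N (nat_lit 0xb1815b087da) (N (nat_lit 0xb10f6e86552) (N (nat_lit 0xae48dcc022e) (L (nat_lit 0x323)) (N (nat_lit 0xb10dc363426) (L (nat_lit 0x323)) (L (nat_lit 0xffff)))) (N (nat_lit 0xb12d4a07a2a) (N (nat_lit 0xb117f9ecdfe) (L (nat_lit 0xffff)) (L (nat_lit 0xffff))) (N (nat_lit 0xb17c68a2eda) (L (nat_lit 0xffff)) (L (nat_lit 0x281))))) (N (nat_lit 0xb1a25bbe6fe) (N (nat_lit 0xb18bb0977fe) (N (nat_lit 0xb18269d5446) (L (nat_lit 0x547)) (L (nat_lit 0x281))) (N (nat_lit 0xb1a121f99aa) (L (nat_lit 0x281)) (L (nat_lit 0x281)))) (N (nat_lit 0xb309a31691e) (N (nat_lit 0xb1a2e10ab46) (L (nat_lit 0x547)) (L (nat_lit 0x547))) (N (nat_lit 0xb38e8aef61a) (L (nat_lit 0x540)) (L (nat_lit 0x266))))))) (N (nat_lit 0xb4daf9069b6) (N (nat_lit 0xb4ced3e934a) (N (nat_lit 0xb3af6494abe) (N (nat_lit 0xb390e11d19a) (L (nat_lit 0x266)) (N (nat_lit 0xb3a79ff37be) (L (nat_lit 0x541)) (L (nat_lit 0x266)))) (N (nat_lit 0xb3b7876502a) (N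 (nat_lit 0xb3b06a2d146) (L (nat_lit 0x541)) (L (nat_lit 0x541))) (N (nat_lit 0xb47185fb242) (L (nat_lit 0x266)) (L (nat_lit 0x32c))))) (N (nat_lit 0xb4d1148ffca) (N (nat_lit 0xb4cf8d08a8a) (N (nat_lit 0xb4ced3fd20a) (L (nat_lit 0xffff)) (L (nat_lit 0xffff))) (N (nat_lit 0xb4d04f9e44a) (L (nat_lit 0xffff)) (L (nat_lit 0xffff)))) (N (nat_lit 0xb4d5100d0b6) (N (nat_lit 0xb4d196bfa6e) (L (nat_lit 0xffff)) (L (nat_lit 0x32c))) (N (nat_lit 0xb4d5ca08ff6) (L (nat_lit 0xffff)) (L (nat_lit 0xffff)))))) (N (nat_lit 0xb8ae1eb568e) (N (nat_lit 0xb4e122f0cf6) (N (nat_lit 0xb4dd3d65bf6) (N (nat_lit 0xb4db6e17222) (L (nat_lit 0xffff)) (L (nat_lit 0xffff))) (N (nat_lit 0xb4e05c85eb6) (L (nat_lit 0xffff)) (L (nat_lit 0xffff)))) (N (nat_lit 0xb4ebc5ac936) (N (nat_lit 0xb4e6c082b22) (L (nat_lit 0xffff)) (L (nat_lit 0xffff))) (N (nat_lit 0xb4f22cf8c22) (L (nat_lit 0xffff)) (L (nat_lit 0xffff))))) (N (nat_lit 0xb94c51afd66) (N (nat_lit 0xb8fc187a5fa)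 (N (nat_lit 0xb8ae1ec954e) (L (nat_lit 8)) (L (nat_lit 0x115))) (N (nat_lit 0xb91634a6cfa) (L (nat_lit 0x29)) (L (nat_lit 0x11f)))) (N (nat_lit 0xba261e03a46) (N (nat_lit 0xba1ff0d77da) (L (nat_lit 0x2b)) (L (nat_lit 0x32a))) (N (nat_lit 0xba3920f12fe) (L (nat_lit 0x32a)) (L (nat_lit 0x32a))))))))) (N (nat_lit 0xcdd5f5bc84e) (N (nat_lit 0xc3404e6e80e) (N (nat_lit 0xbbf7ae4cc16) (N (nat_lit 0xbb796e055aa) (N (nat_lit 0xbaf65a2a38e) (N (nat_lit 0xbaf5149382e) (L (nat_lit 0x32a)) (N (nat_lit 0xbaf514a76ee) (L (nat_lit 0x22)) (L (nat_lit 0x159)))) (N (nat_lit 0xbaf82d3d64e) (N (nat_lit 0xbaf7d25646e) (L (nat_lit 0x14b)) (L (nat_lit 0x26c))) (N (nat_lit 0xbb69d353246) (L (nat_lit 0x26f)) (L (nat_lit 0x15a))))) (N (nat_lit 0xbbb08bce64e) (N (nat_lit 0xbb83ab7d24e) (N (nat_lit 0xbb8256146ee) (L (nat_lit 0x15a)) (L (nat_lit 0x22))) (N (nat_lit 0xbba08e2cece) (L (nat_lit 0x14b)) (L (nat_lit 0x15a)))) (N (nat_lit 0xbbce66d0dee) (N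 (nat_lit 0xbbb3d1857ae) (L (nat_lit 0x159)) (L (nat_lit 0x26f))) (N (nat_lit 0xbbd009e484e) (L (nat_lit 0x14b)) (L (nat_lit 0x26c)))))) (N (nat_lit 0xc048863d50e) (N (nat_lit 0xbc607609fee) (N (nat_lit 0xbc0bef6ac4e) (L (nat_lit 0x326)) (N (nat_lit 0xbc13c98a8ee) (L (nat_lit 0x26f)) (L (nat_lit 0x22)))) (N (nat_lit 0xbcd651cbc6e) (N (nat_lit 0xbcae29c9bee) (L (nat_lit 0x14b)) (L (nat_lit 0x26c))) (N (nat_lit 0xbe1fbde601e) (L (nat_lit 0x326)) (L (nat_lit 0x61d))))) (N (nat_lit 0xc14bdb949fa) (N (nat_lit 0xc0db7f5214e) (N (nat_lit 0xc0db0ab9b8e) (L (nat_lit 0x326)) (L (nat_lit 0x112))) (N (nat_lit 0xc129047eafa) (L (nat_lit 0x225)) (L (nat_lit 0x125)))) (N (nat_lit 0xc16ae1d2ffa) (N (nat_lit 0xc1503a78dfa) (L (nat_lit 0x11c)) (L (nat_lit 0x232))) (N (nat_lit 0xc1a47901d66) (L (nat_lit 0x22a)) (L (nat_lit 0x12d))))))) (N (nat_lit 0xc7b94567dda) (N (nat_lit 0xc42fa0a294e) (N (nat_lit 0xc3bdbd55e7a) (N (nat_lit 0xc340e08d74e)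 (L (nat_lit 0x10a)) (N (nat_lit 0xc391761627a) (L (nat_lit 0x214)) (L (nat_lit 0x11e)))) (N (nat_lit 0xc3f9a6f52aa) (N (nat_lit 0xc3e9ee99346) (L (nat_lit 0x21d)) (L (nat_lit 0x271))) (N (nat_lit 0xc4035bd932a) (L (nat_lit 0x271)) (L (nat_lit 0x271))))) (N (nat_lit 0xc47dec3bfb6) (N (nat_lit 0xc47839eee8a) (N (nat_lit 0xc4777ac174a) (L (nat_lit 0x271)) (L (nat_lit 0xffff))) (N (nat_lit 0xc47c225544a) (L (nat_lit 0xffff)) (L (nat_lit 0xffff)))) (N (nat_lit 0xc49e9246136) (N (nat_lit 0xc48999d79b6) (L (nat_lit 0xffff)) (L (nat_lit 0xffff))) (N (nat_lit 0xc7b94553f1a) (L (nat_lit 0xffff)) (L (nat_lit 0x157)))))) (N (nat_lit 0xcb9bcf20f4e) (N (nat_lit 0xc984a36b60e) (N (nat_lit 0xc8097ce1946) (N (nat_lit 0xc7f57827e46) (L (nat_lit 0x419)) (L (nat_lit 0x157))) (N (nat_lit 0xc8344323472) (L (nat_lit 0x419)) (L (nat_lit 0x157)))) (N (nat_lit 0xca7b412c266) (N (nat_lit 0xc9f5cdf4dfa) (L (nat_lit 0x224)) (L (nat_lit 0x27a))) (N (nat_lit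 0xcb98ead0d0e) (L (nat_lit 0x238)) (L (nat_lit 0x406))))) (N (nat_lit 0xcd09b403942) (N (nat_lit 0xcc44f32f17a) (N (nat_lit 0xcc0df6e467a) (L (nat_lit 0x514)) (L (nat_lit 0x40d))) (N (nat_lit 0xcd028a6e046) (L (nat_lit 0x51c)) (L (nat_lit 0x33a)))) (N (nat_lit 0xcd59370c64e) (N (nat_lit 0xcd1c515bd2a) (L (nat_lit 0x329)) (L (nat_lit 0x33a))) (N (nat_lit 0xcdd4d0cea0e) (L (nat_lit 0x33a)) (L (nat_lit 0x212)))))))) (N (nat_lit 0xe100aa85baa) (N (nat_lit 0xd2c6eb4bbee) (N (nat_lit 0xd0648235d46) (N (nat_lit 0xce5f7d8b07a) (N (nat_lit 0xce25fadac7a) (L (nat_lit 0x30c)) (N (nat_lit 0xce47a5fe3ee) (L (nat_lit 0x279)) (L (nat_lit 0x329)))) (N (nat_lit 0xd02588a571a) (N (nat_lit 0xce7b033d60e) (L (nat_lit 0x313)) (L (nat_lit 0x20c))) (N (nat_lit 0xd02617264da) (L (nat_lit 0x262)) (L (nat_lit 0x53e))))) (N (nat_lit 0xd181da8aaee) (N (nat_lit 0xd17b6026e2e) (N (nat_lit 0xd086a832446) (L (nat_lit 0x262)) (L (nat_lit 0x53e))) (N (nat_lit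 0xd17cb20b98e) (L (nat_lit 0x23)) (L (nat_lit 0x14f)))) (N (nat_lit 0xd2432b3fc7a) (N (nat_lit 0xd20f14058ee) (L (nat_lit 0x272)) (L (nat_lit 0x23))) (N (nat_lit 0xd25ea0d8fee) (L (nat_lit 0x329)) (L (nat_lit 0x14f)))))) (N (nat_lit 0xd834e87fd72) (N (nat_lit 0xd73b22b1f7a) (N (nat_lit 0xd5312d5dbca) (L (nat_lit 0x272)) (N (nat_lit 0xd6c5b49008e) (L (nat_lit 0xffff)) (L (nat_lit 0x511)))) (N (nat_lit 0xd7cfcefb046) (N (nat_lit 0xd7ce7631646) (L (nat_lit 0x520)) (L (nat_lit 0x149))) (N (nat_lit 0xd80aa905572) (L (nat_lit 0x41b)) (L (nat_lit 0x149))))) (N (nat_lit 0xd90ff17909a) (N (nat_lit 0xd86f694422a) (N (nat_lit 0xd850e0180aa) (L (nat_lit 0x41b)) (L (nat_lit 0x149))) (N (nat_lit 0xd89ddff2e16) (L (nat_lit 0x41b)) (L (nat_lit 0x149)))) (N (nat_lit 0xe079398ae46) (N (nat_lit 0xd953501840e) (L (nat_lit 0x327)) (L (nat_lit 0x509))) (N (nat_lit 0xe07eee35446) (L (nat_lit 0x281)) (L (nat_lit 0x547))))))) (N (nat_lit 0xf3875630a42)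 (N (nat_lit 0xe4e1adcff8e) (N (nat_lit 0xe34e272fb46) (N (nat_lit 0xe137ed1aa2a) (L (nat_lit 0x281)) (N (nat_lit 0xe34bb5ec646) (L (nat_lit 0x547)) (L (nat_lit 0x266)))) (N (nat_lit 0xe3c3a91ba72) (N (nat_lit 0xe38ab6cb172) (L (nat_lit 0x541)) (L (nat_lit 0x266))) (N (nat_lit 0xe3e20819816) (L (nat_lit 0x541)) (L (nat_lit 0x323))))) (N (nat_lit 0xe9c8d116716) (N (nat_lit 0xe716ffd45e6) (N (nat_lit 0xe4f85453eae) (L (nat_lit 0x618)) (L (nat_lit 0x323))) (N (nat_lit 0xe945a052072) (L (nat_lit 0x32c)) (L (nat_lit 0x15a)))) (N (nat_lit 0xea6eb24917a) (N (nat_lit 0xea208e60e6e) (L (nat_lit 0x15a)) (L (nat_lit 0x24))) (N (nat_lit 0xec979cf0946) (L (nat_lit 0x15a)) (L (nat_lit 0x32a)))))) (N (nat_lit 0x105e1b3d415e) (N (nat_lit 0xf9238d67d7a) (N (nat_lit 0xf53154566ee) (N (nat_lit 0xf52a5347c72) (L (nat_lit 0x326)) (L (nat_lit 0x271))) (N (nat_lit 0xf5b2b018716) (L (nat_lit 0x326)) (L (nat_lit 0x271)))) (N (nat_lit 0x1054556378b2)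 (N (nat_lit 0x101d6de9a972) (L (nat_lit 0x326)) (L (nat_lit 0x33a))) (N (nat_lit 0x10545564b772) (L (nat_lit 0xc)) (L (nat_lit 0x126))))) (N (nat_lit 0x10c3ec89e71a) (N (nat_lit 0x10681b87af0a) (N (nat_lit 0x106153417f5e) (L (nat_lit 0x12)) (L (nat_lit 0x151))) (N (nat_lit 0x10c3e18ac2ee) (L (nat_lit 0x18)) (L (nat_lit 0x25e)))) (N (nat_lit 0x1110abcb52ee) (N (nat_lit 0x10c89ff0e8e6) (L (nat_lit 0x25e)) (L (nat_lit 0x329))) (N (nat_lit 0x1110abcc91ae) (L (nat_lit 0x157)) (L (nat_lit 0x419))))))))))))) St.N St.L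
noncomputable def tHE_1 : St := (fun (N : ℕ → St → St → St) (L : ℕ → St) => (N (nat_lit 0x42581005da2e) (N (nat_lit 0x298c9d665d32) (N (nat_lit 0x1a475a05c5ee) (N (nat_lit 0x1425f58bef1a) (N (nat_lit 0x12232a16c6de) (N (nat_lit 0x1194e88e9dee) (N (nat_lit 0x1137a1745a9e) (N (nat_lit 0x111c00f2290e) (N (nat_lit 0x111abd992732) (L (nat_lit 0x157)) (N (nat_lit 0x111ac6e15e72) (L (nat_lit 0x11b)) (L (nat_lit 0x231)))) (N (nat_lit 0x1124b65adede) (N (nat_lit 0x11222029efae) (L (nat_lit 0x419)) (L (nat_lit 0x157))) (N (nat_lit 0x11291188a1de) (L (nat_lit 0x12c)) (L (nat_lit 0x239))))) (N (nat_lit 0x11855cacb6ee) (N (nat_lit 0x113d36c02b1a) (N (nat_lit 0x113cb7ea05ae) (L (nat_lit 0x329)) (L (nat_lit 0x539))) (N (nat_lit 0x1185556009ae) (L (nat_lit 0x539)) (L (nat_lit 0x262)))) (N (nat_lit 0x1191468d73ce) (N (nat_lit 0x118de83ce06e) (L (nat_lit 0x53e)) (L (nat_lit 0x262))) (N (nat_lit 0x1191a8e2090e) (L (nat_lit 0x53e)) (L (nat_lit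 0x262)))))) (N (nat_lit 0x11ebdeb28b3e) (N (nat_lit 0x11c6e2edf09a) (N (nat_lit 0x119b191d4f0e) (L (nat_lit 0x53e)) (N (nat_lit 0x11c5c48dc6ee) (L (nat_lit 0x262)) (L (nat_lit 0x613)))) (N (nat_lit 0x11e4f1444d72) (N (nat_lit 0x11e4bcde65b2) (L (nat_lit 0x613)) (L (nat_lit 0x40b))) (N (nat_lit 0x11ea9136021a) (L (nat_lit 0x521)) (L (nat_lit 0x26a))))) (N (nat_lit 0x12137cfc9832) (N (nat_lit 0x12002847ceee) (N (nat_lit 0x11ec46456a32) (L (nat_lit 0x26a)) (L (nat_lit 0x278))) (N (nat_lit 0x120c873ec3ce) (L (nat_lit 0x327)) (L (nat_lit 0x327)))) (N (nat_lit 0x121a6948846e) (N (nat_lit 0x121391a5f3f2) (L (nat_lit 0x21a)) (L (nat_lit 0x311))) (N (nat_lit 0x121da91e8ede) (L (nat_lit 0x327)) (L (nat_lit 0x236))))))) (N (nat_lit 0x1323d15eb956) (N (nat_lit 0x129f3bc485ae) (N (nat_lit 0x127ec9da9982) (N (nat_lit 0x127ebedb7542) (L (nat_lit 0x330)) (N (nat_lit 0x127ebedb7556) (L (nat_lit 0x323)) (L (nat_lit 3)))) (N (nat_lit 0x128a16b0adbe)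 (N (nat_lit 0x1287edfc2c1a) (L (nat_lit 0x26)) (L (nat_lit 0x53f))) (N (nat_lit 0x129942c9536e) (L (nat_lit 0x53f)) (L (nat_lit 0x323))))) (N (nat_lit 0x12acfa32db6e) (N (nat_lit 0x12a83375146e) (N (nat_lit 0x129f55cff10e) (L (nat_lit 0x149)) (L (nat_lit 0x41b))) (N (nat_lit 0x12aa264b2d4a) (L (nat_lit 0x149)) (L (nat_lit 0x32c)))) (N (nat_lit 0x1317cd59bc6e) (N (nat_lit 0x12ea95384b32) (L (nat_lit 0x41b)) (L (nat_lit 0x519))) (N (nat_lit 0x131828c21bce) (L (nat_lit 0x281)) (L (nat_lit 0x547)))))) (N (nat_lit 0x134deea0ffce) (N (nat_lit 0x13359509e79a) (N (nat_lit 0x1324a6c113ce) (N (nat_lit 0x13243ba22582) (L (nat_lit 0x105)) (L (nat_lit 0x10e))) (N (nat_lit 0x132a919e19ce) (L (nat_lit 0x281)) (L (nat_lit 0x547)))) (N (nat_lit 0x1344f5f3510e) (N (nat_lit 0x1338cda49cbe) (L (nat_lit 0x616)) (L (nat_lit 0x616))) (N (nat_lit 0x1345202ce1ee) (L (nat_lit 0x266)) (L (nat_lit 0x541))))) (N (nat_lit 0x13e69db91956) (N (nat_lit 0x13c63fecebce)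 (N (nat_lit 0x13535b48b5ce) (L (nat_lit 0x266)) (L (nat_lit 0x541))) (N (nat_lit 0x13d326ea952e) (L (nat_lit 0x32a)) (L (nat_lit 0x32a)))) (N (nat_lit 0x13f81d8300b2) (N (nat_lit 0x13e78525a282) (L (nat_lit 0x207)) (L (nat_lit 0x274))) (N (nat_lit 0x13fe49aedfe6) (L (nat_lit 0x609)) (L (nat_lit 0x326)))))))) (N (nat_lit 0x176ec8b520ee) (N (nat_lit 0x15c1ff244c2e) (N (nat_lit 0x14cbc49ac71a) (N (nat_lit 0x14a8bb8741da) (N (nat_lit 0x1429c5072e46) (L (nat_lit 0x25e)) (N (nat_lit 0x144f1ca33bae) (L (nat_lit 0x25e)) (L (nat_lit 0x15a)))) (N (nat_lit 0x14c729547d56) (N (nat_lit 0x14ae6ed16946) (L (nat_lit 0x539)) (L (nat_lit 0x539))) (N (nat_lit 0x14c8af57a882) (L (nat_lit 0x32d)) (L (nat_lit 0x307))))) (N (nat_lit 0x156b8c3ffcaa) (N (nat_lit 0x156300565246) (N (nat_lit 0x14faeed6e70e) (L (nat_lit 0x539)) (L (nat_lit 0x271))) (N (nat_lit 0x15645943e8da) (L (nat_lit 0x26a)) (L (nat_lit 0x613)))) (N (nat_lit 0x15b564ca662e) (N (nat_lit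 0x15b243e8e86e) (L (nat_lit 0x26a)) (L (nat_lit 0x33a))) (N (nat_lit 0x15b564cba4ee) (L (nat_lit 0x157)) (L (nat_lit 0x419)))))) (N (nat_lit 0x1666fc1d898e) (N (nat_lit 0x15cf25d9f64a) (N (nat_lit 0x15c5f644cb8e) (L (nat_lit 0x157)) (N (nat_lit 0x15cf172ec86e) (L (nat_lit 0x419)) (L (nat_lit 0x157)))) (N (nat_lit 0x1615870a7a2a) (N (nat_lit 0x160a4cb88c46) (L (nat_lit 0x329)) (L (nat_lit 0x53f))) (N (nat_lit 0x1639ecc6c246) (L (nat_lit 0x53f)) (L (nat_lit 0x53f))))) (N (nat_lit 0x16f71befd746) (N (nat_lit 0x1673c2f92f8e) (N (nat_lit 0x1667057a7c4e) (L (nat_lit 0x262)) (L (nat_lit 0x53e))) (N (nat_lit 0x16789d7a14ee) (L (nat_lit 0x262)) (L (nat_lit 0x53e)))) (N (nat_lit 0x172174bc626e) (N (nat_lit 0x171e066394fa) (L (nat_lit 0x616)) (L (nat_lit 0x25))) (N (nat_lit 0x1722efed7e66) (L (nat_lit 0x327)) (L (nat_lit 0xf))))))) (N (nat_lit 0x187768c4f1ee) (N (nat_lit 0x18008398457a) (N (nat_lit 0x1781c62b99ee) (N (nat_lit 0x176ee3bdac4e)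 (L (nat_lit 0x149)) (N (nat_lit 0x177bc83aa2ee) (L (nat_lit 0x41b)) (L (nat_lit 0x149)))) (N (nat_lit 0x17da18075e66) (N (nat_lit 0x17d2e83a14fa) (L (nat_lit 0x41b)) (L (nat_lit 0x116))) (N (nat_lit 0x17f1600f5f6e) (L (nat_lit 0x121)) (L (nat_lit 0x32c))))) (N (nat_lit 0x18637b761e4e) (N (nat_lit 0x1826263c15ae) (N (nat_lit 0x1825bd3d644e) (L (nat_lit 0x10d)) (L (nat_lit 0x281))) (N (nat_lit 0x18634d2e83ee) (L (nat_lit 0x547)) (L (nat_lit 0x266)))) (N (nat_lit 0x186e235fee72) (N (nat_lit 0x186664a16846) (L (nat_lit 0x541)) (L (nat_lit 0x25e))) (N (nat_lit 0x18707b9275ee) (L (nat_lit 0x25e)) (L (nat_lit 0x266)))))) (N (nat_lit 0x199fcc7bc2ee) (N (nat_lit 0x191f3c294746) (N (nat_lit 0x18af51e2b366) (N (nat_lit 0x18a583e7b0fa) (L (nat_lit 0x541)) (L (nat_lit 0x226))) (N (nat_lit 0x18dbe201d27a) (L (nat_lit 0x22b)) (L (nat_lit 0x216)))) (N (nat_lit 0x194a7c78f2ee) (N (nat_lit 0x19261ebef64e) (L (nat_lit 0x539)) (L (nat_lit 0x32a)))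 (N (nat_lit 0x1999458b966e) (L (nat_lit 0x15a)) (L (nat_lit 0x25e))))) (N (nat_lit 0x19d4ffb6277a) (N (nat_lit 0x19b9ca8aef72) (N (nat_lit 0x19a207de6d2e) (L (nat_lit 0x325)) (L (nat_lit 0x25e))) (N (nat_lit 0x19ca0be18016) (L (nat_lit 0x26a)) (L (nat_lit 0x26a)))) (N (nat_lit 0x1a287709fd2e) (N (nat_lit 0x19f5d1d49246) (L (nat_lit 0x30e)) (L (nat_lit 0x613))) (N (nat_lit 0x1a3518c4fc8e) (L (nat_lit 0x539)) (L (nat_lit 0x539))))))))) (N (nat_lit 0x24fb40bbdb7e) (N (nat_lit 0x222b3437967e) (N (nat_lit 0x1eeffcbe1fae) (N (nat_lit 0x1c2e0390f48e) (N (nat_lit 0x1ad8eedb716e) (N (nat_lit 0x1aa3bfe94b72) (L (nat_lit 0x271)) (N (nat_lit 0x1ac7decce26e) (L (nat_lit 0x53f)) (L (nat_lit 0x613)))) (N (nat_lit 0x1b6db3dd792e) (N (nat_lit 0x1b535586fdee) (L (nat_lit 0x613)) (L (nat_lit 0x33a))) (N (nat_lit 0x1bab87fc8872) (L (nat_lit 0x26a)) (L (nat_lit 0x616))))) (N (nat_lit 0x1db38b07351a) (N (nat_lit 0x1d339fbd725e) (N (nat_lit 0x1cfe9de3e56e)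 (L (nat_lit 0x53f)) (L (nat_lit 0x616))) (N (nat_lit 0x1d3d84cb1f0a) (L (nat_lit 0xd)) (L (nat_lit 0x15)))) (N (nat_lit 0x1e069169e30a) (N (nat_lit 0x1df850e72e5e) (L (nat_lit 0x325)) (L (nat_lit 0x127))) (N (nat_lit 0x1e33622c3fde) (L (nat_lit 0x152)) (L (nat_lit 0x120)))))) (N (nat_lit 0x206f8f282dce) (N (nat_lit 0x1f657ef61fde) (N (nat_lit 0x1efcf28005ae) (L (nat_lit 0x25e)) (N (nat_lit 0x1f1e900f50de) (L (nat_lit 0x25e)) (L (nat_lit 0x27b)))) (N (nat_lit 0x1f9baf33250e) (N (nat_lit 0x1f891dd8966e) (L (nat_lit 0x21e)) (L (nat_lit 0x539))) (N (nat_lit 0x1fc09eeb030e) (L (nat_lit 0x539)) (L (nat_lit 0x539))))) (N (nat_lit 0x21b97f4e35ce) (N (nat_lit 0x20e625e5d782) (N (nat_lit 0x20772f3bb5de) (L (nat_lit 0x613)) (L (nat_lit 0x314))) (N (nat_lit 0x20ef3f018a6e) (L (nat_lit 4)) (L (nat_lit 0x26a)))) (N (nat_lit 0x222b341e6352) (N (nat_lit 0x2202dbefad6e) (L (nat_lit 0x53f)) (L (nat_lit 0x53f))) (N (nat_lit 0x222b341fa212)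 (L (nat_lit 0xffff)) (L (nat_lit 0xffff))))))) (N (nat_lit 0x246641d6d4ee) (N (nat_lit 0x239018794b12) (N (nat_lit 0x22a5c369f446) (N (nat_lit 0x222b349f1c7e) (L (nat_lit 0xffff)) (N (nat_lit 0x222b34b78caa) (L (nat_lit 0xffff)) (L (nat_lit 0xffff)))) (N (nat_lit 0x23900c630d52) (N (nat_lit 0x22e300baa7ce) (L (nat_lit 0x325)) (L (nat_lit 0x616))) (N (nat_lit 0x23900c7c407e) (L (nat_lit 0xffff)) (L (nat_lit 0xffff))))) (N (nat_lit 0x23905e02b27e) (N (nat_lit 0x2390394cd57e) (N (nat_lit 0x23902985447e) (L (nat_lit 0xffff)) (L (nat_lit 0xffff))) (N (nat_lit 0x23905d09c6aa) (L (nat_lit 0xffff)) (L (nat_lit 0xffff)))) (N (nat_lit 0x246641c778ee) (N (nat_lit 0x24051e8cefee) (L (nat_lit 0xffff)) (L (nat_lit 0x325))) (N (nat_lit 0x246641c8b7ae) (L (nat_lit 0x36)) (L (nat_lit 0x156)))))) (N (nat_lit 0x24664435b772) (N (nat_lit 0x24664260a246) (N (nat_lit 0x246641e1eada) (N (nat_lit 0x246641e0ac1a) (L (nat_lit 0x25d)) (L (nat_lit 0x21)))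 (N (nat_lit 0x24664248321a) (L (nat_lit 0x148)) (L (nat_lit 0x146)))) (N (nat_lit 0x246642f87f46) (N (nat_lit 0x24664264cfda) (L (nat_lit 0x38)) (L (nat_lit 0x264))) (N (nat_lit 0x24664386e99a) (L (nat_lit 0x14c)) (L (nat_lit 0x260))))) (N (nat_lit 0x24fa78703752) (N (nat_lit 0x24bfb2c73482) (N (nat_lit 0x246644376846) (L (nat_lit 0x39)) (L (nat_lit 0x280))) (N (nat_lit 0x24ceba63c26e) (L (nat_lit 0x13)) (L (nat_lit 0x2d)))) (N (nat_lit 0x24fabdcf5412) (N (nat_lit 0x24fa95926e7e) (L (nat_lit 0xffff)) (L (nat_lit 0xffff))) (N (nat_lit 0x24fb194d00aa) (L (nat_lit 0xffff)) (L (nat_lit 0xffff)))))))) (N (nat_lit 0x26d98443af22) (N (nat_lit 0x2566c8371d22) (N (nat_lit 0x254de2a6467e) (N (nat_lit 0x2506c05a69aa) (N (nat_lit 0x25061a0a80d2) (L (nat_lit 0xffff)) (N (nat_lit 0x25063800f97e) (L (nat_lit 0xffff)) (L (nat_lit 0xffff)))) (N (nat_lit 0x25371714566e) (N (nat_lit 0x2525a6037a2e) (L (nat_lit 0xffff)) (L (nat_lit 0x25e)))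 (N (nat_lit 0x254de28d1352) (L (nat_lit 0x25e)) (L (nat_lit 0xffff))))) (N (nat_lit 0x254e87b7cc7e) (N (nat_lit 0x254e2284137e) (N (nat_lit 0x254dfd20f412) (L (nat_lit 0xffff)) (L (nat_lit 0xffff))) (N (nat_lit 0x254e44d3037e) (L (nat_lit 0xffff)) (L (nat_lit 0xffff)))) (N (nat_lit 0x256664b508b6) (N (nat_lit 0x254e891b31aa) (L (nat_lit 0xffff)) (L (nat_lit 0xffff))) (N (nat_lit 0x256664b64776) (L (nat_lit 0xffff)) (L (nat_lit 0xffff)))))) (N (nat_lit 0x26cccaed887e) (N (nat_lit 0x25dcba79e302) (N (nat_lit 0x256723a6d622) (L (nat_lit 0xffff)) (N (nat_lit 0x25672f8f098e) (L (nat_lit 0xffff)) (L (nat_lit 0xffff)))) (N (nat_lit 0x26cc8a1ec2d2) (N (nat_lit 0x260950bf5d8e) (L (nat_lit 0x12e)) (L (nat_lit 0x539))) (N (nat_lit 0x26cca827ef7e) (L (nat_lit 0xffff)) (L (nat_lit 0xffff))))) (N (nat_lit 0x26d7f8cca476) (N (nat_lit 0x26d181111766) (N (nat_lit 0x26cd86ba54aa) (L (nat_lit 0xffff)) (L (nat_lit 0xffff))) (N (nat_lit 0x26d7ecb666b6)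 (L (nat_lit 0x27)) (L (nat_lit 0xffff)))) (N (nat_lit 0x26d8fb1de722) (N (nat_lit 0x26d850387b22) (L (nat_lit 0xffff)) (L (nat_lit 0xffff))) (N (nat_lit 0x26d8fcd4e822) (L (nat_lit 0xffff)) (L (nat_lit 0xffff))))))) (N (nat_lit 0x286ca6d6d9a2) (N (nat_lit 0x272c1cfff402) (N (nat_lit 0x26f31789aa76) (N (nat_lit 0x26d9b2896f8e) (L (nat_lit 0xffff)) (N (nat_lit 0x26f30a9f2b36) (L (nat_lit 0xffff)) (L (nat_lit 0xffff)))) (N (nat_lit 0x26f42788b0a2) (N (nat_lit 0x26f371689aa2) (L (nat_lit 0xffff)) (L (nat_lit 0xffff))) (N (nat_lit 0x270abaeae6ee) (L (nat_lit 0xffff)) (L (nat_lit 0x613))))) (N (nat_lit 0x285daf18128e) (N (nat_lit 0x285ae314e236) (N (nat_lit 0x274fbc9050ee) (L (nat_lit 0x23a)) (L (nat_lit 0x26a))) (N (nat_lit 0x285bf4196422) (L (nat_lit 0xffff)) (L (nat_lit 0xffff)))) (N (nat_lit 0x286aa6c63376) (N (nat_lit 0x286a5ec52936) (L (nat_lit 0xffff)) (L (nat_lit 0xffff))) (N (nat_lit 0x286b7393e4a2) (L (nat_lit 0xffff))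 (L (nat_lit 0xffff)))))) (N (nat_lit 0x28c4707b3636) (N (nat_lit 0x28aa70e60652) (N (nat_lit 0x2876cc956c72) (N (nat_lit 0x2876646a23ee) (L (nat_lit 0xffff)) (L (nat_lit 0x53f))) (N (nat_lit 0x2892aa554236) (L (nat_lit 0x325)) (L (nat_lit 0xffff)))) (N (nat_lit 0x28abca18a8aa) (N (nat_lit 0x28aab2c1b97e) (L (nat_lit 0xffff)) (L (nat_lit 0xffff))) (N (nat_lit 0x28ade0895b82) (L (nat_lit 0xffff)) (L (nat_lit 0x331))))) (N (nat_lit 0x298afb1dc8da) (N (nat_lit 0x28c4d7526da2) (N (nat_lit 0x28c48be6dc76) (L (nat_lit 0xffff)) (L (nat_lit 0xffff))) (N (nat_lit 0x28c5e11ea3a2) (L (nat_lit 0xffff)) (L (nat_lit 0xffff)))) (N (nat_lit 0x298bc7f88c86) (N (nat_lit 0x298afb1f079a) (L (nat_lit 0xffff)) (L (nat_lit 0xffff))) (N (nat_lit 0x298c7e73fc86) (L (nat_lit 0xffff)) (L (nat_lit 0xffff)))))))))) (N (nat_lit 0x3378d3990d4a) (N (nat_lit 0x2f37526ab02a) (N (nat_lit 0x2a6cff86b936) (N (nat_lit 0x29b4577137fe) (N (nat_lit 0x29b2a30a6c46)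 (N (nat_lit 0x29b179200446) (N (nat_lit 0x29b17906d11a) (L (nat_lit 0xffff)) (N (nat_lit 0x29b179080fda) (L (nat_lit 0x36)) (L (nat_lit 0x156)))) (N (nat_lit 0x29b1799ffa72) (N (nat_lit 0x29b179878a46) (L (nat_lit 0x21)) (L (nat_lit 0x146))) (N (nat_lit 0x29b2a2f1391a) (L (nat_lit 0x38)) (L (nat_lit 0x156))))) (N (nat_lit 0x29b35a5ee272) (N (nat_lit 0x29b2e024be46) (N (nat_lit 0x29b2de7286da) (L (nat_lit 0x148)) (L (nat_lit 0x25d))) (N (nat_lit 0x29b358d74046) (L (nat_lit 0x264)) (L (nat_lit 0x146)))) (N (nat_lit 0x29b3fa25429a) (N (nat_lit 0x29b3e1c1c146) (L (nat_lit 0x14c)) (L (nat_lit 0x260))) (N (nat_lit 0x29b4576ff93e) (L (nat_lit 0x25d)) (L (nat_lit 0x21)))))) (N (nat_lit 0x29b6283d56fe) (N (nat_lit 0x29b4e1b3d6aa) (N (nat_lit 0x29b4b02fc346) (L (nat_lit 0x148)) (N (nat_lit 0x29b4df415daa) (L (nat_lit 0x264)) (L (nat_lit 0x38)))) (N (nat_lit 0x29b5b4a07a16) (N (nat_lit 0x29b5698ffb72) (L (nat_lit 0x14c)) (L (nat_lit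 0x280))) (N (nat_lit 0x29b5ec978fbe) (L (nat_lit 0x39)) (L (nat_lit 0x146))))) (N (nat_lit 0x29bae30cfbee) (N (nat_lit 0x29b6b5a2c52a) (N (nat_lit 0x29b674f12f2a) (L (nat_lit 0x264)) (L (nat_lit 0x14c))) (N (nat_lit 0x29b7b8ce52be) (L (nat_lit 0x280)) (L (nat_lit 0x260)))) (N (nat_lit 0x2a5075e24db6) (N (nat_lit 0x2a0dea94af2e) (L (nat_lit 0x616)) (L (nat_lit 0x325))) (N (nat_lit 0x2a518d6e86a2) (L (nat_lit 0xffff)) (L (nat_lit 0xffff))))))) (N (nat_lit 0x2ce002cb645a) (N (nat_lit 0x2b3ef38e1d6a) (N (nat_lit 0x2b2ca68c1306) (N (nat_lit 0x2b2bd666705a) (L (nat_lit 0xffff)) (N (nat_lit 0x2b2be35eb79a) (L (nat_lit 0xffff)) (L (nat_lit 0xffff)))) (N (nat_lit 0x2b3ef38b9fea) (N (nat_lit 0x2b2db7e33006) (L (nat_lit 0xffff)) (L (nat_lit 0xffff))) (N (nat_lit 0x2b3ef38cdeaa) (L (nat_lit 0xffff)) (L (nat_lit 0xffff))))) (N (nat_lit 0x2b3ef3f274ea) (N (nat_lit 0x2b3ef3ae912a) (N (nat_lit 0x2b3ef39afbea) (L (nat_lit 0xffff)) (L (nat_lit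 0xffff))) (N (nat_lit 0x2b3ef3e513aa) (L (nat_lit 0xffff)) (L (nat_lit 0xffff)))) (N (nat_lit 0x2cd2f61ee7da) (N (nat_lit 0x2c5f7ff405b6) (L (nat_lit 0xffff)) (L (nat_lit 0xffff))) (N (nat_lit 0x2cd340dd6f9a) (L (nat_lit 0xffff)) (L (nat_lit 0xffff)))))) (N (nat_lit 0x2f36dac8bbea) (N (nat_lit 0x2d3679f6c606) (N (nat_lit 0x2d3453e6f61a) (N (nat_lit 0x2d3437783a5a) (L (nat_lit 0xffff)) (L (nat_lit 0xffff))) (N (nat_lit 0x2d350b140c06) (L (nat_lit 0xffff)) (L (nat_lit 0xffff)))) (N (nat_lit 0x2ef20b9c3e5a) (N (nat_lit 0x2e334921b90a) (L (nat_lit 0xffff)) (L (nat_lit 0x10))) (N (nat_lit 0x2f36dac77d2a) (L (nat_lit 0xffff)) (L (nat_lit 0xffff))))) (N (nat_lit 0x2f371f70e16a) (N (nat_lit 0x2f36fb25148a) (N (nat_lit 0x2f36dad6d92a) (L (nat_lit 0xffff)) (L (nat_lit 0xffff))) (N (nat_lit 0x2f36fb26534a) (L (nat_lit 0xffff)) (L (nat_lit 0xffff)))) (N (nat_lit 0x2f372e3c308a) (N (nat_lit 0x2f372e15e74a) (L (nat_lit 0xffff)) (L (nat_lit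 0xffff))) (N (nat_lit 0x2f374898afca) (L (nat_lit 0xffff)) (L (nat_lit 0xffff)))))))) (N (nat_lit 0x312c6a642bee) (N (nat_lit 0x2f9d67acb6ce) (N (nat_lit 0x2f992a1dce46) (N (nat_lit 0x2f963f542446) (N (nat_lit 0x2f377e51c48a) (L (nat_lit 0xffff)) (N (nat_lit 0x2f3785c9f56a) (L (nat_lit 0xffff)) (L (nat_lit 0xffff)))) (N (nat_lit 0x2f9771e7a346) (N (nat_lit 0x2f963f6d5772) (L (nat_lit 0x36)) (L (nat_lit 0x21))) (N (nat_lit 0x2f9831a73f72) (L (nat_lit 0x156)) (L (nat_lit 0x146))))) (N (nat_lit 0x2f9ad2cfe82a) (N (nat_lit 0x2f99c1c07d16) (N (nat_lit 0x2f9932ad16aa) (L (nat_lit 0x25d)) (L (nat_lit 0x21))) (N (nat_lit 0x2f9a6b1dc1aa) (L (nat_lit 0x38)) (L (nat_lit 0x148)))) (N (nat_lit 0x2f9bbcb9d916) (N (nat_lit 0x2f9b4b0ac872) (L (nat_lit 0x146)) (L (nat_lit 0x260))) (N (nat_lit 0x2f9c95f1e02a) (L (nat_lit 0x14c)) (L (nat_lit 0x264)))))) (N (nat_lit 0x3121d49cd3ae) (N (nat_lit 0x2fa1587df64e) (N (nat_lit 0x2f9f15ced54e) (L (nat_lit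 0x38)) (N (nat_lit 0x2f9f27654e7a) (L (nat_lit 0x14c)) (L (nat_lit 0x39)))) (N (nat_lit 0x311e656164da) (N (nat_lit 0x30f602c5bfae) (L (nat_lit 0x280)) (L (nat_lit 0x325))) (N (nat_lit 0x3121d49b94ee) (L (nat_lit 0xffff)) (L (nat_lit 0x144))))) (N (nat_lit 0x3128e8bc516e) (N (nat_lit 0x3121d51c4e1a) (N (nat_lit 0x3121d4b4c81a) (L (nat_lit 0x41c)) (L (nat_lit 0x158))) (N (nat_lit 0x3121d534be46) (L (nat_lit 0x41d)) (L (nat_lit 0x14d)))) (N (nat_lit 0x3128e8cbad6e) (N (nat_lit 0x3128e8bd902e) (L (nat_lit 0x36)) (L (nat_lit 0x156))) (N (nat_lit 0x312c6a62ed2e) (L (nat_lit 0x25d)) (L (nat_lit 0x21))))))) (N (nat_lit 0x32bb243818ee) (N (nat_lit 0x3134f76e216e) (N (nat_lit 0x312ea6be696e) (N (nat_lit 0x312d5f6f008e) (L (nat_lit 0x148)) (N (nat_lit 0x312d6062f34e) (L (nat_lit 0x146)) (L (nat_lit 0x264)))) (N (nat_lit 0x31315e55238e) (N (nat_lit 0x31306902c02e) (L (nat_lit 0x260)) (L (nat_lit 0x38))) (N (nat_lit 0x3132565facee) (L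 (nat_lit 0x14c)) (L (nat_lit 0x280))))) (N (nat_lit 0x31ea73a67fda) (N (nat_lit 0x31ea44229ada) (N (nat_lit 0x31ea440967ae) (L (nat_lit 0x39)) (L (nat_lit 0x25c))) (N (nat_lit 0x31ea562a14ee) (L (nat_lit 0x268)) (L (nat_lit 0x543)))) (N (nat_lit 0x31ea8e53fb46) (N (nat_lit 0x31ea78524e1a) (L (nat_lit 0x545)) (L (nat_lit 0x263))) (N (nat_lit 0x31ea9d6fd59a) (L (nat_lit 0x26e)) (L (nat_lit 0x53b)))))) (N (nat_lit 0x3378017297aa) (N (nat_lit 0x32f0b78d00da) (N (nat_lit 0x32bbbc026446) (N (nat_lit 0x32bb590e0fda) (L (nat_lit 0x324)) (L (nat_lit 0x328))) (N (nat_lit 0x32f0b78bc21a) (L (nat_lit 0x32b)) (L (nat_lit 0x145)))) (N (nat_lit 0x32f1273e2546) (N (nat_lit 0x32f0ffbb4846) (L (nat_lit 0x41a)) (L (nat_lit 0x14a))) (N (nat_lit 0x32f15b0c2d72) (L (nat_lit 0x41e)) (L (nat_lit 0x14e))))) (N (nat_lit 0x337848163bea) (N (nat_lit 0x337822c6470a) (N (nat_lit 0x33780173d66a) (L (nat_lit 0xffff)) (L (nat_lit 0xffff))) (N (nat_lit 0x33784442766a)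 (L (nat_lit 0xffff)) (L (nat_lit 0xffff)))) (N (nat_lit 0x3378addf3d2a) (N (nat_lit 0x3378577fd9ca) (L (nat_lit 0xffff)) (L (nat_lit 0xffff))) (N (nat_lit 0x3378addf5c6a) (L (nat_lit 0xffff)) (L (nat_lit 0xffff))))))))) (N (nat_lit 0x3923037452da) (N (nat_lit 0x37e5c580d246) (N (nat_lit 0x37155bcd611a) (N (nat_lit 0x34b1af92c79a) (N (nat_lit 0x33cc9a52cc1a) (N (nat_lit 0x337953a87f2a) (L (nat_lit 0xffff)) (N (nat_lit 0x337963eb5c2a) (L (nat_lit 0xffff)) (L (nat_lit 0xffff)))) (N (nat_lit 0x33cce4ace946) (N (nat_lit 0x33ccad0089da) (L (nat_lit 0x25f)) (L (nat_lit 0x544))) (N (nat_lit 0x33cd419e1246) (L (nat_lit 0x26b)) (L (nat_lit 0x546))))) (N (nat_lit 0x362f53e63b9e) (N (nat_lit 0x362452b29416) (N (nat_lit 0x36214a53de72) (L (nat_lit 0x339)) (L (nat_lit 0x36))) (N (nat_lit 0x3628ab9e6b7a) (L (nat_lit 0x21)) (L (nat_lit 0x38)))) (N (nat_lit 0x3713dbc0f91a) (N (nat_lit 0x370bbd2b4b6e) (L (nat_lit 0x39)) (L (nat_lit 0x2c)))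 (N (nat_lit 0x3713dbda2c46) (L (nat_lit 0x144)) (L (nat_lit 0x158)))))) (N (nat_lit 0x37e0d323268e) (N (nat_lit 0x37181515b5aa) (N (nat_lit 0x371611b36846) (L (nat_lit 0x41c)) (N (nat_lit 0x37178d44513e) (L (nat_lit 0x41d)) (L (nat_lit 0x158)))) (N (nat_lit 0x37df95ae8f2e) (N (nat_lit 0x3719943d67be) (L (nat_lit 0x14d)) (L (nat_lit 0x41d))) (N (nat_lit 0x37df95afcdee) (L (nat_lit 0x36)) (L (nat_lit 0x156))))) (N (nat_lit 0x37e436de964e) (N (nat_lit 0x37e24033836e) (N (nat_lit 0x37e11605394e) (L (nat_lit 0x156)) (L (nat_lit 0x25d))) (N (nat_lit 0x37e334f7e2ee) (L (nat_lit 0x25d)) (L (nat_lit 0x21)))) (N (nat_lit 0x37e59137ebda) (N (nat_lit 0x37e477ce9a4e) (L (nat_lit 0x146)) (L (nat_lit 0x148))) (N (nat_lit 0x37e5bea033ae) (L (nat_lit 0x25c)) (L (nat_lit 0x264))))))) (N (nat_lit 0x38085868f68a) (N (nat_lit 0x37e942bb43fe) (N (nat_lit 0x37e7c9fae04e) (N (nat_lit 0x37e652c6a9ee) (L (nat_lit 0x263)) (N (nat_lit 0x37e7538c91ee)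 (L (nat_lit 0x146)) (L (nat_lit 0x38)))) (N (nat_lit 0x37e843c28c4e) (N (nat_lit 0x37e7f2e162da) (L (nat_lit 0x264)) (L (nat_lit 0x543))) (N (nat_lit 0x37e93bc64946) (L (nat_lit 0x260)) (L (nat_lit 0x53b))))) (N (nat_lit 0x37eddf9274ee) (N (nat_lit 0x37ea7ba108ee) (N (nat_lit 0x37ea1618aeaa) (L (nat_lit 0x268)) (L (nat_lit 0x26e))) (N (nat_lit 0x37ec9486f2fe) (L (nat_lit 0x14c)) (L (nat_lit 0x545)))) (N (nat_lit 0x38066e12a1ca) (N (nat_lit 0x38064bc5566a) (L (nat_lit 0x280)) (L (nat_lit 0xffff))) (N (nat_lit 0x3806fdc6932a) (L (nat_lit 0xffff)) (L (nat_lit 0xffff)))))) (N (nat_lit 0x38bddb2a486e) (N (nat_lit 0x38466dc60b46) (N (nat_lit 0x38439dbf7446) (N (nat_lit 0x38439da6411a) (L (nat_lit 0xffff)) (L (nat_lit 0x25c))) (N (nat_lit 0x38459acd1a9a) (L (nat_lit 0x268)) (L (nat_lit 0x543)))) (N (nat_lit 0x384916c7432a) (N (nat_lit 0x3848791c43be) (L (nat_lit 0x545)) (L (nat_lit 0x263))) (N (nat_lit 0x384b18c196be) (L (nat_lit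 0x26e)) (L (nat_lit 0x53b))))) (N (nat_lit 0x38fa9d18f872) (N (nat_lit 0x38f83f4d1072) (N (nat_lit 0x38f7f71d8a46) (L (nat_lit 0x325)) (L (nat_lit 0x145))) (N (nat_lit 0x38f97729f246) (L (nat_lit 0x14a)) (L (nat_lit 0x41a)))) (N (nat_lit 0x38ff6ef57816) (N (nat_lit 0x38fe401a8baa) (L (nat_lit 0x41e)) (L (nat_lit 0x14a))) (N (nat_lit 0x3900bf9b1d2a) (L (nat_lit 0x14e)) (L (nat_lit 0x41e)))))))) (N (nat_lit 0x3f675ff6ce0e) (N (nat_lit 0x3da7bb578aaa) (N (nat_lit 0x39e80564e72a) (N (nat_lit 0x3928ce14892a) (N (nat_lit 0x3923396e8646) (L (nat_lit 0x324)) (N (nat_lit 0x3927df8d5efe) (L (nat_lit 0x328)) (L (nat_lit 0x328)))) (N (nat_lit 0x39e025ef8846) (N (nat_lit 0x39ddb1471446) (L (nat_lit 0x32b)) (L (nat_lit 0x25f))) (N (nat_lit 0x39e4148898aa) (L (nat_lit 0x544)) (L (nat_lit 0x26b))))) (N (nat_lit 0x3a4a75068572) (N (nat_lit 0x3a477642ec72) (N (nat_lit 0x3a472b117a46) (L (nat_lit 0x546)) (L (nat_lit 0x25f))) (N (nat_lit 0x3a4928db5d46)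 (L (nat_lit 0x26b)) (L (nat_lit 0x544)))) (N (nat_lit 0x3ce5c0a5386a) (N (nat_lit 0x3b3ba382cf46) (L (nat_lit 0x546)) (L (nat_lit 0x339))) (N (nat_lit 0x3da3f4e46846) (L (nat_lit 0xffff)) (L (nat_lit 0x144)))))) (N (nat_lit 0x3f4ea7055f8e) (N (nat_lit 0x3ee60fc715aa) (N (nat_lit 0x3dacc3715ace) (L (nat_lit 0x158)) (N (nat_lit 0x3ee24376c746) (L (nat_lit 0x14d)) (L (nat_lit 0x25c)))) (N (nat_lit 0x3eec6199354e) (N (nat_lit 0x3ee7362eb82a) (L (nat_lit 0x268)) (L (nat_lit 0x263))) (N (nat_lit 0x3f4d60d1b82e) (L (nat_lit 0x26e)) (L (nat_lit 0x36))))) (N (nat_lit 0x3f593e4e1aee) (N (nat_lit 0x3f511e15a7ee) (N (nat_lit 0x3f5081ffacee) (L (nat_lit 0x156)) (L (nat_lit 0x25d))) (N (nat_lit 0x3f545c425eee) (L (nat_lit 0x21)) (L (nat_lit 0x146)))) (N (nat_lit 0x3f622778ddae) (N (nat_lit 0x3f6227779eee) (L (nat_lit 0x260)) (L (nat_lit 0x144))) (N (nat_lit 0x3f666aeabaae) (L (nat_lit 0x41c)) (L (nat_lit 0x158))))))) (N (nat_lit 0x4047f3dee6ee)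 (N (nat_lit 0x4034171ef246) (N (nat_lit 0x3fa441ae5b16) (N (nat_lit 0x3f6b47068dae) (L (nat_lit 0x41d)) (N (nat_lit 0x3f9ddc7f8d72) (L (nat_lit 0x14d)) (L (nat_lit 0x145)))) (N (nat_lit 0x3fe0ebbdc6ee) (N (nat_lit 0x3fac9bfb147a) (L (nat_lit 0x14a)) (L (nat_lit 0x14e))) (N (nat_lit 0x3fe0ebd6fa1a) (L (nat_lit 0x25b)) (L (nat_lit 0x267))))) (N (nat_lit 0x403fe17282ee) (N (nat_lit 0x403f96f5524e) (N (nat_lit 0x40391541402a) (L (nat_lit 0x324)) (L (nat_lit 0x328))) (N (nat_lit 0x403fcf51d5ae) (L (nat_lit 0x32b)) (L (nat_lit 0x25c)))) (N (nat_lit 0x404537c4b8ce) (N (nat_lit 0x404412c4f16e) (L (nat_lit 0x543)) (L (nat_lit 0x268))) (N (nat_lit 0x404688b0ae0e) (L (nat_lit 0x545)) (L (nat_lit 0x263)))))) (N (nat_lit 0x41357afdea6e) (N (nat_lit 0x40fcd195e972) (N (nat_lit 0x40c3e3f649ae) (N (nat_lit 0x404bc686d10e) (L (nat_lit 0x53b)) (L (nat_lit 0x26e))) (N (nat_lit 0x40c42445301a) (L (nat_lit 0x538)) (L (nat_lit 0x53c)))) (N (nat_lit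 0x41267bbf1aee) (N (nat_lit 0x410357bdbb16) (L (nat_lit 0x25f)) (L (nat_lit 0x26b))) (N (nat_lit 0x412d47d008ce) (L (nat_lit 0x324)) (L (nat_lit 0x328))))) (N (nat_lit 0x41ec86526a1a) (N (nat_lit 0x41b72c0b4aee) (N (nat_lit 0x415b26537d92) (L (nat_lit 0x32b)) (L (nat_lit 0x2e))) (N (nat_lit 0x41b7db12b79a) (L (nat_lit 0x61c)) (L (nat_lit 0x614)))) (N (nat_lit 0x42527cfde72e) (N (nat_lit 0x41ecd75df046) (L (nat_lit 0x261)) (L (nat_lit 0x26d))) (N (nat_lit 0x42527cff25ee) (L (nat_lit 0x145)) (L (nat_lit 0x41a))))))))))) (N (nat_lit 0x610a258b3b8e) (N (nat_lit 0x52111cf056d6) (N (nat_lit 0x4aa84f90f66a) (N (nat_lit 0x46d19ff2a76e) (N (nat_lit 0x4425ed259246) (N (nat_lit 0x43514ca3de8e) (N (nat_lit 0x4270ae36c672) (N (nat_lit 0x42592c433d8e) (L (nat_lit 0x14a)) (N (nat_lit 0x425e60551b6e) (L (nat_lit 0x41e)) (L (nat_lit 0x14e)))) (N (nat_lit 0x42d3b168ed46) (N (nat_lit 0x42d2e3bafcda) (L (nat_lit 0x339)) (L (nat_lit 0x53d)))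 (N (nat_lit 0x42e491ab341a) (L (nat_lit 0x542)) (L (nat_lit 0x53a))))) (N (nat_lit 0x43dd2a3745da) (N (nat_lit 0x4356e1ec618e) (N (nat_lit 0x43516028f14e) (L (nat_lit 0x25f)) (L (nat_lit 0x544))) (N (nat_lit 0x435835a92aee) (L (nat_lit 0x26b)) (L (nat_lit 0x546)))) (N (nat_lit 0x43e357cf323e) (N (nat_lit 0x43e357cdf37e) (L (nat_lit 0x615)) (L (nat_lit 0x37))) (N (nat_lit 0x43e357dd4f7e) (L (nat_lit 0x147)) (L (nat_lit 0x269)))))) (N (nat_lit 0x46085270e76a) (N (nat_lit 0x45238eff3346) (N (nat_lit 0x4426bdca4772) (L (nat_lit 0x265)) (N (nat_lit 0x445a34011b6e) (L (nat_lit 0x270)) (L (nat_lit 0x339)))) (N (nat_lit 0x4607ea6b9e6a) (N (nat_lit 0x4607ea6a5faa) (L (nat_lit 0x540)) (L (nat_lit 0x22))) (N (nat_lit 0x46083d02e9aa) (L (nat_lit 0x159)) (L (nat_lit 0x14b))))) (N (nat_lit 0x467e8ab14f3e) (N (nat_lit 0x4635adc66046) (N (nat_lit 0x4608a8ac352a) (L (nat_lit 0x26f)) (L (nat_lit 0x26c))) (N (nat_lit 0x4679e7eb771a) (L (nat_lit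 0x61d)) (L (nat_lit 0x25b)))) (N (nat_lit 0x46cb5e82a40e) (N (nat_lit 0x46c9caec0cae) (L (nat_lit 0x267)) (L (nat_lit 0x144))) (N (nat_lit 0x46ce2c01e06e) (L (nat_lit 0x41c)) (L (nat_lit 0x158))))))) (N (nat_lit 0x489abaec7e46) (N (nat_lit 0x47caea97f1be) (N (nat_lit 0x47b3c6bd2ece) (N (nat_lit 0x47808facd36e) (L (nat_lit 0x41d)) (N (nat_lit 0x47b14a28c36e) (L (nat_lit 0x36)) (L (nat_lit 0x25c)))) (N (nat_lit 0x47bd48f429ce) (N (nat_lit 0x47b82e04f3ce) (L (nat_lit 0x543)) (L (nat_lit 0x263))) (N (nat_lit 0x47c4d2916f1a) (L (nat_lit 0x53b)) (L (nat_lit 0x538))))) (N (nat_lit 0x48234f577dce) (N (nat_lit 0x481ce6d530ee) (N (nat_lit 0x481ad3d2040e) (L (nat_lit 0x53c)) (L (nat_lit 0x25c))) (N (nat_lit 0x481f3a49f7ce) (L (nat_lit 0x543)) (L (nat_lit 0x268)))) (N (nat_lit 0x484adafc53d6) (N (nat_lit 0x484a87b4e2d6) (L (nat_lit 0x545)) (L (nat_lit 0x23))) (N (nat_lit 0x484b5bc490d6) (L (nat_lit 0x14f)) (L (nat_lit 0x272)))))) (N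 (nat_lit 0x49e2d02cebee) (N (nat_lit 0x4920d3af289a) (N (nat_lit 0x49113a53fece) (N (nat_lit 0x48a1fe07ffaa) (L (nat_lit 0x261)) (L (nat_lit 0x26d))) (N (nat_lit 0x49183768a12e) (L (nat_lit 0x324)) (L (nat_lit 0x328)))) (N (nat_lit 0x49dd1d301cee) (N (nat_lit 0x4928987460be) (L (nat_lit 0x61c)) (L (nat_lit 0x614))) (N (nat_lit 0x49deb628d44e) (L (nat_lit 0x145)) (L (nat_lit 0x41a))))) (N (nat_lit 0x4a06b7682e46) (N (nat_lit 0x49e90ac28646) (N (nat_lit 0x49e6754e62ee) (L (nat_lit 0x14a)) (L (nat_lit 0x41e))) (N (nat_lit 0x49f250f78d2a) (L (nat_lit 0x53d)) (L (nat_lit 0x542)))) (N (nat_lit 0x4aa6170c4f6a) (N (nat_lit 0x4aa6170b10aa) (L (nat_lit 0x53a)) (L (nat_lit 0x37))) (N (nat_lit 0x4aa8140fa8aa) (L (nat_lit 0x147)) (L (nat_lit 0x147)))))))) (N (nat_lit 0x4ee4fcc1cc2a) (N (nat_lit 0x4cdfd9d48ed6) (N (nat_lit 0x4b5d7b24bfee) (N (nat_lit 0x4ae70592344e) (N (nat_lit 0x4aaa5c86322a) (L (nat_lit 0x269)) (N (nat_lit 0x4aacd5599902)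 (L (nat_lit 0x269)) (L (nat_lit 0x24)))) (N (nat_lit 0x4ae99b5f11ae) (N (nat_lit 0x4ae95a2c0a72) (L (nat_lit 0x25f)) (L (nat_lit 0x265))) (N (nat_lit 0x4af3b87caa16) (L (nat_lit 0x544)) (L (nat_lit 0x270))))) (N (nat_lit 0x4b680912f146) (N (nat_lit 0x4b633a617eee) (N (nat_lit 0x4b5f98ca564e) (L (nat_lit 0x25f)) (L (nat_lit 0x544))) (N (nat_lit 0x4b678de56aee) (L (nat_lit 0x26b)) (L (nat_lit 0x546)))) (N (nat_lit 0x4c77b7ee364e) (N (nat_lit 0x4c5aedffe672) (L (nat_lit 0x615)) (L (nat_lit 0x540))) (N (nat_lit 0x4cdf873c04d6) (L (nat_lit 0x339)) (L (nat_lit 0x22)))))) (N (nat_lit 0x4ce68364f3d6) (N (nat_lit 0x4ce3d2e46efe) (N (nat_lit 0x4ce184409cd6) (L (nat_lit 0x14b)) (N (nat_lit 0x4ce228dd52d6) (L (nat_lit 0x159)) (L (nat_lit 0x26f)))) (N (nat_lit 0x4ce3d955f0d6) (N (nat_lit 0x4ce3d2fda22a) (L (nat_lit 0xffff)) (L (nat_lit 0xffff))) (N (nat_lit 0x4ce4ccab05d6) (L (nat_lit 0x14b)) (L (nat_lit 0x26c))))) (N (nat_lit 0x4db9fa79db8e)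 (N (nat_lit 0x4db613ceb08e) (N (nat_lit 0x4db613cd71ce) (L (nat_lit 0x26f)) (L (nat_lit 0x22))) (N (nat_lit 0x4db9a982b44e) (L (nat_lit 0x159)) (L (nat_lit 0x14b)))) (N (nat_lit 0x4de1c5eaf372) (N (nat_lit 0x4dbdaca9034e) (L (nat_lit 0x26f)) (L (nat_lit 0x26c))) (N (nat_lit 0x4ee4d92a5bfe) (L (nat_lit 0x61d)) (L (nat_lit 0xffff))))))) (N (nat_lit 0x508821009c02) (N (nat_lit 0x50195f4ccf3a) (N (nat_lit 0x4f3bf8624802) (N (nat_lit 0x4eed0f8175ae) (L (nat_lit 0xffff)) (N (nat_lit 0x4f3793747002) (L (nat_lit 0x144)) (L (nat_lit 0x23)))) (N (nat_lit 0x4f9f3e0e126e) (N (nat_lit 0x4f4176f2a102) (L (nat_lit 0x14f)) (L (nat_lit 0x272))) (N (nat_lit 0x4fa45efd2e2e) (L (nat_lit 0x25b)) (L (nat_lit 0x267))))) (N (nat_lit 0x504d82a67d0e) (N (nat_lit 0x501cf608dcba) (N (nat_lit 0x5019b46edc3a) (L (nat_lit 0x23)) (L (nat_lit 0x14f))) (N (nat_lit 0x501db643c6ba) (L (nat_lit 0x14f)) (L (nat_lit 0x272)))) (N (nat_lit 0x508820f27ec2) (N (nat_lit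 0x508820f14002) (L (nat_lit 0x25c)) (L (nat_lit 0x19))) (N (nat_lit 0x508820f3bd82) (L (nat_lit 0x12f)) (L (nat_lit 0x40f)))))) (N (nat_lit 0x513f33e2172a) (N (nat_lit 0x50976eb2f92e) (N (nat_lit 0x5088214ab3c2) (N (nat_lit 0x508821143142) (L (nat_lit 0x23b)) (L (nat_lit 0x522))) (N (nat_lit 0x508821581502) (L (nat_lit 0x332)) (L (nat_lit 0x60c)))) (N (nat_lit 0x50b6596bbeee) (N (nat_lit 0x509f1193d18e) (L (nat_lit 0x538)) (L (nat_lit 0x53c))) (N (nat_lit 0x513ee19074fe) (L (nat_lit 0x323)) (L (nat_lit 0xffff))))) (N (nat_lit 0x51aa93f5ea6e) (N (nat_lit 0x5182ada2200e) (N (nat_lit 0x5182455de1a2) (L (nat_lit 0xffff)) (L (nat_lit 0xffff))) (N (nat_lit 0x519fef345e6e) (L (nat_lit 0xffff)) (L (nat_lit 0x61c)))) (N (nat_lit 0x520c8bf24cd6) (N (nat_lit 0x51c35d36da6e) (L (nat_lit 0x614)) (L (nat_lit 0x324))) (N (nat_lit 0x520e919ffbd6) (L (nat_lit 0x37)) (L (nat_lit 0x147))))))))) (N (nat_lit 0x5a3e4b406c6a) (N (nat_lit 0x562bca1c282e)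 (N (nat_lit 0x545b6b112902) (N (nat_lit 0x539114ff660e) (N (nat_lit 0x52cdb32250ae) (N (nat_lit 0x522443c1a1ee) (L (nat_lit 0x269)) (N (nat_lit 0x529d38b858a6) (L (nat_lit 0x145)) (L (nat_lit 0x24)))) (N (nat_lit 0x52feac23681a) (N (nat_lit 0x52d46bca43ae) (L (nat_lit 0x261)) (L (nat_lit 0x26d))) (N (nat_lit 0x538ffb6082a2) (L (nat_lit 0x326)) (L (nat_lit 0xffff))))) (N (nat_lit 0x53d30c36470e) (N (nat_lit 0x53b5fe3034ee) (N (nat_lit 0x53b1437c6b22) (L (nat_lit 0xffff)) (L (nat_lit 0xffff))) (N (nat_lit 0x53c948f7476e) (L (nat_lit 0x25f)) (L (nat_lit 0x53d)))) (N (nat_lit 0x53f1f33c41fe) (N (nat_lit 0x53e8ab5a080e) (L (nat_lit 0x542)) (L (nat_lit 0x53a))) (N (nat_lit 0x53f28042bb2a) (L (nat_lit 0xffff)) (L (nat_lit 0xffff)))))) (N (nat_lit 0x5541df06847e) (N (nat_lit 0x54f67d29d2ce) (N (nat_lit 0x545fcfadc102) (L (nat_lit 0x22)) (N (nat_lit 0x546573ad8a02) (L (nat_lit 0x14b)) (L (nat_lit 0x26c)))) (N (nat_lit 0x553f5238533a)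 (N (nat_lit 0x553d46ad783a) (L (nat_lit 0x615)) (L (nat_lit 0x22))) (N (nat_lit 0x5540e75df5ba) (L (nat_lit 0x159)) (L (nat_lit 0x14b))))) (N (nat_lit 0x5574df089646) (N (nat_lit 0x554392eb7dba) (N (nat_lit 0x5541df07c33e) (L (nat_lit 0x157)) (L (nat_lit 0x419))) (N (nat_lit 0x555ef0103cee) (L (nat_lit 0x26f)) (L (nat_lit 0x339)))) (N (nat_lit 0x55f8a80ed10e) (N (nat_lit 0x55f6b3834fa2) (L (nat_lit 0x329)) (L (nat_lit 0xffff))) (N (nat_lit 0x561edb948922) (L (nat_lit 0xffff)) (L (nat_lit 0xffff))))))) (N (nat_lit 0x58a50e84ad5e) (N (nat_lit 0x57543698647e) (N (nat_lit 0x56461e395a7e) (N (nat_lit 0x56345b07c96e) (L (nat_lit 0x265)) (N (nat_lit 0x5646028b7d3e) (L (nat_lit 0x270)) (L (nat_lit 0x262)))) (N (nat_lit 0x570b02fd0ab2) (N (nat_lit 0x570a272dc306) (L (nat_lit 0x53e)) (L (nat_lit 0xffff))) (N (nat_lit 0x574c58eaaf8e) (L (nat_lit 0xffff)) (L (nat_lit 0x540))))) (N (nat_lit 0x57b7fd26f02e) (N (nat_lit 0x57a297e956aa)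 (N (nat_lit 0x57a233c14caa) (L (nat_lit 0x327)) (L (nat_lit 0x149))) (N (nat_lit 0x57b732f87fa6) (L (nat_lit 0x41b)) (L (nat_lit 0x23)))) (N (nat_lit 0x581948b46572) (N (nat_lit 0x57bbb220cba6) (L (nat_lit 0x25b)) (L (nat_lit 0x14f))) (N (nat_lit 0x588166b7dcee) (L (nat_lit 0x32c)) (L (nat_lit 0x61d)))))) (N (nat_lit 0x59242ecd978e) (N (nat_lit 0x58ad2e4824de) (N (nat_lit 0x58a9aded656a) (N (nat_lit 0x58a8bdb307de) (L (nat_lit 0x23)) (L (nat_lit 0x14f))) (N (nat_lit 0x58aa60105e6a) (L (nat_lit 0x281)) (L (nat_lit 0x547)))) (N (nat_lit 0x58cc19afc62a) (N (nat_lit 0x58cb5ce8aaaa) (L (nat_lit 0x272)) (L (nat_lit 0x266))) (N (nat_lit 0x58e57cf5df22) (L (nat_lit 0x541)) (L (nat_lit 0xffff))))) (N (nat_lit 0x59decb46a26a) (N (nat_lit 0x5926c5027cb2) (N (nat_lit 0x59248ced1806) (L (nat_lit 0x538)) (L (nat_lit 0xffff))) (N (nat_lit 0x594d5aaad186) (L (nat_lit 0xffff)) (L (nat_lit 0xffff)))) (N (nat_lit 0x5a236c281402) (N (nat_lit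 0x5a2232f13bd6) (L (nat_lit 0x32a)) (L (nat_lit 0x15a))) (N (nat_lit 0x5a3e4b3f2daa) (L (nat_lit 0x37)) (L (nat_lit 0xffff)))))))) (N (nat_lit 0x5d75c26e02a6) (N (nat_lit 0x5b096ef8f66e) (N (nat_lit 0x5a7582cb56e2) (N (nat_lit 0x5a73d10fd382) (N (nat_lit 0x5a3e4b4e89aa) (L (nat_lit 0xffff)) (N (nat_lit 0x5a73d10e94c2) (L (nat_lit 0xffff)) (L (nat_lit 0x30)))) (N (nat_lit 0x5a7531ba0422) (N (nat_lit 0x5a73d11df0c2) (L (nat_lit 0x13b)) (L (nat_lit 0x252))) (N (nat_lit 0x5a7531bb42e2) (L (nat_lit 0x135)) (L (nat_lit 0x412))))) (N (nat_lit 0x5a77174207c2) (N (nat_lit 0x5a76024b3422) (N (nat_lit 0x5a75833ea022) (L (nat_lit 0x249)) (L (nat_lit 0x52d))) (N (nat_lit 0x5a76c6217902) (L (nat_lit 0x31e)) (L (nat_lit 0x243)))) (N (nat_lit 0x5a7891fcbf62) (N (nat_lit 0x5a77697e0d02) (L (nat_lit 0x527)) (L (nat_lit 0x619))) (N (nat_lit 0x5aa1793e246e) (L (nat_lit 0x333)) (L (nat_lit 0x61c)))))) (N (nat_lit 0x5c666bece9ca) (N (nat_lit 0x5bc7a28d6b86)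 (N (nat_lit 0x5b4c4e649e0a) (L (nat_lit 0x261)) (N (nat_lit 0x5b50968b80d6) (L (nat_lit 0x24)) (L (nat_lit 0x271)))) (N (nat_lit 0x5c665d13270a) (N (nat_lit 0x5bf8182bd286) (L (nat_lit 0xffff)) (L (nat_lit 0xffff))) (N (nat_lit 0x5c665d1465ca) (L (nat_lit 0xffff)) (L (nat_lit 0xffff))))) (N (nat_lit 0x5c8d051ec1d6) (N (nat_lit 0x5c668297b30a) (N (nat_lit 0x5c667db3b70a) (L (nat_lit 0xffff)) (L (nat_lit 0xffff))) (N (nat_lit 0x5c790b31cdce) (L (nat_lit 0xffff)) (L (nat_lit 0x53d)))) (N (nat_lit 0x5cabc1b6bdaa) (N (nat_lit 0x5ca69575596e) (L (nat_lit 0x33a)) (L (nat_lit 0x53a))) (N (nat_lit 0x5cae308cd5aa) (L (nat_lit 0x157)) (L (nat_lit 0x419))))))) (N (nat_lit 0x5f357567316a) (N (nat_lit 0x5e293a724fce) (N (nat_lit 0x5db92b44d66a) (N (nat_lit 0x5d7b88ece22a) (L (nat_lit 0x22)) (N (nat_lit 0x5d7ce4f55116) (L (nat_lit 0xffff)) (L (nat_lit 0xffff)))) (N (nat_lit 0x5e18bbbae9aa) (N (nat_lit 0x5dbc85452d6a) (L (nat_lit 0x262))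 (L (nat_lit 0x53e))) (N (nat_lit 0x5e1bf572432a) (L (nat_lit 0x262)) (L (nat_lit 0x53e))))) (N (nat_lit 0x5ea35e67b1ea) (N (nat_lit 0x5ea31110fdea) (N (nat_lit 0x5e8a8502b9ee) (L (nat_lit 0x615)) (L (nat_lit 0x265))) (N (nat_lit 0x5ea320481caa) (L (nat_lit 0xffff)) (L (nat_lit 0xffff)))) (N (nat_lit 0x5f20f4060dd6) (N (nat_lit 0x5ed2496e0186) (L (nat_lit 0xffff)) (L (nat_lit 0xffff))) (N (nat_lit 0x5f25c980f9d6) (L (nat_lit 0x149)) (L (nat_lit 0x41b)))))) (N (nat_lit 0x5ffdc797854e) (N (nat_lit 0x5f95fa901f2a) (N (nat_lit 0x5f95a12459aa) (N (nat_lit 0x5f95a1231aea) (L (nat_lit 0x327)) (L (nat_lit 0xffff))) (N (nat_lit 0x5f95ca66d24a) (L (nat_lit 0xffff)) (L (nat_lit 0xffff)))) (N (nat_lit 0x5fd2f1cbf9aa) (N (nat_lit 0x5f95fd57a50a) (L (nat_lit 0xffff)) (L (nat_lit 0xffff))) (N (nat_lit 0x5ff9655602ce) (L (nat_lit 0xffff)) (L (nat_lit 0x149))))) (N (nat_lit 0x609144b159d6) (N (nat_lit 0x605363368bd6) (N (nat_lit 0x602d4c154cee)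 (L (nat_lit 0x41b)) (L (nat_lit 0x540))) (N (nat_lit 0x6059ad06c2d6) (L (nat_lit 0x266)) (L (nat_lit 0x541)))) (N (nat_lit 0x60f52c017e4a) (N (nat_lit 0x6097639470d6) (L (nat_lit 0x281)) (L (nat_lit 0x547))) (N (nat_lit 0x6101007d8f0a) (L (nat_lit 0xffff)) (L (nat_lit 0x23)))))))))) (N (nat_lit 0x79f1bb44b4a2) (N (nat_lit 0x68d56217f77e) (N (nat_lit 0x64d623e82b0a) (N (nat_lit 0x6286065086aa) (N (nat_lit 0x61cac136a26a) (N (nat_lit 0x6193234f064e) (N (nat_lit 0x610ff17de68e) (L (nat_lit 0x281)) (N (nat_lit 0x618db03e974e) (L (nat_lit 0x547)) (L (nat_lit 0x266)))) (N (nat_lit 0x61ca4e53f70a) (N (nat_lit 0x61ca3f7a344a) (L (nat_lit 0x541)) (L (nat_lit 0xffff))) (N (nat_lit 0x61ca68bdebaa) (L (nat_lit 0xffff)) (L (nat_lit 0xffff))))) (N (nat_lit 0x61d4e8ce33d6) (N (nat_lit 0x61cb512d246a) (N (nat_lit 0x61caef7491aa) (L (nat_lit 0xffff)) (L (nat_lit 0xffff))) (N (nat_lit 0x61cb53499a8a) (L (nat_lit 0xffff)) (L (nat_lit 0xffff))))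 (N (nat_lit 0x61f2febd5bee) (N (nat_lit 0x61e564a9d4ee) (L (nat_lit 0x32a)) (L (nat_lit 0x61d))) (N (nat_lit 0x6286064f47ea) (L (nat_lit 0x323)) (L (nat_lit 0xffff)))))) (N (nat_lit 0x63d1be38cd3a) (N (nat_lit 0x62869ada662a) (N (nat_lit 0x62864b529e4a) (L (nat_lit 0xffff)) (N (nat_lit 0x628694e3a10a) (L (nat_lit 0xffff)) (L (nat_lit 0xffff)))) (N (nat_lit 0x629a12bacc3a) (N (nat_lit 0x6291e4da53aa) (L (nat_lit 0xffff)) (L (nat_lit 0xffff))) (N (nat_lit 0x62afa451e88e) (L (nat_lit 0x15a)) (L (nat_lit 0x32a))))) (N (nat_lit 0x6433986e2bba) (N (nat_lit 0x64146b1ae48a) (N (nat_lit 0x6413b8574b2a) (L (nat_lit 0x271)) (L (nat_lit 0xffff))) (N (nat_lit 0x64158fc7cb6a) (L (nat_lit 0xffff)) (L (nat_lit 0xffff)))) (N (nat_lit 0x64c7c9e3502e) (N (nat_lit 0x64bddd0125d6) (L (nat_lit 0x271)) (L (nat_lit 0x157))) (N (nat_lit 0x64d6149e584a) (L (nat_lit 0x24)) (L (nat_lit 0xffff))))))) (N (nat_lit 0x655946942662) (N (nat_lit 0x65541ec7bf82)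 (N (nat_lit 0x653c60a9696a) (N (nat_lit 0x64d65a028eaa) (L (nat_lit 0xffff)) (N (nat_lit 0x64d6cb3d856a) (L (nat_lit 0xffff)) (L (nat_lit 0xffff)))) (N (nat_lit 0x653d1ee26e2a) (N (nat_lit 0x653c8ae338ca) (L (nat_lit 0xffff)) (L (nat_lit 0xffff))) (N (nat_lit 0x65541ec680c2) (L (nat_lit 0xffff)) (L (nat_lit 0x1e))))) (N (nat_lit 0x655726adb502) (N (nat_lit 0x6555dd2be2e2) (N (nat_lit 0x655588581022) (L (nat_lit 0x154)) (L (nat_lit 0x13e))) (N (nat_lit 0x6556f44e1f82) (L (nat_lit 0x27e)) (L (nat_lit 0x416)))) (N (nat_lit 0x6557a3bdc582) (N (nat_lit 0x65579eb96642) (L (nat_lit 0x256)) (L (nat_lit 0x536))) (N (nat_lit 0x6558ae446842) (L (nat_lit 0x24e)) (L (nat_lit 0x321)))))) (N (nat_lit 0x677e7698f82a) (N (nat_lit 0x65b86984c42a) (N (nat_lit 0x655fc0db502e) (N (nat_lit 0x655ba08fe542) (L (nat_lit 0x532)) (L (nat_lit 0x611))) (N (nat_lit 0x657e90a049ba) (L (nat_lit 0x326)) (L (nat_lit 0x33a)))) (N (nat_lit 0x673bdf4b422a) (N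 (nat_lit 0x663963b268d6) (L (nat_lit 0xffff)) (L (nat_lit 0x262))) (N (nat_lit 0x677dc3dfc2ca) (L (nat_lit 0xffff)) (L (nat_lit 0xffff))))) (N (nat_lit 0x68402048a66a) (N (nat_lit 0x67ca0f4087d6) (N (nat_lit 0x677fd21fdf8a) (L (nat_lit 0xffff)) (L (nat_lit 0xffff))) (N (nat_lit 0x682c3e99353a) (L (nat_lit 0x327)) (L (nat_lit 0x149)))) (N (nat_lit 0x6840665024ca) (N (nat_lit 0x68404aaaf5ca) (L (nat_lit 0xffff)) (L (nat_lit 0xffff))) (N (nat_lit 0x684111504a2a) (L (nat_lit 0xffff)) (L (nat_lit 0xffff)))))))) (N (nat_lit 0x6f945ed4f402) (N (nat_lit 0x6c93081c87c2) (N (nat_lit 0x6b2320e2477e) (N (nat_lit 0x69cf188104ba) (N (nat_lit 0x68fca3975dae) (L (nat_lit 0x25e)) (N (nat_lit 0x69ab21cec43a) (L (nat_lit 0x329)) (L (nat_lit 0x281)))) (N (nat_lit 0x6a9d67f236ca) (N (nat_lit 0x69f40ee6303e) (L (nat_lit 0x266)) (L (nat_lit 0x539))) (N (nat_lit 0x6a9e1dafdc2a) (L (nat_lit 0xffff)) (L (nat_lit 0xffff))))) (N (nat_lit 0x6b66dc19ceca)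 (N (nat_lit 0x6b65093d80ba) (N (nat_lit 0x6b366e0a802a) (L (nat_lit 0x613)) (L (nat_lit 0xffff))) (N (nat_lit 0x6b669550b06a) (L (nat_lit 0x32a)) (L (nat_lit 0xffff)))) (N (nat_lit 0x6b717aeb5baa) (N (nat_lit 0x6b67bc33b32a) (L (nat_lit 0xffff)) (L (nat_lit 0xffff))) (N (nat_lit 0x6bd34d145e5e) (L (nat_lit 0x26a)) (L (nat_lit 0x15a)))))) (N (nat_lit 0x6e09f930d92a) (N (nat_lit 0x6cb5503929aa) (N (nat_lit 0x6c93081dc682) (L (nat_lit 0x1a)) (N (nat_lit 0x6c93082be3c2) (L (nat_lit 0x131)) (L (nat_lit 0x23f)))) (N (nat_lit 0x6d7b6f3e0ade) (N (nat_lit 0x6cca0f6e9b6e) (L (nat_lit 0x53f)) (L (nat_lit 0x32c))) (N (nat_lit 0x6de0c25e63ca) (L (nat_lit 0x271)) (L (nat_lit 0xffff))))) (N (nat_lit 0x6e0d11b13f22) (N (nat_lit 0x6e0ceea001e2) (N (nat_lit 0x6e0cee9ec322) (L (nat_lit 0x616)) (L (nat_lit 0x130))) (N (nat_lit 0x6e0d04b0f5e2) (L (nat_lit 0x410)) (L (nat_lit 0x23d)))) (N (nat_lit 0x6e4ddd87fd2a) (N (nat_lit 0x6e0d2447b322) (L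 (nat_lit 0x524)) (L (nat_lit 0x319))) (N (nat_lit 0x6f3cbf05c9de) (L (nat_lit 0xffff)) (L (nat_lit 0x33a))))))) (N (nat_lit 0x77b8dc26a482) (N (nat_lit 0x713dee4877c2) (N (nat_lit 0x70e68d5d8caa) (N (nat_lit 0x6f94752ea2c2) (L (nat_lit 0x23c)) (N (nat_lit 0x6f94a6b9c802) (L (nat_lit 0x523)) (L (nat_lit 0x60d)))) (N (nat_lit 0x713a4fc0ab02) (N (nat_lit 0x7129c9f0e662) (L (nat_lit 0x25e)) (L (nat_lit 0x318))) (N (nat_lit 0x713bc2421e62) (L (nat_lit 0x34)) (L (nat_lit 0x155))))) (N (nat_lit 0x7408cbdbd62a) (N (nat_lit 0x7188b512a72a) (N (nat_lit 0x71416ba40322) (L (nat_lit 0x259)) (L (nat_lit 0x337))) (N (nat_lit 0x726edd9e28aa) (L (nat_lit 0xffff)) (L (nat_lit 0x539)))) (N (nat_lit 0x74e816cbfa2a) (N (nat_lit 0x74720e3b95ce) (L (nat_lit 0x613)) (L (nat_lit 0x26a))) (N (nat_lit 0x76224bdc2a4e) (L (nat_lit 0xffff)) (L (nat_lit 0x53f)))))) (N (nat_lit 0x79436ee18f42) (N (nat_lit 0x77bca9d6a8c2) (N (nat_lit 0x77baa1e833e2) (N (nat_lit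 0x77b8dc27e342) (L (nat_lit 0x31)) (L (nat_lit 0x13c))) (N (nat_lit 0x77baf2f986a2) (L (nat_lit 0x137)) (L (nat_lit 0x24b)))) (N (nat_lit 0x7941a91fffe2) (N (nat_lit 0x77e49ef10b4e) (L (nat_lit 0x246)) (L (nat_lit 0x616))) (N (nat_lit 0x7941bf3232a2) (L (nat_lit 0x153)) (L (nat_lit 0x254))))) (N (nat_lit 0x7946e2fb6622) (N (nat_lit 0x79449fe83542) (N (nat_lit 0x7943e355b602) (L (nat_lit 0x413)) (L (nat_lit 0x530))) (N (nat_lit 0x79453eb4b802) (L (nat_lit 0x24a)) (L (nat_lit 0x335)))) (N (nat_lit 0x79ef0540a242) (N (nat_lit 0x79ef053f6382) (L (nat_lit 0x529)) (L (nat_lit 0x136))) (N (nat_lit 0x79f15d3771e2) (L (nat_lit 0x414)) (L (nat_lit 0x244))))))))) (N (nat_lit 0x9d8d624b60e2) (N (nat_lit 0x8cf266b31d82) (N (nat_lit 0x8572a11417e2) (N (nat_lit 0x7b8ffdc6dc42) (N (nat_lit 0x7adb58f8a222) (N (nat_lit 0x79f4045cc1c2) (L (nat_lit 0x52a)) (N (nat_lit 0x7ad85882b0c2) (L (nat_lit 0x31c)) (L (nat_lit 0x253)))) (N (nat_lit 0x7b8da57d8de2)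 (N (nat_lit 0x7adf17713102) (L (nat_lit 0x52e)) (L (nat_lit 0x60f))) (N (nat_lit 0x7b8dbc36f0a2) (L (nat_lit 0x27c)) (L (nat_lit 0x52f))))) (N (nat_lit 0x7ebcd058fc7e) (N (nat_lit 0x7d3ac78969c2) (N (nat_lit 0x7b90814a2302) (L (nat_lit 0x528)) (L (nat_lit 0x610))) (N (nat_lit 0x7e38751e9282) (L (nat_lit 0x31f)) (L (nat_lit 0x35)))) (N (nat_lit 0x83dc6395ebe2) (N (nat_lit 0x83da94ee3c82) (L (nat_lit 0x325)) (L (nat_lit 0x33))) (N (nat_lit 0x83dee411c142) (L (nat_lit 0x140)) (L (nat_lit 0x250)))))) (N (nat_lit 0x87d68dd4d5e2) (N (nat_lit 0x8627f51cab82) (N (nat_lit 0x8575a484ed42) (L (nat_lit 0x142)) (N (nat_lit 0x8579c3f2b4a2) (L (nat_lit 0x258)) (L (nat_lit 0x322)))) (N (nat_lit 0x862a5702e9e2) (N (nat_lit 0x8629c628dae2) (L (nat_lit 0x13f)) (L (nat_lit 0x417))) (N (nat_lit 0x862ce8ec2f42) (L (nat_lit 0x257)) (L (nat_lit 0x534))))) (N (nat_lit 0x8899d8f54242) (N (nat_lit 0x8894397cbf82) (N (nat_lit 0x87d99db79b42) (L (nat_lit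 0x27f)) (L (nat_lit 0x537))) (N (nat_lit 0x8896a025bde2) (L (nat_lit 0x24f)) (L (nat_lit 0x533)))) (N (nat_lit 0x8a5a30aa24e2) (N (nat_lit 0x88ba0174f1aa) (L (nat_lit 0x61b)) (L (nat_lit 0xffff))) (N (nat_lit 0x8cf266b1dec2) (L (nat_lit 0x336)) (L (nat_lit 0x1b))))))) (N (nat_lit 0x9899e29beec2) (N (nat_lit 0x90683a111b82) (N (nat_lit 0x8ebbb696f28e) (N (nat_lit 0x8e9e61a4ea22) (L (nat_lit 0x133)) (N (nat_lit 0x8e9e7c561ce2) (L (nat_lit 0x132)) (L (nat_lit 0x241)))) (N (nat_lit 0x904d0e287c42) (N (nat_lit 0x904cbee87582) (L (nat_lit 0xffff)) (L (nat_lit 0x411))) (N (nat_lit 0x90591065fb02) (L (nat_lit 0x526)) (L (nat_lit 0x240))))) (N (nat_lit 0x936e964705c2) (N (nat_lit 0x9109781af6c2) (N (nat_lit 0x9068877a7e42) (L (nat_lit 0x23e)) (L (nat_lit 0x31a))) (N (nat_lit 0x92269e91e862) (L (nat_lit 0x20)) (L (nat_lit 0x525)))) (N (nat_lit 0x95a6e809a632) (N (nat_lit 0x9405a60b1342) (L (nat_lit 0x143)) (L (nat_lit 0x60e))) (N (nat_lit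 0x95f3b6d659c2) (L (nat_lit 0xffff)) (L (nat_lit 0x25a)))))) (N (nat_lit 0x9bbe74a264e2) (N (nat_lit 0x9a5d3b025b6a) (N (nat_lit 0x9954c385f6e2) (N (nat_lit 0x99528a3d6782) (L (nat_lit 0x338)) (L (nat_lit 0x32))) (N (nat_lit 0x9a5d3b011caa) (L (nat_lit 0x139)) (L (nat_lit 0xffff)))) (N (nat_lit 0x9b10da95c842) (N (nat_lit 0x9b0d6ba792e2) (L (nat_lit 0xffff)) (L (nat_lit 0x13d))) (N (nat_lit 0x9bbb83825682) (L (nat_lit 0x24d)) (L (nat_lit 0x138))))) (N (nat_lit 0x9d218d3178ca) (N (nat_lit 0x9ceb15598ba2) (N (nat_lit 0x9ce62a8ae442) (L (nat_lit 0x247)) (L (nat_lit 0x255))) (N (nat_lit 0x9d217b44360a) (L (nat_lit 0x320)) (L (nat_lit 0xffff)))) (N (nat_lit 0x9d7bb1858396) (N (nat_lit 0x9d78c73d01e2) (L (nat_lit 0xffff)) (L (nat_lit 0x415))) (N (nat_lit 0x9d7d36142642) (L (nat_lit 0xffff)) (L (nat_lit 0x52c)))))))) (N (nat_lit 0xab7e10dd7d4a) (N (nat_lit 0xa3e58e55b4aa) (N (nat_lit 0xa018d68104e2) (N (nat_lit 0x9f69d74e2242) (N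 (nat_lit 0x9e4341ee7a82) (L (nat_lit 0x24c)) (N (nat_lit 0x9e470676f3e2) (L (nat_lit 0x245)) (L (nat_lit 0x334)))) (N (nat_lit 0x9feba05cf62a) (N (nat_lit 0x9feb4f4fcf6a) (L (nat_lit 0x531)) (L (nat_lit 0xffff))) (N (nat_lit 0x9ffd1b1d3cea) (L (nat_lit 0xffff)) (L (nat_lit 0xffff))))) (N (nat_lit 0xa11437c5554a) (N (nat_lit 0xa03ef209382a) (N (nat_lit 0xa03ec51ab56a) (L (nat_lit 0x52b)) (L (nat_lit 0xffff))) (N (nat_lit 0xa11402a41dea) (L (nat_lit 0xffff)) (L (nat_lit 0xffff)))) (N (nat_lit 0xa322feddf84a) (N (nat_lit 0xa20f0ef71542) (L (nat_lit 0xffff)) (L (nat_lit 0x61a))) (N (nat_lit 0xa3e4cf6a574a) (L (nat_lit 0xffff)) (L (nat_lit 0xffff)))))) (N (nat_lit 0xa7770c10544a) (N (nat_lit 0xa6668384d92a) (N (nat_lit 0xa4a1075ef14a) (N (nat_lit 0xa4a0ab819aea) (L (nat_lit 0xffff)) (L (nat_lit 0xffff))) (N (nat_lit 0xa63a301121ba) (L (nat_lit 0xffff)) (L (nat_lit 0xffff)))) (N (nat_lit 0xa70ea5c3f6aa) (N (nat_lit 0xa6b5d9a94f82)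 (L (nat_lit 0xffff)) (L (nat_lit 0x1f))) (N (nat_lit 0xa710149dc60a) (L (nat_lit 0xffff)) (L (nat_lit 0xffff))))) (N (nat_lit 0xa8867cc57cea) (N (nat_lit 0xa78fa5abdb4a) (N (nat_lit 0xa7783bfac0aa) (L (nat_lit 0xffff)) (L (nat_lit 0xffff))) (N (nat_lit 0xa8205e1ca46a) (L (nat_lit 0xffff)) (L (nat_lit 0xffff)))) (N (nat_lit 0xa9360a03ee82) (N (nat_lit 0xa8870932de4a) (L (nat_lit 0xffff)) (L (nat_lit 0xffff))) (N (nat_lit 0xaac216026aaa) (L (nat_lit 0x141)) (L (nat_lit 0xffff))))))) (N (nat_lit 0xb7b43c951822) (N (nat_lit 0xaf65f8aebe6a) (N (nat_lit 0xabd5008dd282) (N (nat_lit 0xabb89f138d82) (L (nat_lit 0xffff)) (N (nat_lit 0xabc0616d316a) (L (nat_lit 0x418)) (L (nat_lit 0xffff)))) (N (nat_lit 0xae78f96f2682) (N (nat_lit 0xabd648aa4282) (L (nat_lit 0x27d)) (L (nat_lit 0x251))) (N (nat_lit 0xaed4f00e43aa) (L (nat_lit 0x535)) (L (nat_lit 0xffff))))) (N (nat_lit 0xb1c029287c02) (N (nat_lit 0xafb98d32336a) (N (nat_lit 0xaf85d7929b6a)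 (L (nat_lit 0xffff)) (L (nat_lit 0xffff))) (N (nat_lit 0xb13e832cbf82) (L (nat_lit 0xffff)) (L (nat_lit 0x612)))) (N (nat_lit 0xb39e38ce5b62) (N (nat_lit 0xb3879da61d6a) (L (nat_lit 0x1c)) (L (nat_lit 0xffff))) (N (nat_lit 0xb59a305320c2) (L (nat_lit 0x134)) (L (nat_lit 0x242)))))) (N (nat_lit 0xef07ac5e094a) (N (nat_lit 0xc4b1915f87c2) (N (nat_lit 0xbf5ac7ca14c2) (N (nat_lit 0xb7b5188e7c6a) (L (nat_lit 0x31b)) (L (nat_lit 0xffff))) (N (nat_lit 0xc1f6a8f4a3c2) (L (nat_lit 0x1d)) (L (nat_lit 0x13a)))) (N (nat_lit 0xdb1d2398ee82) (N (nat_lit 0xc78bb171bcc2) (L (nat_lit 0x248)) (L (nat_lit 0x31d))) (N (nat_lit 0xeba73d53ebea) (L (nat_lit 0x2f)) (L (nat_lit 0xffff))))) (N (nat_lit 0xf7e66c04422a) (N (nat_lit 0xf3bd79cd052a) (N (nat_lit 0xf2c12cac4caa) (L (nat_lit 0xffff)) (L (nat_lit 0xffff))) (N (nat_lit 0xf6d3d25e820a) (L (nat_lit 0xffff)) (L (nat_lit 0xffff)))) (N (nat_lit 0x101442215472a) (N (nat_lit 0xfc689d27842a) (L (nat_lit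 0xffff)) (L (nat_lit 0xffff))) (N (nat_lit 0x14e2e3ebc726a) (L (nat_lit 0xffff)) (L (nat_lit 0xffff))))))))))))) St.N St.L
noncomputable def tHE : St := (fun (N : ℕ → St → St → St) (L : ℕ → St) => (N (nat_lit 0x11193ea829ae) tHE_0 tHE_1)) St.N St.L
noncomputable def tHV : St := (fun (N : ℕ → St → St → St) (L : ℕ → St) => (N (nat_lit 0xd953501840e) (N (nat_lit 0x419d891ad8e) (N (nat_lit 0x24ec6c7e7fe) (N (nat_lit 0x559b8a2a) (N (nat_lit 0x168b77be) (N (nat_lit 0x597492) (N (nat_lit 0x27e52) (N (nat_lit 0x13f92) (L (nat_lit 0)) (L (nat_lit 0x100))) (N (nat_lit 0xf5cd2) (L (nat_lit 0x400)) (N (nat_lit 0x22f212) (L (nat_lit 0x200)) (L (nat_lit 0x537))))) (N (nat_lit 0xb0063be) (N (nat_lit 0x66d5d2) (L (nat_lit 0x300)) (N (nat_lit 0xaff24fe) (L (nat_lit 0x600)) (L (nat_lit 2)))) (N (nat_lit 0xb0e80fe) (L (nat_lit 0x104)) (N (nat_lit 0x168a38fe) (L (nat_lit 0x208)) (L (nat_lit 0x102)))))) (N (nat_lit 0x2c0a787e) (N (nat_lit 0x1763d2fe)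 (N (nat_lit 0x16d426be) (L (nat_lit 0x418)) (N (nat_lit 0x17476ffe) (L (nat_lit 0x204)) (L (nat_lit 0x503)))) (N (nat_lit 0x2a3cae7e) (L (nat_lit 0x304)) (N (nat_lit 0x2a95d83e) (L (nat_lit 0x202)) (L (nat_lit 0x501))))) (N (nat_lit 0x40626f2a) (N (nat_lit 0x2d8dd42a) (L (nat_lit 0x602)) (N (nat_lit 0x2d8f12ea) (L (nat_lit 4)) (L (nat_lit 0x108)))) (N (nat_lit 0x40d2a4ea) (L (nat_lit 0x106)) (N (nat_lit 0x49ce517e) (L (nat_lit 0x20c)) (L (nat_lit 0x302))))))) (N (nat_lit 0x20dda2f15fe) (N (nat_lit 0x7cc8beaa) (N (nat_lit 0x5c667baa) (N (nat_lit 0x573f96ea) (L (nat_lit 0x403)) (N (nat_lit 0x5c43f62a) (L (nat_lit 0x507)) (L (nat_lit 0x206)))) (N (nat_lit 0x5d9186ea) (L (nat_lit 0x20a)) (N (nat_lit 0x6edaba56) (L (nat_lit 0x306)) (L (nat_lit 6))))) (N (nat_lit 0xacafc256) (N (nat_lit 0x8902a056) (L (nat_lit 0x505)) (N (nat_lit 0xababab2a) (L (nat_lit 0x10a)) (L (nat_lit 0x604)))) (N (nat_lit 0xdad74856) (L (nat_lit 0x20e)) (N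 (nat_lit 0xe026a382) (L (nat_lit 0x308)) (L (nat_lit 8)))))) (N (nat_lit 0x20df1033bea) (N (nat_lit 0x20de52e3a2a) (N (nat_lit 0x20dda3054be) (L (nat_lit 1)) (N (nat_lit 0x20dda3e71fe) (L (nat_lit 0x103)) (L (nat_lit 0x207)))) (N (nat_lit 0x20de52f78ea) (L (nat_lit 9)) (N (nat_lit 0x20df0b94e2a) (L (nat_lit 0x11c)) (L (nat_lit 0x10d))))) (N (nat_lit 0x20e1a918456) (N (nat_lit 0x20e046bc3aa) (L (nat_lit 0x21f)) (N (nat_lit 0x20e07bce956) (L (nat_lit 0x214)) (L (nat_lit 0xd)))) (N (nat_lit 0x20e36730b56) (L (nat_lit 0x11e)) (N (nat_lit 0x20e4909cf82) (L (nat_lit 0x22a)) (L (nat_lit 0x10)))))))) (N (nat_lit 0x250c4f06d56) (N (nat_lit 0x24f23f58d2a) (N (nat_lit 0x24eda0eeefe) (N (nat_lit 0x24ed1c70c2a) (N (nat_lit 0x24ec6c926be) (L (nat_lit 0x101)) (N (nat_lit 0x24ecd0ea5be) (L (nat_lit 0x401)) (L (nat_lit 0x203)))) (N (nat_lit 0x24ed3d361fe) (L (nat_lit 0x10e)) (N (nat_lit 0x24ed80dc9ea) (L (nat_lit 0x303)) (L (nat_lit 0x220)))))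 (N (nat_lit 0x24ef455bb56) (N (nat_lit 0x24edd52202a) (L (nat_lit 0x502)) (N (nat_lit 0x24ef1336cea) (L (nat_lit 0x405)) (L (nat_lit 0x517)))) (N (nat_lit 0x24f086dde2a) (L (nat_lit 0x114)) (N (nat_lit 0x24f086f1cea) (L (nat_lit 0x10c)) (L (nat_lit 0x408)))))) (N (nat_lit 0x24fadc5ec2a) (N (nat_lit 0x24f830d7956) (N (nat_lit 0x24f313b6aea) (L (nat_lit 0x210)) (N (nat_lit 0x24f4b9e6daa) (L (nat_lit 0x50e)) (L (nat_lit 0x309)))) (N (nat_lit 0x24f98469456) (L (nat_lit 0x112)) (N (nat_lit 0x24fa6e6bf56) (L (nat_lit 0x40a)) (L (nat_lit 0x222))))) (N (nat_lit 0x24fd7c46a56) (N (nat_lit 0x24fb4d03cea) (L (nat_lit 0x21c)) (N (nat_lit 0x24fd435b656) (L (nat_lit 0x310)) (L (nat_lit 0x519)))) (N (nat_lit 0x24ffc9d1daa) (L (nat_lit 0x226)) (N (nat_lit 0x2504a9ddb82) (L (nat_lit 0x50a)) (L (nat_lit 0x118))))))) (N (nat_lit 0x2977cfcd056) (N (nat_lit 0x296405e18ea) (N (nat_lit 0x29600f0efaa) (N (nat_lit 0x295f5f1cb7e) (L (nat_lit 0x314))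 (N (nat_lit 0x295fc80053e) (L (nat_lit 0x201)) (L (nat_lit 0x500)))) (N (nat_lit 0x2961e3fb57e) (L (nat_lit 0x215)) (N (nat_lit 0x29639702b2a) (L (nat_lit 0x601)) (L (nat_lit 0x211))))) (N (nat_lit 0x296b7d24656) (N (nat_lit 0x29655491a2a) (L (nat_lit 0x50f)) (N (nat_lit 0x296783986ea) (L (nat_lit 0x509)) (L (nat_lit 0x609)))) (N (nat_lit 0x296e69d8baa) (L (nat_lit 0x218)) (N (nat_lit 0x2975460ca56) (L (nat_lit 0x50b)) (L (nat_lit 0x213)))))) (N (nat_lit 0x2e41e3f19aa) (N (nat_lit 0x2985047412a) (N (nat_lit 0x297a7b2e556) (L (nat_lit 0x511)) (N (nat_lit 0x297cef82256) (L (nat_lit 0x513)) (L (nat_lit 0x60b)))) (N (nat_lit 0x298ae05a882) (L (nat_lit 0x606)) (N (nat_lit 0x2e3d8de8c7e) (L (nat_lit 0x21a)) (L (nat_lit 0x301))))) (N (nat_lit 0x414ff46c022) (N (nat_lit 0x2e542c2a656) (L (nat_lit 0x30a)) (N (nat_lit 0x2e7e5390e82) (L (nat_lit 0x30c)) (L (nat_lit 0x30e)))) (N (nat_lit 0x414ff47fee2) (L (nat_lit 0x2b)) (N (nat_lit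 0x414ff561c22) (L (nat_lit 0x119)) (L (nat_lit 0x232))))))))) (N (nat_lit 0x92198b46e56) (N (nat_lit 0x494a238017a) (N (nat_lit 0x484d06a5de2) (N (nat_lit 0x41ed2376afa) (N (nat_lit 0x41b7a54748e) (N (nat_lit 0x419d892ec4e) (L (nat_lit 0xb)) (L (nat_lit 0x120))) (N (nat_lit 0x41b7ac4aa4e) (L (nat_lit 0x11b)) (N (nat_lit 0x41d5e44210e) (L (nat_lit 0x236)) (L (nat_lit 0x234))))) (N (nat_lit 0x423fd78c466) (N (nat_lit 0x4207b4d7cfa) (L (nat_lit 0x2c)) (N (nat_lit 0x4222de8cafa) (L (nat_lit 0x122)) (L (nat_lit 0x238)))) (N (nat_lit 0x484c84b36a2) (L (nat_lit 0x12)) (N (nat_lit 0x484c84c7562) (L (nat_lit 0x10b)) (L (nat_lit 0x404)))))) (N (nat_lit 0x48ba10ea84e) (N (nat_lit 0x489d4744f0e) (N (nat_lit 0x484d91147a2) (L (nat_lit 0x21b)) (N (nat_lit 0x484e1669322) (L (nat_lit 0x30f)) (L (nat_lit 0x514)))) (N (nat_lit 0x489dcb9be4e) (L (nat_lit 0x110)) (N (nat_lit 0x48b870c760e) (L (nat_lit 0x224)) (L (nat_lit 0x407))))) (N (nat_lit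 0x48edc6d6b8e) (N (nat_lit 0x48c97e5830e) (L (nat_lit 0x51b)) (N (nat_lit 0x48ca14a514e) (L (nat_lit 0x21e)) (L (nat_lit 0x312)))) (N (nat_lit 0x48f0101fb7a) (L (nat_lit 0x516)) (N (nat_lit 0x491cc3eca7a) (L (nat_lit 0x116)) (L (nat_lit 0x228))))))) (N (nat_lit 0x837d9f79182) (N (nat_lit 0x509d7006a8e) (N (nat_lit 0x4fe23bcd6a2) (N (nat_lit 0x4fdef86f9a2) (L (nat_lit 0x316)) (N (nat_lit 0x4fdf7f760e2) (L (nat_lit 0x20f)) (L (nat_lit 0x508)))) (N (nat_lit 0x5032f964d0e) (L (nat_lit 0x605)) (N (nat_lit 0x5060f41ad0e) (L (nat_lit 0x266)) (L (nat_lit 0x50d))))) (N (nat_lit 0x837ac6afcea) (N (nat_lit 0x58108a66522) (L (nat_lit 0x608)) (N (nat_lit 0x837ac69be2a) (L (nat_lit 0x32c)) (L (nat_lit 3)))) (N (nat_lit 0x837b768e256) (L (nat_lit 0x107)) (N (nat_lit 0x837c2f3f656) (L (nat_lit 0xc)) (L (nat_lit 0x113)))))) (N (nat_lit 0x8ab77e7cd82) (N (nat_lit 0x8aab6d5eb56) (N (nat_lit 0x8aaabd6c72a) (L (nat_lit 0x16)) (N (nat_lit 0x8aab3204cea)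 (L (nat_lit 0x105)) (L (nat_lit 0x20b)))) (N (nat_lit 0x8aafd483256) (L (nat_lit 0x11d)) (N (nat_lit 0x8ab1d6ee156) (L (nat_lit 0x111)) (L (nat_lit 0x217))))) (N (nat_lit 0x9203604fcea) (N (nat_lit 0x8ab93d79356) (L (nat_lit 0x126)) (N (nat_lit 0x9200d94502a) (L (nat_lit 0x225)) (L (nat_lit 0x402)))) (N (nat_lit 0x9205f05bb56) (L (nat_lit 0x506)) (N (nat_lit 0x9217a8d0982) (L (nat_lit 0x409)) (L (nat_lit 0x40d)))))))) (N (nat_lit 0xc0db7f5214e) (N (nat_lit 0x9b9d76f0b56) (N (nat_lit 0x93b725a4cea) (N (nat_lit 0x92695f4da82) (N (nat_lit 0x92517eef1aa) (L (nat_lit 0x512)) (N (nat_lit 0x9256b38c656) (L (nat_lit 0x209)) (L (nat_lit 0x221)))) (N (nat_lit 0x93b61ed9c2a) (L (nat_lit 0x22c)) (N (nat_lit 0x93b6cecc056) (L (nat_lit 0x205)) (L (nat_lit 0x22b))))) (N (nat_lit 0x93ce0160a82) (N (nat_lit 0x93c0c5d7356) (L (nat_lit 0x305)) (N (nat_lit 0x93c46835156) (L (nat_lit 0x212)) (L (nat_lit 0x30b)))) (N (nat_lit 0x93d1d49a456) (L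 (nat_lit 0x22d)) (N (nat_lit 0x9b983c582aa) (L (nat_lit 0x313)) (L (nat_lit 0x504)))))) (N (nat_lit 0xb8ae1eb568e) (N (nat_lit 0xa5821c66d2a) (N (nat_lit 0x9ba30178756) (L (nat_lit 0x518)) (N (nat_lit 0x9bbb85e1782) (L (nat_lit 0x510)) (L (nat_lit 0x51d)))) (N (nat_lit 0xa58d0e5c756) (L (nat_lit 0x603)) (N (nat_lit 0xa5b25912582) (L (nat_lit 0x60a)) (L (nat_lit 0x60d))))) (N (nat_lit 0xb91634a6cfa) (N (nat_lit 0xb8ae1ec954e) (L (nat_lit 0xa)) (N (nat_lit 0xb8fc187a5fa) (L (nat_lit 0x11f)) (L (nat_lit 0x2d)))) (N (nat_lit 0xb94c51afd66) (L (nat_lit 0x127)) (N (nat_lit 0xc0db0ab9b8e) (L (nat_lit 0x18)) (L (nat_lit 0x11a))))))) (N (nat_lit 0xca7b412c266) (N (nat_lit 0xc3404e6e80e) (N (nat_lit 0xc1503a78dfa) (N (nat_lit 0xc129047eafa) (L (nat_lit 0x235)) (N (nat_lit 0xc14bdb949fa) (L (nat_lit 0x128)) (L (nat_lit 0x124)))) (N (nat_lit 0xc16ae1d2ffa) (L (nat_lit 0x23f)) (N (nat_lit 0xc1a47901d66) (L (nat_lit 0x23a)) (L (nat_lit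 0x12c))))) (N (nat_lit 0xc3bdbd55e7a) (N (nat_lit 0xc340e08d74e) (L (nat_lit 0x10f)) (N (nat_lit 0xc391761627a) (L (nat_lit 0x223)) (L (nat_lit 0x125)))) (N (nat_lit 0xc984a36b60e) (L (nat_lit 0x22e)) (N (nat_lit 0xc9f5cdf4dfa) (L (nat_lit 0x233)) (L (nat_lit 0x23b)))))) (N (nat_lit 0xcdd5f5bc84e) (N (nat_lit 0xcc0df6e467a) (N (nat_lit 0xcb98ead0d0e) (L (nat_lit 0x23d)) (N (nat_lit 0xcb9bcf20f4e) (L (nat_lit 0x406)) (L (nat_lit 0x51a)))) (N (nat_lit 0xcc44f32f17a) (L (nat_lit 0x40c)) (N (nat_lit 0xcdd4d0cea0e) (L (nat_lit 0x51e)) (L (nat_lit 0x21d))))) (N (nat_lit 0xce7b033d60e) (N (nat_lit 0xce25fadac7a) (L (nat_lit 0x311)) (N (nat_lit 0xce5f7d8b07a) (L (nat_lit 0x22f)) (L (nat_lit 0x318)))) (N (nat_lit 0xd6c5b49008e) (L (nat_lit 0x216)) (N (nat_lit 0xd73b22b1f7a) (L (nat_lit 0x515)) (L (nat_lit 0x51f)))))))))) (N (nat_lit 0x6f94a6b9c802) (N (nat_lit 0x24ceba63c26e) (N (nat_lit 0x13e69db91956) (N (nat_lit 0x11e4bcde65b2)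 (N (nat_lit 0x106153417f5e) (N (nat_lit 0x1054556378b2) (N (nat_lit 0xe4e1adcff8e) (L (nat_lit 0x50c)) (L (nat_lit 0x607))) (N (nat_lit 0x10545564b772) (L (nat_lit 0x13)) (N (nat_lit 0x105e1b3d415e) (L (nat_lit 0x12d)) (L (nat_lit 0x15))))) (N (nat_lit 0x111ac6e15e72) (N (nat_lit 0x10681b87af0a) (L (nat_lit 0x12f)) (N (nat_lit 0x111abd992732) (L (nat_lit 0x1a)) (L (nat_lit 0x123)))) (N (nat_lit 0x1124b65adede) (L (nat_lit 0x23e)) (N (nat_lit 0x11291188a1de) (L (nat_lit 0x12a)) (L (nat_lit 0x241)))))) (N (nat_lit 0x12232a16c6de) (N (nat_lit 0x12137cfc9832) (N (nat_lit 0x11e4f1444d72) (L (nat_lit 0x40b)) (N (nat_lit 0x11ec46456a32) (L (nat_lit 0x520)) (L (nat_lit 0x239)))) (N (nat_lit 0x121391a5f3f2) (L (nat_lit 0x229)) (N (nat_lit 0x121da91e8ede) (L (nat_lit 0x317)) (L (nat_lit 0x231))))) (N (nat_lit 0x12ea95384b32) (N (nat_lit 0x127ebedb7556) (L (nat_lit 0x31a)) (N (nat_lit 0x127ec9da9982) (L (nat_lit 5)) (L (nat_lit 0xf))))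 (N (nat_lit 0x1323d15eb956) (L (nat_lit 0x51c)) (N (nat_lit 0x13243ba22582) (L (nat_lit 0x109)) (L (nat_lit 0x117))))))) (N (nat_lit 0x18dbe201d27a) (N (nat_lit 0x1722efed7e66) (N (nat_lit 0x14c729547d56) (N (nat_lit 0x13e78525a282) (L (nat_lit 0x20d)) (N (nat_lit 0x13f81d8300b2) (L (nat_lit 0x219)) (L (nat_lit 0x60c)))) (N (nat_lit 0x14c8af57a882) (L (nat_lit 0x307)) (N (nat_lit 0x171e066394fa) (L (nat_lit 0x30d)) (L (nat_lit 0xe))))) (N (nat_lit 0x18008398457a) (N (nat_lit 0x17d2e83a14fa) (L (nat_lit 0x17)) (N (nat_lit 0x17da18075e66) (L (nat_lit 0x121)) (L (nat_lit 0x12b)))) (N (nat_lit 0x18a583e7b0fa) (L (nat_lit 0x115)) (N (nat_lit 0x18af51e2b366) (L (nat_lit 0x237)) (L (nat_lit 0x23c)))))) (N (nat_lit 0x1e33622c3fde) (N (nat_lit 0x1d3d84cb1f0a) (N (nat_lit 0x19d4ffb6277a) (L (nat_lit 0x227)) (N (nat_lit 0x1d339fbd725e) (L (nat_lit 0x315)) (L (nat_lit 0x14)))) (N (nat_lit 0x1df850e72e5e) (L (nat_lit 0x1c)) (N (nat_lit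 0x1e069169e30a) (L (nat_lit 0x12e)) (L (nat_lit 0x131))))) (N (nat_lit 0x20772f3bb5de) (N (nat_lit 0x1f1e900f50de) (L (nat_lit 0x129)) (N (nat_lit 0x1f657ef61fde) (L (nat_lit 0x240)) (L (nat_lit 0x230)))) (N (nat_lit 0x20e625e5d782) (L (nat_lit 0x319)) (N (nat_lit 0x24bfb2c73482) (L (nat_lit 7)) (L (nat_lit 0x1b)))))))) (N (nat_lit 0x5a77174207c2) (N (nat_lit 0x508821143142) (N (nat_lit 0x370bbd2b4b6e) (N (nat_lit 0x272c1cfff402) (N (nat_lit 0x25dcba79e302) (L (nat_lit 0x1e)) (N (nat_lit 0x26d181111766) (L (nat_lit 0x130)) (L (nat_lit 0x11)))) (N (nat_lit 0x28ade0895b82) (L (nat_lit 0x242)) (N (nat_lit 0x2e334921b90a) (L (nat_lit 0x31b)) (L (nat_lit 0x19))))) (N (nat_lit 0x508820f27ec2) (N (nat_lit 0x415b26537d92) (L (nat_lit 0x1d)) (N (nat_lit 0x508820f14002) (L (nat_lit 0x1f)) (L (nat_lit 0x20)))) (N (nat_lit 0x508820f3bd82) (L (nat_lit 0x132)) (N (nat_lit 0x508821009c02) (L (nat_lit 0x40e)) (L (nat_lit 0x243)))))) (N (nat_lit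 0x5a7531ba0422) (N (nat_lit 0x5a73d10e94c2) (N (nat_lit 0x5088214ab3c2) (L (nat_lit 0x521)) (N (nat_lit 0x508821581502) (L (nat_lit 0x31c)) (L (nat_lit 0x615)))) (N (nat_lit 0x5a73d10fd382) (L (nat_lit 0x22)) (N (nat_lit 0x5a73d11df0c2) (L (nat_lit 0x135)) (L (nat_lit 0x24b))))) (N (nat_lit 0x5a75833ea022) (N (nat_lit 0x5a7531bb42e2) (L (nat_lit 0x134)) (N (nat_lit 0x5a7582cb56e2) (L (nat_lit 0x410)) (L (nat_lit 0x247)))) (N (nat_lit 0x5a76024b3422) (L (nat_lit 0x525)) (N (nat_lit 0x5a76c6217902) (L (nat_lit 0x320)) (L (nat_lit 0x245))))))) (N (nat_lit 0x655946942662) (N (nat_lit 0x6555dd2be2e2) (N (nat_lit 0x65541ec680c2) (N (nat_lit 0x5a77697e0d02) (L (nat_lit 0x523)) (N (nat_lit 0x5a7891fcbf62) (L (nat_lit 0x60f)) (L (nat_lit 0x31e)))) (N (nat_lit 0x65541ec7bf82) (L (nat_lit 0x24)) (N (nat_lit 0x655588581022) (L (nat_lit 0x149)) (L (nat_lit 0x137))))) (N (nat_lit 0x65579eb96642) (N (nat_lit 0x6556f44e1f82) (L (nat_lit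 0x24f)) (N (nat_lit 0x655726adb502) (L (nat_lit 0x412)) (L (nat_lit 0x24d)))) (N (nat_lit 0x6557a3bdc582) (L (nat_lit 0x529)) (N (nat_lit 0x6558ae446842) (L (nat_lit 0x249)) (L (nat_lit 0x32d)))))) (N (nat_lit 0x6e0ceea001e2) (N (nat_lit 0x6c93081dc682) (N (nat_lit 0x655ba08fe542) (L (nat_lit 0x527)) (N (nat_lit 0x6c93081c87c2) (L (nat_lit 0x611)) (L (nat_lit 0x21)))) (N (nat_lit 0x6c93082be3c2) (L (nat_lit 0x148)) (N (nat_lit 0x6e0cee9ec322) (L (nat_lit 0x24a)) (L (nat_lit 0x133))))) (N (nat_lit 0x6e0d2447b322) (N (nat_lit 0x6e0d04b0f5e2) (L (nat_lit 0x40f)) (N (nat_lit 0x6e0d11b13f22) (L (nat_lit 0x246)) (L (nat_lit 0x524)))) (N (nat_lit 0x6f945ed4f402) (L (nat_lit 0x31f)) (N (nat_lit 0x6f94752ea2c2) (L (nat_lit 0x244)) (L (nat_lit 0x522))))))))) (N (nat_lit 0x8a5a30aa24e2) (N (nat_lit 0x7ad85882b0c2) (N (nat_lit 0x7941a91fffe2) (N (nat_lit 0x71416ba40322) (N (nat_lit 0x713a4fc0ab02) (N (nat_lit 0x7129c9f0e662) (L (nat_lit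 0x60e)) (L (nat_lit 0x31d))) (N (nat_lit 0x713bc2421e62) (L (nat_lit 0x25)) (N (nat_lit 0x713dee4877c2) (L (nat_lit 0x13a)) (L (nat_lit 0x251))))) (N (nat_lit 0x77baa1e833e2) (N (nat_lit 0x77b8dc26a482) (L (nat_lit 0x323)) (N (nat_lit 0x77b8dc27e342) (L (nat_lit 0x27)) (L (nat_lit 0x144)))) (N (nat_lit 0x77baf2f986a2) (L (nat_lit 0x13c)) (N (nat_lit 0x77bca9d6a8c2) (L (nat_lit 0x25d)) (L (nat_lit 0x256)))))) (N (nat_lit 0x7946e2fb6622) (N (nat_lit 0x7943e355b602) (N (nat_lit 0x7941bf3232a2) (L (nat_lit 0x13d)) (N (nat_lit 0x79436ee18f42) (L (nat_lit 0x25e)) (L (nat_lit 0x413)))) (N (nat_lit 0x79449fe83542) (L (nat_lit 0x533)) (N (nat_lit 0x79453eb4b802) (L (nat_lit 0x25c)) (L (nat_lit 0x32e))))) (N (nat_lit 0x79f15d3771e2) (N (nat_lit 0x79ef053f6382) (L (nat_lit 0x52b)) (N (nat_lit 0x79ef0540a242) (L (nat_lit 0x13b)) (L (nat_lit 0x414)))) (N (nat_lit 0x79f1bb44b4a2) (L (nat_lit 0x252)) (N (nat_lit 0x79f4045cc1c2) (L (nat_lit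 0x52d)) (L (nat_lit 0x324))))))) (N (nat_lit 0x8572a11417e2) (N (nat_lit 0x7b90814a2302) (N (nat_lit 0x7b8da57d8de2) (N (nat_lit 0x7adb58f8a222) (L (nat_lit 0x257)) (N (nat_lit 0x7adf17713102) (L (nat_lit 0x52c)) (L (nat_lit 0x612)))) (N (nat_lit 0x7b8dbc36f0a2) (L (nat_lit 0x253)) (N (nat_lit 0x7b8ffdc6dc42) (L (nat_lit 0x52e)) (L (nat_lit 0x52a))))) (N (nat_lit 0x83da94ee3c82) (N (nat_lit 0x7d3ac78969c2) (L (nat_lit 0x616)) (N (nat_lit 0x7e38751e9282) (L (nat_lit 0x325)) (L (nat_lit 0x26)))) (N (nat_lit 0x83dc6395ebe2) (L (nat_lit 0x28)) (N (nat_lit 0x83dee411c142) (L (nat_lit 0x146)) (L (nat_lit 0x262)))))) (N (nat_lit 0x862ce8ec2f42) (N (nat_lit 0x8627f51cab82) (N (nat_lit 0x8575a484ed42) (L (nat_lit 0x141)) (N (nat_lit 0x8579c3f2b4a2) (L (nat_lit 0x261)) (L (nat_lit 0x32b)))) (N (nat_lit 0x8629c628dae2) (L (nat_lit 0x13f)) (N (nat_lit 0x862a5702e9e2) (L (nat_lit 0x416)) (L (nat_lit 0x267))))) (N (nat_lit 0x8894397cbf82)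 (N (nat_lit 0x87d68dd4d5e2) (L (nat_lit 0x535)) (N (nat_lit 0x87d99db79b42) (L (nat_lit 0x259)) (L (nat_lit 0x532)))) (N (nat_lit 0x8896a025bde2) (L (nat_lit 0x255)) (N (nat_lit 0x8899d8f54242) (L (nat_lit 0x530)) (L (nat_lit 0x617)))))))) (N (nat_lit 0x9d78c73d01e2) (N (nat_lit 0x936e964705c2) (N (nat_lit 0x904d0e287c42) (N (nat_lit 0x8e9e61a4ea22) (N (nat_lit 0x8cf266b1dec2) (L (nat_lit 0x327)) (N (nat_lit 0x8cf266b31d82) (L (nat_lit 0x23)) (L (nat_lit 0x138)))) (N (nat_lit 0x8e9e7c561ce2) (L (nat_lit 0x136)) (N (nat_lit 0x904cbee87582) (L (nat_lit 0x24e)) (L (nat_lit 0x411))))) (N (nat_lit 0x9068877a7e42) (N (nat_lit 0x90591065fb02) (L (nat_lit 0x528)) (N (nat_lit 0x90683a111b82) (L (nat_lit 0x24c)) (L (nat_lit 0x248)))) (N (nat_lit 0x9109781af6c2) (L (nat_lit 0x321)) (N (nat_lit 0x92269e91e862) (L (nat_lit 0x2a)) (L (nat_lit 0x526)))))) (N (nat_lit 0x9b0d6ba792e2) (N (nat_lit 0x9899e29beec2) (N (nat_lit 0x9405a60b1342)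 (L (nat_lit 0x143)) (N (nat_lit 0x95f3b6d659c2) (L (nat_lit 0x610)) (L (nat_lit 0x25b)))) (N (nat_lit 0x99528a3d6782) (L (nat_lit 0x329)) (N (nat_lit 0x9954c385f6e2) (L (nat_lit 0x30)) (L (nat_lit 0x140))))) (N (nat_lit 0x9bbe74a264e2) (N (nat_lit 0x9b10da95c842) (L (nat_lit 0x145)) (N (nat_lit 0x9bbb83825682) (L (nat_lit 0x260)) (L (nat_lit 0x13e)))) (N (nat_lit 0x9ce62a8ae442) (L (nat_lit 0x258)) (N (nat_lit 0x9ceb15598ba2) (L (nat_lit 0x263)) (L (nat_lit 0x32a))))))) (N (nat_lit 0xabd648aa4282) (N (nat_lit 0xa018d68104e2) (N (nat_lit 0x9e4341ee7a82) (N (nat_lit 0x9d7d36142642) (L (nat_lit 0x415)) (N (nat_lit 0x9d8d624b60e2) (L (nat_lit 0x531)) (L (nat_lit 0x25f)))) (N (nat_lit 0x9e470676f3e2) (L (nat_lit 0x254)) (N (nat_lit 0x9f69d74e2242) (L (nat_lit 0x326)) (L (nat_lit 0x534))))) (N (nat_lit 0xa9360a03ee82) (N (nat_lit 0xa20f0ef71542) (L (nat_lit 0x52f)) (N (nat_lit 0xa6b5d9a94f82) (L (nat_lit 0x613)) (L (nat_lit 0x31))))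 (N (nat_lit 0xabb89f138d82) (L (nat_lit 0x147)) (N (nat_lit 0xabd5008dd282) (L (nat_lit 0x417)) (L (nat_lit 0x265)))))) (N (nat_lit 0xb7b43c951822) (N (nat_lit 0xb1c029287c02) (N (nat_lit 0xae78f96f2682) (L (nat_lit 0x264)) (N (nat_lit 0xb13e832cbf82) (L (nat_lit 0x536)) (L (nat_lit 0x614)))) (N (nat_lit 0xb39e38ce5b62) (L (nat_lit 0x2e)) (N (nat_lit 0xb59a305320c2) (L (nat_lit 0x139)) (L (nat_lit 0x250))))) (N (nat_lit 0xc4b1915f87c2) (N (nat_lit 0xbf5ac7ca14c2) (L (nat_lit 0x322)) (N (nat_lit 0xc1f6a8f4a3c2) (L (nat_lit 0x29)) (L (nat_lit 0x142)))) (N (nat_lit 0xc78bb171bcc2) (L (nat_lit 0x25a)) (N (nat_lit 0xdb1d2398ee82) (L (nat_lit 0x328)) (L (nat_lit 0x2f)))))))))))) St.N St.L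
noncomputable def tFV : Tr := (fun (N : Tr → Tr → Tr) (L : ℕ → Tr) => (N (N (N (N (N (N (N (N (N (L (nat_lit 0)) (L (nat_lit 0x145))) (N (L (nat_lit 0x13f)) (L (nat_lit 0)))) (N (N (L (nat_lit 0x28)) (L (nat_lit 0x518))) (N (L (nat_lit 0x115)) (L (nat_lit 0))))) (N (N (N (L (nat_lit 0x103)) (L (nat_lit 0x527))) (N (L (nat_lit 0x407)) (L (nat_lit 0)))) (N (N (L (nat_lit 0x13a)) (L (nat_lit 0x23d))) (N (L (nat_lit 0x322)) (L (nat_lit 0)))))) (N (N (N (N (L (nat_lit 0x202)) (L (nat_lit 0x40a))) (N (L (nat_lit 0x14)) (L (nat_lit 0)))) (N (N (L (nat_lit 0x109)) (L (nat_lit 0x610))) (N (L (nat_lit 0x21a)) (L (nat_lit 0))))) (N (N (N (L (nat_lit 0x207)) (L (nat_lit 0x51b))) (N (L (nat_lit 0x143)) (L (nat_lit 0)))) (N (N (L (nat_lit 0x21c)) (L (nat_lit 0x616))) (N (L (nat_lit 0x220)) (L (nat_lit 0))))))) (N (N (N (N (N (L (nat_lit 0x102)) (L (nat_lit 0x128))) (N (L (nat_lit 0x20e)) (L (nat_lit 0)))) (N (N (L (nat_lit 0x304)) (L (nat_lit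 0x52d))) (N (L (nat_lit 0x307)) (L (nat_lit 0))))) (N (N (N (L (nat_lit 0xb)) (L (nat_lit 0x32e))) (N (L (nat_lit 0x18)) (L (nat_lit 0)))) (N (N (L (nat_lit 0x205)) (L (nat_lit 0x23f))) (N (L (nat_lit 0x11d)) (L (nat_lit 0)))))) (N (N (N (N (L (nat_lit 0x302)) (L (nat_lit 0x311))) (N (L (nat_lit 0x233)) (L (nat_lit 0)))) (N (N (L (nat_lit 0xf)) (L (nat_lit 0x316))) (N (L (nat_lit 0x25b)) (L (nat_lit 0))))) (N (N (N (L (nat_lit 0x418)) (L (nat_lit 0x12d))) (N (L (nat_lit 0x142)) (L (nat_lit 0)))) (N (N (L (nat_lit 0x246)) (L (nat_lit 0x60d))) (N (L (nat_lit 0x224)) (L (nat_lit 0)))))))) (N (N (N (N (N (N (L (nat_lit 0x100)) (L (nat_lit 0x225))) (N (L (nat_lit 0x249)) (L (nat_lit 0)))) (N (N (L (nat_lit 0x211)) (L (nat_lit 0x519))) (N (L (nat_lit 0x255)) (L (nat_lit 0))))) (N (N (N (L (nat_lit 0xa)) (L (nat_lit 0x507))) (N (L (nat_lit 0x24f)) (L (nat_lit 0)))) (N (N (L (nat_lit 0x29)) (L (nat_lit 0x32a))) (N (L (nat_lit 0x328))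 (L (nat_lit 0)))))) (N (N (N (N (L (nat_lit 5)) (L (nat_lit 0x526))) (N (L (nat_lit 0x114)) (L (nat_lit 0)))) (N (N (L (nat_lit 0x10)) (L (nat_lit 0x60a))) (N (L (nat_lit 0x1c)) (L (nat_lit 0))))) (N (N (N (L (nat_lit 0x119)) (L (nat_lit 0x528))) (N (L (nat_lit 0x251)) (L (nat_lit 0)))) (N (N (L (nat_lit 0x403)) (L (nat_lit 0x319))) (N (L (nat_lit 0x223)) (L (nat_lit 0))))))) (N (N (N (N (N (L (nat_lit 3)) (L (nat_lit 0x25e))) (N (L (nat_lit 0x15)) (L (nat_lit 0)))) (N (N (L (nat_lit 0x303)) (L (nat_lit 0x415))) (N (L (nat_lit 0x259)) (L (nat_lit 0))))) (N (N (N (L (nat_lit 0x106)) (L (nat_lit 0x40c))) (N (L (nat_lit 0x17)) (L (nat_lit 0)))) (N (N (L (nat_lit 0x11a)) (L (nat_lit 0x534))) (N (L (nat_lit 0x11e)) (L (nat_lit 0)))))) (N (N (N (N (L (nat_lit 0x32c)) (L (nat_lit 0x228))) (N (L (nat_lit 0x234)) (L (nat_lit 0)))) (N (N (L (nat_lit 0x2a)) (L (nat_lit 0x130))) (N (L (nat_lit 0x326)) (L (nat_lit 0))))) (N (N (N (L (nat_lit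 0x107)) (L (nat_lit 0x22c))) (N (L (nat_lit 0x509)) (L (nat_lit 0)))) (N (N (L (nat_lit 0x123)) (L (nat_lit 0))) (N (L (nat_lit 0x222)) (L (nat_lit 0))))))))) (N (N (N (N (N (N (N (L (nat_lit 0x20)) (L (nat_lit 0x121))) (N (L (nat_lit 0x601)) (L (nat_lit 0)))) (N (N (L (nat_lit 0x21b)) (L (nat_lit 0x416))) (N (L (nat_lit 0x229)) (L (nat_lit 0))))) (N (N (N (L (nat_lit 0x104)) (L (nat_lit 0x506))) (N (L (nat_lit 0x514)) (L (nat_lit 0)))) (N (N (L (nat_lit 0x309)) (L (nat_lit 0x520))) (N (L (nat_lit 0x60c)) (L (nat_lit 0)))))) (N (N (N (N (L (nat_lit 6)) (L (nat_lit 0x129))) (N (L (nat_lit 0x405)) (L (nat_lit 0)))) (N (N (L (nat_lit 0x214)) (L (nat_lit 0x231))) (N (L (nat_lit 0x321)) (L (nat_lit 0))))) (N (N (N (L (nat_lit 0xd)) (L (nat_lit 0x12b))) (N (L (nat_lit 0x605)) (L (nat_lit 0)))) (N (N (L (nat_lit 0x247)) (L (nat_lit 0x535))) (N (L (nat_lit 0x410)) (L (nat_lit 0))))))) (N (N (N (N (N (L (nat_lit 4)) (L (nat_lit 0x409)))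 (N (L (nat_lit 0x212)) (L (nat_lit 0)))) (N (N (L (nat_lit 0x245)) (L (nat_lit 0x12f))) (N (L (nat_lit 0x40b)) (L (nat_lit 0))))) (N (N (N (L (nat_lit 0x10c)) (L (nat_lit 0x23b))) (N (L (nat_lit 0x117)) (L (nat_lit 0)))) (N (N (L (nat_lit 0x206)) (L (nat_lit 0x40d))) (N (L (nat_lit 0x40f)) (L (nat_lit 0)))))) (N (N (N (N (L (nat_lit 0x2e)) (L (nat_lit 0x52a))) (N (L (nat_lit 0x257)) (L (nat_lit 0)))) (N (N (L (nat_lit 0x216)) (L (nat_lit 0x52f))) (N (L (nat_lit 0x30e)) (L (nat_lit 0))))) (N (N (N (L (nat_lit 0xc)) (L (nat_lit 0x22e))) (N (L (nat_lit 0x19)) (L (nat_lit 0)))) (N (N (L (nat_lit 0x20b)) (L (nat_lit 0x31b))) (N (L (nat_lit 0x412)) (L (nat_lit 0)))))))) (N (N (N (N (N (N (L (nat_lit 0x101)) (L (nat_lit 0x25d))) (N (L (nat_lit 0x602)) (L (nat_lit 0)))) (N (N (L (nat_lit 0x20a)) (L (nat_lit 0x238))) (N (L (nat_lit 0x308)) (L (nat_lit 0))))) (N (N (N (L (nat_lit 0x133)) (L (nat_lit 0x512))) (N (L (nat_lit 0x31f))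 (L (nat_lit 0)))) (N (N (L (nat_lit 0x11)) (L (nat_lit 0x23c))) (N (L (nat_lit 0x11c)) (L (nat_lit 0)))))) (N (N (N (N (L (nat_lit 0x301)) (L (nat_lit 0x147))) (N (L (nat_lit 0x113)) (L (nat_lit 0)))) (N (N (L (nat_lit 0x404)) (L (nat_lit 0x611))) (N (L (nat_lit 0x607)) (L (nat_lit 0))))) (N (N (N (L (nat_lit 0x135)) (L (nat_lit 0x615))) (N (L (nat_lit 0x30b)) (L (nat_lit 0)))) (N (N (L (nat_lit 0x20c)) (L (nat_lit 0x536))) (N (L (nat_lit 0x221)) (L (nat_lit 0))))))) (N (N (N (N (N (L (nat_lit 0x201)) (L (nat_lit 0x236))) (N (L (nat_lit 0x248)) (L (nat_lit 0)))) (N (N (L (nat_lit 0x30)) (L (nat_lit 0x12e))) (N (L (nat_lit 0x606)) (L (nat_lit 0))))) (N (N (N (L (nat_lit 0x537)) (L (nat_lit 0x261))) (N (L (nat_lit 0x50c)) (L (nat_lit 0)))) (N (N (L (nat_lit 0x13d)) (L (nat_lit 0x241))) (N (L (nat_lit 0x521)) (L (nat_lit 0)))))) (N (N (N (N (L (nat_lit 0x2f)) (L (nat_lit 0x609))) (N (L (nat_lit 0x320)) (L (nat_lit 0)))) (N (N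 (L (nat_lit 0x508)) (L (nat_lit 0x612))) (N (L (nat_lit 0x1e)) (L (nat_lit 0))))) (N (N (N (L (nat_lit 0x209)) (L (nat_lit 0x22f))) (N (L (nat_lit 0x116)) (L (nat_lit 0)))) (N (N (L (nat_lit 0x504)) (L (nat_lit 0))) (N (L (nat_lit 0x310)) (L (nat_lit 0)))))))))) (N (N (N (N (N (N (N (N (L (nat_lit 1)) (L (nat_lit 0x411))) (N (L (nat_lit 0x21e)) (L (nat_lit 0)))) (N (N (L (nat_lit 0x110)) (L (nat_lit 0x52e))) (N (L (nat_lit 0x31)) (L (nat_lit 0))))) (N (N (N (L (nat_lit 0x132)) (L (nat_lit 0x124))) (N (L (nat_lit 0x50b)) (L (nat_lit 0)))) (N (N (L (nat_lit 0x31e)) (L (nat_lit 0x51f))) (N (L (nat_lit 0x1d)) (L (nat_lit 0)))))) (N (N (N (N (L (nat_lit 0x300)) (L (nat_lit 0x525))) (N (L (nat_lit 0x232)) (L (nat_lit 0)))) (N (N (L (nat_lit 0xe)) (L (nat_lit 0x264))) (N (L (nat_lit 0x258)) (L (nat_lit 0))))) (N (N (N (L (nat_lit 0x243)) (L (nat_lit 0x529))) (N (L (nat_lit 0x50d)) (L (nat_lit 0)))) (N (N (L (nat_lit 0x502)) (L (nat_lit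 0x51d))) (N (L (nat_lit 0x408)) (L (nat_lit 0))))))) (N (N (N (N (N (L (nat_lit 0x200)) (L (nat_lit 0x235))) (N (L (nat_lit 0x252)) (L (nat_lit 0)))) (N (N (L (nat_lit 0x10a)) (L (nat_lit 0x313))) (N (L (nat_lit 0x1b)) (L (nat_lit 0))))) (N (N (N (L (nat_lit 0x203)) (L (nat_lit 0x12c))) (N (L (nat_lit 0x140)) (L (nat_lit 0)))) (N (N (L (nat_lit 0x13b)) (L (nat_lit 0x533))) (N (L (nat_lit 0x11f)) (L (nat_lit 0)))))) (N (N (N (N (L (nat_lit 8)) (L (nat_lit 0x510))) (N (L (nat_lit 0x406)) (L (nat_lit 0)))) (N (N (L (nat_lit 0x138)) (L (nat_lit 0x265))) (N (L (nat_lit 0x608)) (L (nat_lit 0))))) (N (N (N (L (nat_lit 0x108)) (L (nat_lit 0x414))) (N (L (nat_lit 0x250)) (L (nat_lit 0)))) (N (N (L (nat_lit 0x111)) (L (nat_lit 0x617))) (N (L (nat_lit 0x50f)) (L (nat_lit 0)))))))) (N (N (N (N (N (N (L (nat_lit 0x2b)) (L (nat_lit 0x524))) (N (L (nat_lit 0x505)) (L (nat_lit 0)))) (N (N (L (nat_lit 0x137)) (L (nat_lit 0x314))) (N (L (nat_lit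 0x604)) (L (nat_lit 0))))) (N (N (N (L (nat_lit 0x105)) (L (nat_lit 0x23a))) (N (L (nat_lit 0x256)) (L (nat_lit 0)))) (N (N (L (nat_lit 0x139)) (L (nat_lit 0x531))) (N (L (nat_lit 0x1f)) (L (nat_lit 0)))))) (N (N (N (N (L (nat_lit 0x20f)) (L (nat_lit 0x25f))) (N (L (nat_lit 0x24a)) (L (nat_lit 0)))) (N (N (L (nat_lit 0x215)) (L (nat_lit 0x530))) (N (L (nat_lit 0x51c)) (L (nat_lit 0))))) (N (N (N (L (nat_lit 0x401)) (L (nat_lit 0x22a))) (N (L (nat_lit 0x324)) (L (nat_lit 0)))) (N (N (L (nat_lit 0x503)) (L (nat_lit 0x613))) (N (L (nat_lit 0x522)) (L (nat_lit 0))))))) (N (N (N (N (N (L (nat_lit 0x10b)) (L (nat_lit 0x226))) (N (L (nat_lit 0x13e)) (L (nat_lit 0)))) (N (N (L (nat_lit 0x2c)) (L (nat_lit 0x237))) (N (L (nat_lit 0x516)) (L (nat_lit 0))))) (N (N (N (L (nat_lit 0x204)) (L (nat_lit 0x52c))) (N (L (nat_lit 0x239)) (L (nat_lit 0)))) (N (N (L (nat_lit 0x402)) (L (nat_lit 0x417))) (N (L (nat_lit 0x21f)) (L (nat_lit 0))))))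 (N (N (N (N (L (nat_lit 0x26)) (L (nat_lit 0x312))) (N (L (nat_lit 0x50a)) (L (nat_lit 0)))) (N (N (L (nat_lit 0x266)) (L (nat_lit 0x51e))) (N (L (nat_lit 0x30d)) (L (nat_lit 0))))) (N (N (N (L (nat_lit 0x10f)) (L (nat_lit 0x262))) (N (L (nat_lit 0x24d)) (L (nat_lit 0)))) (N (N (L (nat_lit 0x21d)) (L (nat_lit 0))) (N (L (nat_lit 0x50e)) (L (nat_lit 0))))))))) (N (N (N (N (N (N (N (L (nat_lit 2)) (L (nat_lit 0x127))) (N (L (nat_lit 0x213)) (L (nat_lit 0)))) (N (N (L (nat_lit 0x500)) (L (nat_lit 0x60f))) (N (L (nat_lit 0x603)) (L (nat_lit 0))))) (N (N (N (L (nat_lit 0x400)) (L (nat_lit 0x25c))) (N (L (nat_lit 0x218)) (L (nat_lit 0)))) (N (N (L (nat_lit 0x12)) (L (nat_lit 0x532))) (N (L (nat_lit 0x329)) (L (nat_lit 0)))))) (N (N (N (N (L (nat_lit 0x23)) (L (nat_lit 0x227))) (N (L (nat_lit 0x24b)) (L (nat_lit 0)))) (N (N (L (nat_lit 0x31c)) (L (nat_lit 0x317))) (N (L (nat_lit 0x219)) (L (nat_lit 0))))) (N (N (N (L (nat_lit 0x10e))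 (L (nat_lit 0x260))) (N (L (nat_lit 0x30c)) (L (nat_lit 0)))) (N (N (L (nat_lit 0x112)) (L (nat_lit 0x242))) (N (L (nat_lit 0x125)) (L (nat_lit 0))))))) (N (N (N (N (N (L (nat_lit 0x21)) (L (nat_lit 0x413))) (N (L (nat_lit 0x305)) (L (nat_lit 0)))) (N (N (L (nat_lit 0x210)) (L (nat_lit 0x263))) (N (L (nat_lit 0x515)) (L (nat_lit 0))))) (N (N (N (L (nat_lit 0x134)) (L (nat_lit 0x51a))) (N (L (nat_lit 0x24e)) (L (nat_lit 0)))) (N (N (L (nat_lit 0x600)) (L (nat_lit 0x240))) (N (L (nat_lit 0x144)) (L (nat_lit 0)))))) (N (N (N (N (L (nat_lit 7)) (L (nat_lit 0x267))) (N (L (nat_lit 0x141)) (L (nat_lit 0)))) (N (N (L (nat_lit 0x31d)) (L (nat_lit 0x315))) (N (L (nat_lit 0x323)) (L (nat_lit 0))))) (N (N (N (L (nat_lit 0x148)) (L (nat_lit 0x60e))) (N (L (nat_lit 0x30f)) (L (nat_lit 0)))) (N (N (L (nat_lit 0x2d)) (L (nat_lit 0x614))) (N (L (nat_lit 0x523)) (L (nat_lit 0)))))))) (N (N (N (N (N (N (L (nat_lit 0x22)) (L (nat_lit 0x126)))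 (N (L (nat_lit 0x306)) (L (nat_lit 0)))) (N (N (L (nat_lit 0x501)) (L (nat_lit 0x22d))) (N (L (nat_lit 0x254)) (L (nat_lit 0))))) (N (N (N (L (nat_lit 0x27)) (L (nat_lit 0x52b))) (N (L (nat_lit 0x217)) (L (nat_lit 0)))) (N (N (L (nat_lit 0x13)) (L (nat_lit 0x131))) (N (L (nat_lit 0x40e)) (L (nat_lit 0)))))) (N (N (N (N (L (nat_lit 0x25)) (L (nat_lit 0x12a))) (N (L (nat_lit 0x16)) (L (nat_lit 0)))) (N (N (L (nat_lit 0x149)) (L (nat_lit 0x60b))) (N (L (nat_lit 0x327)) (L (nat_lit 0))))) (N (N (N (L (nat_lit 0x208)) (L (nat_lit 0x22b))) (N (L (nat_lit 0x1a)) (L (nat_lit 0)))) (N (N (L (nat_lit 0x13c)) (L (nat_lit 0x31a))) (N (L (nat_lit 0x146)) (L (nat_lit 0))))))) (N (N (N (N (N (L (nat_lit 0x24)) (L (nat_lit 0x517))) (N (L (nat_lit 0x20d)) (L (nat_lit 0)))) (N (N (L (nat_lit 0x136)) (L (nat_lit 0x230))) (N (L (nat_lit 0x32d)) (L (nat_lit 0))))) (N (N (N (L (nat_lit 0x10d)) (L (nat_lit 0x513))) (N (L (nat_lit 0x325)) (L (nat_lit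 0)))) (N (N (L (nat_lit 0x11b)) (L (nat_lit 0x318))) (N (L (nat_lit 0x120)) (L (nat_lit 0)))))) (N (N (N (N (L (nat_lit 9)) (L (nat_lit 0x511))) (N (L (nat_lit 0x118)) (L (nat_lit 0)))) (N (N (L (nat_lit 0x30a)) (L (nat_lit 0x32b))) (N (L (nat_lit 0x25a)) (L (nat_lit 0))))) (N (N (N (L (nat_lit 0x244)) (L (nat_lit 0x23e))) (N (L (nat_lit 0x24c)) (L (nat_lit 0)))) (N (N (L (nat_lit 0x253)) (L (nat_lit 0))) (N (L (nat_lit 0x122)) (L (nat_lit 0)))))))))))) Tr.N Tr.L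
noncomputable def tWV : Tr := (fun (N : Tr → Tr → Tr) (L : ℕ → Tr) => (N (N (N (N (N (N (N (N (N (N (N (L (nat_lit 0)) (L (nat_lit 0x23))) (N (L (nat_lit 9)) (L (nat_lit 0x6b)))) (N (N (L (nat_lit 4)) (L (nat_lit 0x43))) (N (L (nat_lit 0x11)) (L (nat_lit 0))))) (L (nat_lit 0))) (N (N (N (L (nat_lit 0)) (N (L (nat_lit 0x16b)) (L (nat_lit 0)))) (N (N (L (nat_lit 0xa9)) (L (nat_lit 0))) (L (nat_lit 0)))) (L (nat_lit 0)))) (N (N (N (N (N (L (nat_lit 2)) (L (nat_lit 0))) (N (L (nat_lit 0xf0)) (L (nat_lit 0)))) (N (N (L (nat_lit 0xef)) (L (nat_lit 0x162))) (N (L (nat_lit 0x9e)) (L (nat_lit 0))))) (L (nat_lit 0))) (N (N (N (L (nat_lit 0)) (N (L (nat_lit 0x133)) (L (nat_lit 0)))) (L (nat_lit 0))) (L (nat_lit 0))))) (N (N (N (N (N (N (L (nat_lit 0x54)) (L (nat_lit 0xf2))) (N (L (nat_lit 0x4b)) (L (nat_lit 0x150)))) (N (N (L (nat_lit 0x41)) (L (nat_lit 0x119))) (N (L (nat_lit 0xfe)) (L (nat_lit 0))))) (L (nat_lit 0))) (N (N (N (L (nat_lit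 0)) (N (L (nat_lit 0xb9)) (L (nat_lit 0)))) (L (nat_lit 0))) (L (nat_lit 0)))) (N (N (N (N (N (L (nat_lit 0x4e)) (L (nat_lit 0))) (N (L (nat_lit 0x14f)) (L (nat_lit 0)))) (N (N (L (nat_lit 0x15c)) (L (nat_lit 0x155))) (L (nat_lit 0)))) (L (nat_lit 0))) (L (nat_lit 0))))) (N (N (N (N (N (N (N (L (nat_lit 0x19)) (L (nat_lit 0xf1))) (N (L (nat_lit 0x37)) (L (nat_lit 0xd9)))) (N (N (L (nat_lit 0x39)) (L (nat_lit 0x5e))) (N (L (nat_lit 0xc6)) (L (nat_lit 0))))) (L (nat_lit 0))) (N (N (N (L (nat_lit 0)) (N (L (nat_lit 0x8e)) (L (nat_lit 0)))) (N (N (L (nat_lit 0x3b)) (L (nat_lit 0))) (L (nat_lit 0)))) (L (nat_lit 0)))) (N (N (N (N (N (L (nat_lit 0x40)) (L (nat_lit 0))) (N (L (nat_lit 0x11c)) (L (nat_lit 0)))) (N (N (L (nat_lit 0x108)) (L (nat_lit 0x134))) (N (L (nat_lit 0xe4)) (L (nat_lit 0))))) (L (nat_lit 0))) (L (nat_lit 0)))) (N (N (N (N (N (N (L (nat_lit 0xa8)) (L (nat_lit 0x38))) (N (L (nat_lit 0xa3)) (L (nat_lit 0)))) (N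 (N (L (nat_lit 0x9f)) (L (nat_lit 0x140))) (N (L (nat_lit 0x16f)) (L (nat_lit 0))))) (L (nat_lit 0))) (N (N (N (L (nat_lit 0)) (N (L (nat_lit 0xd1)) (L (nat_lit 0)))) (L (nat_lit 0))) (L (nat_lit 0)))) (N (N (N (N (L (nat_lit 0)) (N (L (nat_lit 0x146)) (L (nat_lit 0)))) (N (N (L (nat_lit 0x59)) (L (nat_lit 0))) (L (nat_lit 0)))) (L (nat_lit 0))) (L (nat_lit 0)))))) (N (N (N (N (N (N (N (N (L (nat_lit 0xa)) (L (nat_lit 0x56))) (N (L (nat_lit 0x2d)) (L (nat_lit 0xc5)))) (N (N (L (nat_lit 0x22)) (L (nat_lit 0x7e))) (N (L (nat_lit 0x48)) (L (nat_lit 0))))) (L (nat_lit 0))) (N (N (N (L (nat_lit 0)) (N (L (nat_lit 0x3f)) (L (nat_lit 0)))) (N (N (L (nat_lit 0xeb)) (L (nat_lit 0))) (L (nat_lit 0)))) (L (nat_lit 0)))) (N (N (N (N (N (L (nat_lit 0xf)) (L (nat_lit 0))) (N (L (nat_lit 0xf8)) (L (nat_lit 0)))) (N (N (L (nat_lit 0x121)) (L (nat_lit 0x105))) (N (L (nat_lit 0xb5)) (L (nat_lit 0))))) (L (nat_lit 0))) (N (N (N (L (nat_lit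 0)) (N (L (nat_lit 0x151)) (L (nat_lit 0)))) (L (nat_lit 0))) (L (nat_lit 0))))) (N (N (N (N (N (N (L (nat_lit 0x90)) (L (nat_lit 0x139))) (N (L (nat_lit 0x52)) (L (nat_lit 0x17b)))) (N (N (L (nat_lit 0x94)) (L (nat_lit 0xa2))) (N (L (nat_lit 0x145)) (L (nat_lit 0))))) (L (nat_lit 0))) (N (N (N (L (nat_lit 0)) (N (L (nat_lit 0xc7)) (L (nat_lit 0)))) (L (nat_lit 0))) (L (nat_lit 0)))) (N (N (N (N (L (nat_lit 0)) (N (L (nat_lit 0x9c)) (L (nat_lit 0)))) (N (N (L (nat_lit 0x2b)) (L (nat_lit 0x16c))) (L (nat_lit 0)))) (L (nat_lit 0))) (L (nat_lit 0))))) (N (N (N (N (N (N (N (L (nat_lit 0x3a)) (L (nat_lit 0x12c))) (N (L (nat_lit 0x76)) (L (nat_lit 0xe2)))) (N (N (L (nat_lit 0x2a)) (L (nat_lit 0xae))) (N (L (nat_lit 0xb3)) (L (nat_lit 0))))) (L (nat_lit 0))) (N (N (N (L (nat_lit 0)) (N (L (nat_lit 0xbf)) (L (nat_lit 0)))) (L (nat_lit 0))) (L (nat_lit 0)))) (N (N (N (N (N (L (nat_lit 0x4d)) (L (nat_lit 0))) (N (L (nat_lit 0x13c))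 (L (nat_lit 0)))) (N (N (L (nat_lit 0x129)) (L (nat_lit 0x12d))) (N (L (nat_lit 0x1c)) (L (nat_lit 0))))) (L (nat_lit 0))) (L (nat_lit 0)))) (N (N (N (N (N (N (L (nat_lit 0xd4)) (L (nat_lit 0))) (N (L (nat_lit 0x70)) (L (nat_lit 0)))) (N (N (L (nat_lit 0xe6)) (L (nat_lit 0xd5))) (N (L (nat_lit 0x53)) (L (nat_lit 0))))) (L (nat_lit 0))) (N (N (N (L (nat_lit 0)) (N (L (nat_lit 0x123)) (L (nat_lit 0)))) (L (nat_lit 0))) (L (nat_lit 0)))) (N (N (N (N (L (nat_lit 0)) (N (L (nat_lit 0x166)) (L (nat_lit 0)))) (N (N (L (nat_lit 0x77)) (L (nat_lit 0))) (L (nat_lit 0)))) (L (nat_lit 0))) (L (nat_lit 0))))))) (N (N (N (N (N (N (N (N (N (L (nat_lit 3)) (L (nat_lit 0x6d))) (N (L (nat_lit 0x10)) (L (nat_lit 0x86)))) (N (N (L (nat_lit 8)) (L (nat_lit 0x71))) (N (L (nat_lit 0x18)) (L (nat_lit 0))))) (L (nat_lit 0))) (N (N (N (L (nat_lit 0)) (N (L (nat_lit 0x173)) (L (nat_lit 0)))) (N (N (L (nat_lit 0xb8)) (L (nat_lit 0))) (L (nat_lit 0))))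 (L (nat_lit 0)))) (N (N (N (N (N (L (nat_lit 7)) (L (nat_lit 0))) (N (L (nat_lit 0xfc)) (L (nat_lit 0)))) (N (N (L (nat_lit 0xff)) (L (nat_lit 0xf5))) (N (L (nat_lit 0xe0)) (L (nat_lit 0))))) (L (nat_lit 0))) (N (N (N (L (nat_lit 0)) (N (L (nat_lit 0x13d)) (L (nat_lit 0)))) (L (nat_lit 0))) (L (nat_lit 0))))) (N (N (N (N (N (N (L (nat_lit 0x63)) (L (nat_lit 0xfa))) (N (L (nat_lit 0x8a)) (L (nat_lit 0x15e)))) (N (N (L (nat_lit 0x73)) (L (nat_lit 0x126))) (N (L (nat_lit 0x11d)) (L (nat_lit 0))))) (L (nat_lit 0))) (N (N (N (L (nat_lit 0)) (N (L (nat_lit 0x89)) (L (nat_lit 0)))) (L (nat_lit 0))) (L (nat_lit 0)))) (N (N (N (N (L (nat_lit 0)) (N (L (nat_lit 0x91)) (L (nat_lit 0)))) (N (N (L (nat_lit 0x21)) (L (nat_lit 0x163))) (L (nat_lit 0)))) (L (nat_lit 0))) (L (nat_lit 0))))) (N (N (N (N (N (N (N (L (nat_lit 0x24)) (L (nat_lit 0x110))) (N (L (nat_lit 0x46)) (L (nat_lit 0x154)))) (N (N (L (nat_lit 0x49)) (L (nat_lit 0x9d)))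 (N (L (nat_lit 0x5f)) (L (nat_lit 0))))) (L (nat_lit 0))) (N (N (N (L (nat_lit 0)) (N (L (nat_lit 0x95)) (L (nat_lit 0)))) (L (nat_lit 0))) (L (nat_lit 0)))) (N (N (N (N (N (L (nat_lit 0x5c)) (L (nat_lit 0))) (N (L (nat_lit 0x135)) (L (nat_lit 0)))) (N (N (L (nat_lit 0x117)) (L (nat_lit 0x11a))) (N (L (nat_lit 0x164)) (L (nat_lit 0))))) (L (nat_lit 0))) (L (nat_lit 0)))) (N (N (N (N (N (N (L (nat_lit 0xb7)) (L (nat_lit 0))) (N (L (nat_lit 0xd0)) (L (nat_lit 0)))) (N (N (L (nat_lit 0x6c)) (L (nat_lit 0x12b))) (N (L (nat_lit 0x177)) (L (nat_lit 0))))) (L (nat_lit 0))) (N (N (N (L (nat_lit 0)) (N (L (nat_lit 0xdf)) (L (nat_lit 0)))) (L (nat_lit 0))) (L (nat_lit 0)))) (N (N (N (N (L (nat_lit 0)) (N (L (nat_lit 0x125)) (L (nat_lit 0)))) (N (N (L (nat_lit 0x60)) (L (nat_lit 0))) (L (nat_lit 0)))) (L (nat_lit 0))) (L (nat_lit 0)))))) (N (N (N (N (N (N (N (N (L (nat_lit 0x12)) (L (nat_lit 0x99))) (N (L (nat_lit 0x6a)) (L (nat_lit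 0xce)))) (N (N (L (nat_lit 0x2c)) (L (nat_lit 0x122))) (N (L (nat_lit 0x87)) (L (nat_lit 0))))) (L (nat_lit 0))) (N (N (N (L (nat_lit 0)) (N (L (nat_lit 0x78)) (L (nat_lit 0)))) (N (N (L (nat_lit 0xf7)) (L (nat_lit 0))) (L (nat_lit 0)))) (L (nat_lit 0)))) (N (N (N (N (N (L (nat_lit 0x1d)) (L (nat_lit 0))) (N (L (nat_lit 0x10d)) (L (nat_lit 0)))) (N (N (L (nat_lit 0x107)) (L (nat_lit 0x114))) (N (L (nat_lit 0xdc)) (L (nat_lit 0))))) (L (nat_lit 0))) (N (N (N (L (nat_lit 0)) (N (L (nat_lit 0x5d)) (L (nat_lit 0)))) (L (nat_lit 0))) (L (nat_lit 0))))) (N (N (N (N (N (N (L (nat_lit 0x97)) (L (nat_lit 0x142))) (N (L (nat_lit 0x5a)) (L (nat_lit 0x170)))) (N (N (L (nat_lit 0xbe)) (L (nat_lit 0xcd))) (N (L (nat_lit 0x158)) (L (nat_lit 0))))) (L (nat_lit 0))) (N (N (N (L (nat_lit 0)) (N (L (nat_lit 0xa5)) (L (nat_lit 0)))) (L (nat_lit 0))) (L (nat_lit 0)))) (N (N (N (N (L (nat_lit 0)) (N (L (nat_lit 0x10e)) (L (nat_lit 0)))) (N (N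 (L (nat_lit 0x4f)) (L (nat_lit 0x176))) (L (nat_lit 0)))) (L (nat_lit 0))) (L (nat_lit 0))))) (N (N (N (N (N (N (N (L (nat_lit 0x51)) (L (nat_lit 0xe7))) (N (L (nat_lit 0x88)) (L (nat_lit 0x13b)))) (N (N (L (nat_lit 0x33)) (L (nat_lit 0xfd))) (N (L (nat_lit 0xda)) (L (nat_lit 0))))) (L (nat_lit 0))) (N (N (N (L (nat_lit 0)) (N (L (nat_lit 0xab)) (L (nat_lit 0)))) (L (nat_lit 0))) (L (nat_lit 0)))) (N (N (N (N (N (L (nat_lit 0x1a)) (L (nat_lit 0))) (N (L (nat_lit 0x13a)) (L (nat_lit 0)))) (N (N (L (nat_lit 0x14e)) (L (nat_lit 0x141))) (N (L (nat_lit 0x128)) (L (nat_lit 0))))) (L (nat_lit 0))) (L (nat_lit 0)))) (N (N (N (N (N (N (L (nat_lit 0xde)) (L (nat_lit 0))) (N (L (nat_lit 0x81)) (L (nat_lit 0)))) (N (N (L (nat_lit 0xec)) (L (nat_lit 0x15d))) (N (L (nat_lit 0x61)) (L (nat_lit 0))))) (L (nat_lit 0))) (N (N (N (L (nat_lit 0)) (N (L (nat_lit 0x10c)) (L (nat_lit 0)))) (L (nat_lit 0))) (L (nat_lit 0)))) (N (N (N (N (L (nat_lit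 0)) (N (L (nat_lit 0x13f)) (L (nat_lit 0)))) (N (N (L (nat_lit 0x8d)) (L (nat_lit 0))) (L (nat_lit 0)))) (L (nat_lit 0))) (L (nat_lit 0)))))))) (N (N (N (N (N (N (N (N (N (N (L (nat_lit 1)) (L (nat_lit 0x35))) (N (L (nat_lit 0xe)) (L (nat_lit 0x82)))) (N (N (L (nat_lit 6)) (L (nat_lit 0x47))) (N (L (nat_lit 0x16)) (L (nat_lit 0))))) (L (nat_lit 0))) (N (N (N (L (nat_lit 0)) (N (L (nat_lit 0x16e)) (L (nat_lit 0)))) (N (N (L (nat_lit 0x9b)) (L (nat_lit 0))) (L (nat_lit 0)))) (L (nat_lit 0)))) (N (N (N (N (N (L (nat_lit 0xb)) (L (nat_lit 0))) (N (L (nat_lit 0xf6)) (L (nat_lit 0)))) (N (N (L (nat_lit 0x102)) (L (nat_lit 0xee))) (N (L (nat_lit 0xd2)) (L (nat_lit 0))))) (L (nat_lit 0))) (N (N (N (L (nat_lit 0)) (N (L (nat_lit 0x12e)) (L (nat_lit 0)))) (L (nat_lit 0))) (L (nat_lit 0))))) (N (N (N (N (N (N (L (nat_lit 0x66)) (L (nat_lit 0x101))) (N (L (nat_lit 0x44)) (L (nat_lit 0x156)))) (N (N (L (nat_lit 0x79)) (L (nat_lit 0x11f)))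 (N (L (nat_lit 0x118)) (L (nat_lit 0))))) (L (nat_lit 0))) (N (N (N (L (nat_lit 0)) (N (L (nat_lit 0xb4)) (L (nat_lit 0)))) (L (nat_lit 0))) (L (nat_lit 0)))) (N (N (N (N (N (L (nat_lit 0xc1)) (L (nat_lit 0))) (N (L (nat_lit 0x152)) (L (nat_lit 0)))) (N (N (L (nat_lit 0x167)) (L (nat_lit 0x165))) (L (nat_lit 0)))) (L (nat_lit 0))) (L (nat_lit 0))))) (N (N (N (N (N (N (N (L (nat_lit 0x1f)) (L (nat_lit 0x10a))) (N (L (nat_lit 0x3e)) (L (nat_lit 0x11e)))) (N (N (L (nat_lit 0x50)) (L (nat_lit 0xbc))) (N (L (nat_lit 0x62)) (L (nat_lit 0))))) (L (nat_lit 0))) (N (N (N (L (nat_lit 0)) (N (L (nat_lit 0x84)) (L (nat_lit 0)))) (N (N (L (nat_lit 0x57)) (L (nat_lit 0))) (L (nat_lit 0)))) (L (nat_lit 0)))) (N (N (N (N (N (L (nat_lit 0x64)) (L (nat_lit 0))) (N (L (nat_lit 0xc2)) (L (nat_lit 0)))) (N (N (L (nat_lit 0x112)) (L (nat_lit 0x131))) (N (L (nat_lit 0xe3)) (L (nat_lit 0))))) (L (nat_lit 0))) (L (nat_lit 0)))) (N (N (N (N (N (N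 (L (nat_lit 0xba)) (L (nat_lit 0))) (N (L (nat_lit 0xd3)) (L (nat_lit 0)))) (N (N (L (nat_lit 0x34)) (L (nat_lit 0x144))) (N (L (nat_lit 0x174)) (L (nat_lit 0))))) (L (nat_lit 0))) (N (N (N (L (nat_lit 0)) (N (L (nat_lit 0xcc)) (L (nat_lit 0)))) (L (nat_lit 0))) (L (nat_lit 0)))) (N (N (N (N (L (nat_lit 0)) (N (L (nat_lit 0xad)) (L (nat_lit 0)))) (N (N (L (nat_lit 0x65)) (L (nat_lit 0))) (L (nat_lit 0)))) (L (nat_lit 0))) (L (nat_lit 0)))))) (N (N (N (N (N (N (N (N (L (nat_lit 0x14)) (L (nat_lit 0x92))) (N (L (nat_lit 0x68)) (L (nat_lit 0xb2)))) (N (N (L (nat_lit 0x25)) (L (nat_lit 0x85))) (N (L (nat_lit 0x8b)) (L (nat_lit 0))))) (L (nat_lit 0))) (N (N (N (L (nat_lit 0)) (N (L (nat_lit 0x4a)) (L (nat_lit 0)))) (N (N (L (nat_lit 0x100)) (L (nat_lit 0))) (L (nat_lit 0)))) (L (nat_lit 0)))) (N (N (N (N (N (L (nat_lit 0x17)) (L (nat_lit 0))) (N (L (nat_lit 0x104)) (L (nat_lit 0)))) (N (N (L (nat_lit 0xf3)) (L (nat_lit 0x111)))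 (N (L (nat_lit 0xaf)) (L (nat_lit 0))))) (L (nat_lit 0))) (N (N (N (L (nat_lit 0)) (N (L (nat_lit 0x159)) (L (nat_lit 0)))) (L (nat_lit 0))) (L (nat_lit 0))))) (N (N (N (N (N (N (L (nat_lit 0x8c)) (L (nat_lit 0x14c))) (N (L (nat_lit 0x55)) (L (nat_lit 0x136)))) (N (N (L (nat_lit 0xc0)) (L (nat_lit 0xcb))) (N (L (nat_lit 0x15b)) (L (nat_lit 0))))) (L (nat_lit 0))) (N (N (N (L (nat_lit 0)) (N (L (nat_lit 0xc4)) (L (nat_lit 0)))) (L (nat_lit 0))) (L (nat_lit 0)))) (N (N (N (N (L (nat_lit 0)) (N (L (nat_lit 0x109)) (L (nat_lit 0)))) (N (N (L (nat_lit 0x36)) (L (nat_lit 0x172))) (L (nat_lit 0)))) (L (nat_lit 0))) (L (nat_lit 0))))) (N (N (N (N (N (N (N (L (nat_lit 0x32)) (L (nat_lit 0x16a))) (N (L (nat_lit 0x8f)) (L (nat_lit 0x178)))) (N (N (L (nat_lit 0x2f)) (L (nat_lit 0xb1))) (N (L (nat_lit 0xdd)) (L (nat_lit 0))))) (L (nat_lit 0))) (N (N (N (L (nat_lit 0)) (N (L (nat_lit 0xbd)) (L (nat_lit 0)))) (L (nat_lit 0))) (L (nat_lit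 0)))) (N (N (N (N (N (L (nat_lit 0x7b)) (L (nat_lit 0))) (N (L (nat_lit 0x147)) (L (nat_lit 0)))) (N (N (L (nat_lit 0x138)) (L (nat_lit 0x148))) (N (L (nat_lit 0xcf)) (L (nat_lit 0))))) (L (nat_lit 0))) (L (nat_lit 0)))) (N (N (N (N (N (N (L (nat_lit 0xe1)) (L (nat_lit 0))) (N (L (nat_lit 0x7d)) (L (nat_lit 0)))) (N (N (L (nat_lit 0xe8)) (L (nat_lit 0x171))) (N (L (nat_lit 0x5b)) (L (nat_lit 0))))) (L (nat_lit 0))) (N (N (N (L (nat_lit 0)) (N (L (nat_lit 0x106)) (L (nat_lit 0)))) (L (nat_lit 0))) (L (nat_lit 0)))) (N (N (N (N (L (nat_lit 0)) (N (L (nat_lit 0x160)) (L (nat_lit 0)))) (N (N (L (nat_lit 0x6e)) (L (nat_lit 0))) (L (nat_lit 0)))) (L (nat_lit 0))) (L (nat_lit 0))))))) (N (N (N (N (N (N (N (N (N (L (nat_lit 0xc)) (L (nat_lit 0x74))) (N (L (nat_lit 0x29)) (L (nat_lit 0xc3)))) (N (N (L (nat_lit 0x20)) (L (nat_lit 0x75))) (N (L (nat_lit 0x4c)) (L (nat_lit 0))))) (L (nat_lit 0))) (N (N (N (L (nat_lit 0)) (N (L (nat_lit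 0x31)) (L (nat_lit 0)))) (N (N (L (nat_lit 0xb0)) (L (nat_lit 0))) (L (nat_lit 0)))) (L (nat_lit 0)))) (N (N (N (N (N (L (nat_lit 0x13)) (L (nat_lit 0))) (N (L (nat_lit 0xf4)) (L (nat_lit 0)))) (N (N (L (nat_lit 0x7c)) (L (nat_lit 0xfb))) (N (L (nat_lit 0xdb)) (L (nat_lit 0))))) (L (nat_lit 0))) (N (N (N (L (nat_lit 0)) (N (L (nat_lit 0x14b)) (L (nat_lit 0)))) (L (nat_lit 0))) (L (nat_lit 0))))) (N (N (N (N (N (N (L (nat_lit 0x67)) (L (nat_lit 0x10b))) (N (L (nat_lit 0x83)) (L (nat_lit 0x175)))) (N (N (L (nat_lit 0x96)) (L (nat_lit 0x12f))) (N (L (nat_lit 0x149)) (L (nat_lit 0))))) (L (nat_lit 0))) (N (N (N (L (nat_lit 0)) (N (L (nat_lit 0x7f)) (L (nat_lit 0)))) (L (nat_lit 0))) (L (nat_lit 0)))) (N (N (N (N (L (nat_lit 0)) (N (L (nat_lit 0x98)) (L (nat_lit 0)))) (N (N (L (nat_lit 0x26)) (L (nat_lit 0x169))) (L (nat_lit 0)))) (L (nat_lit 0))) (L (nat_lit 0))))) (N (N (N (N (N (N (N (L (nat_lit 0x28)) (L (nat_lit 0xca))) (N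 (L (nat_lit 0x7a)) (L (nat_lit 0x157)))) (N (N (L (nat_lit 0xd)) (L (nat_lit 0xa1))) (N (L (nat_lit 0xb6)) (L (nat_lit 0))))) (L (nat_lit 0))) (N (N (N (L (nat_lit 0)) (N (L (nat_lit 0x93)) (L (nat_lit 0)))) (L (nat_lit 0))) (L (nat_lit 0)))) (N (N (N (N (N (L (nat_lit 5)) (L (nat_lit 0))) (N (L (nat_lit 0x137)) (L (nat_lit 0)))) (N (N (L (nat_lit 0x132)) (L (nat_lit 0x127))) (N (L (nat_lit 0x15f)) (L (nat_lit 0))))) (L (nat_lit 0))) (L (nat_lit 0)))) (N (N (N (N (N (N (L (nat_lit 0xc9)) (L (nat_lit 0))) (N (L (nat_lit 0x42)) (L (nat_lit 0)))) (N (N (L (nat_lit 0x6f)) (L (nat_lit 0x130))) (N (L (nat_lit 0x17a)) (L (nat_lit 0))))) (L (nat_lit 0))) (N (N (N (L (nat_lit 0)) (N (L (nat_lit 0xd8)) (L (nat_lit 0)))) (L (nat_lit 0))) (L (nat_lit 0)))) (N (N (N (N (L (nat_lit 0)) (N (L (nat_lit 0x12a)) (L (nat_lit 0)))) (N (N (L (nat_lit 0x69)) (L (nat_lit 0))) (L (nat_lit 0)))) (L (nat_lit 0))) (L (nat_lit 0)))))) (N (N (N (N (N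 (N (N (N (L (nat_lit 0x1b)) (L (nat_lit 0xa0))) (N (L (nat_lit 0x30)) (L (nat_lit 0xd6)))) (N (N (L (nat_lit 0x3c)) (L (nat_lit 0x124))) (N (L (nat_lit 0xc8)) (L (nat_lit 0))))) (L (nat_lit 0))) (N (N (N (L (nat_lit 0)) (N (L (nat_lit 0x72)) (L (nat_lit 0)))) (N (N (L (nat_lit 0x116)) (L (nat_lit 0))) (L (nat_lit 0)))) (L (nat_lit 0)))) (N (N (N (N (N (L (nat_lit 0x27)) (L (nat_lit 0))) (N (L (nat_lit 0x113)) (L (nat_lit 0)))) (N (N (L (nat_lit 0x103)) (L (nat_lit 0x120))) (N (L (nat_lit 0xd7)) (L (nat_lit 0))))) (L (nat_lit 0))) (N (N (N (L (nat_lit 0)) (N (L (nat_lit 0x11b)) (L (nat_lit 0)))) (L (nat_lit 0))) (L (nat_lit 0))))) (N (N (N (N (N (N (L (nat_lit 0xac)) (L (nat_lit 0x16d))) (N (L (nat_lit 0xa7)) (L (nat_lit 0x179)))) (N (N (L (nat_lit 0xaa)) (L (nat_lit 0x10f))) (N (L (nat_lit 0x153)) (L (nat_lit 0))))) (L (nat_lit 0))) (N (N (N (L (nat_lit 0)) (N (L (nat_lit 0x9a)) (L (nat_lit 0)))) (L (nat_lit 0))) (L (nat_lit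 0)))) (N (N (N (N (L (nat_lit 0)) (N (L (nat_lit 0x14d)) (L (nat_lit 0)))) (N (N (L (nat_lit 0x45)) (L (nat_lit 0x2e))) (L (nat_lit 0)))) (L (nat_lit 0))) (L (nat_lit 0))))) (N (N (N (N (N (N (N (L (nat_lit 0x58)) (L (nat_lit 0xea))) (N (L (nat_lit 0x15)) (L (nat_lit 0x143)))) (N (N (L (nat_lit 0x3d)) (L (nat_lit 0xf9))) (N (L (nat_lit 0xbb)) (L (nat_lit 0))))) (L (nat_lit 0))) (N (N (N (L (nat_lit 0)) (N (L (nat_lit 0xa4)) (L (nat_lit 0)))) (L (nat_lit 0))) (L (nat_lit 0)))) (N (N (N (N (N (L (nat_lit 0x1e)) (L (nat_lit 0))) (N (L (nat_lit 0x13e)) (L (nat_lit 0)))) (N (N (L (nat_lit 0x14a)) (L (nat_lit 0x15a))) (L (nat_lit 0)))) (L (nat_lit 0))) (L (nat_lit 0)))) (N (N (N (N (N (N (L (nat_lit 0xe5)) (L (nat_lit 0))) (N (L (nat_lit 0xed)) (L (nat_lit 0)))) (N (N (L (nat_lit 0xe9)) (L (nat_lit 0x161))) (N (L (nat_lit 0xa6)) (L (nat_lit 0))))) (L (nat_lit 0))) (N (N (N (L (nat_lit 0)) (N (L (nat_lit 0x115)) (L (nat_lit 0))))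 (L (nat_lit 0))) (L (nat_lit 0)))) (N (N (N (N (L (nat_lit 0)) (N (L (nat_lit 0x168)) (L (nat_lit 0)))) (N (N (L (nat_lit 0x80)) (L (nat_lit 0))) (L (nat_lit 0)))) (L (nat_lit 0))) (L (nat_lit 0)))))))))) Tr.N Tr.L
noncomputable def tC0 : Tr := (fun (N : Tr → Tr → Tr) (L : ℕ → Tr) => (N (N (N (N (N (N (N (L (nat_lit 0x7754321000757432100075473210007543721000754327100075432170007543210700)) (L (nat_lit 0x775432100a757432100a7547210313754372101e754327101e754321701e7543210713))) (N (L (nat_lit 0x7754321004757432100475473210167543721013754327101375432170137543210713)) (L (nat_lit 0x7754321015757432101575473210167543721025754327102475432170247543210724)))) (N (N (L (nat_lit 0x77543210027574312002754732100d754372100d745327100775432170077543210706)) (L (nat_lit 0x775432100e757423100e75473210147201735420702137542071024375197102435719))) (N (L (nat_lit 0x775432100770753241077457320107754372101c754327101c71453270077541320707)) (L (nat_lit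 0))))) (N (N (N (L (nat_lit 0x7754321001757432100275473210077543721007754327100771043275027543210701)) (L (nat_lit 0x775432100d757432100e754731200e7543721023712037450e710234750e702135470d))) (N (L (nat_lit 0x77543210067574213009754732010a7543721018754327101875342170097543210708)) (L (nat_lit 0x775432101b757432101d754732102174537201237321075421743210751d754321071b)))) (N (N (L (nat_lit 0x7754321002757410320275473210127053742109705347210975032174097503214709)) (L (nat_lit 0x775432101075743210117547213015754372102375432710237543217020754321071f))) (N (L (nat_lit 0x7754321008757432100b7547310211754372101f75432710197543217019754321070e)) (L (nat_lit 0)))))) (N (N (N (N (L (nat_lit 0x7754321000757432100475473210047543721003754327100375432170037543210703)) (L (nat_lit 0x775432100c757432100f754732100f735470211e735407211e751032740f751032470f))) (N (L (nat_lit 0x7754321006757431200675473102067543721017735427100675342170067543210706))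 (L (nat_lit 0x775432101975740213197547321021745371021b713247501d754231701c754321071b)))) (N (N (L (nat_lit 0x775432100275743210047547321011754372100e754327100e75432170097543210709)) (L (nat_lit 0x775432100e757432101274571032107345702121704537211f754321701d754321071d))) (N (L (nat_lit 0x77543210087574321009754731020e754372101f702137540d702135740d754321070c)) (L (nat_lit 0))))) (N (N (N (L (nat_lit 0x77543210017574321004754732100b7543721009754327100975432170097543210703)) (L (nat_lit 0x775432100d757432011075473021107543721022753427101a754321701a7543210719))) (N (L (nat_lit 0x77543210077574213008754732100f74537120187453172018751032740f7543210708)) (L (nat_lit 0)))) (N (N (L (nat_lit 0x7754321003757432100475473210157543721013754327100e754321700e754321070e)) (L (nat_lit 0x77543210137574321014754732101473547210247021375420702134751f702134571f))) (N (L (nat_lit 0x7754321009757432100b75473210157543721020754327101b754321701b754321070e))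 (L (nat_lit 0))))))) (N (N (N (N (N (L (nat_lit 0x7754321000757432100275473210027543721002754327100275432170017543210701)) (L (nat_lit 0x775432100b757432100b75473210167543721020754327102075432170207543210713))) (N (L (nat_lit 0x7754321004757432100575473210167543721015754327101575432170157543210715)) (L (nat_lit 0x77543210187074531218754731201c73547012187234571018754231701c7534201718)))) (N (N (L (nat_lit 0x77543210027574103202754732100f7453702108745307210875432170087543210708)) (L (nat_lit 0x775432100e757432101075473120147453721023702137451f754321701b754321071a))) (N (L (nat_lit 0x7754321007757032140b7547320110754372101d754327101d7510327410754321070b)) (L (nat_lit 0))))) (N (N (N (L (nat_lit 0x7754321001757432100375473210097543721009754327100775432170077543210702)) (L (nat_lit 0x775432100d757423010d754731200f735472011a753427101a74531270187543210718))) (N (L (nat_lit 0x77543210077574321008754732010d754372101a720137540d74213075087543210707))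 (L (nat_lit 0x7754321020757432102175473210217354710224732107542173210574217021354720)))) (N (N (L (nat_lit 0x7754321003757432100375473210137543721013754327100c754321700c754321070c)) (L (nat_lit 0x7754321011757432101274571032117345702121734507212175432170217543210721))) (N (L (nat_lit 0x775432100975742310097547321014745372101b754327101b7102437519754321070d)) (L (nat_lit 0)))))) (N (N (N (N (L (nat_lit 0x7754321000757432100575473210057543721005754327100575432170057543210705)) (L (nat_lit 0x775432100c757432101175473210117021735420702137542075103274127510324712))) (N (L (nat_lit 0x7754321006757432100975473201097543721019702137540d75342170077543210707)) (L (nat_lit 0x775432101a707543211a710754321a734570121a723457011a712345701a754321071a)))) (N (N (L (nat_lit 0x77543210027573214004754732101075437210107543271010754321700b754321070a)) (L (nat_lit 0x775432101075743210107547213013721074351f721047351f7543217020754321071e))) (N (L (nat_lit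 0x775432100875742310097547310210745372101a75432710197543217018754321070d)) (L (nat_lit 0))))) (N (N (N (L (nat_lit 0x77543210017574321005754732100b754372100b754327100b754321700b7543210704)) (L (nat_lit 0x775432100d7574321012754720310d734570211d7135472019754321701d7540213719))) (N (L (nat_lit 0x7754321007757432100a7547320110754372101a754327101a751032740f7543210709)) (L (nat_lit 0)))) (N (N (L (nat_lit 0x7754321003757324100475473210147543721014754327101175432170107543210710)) (L (nat_lit 0x7754321014757431201475471320147435721023745327102375432170237543210722))) (N (L (nat_lit 0x775432100975702314097457130210705472311d754327101d705432711a7543210710)) (L (nat_lit 0)))))))) (N (N (N (N (N (N (L (nat_lit 0x7754321000757432100175473210017543721001754327100175432170017543210700)) (L (nat_lit 0x775432100a757432100b7547210315754372101f754327101f754321701f7543210713))) (N (L (nat_lit 0x7754321004757342100474573210157543721015754327101475432170147543210714))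 (L (nat_lit 0x7754321016757432101675473210167543721025754327102575432170257543210725)))) (N (N (L (nat_lit 0x77543210027574321003754732100e754372100e754327100c75432170077543210707)) (L (nat_lit 0x775432100e757432100f7457103210735470211f735407211e754321701a754321071a))) (N (L (nat_lit 0x77543210077570321409754732010d754372101d754327101c751032740d7542310709)) (L (nat_lit 0))))) (N (N (N (L (nat_lit 0x7754321001757431020275473210087543721008754327100675432170067543210702)) (L (nat_lit 0x775432100d757423100d754721300d7210743519712047351971024375197543210717))) (N (L (nat_lit 0x7754321006757432100b754732010b7543721019754327101975342170097543210709)) (L (nat_lit 0x775432101d757432101d7547021320721074531f7213475021721354701f7543210720)))) (N (N (L (nat_lit 0x77543210027572104303754732101275437210127543271012750321740b750321470b)) (L (nat_lit 0x7754321011757432101175473210167543721024754327102475432170207543210720))) (N (L (nat_lit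 0x7754321009757432100975473210137543721020710237450e710234750e754321070c)) (L (nat_lit 0)))))) (N (N (N (N (L (nat_lit 0x7754321000757432100575473210047543721004754327100475432170047543210704)) (L (nat_lit 0x775432100c75743210107547321010702173451f702137451f7510327412751032470f))) (N (L (nat_lit 0x7754321006757431200775473201087543721018724137050875342170077543210706)) (L (nat_lit 0x77543210197571024319705743211d705473121d7235471022754231701d754321071d)))) (N (N (L (nat_lit 0x77543210027572104303754732100f754372100f754327100f754321700a754321070a)) (L (nat_lit 0x775432100f75743210117547103211753470211f753407211f754321701f754321071f))) (N (L (nat_lit 0x77543210087574231008754721030d735472011875342701187543217017754321070d)) (L (nat_lit 0))))) (N (N (N (L (nat_lit 0x77543210017573210404754732100a754372100a754327100a754321700a7543210704)) (L (nat_lit 0x775432100d757432101175473120117543721023753427101b754321701b7543210719)))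 (N (L (nat_lit 0x7754321007757421300975473210107102743519710247351975103274127543210708)) (L (nat_lit 0)))) (N (N (L (nat_lit 0x775432100375721430037457132010745173201075432710107543217010754321070f)) (L (nat_lit 0x7754321013757432101575473210157543721025702137542070213574207021354720))) (N (L (nat_lit 0x77543210097570321409745731020e7543721021754327101c754321701c754231070e)) (L (nat_lit 0))))))) (N (N (N (N (N (L (nat_lit 0x7754321000757432100375473210037543721003754327100275432170027543210702)) (L (nat_lit 0x775432100b757032140b74572103157543721021754327102175432170217543210715))) (N (L (nat_lit 0x7754321005757432100575473210167543721016754327101675432170167543210716)) (L (nat_lit 0x77543210187574021319754731201d745371021a713247501a754231701c7543210719)))) (N (N (L (nat_lit 0x775432100275742130037547321010754372100d754327100d75432170097543210708)) (L (nat_lit 0x775432100e7574321011754732101575437210247021375420754321701b754321071b)))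 (N (L (nat_lit 0x77543210087574321008754731020c754372101e72143750087214357008754321070c)) (L (nat_lit 0))))) (N (N (N (L (nat_lit 0x77543210017574210303754732100a7543721008754327100875432170087543210703)) (L (nat_lit 0x775432100d757423100e7547312010720173451f753427101b71024375197543210718))) (N (L (nat_lit 0x77543210077574321009754732100e754372101b710237450e70213475097543210707)) (L (nat_lit 0)))) (N (N (L (nat_lit 0x775432100375742310037547321014745372100e754327100e754321700d754321070d)) (L (nat_lit 0x7754321013757432101375473210137543721025721037541372103574137210354713))) (N (L (nat_lit 0x7754321009757432100a7547310214745372101f754327101a754321701a754321070e)) (L (nat_lit 0)))))) (N (N (N (N (L (nat_lit 0x7754321001757432010175473210067543721006754327100674532170017543210701)) (L (nat_lit 0x775432100d757432010d754730210d7543721022721037540d720135740d702135470d))) (N (L (nat_lit 0x7754321006757421300875472103087543721017754327101775342170087543210708))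 (L (nat_lit 0x775432101a757432101d754702131f721074531f712347501d712345701a754321071b)))) (N (N (L (nat_lit 0x77543210027574321005754732101175437210117543271011754321700b754321070b)) (L (nat_lit 0x77543210107574320110754710321475437210227543271022745321701f754321071f))) (N (L (nat_lit 0x7754321008757432100a754721030e754372101e75342701187534207118754321070e)) (L (nat_lit 0))))) (N (N (N (L (nat_lit 0x77543210027574321002754732100c754372100c754327100c71043275027104325702)) (L (nat_lit 0x775432100e757432100e754732101375437210247210375413710234750e710234570e))) (N (L (nat_lit 0x7754321007757432100b7547321011754372101b754327101b75103274127543210709)) (L (nat_lit 0)))) (N (N (L (nat_lit 0x7754321003757432100575473210157543721015754327101175432170117543210711)) (L (nat_lit 0x7754321014757432101575472310157534721024754327102475432170237543210723))) (N (L (nat_lit 0x7754321009757032140b75473102147543721021754327101d754321701d7543210711))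 (L (nat_lit 0)))))))))) Tr.N Tr.L
noncomputable def tZT_0 : Tr := (fun (N : Tr → Tr → Tr) (L : ℕ → Tr) => (N (N (N (N (N (N (N (N (N (N (N (N (L (nat_lit 0x200000000000000000000)) (L (nat_lit 0x200000000000000000000))) (N (L (nat_lit 0x200000000000000000000)) (L (nat_lit 0)))) (N (N (L (nat_lit 0x200000000000000000000)) (L (nat_lit 0))) (N (L (nat_lit 0x200000000000000000000)) (L (nat_lit 0))))) (N (N (N (L (nat_lit 0x200000000000000000000)) (L (nat_lit 0x200000000000000000000))) (N (L (nat_lit 0x200000000000000000000)) (L (nat_lit 0)))) (N (N (L (nat_lit 0x200000000000000000000)) (L (nat_lit 0))) (N (L (nat_lit 0x200000000000000000000)) (L (nat_lit 0)))))) (N (N (N (N (L (nat_lit 0x200000000000000000000)) (L (nat_lit 0x200000000000000000000))) (N (L (nat_lit 0x200000000000000000000)) (L (nat_lit 0)))) (N (N (L (nat_lit 0x200000000000000000000)) (L (nat_lit 0))) (N (L (nat_lit 0x200000000000000000000)) (L (nat_lit 0)))))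 (N (N (N (L (nat_lit 0x200000000000000000000)) (L (nat_lit 0))) (N (L (nat_lit 0x200000000000000000000)) (L (nat_lit 0)))) (N (N (L (nat_lit 0x200000000000000000000)) (L (nat_lit 0))) (N (L (nat_lit 0x200000000000000000000)) (L (nat_lit 0))))))) (N (N (N (N (N (L (nat_lit 0x200000000000000000000)) (L (nat_lit 0x200000000000000000000))) (N (L (nat_lit 0x200000000000000000000)) (L (nat_lit 0)))) (N (N (L (nat_lit 0x200000000000000000000)) (L (nat_lit 0))) (N (L (nat_lit 0x200000000000000000000)) (L (nat_lit 0))))) (N (N (N (L (nat_lit 0x200000000000000000000)) (L (nat_lit 0x200000000000000000000))) (N (L (nat_lit 0x200000000000000000000)) (L (nat_lit 0)))) (N (N (L (nat_lit 0x200000000000000000000)) (L (nat_lit 0))) (N (L (nat_lit 0x200000000000000000000)) (L (nat_lit 0)))))) (N (N (N (N (L (nat_lit 0x200000000000000000000)) (L (nat_lit 0x200000000000000000000))) (N (L (nat_lit 0x200000000000000000000)) (L (nat_lit 0)))) (N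 (N (L (nat_lit 0x200000000000000000000)) (L (nat_lit 0))) (N (L (nat_lit 0x200000000000000000000)) (L (nat_lit 0))))) (N (N (N (L (nat_lit 0x200000000000000000000)) (L (nat_lit 0))) (N (L (nat_lit 0x200000000000000000000)) (L (nat_lit 0)))) (N (N (L (nat_lit 0x200000000000000000000)) (L (nat_lit 0))) (N (L (nat_lit 0x200000000000000000000)) (L (nat_lit 0)))))))) (N (L (nat_lit 0)) (N (N (N (L (nat_lit 0)) (N (N (L (nat_lit 0x200000000000000000000)) (L (nat_lit 0))) (L (nat_lit 0)))) (L (nat_lit 0))) (L (nat_lit 0))))) (N (N (N (N (N (N (L (nat_lit 0)) (N (L (nat_lit 0x200000000000000000000)) (L (nat_lit 0)))) (N (N (L (nat_lit 0x1f1c9970f75f210c30800)) (L (nat_lit 0))) (N (L (nat_lit 0x1e28005a5a0cc0072f400)) (L (nat_lit 0))))) (N (N (L (nat_lit 0)) (N (L (nat_lit 0x19283b93c1866cc05a400)) (L (nat_lit 0)))) (N (L (nat_lit 0)) (N (L (nat_lit 0x200000000000000000000)) (L (nat_lit 0)))))) (N (N (N (N (L (nat_lit 0x200000000000000000000))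 (L (nat_lit 0))) (L (nat_lit 0))) (N (N (L (nat_lit 0x205b87aad40c861244000)) (L (nat_lit 0))) (N (L (nat_lit 0x200000000000000000000)) (L (nat_lit 0))))) (N (L (nat_lit 0)) (N (L (nat_lit 0)) (N (L (nat_lit 0x204af6ca514bb2e16f800)) (L (nat_lit 0))))))) (N (N (N (L (nat_lit 0)) (N (N (L (nat_lit 0x200000000000000000000)) (L (nat_lit 0))) (N (L (nat_lit 0x20dfbfad558ab8db09800)) (L (nat_lit 0))))) (N (N (N (L (nat_lit 0x200000000000000000000)) (L (nat_lit 0))) (L (nat_lit 0))) (L (nat_lit 0)))) (N (N (N (N (L (nat_lit 0x200000000000000000000)) (L (nat_lit 0))) (N (L (nat_lit 0x1f85212dd7bf5e5a15400)) (L (nat_lit 0)))) (N (N (L (nat_lit 0x20d1eeb28f14f08020c00)) (L (nat_lit 0))) (L (nat_lit 0)))) (N (L (nat_lit 0)) (N (L (nat_lit 0)) (N (L (nat_lit 0x1d099b0504048f0884800)) (L (nat_lit 0)))))))) (L (nat_lit 0)))) (N (N (N (N (N (N (N (L (nat_lit 0)) (N (L (nat_lit 0x200922b9c908282b66800)) (L (nat_lit 0)))) (N (N (L (nat_lit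 0x1feb1a94f98d7748bc800)) (L (nat_lit 0))) (N (L (nat_lit 0x1f9167d8afd8f23a66400)) (L (nat_lit 0))))) (N (N (N (L (nat_lit 0x200000000000000000000)) (L (nat_lit 0x200000000000000000000))) (N (L (nat_lit 0x200000000000000000000)) (L (nat_lit 0)))) (N (N (L (nat_lit 0x201ab198e137359c1a000)) (L (nat_lit 0))) (N (L (nat_lit 0x203a5f5f1a9a013cfd800)) (L (nat_lit 0)))))) (N (N (N (N (L (nat_lit 0x1ffecf6332d6ac0604000)) (L (nat_lit 0))) (N (L (nat_lit 0x200000000000000000000)) (L (nat_lit 0)))) (N (N (L (nat_lit 0x20678a25551e1e9189000)) (L (nat_lit 0))) (N (L (nat_lit 0x200000000000000000000)) (L (nat_lit 0))))) (N (N (N (L (nat_lit 0x200000000000000000000)) (L (nat_lit 0))) (L (nat_lit 0))) (N (L (nat_lit 0)) (N (L (nat_lit 0x2048556511d64dbef1800)) (L (nat_lit 0))))))) (N (N (N (N (N (L (nat_lit 0x200000000000000000000)) (L (nat_lit 0x200000000000000000000))) (N (L (nat_lit 0x1f64152ec2974958a0800)) (L (nat_lit 0)))) (N (N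 (L (nat_lit 0x20ddcdaefc06a1ee99000)) (L (nat_lit 0))) (N (L (nat_lit 0x200000000000000000000)) (L (nat_lit 0))))) (N (N (N (L (nat_lit 0x200000000000000000000)) (L (nat_lit 0))) (N (L (nat_lit 0x200000000000000000000)) (L (nat_lit 0)))) (L (nat_lit 0)))) (N (N (N (N (L (nat_lit 0x20caa469d35a6586d7800)) (L (nat_lit 0x200000000000000000000))) (N (L (nat_lit 0x21f855792a45700f4f800)) (L (nat_lit 0)))) (N (N (L (nat_lit 0x200000000000000000000)) (L (nat_lit 0))) (N (L (nat_lit 0x245fa0c7cf7aa4cbad800)) (L (nat_lit 0))))) (N (N (N (L (nat_lit 0x1dbc7b46e6221fbfba000)) (L (nat_lit 0))) (N (L (nat_lit 0x2006eaa961e08df80d800)) (L (nat_lit 0)))) (N (N (L (nat_lit 0x200000000000000000000)) (L (nat_lit 0))) (N (L (nat_lit 0x24c57ce96284c68378800)) (L (nat_lit 0)))))))) (L (nat_lit 0))) (N (N (N (L (nat_lit 0)) (N (N (L (nat_lit 0)) (N (N (L (nat_lit 0x200000000000000000000)) (L (nat_lit 0))) (L (nat_lit 0)))) (N (L (nat_lit 0)) (N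 (L (nat_lit 0)) (N (L (nat_lit 0x200000000000000000000)) (L (nat_lit 0))))))) (N (N (N (L (nat_lit 0)) (N (N (L (nat_lit 0x2016c211b834fb938a000)) (L (nat_lit 0))) (L (nat_lit 0)))) (L (nat_lit 0))) (N (N (N (L (nat_lit 0)) (N (L (nat_lit 0x200000000000000000000)) (L (nat_lit 0)))) (N (N (L (nat_lit 0x200000000000000000000)) (L (nat_lit 0))) (L (nat_lit 0)))) (L (nat_lit 0))))) (L (nat_lit 0))))) (N (N (N (N (N (N (N (N (N (L (nat_lit 0x200000000000000000000)) (L (nat_lit 0x1c8b093ec055da44a4c00))) (N (L (nat_lit 0x20d2ec875456fb3e10000)) (L (nat_lit 0)))) (N (N (L (nat_lit 0x1fff9680d39eb56967000)) (L (nat_lit 0))) (N (L (nat_lit 0x200000000000000000000)) (L (nat_lit 0))))) (N (N (N (L (nat_lit 0x201d1dccaa420e9f38800)) (L (nat_lit 0x1d68cc42480e92051d800))) (N (L (nat_lit 0x200000000000000000000)) (L (nat_lit 0)))) (N (N (L (nat_lit 0x20280390870d067469800)) (L (nat_lit 0))) (N (L (nat_lit 0x200000000000000000000)) (L (nat_lit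 0)))))) (N (N (N (N (L (nat_lit 0x200000000000000000000)) (L (nat_lit 0x200000000000000000000))) (N (L (nat_lit 0x1f0e79a1da7a7c1c00800)) (L (nat_lit 0)))) (N (N (L (nat_lit 0x200000000000000000000)) (L (nat_lit 0))) (N (L (nat_lit 0x200000000000000000000)) (L (nat_lit 0))))) (N (N (N (L (nat_lit 0x200000000000000000000)) (L (nat_lit 0))) (L (nat_lit 0))) (N (N (L (nat_lit 0x1fa6fab4db6d89014f000)) (L (nat_lit 0))) (N (L (nat_lit 0x200000000000000000000)) (L (nat_lit 0))))))) (N (N (N (N (N (L (nat_lit 0x200000000000000000000)) (L (nat_lit 0x200000000000000000000))) (N (L (nat_lit 0x2038a827464a1925a1000)) (L (nat_lit 0)))) (N (N (L (nat_lit 0x200000000000000000000)) (L (nat_lit 0))) (N (L (nat_lit 0x1ef019baf7da5ffb0b400)) (L (nat_lit 0))))) (N (N (N (L (nat_lit 0x200000000000000000000)) (L (nat_lit 0))) (N (L (nat_lit 0x200000000000000000000)) (L (nat_lit 0)))) (N (N (L (nat_lit 0x200000000000000000000)) (L (nat_lit 0)))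 (N (L (nat_lit 0x1f9b464c07b7febe83000)) (L (nat_lit 0)))))) (N (N (N (N (L (nat_lit 0x200000000000000000000)) (L (nat_lit 0x200000000000000000000))) (N (L (nat_lit 0x200000000000000000000)) (L (nat_lit 0)))) (N (N (L (nat_lit 0x200000000000000000000)) (L (nat_lit 0))) (N (L (nat_lit 0x217d75781675df223a800)) (L (nat_lit 0))))) (N (N (N (L (nat_lit 0x200e8a237f95ca26b6000)) (L (nat_lit 0))) (N (L (nat_lit 0x200000000000000000000)) (L (nat_lit 0)))) (N (N (L (nat_lit 0x1ff7f59702d7486a50800)) (L (nat_lit 0))) (N (L (nat_lit 0x2007036ac94f22da84000)) (L (nat_lit 0)))))))) (L (nat_lit 0))) (N (N (N (N (N (L (nat_lit 0)) (N (N (L (nat_lit 0x200000000000000000000)) (L (nat_lit 0))) (N (L (nat_lit 0x200000000000000000000)) (L (nat_lit 0))))) (L (nat_lit 0))) (N (N (L (nat_lit 0)) (N (N (L (nat_lit 0x200000000000000000000)) (L (nat_lit 0))) (L (nat_lit 0)))) (N (L (nat_lit 0)) (N (L (nat_lit 0)) (N (L (nat_lit 0x21ddff3dc3e901e3d8000))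 (L (nat_lit 0))))))) (N (N (N (L (nat_lit 0)) (N (N (L (nat_lit 0x200000000000000000000)) (L (nat_lit 0))) (L (nat_lit 0)))) (N (N (N (L (nat_lit 0x1ff998a4f33b82b306400)) (L (nat_lit 0))) (L (nat_lit 0))) (L (nat_lit 0)))) (N (N (N (L (nat_lit 0)) (N (L (nat_lit 0x22364798a5b639bf1cd00)) (L (nat_lit 0)))) (N (N (L (nat_lit 0x1ebc507f9dc43a139f800)) (L (nat_lit 0))) (L (nat_lit 0)))) (L (nat_lit 0))))) (L (nat_lit 0)))) (N (N (N (N (N (N (N (L (nat_lit 0)) (N (L (nat_lit 0x200000000000000000000)) (L (nat_lit 0)))) (N (N (L (nat_lit 0x200000000000000000000)) (L (nat_lit 0))) (N (L (nat_lit 0x1ef2f52bfb354ba180400)) (L (nat_lit 0))))) (N (N (L (nat_lit 0)) (N (L (nat_lit 0x200000000000000000000)) (L (nat_lit 0)))) (N (N (L (nat_lit 0x200000000000000000000)) (L (nat_lit 0))) (N (L (nat_lit 0x200000000000000000000)) (L (nat_lit 0)))))) (N (N (N (N (L (nat_lit 0x200000000000000000000)) (L (nat_lit 0))) (L (nat_lit 0))) (N (N (L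 (nat_lit 0x2011b06b1f9bb4f1ecc00)) (L (nat_lit 0))) (N (L (nat_lit 0x1d6c48149927e2ea06000)) (L (nat_lit 0))))) (N (L (nat_lit 0)) (N (L (nat_lit 0)) (N (L (nat_lit 0x211ddcd366fafb68ee400)) (L (nat_lit 0))))))) (N (N (N (L (nat_lit 0)) (N (N (L (nat_lit 0x200000000000000000000)) (L (nat_lit 0))) (N (L (nat_lit 0x200000000000000000000)) (L (nat_lit 0))))) (N (N (N (L (nat_lit 0x1fa5406d0ad1e97fc5c00)) (L (nat_lit 0))) (N (L (nat_lit 0x2041895e68318359fdbc0)) (L (nat_lit 0)))) (L (nat_lit 0)))) (N (N (N (N (L (nat_lit 0x200000000000000000000)) (L (nat_lit 0))) (N (L (nat_lit 0x200000000000000000000)) (L (nat_lit 0)))) (N (N (L (nat_lit 0x1f1f34d2e95e00455c000)) (L (nat_lit 0))) (N (L (nat_lit 0x19d8f2af9f0301b86b000)) (L (nat_lit 0))))) (N (N (N (L (nat_lit 0x200000000000000000000)) (L (nat_lit 0))) (N (L (nat_lit 0x209437e8ee89a43e89c00)) (L (nat_lit 0)))) (N (N (L (nat_lit 0x200000000000000000000)) (L (nat_lit 0))) (N (L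 (nat_lit 0x21c60e69ce9ffc2887000)) (L (nat_lit 0)))))))) (L (nat_lit 0))) (N (N (L (nat_lit 0)) (N (N (N (L (nat_lit 0)) (N (N (L (nat_lit 0x200000000000000000000)) (L (nat_lit 0))) (L (nat_lit 0)))) (L (nat_lit 0))) (N (N (N (L (nat_lit 0)) (N (L (nat_lit 0x200000000000000000000)) (L (nat_lit 0)))) (N (N (L (nat_lit 0x200000000000000000000)) (L (nat_lit 0))) (L (nat_lit 0)))) (L (nat_lit 0))))) (L (nat_lit 0)))))) (N (N (N (N (N (N (N (N (N (N (L (nat_lit 0x200000000000000000000)) (L (nat_lit 0x1fd66e3e2f690bf93a000))) (N (L (nat_lit 0x200000000000000000000)) (L (nat_lit 0)))) (N (N (L (nat_lit 0x200000000000000000000)) (L (nat_lit 0))) (N (L (nat_lit 0x200000000000000000000)) (L (nat_lit 0))))) (N (N (N (L (nat_lit 0x200000000000000000000)) (L (nat_lit 0x230f94f2030788b3ae800))) (N (L (nat_lit 0x200000000000000000000)) (L (nat_lit 0)))) (N (N (L (nat_lit 0x200000000000000000000)) (L (nat_lit 0))) (N (L (nat_lit 0x200000000000000000000))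 (L (nat_lit 0)))))) (N (N (N (N (L (nat_lit 0x200000000000000000000)) (L (nat_lit 0x200000000000000000000))) (N (L (nat_lit 0x200000000000000000000)) (L (nat_lit 0)))) (N (N (L (nat_lit 0x200000000000000000000)) (L (nat_lit 0))) (N (L (nat_lit 0x200000000000000000000)) (L (nat_lit 0))))) (N (N (N (L (nat_lit 0x200000000000000000000)) (L (nat_lit 0))) (N (L (nat_lit 0x200000000000000000000)) (L (nat_lit 0)))) (N (N (L (nat_lit 0x1fef6506a4ed1b54a3000)) (L (nat_lit 0))) (N (L (nat_lit 0x200000000000000000000)) (L (nat_lit 0))))))) (N (N (N (N (N (L (nat_lit 0x200000000000000000000)) (L (nat_lit 0x200000000000000000000))) (N (L (nat_lit 0x200000000000000000000)) (L (nat_lit 0)))) (N (N (L (nat_lit 0x200000000000000000000)) (L (nat_lit 0))) (N (L (nat_lit 0x200000000000000000000)) (L (nat_lit 0))))) (N (N (N (L (nat_lit 0x200000000000000000000)) (L (nat_lit 0x1fdae38c1de0b6c7fc000))) (N (L (nat_lit 0x200000000000000000000)) (L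 (nat_lit 0)))) (N (N (L (nat_lit 0x200000000000000000000)) (L (nat_lit 0))) (N (L (nat_lit 0x200000000000000000000)) (L (nat_lit 0)))))) (N (N (N (N (L (nat_lit 0x200000000000000000000)) (L (nat_lit 0x200000000000000000000))) (N (L (nat_lit 0x200000000000000000000)) (L (nat_lit 0)))) (N (N (L (nat_lit 0x200000000000000000000)) (L (nat_lit 0))) (N (L (nat_lit 0x200000000000000000000)) (L (nat_lit 0))))) (N (N (N (L (nat_lit 0x200000000000000000000)) (L (nat_lit 0))) (N (L (nat_lit 0x200000000000000000000)) (L (nat_lit 0)))) (N (N (L (nat_lit 0x200000000000000000000)) (L (nat_lit 0))) (N (L (nat_lit 0x200000000000000000000)) (L (nat_lit 0)))))))) (N (L (nat_lit 0)) (N (N (N (L (nat_lit 0)) (N (N (L (nat_lit 0x200000000000000000000)) (L (nat_lit 0))) (L (nat_lit 0)))) (L (nat_lit 0))) (L (nat_lit 0))))) (N (N (N (N (N (N (L (nat_lit 0)) (N (L (nat_lit 0x200000000000000000000)) (L (nat_lit 0)))) (N (N (L (nat_lit 0x200000000000000000000))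 (L (nat_lit 0))) (N (L (nat_lit 0x1db35fc98460fb61ee400)) (L (nat_lit 0))))) (N (N (L (nat_lit 0)) (N (L (nat_lit 0x200000000000000000000)) (L (nat_lit 0)))) (N (L (nat_lit 0)) (N (L (nat_lit 0x200000000000000000000)) (L (nat_lit 0)))))) (N (N (N (N (L (nat_lit 0x200000000000000000000)) (L (nat_lit 0))) (L (nat_lit 0))) (N (N (L (nat_lit 0x21e4a3189b02ccad49c00)) (L (nat_lit 0))) (L (nat_lit 0)))) (N (L (nat_lit 0)) (N (L (nat_lit 0)) (N (L (nat_lit 0x1ec125351917ad30ed800)) (L (nat_lit 0))))))) (N (N (N (L (nat_lit 0)) (N (N (L (nat_lit 0x200000000000000000000)) (L (nat_lit 0))) (N (L (nat_lit 0x2254de68dd9f6a1606400)) (L (nat_lit 0))))) (N (N (N (L (nat_lit 0x200000000000000000000)) (L (nat_lit 0))) (L (nat_lit 0))) (L (nat_lit 0)))) (N (N (N (L (nat_lit 0)) (N (L (nat_lit 0x200000000000000000000)) (L (nat_lit 0)))) (N (N (L (nat_lit 0x1f9c20d8fdb3b70893c00)) (L (nat_lit 0))) (L (nat_lit 0)))) (L (nat_lit 0))))) (L (nat_lit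 0)))) (N (N (N (N (N (N (N (L (nat_lit 0)) (N (L (nat_lit 0x200000000000000000000)) (L (nat_lit 0)))) (N (N (L (nat_lit 0x200000000000000000000)) (L (nat_lit 0))) (N (L (nat_lit 0x200000000000000000000)) (L (nat_lit 0))))) (N (N (L (nat_lit 0)) (N (L (nat_lit 0x200000000000000000000)) (L (nat_lit 0)))) (N (N (L (nat_lit 0x200000000000000000000)) (L (nat_lit 0))) (N (L (nat_lit 0x20627b81671ef800f0400)) (L (nat_lit 0)))))) (N (N (N (N (L (nat_lit 0x200000000000000000000)) (L (nat_lit 0))) (N (L (nat_lit 0x200000000000000000000)) (L (nat_lit 0)))) (N (N (L (nat_lit 0x1f4ad7a1fec90c8df8000)) (L (nat_lit 0))) (N (L (nat_lit 0x200000000000000000000)) (L (nat_lit 0))))) (N (L (nat_lit 0)) (N (L (nat_lit 0)) (N (L (nat_lit 0x200000000000000000000)) (L (nat_lit 0))))))) (N (N (N (N (N (L (nat_lit 0x200000000000000000000)) (L (nat_lit 0x253110acc5c4def5a5800))) (N (L (nat_lit 0x200000000000000000000)) (L (nat_lit 0)))) (N (N (L (nat_lit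 0x1f6964d39fc8031485000)) (L (nat_lit 0))) (N (L (nat_lit 0x200000000000000000000)) (L (nat_lit 0))))) (N (N (N (L (nat_lit 0x1feab9685f1de8747f400)) (L (nat_lit 0))) (N (L (nat_lit 0x200000000000000000000)) (L (nat_lit 0)))) (L (nat_lit 0)))) (N (N (N (N (L (nat_lit 0x200000000000000000000)) (L (nat_lit 0))) (N (L (nat_lit 0x200000000000000000000)) (L (nat_lit 0)))) (N (N (L (nat_lit 0x200000000000000000000)) (L (nat_lit 0))) (N (L (nat_lit 0x1fe6a31fe90481a77c000)) (L (nat_lit 0))))) (N (N (N (L (nat_lit 0x200000000000000000000)) (L (nat_lit 0))) (N (L (nat_lit 0x214f90e25b78f97686800)) (L (nat_lit 0)))) (N (N (L (nat_lit 0x200000000000000000000)) (L (nat_lit 0))) (N (L (nat_lit 0x1bb09cc40077be2498000)) (L (nat_lit 0)))))))) (L (nat_lit 0))) (N (N (N (L (nat_lit 0)) (N (N (L (nat_lit 0)) (N (N (L (nat_lit 0x200000000000000000000)) (L (nat_lit 0))) (L (nat_lit 0)))) (L (nat_lit 0)))) (N (N (N (L (nat_lit 0)) (N (N (L (nat_lit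 0x200000000000000000000)) (L (nat_lit 0))) (L (nat_lit 0)))) (L (nat_lit 0))) (N (N (N (L (nat_lit 0)) (N (L (nat_lit 0x200000000000000000000)) (L (nat_lit 0)))) (N (N (L (nat_lit 0x200000000000000000000)) (L (nat_lit 0))) (L (nat_lit 0)))) (L (nat_lit 0))))) (L (nat_lit 0))))) (N (N (N (N (N (N (N (N (N (L (nat_lit 0)) (L (nat_lit 0x200000000000000000000))) (N (L (nat_lit 0x1ff682f05a18f2eff5000)) (L (nat_lit 0)))) (N (N (L (nat_lit 0x204c512d85946cf95a000)) (L (nat_lit 0))) (N (L (nat_lit 0x1fef70ec7a5a63a047c00)) (L (nat_lit 0))))) (N (N (N (L (nat_lit 0x200000000000000000000)) (L (nat_lit 0x200000000000000000000))) (N (L (nat_lit 0x204635ae087ec16b8b000)) (L (nat_lit 0)))) (N (N (L (nat_lit 0x200000000000000000000)) (L (nat_lit 0))) (N (L (nat_lit 0x200000000000000000000)) (L (nat_lit 0)))))) (N (N (N (N (L (nat_lit 0x200000000000000000000)) (L (nat_lit 0))) (N (L (nat_lit 0x200000000000000000000)) (L (nat_lit 0)))) (N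 (N (L (nat_lit 0x200000000000000000000)) (L (nat_lit 0))) (N (L (nat_lit 0x200000000000000000000)) (L (nat_lit 0))))) (N (N (N (L (nat_lit 0x213fe5ea5fe11fbd0d000)) (L (nat_lit 0))) (L (nat_lit 0))) (N (N (L (nat_lit 0x200000000000000000000)) (L (nat_lit 0))) (N (L (nat_lit 0x200000000000000000000)) (L (nat_lit 0))))))) (N (N (N (N (N (L (nat_lit 0x200000000000000000000)) (L (nat_lit 0x20578151fe87ad8daa000))) (N (L (nat_lit 0x205e430f1502daa6b6000)) (L (nat_lit 0)))) (N (N (L (nat_lit 0x207ef7f8c005ec5a0b000)) (L (nat_lit 0))) (N (L (nat_lit 0x200000000000000000000)) (L (nat_lit 0))))) (N (N (N (L (nat_lit 0x204553f61ca4dd7f8e000)) (L (nat_lit 0))) (N (L (nat_lit 0x200000000000000000000)) (L (nat_lit 0)))) (N (N (L (nat_lit 0x225b651eb8e2128744000)) (L (nat_lit 0))) (N (L (nat_lit 0x23668b29690be1b332000)) (L (nat_lit 0)))))) (N (N (N (N (L (nat_lit 0x200000000000000000000)) (L (nat_lit 0x1bc690d0dfb94fccdb000))) (N (L (nat_lit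 0x200000000000000000000)) (L (nat_lit 0)))) (N (N (L (nat_lit 0x2080443775be69f6a3800)) (L (nat_lit 0))) (N (L (nat_lit 0x20f23fddeca4d1f398000)) (L (nat_lit 0))))) (N (N (N (L (nat_lit 0x200000000000000000000)) (L (nat_lit 0))) (N (L (nat_lit 0x210fb3764cd5d2332c800)) (L (nat_lit 0)))) (N (N (L (nat_lit 0x200000000000000000000)) (L (nat_lit 0))) (N (L (nat_lit 0x200000000000000000000)) (L (nat_lit 0)))))))) (L (nat_lit 0))) (N (N (N (N (N (L (nat_lit 0)) (N (N (L (nat_lit 0x200000000000000000000)) (L (nat_lit 0))) (N (L (nat_lit 0x1f9460fa7f8617d484400)) (L (nat_lit 0))))) (L (nat_lit 0))) (N (N (L (nat_lit 0)) (N (N (L (nat_lit 0x200000000000000000000)) (L (nat_lit 0))) (L (nat_lit 0)))) (N (L (nat_lit 0)) (N (L (nat_lit 0)) (N (L (nat_lit 0x200000000000000000000)) (L (nat_lit 0))))))) (N (N (N (L (nat_lit 0)) (N (N (L (nat_lit 0x200000000000000000000)) (L (nat_lit 0))) (L (nat_lit 0)))) (L (nat_lit 0))) (N (N (N (L (nat_lit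 0)) (N (L (nat_lit 0x200000000000000000000)) (L (nat_lit 0)))) (N (N (L (nat_lit 0x208fb72b8e7bc6a2a1000)) (L (nat_lit 0))) (L (nat_lit 0)))) (L (nat_lit 0))))) (L (nat_lit 0)))) (N (N (N (N (N (N (N (L (nat_lit 0)) (N (L (nat_lit 0x200000000000000000000)) (L (nat_lit 0)))) (N (N (L (nat_lit 0x1fb4768710f7d0a51b000)) (L (nat_lit 0))) (N (L (nat_lit 0x20567212910148072c800)) (L (nat_lit 0))))) (N (N (L (nat_lit 0)) (N (L (nat_lit 0x1d9d961c68532d3e40000)) (L (nat_lit 0)))) (N (L (nat_lit 0)) (N (L (nat_lit 0x200000000000000000000)) (L (nat_lit 0)))))) (N (N (N (N (L (nat_lit 0x200000000000000000000)) (L (nat_lit 0))) (L (nat_lit 0))) (N (N (L (nat_lit 0x20c6e98f186b6b19e7c00)) (L (nat_lit 0))) (N (L (nat_lit 0x22627b03a41afa0a55400)) (L (nat_lit 0))))) (N (L (nat_lit 0)) (N (L (nat_lit 0)) (N (L (nat_lit 0x1e760364ed6424f2d8000)) (L (nat_lit 0))))))) (N (N (N (L (nat_lit 0)) (N (N (L (nat_lit 0x2094ed0de5d45a82fd800)) (L (nat_lit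 0))) (N (L (nat_lit 0x20f66194e94e09c969800)) (L (nat_lit 0))))) (N (N (N (L (nat_lit 0x200000000000000000000)) (L (nat_lit 0))) (N (L (nat_lit 0x200000000000000000000)) (L (nat_lit 0)))) (L (nat_lit 0)))) (N (N (N (N (L (nat_lit 0x200000000000000000000)) (L (nat_lit 0))) (N (L (nat_lit 0x200000000000000000000)) (L (nat_lit 0)))) (N (N (L (nat_lit 0x23199f3c33522fe8a7e00)) (L (nat_lit 0))) (N (L (nat_lit 0x200000000000000000000)) (L (nat_lit 0))))) (N (N (L (nat_lit 0)) (N (L (nat_lit 0x200000000000000000000)) (L (nat_lit 0)))) (N (L (nat_lit 0)) (N (L (nat_lit 0x201064300bee6a4f9f800)) (L (nat_lit 0)))))))) (L (nat_lit 0))) (N (N (L (nat_lit 0)) (N (N (N (L (nat_lit 0)) (N (N (L (nat_lit 0x200000000000000000000)) (L (nat_lit 0))) (L (nat_lit 0)))) (L (nat_lit 0))) (N (N (L (nat_lit 0)) (N (N (L (nat_lit 0x200000000000000000000)) (L (nat_lit 0))) (L (nat_lit 0)))) (L (nat_lit 0))))) (L (nat_lit 0))))))) (N (N (N (N (N (N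 (N (N (N (N (N (L (nat_lit 0x200000000000000000000)) (L (nat_lit 0x200000000000000000000))) (N (L (nat_lit 0x200000000000000000000)) (L (nat_lit 0)))) (N (N (L (nat_lit 0x200000000000000000000)) (L (nat_lit 0))) (N (L (nat_lit 0x200000000000000000000)) (L (nat_lit 0))))) (N (N (N (L (nat_lit 0x200000000000000000000)) (L (nat_lit 0x200000000000000000000))) (N (L (nat_lit 0x200000000000000000000)) (L (nat_lit 0)))) (N (N (L (nat_lit 0x200000000000000000000)) (L (nat_lit 0))) (N (L (nat_lit 0x200000000000000000000)) (L (nat_lit 0)))))) (N (N (N (N (L (nat_lit 0x200000000000000000000)) (L (nat_lit 0x200000000000000000000))) (N (L (nat_lit 0x200000000000000000000)) (L (nat_lit 0)))) (N (N (L (nat_lit 0x200000000000000000000)) (L (nat_lit 0))) (N (L (nat_lit 0x200000000000000000000)) (L (nat_lit 0))))) (N (N (N (L (nat_lit 0x200000000000000000000)) (L (nat_lit 0))) (N (L (nat_lit 0x200000000000000000000)) (L (nat_lit 0)))) (N (N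 (L (nat_lit 0x200000000000000000000)) (L (nat_lit 0))) (N (L (nat_lit 0x200000000000000000000)) (L (nat_lit 0))))))) (N (N (N (N (N (L (nat_lit 0x200000000000000000000)) (L (nat_lit 0x200000000000000000000))) (N (L (nat_lit 0x200000000000000000000)) (L (nat_lit 0)))) (N (N (L (nat_lit 0x200000000000000000000)) (L (nat_lit 0))) (N (L (nat_lit 0x200000000000000000000)) (L (nat_lit 0))))) (N (N (N (L (nat_lit 0x200000000000000000000)) (L (nat_lit 0x217ded6e19fc8d4faa000))) (N (L (nat_lit 0x200000000000000000000)) (L (nat_lit 0)))) (N (N (L (nat_lit 0x200000000000000000000)) (L (nat_lit 0))) (N (L (nat_lit 0x200000000000000000000)) (L (nat_lit 0)))))) (N (N (N (N (L (nat_lit 0x200000000000000000000)) (L (nat_lit 0x200000000000000000000))) (N (L (nat_lit 0x200000000000000000000)) (L (nat_lit 0)))) (N (N (L (nat_lit 0x200000000000000000000)) (L (nat_lit 0))) (N (L (nat_lit 0x200000000000000000000)) (L (nat_lit 0))))) (N (N (N (L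 (nat_lit 0x200000000000000000000)) (L (nat_lit 0))) (N (L (nat_lit 0x200000000000000000000)) (L (nat_lit 0)))) (N (N (L (nat_lit 0x200000000000000000000)) (L (nat_lit 0))) (N (L (nat_lit 0x200000000000000000000)) (L (nat_lit 0)))))))) (N (L (nat_lit 0)) (N (N (N (L (nat_lit 0)) (N (N (L (nat_lit 0x200000000000000000000)) (L (nat_lit 0))) (L (nat_lit 0)))) (L (nat_lit 0))) (L (nat_lit 0))))) (N (N (N (N (N (N (L (nat_lit 0)) (N (L (nat_lit 0x200000000000000000000)) (L (nat_lit 0)))) (N (N (L (nat_lit 0x203734ac17d0d39a37000)) (L (nat_lit 0))) (N (L (nat_lit 0x200000000000000000000)) (L (nat_lit 0))))) (N (N (L (nat_lit 0)) (N (L (nat_lit 0x200000000000000000000)) (L (nat_lit 0)))) (N (L (nat_lit 0)) (N (L (nat_lit 0x223e905a02c634363f800)) (L (nat_lit 0)))))) (N (N (N (N (L (nat_lit 0x200000000000000000000)) (L (nat_lit 0))) (L (nat_lit 0))) (N (N (L (nat_lit 0x1f649444fd993bd893c00)) (L (nat_lit 0))) (N (L (nat_lit 0x2134ecb9b77e163f20000))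 (L (nat_lit 0))))) (N (L (nat_lit 0)) (N (L (nat_lit 0)) (N (L (nat_lit 0x1c97a7997d08203613000)) (L (nat_lit 0))))))) (N (N (N (L (nat_lit 0)) (N (N (L (nat_lit 0x200000000000000000000)) (L (nat_lit 0))) (N (L (nat_lit 0x200000000000000000000)) (L (nat_lit 0))))) (N (N (N (L (nat_lit 0x200000000000000000000)) (L (nat_lit 0))) (L (nat_lit 0))) (L (nat_lit 0)))) (N (N (N (N (L (nat_lit 0x200000000000000000000)) (L (nat_lit 0))) (N (L (nat_lit 0x213850056a53aa8487c00)) (L (nat_lit 0)))) (N (N (L (nat_lit 0x1d1894d4e21ebc8329800)) (L (nat_lit 0))) (L (nat_lit 0)))) (N (L (nat_lit 0)) (N (L (nat_lit 0)) (N (L (nat_lit 0x200000000000000000000)) (L (nat_lit 0)))))))) (L (nat_lit 0)))) (N (N (N (N (N (N (N (L (nat_lit 0)) (N (L (nat_lit 0x200000000000000000000)) (L (nat_lit 0)))) (N (N (L (nat_lit 0x2004dc9ed749d6996e800)) (L (nat_lit 0))) (N (L (nat_lit 0x20c95d02988ba78855000)) (L (nat_lit 0))))) (N (N (N (L (nat_lit 0x200000000000000000000))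 (L (nat_lit 0))) (N (L (nat_lit 0x200000000000000000000)) (L (nat_lit 0)))) (N (N (L (nat_lit 0x1b85dba5cdc461b3e0c00)) (L (nat_lit 0))) (N (L (nat_lit 0x200000000000000000000)) (L (nat_lit 0)))))) (N (N (N (N (L (nat_lit 0x200000000000000000000)) (L (nat_lit 0))) (N (L (nat_lit 0x200000000000000000000)) (L (nat_lit 0)))) (N (N (L (nat_lit 0x200000000000000000000)) (L (nat_lit 0))) (N (L (nat_lit 0x1f6b78e80a2d7d2d4a800)) (L (nat_lit 0))))) (N (N (N (L (nat_lit 0x1ecbe2ad8349b5597e000)) (L (nat_lit 0))) (L (nat_lit 0))) (N (L (nat_lit 0)) (N (L (nat_lit 0x21ad10ba09ca160544800)) (L (nat_lit 0))))))) (N (N (N (N (N (L (nat_lit 0x20097573c1abda87f9800)) (L (nat_lit 0x200000000000000000000))) (N (L (nat_lit 0x2015db673e590e4561100)) (L (nat_lit 0)))) (N (N (L (nat_lit 0x1fd39fbcb94e475199000)) (L (nat_lit 0))) (N (L (nat_lit 0x200000000000000000000)) (L (nat_lit 0))))) (N (N (N (L (nat_lit 0x200000000000000000000)) (L (nat_lit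 0))) (N (L (nat_lit 0x200000000000000000000)) (L (nat_lit 0)))) (L (nat_lit 0)))) (N (N (N (N (L (nat_lit 0x206f02fc789bca3bef000)) (L (nat_lit 0))) (N (L (nat_lit 0x1ff335819e221b21c9800)) (L (nat_lit 0)))) (N (N (L (nat_lit 0x200000000000000000000)) (L (nat_lit 0))) (N (L (nat_lit 0x200000000000000000000)) (L (nat_lit 0))))) (N (N (N (L (nat_lit 0x200000000000000000000)) (L (nat_lit 0))) (N (L (nat_lit 0x206ffc957aeae431c5800)) (L (nat_lit 0)))) (N (N (L (nat_lit 0x200000000000000000000)) (L (nat_lit 0))) (N (L (nat_lit 0x21dcfb671bdc2032e4800)) (L (nat_lit 0)))))))) (L (nat_lit 0))) (N (N (N (L (nat_lit 0)) (N (N (L (nat_lit 0)) (N (N (L (nat_lit 0x200000000000000000000)) (L (nat_lit 0))) (L (nat_lit 0)))) (L (nat_lit 0)))) (N (N (N (L (nat_lit 0)) (N (N (L (nat_lit 0x1f2eb027e17d827e74800)) (L (nat_lit 0))) (L (nat_lit 0)))) (L (nat_lit 0))) (N (N (N (L (nat_lit 0)) (N (L (nat_lit 0x200000000000000000000)) (L (nat_lit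 0)))) (N (N (L (nat_lit 0x200000000000000000000)) (L (nat_lit 0))) (L (nat_lit 0)))) (L (nat_lit 0))))) (L (nat_lit 0))))) (N (N (N (N (N (N (N (N (N (L (nat_lit 0)) (L (nat_lit 0x200000000000000000000))) (N (L (nat_lit 0x200000000000000000000)) (L (nat_lit 0)))) (N (N (L (nat_lit 0x200000000000000000000)) (L (nat_lit 0))) (N (L (nat_lit 0x1f81a44b8b7050e57b000)) (L (nat_lit 0))))) (N (N (N (L (nat_lit 0x1ff1e418e970a14cba000)) (L (nat_lit 0x22d0024211e9d8843d800))) (N (L (nat_lit 0x200000000000000000000)) (L (nat_lit 0)))) (N (N (L (nat_lit 0x205f8d7b241b7239ca000)) (L (nat_lit 0))) (N (L (nat_lit 0x2221d5e0e8c78a3fc9000)) (L (nat_lit 0)))))) (N (N (N (N (L (nat_lit 0x200000000000000000000)) (L (nat_lit 0))) (N (L (nat_lit 0x20946f46c4d5c8951e800)) (L (nat_lit 0)))) (N (N (L (nat_lit 0x200000000000000000000)) (L (nat_lit 0))) (N (L (nat_lit 0x200000000000000000000)) (L (nat_lit 0))))) (N (N (N (L (nat_lit 0x1edc27163fe404faf1000))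 (L (nat_lit 0))) (L (nat_lit 0))) (N (N (L (nat_lit 0x200000000000000000000)) (L (nat_lit 0))) (N (L (nat_lit 0x1f85aed81392293c3b800)) (L (nat_lit 0))))))) (N (N (N (N (N (L (nat_lit 0x200000000000000000000)) (L (nat_lit 0x215def89ccae8a67ba000))) (N (L (nat_lit 0x200000000000000000000)) (L (nat_lit 0)))) (N (N (L (nat_lit 0x200000000000000000000)) (L (nat_lit 0))) (N (L (nat_lit 0x212b28f049c434d638000)) (L (nat_lit 0))))) (N (N (N (L (nat_lit 0x200000000000000000000)) (L (nat_lit 0))) (N (L (nat_lit 0x200000000000000000000)) (L (nat_lit 0)))) (N (N (L (nat_lit 0x1ebbdce3108ae4a10a000)) (L (nat_lit 0))) (N (L (nat_lit 0x200000000000000000000)) (L (nat_lit 0)))))) (N (N (N (N (L (nat_lit 0x1fe4aca23c974fc29b000)) (L (nat_lit 0x20add3ce795e38f3aec00))) (N (L (nat_lit 0x200000000000000000000)) (L (nat_lit 0)))) (N (N (L (nat_lit 0x204754965835a0201d800)) (L (nat_lit 0))) (N (L (nat_lit 0x238be5a882c71b89c6000)) (L (nat_lit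 0))))) (N (N (N (L (nat_lit 0x1f8d11d7a174d2f59c000)) (L (nat_lit 0))) (N (L (nat_lit 0x200000000000000000000)) (L (nat_lit 0)))) (N (N (L (nat_lit 0x1ee72c21b69483affa800)) (L (nat_lit 0))) (N (L (nat_lit 0x200000000000000000000)) (L (nat_lit 0)))))))) (L (nat_lit 0))) (N (N (N (N (N (L (nat_lit 0)) (N (N (L (nat_lit 0x200000000000000000000)) (L (nat_lit 0))) (N (L (nat_lit 0x200000000000000000000)) (L (nat_lit 0))))) (L (nat_lit 0))) (N (N (L (nat_lit 0)) (N (N (L (nat_lit 0x200000000000000000000)) (L (nat_lit 0))) (L (nat_lit 0)))) (N (L (nat_lit 0)) (N (L (nat_lit 0)) (N (L (nat_lit 0x1b77d71361795e12a5c00)) (L (nat_lit 0))))))) (N (N (N (L (nat_lit 0)) (N (N (L (nat_lit 0x20bf54173b74000541c00)) (L (nat_lit 0))) (L (nat_lit 0)))) (L (nat_lit 0))) (N (N (N (L (nat_lit 0)) (N (L (nat_lit 0x200000000000000000000)) (L (nat_lit 0)))) (N (N (L (nat_lit 0x1f8ff491b386f6c4a1800)) (L (nat_lit 0))) (L (nat_lit 0)))) (L (nat_lit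 0))))) (L (nat_lit 0)))) (N (N (N (N (N (N (N (L (nat_lit 0)) (N (L (nat_lit 0x200000000000000000000)) (L (nat_lit 0)))) (N (N (L (nat_lit 0x1f4ef30063984185b0000)) (L (nat_lit 0))) (N (L (nat_lit 0x207a6418d57694059ec00)) (L (nat_lit 0))))) (N (N (L (nat_lit 0)) (N (L (nat_lit 0x200000000000000000000)) (L (nat_lit 0)))) (N (N (L (nat_lit 0x200000000000000000000)) (L (nat_lit 0))) (N (L (nat_lit 0x1de6f376cd51fb10be400)) (L (nat_lit 0)))))) (N (N (N (N (L (nat_lit 0x200000000000000000000)) (L (nat_lit 0))) (L (nat_lit 0))) (N (N (L (nat_lit 0x200000000000000000000)) (L (nat_lit 0))) (N (L (nat_lit 0x2352d027c096a5707d400)) (L (nat_lit 0))))) (N (L (nat_lit 0)) (N (L (nat_lit 0)) (N (L (nat_lit 0x200000000000000000000)) (L (nat_lit 0))))))) (N (N (N (L (nat_lit 0)) (N (N (L (nat_lit 0x200000000000000000000)) (L (nat_lit 0))) (N (L (nat_lit 0x22868cfb462f9a1f9d400)) (L (nat_lit 0))))) (N (N (N (L (nat_lit 0x205b0317acc90942c2600))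 (L (nat_lit 0))) (N (L (nat_lit 0x200000000000000000000)) (L (nat_lit 0)))) (L (nat_lit 0)))) (N (N (N (N (L (nat_lit 0x200000000000000000000)) (L (nat_lit 0))) (N (L (nat_lit 0x1fe49931b7b278f90b000)) (L (nat_lit 0)))) (N (N (L (nat_lit 0x200000000000000000000)) (L (nat_lit 0))) (N (L (nat_lit 0x205ff080a4cb497e6f000)) (L (nat_lit 0))))) (N (N (N (L (nat_lit 0x200000000000000000000)) (L (nat_lit 0))) (N (L (nat_lit 0x200000000000000000000)) (L (nat_lit 0)))) (N (L (nat_lit 0)) (N (L (nat_lit 0x1e904b933ac8464230400)) (L (nat_lit 0)))))))) (L (nat_lit 0))) (N (N (L (nat_lit 0)) (N (N (N (L (nat_lit 0)) (N (N (L (nat_lit 0x200000000000000000000)) (L (nat_lit 0))) (L (nat_lit 0)))) (L (nat_lit 0))) (N (N (L (nat_lit 0)) (N (N (L (nat_lit 0x200000000000000000000)) (L (nat_lit 0))) (L (nat_lit 0)))) (L (nat_lit 0))))) (L (nat_lit 0)))))) (N (N (N (N (N (N (N (N (N (N (L (nat_lit 0x200000000000000000000)) (L (nat_lit 0x1edbfb1892f970226b000)))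 (N (L (nat_lit 0x200000000000000000000)) (L (nat_lit 0)))) (N (N (L (nat_lit 0x200000000000000000000)) (L (nat_lit 0))) (N (L (nat_lit 0x200000000000000000000)) (L (nat_lit 0))))) (N (N (N (L (nat_lit 0x200000000000000000000)) (L (nat_lit 0x20015d96fe9bce82e9800))) (N (L (nat_lit 0x200000000000000000000)) (L (nat_lit 0)))) (N (N (L (nat_lit 0x20458c6b6840455c5dc00)) (L (nat_lit 0))) (N (L (nat_lit 0x1fe2f0a2d6dac1c43b800)) (L (nat_lit 0)))))) (N (N (N (N (L (nat_lit 0x200000000000000000000)) (L (nat_lit 0x200000000000000000000))) (N (L (nat_lit 0x200000000000000000000)) (L (nat_lit 0)))) (N (N (L (nat_lit 0x200000000000000000000)) (L (nat_lit 0))) (N (L (nat_lit 0x200000000000000000000)) (L (nat_lit 0))))) (N (N (N (L (nat_lit 0x200000000000000000000)) (L (nat_lit 0))) (N (L (nat_lit 0x200000000000000000000)) (L (nat_lit 0)))) (N (N (L (nat_lit 0x20b26f3bbf6d700a20800)) (L (nat_lit 0))) (N (L (nat_lit 0x200000000000000000000))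 (L (nat_lit 0))))))) (N (N (N (N (N (L (nat_lit 0x200000000000000000000)) (L (nat_lit 0x20da8e17b7b848d52d000))) (N (L (nat_lit 0x206a35687188e3d814000)) (L (nat_lit 0)))) (N (N (L (nat_lit 0x200000000000000000000)) (L (nat_lit 0))) (N (L (nat_lit 0x200000000000000000000)) (L (nat_lit 0))))) (N (N (N (L (nat_lit 0x200000000000000000000)) (L (nat_lit 0x200000000000000000000))) (N (L (nat_lit 0x20fefd78576708e350800)) (L (nat_lit 0)))) (N (N (L (nat_lit 0x200000000000000000000)) (L (nat_lit 0))) (N (L (nat_lit 0x206cc4d3b02e3e30ad000)) (L (nat_lit 0)))))) (N (N (N (N (L (nat_lit 0x200000000000000000000)) (L (nat_lit 0x1ec59ba6083225fffb800))) (N (L (nat_lit 0x200000000000000000000)) (L (nat_lit 0)))) (N (N (L (nat_lit 0x200000000000000000000)) (L (nat_lit 0))) (N (L (nat_lit 0x200fdbceb028a204a0800)) (L (nat_lit 0))))) (N (N (N (L (nat_lit 0x203f3c0d8f7c2ae16e000)) (L (nat_lit 0))) (N (L (nat_lit 0x205aebc8548c3f44f5000)) (L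 (nat_lit 0)))) (N (N (L (nat_lit 0x20a19c87297b8b762a000)) (L (nat_lit 0))) (N (L (nat_lit 0x200000000000000000000)) (L (nat_lit 0)))))))) (L (nat_lit 0))) (N (N (N (N (N (L (nat_lit 0)) (N (N (L (nat_lit 0x200000000000000000000)) (L (nat_lit 0))) (N (L (nat_lit 0x23f19bf9d9d3809996800)) (L (nat_lit 0))))) (N (N (L (nat_lit 0)) (N (L (nat_lit 0x200000000000000000000)) (L (nat_lit 0)))) (L (nat_lit 0)))) (N (N (L (nat_lit 0)) (N (N (L (nat_lit 0x200000000000000000000)) (L (nat_lit 0))) (L (nat_lit 0)))) (N (L (nat_lit 0)) (N (L (nat_lit 0)) (N (L (nat_lit 0x200000000000000000000)) (L (nat_lit 0))))))) (N (N (N (L (nat_lit 0)) (N (N (L (nat_lit 0x1faf24cb04c732c874800)) (L (nat_lit 0))) (L (nat_lit 0)))) (N (N (N (L (nat_lit 0x200000000000000000000)) (L (nat_lit 0))) (L (nat_lit 0))) (L (nat_lit 0)))) (N (N (N (L (nat_lit 0)) (N (L (nat_lit 0x200000000000000000000)) (L (nat_lit 0)))) (N (N (L (nat_lit 0x201a87c005823d415b000))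 (L (nat_lit 0))) (L (nat_lit 0)))) (L (nat_lit 0))))) (L (nat_lit 0)))) (N (N (N (N (N (N (N (L (nat_lit 0)) (N (L (nat_lit 0x200000000000000000000)) (L (nat_lit 0)))) (N (N (L (nat_lit 0x200000000000000000000)) (L (nat_lit 0))) (N (L (nat_lit 0x217446532686cd52a9200)) (L (nat_lit 0))))) (N (N (L (nat_lit 0)) (N (L (nat_lit 0x1fcb2b5605c652f20c000)) (L (nat_lit 0)))) (N (N (L (nat_lit 0x200000000000000000000)) (L (nat_lit 0))) (N (L (nat_lit 0x200000000000000000000)) (L (nat_lit 0)))))) (N (N (N (N (L (nat_lit 0x200000000000000000000)) (L (nat_lit 0))) (L (nat_lit 0))) (N (N (L (nat_lit 0x200ac39b368efd6eac400)) (L (nat_lit 0))) (N (L (nat_lit 0x200000000000000000000)) (L (nat_lit 0))))) (N (L (nat_lit 0)) (N (L (nat_lit 0)) (N (L (nat_lit 0x1e56347343ce51ffeb000)) (L (nat_lit 0))))))) (N (N (N (N (N (L (nat_lit 0)) (L (nat_lit 0x22cabaeacfaeae45da400))) (N (L (nat_lit 0x1fc94d93e54866ea0f400)) (L (nat_lit 0)))) (N (N (L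 (nat_lit 0x200b949ce3580fe3d0000)) (L (nat_lit 0))) (N (L (nat_lit 0x200000000000000000000)) (L (nat_lit 0))))) (N (N (N (L (nat_lit 0x200000000000000000000)) (L (nat_lit 0))) (N (L (nat_lit 0x217a60fbd48452d77ca00)) (L (nat_lit 0)))) (L (nat_lit 0)))) (N (N (N (N (L (nat_lit 0x200000000000000000000)) (L (nat_lit 0))) (N (L (nat_lit 0x200000000000000000000)) (L (nat_lit 0)))) (N (N (L (nat_lit 0x200000000000000000000)) (L (nat_lit 0))) (N (L (nat_lit 0x1d83d32af73306334a000)) (L (nat_lit 0))))) (N (N (N (L (nat_lit 0x200000000000000000000)) (L (nat_lit 0))) (N (L (nat_lit 0x1f89a5af87b666d059800)) (L (nat_lit 0)))) (N (N (L (nat_lit 0x200000000000000000000)) (L (nat_lit 0))) (N (L (nat_lit 0x1e9b728bccffd49414000)) (L (nat_lit 0)))))))) (L (nat_lit 0))) (N (N (L (nat_lit 0)) (N (N (N (L (nat_lit 0)) (N (N (L (nat_lit 0x200000000000000000000)) (L (nat_lit 0))) (L (nat_lit 0)))) (L (nat_lit 0))) (N (N (N (L (nat_lit 0)) (N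 (L (nat_lit 0x200000000000000000000)) (L (nat_lit 0)))) (N (N (L (nat_lit 0x200000000000000000000)) (L (nat_lit 0))) (L (nat_lit 0)))) (L (nat_lit 0))))) (L (nat_lit 0))))) (N (N (N (N (N (N (N (N (L (nat_lit 0)) (N (L (nat_lit 0x20283388f654239399800)) (L (nat_lit 0)))) (N (N (L (nat_lit 0x20361bf24750c72e5b000)) (L (nat_lit 0))) (N (L (nat_lit 0x200000000000000000000)) (L (nat_lit 0))))) (N (N (N (L (nat_lit 0x200000000000000000000)) (L (nat_lit 0x2305ebbf5c108b5a01800))) (N (L (nat_lit 0x1eb3726e0b28d20578800)) (L (nat_lit 0)))) (N (N (L (nat_lit 0x20c17850e48354d34e000)) (L (nat_lit 0))) (N (L (nat_lit 0x1e523cceec4296134b800)) (L (nat_lit 0)))))) (N (N (N (N (L (nat_lit 0x200000000000000000000)) (L (nat_lit 0))) (N (L (nat_lit 0x200000000000000000000)) (L (nat_lit 0)))) (N (N (L (nat_lit 0x200000000000000000000)) (L (nat_lit 0))) (N (L (nat_lit 0x200000000000000000000)) (L (nat_lit 0))))) (N (N (N (L (nat_lit 0x200000000000000000000))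 (L (nat_lit 0))) (L (nat_lit 0))) (N (L (nat_lit 0)) (N (L (nat_lit 0x200000000000000000000)) (L (nat_lit 0))))))) (N (N (N (N (N (L (nat_lit 0x200000000000000000000)) (L (nat_lit 0x200000000000000000000))) (N (L (nat_lit 0x200000000000000000000)) (L (nat_lit 0)))) (N (N (L (nat_lit 0x1f543e13c7dee19d35000)) (L (nat_lit 0))) (N (L (nat_lit 0x200000000000000000000)) (L (nat_lit 0))))) (N (N (N (L (nat_lit 0x200000000000000000000)) (L (nat_lit 0))) (N (L (nat_lit 0x1f16114c8d9cb5a265000)) (L (nat_lit 0)))) (L (nat_lit 0)))) (N (N (N (N (L (nat_lit 0x200000000000000000000)) (L (nat_lit 0x20f7bfbac4f40df262800))) (N (L (nat_lit 0x2053924f03e061a9cc000)) (L (nat_lit 0)))) (N (N (L (nat_lit 0x204b9599868ddb5d4e800)) (L (nat_lit 0))) (N (L (nat_lit 0x23a2d2b1d65d40b594800)) (L (nat_lit 0))))) (N (N (N (L (nat_lit 0x200000000000000000000)) (L (nat_lit 0))) (N (L (nat_lit 0x200000000000000000000)) (L (nat_lit 0)))) (N (N (L (nat_lit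 0x200000000000000000000)) (L (nat_lit 0))) (N (L (nat_lit 0x1c07820e9c58022fa7800)) (L (nat_lit 0)))))))) (L (nat_lit 0))) (N (N (N (L (nat_lit 0)) (N (N (L (nat_lit 0)) (N (N (L (nat_lit 0x200000000000000000000)) (L (nat_lit 0))) (L (nat_lit 0)))) (N (L (nat_lit 0)) (N (L (nat_lit 0)) (N (L (nat_lit 0x200000000000000000000)) (L (nat_lit 0))))))) (N (N (N (L (nat_lit 0)) (N (N (L (nat_lit 0x2083caf169adf76fa2800)) (L (nat_lit 0))) (L (nat_lit 0)))) (L (nat_lit 0))) (N (N (N (L (nat_lit 0)) (N (L (nat_lit 0x205c47bea43c5f86ce800)) (L (nat_lit 0)))) (N (N (L (nat_lit 0x200000000000000000000)) (L (nat_lit 0))) (L (nat_lit 0)))) (L (nat_lit 0))))) (L (nat_lit 0)))) (N (N (N (N (N (N (N (L (nat_lit 0)) (N (L (nat_lit 0x200000000000000000000)) (L (nat_lit 0)))) (N (N (L (nat_lit 0x20bbbc93f2d97c30f9800)) (L (nat_lit 0))) (N (L (nat_lit 0x200000000000000000000)) (L (nat_lit 0))))) (N (N (L (nat_lit 0)) (N (L (nat_lit 0x1d5977268b5a4a4311000))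 (L (nat_lit 0)))) (N (L (nat_lit 0)) (N (L (nat_lit 0x200000000000000000000)) (L (nat_lit 0)))))) (N (N (N (N (L (nat_lit 0x200000000000000000000)) (L (nat_lit 0))) (L (nat_lit 0))) (N (N (L (nat_lit 0x1fbd7b08ce899d0c18000)) (L (nat_lit 0))) (N (L (nat_lit 0x21f560e3bd726318a0000)) (L (nat_lit 0))))) (N (L (nat_lit 0)) (N (L (nat_lit 0)) (N (L (nat_lit 0x200000000000000000000)) (L (nat_lit 0))))))) (N (N (N (L (nat_lit 0)) (N (N (L (nat_lit 0x1fab64735fe024296f800)) (L (nat_lit 0))) (N (L (nat_lit 0x200000000000000000000)) (L (nat_lit 0))))) (N (N (N (L (nat_lit 0x200000000000000000000)) (L (nat_lit 0))) (N (L (nat_lit 0x200000000000000000000)) (L (nat_lit 0)))) (L (nat_lit 0)))) (N (N (N (N (L (nat_lit 0x200000000000000000000)) (L (nat_lit 0))) (N (L (nat_lit 0x200000000000000000000)) (L (nat_lit 0)))) (N (N (L (nat_lit 0x200000000000000000000)) (L (nat_lit 0))) (N (L (nat_lit 0x200000000000000000000)) (L (nat_lit 0)))))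 (N (L (nat_lit 0)) (N (L (nat_lit 0)) (N (L (nat_lit 0x22f1ad23062d99c915800)) (L (nat_lit 0)))))))) (L (nat_lit 0))) (N (N (L (nat_lit 0)) (N (N (N (L (nat_lit 0)) (N (N (L (nat_lit 0x200000000000000000000)) (L (nat_lit 0))) (L (nat_lit 0)))) (L (nat_lit 0))) (L (nat_lit 0)))) (L (nat_lit 0))))))))) Tr.N Tr.L
noncomputable def tZT_1 : Tr := (fun (N : Tr → Tr → Tr) (L : ℕ → Tr) => (N (N (N (N (N (N (N (N (N (N (N (N (L (nat_lit 0x200000000000000000000)) (L (nat_lit 0x200000000000000000000))) (N (L (nat_lit 0x200000000000000000000)) (L (nat_lit 0)))) (N (N (L (nat_lit 0x200000000000000000000)) (L (nat_lit 0))) (N (L (nat_lit 0x200000000000000000000)) (L (nat_lit 0))))) (N (N (N (L (nat_lit 0x200000000000000000000)) (L (nat_lit 0x200000000000000000000))) (N (L (nat_lit 0x200000000000000000000)) (L (nat_lit 0)))) (N (N (L (nat_lit 0x200000000000000000000)) (L (nat_lit 0))) (N (L (nat_lit 0x200000000000000000000)) (L (nat_lit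 0)))))) (N (N (N (N (L (nat_lit 0x200000000000000000000)) (L (nat_lit 0x200000000000000000000))) (N (L (nat_lit 0x200000000000000000000)) (L (nat_lit 0)))) (N (N (L (nat_lit 0x200000000000000000000)) (L (nat_lit 0))) (N (L (nat_lit 0x200000000000000000000)) (L (nat_lit 0))))) (N (N (N (L (nat_lit 0x200000000000000000000)) (L (nat_lit 0))) (N (L (nat_lit 0x200000000000000000000)) (L (nat_lit 0)))) (N (N (L (nat_lit 0x200000000000000000000)) (L (nat_lit 0))) (N (L (nat_lit 0x200000000000000000000)) (L (nat_lit 0))))))) (N (N (N (N (N (L (nat_lit 0x200000000000000000000)) (L (nat_lit 0x200000000000000000000))) (N (L (nat_lit 0x200000000000000000000)) (L (nat_lit 0)))) (N (N (L (nat_lit 0x200000000000000000000)) (L (nat_lit 0))) (N (L (nat_lit 0x200000000000000000000)) (L (nat_lit 0))))) (N (N (N (L (nat_lit 0x200000000000000000000)) (L (nat_lit 0x200000000000000000000))) (N (L (nat_lit 0x200000000000000000000)) (L (nat_lit 0))))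 (N (N (L (nat_lit 0x200000000000000000000)) (L (nat_lit 0))) (N (L (nat_lit 0x200000000000000000000)) (L (nat_lit 0)))))) (N (N (N (N (L (nat_lit 0x200000000000000000000)) (L (nat_lit 0x200000000000000000000))) (N (L (nat_lit 0x200000000000000000000)) (L (nat_lit 0)))) (N (N (L (nat_lit 0x200000000000000000000)) (L (nat_lit 0))) (N (L (nat_lit 0x200000000000000000000)) (L (nat_lit 0))))) (N (N (N (L (nat_lit 0x200000000000000000000)) (L (nat_lit 0))) (N (L (nat_lit 0x200000000000000000000)) (L (nat_lit 0)))) (N (N (L (nat_lit 0x200000000000000000000)) (L (nat_lit 0))) (N (L (nat_lit 0x200000000000000000000)) (L (nat_lit 0)))))))) (N (L (nat_lit 0)) (N (N (N (L (nat_lit 0)) (N (N (L (nat_lit 0x200000000000000000000)) (L (nat_lit 0))) (L (nat_lit 0)))) (L (nat_lit 0))) (L (nat_lit 0))))) (N (N (N (N (N (N (L (nat_lit 0)) (N (L (nat_lit 0x200000000000000000000)) (L (nat_lit 0)))) (N (N (L (nat_lit 0x1f93965e70dfefef48000)) (L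 (nat_lit 0))) (N (L (nat_lit 0x213265416e94c6f21e000)) (L (nat_lit 0))))) (N (N (L (nat_lit 0)) (N (L (nat_lit 0x200000000000000000000)) (L (nat_lit 0)))) (N (L (nat_lit 0)) (N (L (nat_lit 0x200000000000000000000)) (L (nat_lit 0)))))) (N (N (N (N (L (nat_lit 0x200000000000000000000)) (L (nat_lit 0))) (L (nat_lit 0))) (N (N (L (nat_lit 0x222dfc311712fdcdb8400)) (L (nat_lit 0))) (N (L (nat_lit 0x2517f0b938b1573c7b400)) (L (nat_lit 0))))) (N (L (nat_lit 0)) (N (L (nat_lit 0)) (N (L (nat_lit 0x200000000000000000000)) (L (nat_lit 0))))))) (N (N (N (L (nat_lit 0)) (N (N (L (nat_lit 0x200000000000000000000)) (L (nat_lit 0))) (N (L (nat_lit 0x200000000000000000000)) (L (nat_lit 0))))) (N (N (N (L (nat_lit 0x200000000000000000000)) (L (nat_lit 0))) (L (nat_lit 0))) (L (nat_lit 0)))) (N (N (N (N (L (nat_lit 0x200000000000000000000)) (L (nat_lit 0))) (N (L (nat_lit 0x200000000000000000000)) (L (nat_lit 0)))) (N (N (L (nat_lit 0x22ee32911b57f49224000))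 (L (nat_lit 0))) (L (nat_lit 0)))) (N (L (nat_lit 0)) (N (L (nat_lit 0)) (N (L (nat_lit 0x2a287e3c669f2a9ebc000)) (L (nat_lit 0)))))))) (L (nat_lit 0)))) (N (N (N (N (N (N (N (L (nat_lit 0)) (N (L (nat_lit 0x200000000000000000000)) (L (nat_lit 0)))) (N (N (L (nat_lit 0x200000000000000000000)) (L (nat_lit 0))) (N (L (nat_lit 0x200000000000000000000)) (L (nat_lit 0))))) (N (N (N (L (nat_lit 0x200000000000000000000)) (L (nat_lit 0))) (N (L (nat_lit 0x200000000000000000000)) (L (nat_lit 0)))) (N (N (L (nat_lit 0x21e3c19d161a93baf8800)) (L (nat_lit 0))) (N (L (nat_lit 0x1f9175c779a6a5aab5c00)) (L (nat_lit 0)))))) (N (N (N (N (L (nat_lit 0x200000000000000000000)) (L (nat_lit 0))) (N (L (nat_lit 0x200000000000000000000)) (L (nat_lit 0)))) (N (N (L (nat_lit 0x200000000000000000000)) (L (nat_lit 0))) (N (L (nat_lit 0x200000000000000000000)) (L (nat_lit 0))))) (N (N (N (L (nat_lit 0x200000000000000000000)) (L (nat_lit 0))) (L (nat_lit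 0))) (N (L (nat_lit 0)) (N (L (nat_lit 0x1e275783b20c4425ed800)) (L (nat_lit 0))))))) (N (N (N (N (N (L (nat_lit 0x200000000000000000000)) (L (nat_lit 0x200000000000000000000))) (N (L (nat_lit 0x209bd5bf67eff1088c000)) (L (nat_lit 0)))) (N (N (L (nat_lit 0x200000000000000000000)) (L (nat_lit 0))) (N (L (nat_lit 0x1e11a22d5c516a0e3e800)) (L (nat_lit 0))))) (N (N (N (L (nat_lit 0x1ffeba2daada3e7cef800)) (L (nat_lit 0))) (N (L (nat_lit 0x23aed41767f1538564800)) (L (nat_lit 0)))) (L (nat_lit 0)))) (N (N (N (N (L (nat_lit 0x20894a2bf7f319774f800)) (L (nat_lit 0x200000000000000000000))) (N (L (nat_lit 0x200000000000000000000)) (L (nat_lit 0)))) (N (N (L (nat_lit 0x207c18c6302bbafa66000)) (L (nat_lit 0))) (N (L (nat_lit 0x200000000000000000000)) (L (nat_lit 0))))) (N (N (N (L (nat_lit 0x221811c3ecbd267b2e000)) (L (nat_lit 0))) (N (L (nat_lit 0x200000000000000000000)) (L (nat_lit 0)))) (N (N (L (nat_lit 0x1f3aba9fd8099bc8bde00))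 (L (nat_lit 0))) (N (L (nat_lit 0x1be752d59845430547000)) (L (nat_lit 0)))))))) (L (nat_lit 0))) (N (N (N (L (nat_lit 0)) (N (N (L (nat_lit 0)) (N (N (L (nat_lit 0x200000000000000000000)) (L (nat_lit 0))) (L (nat_lit 0)))) (N (L (nat_lit 0)) (N (L (nat_lit 0)) (N (L (nat_lit 0x200000000000000000000)) (L (nat_lit 0))))))) (N (N (N (L (nat_lit 0)) (N (N (L (nat_lit 0x1f5a3e32b74f5e3d6d800)) (L (nat_lit 0))) (L (nat_lit 0)))) (L (nat_lit 0))) (N (N (N (L (nat_lit 0)) (N (L (nat_lit 0x200000000000000000000)) (L (nat_lit 0)))) (N (N (L (nat_lit 0x200000000000000000000)) (L (nat_lit 0))) (L (nat_lit 0)))) (L (nat_lit 0))))) (L (nat_lit 0))))) (N (N (N (N (N (N (N (N (N (L (nat_lit 0x200000000000000000000)) (L (nat_lit 0x200000000000000000000))) (N (L (nat_lit 0x200000000000000000000)) (L (nat_lit 0)))) (N (N (L (nat_lit 0x200000000000000000000)) (L (nat_lit 0))) (N (L (nat_lit 0x20c7d8ae9ed6d69e7a000)) (L (nat_lit 0))))) (N (N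 (N (L (nat_lit 0x207f2c2be2de54c0f7000)) (L (nat_lit 0x200000000000000000000))) (N (L (nat_lit 0x1dfc3434dce7fa2900000)) (L (nat_lit 0)))) (N (N (L (nat_lit 0x200000000000000000000)) (L (nat_lit 0))) (N (L (nat_lit 0x200000000000000000000)) (L (nat_lit 0)))))) (N (N (N (N (L (nat_lit 0x200000000000000000000)) (L (nat_lit 0))) (N (L (nat_lit 0x20d7205a0daa46cfdf000)) (L (nat_lit 0)))) (N (N (L (nat_lit 0x2006e833af64cf9df3e00)) (L (nat_lit 0))) (N (L (nat_lit 0x200000000000000000000)) (L (nat_lit 0))))) (N (N (N (L (nat_lit 0x1fbd802d9e999d5427800)) (L (nat_lit 0))) (L (nat_lit 0))) (N (N (L (nat_lit 0x200000000000000000000)) (L (nat_lit 0))) (N (L (nat_lit 0x1e91fb4aee6df71917000)) (L (nat_lit 0))))))) (N (N (N (N (N (L (nat_lit 0x1fc87fde7d3d597d8b800)) (L (nat_lit 0x200000000000000000000))) (N (L (nat_lit 0x200000000000000000000)) (L (nat_lit 0)))) (N (N (L (nat_lit 0x200000000000000000000)) (L (nat_lit 0))) (N (L (nat_lit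 0x22fcd3121d4ad90527800)) (L (nat_lit 0))))) (N (N (N (L (nat_lit 0x200000000000000000000)) (L (nat_lit 0))) (N (L (nat_lit 0x200000000000000000000)) (L (nat_lit 0)))) (N (N (L (nat_lit 0x200000000000000000000)) (L (nat_lit 0))) (N (L (nat_lit 0x200000000000000000000)) (L (nat_lit 0)))))) (N (N (N (N (L (nat_lit 0x200000000000000000000)) (L (nat_lit 0x2089d95a694c140e39400))) (N (L (nat_lit 0x2006b59a73ed97c4af000)) (L (nat_lit 0)))) (N (N (L (nat_lit 0x200000000000000000000)) (L (nat_lit 0))) (N (L (nat_lit 0x200000000000000000000)) (L (nat_lit 0))))) (N (N (N (L (nat_lit 0x200000000000000000000)) (L (nat_lit 0))) (N (L (nat_lit 0x2015f43cd41243968f000)) (L (nat_lit 0)))) (N (N (L (nat_lit 0x20e59cd353527781b7800)) (L (nat_lit 0))) (N (L (nat_lit 0x1f88d154de90bb32b8000)) (L (nat_lit 0)))))))) (L (nat_lit 0))) (N (N (N (N (N (L (nat_lit 0)) (N (N (L (nat_lit 0x200000000000000000000)) (L (nat_lit 0))) (N (L (nat_lit 0x200000000000000000000))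 (L (nat_lit 0))))) (L (nat_lit 0))) (N (N (L (nat_lit 0)) (N (N (L (nat_lit 0x200000000000000000000)) (L (nat_lit 0))) (L (nat_lit 0)))) (N (L (nat_lit 0)) (N (L (nat_lit 0)) (N (L (nat_lit 0x1720c788dc312c4b56800)) (L (nat_lit 0))))))) (N (N (N (L (nat_lit 0)) (N (N (L (nat_lit 0x200000000000000000000)) (L (nat_lit 0))) (L (nat_lit 0)))) (N (N (N (L (nat_lit 0x200000000000000000000)) (L (nat_lit 0))) (L (nat_lit 0))) (L (nat_lit 0)))) (N (N (N (L (nat_lit 0)) (N (L (nat_lit 0x200000000000000000000)) (L (nat_lit 0)))) (N (N (L (nat_lit 0x20182d93736d17251cc00)) (L (nat_lit 0))) (L (nat_lit 0)))) (L (nat_lit 0))))) (L (nat_lit 0)))) (N (N (N (N (N (N (N (L (nat_lit 0)) (N (L (nat_lit 0x200000000000000000000)) (L (nat_lit 0)))) (N (N (L (nat_lit 0x200000000000000000000)) (L (nat_lit 0))) (N (L (nat_lit 0x20cbc97f56f26b8689800)) (L (nat_lit 0))))) (N (N (L (nat_lit 0)) (N (L (nat_lit 0x200000000000000000000)) (L (nat_lit 0))))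 (N (N (L (nat_lit 0x200000000000000000000)) (L (nat_lit 0))) (N (L (nat_lit 0x200000000000000000000)) (L (nat_lit 0)))))) (N (N (N (N (L (nat_lit 0x200000000000000000000)) (L (nat_lit 0))) (L (nat_lit 0))) (N (N (L (nat_lit 0x1f2afbbcbf9c1e559cc00)) (L (nat_lit 0))) (N (L (nat_lit 0x200000000000000000000)) (L (nat_lit 0))))) (N (L (nat_lit 0)) (N (L (nat_lit 0)) (N (L (nat_lit 0x250a75ec0d98b8a32e400)) (L (nat_lit 0))))))) (N (N (N (L (nat_lit 0)) (N (N (L (nat_lit 0x200000000000000000000)) (L (nat_lit 0))) (N (L (nat_lit 0x2278b47aabfefc3319800)) (L (nat_lit 0))))) (N (N (N (L (nat_lit 0x200000000000000000000)) (L (nat_lit 0))) (N (L (nat_lit 0x200000000000000000000)) (L (nat_lit 0)))) (L (nat_lit 0)))) (N (N (N (N (L (nat_lit 0x1ea4294127d1536316000)) (L (nat_lit 0))) (N (L (nat_lit 0x200000000000000000000)) (L (nat_lit 0)))) (N (N (L (nat_lit 0x20bdaa620221920499000)) (L (nat_lit 0))) (N (L (nat_lit 0x200000000000000000000))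 (L (nat_lit 0))))) (N (N (N (L (nat_lit 0x200000000000000000000)) (L (nat_lit 0))) (N (L (nat_lit 0x1fa87aba90ba6790fd000)) (L (nat_lit 0)))) (N (L (nat_lit 0)) (N (L (nat_lit 0x203642f2ff4fa83c67800)) (L (nat_lit 0)))))))) (L (nat_lit 0))) (N (N (L (nat_lit 0)) (N (N (N (L (nat_lit 0)) (N (N (L (nat_lit 0x200000000000000000000)) (L (nat_lit 0))) (L (nat_lit 0)))) (L (nat_lit 0))) (N (N (L (nat_lit 0)) (N (N (L (nat_lit 0x200000000000000000000)) (L (nat_lit 0))) (L (nat_lit 0)))) (L (nat_lit 0))))) (L (nat_lit 0)))))) (N (N (N (N (N (N (N (N (N (N (L (nat_lit 0x200000000000000000000)) (L (nat_lit 0x1fca0dbc03bfb8b9af000))) (N (L (nat_lit 0x200000000000000000000)) (L (nat_lit 0)))) (N (N (L (nat_lit 0x200000000000000000000)) (L (nat_lit 0))) (N (L (nat_lit 0x200000000000000000000)) (L (nat_lit 0))))) (N (N (N (L (nat_lit 0x1feca55d07a7945f14000)) (L (nat_lit 0x1c88b7f3d5b7614e4e800))) (N (L (nat_lit 0x200000000000000000000))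 (L (nat_lit 0)))) (N (N (L (nat_lit 0x200000000000000000000)) (L (nat_lit 0))) (N (L (nat_lit 0x200000000000000000000)) (L (nat_lit 0)))))) (N (N (N (N (L (nat_lit 0x200000000000000000000)) (L (nat_lit 0x2185dfa01fde4fb9f1000))) (N (L (nat_lit 0x1fba2dbd6c706aabd1000)) (L (nat_lit 0)))) (N (N (L (nat_lit 0x200000000000000000000)) (L (nat_lit 0))) (N (L (nat_lit 0x200000000000000000000)) (L (nat_lit 0))))) (N (N (N (L (nat_lit 0x2086062eedda8c1df0000)) (L (nat_lit 0))) (N (L (nat_lit 0x20a0c8f48c62a23d0f000)) (L (nat_lit 0)))) (N (N (L (nat_lit 0x1f9a0339affd6f754c000)) (L (nat_lit 0))) (N (L (nat_lit 0x200000000000000000000)) (L (nat_lit 0))))))) (N (N (N (N (N (L (nat_lit 0x200000000000000000000)) (L (nat_lit 0x200000000000000000000))) (N (L (nat_lit 0x1feede91c70d1f37a3000)) (L (nat_lit 0)))) (N (N (L (nat_lit 0x200000000000000000000)) (L (nat_lit 0))) (N (L (nat_lit 0x200000000000000000000)) (L (nat_lit 0))))) (N (N (N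 (L (nat_lit 0x200000000000000000000)) (L (nat_lit 0x200000000000000000000))) (N (L (nat_lit 0x200000000000000000000)) (L (nat_lit 0)))) (N (N (L (nat_lit 0x1feb9994c3a1a74b2c800)) (L (nat_lit 0))) (N (L (nat_lit 0x200000000000000000000)) (L (nat_lit 0)))))) (N (N (N (N (L (nat_lit 0x200000000000000000000)) (L (nat_lit 0x1f6a04e3b5a104ba2b400))) (N (L (nat_lit 0x200000000000000000000)) (L (nat_lit 0)))) (N (N (L (nat_lit 0x200000000000000000000)) (L (nat_lit 0))) (N (L (nat_lit 0x200000000000000000000)) (L (nat_lit 0))))) (N (N (N (L (nat_lit 0x200000000000000000000)) (L (nat_lit 0))) (N (L (nat_lit 0x200000000000000000000)) (L (nat_lit 0)))) (N (N (L (nat_lit 0x206d96b1ea1dff6e6a000)) (L (nat_lit 0))) (N (L (nat_lit 0x200000000000000000000)) (L (nat_lit 0)))))))) (L (nat_lit 0))) (N (N (N (N (N (N (L (nat_lit 0)) (N (L (nat_lit 0x200000000000000000000)) (L (nat_lit 0)))) (N (N (L (nat_lit 0x200000000000000000000)) (L (nat_lit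 0))) (N (L (nat_lit 0x1e7a3dd828cae305ab800)) (L (nat_lit 0))))) (N (N (L (nat_lit 0)) (N (L (nat_lit 0x200000000000000000000)) (L (nat_lit 0)))) (L (nat_lit 0)))) (N (N (N (N (L (nat_lit 0x200000000000000000000)) (L (nat_lit 0))) (L (nat_lit 0))) (N (N (L (nat_lit 0x200000000000000000000)) (L (nat_lit 0))) (L (nat_lit 0)))) (N (L (nat_lit 0)) (N (L (nat_lit 0)) (N (L (nat_lit 0x200000000000000000000)) (L (nat_lit 0))))))) (N (N (N (L (nat_lit 0)) (N (N (L (nat_lit 0x200000000000000000000)) (L (nat_lit 0))) (N (L (nat_lit 0x200000000000000000000)) (L (nat_lit 0))))) (N (N (N (L (nat_lit 0x200000000000000000000)) (L (nat_lit 0))) (L (nat_lit 0))) (L (nat_lit 0)))) (N (N (N (L (nat_lit 0)) (N (L (nat_lit 0x20ac6d76aef1248025c80)) (L (nat_lit 0)))) (N (N (L (nat_lit 0x200000000000000000000)) (L (nat_lit 0))) (L (nat_lit 0)))) (L (nat_lit 0))))) (L (nat_lit 0)))) (N (N (N (N (N (N (N (L (nat_lit 0)) (N (L (nat_lit 0x2057707fd86e11f141000))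 (L (nat_lit 0)))) (N (N (L (nat_lit 0x1fb2ad016f18170291400)) (L (nat_lit 0))) (N (L (nat_lit 0x225ca5ab01f40757a4c00)) (L (nat_lit 0))))) (N (N (L (nat_lit 0)) (N (L (nat_lit 0x23888e81893b0bb48c800)) (L (nat_lit 0)))) (N (N (L (nat_lit 0x200000000000000000000)) (L (nat_lit 0))) (N (L (nat_lit 0x209bf82910e4ce517bc00)) (L (nat_lit 0)))))) (N (N (N (N (L (nat_lit 0x200000000000000000000)) (L (nat_lit 0))) (N (L (nat_lit 0x200000000000000000000)) (L (nat_lit 0)))) (N (N (L (nat_lit 0x200000000000000000000)) (L (nat_lit 0))) (N (L (nat_lit 0x231f0ad95a2d68cbae800)) (L (nat_lit 0))))) (N (L (nat_lit 0)) (N (L (nat_lit 0)) (N (L (nat_lit 0x2014b16f6e1395989a800)) (L (nat_lit 0))))))) (N (N (N (N (N (L (nat_lit 0)) (L (nat_lit 0x200000000000000000000))) (N (L (nat_lit 0x200000000000000000000)) (L (nat_lit 0)))) (N (N (L (nat_lit 0x200000000000000000000)) (L (nat_lit 0))) (N (L (nat_lit 0x200000000000000000000)) (L (nat_lit 0)))))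 (N (N (N (L (nat_lit 0x1fdca355da409aa7a0000)) (L (nat_lit 0))) (N (L (nat_lit 0x200000000000000000000)) (L (nat_lit 0)))) (L (nat_lit 0)))) (N (N (N (N (L (nat_lit 0x200000000000000000000)) (L (nat_lit 0))) (N (L (nat_lit 0x204ce2a8460a45ed8d800)) (L (nat_lit 0)))) (N (N (L (nat_lit 0x200000000000000000000)) (L (nat_lit 0))) (N (L (nat_lit 0x200000000000000000000)) (L (nat_lit 0))))) (N (N (N (L (nat_lit 0x200000000000000000000)) (L (nat_lit 0))) (N (L (nat_lit 0x21941d80e82b01146ac00)) (L (nat_lit 0)))) (N (N (L (nat_lit 0x200000000000000000000)) (L (nat_lit 0))) (N (L (nat_lit 0x200000000000000000000)) (L (nat_lit 0)))))))) (L (nat_lit 0))) (N (N (L (nat_lit 0)) (N (N (N (L (nat_lit 0)) (N (N (L (nat_lit 0x200000000000000000000)) (L (nat_lit 0))) (L (nat_lit 0)))) (L (nat_lit 0))) (N (N (N (L (nat_lit 0)) (N (L (nat_lit 0x200000000000000000000)) (L (nat_lit 0)))) (N (N (L (nat_lit 0x200000000000000000000)) (L (nat_lit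 0))) (L (nat_lit 0)))) (L (nat_lit 0))))) (L (nat_lit 0))))) (N (N (N (N (N (N (N (N (L (nat_lit 0)) (N (L (nat_lit 0x200000000000000000000)) (L (nat_lit 0)))) (N (N (L (nat_lit 0x200000000000000000000)) (L (nat_lit 0))) (N (L (nat_lit 0x200000000000000000000)) (L (nat_lit 0))))) (N (N (N (L (nat_lit 0x200000000000000000000)) (L (nat_lit 0x2216f49f45b96fbfca000))) (N (L (nat_lit 0x2120d496c56e327e52000)) (L (nat_lit 0)))) (N (N (L (nat_lit 0x200000000000000000000)) (L (nat_lit 0))) (N (L (nat_lit 0x1ecd7ea7ddb5a250d9800)) (L (nat_lit 0)))))) (N (N (N (N (L (nat_lit 0x1ff96888f24c48d86a000)) (L (nat_lit 0))) (N (L (nat_lit 0x228bdb87e36398cfc8000)) (L (nat_lit 0)))) (N (N (L (nat_lit 0x20119599795b718d49c00)) (L (nat_lit 0))) (N (L (nat_lit 0x200000000000000000000)) (L (nat_lit 0))))) (N (N (N (L (nat_lit 0x200000000000000000000)) (L (nat_lit 0))) (L (nat_lit 0))) (N (L (nat_lit 0)) (N (L (nat_lit 0x2100de786d59b0fcab000))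 (L (nat_lit 0))))))) (N (N (N (N (N (L (nat_lit 0x200000000000000000000)) (L (nat_lit 0x200738f583df7ad71c800))) (N (L (nat_lit 0x20353f2120a0615dd3800)) (L (nat_lit 0)))) (N (N (L (nat_lit 0x20811f8668e06159f2000)) (L (nat_lit 0))) (N (L (nat_lit 0x200000000000000000000)) (L (nat_lit 0))))) (N (N (N (L (nat_lit 0x1fe1930c2699ed0199a00)) (L (nat_lit 0))) (N (L (nat_lit 0x200000000000000000000)) (L (nat_lit 0)))) (N (L (nat_lit 0)) (N (L (nat_lit 0x200000000000000000000)) (L (nat_lit 0)))))) (N (N (N (N (L (nat_lit 0x200000000000000000000)) (L (nat_lit 0x200000000000000000000))) (N (L (nat_lit 0x200000000000000000000)) (L (nat_lit 0)))) (N (N (L (nat_lit 0x200000000000000000000)) (L (nat_lit 0))) (N (L (nat_lit 0x20b4bfc95a3e1aff00000)) (L (nat_lit 0))))) (N (N (N (L (nat_lit 0x200000000000000000000)) (L (nat_lit 0))) (N (L (nat_lit 0x1eab77066f77e00c48800)) (L (nat_lit 0)))) (N (N (L (nat_lit 0x1f72f33d582d9f47bb800)) (L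 (nat_lit 0))) (N (L (nat_lit 0x200000000000000000000)) (L (nat_lit 0)))))))) (L (nat_lit 0))) (N (N (N (N (N (L (nat_lit 0)) (N (N (L (nat_lit 0x200000000000000000000)) (L (nat_lit 0))) (L (nat_lit 0)))) (L (nat_lit 0))) (N (N (L (nat_lit 0)) (N (N (L (nat_lit 0x200000000000000000000)) (L (nat_lit 0))) (L (nat_lit 0)))) (N (L (nat_lit 0)) (N (L (nat_lit 0)) (N (L (nat_lit 0x200000000000000000000)) (L (nat_lit 0))))))) (N (N (N (L (nat_lit 0)) (N (N (L (nat_lit 0x200000000000000000000)) (L (nat_lit 0))) (L (nat_lit 0)))) (L (nat_lit 0))) (N (N (N (L (nat_lit 0)) (N (L (nat_lit 0x200000000000000000000)) (L (nat_lit 0)))) (N (N (L (nat_lit 0x1f659cd6f75477dddc400)) (L (nat_lit 0))) (L (nat_lit 0)))) (L (nat_lit 0))))) (L (nat_lit 0)))) (N (N (N (N (N (N (N (L (nat_lit 0)) (N (L (nat_lit 0x200000000000000000000)) (L (nat_lit 0)))) (N (N (L (nat_lit 0x200c4f0fe4006848ca800)) (L (nat_lit 0))) (N (L (nat_lit 0x200000000000000000000))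 (L (nat_lit 0))))) (N (N (L (nat_lit 0)) (N (L (nat_lit 0x200000000000000000000)) (L (nat_lit 0)))) (N (L (nat_lit 0)) (N (L (nat_lit 0x200000000000000000000)) (L (nat_lit 0)))))) (N (N (N (N (L (nat_lit 0x200000000000000000000)) (L (nat_lit 0))) (L (nat_lit 0))) (N (N (L (nat_lit 0x1e6f16a6ce63a08c9f400)) (L (nat_lit 0))) (N (L (nat_lit 0x1f0ccdcd99d7eca128400)) (L (nat_lit 0))))) (N (L (nat_lit 0)) (N (L (nat_lit 0)) (N (L (nat_lit 0x200000000000000000000)) (L (nat_lit 0))))))) (N (N (N (L (nat_lit 0)) (N (N (L (nat_lit 0x1fd0fbadedc2ccb4db000)) (L (nat_lit 0))) (N (L (nat_lit 0x22b9e539d2f22628ae800)) (L (nat_lit 0))))) (N (N (N (L (nat_lit 0x200000000000000000000)) (L (nat_lit 0))) (N (L (nat_lit 0x200000000000000000000)) (L (nat_lit 0)))) (L (nat_lit 0)))) (N (N (N (N (L (nat_lit 0x200000000000000000000)) (L (nat_lit 0))) (N (L (nat_lit 0x21c45d65f9e38d6bf6400)) (L (nat_lit 0)))) (N (N (L (nat_lit 0x1d523563e1a4e5c054000))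 (L (nat_lit 0))) (N (L (nat_lit 0x200000000000000000000)) (L (nat_lit 0))))) (N (L (nat_lit 0)) (N (L (nat_lit 0)) (N (L (nat_lit 0x21a019f5c093b502b3800)) (L (nat_lit 0)))))))) (L (nat_lit 0))) (N (N (L (nat_lit 0)) (N (N (N (L (nat_lit 0)) (N (N (L (nat_lit 0x200000000000000000000)) (L (nat_lit 0))) (L (nat_lit 0)))) (L (nat_lit 0))) (N (N (L (nat_lit 0)) (N (N (L (nat_lit 0x1eee5efe90db287f03800)) (L (nat_lit 0))) (L (nat_lit 0)))) (L (nat_lit 0))))) (L (nat_lit 0))))))) (N (N (N (N (N (N (N (N (N (N (N (L (nat_lit 0x200000000000000000000)) (L (nat_lit 0x200000000000000000000))) (N (L (nat_lit 0x200000000000000000000)) (L (nat_lit 0)))) (N (N (L (nat_lit 0x200000000000000000000)) (L (nat_lit 0))) (N (L (nat_lit 0x200000000000000000000)) (L (nat_lit 0))))) (N (N (N (L (nat_lit 0x200000000000000000000)) (L (nat_lit 0x200000000000000000000))) (N (L (nat_lit 0x200000000000000000000)) (L (nat_lit 0)))) (N (N (L (nat_lit 0x200000000000000000000))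 (L (nat_lit 0))) (N (L (nat_lit 0x200000000000000000000)) (L (nat_lit 0)))))) (N (N (N (N (L (nat_lit 0x200000000000000000000)) (L (nat_lit 0x1b6213535f35079b2a800))) (N (L (nat_lit 0x200000000000000000000)) (L (nat_lit 0)))) (N (N (L (nat_lit 0x200000000000000000000)) (L (nat_lit 0))) (N (L (nat_lit 0x200000000000000000000)) (L (nat_lit 0))))) (N (N (N (L (nat_lit 0x200000000000000000000)) (L (nat_lit 0))) (N (L (nat_lit 0x200000000000000000000)) (L (nat_lit 0)))) (N (N (L (nat_lit 0x200000000000000000000)) (L (nat_lit 0))) (N (L (nat_lit 0x200000000000000000000)) (L (nat_lit 0))))))) (N (N (N (N (N (L (nat_lit 0x200000000000000000000)) (L (nat_lit 0x200000000000000000000))) (N (L (nat_lit 0x200000000000000000000)) (L (nat_lit 0)))) (N (N (L (nat_lit 0x200000000000000000000)) (L (nat_lit 0))) (N (L (nat_lit 0x200000000000000000000)) (L (nat_lit 0))))) (N (N (N (L (nat_lit 0x200000000000000000000)) (L (nat_lit 0x2155418123afe29647800)))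 (N (L (nat_lit 0x200000000000000000000)) (L (nat_lit 0)))) (N (N (L (nat_lit 0x200000000000000000000)) (L (nat_lit 0))) (N (L (nat_lit 0x200000000000000000000)) (L (nat_lit 0)))))) (N (N (N (N (L (nat_lit 0x200000000000000000000)) (L (nat_lit 0x200000000000000000000))) (N (L (nat_lit 0x200000000000000000000)) (L (nat_lit 0)))) (N (N (L (nat_lit 0x200000000000000000000)) (L (nat_lit 0))) (N (L (nat_lit 0x200000000000000000000)) (L (nat_lit 0))))) (N (N (N (L (nat_lit 0x200000000000000000000)) (L (nat_lit 0))) (N (L (nat_lit 0x200000000000000000000)) (L (nat_lit 0)))) (N (N (L (nat_lit 0x200000000000000000000)) (L (nat_lit 0))) (N (L (nat_lit 0x200000000000000000000)) (L (nat_lit 0)))))))) (N (L (nat_lit 0)) (N (N (N (L (nat_lit 0)) (N (N (L (nat_lit 0x200000000000000000000)) (L (nat_lit 0))) (L (nat_lit 0)))) (L (nat_lit 0))) (L (nat_lit 0))))) (N (N (N (N (N (N (L (nat_lit 0)) (N (L (nat_lit 0x200000000000000000000)) (L (nat_lit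 0)))) (N (N (L (nat_lit 0x200000000000000000000)) (L (nat_lit 0))) (N (L (nat_lit 0x1d64e367a87e201b38400)) (L (nat_lit 0))))) (N (N (L (nat_lit 0)) (N (L (nat_lit 0x200000000000000000000)) (L (nat_lit 0)))) (N (L (nat_lit 0)) (N (L (nat_lit 0x200000000000000000000)) (L (nat_lit 0)))))) (N (N (N (N (L (nat_lit 0x200000000000000000000)) (L (nat_lit 0))) (L (nat_lit 0))) (N (N (L (nat_lit 0x20aa6035377e4d8c82800)) (L (nat_lit 0))) (N (L (nat_lit 0x200000000000000000000)) (L (nat_lit 0))))) (N (L (nat_lit 0)) (N (L (nat_lit 0)) (N (L (nat_lit 0x1e35930af2a3058bcb000)) (L (nat_lit 0))))))) (N (N (N (L (nat_lit 0)) (N (N (L (nat_lit 0x200000000000000000000)) (L (nat_lit 0))) (N (L (nat_lit 0x200000000000000000000)) (L (nat_lit 0))))) (N (N (N (L (nat_lit 0x200000000000000000000)) (L (nat_lit 0))) (L (nat_lit 0))) (L (nat_lit 0)))) (N (N (N (N (L (nat_lit 0x200000000000000000000)) (L (nat_lit 0))) (N (L (nat_lit 0x200000000000000000000))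 (L (nat_lit 0)))) (N (N (L (nat_lit 0x208dc7e52d7e0dd095000)) (L (nat_lit 0))) (L (nat_lit 0)))) (L (nat_lit 0))))) (L (nat_lit 0)))) (N (N (N (N (N (N (N (L (nat_lit 0)) (N (L (nat_lit 0x200000000000000000000)) (L (nat_lit 0)))) (N (N (L (nat_lit 0x200000000000000000000)) (L (nat_lit 0))) (N (L (nat_lit 0x1ebc404cdf8a32c1d9800)) (L (nat_lit 0))))) (N (N (N (L (nat_lit 0x2020e089a1b4d89885a00)) (L (nat_lit 0))) (N (L (nat_lit 0x23fad2f1d4d785ae27800)) (L (nat_lit 0)))) (N (N (L (nat_lit 0x217a5df4acb1b0cc0b000)) (L (nat_lit 0))) (N (L (nat_lit 0x1fc82b5c79073f4e9e400)) (L (nat_lit 0)))))) (N (N (N (N (L (nat_lit 0x200000000000000000000)) (L (nat_lit 0))) (N (L (nat_lit 0x200000000000000000000)) (L (nat_lit 0)))) (N (N (L (nat_lit 0x200000000000000000000)) (L (nat_lit 0))) (N (L (nat_lit 0x200000000000000000000)) (L (nat_lit 0))))) (N (N (N (L (nat_lit 0x20723fccf0c41b30a5800)) (L (nat_lit 0))) (L (nat_lit 0))) (N (L (nat_lit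 0)) (N (L (nat_lit 0x200000000000000000000)) (L (nat_lit 0))))))) (N (N (N (N (N (L (nat_lit 0x200000000000000000000)) (L (nat_lit 0x200000000000000000000))) (N (L (nat_lit 0x200000000000000000000)) (L (nat_lit 0)))) (N (N (L (nat_lit 0x207f7856d8e8499f68800)) (L (nat_lit 0))) (N (L (nat_lit 0x200000000000000000000)) (L (nat_lit 0))))) (N (N (N (L (nat_lit 0x20193ed41ae4fd6bfd400)) (L (nat_lit 0))) (N (L (nat_lit 0x1f423bca072aac8a01400)) (L (nat_lit 0)))) (L (nat_lit 0)))) (N (N (N (N (L (nat_lit 0x200000000000000000000)) (L (nat_lit 0))) (N (L (nat_lit 0x1f9acb37ae2fb1d738000)) (L (nat_lit 0)))) (N (N (L (nat_lit 0x1f0ee725550bfe31e3800)) (L (nat_lit 0))) (N (L (nat_lit 0x200000000000000000000)) (L (nat_lit 0))))) (N (N (N (L (nat_lit 0x20617251af8fe160b3000)) (L (nat_lit 0))) (N (L (nat_lit 0x200000000000000000000)) (L (nat_lit 0)))) (N (N (L (nat_lit 0x200000000000000000000)) (L (nat_lit 0))) (N (L (nat_lit 0x200000000000000000000))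 (L (nat_lit 0)))))))) (L (nat_lit 0))) (N (N (N (L (nat_lit 0)) (N (N (L (nat_lit 0)) (N (N (L (nat_lit 0x200000000000000000000)) (L (nat_lit 0))) (L (nat_lit 0)))) (L (nat_lit 0)))) (N (N (N (L (nat_lit 0)) (N (N (L (nat_lit 0x200000000000000000000)) (L (nat_lit 0))) (L (nat_lit 0)))) (L (nat_lit 0))) (N (N (N (L (nat_lit 0)) (N (L (nat_lit 0x200000000000000000000)) (L (nat_lit 0)))) (N (N (L (nat_lit 0x200000000000000000000)) (L (nat_lit 0))) (L (nat_lit 0)))) (L (nat_lit 0))))) (L (nat_lit 0))))) (N (N (N (N (N (N (N (N (N (L (nat_lit 0)) (L (nat_lit 0x200000000000000000000))) (N (L (nat_lit 0x201d90df19ea28f89f800)) (L (nat_lit 0)))) (N (N (L (nat_lit 0x1fab202339312d6083000)) (L (nat_lit 0))) (N (L (nat_lit 0x200000000000000000000)) (L (nat_lit 0))))) (N (N (N (L (nat_lit 0x1fe1c869f7b711ea75800)) (L (nat_lit 0x22709b3d2eb82cce34800))) (N (L (nat_lit 0x1f7c26826242ec05cc000)) (L (nat_lit 0)))) (N (N (L (nat_lit 0x200000000000000000000))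 (L (nat_lit 0))) (N (L (nat_lit 0x200000000000000000000)) (L (nat_lit 0)))))) (N (N (N (N (L (nat_lit 0x2012f68944d34fb02f800)) (L (nat_lit 0))) (N (L (nat_lit 0x2049b520ad0b273781c00)) (L (nat_lit 0)))) (N (N (L (nat_lit 0x2090f6bb74092c7c78000)) (L (nat_lit 0))) (N (L (nat_lit 0x200000000000000000000)) (L (nat_lit 0))))) (N (N (N (L (nat_lit 0x1f70e842ed061a0ee2c00)) (L (nat_lit 0))) (L (nat_lit 0))) (N (N (L (nat_lit 0x200000000000000000000)) (L (nat_lit 0))) (N (L (nat_lit 0x200000000000000000000)) (L (nat_lit 0))))))) (N (N (N (N (N (L (nat_lit 0x200000000000000000000)) (L (nat_lit 0x1e5d8c2bec7b660e2e000))) (N (L (nat_lit 0x200000000000000000000)) (L (nat_lit 0)))) (N (N (L (nat_lit 0x1fc5de87a401154941800)) (L (nat_lit 0))) (N (L (nat_lit 0x1e85c3b048ad4fcdf4000)) (L (nat_lit 0))))) (N (N (N (L (nat_lit 0x1fd67cba8a82f873d3000)) (L (nat_lit 0))) (N (L (nat_lit 0x1f2869b01da5dfa102000)) (L (nat_lit 0)))) (N (N (L (nat_lit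 0x200000000000000000000)) (L (nat_lit 0))) (N (L (nat_lit 0x1fbbc545f3d74d390d800)) (L (nat_lit 0)))))) (N (N (N (N (L (nat_lit 0x200000000000000000000)) (L (nat_lit 0x200000000000000000000))) (N (L (nat_lit 0x20b7abbacfbca79b03000)) (L (nat_lit 0)))) (N (N (L (nat_lit 0x200000000000000000000)) (L (nat_lit 0))) (N (L (nat_lit 0x200000000000000000000)) (L (nat_lit 0))))) (N (N (N (L (nat_lit 0x200000000000000000000)) (L (nat_lit 0))) (N (L (nat_lit 0x200000000000000000000)) (L (nat_lit 0)))) (N (N (L (nat_lit 0x207b16e644cf5cf519800)) (L (nat_lit 0))) (N (L (nat_lit 0x214b1d7383ec012235000)) (L (nat_lit 0)))))))) (L (nat_lit 0))) (N (N (N (N (N (L (nat_lit 0)) (N (N (L (nat_lit 0x200000000000000000000)) (L (nat_lit 0))) (N (L (nat_lit 0x200000000000000000000)) (L (nat_lit 0))))) (L (nat_lit 0))) (N (N (L (nat_lit 0)) (N (N (L (nat_lit 0x200000000000000000000)) (L (nat_lit 0))) (L (nat_lit 0)))) (N (L (nat_lit 0)) (N (L (nat_lit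 0)) (N (L (nat_lit 0x200000000000000000000)) (L (nat_lit 0))))))) (N (N (N (L (nat_lit 0)) (N (N (L (nat_lit 0x1fe24416a1b3446aca400)) (L (nat_lit 0))) (L (nat_lit 0)))) (L (nat_lit 0))) (N (N (N (L (nat_lit 0)) (N (L (nat_lit 0x1dc7b9ff5d3857a06a200)) (L (nat_lit 0)))) (N (N (L (nat_lit 0x1ef6b4aed20298d906000)) (L (nat_lit 0))) (L (nat_lit 0)))) (L (nat_lit 0))))) (L (nat_lit 0)))) (N (N (N (N (N (N (N (L (nat_lit 0)) (N (L (nat_lit 0x200000000000000000000)) (L (nat_lit 0)))) (N (N (L (nat_lit 0x1f8ce7cc12055063e5000)) (L (nat_lit 0))) (N (L (nat_lit 0x1d1e50da00bde15e07000)) (L (nat_lit 0))))) (N (N (L (nat_lit 0)) (N (L (nat_lit 0x200000000000000000000)) (L (nat_lit 0)))) (N (L (nat_lit 0)) (N (L (nat_lit 0x200000000000000000000)) (L (nat_lit 0)))))) (N (N (N (N (L (nat_lit 0x200000000000000000000)) (L (nat_lit 0))) (L (nat_lit 0))) (N (N (L (nat_lit 0x200000000000000000000)) (L (nat_lit 0))) (N (L (nat_lit 0x20d04272f6b1f6a88c000))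 (L (nat_lit 0))))) (N (L (nat_lit 0)) (N (L (nat_lit 0)) (N (L (nat_lit 0x1f7d50e6d83da9ca5bc00)) (L (nat_lit 0))))))) (N (N (N (L (nat_lit 0)) (N (N (L (nat_lit 0x200000000000000000000)) (L (nat_lit 0))) (N (L (nat_lit 0x21be1b13dea665da4c000)) (L (nat_lit 0))))) (N (N (N (L (nat_lit 0x1fe250424ce3c885aa800)) (L (nat_lit 0))) (N (L (nat_lit 0x200000000000000000000)) (L (nat_lit 0)))) (L (nat_lit 0)))) (N (N (N (N (L (nat_lit 0x200000000000000000000)) (L (nat_lit 0))) (N (L (nat_lit 0x200000000000000000000)) (L (nat_lit 0)))) (N (N (L (nat_lit 0x20b41058491c1d10fc800)) (L (nat_lit 0))) (N (L (nat_lit 0x200000000000000000000)) (L (nat_lit 0))))) (N (N (L (nat_lit 0)) (N (L (nat_lit 0x200000000000000000000)) (L (nat_lit 0)))) (N (L (nat_lit 0)) (N (L (nat_lit 0x200000000000000000000)) (L (nat_lit 0)))))))) (L (nat_lit 0))) (N (N (L (nat_lit 0)) (N (N (N (L (nat_lit 0)) (N (N (L (nat_lit 0x200000000000000000000)) (L (nat_lit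 0))) (L (nat_lit 0)))) (L (nat_lit 0))) (N (N (L (nat_lit 0)) (N (N (L (nat_lit 0x200000000000000000000)) (L (nat_lit 0))) (L (nat_lit 0)))) (L (nat_lit 0))))) (L (nat_lit 0)))))) (N (N (N (N (N (N (N (N (N (N (L (nat_lit 0x20051d8ac93cfc5ce4000)) (L (nat_lit 0x1eb0a352dff3570fcd800))) (N (L (nat_lit 0x204a5e2ce2de5dab51000)) (L (nat_lit 0)))) (N (N (L (nat_lit 0x200000000000000000000)) (L (nat_lit 0))) (N (L (nat_lit 0x200000000000000000000)) (L (nat_lit 0))))) (N (N (N (L (nat_lit 0x201a8a5f415adc6a37000)) (L (nat_lit 0x200000000000000000000))) (N (L (nat_lit 0x20f10c983e3763b5da000)) (L (nat_lit 0)))) (N (N (L (nat_lit 0x213b6f09c72488e1b8000)) (L (nat_lit 0))) (N (L (nat_lit 0x200000000000000000000)) (L (nat_lit 0)))))) (N (N (N (N (L (nat_lit 0x200000000000000000000)) (L (nat_lit 0x215fb39af92ceb0e22000))) (N (L (nat_lit 0x201bb87bfdd90d2678000)) (L (nat_lit 0)))) (N (N (L (nat_lit 0x200000000000000000000)) (L (nat_lit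 0))) (N (L (nat_lit 0x200000000000000000000)) (L (nat_lit 0))))) (N (N (N (L (nat_lit 0x200000000000000000000)) (L (nat_lit 0))) (L (nat_lit 0))) (N (N (L (nat_lit 0x1b73c4267e5b5aa0ba800)) (L (nat_lit 0))) (N (L (nat_lit 0x200000000000000000000)) (L (nat_lit 0))))))) (N (N (N (N (N (L (nat_lit 0x200000000000000000000)) (L (nat_lit 0x200000000000000000000))) (N (L (nat_lit 0x200000000000000000000)) (L (nat_lit 0)))) (N (N (L (nat_lit 0x200000000000000000000)) (L (nat_lit 0))) (N (L (nat_lit 0x1f433fe8227b7e46aec00)) (L (nat_lit 0))))) (N (N (N (L (nat_lit 0x200000000000000000000)) (L (nat_lit 0))) (N (L (nat_lit 0x20ae3df49c3375a507000)) (L (nat_lit 0)))) (N (N (L (nat_lit 0x1e13dc6145c22ddec9000)) (L (nat_lit 0))) (N (L (nat_lit 0x20de71ac4a6c08c59c000)) (L (nat_lit 0)))))) (N (N (N (N (L (nat_lit 0x1ffd6280ab250fb35f000)) (L (nat_lit 0x25b45a21855adcc11f000))) (N (L (nat_lit 0x200000000000000000000)) (L (nat_lit 0)))) (N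 (N (L (nat_lit 0x200000000000000000000)) (L (nat_lit 0))) (N (L (nat_lit 0x200000000000000000000)) (L (nat_lit 0))))) (N (N (N (L (nat_lit 0x2143743b324a308c0f000)) (L (nat_lit 0))) (N (L (nat_lit 0x200000000000000000000)) (L (nat_lit 0)))) (N (N (L (nat_lit 0x200000000000000000000)) (L (nat_lit 0))) (N (L (nat_lit 0x20b716ef06e2226496000)) (L (nat_lit 0)))))))) (L (nat_lit 0))) (N (N (N (N (N (L (nat_lit 0)) (N (N (L (nat_lit 0x200000000000000000000)) (L (nat_lit 0))) (N (L (nat_lit 0x200000000000000000000)) (L (nat_lit 0))))) (L (nat_lit 0))) (N (N (L (nat_lit 0)) (N (N (L (nat_lit 0x200000000000000000000)) (L (nat_lit 0))) (L (nat_lit 0)))) (N (L (nat_lit 0)) (N (L (nat_lit 0)) (N (L (nat_lit 0x21df9cfa6644eff66e000)) (L (nat_lit 0))))))) (N (N (N (L (nat_lit 0)) (N (N (L (nat_lit 0x1f31a84d9aced75595800)) (L (nat_lit 0))) (L (nat_lit 0)))) (N (N (N (L (nat_lit 0x200000000000000000000)) (L (nat_lit 0))) (L (nat_lit 0)))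 (L (nat_lit 0)))) (N (N (N (L (nat_lit 0)) (N (L (nat_lit 0x200000000000000000000)) (L (nat_lit 0)))) (N (N (L (nat_lit 0x2360dae98be81398be800)) (L (nat_lit 0))) (L (nat_lit 0)))) (L (nat_lit 0))))) (L (nat_lit 0)))) (N (N (N (N (N (N (N (L (nat_lit 0)) (N (L (nat_lit 0x22623e153e275075b6c00)) (L (nat_lit 0)))) (N (N (L (nat_lit 0x1ebee8b1e262cdcbba000)) (L (nat_lit 0))) (N (L (nat_lit 0x200000000000000000000)) (L (nat_lit 0))))) (N (N (L (nat_lit 0)) (N (L (nat_lit 0x20910713f2c8ba1a16800)) (L (nat_lit 0)))) (N (N (L (nat_lit 0x200000000000000000000)) (L (nat_lit 0))) (N (L (nat_lit 0x1c58d91bd2073cb5f9000)) (L (nat_lit 0)))))) (N (N (N (N (L (nat_lit 0x200000000000000000000)) (L (nat_lit 0))) (L (nat_lit 0))) (N (N (L (nat_lit 0x200000000000000000000)) (L (nat_lit 0))) (N (L (nat_lit 0x23f870a35199bf0bdf000)) (L (nat_lit 0))))) (N (L (nat_lit 0)) (N (L (nat_lit 0)) (N (L (nat_lit 0x200000000000000000000)) (L (nat_lit 0)))))))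 (N (N (N (N (N (L (nat_lit 0)) (L (nat_lit 0x200000000000000000000))) (L (nat_lit 0))) (N (N (L (nat_lit 0x1fdbd52cb4fbec38b6000)) (L (nat_lit 0))) (N (L (nat_lit 0x1faf14be3657a5b994c00)) (L (nat_lit 0))))) (N (N (N (L (nat_lit 0x203356d7ff16e2b4f7800)) (L (nat_lit 0))) (N (L (nat_lit 0x200000000000000000000)) (L (nat_lit 0)))) (L (nat_lit 0)))) (N (N (N (N (L (nat_lit 0x200000000000000000000)) (L (nat_lit 0))) (N (L (nat_lit 0x200000000000000000000)) (L (nat_lit 0)))) (N (N (L (nat_lit 0x2057fe890747fdc8e4800)) (L (nat_lit 0))) (N (L (nat_lit 0x200000000000000000000)) (L (nat_lit 0))))) (N (N (N (L (nat_lit 0x200000000000000000000)) (L (nat_lit 0))) (N (L (nat_lit 0x21995fbb7f4c599cfc400)) (L (nat_lit 0)))) (N (N (L (nat_lit 0x200000000000000000000)) (L (nat_lit 0))) (N (L (nat_lit 0x1f182b8c9216a83a7f800)) (L (nat_lit 0)))))))) (L (nat_lit 0))) (N (N (L (nat_lit 0)) (N (N (N (L (nat_lit 0)) (N (N (L (nat_lit 0x200000000000000000000))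 (L (nat_lit 0))) (L (nat_lit 0)))) (L (nat_lit 0))) (N (N (N (L (nat_lit 0)) (N (L (nat_lit 0x200000000000000000000)) (L (nat_lit 0)))) (N (N (L (nat_lit 0x200000000000000000000)) (L (nat_lit 0))) (L (nat_lit 0)))) (L (nat_lit 0))))) (L (nat_lit 0))))) (N (N (N (N (N (N (N (N (L (nat_lit 0)) (N (L (nat_lit 0x200000000000000000000)) (L (nat_lit 0)))) (N (N (L (nat_lit 0x1f44660b35e3a211b2800)) (L (nat_lit 0))) (N (L (nat_lit 0x1c84212bfb54e75bdb000)) (L (nat_lit 0))))) (N (N (N (L (nat_lit 0x200000000000000000000)) (L (nat_lit 0x200000000000000000000))) (N (L (nat_lit 0x1f39ea8296935f9a09000)) (L (nat_lit 0)))) (N (N (L (nat_lit 0x22d54b9677e3722d2d000)) (L (nat_lit 0))) (N (L (nat_lit 0x1ef413c1ab0484dba3c00)) (L (nat_lit 0)))))) (N (N (N (N (L (nat_lit 0x202ad1f06a70f773b5800)) (L (nat_lit 0))) (N (L (nat_lit 0x1fb816aa335474f51d000)) (L (nat_lit 0)))) (N (N (L (nat_lit 0x1ff40ed269c49afd2f800)) (L (nat_lit 0))) (N (L (nat_lit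 0x1eead855c177bd9729400)) (L (nat_lit 0))))) (N (N (N (L (nat_lit 0x200000000000000000000)) (L (nat_lit 0))) (L (nat_lit 0))) (N (L (nat_lit 0)) (N (L (nat_lit 0x200000000000000000000)) (L (nat_lit 0))))))) (N (N (N (N (N (L (nat_lit 0x200000000000000000000)) (L (nat_lit 0x200000000000000000000))) (N (L (nat_lit 0x200c0daaa79a1b4c47000)) (L (nat_lit 0)))) (N (N (L (nat_lit 0x1ff53081669afef392000)) (L (nat_lit 0))) (N (L (nat_lit 0x200000000000000000000)) (L (nat_lit 0))))) (N (N (N (L (nat_lit 0x204a50cc3ed871b42e000)) (L (nat_lit 0))) (N (L (nat_lit 0x200000000000000000000)) (L (nat_lit 0)))) (L (nat_lit 0)))) (N (N (N (N (L (nat_lit 0x2039c0b41e98d1c080000)) (L (nat_lit 0x200000000000000000000))) (N (L (nat_lit 0x200000000000000000000)) (L (nat_lit 0)))) (N (N (L (nat_lit 0x204cb171494785ec67800)) (L (nat_lit 0))) (N (L (nat_lit 0x200000000000000000000)) (L (nat_lit 0))))) (N (N (N (L (nat_lit 0x213dad6af3ad61dd75800))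 (L (nat_lit 0))) (N (L (nat_lit 0x1f211ff82c3764693c000)) (L (nat_lit 0)))) (N (N (L (nat_lit 0x200000000000000000000)) (L (nat_lit 0))) (N (L (nat_lit 0x23b9aebd89646a3b70000)) (L (nat_lit 0)))))))) (L (nat_lit 0))) (N (N (N (L (nat_lit 0)) (N (N (L (nat_lit 0)) (N (N (L (nat_lit 0x200000000000000000000)) (L (nat_lit 0))) (L (nat_lit 0)))) (N (L (nat_lit 0)) (N (L (nat_lit 0)) (N (L (nat_lit 0x231d46ad228881b339000)) (L (nat_lit 0))))))) (N (N (N (L (nat_lit 0)) (N (N (L (nat_lit 0x1e5360044a96430b39000)) (L (nat_lit 0))) (L (nat_lit 0)))) (L (nat_lit 0))) (N (N (N (L (nat_lit 0)) (N (L (nat_lit 0x200000000000000000000)) (L (nat_lit 0)))) (N (N (L (nat_lit 0x200000000000000000000)) (L (nat_lit 0))) (L (nat_lit 0)))) (L (nat_lit 0))))) (L (nat_lit 0)))) (N (N (N (N (N (N (N (L (nat_lit 0)) (N (L (nat_lit 0x200000000000000000000)) (L (nat_lit 0)))) (N (N (L (nat_lit 0x215537ee820e10f9e8000)) (L (nat_lit 0))) (N (L (nat_lit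 0x200000000000000000000)) (L (nat_lit 0))))) (N (N (L (nat_lit 0)) (N (L (nat_lit 0x200000000000000000000)) (L (nat_lit 0)))) (N (L (nat_lit 0)) (N (L (nat_lit 0x200000000000000000000)) (L (nat_lit 0)))))) (N (N (N (N (L (nat_lit 0x200000000000000000000)) (L (nat_lit 0))) (L (nat_lit 0))) (N (N (L (nat_lit 0x20972d01d752189139000)) (L (nat_lit 0))) (N (L (nat_lit 0x1f69105afce403e64e400)) (L (nat_lit 0))))) (N (L (nat_lit 0)) (N (L (nat_lit 0)) (N (L (nat_lit 0x200000000000000000000)) (L (nat_lit 0))))))) (N (N (N (L (nat_lit 0)) (N (N (L (nat_lit 0x20522e54d094dc504d000)) (L (nat_lit 0))) (N (L (nat_lit 0x1e6f02db4eb9726046c00)) (L (nat_lit 0))))) (N (N (N (L (nat_lit 0x200000000000000000000)) (L (nat_lit 0))) (L (nat_lit 0))) (L (nat_lit 0)))) (N (N (N (N (L (nat_lit 0x200000000000000000000)) (L (nat_lit 0))) (N (L (nat_lit 0x1ed4edb895cfb7fae9c00)) (L (nat_lit 0)))) (N (N (L (nat_lit 0x200000000000000000000)) (L (nat_lit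 0))) (N (L (nat_lit 0x200000000000000000000)) (L (nat_lit 0))))) (N (L (nat_lit 0)) (N (L (nat_lit 0)) (N (L (nat_lit 0x200000000000000000000)) (L (nat_lit 0)))))))) (L (nat_lit 0))) (N (N (L (nat_lit 0)) (N (N (N (L (nat_lit 0)) (N (N (L (nat_lit 0x200000000000000000000)) (L (nat_lit 0))) (L (nat_lit 0)))) (L (nat_lit 0))) (L (nat_lit 0)))) (L (nat_lit 0))))))))) Tr.N Tr.L
noncomputable def tZT_2 : Tr := (fun (N : Tr → Tr → Tr) (L : ℕ → Tr) => (N (N (N (N (N (N (N (N (N (N (N (N (L (nat_lit 0x200000000000000000000)) (L (nat_lit 0x200000000000000000000))) (N (L (nat_lit 0x200000000000000000000)) (L (nat_lit 0)))) (N (N (L (nat_lit 0x200000000000000000000)) (L (nat_lit 0))) (N (L (nat_lit 0x200000000000000000000)) (L (nat_lit 0))))) (N (N (N (L (nat_lit 0x200000000000000000000)) (L (nat_lit 0x200000000000000000000))) (N (L (nat_lit 0x200000000000000000000)) (L (nat_lit 0)))) (N (N (L (nat_lit 0x200000000000000000000)) (L (nat_lit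 0))) (N (L (nat_lit 0x200000000000000000000)) (L (nat_lit 0)))))) (N (N (N (N (L (nat_lit 0x200000000000000000000)) (L (nat_lit 0x200000000000000000000))) (N (L (nat_lit 0x200000000000000000000)) (L (nat_lit 0)))) (N (N (L (nat_lit 0x200000000000000000000)) (L (nat_lit 0))) (N (L (nat_lit 0x200000000000000000000)) (L (nat_lit 0))))) (N (N (N (L (nat_lit 0x200000000000000000000)) (L (nat_lit 0))) (N (L (nat_lit 0x200000000000000000000)) (L (nat_lit 0)))) (N (N (L (nat_lit 0x200000000000000000000)) (L (nat_lit 0))) (N (L (nat_lit 0x200000000000000000000)) (L (nat_lit 0))))))) (N (N (N (N (N (L (nat_lit 0x200000000000000000000)) (L (nat_lit 0x200000000000000000000))) (N (L (nat_lit 0x200000000000000000000)) (L (nat_lit 0)))) (N (N (L (nat_lit 0x200000000000000000000)) (L (nat_lit 0))) (N (L (nat_lit 0x200000000000000000000)) (L (nat_lit 0))))) (N (N (N (L (nat_lit 0x200000000000000000000)) (L (nat_lit 0x200000000000000000000)))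 (N (L (nat_lit 0x200000000000000000000)) (L (nat_lit 0)))) (N (N (L (nat_lit 0x200000000000000000000)) (L (nat_lit 0))) (N (L (nat_lit 0x200000000000000000000)) (L (nat_lit 0)))))) (N (N (N (N (L (nat_lit 0x200000000000000000000)) (L (nat_lit 0x200000000000000000000))) (N (L (nat_lit 0x200000000000000000000)) (L (nat_lit 0)))) (N (N (L (nat_lit 0x200000000000000000000)) (L (nat_lit 0))) (N (L (nat_lit 0x200000000000000000000)) (L (nat_lit 0))))) (N (N (N (L (nat_lit 0x200000000000000000000)) (L (nat_lit 0))) (N (L (nat_lit 0x200000000000000000000)) (L (nat_lit 0)))) (N (N (L (nat_lit 0x200000000000000000000)) (L (nat_lit 0))) (N (L (nat_lit 0x200000000000000000000)) (L (nat_lit 0)))))))) (N (L (nat_lit 0)) (N (N (N (L (nat_lit 0)) (N (N (L (nat_lit 0x200000000000000000000)) (L (nat_lit 0))) (L (nat_lit 0)))) (L (nat_lit 0))) (L (nat_lit 0))))) (N (N (N (N (N (N (L (nat_lit 0)) (N (L (nat_lit 0x200000000000000000000)) (L (nat_lit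 0)))) (N (N (L (nat_lit 0x21639356b805032302800)) (L (nat_lit 0))) (N (L (nat_lit 0x1e8967c81ab06ba6ea800)) (L (nat_lit 0))))) (N (N (L (nat_lit 0)) (N (L (nat_lit 0x200000000000000000000)) (L (nat_lit 0)))) (N (L (nat_lit 0)) (N (L (nat_lit 0x1fcec58d0ad20134ea000)) (L (nat_lit 0)))))) (N (N (N (N (L (nat_lit 0x200000000000000000000)) (L (nat_lit 0))) (L (nat_lit 0))) (N (N (L (nat_lit 0x2037bb749e68da735d400)) (L (nat_lit 0))) (N (L (nat_lit 0x1fc679501eaa2e529f000)) (L (nat_lit 0))))) (N (L (nat_lit 0)) (N (L (nat_lit 0)) (N (L (nat_lit 0x219f77ba5a3942521b800)) (L (nat_lit 0))))))) (N (N (N (L (nat_lit 0)) (N (N (L (nat_lit 0x200000000000000000000)) (L (nat_lit 0))) (N (L (nat_lit 0x200000000000000000000)) (L (nat_lit 0))))) (N (N (N (L (nat_lit 0x200000000000000000000)) (L (nat_lit 0))) (L (nat_lit 0))) (L (nat_lit 0)))) (N (N (N (N (L (nat_lit 0x200000000000000000000)) (L (nat_lit 0))) (N (L (nat_lit 0x22293332672a00f75e000))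 (L (nat_lit 0)))) (N (N (L (nat_lit 0x200000000000000000000)) (L (nat_lit 0))) (L (nat_lit 0)))) (N (L (nat_lit 0)) (N (L (nat_lit 0)) (N (L (nat_lit 0x1d17bc92e613299e96800)) (L (nat_lit 0)))))))) (L (nat_lit 0)))) (N (N (N (N (N (N (N (L (nat_lit 0)) (N (L (nat_lit 0x20582ba92b30453aa4800)) (L (nat_lit 0)))) (N (N (L (nat_lit 0x200000000000000000000)) (L (nat_lit 0))) (N (L (nat_lit 0x200000000000000000000)) (L (nat_lit 0))))) (N (N (N (L (nat_lit 0x200000000000000000000)) (L (nat_lit 0))) (N (L (nat_lit 0x1d21583fb1b1093447800)) (L (nat_lit 0)))) (N (N (L (nat_lit 0x221efe84eb3debd7d0800)) (L (nat_lit 0))) (N (L (nat_lit 0x200000000000000000000)) (L (nat_lit 0)))))) (N (N (N (N (L (nat_lit 0x1ff5dac5215e8ebd62000)) (L (nat_lit 0))) (N (L (nat_lit 0x1eb226ae9017ad2682400)) (L (nat_lit 0)))) (N (N (L (nat_lit 0x1eb7ec29e08e7a572f000)) (L (nat_lit 0))) (N (L (nat_lit 0x20598f2f9b8d05e24b400)) (L (nat_lit 0))))) (N (N (N (L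 (nat_lit 0x200000000000000000000)) (L (nat_lit 0))) (L (nat_lit 0))) (N (L (nat_lit 0)) (N (L (nat_lit 0x200000000000000000000)) (L (nat_lit 0))))))) (N (N (N (N (N (L (nat_lit 0x200000000000000000000)) (L (nat_lit 0x200000000000000000000))) (N (L (nat_lit 0x201c2a1c5ce123ab90000)) (L (nat_lit 0)))) (N (N (L (nat_lit 0x200000000000000000000)) (L (nat_lit 0))) (N (L (nat_lit 0x1e163248d67ddea280c00)) (L (nat_lit 0))))) (N (N (N (L (nat_lit 0x200000000000000000000)) (L (nat_lit 0))) (N (L (nat_lit 0x1fbabb53b60a7e366e800)) (L (nat_lit 0)))) (L (nat_lit 0)))) (N (N (N (N (L (nat_lit 0x20648bb52ae273e4bf800)) (L (nat_lit 0x200000000000000000000))) (N (L (nat_lit 0x209884334f9820e15c000)) (L (nat_lit 0)))) (N (N (L (nat_lit 0x2052fbf6d40002bb3e800)) (L (nat_lit 0))) (N (L (nat_lit 0x200000000000000000000)) (L (nat_lit 0))))) (N (N (N (L (nat_lit 0x214eb7f455d10042dd800)) (L (nat_lit 0))) (N (L (nat_lit 0x200000000000000000000))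 (L (nat_lit 0)))) (N (N (L (nat_lit 0x200000000000000000000)) (L (nat_lit 0))) (N (L (nat_lit 0x200000000000000000000)) (L (nat_lit 0)))))))) (L (nat_lit 0))) (N (N (N (L (nat_lit 0)) (N (N (L (nat_lit 0)) (N (N (L (nat_lit 0x200000000000000000000)) (L (nat_lit 0))) (L (nat_lit 0)))) (N (L (nat_lit 0)) (N (L (nat_lit 0)) (N (L (nat_lit 0x200000000000000000000)) (L (nat_lit 0))))))) (N (N (N (L (nat_lit 0)) (N (N (L (nat_lit 0x2160116229215f7d13000)) (L (nat_lit 0))) (L (nat_lit 0)))) (L (nat_lit 0))) (N (N (N (L (nat_lit 0)) (N (L (nat_lit 0x200000000000000000000)) (L (nat_lit 0)))) (N (N (L (nat_lit 0x200000000000000000000)) (L (nat_lit 0))) (L (nat_lit 0)))) (L (nat_lit 0))))) (L (nat_lit 0))))) (N (N (N (N (N (N (N (N (N (L (nat_lit 0x200000000000000000000)) (L (nat_lit 0x200000000000000000000))) (N (L (nat_lit 0x20f8d1651e3b9c0347800)) (L (nat_lit 0)))) (N (N (L (nat_lit 0x200000000000000000000)) (L (nat_lit 0))) (N (L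 (nat_lit 0x200000000000000000000)) (L (nat_lit 0))))) (N (N (N (L (nat_lit 0x200000000000000000000)) (L (nat_lit 0x1c393ab2b89c395ab8000))) (N (L (nat_lit 0x2109e0e2ba86d3f644000)) (L (nat_lit 0)))) (N (N (L (nat_lit 0x223f19ecba3c2bd99a400)) (L (nat_lit 0))) (N (L (nat_lit 0x200000000000000000000)) (L (nat_lit 0)))))) (N (N (N (N (L (nat_lit 0x200000000000000000000)) (L (nat_lit 0x200000000000000000000))) (N (L (nat_lit 0x207fc04de339f91f52800)) (L (nat_lit 0)))) (N (N (L (nat_lit 0x200000000000000000000)) (L (nat_lit 0))) (N (L (nat_lit 0x2074185001619f0aa1c00)) (L (nat_lit 0))))) (N (N (N (L (nat_lit 0x2251093c0e1c9f1ba0000)) (L (nat_lit 0))) (L (nat_lit 0))) (N (N (L (nat_lit 0x200000000000000000000)) (L (nat_lit 0))) (N (L (nat_lit 0x21278d5ac531eaf9e6000)) (L (nat_lit 0))))))) (N (N (N (N (N (L (nat_lit 0x2063346683522644f5800)) (L (nat_lit 0x23651fd24011a4d0b1000))) (N (L (nat_lit 0x1f6852d00978620631000)) (L (nat_lit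 0)))) (N (N (L (nat_lit 0x200000000000000000000)) (L (nat_lit 0))) (N (L (nat_lit 0x200000000000000000000)) (L (nat_lit 0))))) (N (N (N (L (nat_lit 0x1fe3259c3278d7828a800)) (L (nat_lit 0))) (N (L (nat_lit 0x200000000000000000000)) (L (nat_lit 0)))) (N (N (L (nat_lit 0x1ffc78cf4cc916a410800)) (L (nat_lit 0))) (N (L (nat_lit 0x207db535f790ef6b6f800)) (L (nat_lit 0)))))) (N (N (N (N (L (nat_lit 0x207c3b05c2baed51d1000)) (L (nat_lit 0x200000000000000000000))) (N (L (nat_lit 0x200000000000000000000)) (L (nat_lit 0)))) (N (N (L (nat_lit 0x200000000000000000000)) (L (nat_lit 0))) (N (L (nat_lit 0x200000000000000000000)) (L (nat_lit 0))))) (N (N (N (L (nat_lit 0x1faf2e9f6921c24b72000)) (L (nat_lit 0))) (N (L (nat_lit 0x200000000000000000000)) (L (nat_lit 0)))) (N (N (L (nat_lit 0x200000000000000000000)) (L (nat_lit 0))) (N (L (nat_lit 0x200000000000000000000)) (L (nat_lit 0)))))))) (L (nat_lit 0))) (N (N (N (N (N (L (nat_lit 0))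 (N (N (L (nat_lit 0x200000000000000000000)) (L (nat_lit 0))) (N (L (nat_lit 0x200000000000000000000)) (L (nat_lit 0))))) (L (nat_lit 0))) (N (N (L (nat_lit 0)) (N (N (L (nat_lit 0x200000000000000000000)) (L (nat_lit 0))) (L (nat_lit 0)))) (N (L (nat_lit 0)) (N (L (nat_lit 0)) (N (L (nat_lit 0x1df71c7c383c0f89e4800)) (L (nat_lit 0))))))) (N (N (N (L (nat_lit 0)) (N (N (L (nat_lit 0x1fe61296f462a36d97800)) (L (nat_lit 0))) (L (nat_lit 0)))) (N (N (N (L (nat_lit 0x200000000000000000000)) (L (nat_lit 0))) (L (nat_lit 0))) (L (nat_lit 0)))) (N (N (N (L (nat_lit 0)) (N (L (nat_lit 0x200000000000000000000)) (L (nat_lit 0)))) (N (N (L (nat_lit 0x1f70c3114544b707f2800)) (L (nat_lit 0))) (L (nat_lit 0)))) (L (nat_lit 0))))) (L (nat_lit 0)))) (N (N (N (N (N (N (N (L (nat_lit 0)) (N (L (nat_lit 0x200000000000000000000)) (L (nat_lit 0)))) (N (N (L (nat_lit 0x200000000000000000000)) (L (nat_lit 0))) (N (L (nat_lit 0x1fa710b29ed42436dac00))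 (L (nat_lit 0))))) (N (N (L (nat_lit 0)) (N (L (nat_lit 0x200000000000000000000)) (L (nat_lit 0)))) (N (N (L (nat_lit 0x200000000000000000000)) (L (nat_lit 0))) (N (L (nat_lit 0x200000000000000000000)) (L (nat_lit 0)))))) (N (N (N (N (L (nat_lit 0x200000000000000000000)) (L (nat_lit 0))) (L (nat_lit 0))) (N (N (L (nat_lit 0x1ffd2d4c4e5d52a237c00)) (L (nat_lit 0))) (N (L (nat_lit 0x1ee1cfcf49bfbc8b9da00)) (L (nat_lit 0))))) (N (L (nat_lit 0)) (N (L (nat_lit 0)) (N (L (nat_lit 0x1e868ebc9d16dd38fc000)) (L (nat_lit 0))))))) (N (N (N (L (nat_lit 0)) (N (N (L (nat_lit 0x200000000000000000000)) (L (nat_lit 0))) (N (L (nat_lit 0x20e57594f687834fab400)) (L (nat_lit 0))))) (N (N (N (L (nat_lit 0x209b5943e5ce3a0b8d400)) (L (nat_lit 0))) (N (L (nat_lit 0x200000000000000000000)) (L (nat_lit 0)))) (L (nat_lit 0)))) (N (N (N (N (L (nat_lit 0x200000000000000000000)) (L (nat_lit 0))) (N (L (nat_lit 0x200000000000000000000)) (L (nat_lit 0))))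 (N (N (L (nat_lit 0x1f03b5513f23c0bfc8000)) (L (nat_lit 0))) (N (L (nat_lit 0x200000000000000000000)) (L (nat_lit 0))))) (N (N (N (L (nat_lit 0x200000000000000000000)) (L (nat_lit 0))) (N (L (nat_lit 0x200000000000000000000)) (L (nat_lit 0)))) (N (L (nat_lit 0)) (N (L (nat_lit 0x200000000000000000000)) (L (nat_lit 0)))))))) (L (nat_lit 0))) (N (N (L (nat_lit 0)) (N (N (N (L (nat_lit 0)) (N (N (L (nat_lit 0x200000000000000000000)) (L (nat_lit 0))) (L (nat_lit 0)))) (L (nat_lit 0))) (N (N (L (nat_lit 0)) (N (N (L (nat_lit 0x200000000000000000000)) (L (nat_lit 0))) (L (nat_lit 0)))) (L (nat_lit 0))))) (L (nat_lit 0)))))) (N (N (N (N (N (N (N (N (N (N (L (nat_lit 0x200000000000000000000)) (L (nat_lit 0x20ea73589f89153ddc000))) (N (L (nat_lit 0x200000000000000000000)) (L (nat_lit 0)))) (N (N (L (nat_lit 0x200000000000000000000)) (L (nat_lit 0))) (N (L (nat_lit 0x200000000000000000000)) (L (nat_lit 0))))) (N (N (N (L (nat_lit 0x200000000000000000000))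 (L (nat_lit 0x224c6a3f4d131ef73e800))) (N (L (nat_lit 0x200000000000000000000)) (L (nat_lit 0)))) (N (N (L (nat_lit 0x200000000000000000000)) (L (nat_lit 0))) (N (L (nat_lit 0x200000000000000000000)) (L (nat_lit 0)))))) (N (N (N (N (L (nat_lit 0x200000000000000000000)) (L (nat_lit 0x20fbcaec29be7c40cc800))) (N (L (nat_lit 0x2014264ac7212ec346000)) (L (nat_lit 0)))) (N (N (L (nat_lit 0x200000000000000000000)) (L (nat_lit 0))) (N (L (nat_lit 0x200000000000000000000)) (L (nat_lit 0))))) (N (N (N (L (nat_lit 0x200000000000000000000)) (L (nat_lit 0))) (N (L (nat_lit 0x214c742137f9c36047800)) (L (nat_lit 0)))) (N (N (L (nat_lit 0x200000000000000000000)) (L (nat_lit 0))) (N (L (nat_lit 0x200000000000000000000)) (L (nat_lit 0))))))) (N (N (N (N (N (L (nat_lit 0x200000000000000000000)) (L (nat_lit 0x1e6687c92350810ded000))) (N (L (nat_lit 0x200000000000000000000)) (L (nat_lit 0)))) (N (N (L (nat_lit 0x200000000000000000000)) (L (nat_lit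 0))) (N (L (nat_lit 0x200000000000000000000)) (L (nat_lit 0))))) (N (N (N (L (nat_lit 0x200000000000000000000)) (L (nat_lit 0x200000000000000000000))) (N (L (nat_lit 0x200000000000000000000)) (L (nat_lit 0)))) (N (N (L (nat_lit 0x200000000000000000000)) (L (nat_lit 0))) (N (L (nat_lit 0x200000000000000000000)) (L (nat_lit 0)))))) (N (N (N (N (L (nat_lit 0x200000000000000000000)) (L (nat_lit 0x21a1c4242d4d70a3d6000))) (N (L (nat_lit 0x200000000000000000000)) (L (nat_lit 0)))) (N (N (L (nat_lit 0x200000000000000000000)) (L (nat_lit 0))) (N (L (nat_lit 0x200000000000000000000)) (L (nat_lit 0))))) (N (N (N (L (nat_lit 0x200000000000000000000)) (L (nat_lit 0))) (N (L (nat_lit 0x200000000000000000000)) (L (nat_lit 0)))) (N (N (L (nat_lit 0x200000000000000000000)) (L (nat_lit 0))) (N (L (nat_lit 0x200000000000000000000)) (L (nat_lit 0)))))))) (N (L (nat_lit 0)) (N (N (N (L (nat_lit 0)) (N (N (L (nat_lit 0x200000000000000000000))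 (L (nat_lit 0))) (L (nat_lit 0)))) (L (nat_lit 0))) (L (nat_lit 0))))) (N (N (N (N (N (N (L (nat_lit 0)) (N (L (nat_lit 0x200000000000000000000)) (L (nat_lit 0)))) (N (N (L (nat_lit 0x200000000000000000000)) (L (nat_lit 0))) (N (L (nat_lit 0x21368e4bf55f3c6865800)) (L (nat_lit 0))))) (N (N (L (nat_lit 0)) (N (L (nat_lit 0x200000000000000000000)) (L (nat_lit 0)))) (N (L (nat_lit 0)) (N (L (nat_lit 0x200000000000000000000)) (L (nat_lit 0)))))) (N (N (N (N (L (nat_lit 0x200000000000000000000)) (L (nat_lit 0))) (L (nat_lit 0))) (N (N (L (nat_lit 0x1e37c47ebbb24dbb8f800)) (L (nat_lit 0))) (L (nat_lit 0)))) (N (L (nat_lit 0)) (N (L (nat_lit 0)) (N (L (nat_lit 0x1de5b3df53c68b013d000)) (L (nat_lit 0))))))) (N (N (N (L (nat_lit 0)) (N (N (L (nat_lit 0x200000000000000000000)) (L (nat_lit 0))) (N (L (nat_lit 0x24452bc13f1c3af8eb400)) (L (nat_lit 0))))) (N (N (N (L (nat_lit 0x200000000000000000000)) (L (nat_lit 0))) (L (nat_lit 0)))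 (L (nat_lit 0)))) (N (N (N (L (nat_lit 0)) (N (L (nat_lit 0x200000000000000000000)) (L (nat_lit 0)))) (N (N (L (nat_lit 0x1de1eac1596b294449800)) (L (nat_lit 0))) (L (nat_lit 0)))) (L (nat_lit 0))))) (L (nat_lit 0)))) (N (N (N (N (N (N (N (L (nat_lit 0)) (N (L (nat_lit 0x200000000000000000000)) (L (nat_lit 0)))) (N (N (L (nat_lit 0x1fff825454cb91486c000)) (L (nat_lit 0))) (N (L (nat_lit 0x1fdd437915641874df800)) (L (nat_lit 0))))) (N (N (L (nat_lit 0)) (N (L (nat_lit 0x1f6fcbfbe827a6510ee00)) (L (nat_lit 0)))) (N (N (L (nat_lit 0x200000000000000000000)) (L (nat_lit 0))) (N (L (nat_lit 0x222a5e3e8e0e245d91000)) (L (nat_lit 0)))))) (N (N (N (N (L (nat_lit 0x200000000000000000000)) (L (nat_lit 0))) (N (L (nat_lit 0x21607b828e1cfcd5f8c00)) (L (nat_lit 0)))) (N (N (L (nat_lit 0x200000000000000000000)) (L (nat_lit 0))) (N (L (nat_lit 0x2112635cff86a03ece800)) (L (nat_lit 0))))) (N (L (nat_lit 0)) (N (L (nat_lit 0)) (N (L (nat_lit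 0x24455b42dec95b8076000)) (L (nat_lit 0))))))) (N (N (N (N (N (L (nat_lit 0)) (L (nat_lit 0x200000000000000000000))) (N (L (nat_lit 0x200000000000000000000)) (L (nat_lit 0)))) (N (N (L (nat_lit 0x201dcf1f0ce01a02f9000)) (L (nat_lit 0))) (N (L (nat_lit 0x1ee284811f879018f2400)) (L (nat_lit 0))))) (N (N (N (L (nat_lit 0x203bdcced8f6e228aac00)) (L (nat_lit 0))) (N (L (nat_lit 0x200000000000000000000)) (L (nat_lit 0)))) (L (nat_lit 0)))) (N (N (N (N (L (nat_lit 0x200000000000000000000)) (L (nat_lit 0))) (N (L (nat_lit 0x200000000000000000000)) (L (nat_lit 0)))) (N (N (L (nat_lit 0x200000000000000000000)) (L (nat_lit 0))) (N (L (nat_lit 0x200000000000000000000)) (L (nat_lit 0))))) (N (N (N (L (nat_lit 0x200000000000000000000)) (L (nat_lit 0))) (N (L (nat_lit 0x20fc43a6a0ad7eae34000)) (L (nat_lit 0)))) (N (N (L (nat_lit 0x200000000000000000000)) (L (nat_lit 0))) (N (L (nat_lit 0x2513da1069b89e8ead000)) (L (nat_lit 0)))))))) (L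 (nat_lit 0))) (N (N (N (L (nat_lit 0)) (N (N (L (nat_lit 0)) (N (N (L (nat_lit 0x1f7d724344878331a7000)) (L (nat_lit 0))) (L (nat_lit 0)))) (L (nat_lit 0)))) (N (N (N (L (nat_lit 0)) (N (N (L (nat_lit 0x200000000000000000000)) (L (nat_lit 0))) (L (nat_lit 0)))) (L (nat_lit 0))) (N (N (N (L (nat_lit 0)) (N (L (nat_lit 0x200000000000000000000)) (L (nat_lit 0)))) (N (N (L (nat_lit 0x200000000000000000000)) (L (nat_lit 0))) (L (nat_lit 0)))) (L (nat_lit 0))))) (L (nat_lit 0))))) (N (N (N (N (N (N (N (N (L (nat_lit 0)) (N (L (nat_lit 0x1f107b427d8be8375c800)) (L (nat_lit 0)))) (N (N (L (nat_lit 0x200000000000000000000)) (L (nat_lit 0))) (N (L (nat_lit 0x200000000000000000000)) (L (nat_lit 0))))) (N (N (N (L (nat_lit 0x200000000000000000000)) (L (nat_lit 0x1d68e4ba480ee19dbec00))) (N (L (nat_lit 0x203a46f2fba2581913000)) (L (nat_lit 0)))) (N (N (L (nat_lit 0x22ae5d44d464024140000)) (L (nat_lit 0))) (N (L (nat_lit 0x2068c854f6b660003f000))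 (L (nat_lit 0)))))) (N (N (N (N (L (nat_lit 0x20256e6fed1a43b619000)) (L (nat_lit 0))) (N (L (nat_lit 0x1f42c7f9e282a628c0800)) (L (nat_lit 0)))) (N (N (L (nat_lit 0x200000000000000000000)) (L (nat_lit 0))) (N (L (nat_lit 0x20862822919f36b4c3400)) (L (nat_lit 0))))) (N (N (N (L (nat_lit 0x20252c7466589bd99c000)) (L (nat_lit 0))) (L (nat_lit 0))) (N (L (nat_lit 0)) (N (L (nat_lit 0x200000000000000000000)) (L (nat_lit 0))))))) (N (N (N (N (N (L (nat_lit 0x200000000000000000000)) (L (nat_lit 0x20a7a1d2d365b1b67e000))) (N (L (nat_lit 0x1ff64eded6c521890e000)) (L (nat_lit 0)))) (N (N (L (nat_lit 0x200000000000000000000)) (L (nat_lit 0))) (N (L (nat_lit 0x211a4ac7f811eadfee000)) (L (nat_lit 0))))) (N (N (N (L (nat_lit 0x200000000000000000000)) (L (nat_lit 0))) (N (L (nat_lit 0x1dfaf8a56e80ffa769000)) (L (nat_lit 0)))) (N (N (L (nat_lit 0x200000000000000000000)) (L (nat_lit 0))) (N (L (nat_lit 0x200000000000000000000)) (L (nat_lit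 0)))))) (N (N (N (N (L (nat_lit 0x200000000000000000000)) (L (nat_lit 0x2000588bc58bd16bf9c00))) (N (L (nat_lit 0x200000000000000000000)) (L (nat_lit 0)))) (N (N (L (nat_lit 0x1ed0d92ff8cbf75a20000)) (L (nat_lit 0))) (N (L (nat_lit 0x200000000000000000000)) (L (nat_lit 0))))) (N (N (N (L (nat_lit 0x200000000000000000000)) (L (nat_lit 0))) (N (L (nat_lit 0x1f89d59e86c85eff91000)) (L (nat_lit 0)))) (N (N (L (nat_lit 0x200000000000000000000)) (L (nat_lit 0))) (N (L (nat_lit 0x22c0be30e58f2c9938800)) (L (nat_lit 0)))))))) (L (nat_lit 0))) (N (N (N (N (N (L (nat_lit 0)) (N (N (L (nat_lit 0x200000000000000000000)) (L (nat_lit 0))) (L (nat_lit 0)))) (L (nat_lit 0))) (N (N (L (nat_lit 0)) (N (N (L (nat_lit 0x200000000000000000000)) (L (nat_lit 0))) (L (nat_lit 0)))) (N (L (nat_lit 0)) (N (L (nat_lit 0)) (N (L (nat_lit 0x200000000000000000000)) (L (nat_lit 0))))))) (N (N (N (L (nat_lit 0)) (N (N (L (nat_lit 0x200000000000000000000))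 (L (nat_lit 0))) (L (nat_lit 0)))) (L (nat_lit 0))) (N (N (N (L (nat_lit 0)) (N (L (nat_lit 0x200000000000000000000)) (L (nat_lit 0)))) (N (N (L (nat_lit 0x20fe1807b089380b7a800)) (L (nat_lit 0))) (L (nat_lit 0)))) (L (nat_lit 0))))) (L (nat_lit 0)))) (N (N (N (N (N (N (N (L (nat_lit 0)) (N (L (nat_lit 0x200000000000000000000)) (L (nat_lit 0)))) (N (N (L (nat_lit 0x1f9bd518e4f8e6d601800)) (L (nat_lit 0))) (N (L (nat_lit 0x1ea90da458211261a2800)) (L (nat_lit 0))))) (N (N (L (nat_lit 0)) (N (L (nat_lit 0x200000000000000000000)) (L (nat_lit 0)))) (N (L (nat_lit 0)) (N (L (nat_lit 0x200000000000000000000)) (L (nat_lit 0)))))) (N (N (N (N (L (nat_lit 0x200000000000000000000)) (L (nat_lit 0))) (L (nat_lit 0))) (N (N (L (nat_lit 0x200000000000000000000)) (L (nat_lit 0))) (N (L (nat_lit 0x21375b8c3332b7caf7000)) (L (nat_lit 0))))) (N (L (nat_lit 0)) (N (L (nat_lit 0)) (N (L (nat_lit 0x200000000000000000000)) (L (nat_lit 0)))))))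 (N (N (N (L (nat_lit 0)) (N (N (L (nat_lit 0x20889545d9a6eb4fde200)) (L (nat_lit 0))) (N (L (nat_lit 0x1d6ea273b89e634864800)) (L (nat_lit 0))))) (N (N (N (L (nat_lit 0x200000000000000000000)) (L (nat_lit 0))) (N (L (nat_lit 0x200000000000000000000)) (L (nat_lit 0)))) (L (nat_lit 0)))) (N (N (N (N (L (nat_lit 0x200000000000000000000)) (L (nat_lit 0))) (N (L (nat_lit 0x1ed72530f647c1777ec00)) (L (nat_lit 0)))) (N (N (L (nat_lit 0x200000000000000000000)) (L (nat_lit 0))) (N (L (nat_lit 0x200000000000000000000)) (L (nat_lit 0))))) (N (L (nat_lit 0)) (N (L (nat_lit 0)) (N (L (nat_lit 0x201ed846c0684c2519000)) (L (nat_lit 0)))))))) (L (nat_lit 0))) (N (N (L (nat_lit 0)) (N (N (N (L (nat_lit 0)) (N (N (L (nat_lit 0x200000000000000000000)) (L (nat_lit 0))) (L (nat_lit 0)))) (L (nat_lit 0))) (N (N (L (nat_lit 0)) (N (N (L (nat_lit 0x200000000000000000000)) (L (nat_lit 0))) (L (nat_lit 0)))) (L (nat_lit 0))))) (L (nat_lit 0)))))))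 (N (N (N (N (N (N (N (N (N (N (N (L (nat_lit 0x200000000000000000000)) (L (nat_lit 0x200000000000000000000))) (N (L (nat_lit 0x200000000000000000000)) (L (nat_lit 0)))) (N (N (L (nat_lit 0x200000000000000000000)) (L (nat_lit 0))) (N (L (nat_lit 0x200000000000000000000)) (L (nat_lit 0))))) (N (N (N (L (nat_lit 0x200000000000000000000)) (L (nat_lit 0x200000000000000000000))) (N (L (nat_lit 0x200000000000000000000)) (L (nat_lit 0)))) (N (N (L (nat_lit 0x200000000000000000000)) (L (nat_lit 0))) (N (L (nat_lit 0x200000000000000000000)) (L (nat_lit 0)))))) (N (N (N (N (L (nat_lit 0x200000000000000000000)) (L (nat_lit 0x2149a704a0145d40af800))) (N (L (nat_lit 0x200000000000000000000)) (L (nat_lit 0)))) (N (N (L (nat_lit 0x200000000000000000000)) (L (nat_lit 0))) (N (L (nat_lit 0x200000000000000000000)) (L (nat_lit 0))))) (N (N (N (L (nat_lit 0x200000000000000000000)) (L (nat_lit 0))) (N (L (nat_lit 0x1f96a4701c0907d0ee000)) (L (nat_lit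 0)))) (N (N (L (nat_lit 0x200000000000000000000)) (L (nat_lit 0))) (N (L (nat_lit 0x200000000000000000000)) (L (nat_lit 0))))))) (N (N (N (N (N (L (nat_lit 0x200000000000000000000)) (L (nat_lit 0x200000000000000000000))) (N (L (nat_lit 0x200000000000000000000)) (L (nat_lit 0)))) (N (N (L (nat_lit 0x200000000000000000000)) (L (nat_lit 0))) (N (L (nat_lit 0x200000000000000000000)) (L (nat_lit 0))))) (N (N (N (L (nat_lit 0x200000000000000000000)) (L (nat_lit 0x21d9be8ded25124836800))) (N (L (nat_lit 0x200000000000000000000)) (L (nat_lit 0)))) (N (N (L (nat_lit 0x200000000000000000000)) (L (nat_lit 0))) (N (L (nat_lit 0x200000000000000000000)) (L (nat_lit 0)))))) (N (N (N (N (L (nat_lit 0x200000000000000000000)) (L (nat_lit 0x200000000000000000000))) (N (L (nat_lit 0x200000000000000000000)) (L (nat_lit 0)))) (N (N (L (nat_lit 0x200000000000000000000)) (L (nat_lit 0))) (N (L (nat_lit 0x200000000000000000000)) (L (nat_lit 0)))))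 (N (N (N (L (nat_lit 0x200000000000000000000)) (L (nat_lit 0))) (N (L (nat_lit 0x200000000000000000000)) (L (nat_lit 0)))) (N (N (L (nat_lit 0x200000000000000000000)) (L (nat_lit 0))) (N (L (nat_lit 0x200000000000000000000)) (L (nat_lit 0)))))))) (N (L (nat_lit 0)) (N (N (N (L (nat_lit 0)) (N (N (L (nat_lit 0x200000000000000000000)) (L (nat_lit 0))) (L (nat_lit 0)))) (L (nat_lit 0))) (L (nat_lit 0))))) (N (N (N (N (N (N (L (nat_lit 0)) (N (L (nat_lit 0x200000000000000000000)) (L (nat_lit 0)))) (N (N (L (nat_lit 0x1f005cc6282ab2609d800)) (L (nat_lit 0))) (N (L (nat_lit 0x1fbb1189a880fa1036400)) (L (nat_lit 0))))) (N (N (L (nat_lit 0)) (N (L (nat_lit 0x200000000000000000000)) (L (nat_lit 0)))) (N (L (nat_lit 0)) (N (L (nat_lit 0x200000000000000000000)) (L (nat_lit 0)))))) (N (N (N (N (L (nat_lit 0x2010f5a247ae2545f6000)) (L (nat_lit 0))) (L (nat_lit 0))) (N (N (L (nat_lit 0x1fef05d70667cf63de000)) (L (nat_lit 0))) (N (L (nat_lit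 0x1a387d046a684fe20b000)) (L (nat_lit 0))))) (N (L (nat_lit 0)) (N (L (nat_lit 0)) (N (L (nat_lit 0x200000000000000000000)) (L (nat_lit 0))))))) (N (N (N (L (nat_lit 0)) (N (N (L (nat_lit 0x200000000000000000000)) (L (nat_lit 0))) (N (L (nat_lit 0x20b88e174612b3f4b2c00)) (L (nat_lit 0))))) (N (N (N (L (nat_lit 0x200000000000000000000)) (L (nat_lit 0))) (L (nat_lit 0))) (L (nat_lit 0)))) (N (N (N (N (L (nat_lit 0x200000000000000000000)) (L (nat_lit 0))) (N (L (nat_lit 0x1edd2466b6ee8962d6400)) (L (nat_lit 0)))) (N (N (L (nat_lit 0x1cbb396f1f466fb902000)) (L (nat_lit 0))) (L (nat_lit 0)))) (N (L (nat_lit 0)) (N (L (nat_lit 0)) (N (L (nat_lit 0x200000000000000000000)) (L (nat_lit 0)))))))) (L (nat_lit 0)))) (N (N (N (N (N (N (N (L (nat_lit 0)) (N (L (nat_lit 0x20180bcbc4af6929c1c00)) (L (nat_lit 0)))) (N (N (L (nat_lit 0x200000000000000000000)) (L (nat_lit 0))) (N (L (nat_lit 0x1f083112c83544eacb800)) (L (nat_lit 0))))) (N (N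 (N (L (nat_lit 0x200000000000000000000)) (L (nat_lit 0))) (N (L (nat_lit 0x1fe6ca661490c2a669800)) (L (nat_lit 0)))) (N (N (L (nat_lit 0x1f8aca1aceda7264f2000)) (L (nat_lit 0))) (N (L (nat_lit 0x1f8156150ce65ead06000)) (L (nat_lit 0)))))) (N (N (N (N (L (nat_lit 0x200000000000000000000)) (L (nat_lit 0))) (N (L (nat_lit 0x200000000000000000000)) (L (nat_lit 0)))) (N (N (L (nat_lit 0x200000000000000000000)) (L (nat_lit 0))) (N (L (nat_lit 0x20bebd8d1404a86315800)) (L (nat_lit 0))))) (N (N (N (L (nat_lit 0x2058a48a235abff7ca000)) (L (nat_lit 0))) (L (nat_lit 0))) (N (L (nat_lit 0)) (N (L (nat_lit 0x23459e46d3948a018b800)) (L (nat_lit 0))))))) (N (N (N (N (N (L (nat_lit 0x1fe55fdde5802672cb400)) (L (nat_lit 0x200000000000000000000))) (N (L (nat_lit 0x200000000000000000000)) (L (nat_lit 0)))) (N (N (L (nat_lit 0x200000000000000000000)) (L (nat_lit 0))) (N (L (nat_lit 0x1ffb4359259b59ce68800)) (L (nat_lit 0))))) (N (N (N (L (nat_lit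 0x204771686bc831d280800)) (L (nat_lit 0))) (N (L (nat_lit 0x200000000000000000000)) (L (nat_lit 0)))) (L (nat_lit 0)))) (N (N (N (N (L (nat_lit 0x1ffb901ebcd9541793c00)) (L (nat_lit 0))) (N (L (nat_lit 0x20c76051c9b657b580000)) (L (nat_lit 0)))) (N (N (L (nat_lit 0x1e69a2194738d74aab800)) (L (nat_lit 0))) (N (L (nat_lit 0x200000000000000000000)) (L (nat_lit 0))))) (N (N (N (L (nat_lit 0x200000000000000000000)) (L (nat_lit 0))) (N (L (nat_lit 0x1f3b55d8b7fc763cb7000)) (L (nat_lit 0)))) (N (N (L (nat_lit 0x200000000000000000000)) (L (nat_lit 0))) (N (L (nat_lit 0x1baf4df53746beebf8000)) (L (nat_lit 0)))))))) (L (nat_lit 0))) (N (N (N (L (nat_lit 0)) (N (N (L (nat_lit 0)) (N (N (L (nat_lit 0x200000000000000000000)) (L (nat_lit 0))) (L (nat_lit 0)))) (L (nat_lit 0)))) (N (N (N (L (nat_lit 0)) (N (N (L (nat_lit 0x1ed0208dc6acaee072e00)) (L (nat_lit 0))) (L (nat_lit 0)))) (L (nat_lit 0))) (N (N (N (L (nat_lit 0)) (N (L (nat_lit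 0x200000000000000000000)) (L (nat_lit 0)))) (N (N (L (nat_lit 0x200000000000000000000)) (L (nat_lit 0))) (L (nat_lit 0)))) (L (nat_lit 0))))) (L (nat_lit 0))))) (N (N (N (N (N (N (N (N (N (L (nat_lit 0)) (L (nat_lit 0x200000000000000000000))) (N (L (nat_lit 0x215cd46592a681f0ff800)) (L (nat_lit 0)))) (N (N (L (nat_lit 0x200000000000000000000)) (L (nat_lit 0))) (N (L (nat_lit 0x200000000000000000000)) (L (nat_lit 0))))) (N (N (N (L (nat_lit 0x1ff4c054cffab56f8e000)) (L (nat_lit 0x1cab92a5b0af421b9e000))) (N (L (nat_lit 0x1df6dce4d2a27c27f4000)) (L (nat_lit 0)))) (N (N (L (nat_lit 0x200000000000000000000)) (L (nat_lit 0))) (N (L (nat_lit 0x200000000000000000000)) (L (nat_lit 0)))))) (N (N (N (N (L (nat_lit 0x200000000000000000000)) (L (nat_lit 0))) (N (L (nat_lit 0x205dacbcf396c8cf95800)) (L (nat_lit 0)))) (N (N (L (nat_lit 0x1f8dd52e81dbe511e1c00)) (L (nat_lit 0))) (N (L (nat_lit 0x20191b541c318f87d9c00)) (L (nat_lit 0)))))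 (N (N (N (L (nat_lit 0x2074bb230223acd908800)) (L (nat_lit 0))) (L (nat_lit 0))) (N (N (L (nat_lit 0x200000000000000000000)) (L (nat_lit 0))) (N (L (nat_lit 0x200000000000000000000)) (L (nat_lit 0))))))) (N (N (N (N (N (L (nat_lit 0x200000000000000000000)) (L (nat_lit 0x22ed19abad0020240e000))) (N (L (nat_lit 0x21428b5e50139f2926800)) (L (nat_lit 0)))) (N (N (L (nat_lit 0x200000000000000000000)) (L (nat_lit 0))) (N (L (nat_lit 0x200000000000000000000)) (L (nat_lit 0))))) (N (N (N (L (nat_lit 0x1fee0a92e118489e88c00)) (L (nat_lit 0))) (N (L (nat_lit 0x1ffbe0b4ed38e0fbaf800)) (L (nat_lit 0)))) (N (N (L (nat_lit 0x1e82fa7a2bc5f0b482000)) (L (nat_lit 0))) (N (L (nat_lit 0x2333e2842a602fbc73000)) (L (nat_lit 0)))))) (N (N (N (N (L (nat_lit 0x200000000000000000000)) (L (nat_lit 0x200000000000000000000))) (N (L (nat_lit 0x200000000000000000000)) (L (nat_lit 0)))) (N (N (L (nat_lit 0x204c955fbf9f7683ec000)) (L (nat_lit 0))) (N (L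 (nat_lit 0x200000000000000000000)) (L (nat_lit 0))))) (N (N (N (L (nat_lit 0x200000000000000000000)) (L (nat_lit 0))) (N (L (nat_lit 0x1fb919d50be143dfa2000)) (L (nat_lit 0)))) (N (N (L (nat_lit 0x1e10df43f4b98eb696800)) (L (nat_lit 0))) (N (L (nat_lit 0x203c75877f7cd1c53a800)) (L (nat_lit 0)))))))) (L (nat_lit 0))) (N (N (N (N (N (L (nat_lit 0)) (N (N (L (nat_lit 0x200000000000000000000)) (L (nat_lit 0))) (N (L (nat_lit 0x200000000000000000000)) (L (nat_lit 0))))) (L (nat_lit 0))) (N (N (L (nat_lit 0)) (N (N (L (nat_lit 0x2088a0c809081afd0a800)) (L (nat_lit 0))) (L (nat_lit 0)))) (N (L (nat_lit 0)) (N (L (nat_lit 0)) (N (L (nat_lit 0x24a39b230ec3863987800)) (L (nat_lit 0))))))) (N (N (N (L (nat_lit 0)) (N (N (L (nat_lit 0x2033e0aadfa3ff2f61000)) (L (nat_lit 0))) (L (nat_lit 0)))) (L (nat_lit 0))) (N (N (N (L (nat_lit 0)) (N (L (nat_lit 0x200000000000000000000)) (L (nat_lit 0)))) (N (N (L (nat_lit 0x20a65bb3ff0db419f9c00))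 (L (nat_lit 0))) (L (nat_lit 0)))) (L (nat_lit 0))))) (L (nat_lit 0)))) (N (N (N (N (N (N (N (L (nat_lit 0)) (N (L (nat_lit 0x200000000000000000000)) (L (nat_lit 0)))) (N (N (L (nat_lit 0x200000000000000000000)) (L (nat_lit 0))) (N (L (nat_lit 0x1bf9d0604ddf4d2343800)) (L (nat_lit 0))))) (N (N (L (nat_lit 0)) (N (L (nat_lit 0x200000000000000000000)) (L (nat_lit 0)))) (N (N (L (nat_lit 0x200000000000000000000)) (L (nat_lit 0))) (N (L (nat_lit 0x200000000000000000000)) (L (nat_lit 0)))))) (N (N (N (N (L (nat_lit 0x200000000000000000000)) (L (nat_lit 0))) (L (nat_lit 0))) (N (N (L (nat_lit 0x200000000000000000000)) (L (nat_lit 0))) (N (L (nat_lit 0x1ccd7be54c0605b315000)) (L (nat_lit 0))))) (N (L (nat_lit 0)) (N (L (nat_lit 0)) (N (L (nat_lit 0x1b4f0ad9d31dfc49acc00)) (L (nat_lit 0))))))) (N (N (N (L (nat_lit 0)) (N (N (L (nat_lit 0x2075deb85ffaf65847200)) (L (nat_lit 0))) (N (L (nat_lit 0x1f538def5d8da80751800)) (L (nat_lit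 0))))) (N (N (N (L (nat_lit 0x1fa098767cc81c117c800)) (L (nat_lit 0))) (N (L (nat_lit 0x200000000000000000000)) (L (nat_lit 0)))) (L (nat_lit 0)))) (N (N (N (N (L (nat_lit 0x2037ac406156858ee9800)) (L (nat_lit 0))) (N (L (nat_lit 0x200000000000000000000)) (L (nat_lit 0)))) (N (N (L (nat_lit 0x200000000000000000000)) (L (nat_lit 0))) (N (L (nat_lit 0x200000000000000000000)) (L (nat_lit 0))))) (N (N (N (L (nat_lit 0x200000000000000000000)) (L (nat_lit 0))) (N (L (nat_lit 0x200000000000000000000)) (L (nat_lit 0)))) (N (L (nat_lit 0)) (N (L (nat_lit 0x1aaadc2c0e6ec28821000)) (L (nat_lit 0)))))))) (L (nat_lit 0))) (N (N (L (nat_lit 0)) (N (N (N (L (nat_lit 0)) (N (N (L (nat_lit 0x200000000000000000000)) (L (nat_lit 0))) (L (nat_lit 0)))) (L (nat_lit 0))) (N (N (L (nat_lit 0)) (N (N (L (nat_lit 0x200000000000000000000)) (L (nat_lit 0))) (L (nat_lit 0)))) (L (nat_lit 0))))) (L (nat_lit 0)))))) (N (N (N (N (N (N (N (N (N (N (L (nat_lit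 0x200000000000000000000)) (L (nat_lit 0x200000000000000000000))) (N (L (nat_lit 0x200000000000000000000)) (L (nat_lit 0)))) (N (N (L (nat_lit 0x200000000000000000000)) (L (nat_lit 0))) (N (L (nat_lit 0x200000000000000000000)) (L (nat_lit 0))))) (N (N (N (L (nat_lit 0x2002ea452a4d797c67800)) (L (nat_lit 0x1d6eac3deb7fb62ba8000))) (N (L (nat_lit 0x200000000000000000000)) (L (nat_lit 0)))) (N (N (L (nat_lit 0x200000000000000000000)) (L (nat_lit 0))) (N (L (nat_lit 0x200000000000000000000)) (L (nat_lit 0)))))) (N (N (N (N (L (nat_lit 0x200000000000000000000)) (L (nat_lit 0x20d944e413f54bbca7800))) (N (L (nat_lit 0x200000000000000000000)) (L (nat_lit 0)))) (N (N (L (nat_lit 0x200000000000000000000)) (L (nat_lit 0))) (N (L (nat_lit 0x2015b3d2bb22eeb89a800)) (L (nat_lit 0))))) (N (N (N (L (nat_lit 0x202b0ea38a15320ebb000)) (L (nat_lit 0))) (L (nat_lit 0))) (N (N (L (nat_lit 0x200000000000000000000)) (L (nat_lit 0))) (N (L (nat_lit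 0x200000000000000000000)) (L (nat_lit 0))))))) (N (N (N (N (N (L (nat_lit 0x1fea0aa9f34b06dd82800)) (L (nat_lit 0x212f4353b1a32f7a85000))) (N (L (nat_lit 0x200000000000000000000)) (L (nat_lit 0)))) (N (N (L (nat_lit 0x200000000000000000000)) (L (nat_lit 0))) (N (L (nat_lit 0x200000000000000000000)) (L (nat_lit 0))))) (N (N (N (L (nat_lit 0x200000000000000000000)) (L (nat_lit 0))) (N (L (nat_lit 0x200000000000000000000)) (L (nat_lit 0)))) (N (N (L (nat_lit 0x200000000000000000000)) (L (nat_lit 0))) (N (L (nat_lit 0x200000000000000000000)) (L (nat_lit 0)))))) (N (N (N (N (L (nat_lit 0x200000000000000000000)) (L (nat_lit 0x1efcf24e789b93f36f400))) (N (L (nat_lit 0x200000000000000000000)) (L (nat_lit 0)))) (N (N (L (nat_lit 0x200000000000000000000)) (L (nat_lit 0))) (N (L (nat_lit 0x227efaf679d4406fe9000)) (L (nat_lit 0))))) (N (N (N (L (nat_lit 0x200000000000000000000)) (L (nat_lit 0))) (N (L (nat_lit 0x200000000000000000000))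 (L (nat_lit 0)))) (N (N (L (nat_lit 0x200000000000000000000)) (L (nat_lit 0))) (N (L (nat_lit 0x200000000000000000000)) (L (nat_lit 0)))))))) (L (nat_lit 0))) (N (N (N (N (N (L (nat_lit 0)) (N (N (L (nat_lit 0x200000000000000000000)) (L (nat_lit 0))) (N (L (nat_lit 0x1d6b6630a1ea0e329d000)) (L (nat_lit 0))))) (L (nat_lit 0))) (N (N (L (nat_lit 0)) (N (N (L (nat_lit 0x200000000000000000000)) (L (nat_lit 0))) (L (nat_lit 0)))) (N (L (nat_lit 0)) (N (L (nat_lit 0)) (N (L (nat_lit 0x1e3a67bb06dbd7a510800)) (L (nat_lit 0))))))) (N (N (N (L (nat_lit 0)) (N (N (L (nat_lit 0x200000000000000000000)) (L (nat_lit 0))) (L (nat_lit 0)))) (N (N (N (L (nat_lit 0x200000000000000000000)) (L (nat_lit 0))) (L (nat_lit 0))) (L (nat_lit 0)))) (N (N (N (L (nat_lit 0)) (N (L (nat_lit 0x200000000000000000000)) (L (nat_lit 0)))) (N (N (L (nat_lit 0x21a853ea32c77e7c66800)) (L (nat_lit 0))) (L (nat_lit 0)))) (L (nat_lit 0))))) (L (nat_lit 0)))) (N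 (N (N (N (N (N (N (L (nat_lit 0)) (N (L (nat_lit 0x1f859d3eb54a333115800)) (L (nat_lit 0)))) (N (N (L (nat_lit 0x200000000000000000000)) (L (nat_lit 0))) (N (L (nat_lit 0x200232168ee0618b6bc00)) (L (nat_lit 0))))) (N (N (L (nat_lit 0)) (N (L (nat_lit 0x1e5c13b9fbefdf9542800)) (L (nat_lit 0)))) (N (N (L (nat_lit 0x200000000000000000000)) (L (nat_lit 0))) (N (L (nat_lit 0x228ec9c8080aedaf7f800)) (L (nat_lit 0)))))) (N (N (N (N (L (nat_lit 0x200000000000000000000)) (L (nat_lit 0))) (L (nat_lit 0))) (N (N (L (nat_lit 0x1e938c6073910aae47400)) (L (nat_lit 0))) (N (L (nat_lit 0x218b54ace2ea834b42c00)) (L (nat_lit 0))))) (N (L (nat_lit 0)) (N (L (nat_lit 0)) (N (L (nat_lit 0x1eee9e8f9288fd2d80000)) (L (nat_lit 0))))))) (N (N (N (N (N (L (nat_lit 0)) (L (nat_lit 0x200000000000000000000))) (N (L (nat_lit 0x200000000000000000000)) (L (nat_lit 0)))) (N (N (L (nat_lit 0x1f92b879cfd01cfad6800)) (L (nat_lit 0))) (N (L (nat_lit 0x217a6068afd9381ba2000))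 (L (nat_lit 0))))) (N (N (N (L (nat_lit 0x1fc4d89d5923bf94b9e00)) (L (nat_lit 0))) (N (L (nat_lit 0x200000000000000000000)) (L (nat_lit 0)))) (L (nat_lit 0)))) (N (N (N (N (L (nat_lit 0x200000000000000000000)) (L (nat_lit 0))) (N (L (nat_lit 0x200000000000000000000)) (L (nat_lit 0)))) (N (N (L (nat_lit 0x200000000000000000000)) (L (nat_lit 0))) (N (L (nat_lit 0x215aa0dde02bfcb639000)) (L (nat_lit 0))))) (N (N (N (L (nat_lit 0x200000000000000000000)) (L (nat_lit 0))) (N (L (nat_lit 0x22aa05dee0c552d8b3800)) (L (nat_lit 0)))) (N (N (L (nat_lit 0x200000000000000000000)) (L (nat_lit 0))) (N (L (nat_lit 0x200000000000000000000)) (L (nat_lit 0)))))))) (L (nat_lit 0))) (N (N (L (nat_lit 0)) (N (N (N (L (nat_lit 0)) (N (N (L (nat_lit 0x200000000000000000000)) (L (nat_lit 0))) (L (nat_lit 0)))) (L (nat_lit 0))) (N (N (N (L (nat_lit 0)) (N (L (nat_lit 0x200000000000000000000)) (L (nat_lit 0)))) (N (N (L (nat_lit 0x200000000000000000000))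 (L (nat_lit 0))) (L (nat_lit 0)))) (L (nat_lit 0))))) (L (nat_lit 0))))) (N (N (N (N (N (N (N (N (L (nat_lit 0)) (N (L (nat_lit 0x1fd0370db90ef379bd800)) (L (nat_lit 0)))) (N (N (L (nat_lit 0x1f9d2a96dfa862688b000)) (L (nat_lit 0))) (N (L (nat_lit 0x2045baff03763656d7400)) (L (nat_lit 0))))) (N (N (N (L (nat_lit 0x200000000000000000000)) (L (nat_lit 0x200000000000000000000))) (N (L (nat_lit 0x20be4aa3f0a48d1557000)) (L (nat_lit 0)))) (N (N (L (nat_lit 0x1f7424c015cda91778400)) (L (nat_lit 0))) (N (L (nat_lit 0x200000000000000000000)) (L (nat_lit 0)))))) (N (N (N (N (L (nat_lit 0x20167b9ef8d0407c2ec00)) (L (nat_lit 0))) (N (L (nat_lit 0x1f85834fdda35ed46c000)) (L (nat_lit 0)))) (N (N (L (nat_lit 0x208058948aae5ec20b000)) (L (nat_lit 0))) (N (L (nat_lit 0x1d77613515c6e3fbe5800)) (L (nat_lit 0))))) (N (N (N (L (nat_lit 0x200000000000000000000)) (L (nat_lit 0))) (L (nat_lit 0))) (N (L (nat_lit 0)) (N (L (nat_lit 0x1ebbeb4de06100d504000))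 (L (nat_lit 0))))))) (N (N (N (N (N (L (nat_lit 0x200000000000000000000)) (L (nat_lit 0x1edcd1520525867ba7000))) (N (L (nat_lit 0x201a75d78391f90063800)) (L (nat_lit 0)))) (N (N (L (nat_lit 0x200000000000000000000)) (L (nat_lit 0))) (N (L (nat_lit 0x1f4f3532e38e9c8c9f000)) (L (nat_lit 0))))) (N (N (N (L (nat_lit 0x1f600cb9a5f16639e6800)) (L (nat_lit 0))) (N (L (nat_lit 0x200e505e4158b1cc41800)) (L (nat_lit 0)))) (L (nat_lit 0)))) (N (N (N (N (L (nat_lit 0x201589e31837902ff5000)) (L (nat_lit 0x2072940de12316a95b800))) (N (L (nat_lit 0x200000000000000000000)) (L (nat_lit 0)))) (N (N (L (nat_lit 0x20456c503722726d6a000)) (L (nat_lit 0))) (N (L (nat_lit 0x200000000000000000000)) (L (nat_lit 0))))) (N (N (N (L (nat_lit 0x1dbe613e12dbfc0c26000)) (L (nat_lit 0))) (N (L (nat_lit 0x200000000000000000000)) (L (nat_lit 0)))) (N (N (L (nat_lit 0x200000000000000000000)) (L (nat_lit 0))) (N (L (nat_lit 0x1f0f5c53450dbad04d800)) (L (nat_lit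 0)))))))) (L (nat_lit 0))) (N (N (N (L (nat_lit 0)) (N (N (L (nat_lit 0)) (N (N (L (nat_lit 0x200000000000000000000)) (L (nat_lit 0))) (L (nat_lit 0)))) (N (L (nat_lit 0)) (N (L (nat_lit 0)) (N (L (nat_lit 0x200000000000000000000)) (L (nat_lit 0))))))) (N (N (N (L (nat_lit 0)) (N (N (L (nat_lit 0x22448627dba917100c800)) (L (nat_lit 0))) (L (nat_lit 0)))) (L (nat_lit 0))) (N (N (N (L (nat_lit 0)) (N (L (nat_lit 0x200000000000000000000)) (L (nat_lit 0)))) (N (N (L (nat_lit 0x200000000000000000000)) (L (nat_lit 0))) (L (nat_lit 0)))) (L (nat_lit 0))))) (L (nat_lit 0)))) (N (N (N (N (N (N (N (L (nat_lit 0)) (N (L (nat_lit 0x200000000000000000000)) (L (nat_lit 0)))) (N (N (L (nat_lit 0x200000000000000000000)) (L (nat_lit 0))) (N (L (nat_lit 0x20f13078b1cdd9c690000)) (L (nat_lit 0))))) (N (N (L (nat_lit 0)) (N (L (nat_lit 0x200000000000000000000)) (L (nat_lit 0)))) (N (L (nat_lit 0)) (N (L (nat_lit 0x2507fcd95374d42fdbc00)) (L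 (nat_lit 0)))))) (N (N (N (N (L (nat_lit 0x200000000000000000000)) (L (nat_lit 0))) (L (nat_lit 0))) (N (N (L (nat_lit 0x2095bd732d0661c881000)) (L (nat_lit 0))) (N (L (nat_lit 0x201bb9a12bb57d13f7200)) (L (nat_lit 0))))) (N (L (nat_lit 0)) (N (L (nat_lit 0)) (N (L (nat_lit 0x27a74034fb90fbcf31800)) (L (nat_lit 0))))))) (N (N (N (L (nat_lit 0)) (N (N (L (nat_lit 0x1fb5ac2537d801a0ff400)) (L (nat_lit 0))) (N (L (nat_lit 0x200000000000000000000)) (L (nat_lit 0))))) (N (N (N (L (nat_lit 0x200000000000000000000)) (L (nat_lit 0))) (L (nat_lit 0))) (L (nat_lit 0)))) (N (N (N (N (L (nat_lit 0x200000000000000000000)) (L (nat_lit 0))) (N (L (nat_lit 0x200000000000000000000)) (L (nat_lit 0)))) (N (N (L (nat_lit 0x200000000000000000000)) (L (nat_lit 0))) (N (L (nat_lit 0x200000000000000000000)) (L (nat_lit 0))))) (N (L (nat_lit 0)) (N (L (nat_lit 0)) (N (L (nat_lit 0x24b2525cf4be35501d800)) (L (nat_lit 0)))))))) (L (nat_lit 0))) (N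 (N (L (nat_lit 0)) (N (N (N (L (nat_lit 0)) (N (N (L (nat_lit 0x200000000000000000000)) (L (nat_lit 0))) (L (nat_lit 0)))) (L (nat_lit 0))) (L (nat_lit 0)))) (L (nat_lit 0))))))))) Tr.N Tr.L
noncomputable def tZT_3 : Tr := (fun (N : Tr → Tr → Tr) (L : ℕ → Tr) => (N (N (N (N (N (N (N (N (N (N (N (N (L (nat_lit 0x200000000000000000000)) (L (nat_lit 0x200000000000000000000))) (N (L (nat_lit 0x200000000000000000000)) (L (nat_lit 0)))) (N (N (L (nat_lit 0x200000000000000000000)) (L (nat_lit 0))) (N (L (nat_lit 0x200000000000000000000)) (L (nat_lit 0))))) (N (N (N (L (nat_lit 0x200000000000000000000)) (L (nat_lit 0x200000000000000000000))) (N (L (nat_lit 0x200000000000000000000)) (L (nat_lit 0)))) (N (N (L (nat_lit 0x200000000000000000000)) (L (nat_lit 0))) (N (L (nat_lit 0x200000000000000000000)) (L (nat_lit 0)))))) (N (N (N (N (L (nat_lit 0x200000000000000000000)) (L (nat_lit 0x200000000000000000000))) (N (L (nat_lit 0x200000000000000000000))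 (L (nat_lit 0)))) (N (N (L (nat_lit 0x200000000000000000000)) (L (nat_lit 0))) (N (L (nat_lit 0x200000000000000000000)) (L (nat_lit 0))))) (N (N (N (L (nat_lit 0x200000000000000000000)) (L (nat_lit 0))) (N (L (nat_lit 0x200000000000000000000)) (L (nat_lit 0)))) (N (N (L (nat_lit 0x200000000000000000000)) (L (nat_lit 0))) (N (L (nat_lit 0x200000000000000000000)) (L (nat_lit 0))))))) (N (N (N (N (N (L (nat_lit 0x200000000000000000000)) (L (nat_lit 0x200000000000000000000))) (N (L (nat_lit 0x200000000000000000000)) (L (nat_lit 0)))) (N (N (L (nat_lit 0x200000000000000000000)) (L (nat_lit 0))) (N (L (nat_lit 0x200000000000000000000)) (L (nat_lit 0))))) (N (N (N (L (nat_lit 0x200000000000000000000)) (L (nat_lit 0x200000000000000000000))) (N (L (nat_lit 0x200000000000000000000)) (L (nat_lit 0)))) (N (N (L (nat_lit 0x200000000000000000000)) (L (nat_lit 0))) (N (L (nat_lit 0x200000000000000000000)) (L (nat_lit 0)))))) (N (N (N (N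 (L (nat_lit 0x200000000000000000000)) (L (nat_lit 0x200000000000000000000))) (N (L (nat_lit 0x200000000000000000000)) (L (nat_lit 0)))) (N (N (L (nat_lit 0x200000000000000000000)) (L (nat_lit 0))) (N (L (nat_lit 0x200000000000000000000)) (L (nat_lit 0))))) (N (N (N (L (nat_lit 0x200000000000000000000)) (L (nat_lit 0))) (N (L (nat_lit 0x200000000000000000000)) (L (nat_lit 0)))) (N (N (L (nat_lit 0x200000000000000000000)) (L (nat_lit 0))) (N (L (nat_lit 0x200000000000000000000)) (L (nat_lit 0)))))))) (N (L (nat_lit 0)) (N (N (N (L (nat_lit 0)) (N (N (L (nat_lit 0x200000000000000000000)) (L (nat_lit 0))) (L (nat_lit 0)))) (L (nat_lit 0))) (L (nat_lit 0))))) (N (N (N (N (N (N (L (nat_lit 0)) (N (L (nat_lit 0x200000000000000000000)) (L (nat_lit 0)))) (N (N (L (nat_lit 0x2034b8ffdb91c256a2800)) (L (nat_lit 0))) (N (L (nat_lit 0x22115aa0fcf1659c3d000)) (L (nat_lit 0))))) (N (N (L (nat_lit 0)) (N (L (nat_lit 0x200000000000000000000))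 (L (nat_lit 0)))) (N (L (nat_lit 0)) (N (L (nat_lit 0x25451d361c3f25fa17c00)) (L (nat_lit 0)))))) (N (N (N (N (L (nat_lit 0x200000000000000000000)) (L (nat_lit 0))) (L (nat_lit 0))) (N (N (L (nat_lit 0x1ee8f8dd0e39293340400)) (L (nat_lit 0))) (N (L (nat_lit 0x2289c06aa395efe6ffc00)) (L (nat_lit 0))))) (N (L (nat_lit 0)) (N (L (nat_lit 0)) (N (L (nat_lit 0x21d7401c87b6af24ce800)) (L (nat_lit 0))))))) (N (N (N (L (nat_lit 0)) (N (N (L (nat_lit 0x200000000000000000000)) (L (nat_lit 0))) (N (L (nat_lit 0x200000000000000000000)) (L (nat_lit 0))))) (N (N (N (L (nat_lit 0x200000000000000000000)) (L (nat_lit 0))) (L (nat_lit 0))) (L (nat_lit 0)))) (N (N (N (N (L (nat_lit 0x200000000000000000000)) (L (nat_lit 0))) (N (L (nat_lit 0x21d6c7eb0bafecd9c5000)) (L (nat_lit 0)))) (N (N (L (nat_lit 0x200000000000000000000)) (L (nat_lit 0))) (L (nat_lit 0)))) (N (L (nat_lit 0)) (N (L (nat_lit 0)) (N (L (nat_lit 0x200000000000000000000)) (L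 (nat_lit 0)))))))) (L (nat_lit 0)))) (N (N (N (N (N (N (N (L (nat_lit 0)) (N (L (nat_lit 0x200000000000000000000)) (L (nat_lit 0)))) (N (N (L (nat_lit 0x200000000000000000000)) (L (nat_lit 0))) (N (L (nat_lit 0x20a07bd41189f0b32dc00)) (L (nat_lit 0))))) (N (N (N (L (nat_lit 0x200000000000000000000)) (L (nat_lit 0))) (N (L (nat_lit 0x200000000000000000000)) (L (nat_lit 0)))) (N (N (L (nat_lit 0x1b8a7e59ce79f1b15c000)) (L (nat_lit 0))) (N (L (nat_lit 0x200000000000000000000)) (L (nat_lit 0)))))) (N (N (N (N (L (nat_lit 0x200000000000000000000)) (L (nat_lit 0))) (N (L (nat_lit 0x200000000000000000000)) (L (nat_lit 0)))) (N (N (L (nat_lit 0x200000000000000000000)) (L (nat_lit 0))) (N (L (nat_lit 0x1fbc919a069e394e64000)) (L (nat_lit 0))))) (N (N (N (L (nat_lit 0x200000000000000000000)) (L (nat_lit 0))) (L (nat_lit 0))) (N (L (nat_lit 0)) (N (L (nat_lit 0x1d1c09c481edeba734000)) (L (nat_lit 0))))))) (N (N (N (N (N (L (nat_lit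 0x200000000000000000000)) (L (nat_lit 0x219350ee3f090f773b400))) (N (L (nat_lit 0x200000000000000000000)) (L (nat_lit 0)))) (N (N (L (nat_lit 0x1f9194c909e08ec18b000)) (L (nat_lit 0))) (N (L (nat_lit 0x1d8641038cb2d2c6e2400)) (L (nat_lit 0))))) (N (N (N (L (nat_lit 0x200000000000000000000)) (L (nat_lit 0))) (N (L (nat_lit 0x200000000000000000000)) (L (nat_lit 0)))) (L (nat_lit 0)))) (N (N (N (N (L (nat_lit 0x1fa2f410e00d9648b9000)) (L (nat_lit 0x200000000000000000000))) (N (L (nat_lit 0x2046cad425ce499187000)) (L (nat_lit 0)))) (N (N (L (nat_lit 0x2018371dd882a5f26a800)) (L (nat_lit 0))) (N (L (nat_lit 0x25df08c483b2d3f0bc000)) (L (nat_lit 0))))) (N (N (N (L (nat_lit 0x1e9f7dbd53e4778dbfc00)) (L (nat_lit 0))) (N (L (nat_lit 0x1f9b2320a66ddbe7e7800)) (L (nat_lit 0)))) (N (N (L (nat_lit 0x200000000000000000000)) (L (nat_lit 0))) (N (L (nat_lit 0x241b79967f385c3992000)) (L (nat_lit 0)))))))) (L (nat_lit 0))) (N (N (N (L (nat_lit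 0)) (N (N (L (nat_lit 0)) (N (N (L (nat_lit 0x200000000000000000000)) (L (nat_lit 0))) (L (nat_lit 0)))) (L (nat_lit 0)))) (N (N (N (L (nat_lit 0)) (N (N (L (nat_lit 0x1e37877b2a6f26aecd400)) (L (nat_lit 0))) (L (nat_lit 0)))) (L (nat_lit 0))) (N (N (N (L (nat_lit 0)) (N (L (nat_lit 0x200000000000000000000)) (L (nat_lit 0)))) (N (N (L (nat_lit 0x200000000000000000000)) (L (nat_lit 0))) (L (nat_lit 0)))) (L (nat_lit 0))))) (L (nat_lit 0))))) (N (N (N (N (N (N (N (N (N (L (nat_lit 0)) (L (nat_lit 0x200000000000000000000))) (N (L (nat_lit 0x1e3469c5cb7194a95f000)) (L (nat_lit 0)))) (N (N (L (nat_lit 0x2062e003127e1ec257000)) (L (nat_lit 0))) (N (L (nat_lit 0x200000000000000000000)) (L (nat_lit 0))))) (N (N (N (L (nat_lit 0x200000000000000000000)) (L (nat_lit 0x200000000000000000000))) (N (L (nat_lit 0x200000000000000000000)) (L (nat_lit 0)))) (N (N (L (nat_lit 0x1d97811b0f016a0153000)) (L (nat_lit 0))) (N (L (nat_lit 0x205a51439ecfaca55f000))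 (L (nat_lit 0)))))) (N (N (N (N (L (nat_lit 0x1ff966f4fde393c78c000)) (L (nat_lit 0))) (N (L (nat_lit 0x200000000000000000000)) (L (nat_lit 0)))) (N (N (L (nat_lit 0x200000000000000000000)) (L (nat_lit 0))) (N (L (nat_lit 0x210f1036e052b7acb7000)) (L (nat_lit 0))))) (N (N (N (L (nat_lit 0x1f944bc68639e0413c000)) (L (nat_lit 0))) (L (nat_lit 0))) (N (N (L (nat_lit 0x200000000000000000000)) (L (nat_lit 0))) (N (L (nat_lit 0x20a27d018fb981d313000)) (L (nat_lit 0))))))) (N (N (N (N (N (L (nat_lit 0x200000000000000000000)) (L (nat_lit 0x200000000000000000000))) (N (L (nat_lit 0x200000000000000000000)) (L (nat_lit 0)))) (N (N (L (nat_lit 0x200000000000000000000)) (L (nat_lit 0))) (N (L (nat_lit 0x200000000000000000000)) (L (nat_lit 0))))) (N (N (N (L (nat_lit 0x1f940d98b9c9963d67800)) (L (nat_lit 0))) (N (L (nat_lit 0x1f5590a3dbd989401d800)) (L (nat_lit 0)))) (N (N (L (nat_lit 0x21a4dc010bb421988dc00)) (L (nat_lit 0))) (N (L (nat_lit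 0x21c8a0ee8cc758a743000)) (L (nat_lit 0)))))) (N (N (N (N (L (nat_lit 0x1fee0c012de527870e800)) (L (nat_lit 0x1f1ac3bd8c5694ddf4c00))) (N (L (nat_lit 0x1fde793a97b04c2032000)) (L (nat_lit 0)))) (N (N (L (nat_lit 0x200000000000000000000)) (L (nat_lit 0))) (N (L (nat_lit 0x1fbfdc3b8674baba4f000)) (L (nat_lit 0))))) (N (N (N (L (nat_lit 0x200000000000000000000)) (L (nat_lit 0))) (N (L (nat_lit 0x200000000000000000000)) (L (nat_lit 0)))) (N (N (L (nat_lit 0x200315db5fbfd9b44f000)) (L (nat_lit 0))) (N (L (nat_lit 0x200000000000000000000)) (L (nat_lit 0)))))))) (L (nat_lit 0))) (N (N (N (N (N (L (nat_lit 0)) (N (N (L (nat_lit 0x200000000000000000000)) (L (nat_lit 0))) (N (L (nat_lit 0x200000000000000000000)) (L (nat_lit 0))))) (L (nat_lit 0))) (N (N (L (nat_lit 0)) (N (N (L (nat_lit 0x200000000000000000000)) (L (nat_lit 0))) (L (nat_lit 0)))) (N (L (nat_lit 0)) (N (L (nat_lit 0)) (N (L (nat_lit 0x247c5104ae07a28e9d000)) (L (nat_lit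 0))))))) (N (N (N (L (nat_lit 0)) (N (N (L (nat_lit 0x203fba998d920befba000)) (L (nat_lit 0))) (L (nat_lit 0)))) (L (nat_lit 0))) (N (N (N (L (nat_lit 0)) (N (L (nat_lit 0x200000000000000000000)) (L (nat_lit 0)))) (N (N (L (nat_lit 0x1d55ed270a9c035599000)) (L (nat_lit 0))) (L (nat_lit 0)))) (L (nat_lit 0))))) (L (nat_lit 0)))) (N (N (N (N (N (N (N (L (nat_lit 0)) (N (L (nat_lit 0x20cbc60f06b7307adac00)) (L (nat_lit 0)))) (N (N (L (nat_lit 0x200000000000000000000)) (L (nat_lit 0))) (N (L (nat_lit 0x2038eb93dae3cf3fd4000)) (L (nat_lit 0))))) (N (N (L (nat_lit 0)) (N (L (nat_lit 0x2119a1f71d08d57e78f00)) (L (nat_lit 0)))) (N (N (L (nat_lit 0x200000000000000000000)) (L (nat_lit 0))) (N (L (nat_lit 0x21e9f78b9031341642e80)) (L (nat_lit 0)))))) (N (N (N (N (L (nat_lit 0x200000000000000000000)) (L (nat_lit 0))) (L (nat_lit 0))) (N (N (L (nat_lit 0x1f27bf1ac70ef4930ec00)) (L (nat_lit 0))) (N (L (nat_lit 0x1faeed791926d3af24400))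 (L (nat_lit 0))))) (N (L (nat_lit 0)) (N (L (nat_lit 0)) (N (L (nat_lit 0x200000000000000000000)) (L (nat_lit 0))))))) (N (N (N (L (nat_lit 0)) (N (N (L (nat_lit 0x200000000000000000000)) (L (nat_lit 0))) (N (L (nat_lit 0x1e82aaffb01ad3d3cb000)) (L (nat_lit 0))))) (N (N (N (L (nat_lit 0x20995167f9735dd0d5000)) (L (nat_lit 0))) (N (L (nat_lit 0x200000000000000000000)) (L (nat_lit 0)))) (L (nat_lit 0)))) (N (N (N (N (L (nat_lit 0x200000000000000000000)) (L (nat_lit 0))) (N (L (nat_lit 0x1eb4d1672a0c42e333c00)) (L (nat_lit 0)))) (N (N (L (nat_lit 0x200000000000000000000)) (L (nat_lit 0))) (N (L (nat_lit 0x200000000000000000000)) (L (nat_lit 0))))) (N (N (N (L (nat_lit 0x200000000000000000000)) (L (nat_lit 0))) (N (L (nat_lit 0x200000000000000000000)) (L (nat_lit 0)))) (N (L (nat_lit 0)) (N (L (nat_lit 0x1efa5261f2edc3bcc4000)) (L (nat_lit 0)))))))) (L (nat_lit 0))) (N (N (L (nat_lit 0)) (N (N (N (L (nat_lit 0)) (N (N (L (nat_lit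 0x200000000000000000000)) (L (nat_lit 0))) (L (nat_lit 0)))) (L (nat_lit 0))) (N (N (L (nat_lit 0)) (N (N (L (nat_lit 0x200000000000000000000)) (L (nat_lit 0))) (L (nat_lit 0)))) (L (nat_lit 0))))) (L (nat_lit 0)))))) (N (N (N (N (N (N (N (N (N (N (L (nat_lit 0x200000000000000000000)) (L (nat_lit 0x200000000000000000000))) (N (L (nat_lit 0x200000000000000000000)) (L (nat_lit 0)))) (N (N (L (nat_lit 0x200000000000000000000)) (L (nat_lit 0))) (N (L (nat_lit 0x200000000000000000000)) (L (nat_lit 0))))) (N (N (N (L (nat_lit 0x200000000000000000000)) (L (nat_lit 0x200000000000000000000))) (N (L (nat_lit 0x200000000000000000000)) (L (nat_lit 0)))) (N (N (L (nat_lit 0x200000000000000000000)) (L (nat_lit 0))) (N (L (nat_lit 0x200000000000000000000)) (L (nat_lit 0)))))) (N (N (N (N (L (nat_lit 0x200000000000000000000)) (L (nat_lit 0x200000000000000000000))) (N (L (nat_lit 0x200326b8351e7309f3000)) (L (nat_lit 0)))) (N (N (L (nat_lit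 0x200000000000000000000)) (L (nat_lit 0))) (N (L (nat_lit 0x200000000000000000000)) (L (nat_lit 0))))) (N (N (N (L (nat_lit 0x20460e8d892a998f8c000)) (L (nat_lit 0))) (N (L (nat_lit 0x211cb951a0a1cc63c6800)) (L (nat_lit 0)))) (N (N (L (nat_lit 0x200000000000000000000)) (L (nat_lit 0))) (N (L (nat_lit 0x200000000000000000000)) (L (nat_lit 0))))))) (N (N (N (N (N (L (nat_lit 0x2016f8bcea9bd12e26000)) (L (nat_lit 0x200000000000000000000))) (N (L (nat_lit 0x20b93bc878f6501612000)) (L (nat_lit 0)))) (N (N (L (nat_lit 0x200000000000000000000)) (L (nat_lit 0))) (N (L (nat_lit 0x200000000000000000000)) (L (nat_lit 0))))) (N (N (N (L (nat_lit 0x200000000000000000000)) (L (nat_lit 0x200000000000000000000))) (N (L (nat_lit 0x200000000000000000000)) (L (nat_lit 0)))) (N (N (L (nat_lit 0x20fcb129c186f20e71400)) (L (nat_lit 0))) (N (L (nat_lit 0x1f0730459e72245b30000)) (L (nat_lit 0)))))) (N (N (N (N (L (nat_lit 0x200000000000000000000))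 (L (nat_lit 0x200000000000000000000))) (N (L (nat_lit 0x200000000000000000000)) (L (nat_lit 0)))) (N (N (L (nat_lit 0x200000000000000000000)) (L (nat_lit 0))) (N (L (nat_lit 0x200000000000000000000)) (L (nat_lit 0))))) (N (N (N (L (nat_lit 0x200000000000000000000)) (L (nat_lit 0))) (N (L (nat_lit 0x200000000000000000000)) (L (nat_lit 0)))) (N (N (L (nat_lit 0x200000000000000000000)) (L (nat_lit 0))) (N (L (nat_lit 0x200000000000000000000)) (L (nat_lit 0)))))))) (L (nat_lit 0))) (N (N (N (N (N (N (L (nat_lit 0)) (N (L (nat_lit 0x200000000000000000000)) (L (nat_lit 0)))) (N (N (L (nat_lit 0x200000000000000000000)) (L (nat_lit 0))) (N (L (nat_lit 0x200000000000000000000)) (L (nat_lit 0))))) (N (N (L (nat_lit 0)) (N (L (nat_lit 0x200000000000000000000)) (L (nat_lit 0)))) (L (nat_lit 0)))) (N (N (N (N (L (nat_lit 0x200000000000000000000)) (L (nat_lit 0))) (L (nat_lit 0))) (N (N (L (nat_lit 0x200000000000000000000)) (L (nat_lit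 0))) (L (nat_lit 0)))) (N (L (nat_lit 0)) (N (L (nat_lit 0)) (N (L (nat_lit 0x22fe616930a060a393800)) (L (nat_lit 0))))))) (N (N (N (L (nat_lit 0)) (N (N (L (nat_lit 0x200000000000000000000)) (L (nat_lit 0))) (L (nat_lit 0)))) (N (N (N (L (nat_lit 0x200000000000000000000)) (L (nat_lit 0))) (L (nat_lit 0))) (L (nat_lit 0)))) (N (N (N (L (nat_lit 0)) (N (L (nat_lit 0x200000000000000000000)) (L (nat_lit 0)))) (N (N (L (nat_lit 0x1f21dd02bdc4677ba1800)) (L (nat_lit 0))) (L (nat_lit 0)))) (L (nat_lit 0))))) (L (nat_lit 0)))) (N (N (N (N (N (N (N (L (nat_lit 0)) (N (L (nat_lit 0x225c2b71798d16772c800)) (L (nat_lit 0)))) (N (N (L (nat_lit 0x200000000000000000000)) (L (nat_lit 0))) (N (L (nat_lit 0x1f06d125c0626b1958400)) (L (nat_lit 0))))) (N (N (L (nat_lit 0)) (N (L (nat_lit 0x200c8d198a471d1437400)) (L (nat_lit 0)))) (N (N (L (nat_lit 0x200000000000000000000)) (L (nat_lit 0))) (N (L (nat_lit 0x200000000000000000000)) (L (nat_lit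 0)))))) (N (N (N (N (L (nat_lit 0x200000000000000000000)) (L (nat_lit 0))) (L (nat_lit 0))) (N (N (L (nat_lit 0x200000000000000000000)) (L (nat_lit 0))) (N (L (nat_lit 0x1f62e24b9dbaca179b400)) (L (nat_lit 0))))) (N (L (nat_lit 0)) (N (L (nat_lit 0)) (N (L (nat_lit 0x200000000000000000000)) (L (nat_lit 0))))))) (N (N (N (N (N (L (nat_lit 0)) (L (nat_lit 0x200000000000000000000))) (N (L (nat_lit 0x200000000000000000000)) (L (nat_lit 0)))) (N (N (L (nat_lit 0x20579f39a4599946d3000)) (L (nat_lit 0))) (N (L (nat_lit 0x205e53f8eec6e05f71c00)) (L (nat_lit 0))))) (N (N (N (L (nat_lit 0x1ffc3bc9e83841e3bbc00)) (L (nat_lit 0))) (N (L (nat_lit 0x200000000000000000000)) (L (nat_lit 0)))) (L (nat_lit 0)))) (N (N (N (N (L (nat_lit 0x200000000000000000000)) (L (nat_lit 0))) (N (L (nat_lit 0x1f11d78cd6bd2e9288800)) (L (nat_lit 0)))) (N (N (L (nat_lit 0x200000000000000000000)) (L (nat_lit 0))) (N (L (nat_lit 0x217cbb157948fa5bfa800)) (L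 (nat_lit 0))))) (N (N (N (L (nat_lit 0x200000000000000000000)) (L (nat_lit 0))) (N (L (nat_lit 0x1d1a754b9bf1d6a268400)) (L (nat_lit 0)))) (N (N (L (nat_lit 0x200000000000000000000)) (L (nat_lit 0))) (N (L (nat_lit 0x205acb1aea7ab06a4e000)) (L (nat_lit 0)))))))) (L (nat_lit 0))) (N (N (L (nat_lit 0)) (N (N (N (L (nat_lit 0)) (N (N (L (nat_lit 0x200000000000000000000)) (L (nat_lit 0))) (L (nat_lit 0)))) (L (nat_lit 0))) (N (N (N (L (nat_lit 0)) (N (L (nat_lit 0x200000000000000000000)) (L (nat_lit 0)))) (N (N (L (nat_lit 0x200000000000000000000)) (L (nat_lit 0))) (L (nat_lit 0)))) (L (nat_lit 0))))) (L (nat_lit 0))))) (N (N (N (N (N (N (N (N (L (nat_lit 0)) (N (L (nat_lit 0x216ce83b42f2bff5e4800)) (L (nat_lit 0)))) (N (N (L (nat_lit 0x1fb7108a71d5d892c6800)) (L (nat_lit 0))) (N (L (nat_lit 0x1fc1fb52171f4dfec0800)) (L (nat_lit 0))))) (N (N (N (L (nat_lit 0x200000000000000000000)) (L (nat_lit 0x200000000000000000000))) (N (L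 (nat_lit 0x200000000000000000000)) (L (nat_lit 0)))) (N (N (L (nat_lit 0x200000000000000000000)) (L (nat_lit 0))) (N (L (nat_lit 0x200000000000000000000)) (L (nat_lit 0)))))) (N (N (N (N (L (nat_lit 0x1fefb6ffcb7d5ea28bc00)) (L (nat_lit 0))) (N (L (nat_lit 0x1ff47d537ef56ecadf800)) (L (nat_lit 0)))) (N (N (L (nat_lit 0x2078c3a7b40e37fa66c00)) (L (nat_lit 0))) (N (L (nat_lit 0x1f71459c12a9b0fb48c00)) (L (nat_lit 0))))) (N (N (N (L (nat_lit 0x200000000000000000000)) (L (nat_lit 0))) (L (nat_lit 0))) (N (L (nat_lit 0)) (N (L (nat_lit 0x1d7dc467fe75661848000)) (L (nat_lit 0))))))) (N (N (N (N (N (L (nat_lit 0x200000000000000000000)) (L (nat_lit 0x200000000000000000000))) (N (L (nat_lit 0x200000000000000000000)) (L (nat_lit 0)))) (N (N (L (nat_lit 0x200000000000000000000)) (L (nat_lit 0))) (N (L (nat_lit 0x1e75965357cd35a6c2c00)) (L (nat_lit 0))))) (N (N (N (L (nat_lit 0x204f6056e688858b10000)) (L (nat_lit 0))) (N (L (nat_lit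 0x200000000000000000000)) (L (nat_lit 0)))) (L (nat_lit 0)))) (N (N (N (N (L (nat_lit 0x200000000000000000000)) (L (nat_lit 0x200000000000000000000))) (N (L (nat_lit 0x203d39e69641f49e2f800)) (L (nat_lit 0)))) (N (N (L (nat_lit 0x200000000000000000000)) (L (nat_lit 0))) (N (L (nat_lit 0x1dd3a99772b2c41fbe800)) (L (nat_lit 0))))) (N (N (N (L (nat_lit 0x200000000000000000000)) (L (nat_lit 0))) (N (L (nat_lit 0x1fe592382ee5089ee0000)) (L (nat_lit 0)))) (N (N (L (nat_lit 0x200000000000000000000)) (L (nat_lit 0))) (N (L (nat_lit 0x1be7ec5fa8a0da599e000)) (L (nat_lit 0)))))))) (L (nat_lit 0))) (N (N (N (N (N (L (nat_lit 0)) (N (N (L (nat_lit 0x200000000000000000000)) (L (nat_lit 0))) (L (nat_lit 0)))) (L (nat_lit 0))) (N (N (L (nat_lit 0)) (N (N (L (nat_lit 0x200000000000000000000)) (L (nat_lit 0))) (L (nat_lit 0)))) (N (L (nat_lit 0)) (N (L (nat_lit 0)) (N (L (nat_lit 0x200000000000000000000)) (L (nat_lit 0))))))) (N (N (N (L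 (nat_lit 0)) (N (N (L (nat_lit 0x1fec843906583c38ac400)) (L (nat_lit 0))) (L (nat_lit 0)))) (L (nat_lit 0))) (N (N (N (L (nat_lit 0)) (N (L (nat_lit 0x21d1495922cf38ddbe000)) (L (nat_lit 0)))) (N (N (L (nat_lit 0x200000000000000000000)) (L (nat_lit 0))) (L (nat_lit 0)))) (L (nat_lit 0))))) (L (nat_lit 0)))) (N (N (N (N (N (N (N (L (nat_lit 0)) (N (L (nat_lit 0x1fa532c8011c20e150000)) (L (nat_lit 0)))) (N (N (L (nat_lit 0x20167d0ed04264a96a000)) (L (nat_lit 0))) (N (L (nat_lit 0x1f33b515bc8a3ceef1800)) (L (nat_lit 0))))) (N (N (L (nat_lit 0)) (N (L (nat_lit 0x200000000000000000000)) (L (nat_lit 0)))) (N (L (nat_lit 0)) (N (L (nat_lit 0x206884e91f9d079a55c00)) (L (nat_lit 0)))))) (N (N (N (N (L (nat_lit 0x200000000000000000000)) (L (nat_lit 0))) (L (nat_lit 0))) (N (N (L (nat_lit 0x1e6731a8ce2d0c6454000)) (L (nat_lit 0))) (N (L (nat_lit 0x200000000000000000000)) (L (nat_lit 0))))) (N (L (nat_lit 0)) (N (L (nat_lit 0)) (N (L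 (nat_lit 0x2274e541045d8af311800)) (L (nat_lit 0))))))) (N (N (N (L (nat_lit 0)) (N (N (L (nat_lit 0x200000000000000000000)) (L (nat_lit 0))) (N (L (nat_lit 0x200000000000000000000)) (L (nat_lit 0))))) (N (N (N (L (nat_lit 0x200000000000000000000)) (L (nat_lit 0))) (N (L (nat_lit 0x200000000000000000000)) (L (nat_lit 0)))) (L (nat_lit 0)))) (N (N (N (N (L (nat_lit 0x200000000000000000000)) (L (nat_lit 0))) (N (L (nat_lit 0x200000000000000000000)) (L (nat_lit 0)))) (N (N (L (nat_lit 0x200000000000000000000)) (L (nat_lit 0))) (N (L (nat_lit 0x200000000000000000000)) (L (nat_lit 0))))) (N (L (nat_lit 0)) (N (L (nat_lit 0)) (N (L (nat_lit 0x24cd07fa7f87f32db4b80)) (L (nat_lit 0)))))))) (L (nat_lit 0))) (N (N (L (nat_lit 0)) (N (N (N (L (nat_lit 0)) (N (N (L (nat_lit 0x200000000000000000000)) (L (nat_lit 0))) (L (nat_lit 0)))) (L (nat_lit 0))) (N (N (L (nat_lit 0)) (N (N (L (nat_lit 0x200000000000000000000)) (L (nat_lit 0))) (L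 (nat_lit 0)))) (L (nat_lit 0))))) (L (nat_lit 0))))))) (N (N (N (N (N (N (N (N (N (N (N (L (nat_lit 0x200000000000000000000)) (L (nat_lit 0x228f722ce45fa16a34000))) (N (L (nat_lit 0x200000000000000000000)) (L (nat_lit 0)))) (N (N (L (nat_lit 0x200000000000000000000)) (L (nat_lit 0))) (N (L (nat_lit 0x200000000000000000000)) (L (nat_lit 0))))) (N (N (N (L (nat_lit 0x200000000000000000000)) (L (nat_lit 0x200000000000000000000))) (N (L (nat_lit 0x200000000000000000000)) (L (nat_lit 0)))) (N (N (L (nat_lit 0x200000000000000000000)) (L (nat_lit 0))) (N (L (nat_lit 0x200000000000000000000)) (L (nat_lit 0)))))) (N (N (N (N (L (nat_lit 0x200000000000000000000)) (L (nat_lit 0x200000000000000000000))) (N (L (nat_lit 0x200000000000000000000)) (L (nat_lit 0)))) (N (N (L (nat_lit 0x200000000000000000000)) (L (nat_lit 0))) (N (L (nat_lit 0x200000000000000000000)) (L (nat_lit 0))))) (N (N (N (L (nat_lit 0x200000000000000000000)) (L (nat_lit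 0))) (N (L (nat_lit 0x20127a07e1ea684f0d800)) (L (nat_lit 0)))) (N (N (L (nat_lit 0x207a916e40129698b8000)) (L (nat_lit 0))) (N (L (nat_lit 0x200000000000000000000)) (L (nat_lit 0))))))) (N (N (N (N (N (L (nat_lit 0x200000000000000000000)) (L (nat_lit 0x200000000000000000000))) (N (L (nat_lit 0x200000000000000000000)) (L (nat_lit 0)))) (N (N (L (nat_lit 0x200000000000000000000)) (L (nat_lit 0))) (N (L (nat_lit 0x200000000000000000000)) (L (nat_lit 0))))) (N (N (N (L (nat_lit 0x200000000000000000000)) (L (nat_lit 0x1a7f55a0149fc3b13a000))) (N (L (nat_lit 0x200000000000000000000)) (L (nat_lit 0)))) (N (N (L (nat_lit 0x20139e6d7521bfb644800)) (L (nat_lit 0))) (N (L (nat_lit 0x207482a0d933feeabc000)) (L (nat_lit 0)))))) (N (N (N (N (L (nat_lit 0x200000000000000000000)) (L (nat_lit 0x200000000000000000000))) (N (L (nat_lit 0x200000000000000000000)) (L (nat_lit 0)))) (N (N (L (nat_lit 0x200000000000000000000)) (L (nat_lit 0)))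 (N (L (nat_lit 0x200000000000000000000)) (L (nat_lit 0))))) (N (N (N (L (nat_lit 0x200000000000000000000)) (L (nat_lit 0))) (N (L (nat_lit 0x200000000000000000000)) (L (nat_lit 0)))) (N (N (L (nat_lit 0x200000000000000000000)) (L (nat_lit 0))) (N (L (nat_lit 0x200000000000000000000)) (L (nat_lit 0)))))))) (N (L (nat_lit 0)) (N (N (N (L (nat_lit 0)) (N (N (L (nat_lit 0x200000000000000000000)) (L (nat_lit 0))) (L (nat_lit 0)))) (L (nat_lit 0))) (L (nat_lit 0))))) (N (N (N (N (N (N (L (nat_lit 0)) (N (L (nat_lit 0x200000000000000000000)) (L (nat_lit 0)))) (N (N (L (nat_lit 0x200000000000000000000)) (L (nat_lit 0))) (N (L (nat_lit 0x211654c0f88cf9842a000)) (L (nat_lit 0))))) (N (N (L (nat_lit 0)) (N (L (nat_lit 0x200000000000000000000)) (L (nat_lit 0)))) (N (L (nat_lit 0)) (N (L (nat_lit 0x200000000000000000000)) (L (nat_lit 0)))))) (N (N (N (N (L (nat_lit 0x200000000000000000000)) (L (nat_lit 0))) (L (nat_lit 0))) (N (N (L (nat_lit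 0x20963b97e58f9cadce800)) (L (nat_lit 0))) (L (nat_lit 0)))) (N (L (nat_lit 0)) (N (L (nat_lit 0)) (N (L (nat_lit 0x200000000000000000000)) (L (nat_lit 0))))))) (N (N (N (L (nat_lit 0)) (N (N (L (nat_lit 0x200000000000000000000)) (L (nat_lit 0))) (N (L (nat_lit 0x1c8cac24e43a6512b1400)) (L (nat_lit 0))))) (N (N (N (L (nat_lit 0x200000000000000000000)) (L (nat_lit 0))) (L (nat_lit 0))) (L (nat_lit 0)))) (N (N (N (L (nat_lit 0)) (N (L (nat_lit 0x200000000000000000000)) (L (nat_lit 0)))) (N (N (L (nat_lit 0x20b373ee5cfcee0e0c000)) (L (nat_lit 0))) (L (nat_lit 0)))) (L (nat_lit 0))))) (L (nat_lit 0)))) (N (N (N (N (N (N (N (L (nat_lit 0)) (N (L (nat_lit 0x200000000000000000000)) (L (nat_lit 0)))) (N (N (L (nat_lit 0x20c0379dedd47b8764400)) (L (nat_lit 0))) (N (L (nat_lit 0x200000000000000000000)) (L (nat_lit 0))))) (N (N (L (nat_lit 0)) (N (L (nat_lit 0x200000000000000000000)) (L (nat_lit 0)))) (N (N (L (nat_lit 0x200c512ca49fd38e3bd00))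 (L (nat_lit 0))) (N (L (nat_lit 0x200000000000000000000)) (L (nat_lit 0)))))) (N (N (N (N (L (nat_lit 0x200000000000000000000)) (L (nat_lit 0))) (N (L (nat_lit 0x200000000000000000000)) (L (nat_lit 0)))) (N (N (L (nat_lit 0x202ea57826b13705db000)) (L (nat_lit 0))) (N (L (nat_lit 0x2081ac6b0d8eba25cc000)) (L (nat_lit 0))))) (N (L (nat_lit 0)) (N (L (nat_lit 0)) (N (L (nat_lit 0x20aa418eb94904a3d2800)) (L (nat_lit 0))))))) (N (N (N (N (N (L (nat_lit 0x200000000000000000000)) (L (nat_lit 0x200000000000000000000))) (N (L (nat_lit 0x200000000000000000000)) (L (nat_lit 0)))) (N (N (L (nat_lit 0x2016cd39b9e87fac01400)) (L (nat_lit 0))) (N (L (nat_lit 0x20d68499d0a279bd6b400)) (L (nat_lit 0))))) (N (N (N (L (nat_lit 0x200000000000000000000)) (L (nat_lit 0))) (N (L (nat_lit 0x1fd667eb26dd18195f600)) (L (nat_lit 0)))) (L (nat_lit 0)))) (N (N (N (N (L (nat_lit 0x200000000000000000000)) (L (nat_lit 0))) (N (L (nat_lit 0x200000000000000000000))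 (L (nat_lit 0)))) (N (N (L (nat_lit 0x200000000000000000000)) (L (nat_lit 0))) (N (L (nat_lit 0x1cf215f604ef830238800)) (L (nat_lit 0))))) (N (N (N (L (nat_lit 0x200000000000000000000)) (L (nat_lit 0))) (N (L (nat_lit 0x1feba732e1e57f50db400)) (L (nat_lit 0)))) (N (N (L (nat_lit 0x200000000000000000000)) (L (nat_lit 0))) (N (L (nat_lit 0x234c8d9846a246ac36000)) (L (nat_lit 0)))))))) (L (nat_lit 0))) (N (N (N (L (nat_lit 0)) (N (N (L (nat_lit 0)) (N (N (L (nat_lit 0x200000000000000000000)) (L (nat_lit 0))) (L (nat_lit 0)))) (L (nat_lit 0)))) (N (N (N (L (nat_lit 0)) (N (N (L (nat_lit 0x200000000000000000000)) (L (nat_lit 0))) (L (nat_lit 0)))) (L (nat_lit 0))) (N (N (N (L (nat_lit 0)) (N (L (nat_lit 0x200000000000000000000)) (L (nat_lit 0)))) (N (N (L (nat_lit 0x200000000000000000000)) (L (nat_lit 0))) (L (nat_lit 0)))) (L (nat_lit 0))))) (L (nat_lit 0))))) (N (N (N (N (N (N (N (N (N (L (nat_lit 0)) (L (nat_lit 0x200000000000000000000)))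 (N (L (nat_lit 0x200000000000000000000)) (L (nat_lit 0)))) (N (N (L (nat_lit 0x2005563aca4a1a809fc00)) (L (nat_lit 0))) (N (L (nat_lit 0x20b9db9f81df9577ae800)) (L (nat_lit 0))))) (N (N (N (L (nat_lit 0x200000000000000000000)) (L (nat_lit 0x200000000000000000000))) (N (L (nat_lit 0x200000000000000000000)) (L (nat_lit 0)))) (N (N (L (nat_lit 0x200000000000000000000)) (L (nat_lit 0))) (N (L (nat_lit 0x200000000000000000000)) (L (nat_lit 0)))))) (N (N (N (N (L (nat_lit 0x200000000000000000000)) (L (nat_lit 0))) (N (L (nat_lit 0x1e490934f434b3631d000)) (L (nat_lit 0)))) (N (N (L (nat_lit 0x200000000000000000000)) (L (nat_lit 0))) (N (L (nat_lit 0x202bfe12a31f0b19c9400)) (L (nat_lit 0))))) (N (N (N (L (nat_lit 0x20d8f2aaab1c65522f800)) (L (nat_lit 0))) (L (nat_lit 0))) (N (N (L (nat_lit 0x200000000000000000000)) (L (nat_lit 0))) (N (L (nat_lit 0x2109bf84cfba22f097400)) (L (nat_lit 0))))))) (N (N (N (N (N (L (nat_lit 0x200000000000000000000))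 (L (nat_lit 0x200000000000000000000))) (N (L (nat_lit 0x1ff87185f38e32e5fd000)) (L (nat_lit 0)))) (N (N (L (nat_lit 0x200000000000000000000)) (L (nat_lit 0))) (N (L (nat_lit 0x20c38470c43f5247ff400)) (L (nat_lit 0))))) (N (N (N (L (nat_lit 0x200000000000000000000)) (L (nat_lit 0))) (N (L (nat_lit 0x200000000000000000000)) (L (nat_lit 0)))) (N (N (L (nat_lit 0x214420e8baa7c20a28000)) (L (nat_lit 0))) (N (L (nat_lit 0x20d9748a0aedf38eca000)) (L (nat_lit 0)))))) (N (N (N (N (L (nat_lit 0x20000573ac06b849d2000)) (L (nat_lit 0x200000000000000000000))) (N (L (nat_lit 0x1e9c0f189e177ca7af000)) (L (nat_lit 0)))) (N (N (L (nat_lit 0x200000000000000000000)) (L (nat_lit 0))) (N (L (nat_lit 0x215320dde7e131666a000)) (L (nat_lit 0))))) (N (N (N (L (nat_lit 0x1e5e5ef65bb50d7641f00)) (L (nat_lit 0))) (N (L (nat_lit 0x2118b46acc2a40f98e800)) (L (nat_lit 0)))) (N (N (L (nat_lit 0x1f2d871ab598bc2958000)) (L (nat_lit 0))) (N (L (nat_lit 0x21d7d49f3f6a9d11ca800))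 (L (nat_lit 0)))))))) (L (nat_lit 0))) (N (N (N (N (N (L (nat_lit 0)) (N (N (L (nat_lit 0x200000000000000000000)) (L (nat_lit 0))) (N (L (nat_lit 0x200000000000000000000)) (L (nat_lit 0))))) (L (nat_lit 0))) (N (N (L (nat_lit 0)) (N (N (L (nat_lit 0x200000000000000000000)) (L (nat_lit 0))) (L (nat_lit 0)))) (N (L (nat_lit 0)) (N (L (nat_lit 0)) (N (L (nat_lit 0x200000000000000000000)) (L (nat_lit 0))))))) (N (N (N (L (nat_lit 0)) (N (N (L (nat_lit 0x200000000000000000000)) (L (nat_lit 0))) (L (nat_lit 0)))) (L (nat_lit 0))) (N (N (N (L (nat_lit 0)) (N (L (nat_lit 0x2017adb07715ff10b8800)) (L (nat_lit 0)))) (N (N (L (nat_lit 0x2035952bda4f1a8f73e00)) (L (nat_lit 0))) (L (nat_lit 0)))) (L (nat_lit 0))))) (L (nat_lit 0)))) (N (N (N (N (N (N (N (L (nat_lit 0)) (N (L (nat_lit 0x1dfc746c399cad6975e00)) (L (nat_lit 0)))) (N (N (L (nat_lit 0x200000000000000000000)) (L (nat_lit 0))) (N (L (nat_lit 0x2056ce7ccad02ba29a000)) (L (nat_lit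 0))))) (N (N (L (nat_lit 0)) (N (L (nat_lit 0x200000000000000000000)) (L (nat_lit 0)))) (N (L (nat_lit 0)) (N (L (nat_lit 0x1fe4a6abdffbbe73cdc00)) (L (nat_lit 0)))))) (N (N (N (N (L (nat_lit 0x200000000000000000000)) (L (nat_lit 0))) (L (nat_lit 0))) (N (N (L (nat_lit 0x1ef88fd299946d9c5f000)) (L (nat_lit 0))) (N (L (nat_lit 0x1c7c9f0eb215a3b9d0200)) (L (nat_lit 0))))) (N (L (nat_lit 0)) (N (L (nat_lit 0)) (N (L (nat_lit 0x233ad0e8048cdfd57ac00)) (L (nat_lit 0))))))) (N (N (N (L (nat_lit 0)) (N (N (L (nat_lit 0x200871b0a27f5056d7800)) (L (nat_lit 0))) (N (L (nat_lit 0x1e24cdeb7e4c096c2b400)) (L (nat_lit 0))))) (N (N (N (L (nat_lit 0x208845241c7e446bbf400)) (L (nat_lit 0))) (N (L (nat_lit 0x200000000000000000000)) (L (nat_lit 0)))) (L (nat_lit 0)))) (N (N (N (N (L (nat_lit 0x200000000000000000000)) (L (nat_lit 0))) (N (L (nat_lit 0x200000000000000000000)) (L (nat_lit 0)))) (N (N (L (nat_lit 0x2101bd5ff8e80743c3000)) (L (nat_lit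 0))) (N (L (nat_lit 0x200000000000000000000)) (L (nat_lit 0))))) (N (N (L (nat_lit 0)) (N (L (nat_lit 0x200000000000000000000)) (L (nat_lit 0)))) (N (L (nat_lit 0)) (N (L (nat_lit 0x21a8e35c0b88f74845c00)) (L (nat_lit 0)))))))) (L (nat_lit 0))) (N (N (L (nat_lit 0)) (N (N (N (L (nat_lit 0)) (N (N (L (nat_lit 0x200000000000000000000)) (L (nat_lit 0))) (L (nat_lit 0)))) (L (nat_lit 0))) (N (N (L (nat_lit 0)) (N (N (L (nat_lit 0x200000000000000000000)) (L (nat_lit 0))) (L (nat_lit 0)))) (L (nat_lit 0))))) (L (nat_lit 0)))))) (N (N (N (N (N (N (N (N (N (N (L (nat_lit 0x200000000000000000000)) (L (nat_lit 0x200000000000000000000))) (N (L (nat_lit 0x200000000000000000000)) (L (nat_lit 0)))) (N (N (L (nat_lit 0x200000000000000000000)) (L (nat_lit 0))) (N (L (nat_lit 0x20d26d2b05e49868f4000)) (L (nat_lit 0))))) (N (N (N (L (nat_lit 0x205eb921122cbaba87400)) (L (nat_lit 0x200000000000000000000))) (N (L (nat_lit 0x2091bbbac7c20e014f000))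 (L (nat_lit 0)))) (N (N (L (nat_lit 0x22ce257d7ad49579f8800)) (L (nat_lit 0))) (N (L (nat_lit 0x20ae840534e3b4436c000)) (L (nat_lit 0)))))) (N (N (N (N (L (nat_lit 0x1ffda3343619a75ad9000)) (L (nat_lit 0x25863ee8f6836817ad000))) (N (L (nat_lit 0x200000000000000000000)) (L (nat_lit 0)))) (N (N (L (nat_lit 0x200000000000000000000)) (L (nat_lit 0))) (N (L (nat_lit 0x1ef42b74ddc1d16b48c00)) (L (nat_lit 0))))) (N (N (N (L (nat_lit 0x1f4288c31ec2db6889000)) (L (nat_lit 0))) (L (nat_lit 0))) (N (N (L (nat_lit 0x200000000000000000000)) (L (nat_lit 0))) (N (L (nat_lit 0x200000000000000000000)) (L (nat_lit 0))))))) (N (N (N (N (N (L (nat_lit 0x200000000000000000000)) (L (nat_lit 0x1d8d086723157dab95000))) (N (L (nat_lit 0x1f520beac81f252eb9000)) (L (nat_lit 0)))) (N (N (L (nat_lit 0x200000000000000000000)) (L (nat_lit 0))) (N (L (nat_lit 0x200000000000000000000)) (L (nat_lit 0))))) (N (N (N (L (nat_lit 0x200000000000000000000)) (L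 (nat_lit 0))) (N (L (nat_lit 0x1f8f6ec84dcbd958b2000)) (L (nat_lit 0)))) (N (N (L (nat_lit 0x200000000000000000000)) (L (nat_lit 0))) (N (L (nat_lit 0x2083c5be073297b0df000)) (L (nat_lit 0)))))) (N (N (N (N (L (nat_lit 0x200000000000000000000)) (L (nat_lit 0x200000000000000000000))) (N (L (nat_lit 0x200000000000000000000)) (L (nat_lit 0)))) (N (N (L (nat_lit 0x200000000000000000000)) (L (nat_lit 0))) (N (L (nat_lit 0x20ce9afb313849b296800)) (L (nat_lit 0))))) (N (N (N (L (nat_lit 0x200000000000000000000)) (L (nat_lit 0))) (N (L (nat_lit 0x1fbd0c1f6937bbd196800)) (L (nat_lit 0)))) (N (N (L (nat_lit 0x2107e9989a7dd431b8800)) (L (nat_lit 0))) (N (L (nat_lit 0x1ff311e9e0109e86ce000)) (L (nat_lit 0)))))))) (L (nat_lit 0))) (N (N (N (N (N (L (nat_lit 0)) (N (N (L (nat_lit 0x200000000000000000000)) (L (nat_lit 0))) (N (L (nat_lit 0x200000000000000000000)) (L (nat_lit 0))))) (L (nat_lit 0))) (N (N (L (nat_lit 0)) (N (N (L (nat_lit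 0x200000000000000000000)) (L (nat_lit 0))) (L (nat_lit 0)))) (N (L (nat_lit 0)) (N (L (nat_lit 0)) (N (L (nat_lit 0x1dd81dacc552cfb9da200)) (L (nat_lit 0))))))) (N (N (N (L (nat_lit 0)) (N (N (L (nat_lit 0x201ec36cf2815ce6d5600)) (L (nat_lit 0))) (L (nat_lit 0)))) (N (N (N (L (nat_lit 0x200000000000000000000)) (L (nat_lit 0))) (L (nat_lit 0))) (L (nat_lit 0)))) (N (N (N (L (nat_lit 0)) (N (L (nat_lit 0x200000000000000000000)) (L (nat_lit 0)))) (N (N (L (nat_lit 0x1ed8bf2b5fc7c3dc49000)) (L (nat_lit 0))) (L (nat_lit 0)))) (L (nat_lit 0))))) (L (nat_lit 0)))) (N (N (N (N (N (N (N (L (nat_lit 0)) (N (L (nat_lit 0x1e29a8695755fa2498800)) (L (nat_lit 0)))) (N (N (L (nat_lit 0x200000000000000000000)) (L (nat_lit 0))) (N (L (nat_lit 0x201c12207643b14dc7400)) (L (nat_lit 0))))) (N (N (L (nat_lit 0)) (N (L (nat_lit 0x200000000000000000000)) (L (nat_lit 0)))) (N (N (L (nat_lit 0x200000000000000000000)) (L (nat_lit 0))) (N (L (nat_lit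 0x21c907a47f4a0d58c3000)) (L (nat_lit 0)))))) (N (N (N (N (L (nat_lit 0x200000000000000000000)) (L (nat_lit 0))) (L (nat_lit 0))) (N (N (L (nat_lit 0x200000000000000000000)) (L (nat_lit 0))) (N (L (nat_lit 0x2011dd9fb205592fa1800)) (L (nat_lit 0))))) (N (L (nat_lit 0)) (N (L (nat_lit 0)) (N (L (nat_lit 0x200000000000000000000)) (L (nat_lit 0))))))) (N (N (N (N (N (L (nat_lit 0)) (L (nat_lit 0x200000000000000000000))) (L (nat_lit 0))) (N (N (L (nat_lit 0x200000000000000000000)) (L (nat_lit 0))) (N (L (nat_lit 0x1d4abad876b4bf9e26c00)) (L (nat_lit 0))))) (N (N (N (L (nat_lit 0x1fdd7d352cde72477e000)) (L (nat_lit 0))) (N (L (nat_lit 0x200000000000000000000)) (L (nat_lit 0)))) (L (nat_lit 0)))) (N (N (N (N (L (nat_lit 0x200000000000000000000)) (L (nat_lit 0))) (N (L (nat_lit 0x20de8079932af5130d800)) (L (nat_lit 0)))) (N (N (L (nat_lit 0x1df302146b880f34e6800)) (L (nat_lit 0))) (N (L (nat_lit 0x1fa1f52faa1416253a600)) (L (nat_lit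 0))))) (N (N (N (L (nat_lit 0x200000000000000000000)) (L (nat_lit 0))) (N (L (nat_lit 0x1ebcac506a2b55dfc4400)) (L (nat_lit 0)))) (N (N (L (nat_lit 0x200000000000000000000)) (L (nat_lit 0))) (N (L (nat_lit 0x212b2fdb831d261f10000)) (L (nat_lit 0)))))))) (L (nat_lit 0))) (N (N (L (nat_lit 0)) (N (N (N (L (nat_lit 0)) (N (N (L (nat_lit 0x200000000000000000000)) (L (nat_lit 0))) (L (nat_lit 0)))) (L (nat_lit 0))) (N (N (N (L (nat_lit 0)) (N (L (nat_lit 0x200000000000000000000)) (L (nat_lit 0)))) (N (N (L (nat_lit 0x200000000000000000000)) (L (nat_lit 0))) (L (nat_lit 0)))) (L (nat_lit 0))))) (L (nat_lit 0))))) (N (N (N (N (N (N (N (N (L (nat_lit 0)) (N (L (nat_lit 0x1f9aea3f41e7674bdf800)) (L (nat_lit 0)))) (N (N (L (nat_lit 0x203ac462276abe17c9400)) (L (nat_lit 0))) (N (L (nat_lit 0x1ebcbada62b9978c94800)) (L (nat_lit 0))))) (N (N (N (L (nat_lit 0x200000000000000000000)) (L (nat_lit 0x200000000000000000000))) (N (L (nat_lit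 0x200000000000000000000)) (L (nat_lit 0)))) (N (N (L (nat_lit 0x200000000000000000000)) (L (nat_lit 0))) (N (L (nat_lit 0x1ff527548addf7b386400)) (L (nat_lit 0)))))) (N (N (N (N (L (nat_lit 0x1f980406fe5fd9d746800)) (L (nat_lit 0))) (N (L (nat_lit 0x200000000000000000000)) (L (nat_lit 0)))) (N (N (L (nat_lit 0x200000000000000000000)) (L (nat_lit 0))) (N (L (nat_lit 0x205afeb492b690ac18800)) (L (nat_lit 0))))) (N (N (N (L (nat_lit 0x200000000000000000000)) (L (nat_lit 0))) (L (nat_lit 0))) (N (L (nat_lit 0)) (N (L (nat_lit 0x22db9dc7a452d256df800)) (L (nat_lit 0))))))) (N (N (N (N (N (L (nat_lit 0x200000000000000000000)) (L (nat_lit 0x200000000000000000000))) (N (L (nat_lit 0x2105053177ca41135a000)) (L (nat_lit 0)))) (N (N (L (nat_lit 0x1fef788574bff5f239800)) (L (nat_lit 0))) (N (L (nat_lit 0x203768735a00c2264f000)) (L (nat_lit 0))))) (N (N (N (L (nat_lit 0x1ff373491bcd49942d200)) (L (nat_lit 0))) (N (L (nat_lit 0x200000000000000000000))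 (L (nat_lit 0)))) (L (nat_lit 0)))) (N (N (N (N (L (nat_lit 0x200000000000000000000)) (L (nat_lit 0x237d0d07b838bf9570000))) (N (L (nat_lit 0x200000000000000000000)) (L (nat_lit 0)))) (N (N (L (nat_lit 0x200000000000000000000)) (L (nat_lit 0))) (N (L (nat_lit 0x1dabc5d5ada55bc9e7100)) (L (nat_lit 0))))) (N (N (N (L (nat_lit 0x200000000000000000000)) (L (nat_lit 0))) (N (L (nat_lit 0x200000000000000000000)) (L (nat_lit 0)))) (N (N (L (nat_lit 0x1ec0770f5033179323000)) (L (nat_lit 0))) (N (L (nat_lit 0x200000000000000000000)) (L (nat_lit 0)))))))) (L (nat_lit 0))) (N (N (N (L (nat_lit 0)) (N (N (L (nat_lit 0)) (N (N (L (nat_lit 0x200000000000000000000)) (L (nat_lit 0))) (L (nat_lit 0)))) (N (L (nat_lit 0)) (N (L (nat_lit 0)) (N (L (nat_lit 0x1db70f2889b3a94e44400)) (L (nat_lit 0))))))) (N (N (N (L (nat_lit 0)) (N (N (L (nat_lit 0x1ea4e53784d0821f14800)) (L (nat_lit 0))) (L (nat_lit 0)))) (L (nat_lit 0))) (N (N (N (L (nat_lit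 0)) (N (L (nat_lit 0x200000000000000000000)) (L (nat_lit 0)))) (N (N (L (nat_lit 0x200000000000000000000)) (L (nat_lit 0))) (L (nat_lit 0)))) (L (nat_lit 0))))) (L (nat_lit 0)))) (N (N (N (N (N (N (N (L (nat_lit 0)) (N (L (nat_lit 0x200000000000000000000)) (L (nat_lit 0)))) (N (N (L (nat_lit 0x1fe9564a29549c0104c00)) (L (nat_lit 0))) (N (L (nat_lit 0x20f9dc118f7ca97a98400)) (L (nat_lit 0))))) (N (N (L (nat_lit 0)) (N (L (nat_lit 0x200000000000000000000)) (L (nat_lit 0)))) (N (L (nat_lit 0)) (N (L (nat_lit 0x200000000000000000000)) (L (nat_lit 0)))))) (N (N (N (N (L (nat_lit 0x200000000000000000000)) (L (nat_lit 0))) (L (nat_lit 0))) (N (N (L (nat_lit 0x200000000000000000000)) (L (nat_lit 0))) (N (L (nat_lit 0x1bcfd599133ba1fce3400)) (L (nat_lit 0))))) (N (L (nat_lit 0)) (N (L (nat_lit 0)) (N (L (nat_lit 0x23f61ec3e2c9f32426c00)) (L (nat_lit 0))))))) (N (N (N (L (nat_lit 0)) (N (N (L (nat_lit 0x1f7bc9cc0d02d5078a000)) (L (nat_lit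 0))) (N (L (nat_lit 0x200000000000000000000)) (L (nat_lit 0))))) (N (N (N (L (nat_lit 0x200000000000000000000)) (L (nat_lit 0))) (L (nat_lit 0))) (L (nat_lit 0)))) (N (N (N (N (L (nat_lit 0x200000000000000000000)) (L (nat_lit 0))) (N (L (nat_lit 0x1f7f244fd96451caef000)) (L (nat_lit 0)))) (N (N (L (nat_lit 0x200000000000000000000)) (L (nat_lit 0))) (N (L (nat_lit 0x200000000000000000000)) (L (nat_lit 0))))) (N (L (nat_lit 0)) (N (L (nat_lit 0)) (N (L (nat_lit 0x200000000000000000000)) (L (nat_lit 0)))))))) (L (nat_lit 0))) (N (N (L (nat_lit 0)) (N (N (N (L (nat_lit 0)) (N (N (L (nat_lit 0x200000000000000000000)) (L (nat_lit 0))) (L (nat_lit 0)))) (L (nat_lit 0))) (L (nat_lit 0)))) (L (nat_lit 0))))))))) Tr.N Tr.L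
noncomputable def tZT : Tr := (fun (N : Tr → Tr → Tr) (L : ℕ → Tr) => (N (N tZT_0 tZT_1) (N tZT_2 tZT_3))) Tr.N Tr.L

end Pool.Agent.Work.MP_f94384_co.Big.R2
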