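import Pool.Agent.Work.MP_f94384_co.Big.R2.D0
import Pool.Agent.Work.MP_f94384_co.Big.R2.BU
import Pool.Agent.Work.MP_f94384_co.Big.R2.BE
import Pool.Agent.Work.MP_f94384_co.Big.R2.BV
import Pool.Agent.Work.MP_f94384_co.Big.R2.DP
import Pool.Agent.Work.MP_f94384_co.Big.R2.CG
set_option autoImplicit false

/-! Data of the certificate (generated) -/

namespace Pool.Agent.Work.MP_f94384_co.Big.R2

/-- the certificate -/
noncomputable def dt : Dt where
  N := 8
  s := 3
  m := 50
  q := 7
  W := 96
  c := 95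
  o := 81
  Z := 112
  c2 := 104
  o2 := 98
  v := 1
  nR1 := 107
  nR2 := 38
  nBU := 431
  nBE := 380
  NU := 1671573471673099346937051648364607577631380724390124488414973304785641591711092609502685459
  NE := 8523548280904506
  NV := 6817080261757490
  R1 := tR1
  R2 := tR2
  TU := tTU
  TE := tTE
  BU := tBU
  BE := tBE
  FU := tFU
  FE := tFE
  WU := tWU
  WE := tWE
  BV := tBV
  FV := tFV
  WV := tWV
  HU := tHU
  HE := tHE
  HV := tHV
  C0 := tC0
  DT := tDT
  PT := tPT
  ZT := tZT
  R0 := tR0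
  C1 := tC1
  C2 := tC2

end Pool.Agent.Work.MP_f94384_co.Big.R2
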