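import Pool.Agent.Work.MP_f94384_co.Big.R2.Dat
import Pool.Agent.Work.MP_f94384_co.Big.Rng
set_option autoImplicit false
set_option maxRecDepth 1000000
set_option linter.all false

/-! Checks of the certificate (generated) -/

namespace Pool.Agent.Work.MP_f94384_co.Big.R2

theorem g0_0 : allL (fun k => (cG dt) (Nat.add 0 k)) 3 = true := by decide +kernel
theorem g0_3 : allL (fun k => (cG dt) (Nat.add 3 k)) 3 = true := by decide +kernel
theorem g0_6 : allL (fun k => (cG dt) (Nat.add 6 k)) 3 = true := by decide +kernel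
theorem g0_9 : allL (fun k => (cG dt) (Nat.add 9 k)) 3 = true := by decide +kernel
theorem g0_12 : allL (fun k => (cG dt) (Nat.add 12 k)) 3 = true := by decide +kernel
theorem g0_15 : allL (fun k => (cG dt) (Nat.add 15 k)) 2 = true := by decide +kernel
theorem g0 : Rng (cG dt) 0 17 := (((((rng_of (f := cG dt) g0_0 rfl).app (rng_of g0_3 rfl)).app (rng_of g0_6 rfl)).app (rng_of g0_9 rfl)).app (rng_of g0_12 rfl)).app (rng_of g0_15 rfl)

end Pool.Agent.Work.MP_f94384_co.Big.R2
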