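import Pool.Agent.Work.MP_f94384_co.Big.R2.Dat
import Pool.Agent.Work.MP_f94384_co.Big.Rng
set_option autoImplicit false
set_option maxRecDepth 1000000
set_option linter.all false

/-! Checks of the certificate (generated) -/

namespace Pool.Agent.Work.MP_f94384_co.Big.R2

theorem g19_324 : allL (fun k => (cG dt) (Nat.add 324 k)) 3 = true := by decide +kernel
theorem g19_327 : allL (fun k => (cG dt) (Nat.add 327 k)) 3 = true := by decide +kernel
theorem g19_330 : allL (fun k => (cG dt) (Nat.add 330 k)) 3 = true := by decide +kernel
theorem g19_333 : allL (fun k => (cG dt) (Nat.add 333 k)) 3 = true := by decide +kernel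
theorem g19_336 : allL (fun k => (cG dt) (Nat.add 336 k)) 3 = true := by decide +kernel
theorem g19_339 : allL (fun k => (cG dt) (Nat.add 339 k)) 2 = true := by decide +kernel
theorem g19 : Rng (cG dt) 324 341 := (((((rng_of (f := cG dt) g19_324 rfl).app (rng_of g19_327 rfl)).app (rng_of g19_330 rfl)).app (rng_of g19_333 rfl)).app (rng_of g19_336 rfl)).app (rng_of g19_339 rfl)

end Pool.Agent.Work.MP_f94384_co.Big.R2
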