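import Pool.Agent.Work.MP_f94384_co.Big.R2.Dat
import Pool.Agent.Work.MP_f94384_co.Big.Rng
set_option autoImplicit false
set_option maxRecDepth 1000000
set_option linter.all false

/-! Checks of the certificate (generated) -/

namespace Pool.Agent.Work.MP_f94384_co.Big.R2

theorem g9_153 : allL (fun k => (cG dt) (Nat.add 153 k)) 3 = true := by decide +kernel
theorem g9_156 : allL (fun k => (cG dt) (Nat.add 156 k)) 3 = true := by decide +kernel
theorem g9_159 : allL (fun k => (cG dt) (Nat.add 159 k)) 3 = true := by decide +kernel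
theorem g9_162 : allL (fun k => (cG dt) (Nat.add 162 k)) 3 = true := by decide +kernel
theorem g9_165 : allL (fun k => (cG dt) (Nat.add 165 k)) 3 = true := by decide +kernel
theorem g9_168 : allL (fun k => (cG dt) (Nat.add 168 k)) 2 = true := by decide +kernel
theorem g9 : Rng (cG dt) 153 170 := (((((rng_of (f := cG dt) g9_153 rfl).app (rng_of g9_156 rfl)).app (rng_of g9_159 rfl)).app (rng_of g9_162 rfl)).app (rng_of g9_165 rfl)).app (rng_of g9_168 rfl)

end Pool.Agent.Work.MP_f94384_co.Big.R2
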